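import Mathlib
import Pool.Graph.R_seed8.Helper112.LS
import Pool.Graph.R_seed8.Helper112.Arith

/-! Bilinear forms with kernels `1_{h ∣ m} (1_{e ∣ m} - 1 / e)`, by the additive large sieve. -/

set_option autoImplicit false

namespace Pool.Agent.H528.Bil

open Finset
open Pool.Agent.Helper112

/-- numerators of the reduced fractions with denominator `q` -/
def cop (q : ℕ) : Finset ℕ := (range q).filter (fun a => a.Coprime q)

lemma mem_cop {q a : ℕ} : a ∈ cop q ↔ a < q ∧ a.Coprime q := by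
  unfold cop; rw [mem_filter, mem_range]

/-- exponential sum -/
noncomputable def FS (s : Finset ℕ) (c : ℕ → ℝ) (x : ℝ) : ℂ := ∑ n ∈ s, (c n : ℂ) * ee (n * x)

/-- orthogonality -/
lemma orth (k : ℕ) (hk : 1 ≤ k) (m : ℤ) :
    ∑ b ∈ range k, ee (m * ((b : ℝ) / k)) = if (k : ℤ) ∣ m then (k : ℂ) else 0 := by
  have hk0 : (k : ℝ) ≠ 0 := by positivity
  have h1 : ∀ b ∈ range k, ee (m * ((b : ℝ) / k)) = ee (m / k) ^ b := by
    intro b _
    rw [← ls_ee_nat_mul]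
    congr 1
    field_simp
  rw [sum_congr rfl h1]
  split_ifs with h
  · obtain ⟨t, ht⟩ := h
    have h2 : ee ((m : ℝ) / k) = 1 := by
      have : ((m : ℝ) / k) = ((t : ℤ) : ℝ) := by
        rw [ht]; push_cast; field_simp
      rw [this, ls_ee_int]
    rw [h2]
    simp
  · have h2 : ee ((m : ℝ) / k) ≠ 1 := by
      intro h3
      obtain ⟨t, ht⟩ := ls_ee_eq_one h3
      apply h
      refine ⟨t, ?_⟩
      rw [div_eq_iff hk0] at ht
      have : (m : ℝ) = ((k : ℤ) * t : ℤ) := by rw [ht]; push_cast; ring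
      exact_mod_cast this
    have h3 : ee ((m : ℝ) / k) ^ k = 1 := by
      rw [← ls_ee_nat_mul]
      have : (k : ℝ) * ((m : ℝ) / k) = ((m : ℤ) : ℝ) := by field_simp
      rw [this, ls_ee_int]
    have h4 := geom_sum_eq h2 k
    rw [h4, h3, sub_self, zero_div]

/-- the kernel -/
lemma kernel (h e : ℕ) (hh : 1 ≤ h) (he : 1 ≤ e) (hc : h.Coprime e) (m : ℤ) :
    ((((if (h : ℤ) ∣ m then 1 else 0) * ((if (e : ℤ) ∣ m then 1 else 0) - 1 / (e : ℝ)) : ℝ)) : ℂ) =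
      (1 / ((h * e : ℕ) : ℂ)) * ∑ b ∈ (range (h * e)).filter (fun b => ¬ e ∣ b), ee (m * ((b : ℝ) / ((h * e : ℕ) : ℝ))) := by
  have hk : 1 ≤ h * e := Nat.mul_pos hh he
  have he0 : (e : ℂ) ≠ 0 := by exact_mod_cast (by omega : e ≠ 0)
  have hh0 : (h : ℂ) ≠ 0 := by exact_mod_cast (by omega : h ≠ 0)
  have he0r : (e : ℝ) ≠ 0 := by exact_mod_cast (by omega : e ≠ 0)
  have hh0r : (h : ℝ) ≠ 0 := by exact_mod_cast (by omega : h ≠ 0)
  have h1 := sum_filter_add_sum_filter_not (range (h * e)) (fun b => e ∣ b)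
    (fun b : ℕ => ee (m * ((b : ℝ) / ((h * e : ℕ) : ℝ))))
  rw [orth (h * e) hk m] at h1
  have h2 : ∑ b ∈ (range (h * e)).filter (fun b => e ∣ b), ee (m * ((b : ℝ) / ((h * e : ℕ) : ℝ))) =
      if (h : ℤ) ∣ m then (h : ℂ) else 0 := by
    rw [← orth h hh m]
    symm
    refine sum_bij (fun b _ => e * b) ?_ ?_ ?_ ?_
    · intro b hb
      rw [mem_range] at hb
      rw [mem_filter, mem_range]
      exact ⟨by rw [mul_comm h e]; exact Nat.mul_lt_mul_of_pos_left hb he, dvd_mul_right _ _⟩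
    · intro b _ b' _ hbb
      exact Nat.eq_of_mul_eq_mul_left he hbb
    · intro b hb
      rw [mem_filter, mem_range] at hb
      obtain ⟨hb1, c, rfl⟩ := hb
      refine ⟨c, ?_, rfl⟩
      rw [mem_range]
      rw [mul_comm h e] at hb1
      exact Nat.lt_of_mul_lt_mul_left hb1
    · intro b _
      congr 1
      push_cast
      field_simp
  rw [h2] at h1
  have h3 : ∑ b ∈ (range (h * e)).filter (fun b => ¬ e ∣ b), ee (m * ((b : ℝ) / ((h * e : ℕ) : ℝ))) =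
      (if ((h * e : ℕ) : ℤ) ∣ m then ((h * e : ℕ) : ℂ) else 0) - (if (h : ℤ) ∣ m then (h : ℂ) else 0) := by
    rw [← h1]; ring
  rw [h3]
  have h4 : ((h * e : ℕ) : ℤ) ∣ m ↔ ((h : ℤ) ∣ m ∧ (e : ℤ) ∣ m) := by
    constructor
    · intro h5
      push_cast at h5
      exact ⟨(dvd_mul_right _ _).trans h5, (dvd_mul_left _ _).trans h5⟩
    · rintro ⟨h5, h6⟩
      push_cast
      exact IsCoprime.mul_dvd (Nat.isCoprime_iff_coprime.2 hc) h5 h6
  by_cases h5 : (h : ℤ) ∣ m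
  · by_cases h6 : (e : ℤ) ∣ m
    · rw [if_pos (h4.2 ⟨h5, h6⟩), if_pos h5, if_pos h5, if_pos h6]
      push_cast
      field_simp
    · rw [if_neg (fun h7 => h6 (h4.1 h7).2), if_pos h5, if_pos h5, if_neg h6]
      push_cast
      field_simp
      ring
  · rw [if_neg (fun h7 => h5 (h4.1 h7).1), if_neg h5, if_neg h5]
    simp

/-- grouping fractions by their denominators -/
lemma group (k z e h : ℕ) (hk : k = h * e) (hh : 1 ≤ h) (he : 1 ≤ e)
    (hez : ∀ p : ℕ, p.Prime → p ∣ e → z < p) (G : ℝ → ℝ) (hG : ∀ x, 0 ≤ G x) :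
    ∑ b ∈ (range k).filter (fun b => ¬ e ∣ b), G ((b : ℝ) / k) ≤
      ∑ q ∈ k.divisors.filter (fun q => z < q), ∑ b ∈ cop q, G ((b : ℝ) / q) := by
  classical
  have hk1 : 1 ≤ k := by rw [hk]; exact Nat.mul_pos hh he
  rw [sum_sigma']
  set φ : ℕ → Σ _ : ℕ, ℕ := fun b => ⟨k / Nat.gcd b k, b / Nat.gcd b k⟩ with hφ
  have hgp : ∀ b, 0 < Nat.gcd b k := fun b => Nat.gcd_pos_of_pos_right _ hk1
  have hinj : Set.InjOn φ (((range k).filter (fun b => ¬ e ∣ b) : Finset ℕ) : Set ℕ) := by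
    intro b _ b' _ hbb
    rw [hφ] at hbb
    simp only [Sigma.mk.injEq, heq_eq_eq] at hbb
    obtain ⟨h1, h2⟩ := hbb
    have h3 : Nat.gcd b k * (k / Nat.gcd b k) = k := Nat.mul_div_cancel' (Nat.gcd_dvd_right _ _)
    have h4 : Nat.gcd b' k * (k / Nat.gcd b' k) = k := Nat.mul_div_cancel' (Nat.gcd_dvd_right _ _)
    rw [← h1] at h4
    have h5 : 0 < k / Nat.gcd b k := Nat.div_pos (Nat.le_of_dvd hk1 (Nat.gcd_dvd_right _ _)) (hgp b)
    have h6 : Nat.gcd b k = Nat.gcd b' k := Nat.eq_of_mul_eq_mul_right h5 (h3.trans h4.symm)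
    have h7 : Nat.gcd b k * (b / Nat.gcd b k) = b := Nat.mul_div_cancel' (Nat.gcd_dvd_left _ _)
    have h8 : Nat.gcd b' k * (b' / Nat.gcd b' k) = b' := Nat.mul_div_cancel' (Nat.gcd_dvd_left _ _)
    rw [← h7, ← h8, h2, h6]
  have hval : ∀ b ∈ (range k).filter (fun b => ¬ e ∣ b), G ((b : ℝ) / k) =
      (fun x : Σ _ : ℕ, ℕ => G ((x.2 : ℝ) / x.1)) (φ b) := by
    intro b _
    rw [hφ]
    simp only
    congr 1
    have h9 : (Nat.gcd b k : ℝ) ≠ 0 := by exact_mod_cast (hgp b).ne'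
    rw [Nat.cast_div (Nat.gcd_dvd_left _ _) h9, Nat.cast_div (Nat.gcd_dvd_right _ _) h9]
    field_simp
  rw [sum_congr rfl hval, ← sum_image (f := fun x : Σ _ : ℕ, ℕ => G ((x.2 : ℝ) / x.1)) hinj]
  refine sum_le_sum_of_subset_of_nonneg ?_ (fun x _ _ => hG _)
  intro x hx
  rw [mem_image] at hx
  obtain ⟨b, hb, rfl⟩ := hx
  rw [mem_filter, mem_range] at hb
  obtain ⟨hbk, hbe⟩ := hb
  have hbpos : 0 < b := by
    rcases Nat.eq_zero_or_pos b with h0 | h0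
    · exact absurd (h0 ▸ dvd_zero e) hbe
    · exact h0
  rw [mem_sigma]
  have hqdvd : k / Nat.gcd b k ∣ k := Nat.div_dvd_of_dvd (Nat.gcd_dvd_right _ _)
  refine ⟨?_, ?_⟩
  · simp only [hφ]
    rw [mem_filter, Nat.mem_divisors]
    refine ⟨⟨hqdvd, by omega⟩, ?_⟩
    by_contra hle
    push Not at hle
    apply hbe
    -- the denominator is coprime to `e`
    have hcop : Nat.Coprime e (k / Nat.gcd b k) := by
      rw [Nat.coprime_iff_gcd_eq_one]
      by_contra hne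
      obtain ⟨p, hp, hpd⟩ := Nat.exists_prime_and_dvd hne
      have h1 := hez p hp (hpd.trans (Nat.gcd_dvd_left _ _))
      have h2 : p ∣ k / Nat.gcd b k := hpd.trans (Nat.gcd_dvd_right _ _)
      have h3 : 0 < k / Nat.gcd b k := Nat.div_pos (Nat.le_of_dvd hk1 (Nat.gcd_dvd_right _ _)) (hgp b)
      have h4 := Nat.le_of_dvd h3 h2
      omega
    have h5 : e ∣ (k / Nat.gcd b k) * Nat.gcd b k := by
      rw [Nat.div_mul_cancel (Nat.gcd_dvd_right _ _), hk]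
      exact dvd_mul_left _ _
    exact (hcop.dvd_of_dvd_mul_left h5).trans (Nat.gcd_dvd_left _ _)
  · simp only [hφ]
    rw [mem_cop]
    refine ⟨?_, Nat.coprime_div_gcd_div_gcd (hgp b)⟩
    exact Nat.div_lt_div_of_lt_of_dvd (Nat.gcd_dvd_right _ _) hbk


/-- number of pairs of `S` congruent modulo `q` -/
noncomputable def cnt (S : Finset ℕ) (q : ℕ) : ℝ :=
  ∑ a ∈ S, ∑ a' ∈ S, (if (q : ℤ) ∣ (a : ℤ) - a' then 1 else 0)

lemma cnt_nonneg (S : Finset ℕ) (q : ℕ) : 0 ≤ cnt S q :=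
  sum_nonneg fun _ _ => sum_nonneg fun _ _ => by split_ifs <;> norm_num

/-- Parseval modulo `q` -/
lemma pars (q : ℕ) (hq : 1 ≤ q) (S : Finset ℕ) (c : ℕ → ℝ) (hc : ∀ a, |c a| ≤ 1) :
    ∑ b ∈ range q, ‖FS S c ((b : ℝ) / q)‖ ^ 2 ≤ q * cnt S q := by
  have h1 : (((∑ b ∈ range q, ‖FS S c ((b : ℝ) / q)‖ ^ 2 : ℝ)) : ℂ) =
      (((∑ a ∈ S, ∑ a' ∈ S, c a * c a' * (if (q : ℤ) ∣ (a : ℤ) - a' then (q : ℝ) else 0) : ℝ)) : ℂ) := by
    have h2 : ∀ b ∈ range q, (((‖FS S c ((b : ℝ) / q)‖ ^ 2 : ℝ)) : ℂ) =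
        ∑ a ∈ S, ∑ a' ∈ S, (c a : ℂ) * (c a' : ℂ) * ee ((((a : ℤ) - a' : ℤ) : ℝ) * ((b : ℝ) / q)) := by
      intro b _
      push_cast
      rw [← Complex.mul_conj']
      unfold FS
      rw [map_sum, sum_mul_sum]
      refine sum_congr rfl fun a _ => sum_congr rfl fun a' _ => ?_
      rw [map_mul, ls_conj_ee, Complex.conj_ofReal]
      have : ee (((a : ℝ) - (a' : ℝ)) * ((b : ℝ) / q)) = ee (a * ((b : ℝ) / q)) * ee (-(a' * ((b : ℝ) / q))) := by
        rw [← ls_ee_add]; congr 1; ring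
      rw [this]
      ring
    push_cast at h2 ⊢
    rw [sum_congr rfl h2, sum_comm]
    refine sum_congr rfl fun a _ => ?_
    rw [sum_comm]
    refine sum_congr rfl fun a' _ => ?_
    rw [← mul_sum]
    have h3 := orth q hq ((a : ℤ) - a')
    push_cast at h3
    rw [h3]
    split_ifs <;> simp
  have h2 : ∑ b ∈ range q, ‖FS S c ((b : ℝ) / q)‖ ^ 2 =
      ∑ a ∈ S, ∑ a' ∈ S, c a * c a' * (if (q : ℤ) ∣ (a : ℤ) - a' then (q : ℝ) else 0) := by
    exact_mod_cast h1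
  rw [h2]
  unfold cnt
  rw [mul_sum]
  refine sum_le_sum fun a _ => ?_
  rw [mul_sum]
  refine sum_le_sum fun a' _ => ?_
  have h3 : c a * c a' ≤ 1 := by
    refine (le_abs_self _).trans ?_
    rw [abs_mul]
    exact mul_le_one₀ (hc a) (abs_nonneg _) (hc a')
  split_ifs
  · have : (0 : ℝ) ≤ q := Nat.cast_nonneg _
    nlinarith
  · simp

/-- few pairs are congruent -/
lemma sum_cnt (N : ℕ) (S B : Finset ℕ) (hS : ∀ a ∈ S, a ≤ N) (T : ℝ) (hT0 : 0 ≤ T)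
    (hT : ∀ m : ℕ, 1 ≤ m → m ≤ N → (m.divisors.card : ℝ) ≤ T) :
    ∑ q ∈ B, cnt S q ≤ B.card * S.card + T * S.card ^ 2 := by
  classical
  unfold cnt
  rw [sum_comm]
  have h1 : ∀ a ∈ S, ∑ q ∈ B, ∑ a' ∈ S, (if (q : ℤ) ∣ (a : ℤ) - a' then (1 : ℝ) else 0) ≤
      B.card + T * S.card := by
    intro a ha
    rw [sum_comm]
    have h2 : ∀ a' ∈ S, ∑ q ∈ B, (if (q : ℤ) ∣ (a : ℤ) - a' then (1 : ℝ) else 0) ≤
        (if a = a' then (B.card : ℝ) else 0) + T := by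
      intro a' ha'
      by_cases h : a = a'
      · rw [if_pos h]
        calc ∑ q ∈ B, (if (q : ℤ) ∣ (a : ℤ) - a' then (1 : ℝ) else 0) ≤ ∑ _q ∈ B, (1 : ℝ) :=
              sum_le_sum fun q _ => by split_ifs <;> norm_num
          _ = B.card := by simp
          _ ≤ _ := by linarith
      · rw [if_neg h, zero_add]
        have hne : ((a : ℤ) - a').natAbs ≠ 0 := by omega
        have h3 : ∑ q ∈ B, (if (q : ℤ) ∣ (a : ℤ) - a' then (1 : ℝ) else 0) ≤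
            (((a : ℤ) - a').natAbs.divisors.card : ℝ) := by
          rw [← sum_filter, sum_const, nsmul_eq_mul, mul_one]
          refine Nat.cast_le.2 (card_le_card fun q hq => ?_)
          rw [mem_filter] at hq
          rw [Nat.mem_divisors]
          exact ⟨Int.natCast_dvd.1 hq.2, hne⟩
        refine h3.trans (hT _ (by omega) ?_)
        have := hS a ha
        have := hS a' ha'
        omega
    refine (sum_le_sum h2).trans ?_
    rw [sum_add_distrib, sum_ite_eq, if_pos ha, sum_const, nsmul_eq_mul]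
    linarith
  refine (sum_le_sum h1).trans ?_
  rw [sum_const, nsmul_eq_mul]
  exact le_of_eq (by ring)

/-- harmonic sums -/
lemma harm {ι : Type*} (I : Finset ι) (k : ι → ℕ) (K0 : ℕ) (hk : Set.InjOn k (I : Set ι))
    (hk1 : ∀ i ∈ I, 1 ≤ k i ∧ k i ≤ K0) (q : ℕ) (hq : 1 ≤ q) :
    ∑ i ∈ I.filter (fun i => q ∣ k i), (1 / (k i : ℝ)) ≤ (1 / (q : ℝ)) * ∑ m ∈ Icc 1 K0, (1 / (m : ℝ)) := by
  classical
  have hinj : Set.InjOn (fun i => k i / q) ((I.filter (fun i => q ∣ k i) : Finset ι) : Set ι) := by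
    intro i hi j hj hij
    rw [mem_coe, mem_filter] at hi hj
    simp only at hij
    apply hk hi.1 hj.1
    rw [← Nat.div_mul_cancel hi.2, ← Nat.div_mul_cancel hj.2, hij]
  have h1 : ∀ i ∈ I.filter (fun i => q ∣ k i), (1 / (k i : ℝ)) = (1 / (q : ℝ)) * (1 / ((k i / q : ℕ) : ℝ)) := by
    intro i hi
    rw [mem_filter] at hi
    have hq0 : (q : ℝ) ≠ 0 := by positivity
    have hk0 : (k i : ℝ) ≠ 0 := by
      have := (hk1 i hi.1).1
      positivity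
    rw [Nat.cast_div hi.2 hq0]
    field_simp
  rw [sum_congr rfl h1, ← mul_sum]
  apply mul_le_mul_of_nonneg_left _ (by positivity)
  rw [← sum_image (f := fun m : ℕ => (1 / (m : ℝ))) hinj]
  refine sum_le_sum_of_subset_of_nonneg ?_ (fun m _ _ => by positivity)
  intro m hm
  rw [mem_image] at hm
  obtain ⟨i, hi, rfl⟩ := hm
  rw [mem_filter] at hi
  obtain ⟨h2, h3⟩ := hk1 i hi.1
  rw [mem_Icc]
  exact ⟨Nat.div_pos (Nat.le_of_dvd h2 hi.2) hq, (Nat.div_le_self _ _).trans h3⟩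

/-- the bilinear sum at the denominator `q` -/
noncomputable def Wq {ι : Type*} (I : Finset ι) (k : ι → ℕ) (F : ℝ → ℂ) (A : ι → ℝ → ℂ) (q : ℕ) : ℝ :=
  ∑ i ∈ I.filter (fun i => q ∣ k i), (1 / (k i : ℝ)) * ∑ b ∈ cop q, ‖F ((b : ℝ) / q)‖ * ‖A i ((b : ℝ) / q)‖

lemma Wq_nonneg {ι : Type*} (I : Finset ι) (k : ι → ℕ) (F : ℝ → ℂ) (A : ι → ℝ → ℂ) (q : ℕ) :
    0 ≤ Wq I k F A q :=
  sum_nonneg fun _ _ => mul_nonneg (by positivity) (sum_nonneg fun _ _ => by positivity)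

/-- one dyadic block -/
lemma block {ι : Type*} (N : ℕ) (f : ℕ → ℝ) (hf : ∀ n, |f n| ≤ 1) (S : Finset ℕ) (hS : ∀ a ∈ S, a ≤ N)
    (I : Finset ι) (k : ι → ℕ) (K0 : ℕ) (hk : Set.InjOn k (I : Set ι))
    (hk1 : ∀ i ∈ I, 1 ≤ k i ∧ k i ≤ K0) (c : ι → ℕ → ℝ) (hc : ∀ i a, |c i a| ≤ 1)
    (T : ℝ) (hT0 : 0 ≤ T) (hT : ∀ m : ℕ, 1 ≤ m → m ≤ N → (m.divisors.card : ℝ) ≤ T)
    (H : ℝ) (hH : ∑ m ∈ Icc 1 K0, (1 / (m : ℝ)) ≤ H)
    (Q : ℕ) (hQ : 1 ≤ Q) (B : Finset ℕ) (hB : ∀ q ∈ B, Q ≤ q ∧ q < 2 * Q) :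
    (∑ q ∈ B, Wq I k (FS (Icc 1 N) f) (fun i => FS S (c i)) q) ^ 2 ≤
      (H / Q * (6 * (N + (2 * Q : ℝ) ^ 2) * N)) * (H * (Q * S.card + T * S.card ^ 2)) := by
  classical
  have hH0 : 0 ≤ H := (sum_nonneg fun m _ => by positivity).trans hH
  have hQ0 : (0 : ℝ) < Q := by exact_mod_cast hQ
  set F := FS (Icc 1 N) f with hF
  set A : ι → ℝ → ℂ := fun i => FS S (c i) with hA
  -- the index set
  set R : Finset (Σ _ : ℕ, Σ _ : ι, ℕ) := B.sigma (fun q => (I.filter (fun i => q ∣ k i)).sigma (fun _ => cop q)) with hR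
  have e1 : ∑ q ∈ B, Wq I k F A q = ∑ x ∈ R, (Real.sqrt (1 / (k x.2.1 : ℝ)) * ‖F ((x.2.2 : ℝ) / x.1)‖) *
      (Real.sqrt (1 / (k x.2.1 : ℝ)) * ‖A x.2.1 ((x.2.2 : ℝ) / x.1)‖) := by
    rw [hR, sum_sigma]
    refine sum_congr rfl fun q _ => ?_
    rw [sum_sigma]
    unfold Wq
    refine sum_congr rfl fun i _ => ?_
    rw [mul_sum]
    refine sum_congr rfl fun b _ => ?_
    simp only
    have : Real.sqrt (1 / (k i : ℝ)) * Real.sqrt (1 / (k i : ℝ)) = 1 / (k i : ℝ) :=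
      Real.mul_self_sqrt (by positivity)
    calc 1 / (k i : ℝ) * (‖F ((b : ℝ) / q)‖ * ‖A i ((b : ℝ) / q)‖) =
        (Real.sqrt (1 / (k i : ℝ)) * Real.sqrt (1 / (k i : ℝ))) * (‖F ((b : ℝ) / q)‖ * ‖A i ((b : ℝ) / q)‖) := by
          rw [this]
      _ = _ := by ring
  have e2 := sum_mul_sq_le_sq_mul_sq R
    (fun x => Real.sqrt (1 / (k x.2.1 : ℝ)) * ‖F ((x.2.2 : ℝ) / x.1)‖)
    (fun x => Real.sqrt (1 / (k x.2.1 : ℝ)) * ‖A x.2.1 ((x.2.2 : ℝ) / x.1)‖)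
  rw [e1]
  refine e2.trans ?_
  have hU : ∑ x ∈ R, (Real.sqrt (1 / (k x.2.1 : ℝ)) * ‖F ((x.2.2 : ℝ) / x.1)‖) ^ 2 ≤
      H / Q * (6 * (N + (2 * Q : ℝ) ^ 2) * N) := by
    have h1 : ∑ x ∈ R, (Real.sqrt (1 / (k x.2.1 : ℝ)) * ‖F ((x.2.2 : ℝ) / x.1)‖) ^ 2 =
        ∑ q ∈ B, (∑ i ∈ I.filter (fun i => q ∣ k i), (1 / (k i : ℝ))) * ∑ b ∈ cop q, ‖F ((b : ℝ) / q)‖ ^ 2 := by
      rw [hR, sum_sigma]
      refine sum_congr rfl fun q _ => ?_
      rw [sum_sigma, sum_mul_sum]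
      refine sum_congr rfl fun i _ => ?_
      refine sum_congr rfl fun b _ => ?_
      simp only
      rw [mul_pow, Real.sq_sqrt (by positivity)]
    rw [h1]
    have h2 : ∀ q ∈ B, (∑ i ∈ I.filter (fun i => q ∣ k i), (1 / (k i : ℝ))) * ∑ b ∈ cop q, ‖F ((b : ℝ) / q)‖ ^ 2 ≤
        H / Q * ∑ b ∈ cop q, ‖F ((b : ℝ) / q)‖ ^ 2 := by
      intro q hq
      apply mul_le_mul_of_nonneg_right _ (sum_nonneg fun _ _ => by positivity)
      have hq1 : 1 ≤ q := hQ.trans (hB q hq).1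
      refine (harm I k K0 hk hk1 q hq1).trans ?_
      calc 1 / (q : ℝ) * ∑ m ∈ Icc 1 K0, (1 / (m : ℝ)) ≤ 1 / (Q : ℝ) * H := by
            apply mul_le_mul _ hH (sum_nonneg fun m _ => by positivity) (by positivity)
            apply one_div_le_one_div_of_le hQ0
            exact_mod_cast (hB q hq).1
        _ = H / Q := by ring
    refine (sum_le_sum h2).trans ?_
    rw [← mul_sum]
    apply mul_le_mul_of_nonneg_left _ (by positivity)
    have h3 := additive_large_sieve N (2 * Q) (fun n => (f n : ℂ))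
    have h4 : ∑ q ∈ B, ∑ b ∈ cop q, ‖F ((b : ℝ) / q)‖ ^ 2 ≤ ∑ f_1 ∈ Icc 1 (2 * Q), ∑ a ∈ (range f_1).filter (fun a => a.Coprime f_1),
      ‖∑ n ∈ Icc 1 N, (f n : ℂ) * ee (n * a / f_1)‖ ^ 2 := by
      have h5 : ∀ q : ℕ, ∑ b ∈ cop q, ‖F ((b : ℝ) / q)‖ ^ 2 = ∑ a ∈ (range q).filter (fun a => a.Coprime q),
          ‖∑ n ∈ Icc 1 N, (f n : ℂ) * ee (n * a / q)‖ ^ 2 := by
        intro q
        unfold cop
        refine sum_congr rfl fun b _ => ?_
        rw [hF]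
        unfold FS
        congr 2
        refine sum_congr rfl fun n _ => ?_
        rw [mul_div_assoc]
      simp only [h5]
      refine sum_le_sum_of_subset_of_nonneg ?_ (fun q _ _ => sum_nonneg fun _ _ => by positivity)
      intro q hq
      rw [mem_Icc]
      have := hB q hq
      omega
    refine h4.trans (h3.trans ?_)
    have h6 : ∑ n ∈ Icc 1 N, ‖(f n : ℂ)‖ ^ 2 ≤ N := by
      calc ∑ n ∈ Icc 1 N, ‖(f n : ℂ)‖ ^ 2 ≤ ∑ _n ∈ Icc 1 N, (1 : ℝ) := by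
            refine sum_le_sum fun n _ => ?_
            rw [Complex.norm_real, Real.norm_eq_abs]
            exact pow_le_one₀ (abs_nonneg _) (hf n)
        _ = N := by simp
    push_cast
    exact mul_le_mul_of_nonneg_left h6 (by positivity)
  have hV : ∑ x ∈ R, (Real.sqrt (1 / (k x.2.1 : ℝ)) * ‖A x.2.1 ((x.2.2 : ℝ) / x.1)‖) ^ 2 ≤
      H * (Q * S.card + T * S.card ^ 2) := by
    have h1 : ∑ x ∈ R, (Real.sqrt (1 / (k x.2.1 : ℝ)) * ‖A x.2.1 ((x.2.2 : ℝ) / x.1)‖) ^ 2 =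
        ∑ q ∈ B, ∑ i ∈ I.filter (fun i => q ∣ k i), (1 / (k i : ℝ)) * ∑ b ∈ cop q, ‖A i ((b : ℝ) / q)‖ ^ 2 := by
      rw [hR, sum_sigma]
      refine sum_congr rfl fun q _ => ?_
      rw [sum_sigma]
      refine sum_congr rfl fun i _ => ?_
      rw [mul_sum]
      refine sum_congr rfl fun b _ => ?_
      simp only
      rw [mul_pow, Real.sq_sqrt (by positivity)]
    rw [h1]
    have h2 : ∀ q ∈ B, ∑ i ∈ I.filter (fun i => q ∣ k i), (1 / (k i : ℝ)) * ∑ b ∈ cop q, ‖A i ((b : ℝ) / q)‖ ^ 2 ≤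
        H * cnt S q := by
      intro q hq
      have hq1 : 1 ≤ q := hQ.trans (hB q hq).1
      have hq0 : (0 : ℝ) < q := by exact_mod_cast hq1
      calc ∑ i ∈ I.filter (fun i => q ∣ k i), (1 / (k i : ℝ)) * ∑ b ∈ cop q, ‖A i ((b : ℝ) / q)‖ ^ 2
          ≤ ∑ i ∈ I.filter (fun i => q ∣ k i), (1 / (k i : ℝ)) * (q * cnt S q) := by
            refine sum_le_sum fun i _ => ?_
            apply mul_le_mul_of_nonneg_left _ (by positivity)
            refine le_trans ?_ (pars q hq1 S (c i) (hc i))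
            refine sum_le_sum_of_subset_of_nonneg ?_ (fun _ _ _ => by positivity)
            unfold cop
            exact filter_subset _ _
        _ = (∑ i ∈ I.filter (fun i => q ∣ k i), (1 / (k i : ℝ))) * (q * cnt S q) := by rw [sum_mul]
        _ ≤ (1 / (q : ℝ) * H) * (q * cnt S q) := by
            apply mul_le_mul_of_nonneg_right _ (mul_nonneg hq0.le (cnt_nonneg _ _))
            refine (harm I k K0 hk hk1 q hq1).trans ?_
            exact mul_le_mul_of_nonneg_left hH (by positivity)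
        _ = H * cnt S q := by field_simp
    refine (sum_le_sum h2).trans ?_
    rw [← mul_sum]
    apply mul_le_mul_of_nonneg_left _ hH0
    refine (sum_cnt N S B hS T hT0 hT).trans ?_
    have h3 : (B.card : ℝ) ≤ Q := by
      have h4 : B ⊆ Ico Q (2 * Q) := by
        intro q hq
        rw [mem_Ico]
        exact hB q hq
      have h5 := card_le_card h4
      rw [Nat.card_Ico] at h5
      exact_mod_cast h5.trans (by omega)
    have := mul_le_mul_of_nonneg_right h3 (Nat.cast_nonneg (α := ℝ) S.card)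
    linarith
  exact mul_le_mul hU hV (sum_nonneg fun _ _ => by positivity) (by positivity)


/-- all denominators -/
theorem total {ι : Type*} (N : ℕ) (f : ℕ → ℝ) (hf : ∀ n, |f n| ≤ 1) (S : Finset ℕ) (hS : ∀ a ∈ S, a ≤ N)
    (I : Finset ι) (k : ι → ℕ) (K0 : ℕ) (hk : Set.InjOn k (I : Set ι))
    (hk1 : ∀ i ∈ I, 1 ≤ k i ∧ k i ≤ K0) (c : ι → ℕ → ℝ) (hc : ∀ i a, |c i a| ≤ 1)
    (T : ℝ) (hT0 : 0 ≤ T) (hT : ∀ m : ℕ, 1 ≤ m → m ≤ N → (m.divisors.card : ℝ) ≤ T)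
    (H : ℝ) (hH : ∑ m ∈ Icc 1 K0, (1 / (m : ℝ)) ≤ H) (z : ℕ) (hz : 1 ≤ z) :
    ∑ q ∈ Ioc z K0, Wq I k (FS (Icc 1 N) f) (fun i => FS S (c i)) q ≤
      (Nat.log 2 K0 + 1) * Real.sqrt (6 * H ^ 2 * N * (N * S.card + 2 * N * T * S.card ^ 2 / z +
        4 * K0 ^ 2 * S.card + 4 * K0 * T * S.card ^ 2)) := by
  classical
  set F := FS (Icc 1 N) f with hF
  set A : ι → ℝ → ℂ := fun i => FS S (c i) with hA
  set X : ℝ := 6 * H ^ 2 * N * (N * S.card + 2 * N * T * S.card ^ 2 / z +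
        4 * K0 ^ 2 * S.card + 4 * K0 * T * S.card ^ 2) with hX
  have hz0 : (0 : ℝ) < z := by exact_mod_cast hz
  have e1 : ∑ q ∈ Ioc z K0, Wq I k F A q = ∑ j ∈ range (Nat.log 2 K0 + 1),
      ∑ q ∈ (Ioc z K0).filter (fun q => Nat.log 2 q = j), Wq I k F A q := by
    symm
    apply sum_fiberwise_of_maps_to
    intro q hq
    rw [mem_Ioc] at hq
    rw [mem_range]
    have := Nat.log_mono_right (b := 2) hq.2
    omega
  rw [e1]
  have e2 : ∀ j ∈ range (Nat.log 2 K0 + 1),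
      ∑ q ∈ (Ioc z K0).filter (fun q => Nat.log 2 q = j), Wq I k F A q ≤ Real.sqrt X := by
    intro j _
    rcases ((Ioc z K0).filter (fun q => Nat.log 2 q = j)).eq_empty_or_nonempty with h | ⟨q₀, hq₀⟩
    · rw [h, sum_empty]; exact Real.sqrt_nonneg _
    · rw [mem_filter, mem_Ioc] at hq₀
      obtain ⟨⟨h1, h2⟩, h3⟩ := hq₀
      have hb : ∀ q ∈ (Ioc z K0).filter (fun q => Nat.log 2 q = j), 2 ^ j ≤ q ∧ q < 2 * 2 ^ j := by
        intro q hq
        rw [mem_filter, mem_Ioc] at hq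
        obtain ⟨⟨h4, h5⟩, h6⟩ := hq
        rw [← h6]
        refine ⟨Nat.pow_log_le_self 2 (by omega), ?_⟩
        have := Nat.lt_pow_succ_log_self (b := 2) (by norm_num) q
        rw [pow_succ] at this
        omega
      have h7 : 2 ^ j ≤ q₀ ∧ q₀ < 2 * 2 ^ j := hb q₀ (by rw [mem_filter, mem_Ioc]; exact ⟨⟨h1, h2⟩, h3⟩)
      have h8 := block N f hf S hS I k K0 hk hk1 c hc T hT0 hT H hH (2 ^ j) (Nat.one_le_two_pow) _ hb
      apply Real.le_sqrt_of_sq_le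
      refine h8.trans ?_
      set Q : ℕ := 2 ^ j with hQd
      have hQ0 : (0 : ℝ) < Q := by rw [hQd]; positivity
      have hQK : (Q : ℝ) ≤ K0 := by exact_mod_cast h7.1.trans h2
      have hQz : (z : ℝ) ≤ 2 * Q := by
        have : z ≤ 2 * Q := by omega
        exact_mod_cast this
      have hN0 : (0 : ℝ) ≤ N := Nat.cast_nonneg _
      have hS0 : (0 : ℝ) ≤ S.card := Nat.cast_nonneg _
      have e3 : (H / Q * (6 * (N + (2 * Q : ℝ) ^ 2) * N)) * (H * (Q * S.card + T * S.card ^ 2)) =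
          6 * H ^ 2 * N * (N * S.card + N * T * S.card ^ 2 / Q + 4 * Q ^ 2 * S.card + 4 * Q * T * S.card ^ 2) := by
        field_simp
        ring
      rw [e3, hX]
      apply mul_le_mul_of_nonneg_left _ (by positivity)
      have e4 : (N : ℝ) * T * S.card ^ 2 / Q ≤ 2 * N * T * S.card ^ 2 / z := by
        rw [div_le_div_iff₀ hQ0 hz0]
        have : 0 ≤ (N : ℝ) * T * S.card ^ 2 := by positivity
        nlinarith
      have e5 : 4 * (Q : ℝ) ^ 2 * S.card ≤ 4 * K0 ^ 2 * S.card := by gcongr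
      have e6 : 4 * (Q : ℝ) * T * S.card ^ 2 ≤ 4 * K0 * T * S.card ^ 2 := by gcongr
      linarith
  refine (sum_le_sum e2).trans ?_
  rw [sum_const, card_range, nsmul_eq_mul]
  push_cast
  exact le_refl _

/-- the bilinear form with the kernel -/
theorem bil {ι : Type*} (N : ℕ) (f : ℕ → ℝ) (S : Finset ℕ) (z : ℕ)
    (I : Finset ι) (h e : ι → ℕ) (K0 : ℕ)
    (hh : ∀ i ∈ I, 1 ≤ h i) (he : ∀ i ∈ I, 1 ≤ e i) (hco : ∀ i ∈ I, (h i).Coprime (e i))
    (hez : ∀ i ∈ I, ∀ p : ℕ, p.Prime → p ∣ e i → z < p)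
    (hk1 : ∀ i ∈ I, h i * e i ≤ K0) (c : ι → ℕ → ℝ) :
    ∑ i ∈ I, |∑ a ∈ S, c i a * ∑ n ∈ Icc 1 N, f n * ((if (h i : ℤ) ∣ ((n : ℤ) + a) then 1 else 0) *
      ((if (e i : ℤ) ∣ ((n : ℤ) + a) then 1 else 0) - 1 / (e i : ℝ)))| ≤
    ∑ q ∈ Ioc z K0, Wq I (fun i => h i * e i) (FS (Icc 1 N) f) (fun i => FS S (c i)) q := by
  classical
  have h1 : ∀ i ∈ I, |∑ a ∈ S, c i a * ∑ n ∈ Icc 1 N, f n * ((if (h i : ℤ) ∣ ((n : ℤ) + a) then 1 else 0) *
      ((if (e i : ℤ) ∣ ((n : ℤ) + a) then 1 else 0) - 1 / (e i : ℝ)))| ≤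
      (1 / ((h i * e i : ℕ) : ℝ)) * ∑ q ∈ (h i * e i).divisors.filter (fun q => z < q), ∑ b ∈ cop q,
        ‖FS (Icc 1 N) f ((b : ℝ) / q)‖ * ‖FS S (c i) ((b : ℝ) / q)‖ := by
    intro i hi
    have hhi := hh i hi
    have hei := he i hi
    rw [← Real.norm_eq_abs, ← Complex.norm_real]
    have e1 : (((∑ a ∈ S, c i a * ∑ n ∈ Icc 1 N, f n * ((if (h i : ℤ) ∣ ((n : ℤ) + a) then 1 else 0) *
      ((if (e i : ℤ) ∣ ((n : ℤ) + a) then 1 else 0) - 1 / (e i : ℝ))) : ℝ)) : ℂ) =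
      (1 / ((h i * e i : ℕ) : ℂ)) * ∑ b ∈ (range (h i * e i)).filter (fun b => ¬ e i ∣ b),
        (FS (Icc 1 N) f ((b : ℝ) / ((h i * e i : ℕ) : ℝ)) * FS S (c i) ((b : ℝ) / ((h i * e i : ℕ) : ℝ))) := by
      rw [Complex.ofReal_sum]
      have e2 : ∀ a ∈ S, (((c i a * ∑ n ∈ Icc 1 N, f n * ((if (h i : ℤ) ∣ ((n : ℤ) + a) then 1 else 0) *
          ((if (e i : ℤ) ∣ ((n : ℤ) + a) then 1 else 0) - 1 / (e i : ℝ))) : ℝ)) : ℂ) =
          (1 / ((h i * e i : ℕ) : ℂ)) * ∑ b ∈ (range (h i * e i)).filter (fun b => ¬ e i ∣ b),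
            (FS (Icc 1 N) f ((b : ℝ) / ((h i * e i : ℕ) : ℝ)) *
              ((c i a : ℂ) * ee (a * ((b : ℝ) / ((h i * e i : ℕ) : ℝ))))) := by
        intro a _
        rw [Complex.ofReal_mul, Complex.ofReal_sum]
        have e3 : ∀ n ∈ Icc 1 N, (((f n * ((if (h i : ℤ) ∣ ((n : ℤ) + a) then 1 else 0) *
            ((if (e i : ℤ) ∣ ((n : ℤ) + a) then 1 else 0) - 1 / (e i : ℝ))) : ℝ)) : ℂ) =
            (1 / ((h i * e i : ℕ) : ℂ)) * ∑ b ∈ (range (h i * e i)).filter (fun b => ¬ e i ∣ b),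
              ((f n : ℂ) * ee (n * ((b : ℝ) / ((h i * e i : ℕ) : ℝ)))) * ee (a * ((b : ℝ) / ((h i * e i : ℕ) : ℝ))) := by
          intro n _
          rw [Complex.ofReal_mul, kernel (h i) (e i) hhi hei (hco i hi) ((n : ℤ) + a), mul_left_comm, mul_sum]
          congr 1
          refine sum_congr rfl fun b _ => ?_
          rw [mul_assoc, ← ls_ee_add]
          congr 2
          push_cast
          ring
        rw [sum_congr rfl e3, ← mul_sum, mul_left_comm, sum_comm, mul_sum]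
        congr 1
        refine sum_congr rfl fun b _ => ?_
        rw [← sum_mul]
        unfold FS
        ring
      rw [sum_congr rfl e2, ← mul_sum, sum_comm]
      congr 1
      refine sum_congr rfl fun b _ => ?_
      rw [← mul_sum]
      rfl
    rw [e1, norm_mul]
    have e4 : ‖(1 / ((h i * e i : ℕ) : ℂ))‖ = 1 / ((h i * e i : ℕ) : ℝ) := by
      rw [norm_div, norm_one, Complex.norm_natCast]
    rw [e4]
    apply mul_le_mul_of_nonneg_left _ (by positivity)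
    refine (norm_sum_le _ _).trans ?_
    simp only [norm_mul]
    exact group (h i * e i) z (e i) (h i) rfl hhi hei (hez i hi)
      (fun x => ‖FS (Icc 1 N) f x‖ * ‖FS S (c i) x‖) (fun x => by positivity)
  refine (sum_le_sum h1).trans ?_
  unfold Wq
  have h2 : ∀ i ∈ I, (1 / ((h i * e i : ℕ) : ℝ)) * ∑ q ∈ (h i * e i).divisors.filter (fun q => z < q), ∑ b ∈ cop q,
        ‖FS (Icc 1 N) f ((b : ℝ) / q)‖ * ‖FS S (c i) ((b : ℝ) / q)‖ ≤
      ∑ q ∈ Ioc z K0, (if q ∣ h i * e i then (1 / ((h i * e i : ℕ) : ℝ)) * ∑ b ∈ cop q,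
        ‖FS (Icc 1 N) f ((b : ℝ) / q)‖ * ‖FS S (c i) ((b : ℝ) / q)‖ else 0) := by
    intro i hi
    have hpos : 0 < h i * e i := Nat.mul_pos (hh i hi) (he i hi)
    rw [mul_sum, ← sum_filter]
    refine sum_le_sum_of_subset_of_nonneg ?_ (fun q _ _ => mul_nonneg (by positivity) (sum_nonneg fun _ _ => by positivity))
    intro q hq
    rw [mem_filter, Nat.mem_divisors] at hq
    rw [mem_filter, mem_Ioc]
    exact ⟨⟨hq.2, (Nat.le_of_dvd hpos hq.1.1).trans (hk1 i hi)⟩, hq.1.1⟩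
  refine (sum_le_sum h2).trans (le_of_eq ?_)
  rw [sum_comm]
  refine sum_congr rfl fun q _ => ?_
  rw [← sum_filter]

end Pool.Agent.H528.Bil
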