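import Mathlib
import Pool.Graph.R_seed8.Y822.QF
import Pool.Agent.H528.Bil

/-! Few shifts have a large discrepancy, by the additive large sieve: the deterministic inequality. -/

set_option autoImplicit false

namespace Pool.Agent.H528.Lsd

open Finset Filter
open Pool.Agent.H442R2
open Pool.Agent.Y822
open Pool.Agent.Y822.Win Pool.Agent.Y822.Cop Pool.Agent.Y822.Nc Pool.Agent.Y822.Par3 Pool.Agent.Y822.QF
open Pool.Agent.H528.Bil

/-- indicator of `∀ p ∈ G, p ∣ m` -/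
noncomputable def iG (G : Finset ℕ) (m : ℤ) : ℝ := by
  classical
  exact if ∀ p ∈ G, (p : ℤ) ∣ m then 1 else 0

lemma iG_nonneg (G : Finset ℕ) (m : ℤ) : 0 ≤ iG G m := by
  unfold iG; split_ifs <;> norm_num

/-- sets of odd primes up to `y` with fewer than `j` elements -/
def GJ (y j : ℕ) : Finset (Finset ℕ) := (PO 0 y).powerset.filter (fun G => G.card < j)

lemma mem_GJ {y j : ℕ} {G : Finset ℕ} : G ∈ GJ y j ↔ G ⊆ PO 0 y ∧ G.card < j := by
  unfold GJ; rw [mem_filter, mem_powerset]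

/-- truncated inclusion-exclusion -/
noncomputable def TJ (y j : ℕ) (m : ℤ) : ℝ := ∑ G ∈ GJ y j, (-1 : ℝ) ^ G.card * iG G m

lemma rz_eq (y : ℕ) (m : ℤ) : rz y m = (by classical exact if (PO 0 y).filter (fun p : ℕ => (p : ℤ) ∣ m) = ∅ then 1 else 0) := by
  classical
  unfold rz
  congr 1
  rw [filter_eq_empty_iff, eq_iff_iff]
  constructor
  · intro h p hp
    rw [mem_PO] at hp
    exact h p hp.2.1 hp.2.2 hp.1.2
  · intro h p hp hp2 hpy
    exact h (mem_PO.2 ⟨⟨hp.pos, hpy⟩, hp, hp2⟩)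

lemma sum_iG (y : ℕ) (m : ℤ) (w : Finset ℕ → ℝ) (A : Finset (Finset ℕ)) (hA : A ⊆ (PO 0 y).powerset) :
    ∑ G ∈ A, w G * iG G m = by
      classical
      exact ∑ G ∈ A.filter (fun G => G ⊆ (PO 0 y).filter (fun p : ℕ => (p : ℤ) ∣ m)), w G := by
  classical
  rw [sum_filter]
  refine sum_congr rfl fun G hG => ?_
  unfold iG
  have h1 := mem_powerset.1 (hA hG)
  by_cases h : ∀ p ∈ G, (p : ℤ) ∣ m
  · rw [if_pos h, if_pos, mul_one]
    intro p hp
    rw [mem_filter]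
    exact ⟨h1 hp, h p hp⟩
  · rw [if_neg h, if_neg, mul_zero]
    intro h2
    apply h
    intro p hp
    exact (mem_filter.1 (h2 hp)).2

lemma trunc (y j : ℕ) (m : ℤ) :
    |rz y m - TJ y j m| ≤ 2 * (1 / 2) ^ j * ∑ G ∈ (PO 0 y).powerset, (3 : ℝ) ^ G.card * iG G m := by
  classical
  set D := (PO 0 y).filter (fun p : ℕ => (p : ℤ) ∣ m) with hD
  have hDP : D ⊆ PO 0 y := filter_subset _ _
  have h3 : ∑ G ∈ (PO 0 y).powerset, (3 : ℝ) ^ G.card * iG G m = 4 ^ D.card := by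
    rw [sum_iG y m (fun G => (3 : ℝ) ^ G.card) _ (Subset.refl _), ← hD]
    have e1 : (PO 0 y).powerset.filter (fun G => G ⊆ D) = D.powerset := by
      ext G
      rw [mem_filter, mem_powerset, mem_powerset]
      exact ⟨fun h => h.2, fun h => ⟨h.trans hDP, h⟩⟩
    rw [e1]
    have e2 := Finset.sum_pow_mul_eq_add_pow (3 : ℝ) 1 D
    simp only [one_pow, mul_one] at e2
    rw [e2]
    norm_num
  have hT : TJ y j m = ∑ G ∈ D.powerset.filter (fun G => G.card < j), (-1 : ℝ) ^ G.card := by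
    unfold TJ
    rw [sum_iG y m (fun G => (-1 : ℝ) ^ G.card) (GJ y j) (filter_subset _ _), ← hD]
    refine sum_congr ?_ fun _ _ => rfl
    ext G
    rw [mem_filter, mem_GJ, mem_filter, mem_powerset]
    exact ⟨fun h => ⟨h.2, h.1.2⟩, fun h => ⟨⟨h.1.trans hDP, h.2⟩, h.1⟩⟩
  rw [h3, hT, rz_eq, ← hD]
  rcases Nat.lt_or_ge D.card j with hj | hj
  · have e1 : D.powerset.filter (fun G => G.card < j) = D.powerset := by
      rw [filter_eq_self]
      intro G hG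
      exact lt_of_le_of_lt (card_le_card (mem_powerset.1 hG)) hj
    rw [e1]
    have e2 := Finset.sum_powerset_neg_one_pow_card (x := D)
    have e3 : ∑ G ∈ D.powerset, (-1 : ℝ) ^ G.card = if D = ∅ then 1 else 0 := by
      have h5 := congrArg (fun t : ℤ => (t : ℝ)) e2
      push_cast at h5
      rw [h5]
    rw [e3, sub_self, abs_zero]
    positivity
  · have h1 : |(if D = ∅ then (1 : ℝ) else 0)| ≤ 2 ^ D.card := by
      split_ifs
      · rw [abs_one]; exact one_le_pow₀ (by norm_num)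
      · rw [abs_zero]; positivity
    have h2 : |∑ G ∈ D.powerset.filter (fun G => G.card < j), (-1 : ℝ) ^ G.card| ≤ 2 ^ D.card := by
      refine (abs_sum_le_sum_abs _ _).trans ?_
      calc ∑ G ∈ D.powerset.filter (fun G => G.card < j), |(-1 : ℝ) ^ G.card| ≤ ∑ _G ∈ D.powerset, (1 : ℝ) := by
            refine (sum_le_sum (fun G _ => ?_)).trans (sum_le_sum_of_subset_of_nonneg (filter_subset _ _) fun _ _ _ => zero_le_one)
            rw [abs_pow, abs_neg, abs_one, one_pow]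
        _ = 2 ^ D.card := by
            rw [sum_const, card_powerset, nsmul_eq_mul, mul_one]; push_cast; rfl
    calc _ ≤ |(if D = ∅ then (1 : ℝ) else 0)| + |∑ G ∈ D.powerset.filter (fun G => G.card < j), (-1 : ℝ) ^ G.card| :=
          abs_sub _ _
      _ ≤ 2 * 2 ^ D.card := by linarith
      _ ≤ 2 * ((1 / 2) ^ j * 4 ^ D.card) := by
          apply mul_le_mul_of_nonneg_left _ (by norm_num)
          have e1 : (4 : ℝ) ^ D.card = 2 ^ D.card * 2 ^ D.card := by rw [← mul_pow]; norm_num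
          rw [e1]
          have e2 : (1 / 2 : ℝ) ^ j * 2 ^ D.card = 2 ^ (D.card - j) := by
            rw [one_div, inv_pow, inv_mul_eq_div, pow_sub₀ _ (by norm_num) hj]
            rfl
          calc (2 : ℝ) ^ D.card = 1 * 2 ^ D.card := (one_mul _).symm
            _ ≤ ((1 / 2) ^ j * 2 ^ D.card) * 2 ^ D.card := by
                apply mul_le_mul_of_nonneg_right _ (by positivity)
                rw [e2]
                exact one_le_pow₀ (by norm_num)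
            _ = _ := by ring
      _ = _ := by ring

lemma prod_dvd_iff {y : ℕ} {G : Finset ℕ} (hG : G ⊆ PO 0 y) (m : ℤ) :
    ((∏ p ∈ G, p : ℕ) : ℤ) ∣ m ↔ ∀ p ∈ G, (p : ℤ) ∣ m := by
  classical
  constructor
  · intro h p hp
    exact (Int.natCast_dvd_natCast.2 (dvd_prod_of_mem _ hp)).trans h
  · intro h
    rw [Int.natCast_dvd]
    apply Finset.prod_primes_dvd
    · intro p hp
      exact (mem_PO.1 (hG hp)).2.1.prime
    · intro p hp
      exact Int.natCast_dvd.1 (h p hp)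

lemma cop_d {y D d : ℕ} (hd : d ∈ SD y D) {G : Finset ℕ} (hG : G ⊆ PO 0 y) :
    Nat.Coprime d (∏ p ∈ G, p) := by
  apply Nat.Coprime.prod_right
  intro p hp
  have h1 := mem_PO.1 (hG hp)
  rw [Nat.coprime_comm, Nat.Prime.coprime_iff_not_dvd h1.2.1]
  exact (mem_SD.1 hd).2.2 p h1.2.1 h1.1.2

lemma prod_pos' {y : ℕ} {G : Finset ℕ} (hG : G ⊆ PO 0 y) : 1 ≤ ∏ p ∈ G, p :=
  Finset.prod_pos fun p hp => (mem_PO.1 (hG hp)).2.1.pos

lemma i1_iG {y D d : ℕ} (hd : d ∈ SD y D) {G : Finset ℕ} (hG : G ⊆ PO 0 y) (m : ℤ) :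
    iG G m * i1 d m = if ((d * ∏ p ∈ G, p : ℕ) : ℤ) ∣ m then 1 else 0 := by
  classical
  have h : ((d * ∏ p ∈ G, p : ℕ) : ℤ) ∣ m ↔ ((∀ p ∈ G, (p : ℤ) ∣ m) ∧ (d : ℤ) ∣ m) := by
    rw [← prod_dvd_iff hG]
    constructor
    · intro h5
      push_cast at h5 ⊢
      exact ⟨(dvd_mul_left _ _).trans h5, (dvd_mul_right _ _).trans h5⟩
    · rintro ⟨h5, h6⟩
      push_cast at h5 ⊢
      have h7 : IsCoprime (d : ℤ) (((∏ p ∈ G, p : ℕ)) : ℤ) := Nat.isCoprime_iff_coprime.2 (cop_d hd hG)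
      push_cast at h7
      exact h7.mul_dvd h6 h5
  unfold iG i1
  by_cases h1 : ∀ p ∈ G, (p : ℤ) ∣ m
  · by_cases h2 : (d : ℤ) ∣ m
    · rw [if_pos h1, if_pos h2, if_pos (h.2 ⟨h1, h2⟩), one_mul]
    · rw [if_pos h1, if_neg h2, if_neg (fun h3 => h2 (h.1 h3).2), mul_zero]
  · rw [if_neg h1, if_neg (fun h3 => h1 (h.1 h3).1), zero_mul]

/-- multiples in an interval -/
lemma mult_count (N a k : ℕ) (ha : a ≤ N) (hk : 1 ≤ k) :
    ∑ n ∈ Icc 1 N, (if (k : ℤ) ∣ ((n : ℤ) + a) then (1 : ℝ) else 0) ≤ 2 * N / k := by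
  classical
  rw [← sum_filter, sum_const, nsmul_eq_mul, mul_one]
  have h1 : ((Icc 1 N).filter (fun n : ℕ => (k : ℤ) ∣ ((n : ℤ) + a))).card ≤ 2 * N / k := by
    have h2 : ((Icc 1 N).filter (fun n : ℕ => (k : ℤ) ∣ ((n : ℤ) + a))).card ≤
        ((Ioc 0 (2 * N)).filter (fun m => k ∣ m)).card := by
      apply card_le_card_of_injOn (fun n => n + a)
      · intro n hn
        rw [mem_coe, mem_filter, mem_Icc] at hn
        rw [mem_coe, mem_filter, mem_Ioc]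
        refine ⟨by constructor <;> simp only <;> omega, ?_⟩
        have := hn.2
        exact_mod_cast this
      · intro n _ n' _ h
        simp only at h
        omega
    rw [Nat.Ioc_filter_dvd_card_eq_div] at h2
    exact h2
  calc (((Icc 1 N).filter (fun n : ℕ => (k : ℤ) ∣ ((n : ℤ) + a))).card : ℝ) ≤ ((2 * N / k : ℕ) : ℝ) := by
        exact_mod_cast h1
    _ ≤ ((2 * N : ℕ) : ℝ) / k := Nat.cast_div_le
    _ = _ := by push_cast; rfl

/-- the error of the truncation -/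
lemma err_bd (N y j z X D a : ℕ) (ha : a ≤ N) (hz : 2 ≤ z) (SS TT : Finset ℕ) (hSS : SS ⊆ SD y D)
    (hTT : TT ⊆ SD z X) :
    ∑ n ∈ Icc 1 N, |rz y ((n : ℤ) + a) - TJ y j ((n : ℤ) + a)| * ∑ d ∈ SS, i1 d ((n : ℤ) + a) *
      ∑ e ∈ TT, |BX.dl e ((n : ℤ) + a)| ≤
    B1 z X (2 * N) * (2 * (1 / 2) ^ j * (2 * N * (EE y D * EE 0 y))) := by
  classical
  have hB0 := B1_pos z X (2 * N)
  -- the sum over `e`
  have he : ∀ n ∈ Icc 1 N, ∑ e ∈ TT, |BX.dl e ((n : ℤ) + a)| ≤ B1 z X (2 * N) := by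
    intro n hn
    rw [mem_Icc] at hn
    set c : ℕ → ℝ := fun e => if e ∈ SD z X then 1 else 0 with hc
    have hco : Co z c := by
      constructor
      · intro d
        rw [hc]
        simp only
        split_ifs
        · rw [abs_one]; exact one_le_pow₀ (by norm_num)
        · rw [abs_zero]; positivity
      · intro d hd
        rw [hc] at hd
        simp only at hd
        have : d ∈ SD z X := by
          by_contra h
          rw [if_neg h] at hd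
          exact hd rfl
        exact (mem_SD.1 this).2
    have hm : ((n : ℤ) + a) = ((n + a : ℕ) : ℤ) := by push_cast; rfl
    calc ∑ e ∈ TT, |BX.dl e ((n : ℤ) + a)| ≤ ∑ e ∈ SD z X, |BX.dl e ((n : ℤ) + a)| :=
          sum_le_sum_of_subset_of_nonneg hTT fun _ _ _ => abs_nonneg _
      _ ≤ ∑ e ∈ SD z X, (|c e| * (if e ∣ (n + a) then 1 else 0) + |c e| / e) := by
          refine sum_le_sum fun d hd => ?_
          rw [dl_cen, hm, Int.natAbs_natCast]
          have e1 : |c d| = 1 := by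
            rw [hc]
            simp only
            rw [if_pos hd, abs_one]
          calc |cen d (n + a)| ≤ acen d (n + a) := abs_cen_le d _
            _ = _ := by unfold acen; rw [e1]; ring
      _ ≤ _ := by
          rw [sum_add_distrib]
          exact add_le_add (abs_ds_le hco hz (by omega) (by omega)) (sum_c_div hco)
  have h1 : ∀ n ∈ Icc 1 N, |rz y ((n : ℤ) + a) - TJ y j ((n : ℤ) + a)| * ∑ d ∈ SS, i1 d ((n : ℤ) + a) *
      ∑ e ∈ TT, |BX.dl e ((n : ℤ) + a)| ≤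
      B1 z X (2 * N) * (2 * (1 / 2) ^ j * ∑ G ∈ (PO 0 y).powerset, ∑ d ∈ SS, (3 : ℝ) ^ G.card *
        (if ((d * ∏ p ∈ G, p : ℕ) : ℤ) ∣ ((n : ℤ) + a) then 1 else 0)) := by
    intro n hn
    have h2 : ∑ d ∈ SS, i1 d ((n : ℤ) + a) * ∑ e ∈ TT, |BX.dl e ((n : ℤ) + a)| ≤
        B1 z X (2 * N) * ∑ d ∈ SS, i1 d ((n : ℤ) + a) := by
      rw [mul_sum]
      refine sum_le_sum fun d _ => ?_
      rw [mul_comm]
      exact mul_le_mul_of_nonneg_right (he n hn) (i1_nonneg _ _)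
    have h3 := trunc y j ((n : ℤ) + a)
    calc _ ≤ (2 * (1 / 2) ^ j * ∑ G ∈ (PO 0 y).powerset, (3 : ℝ) ^ G.card * iG G ((n : ℤ) + a)) *
          (B1 z X (2 * N) * ∑ d ∈ SS, i1 d ((n : ℤ) + a)) := by
          apply mul_le_mul h3 h2 (sum_nonneg fun d _ => mul_nonneg (i1_nonneg _ _) (sum_nonneg fun _ _ => abs_nonneg _))
          exact mul_nonneg (by positivity) (sum_nonneg fun G _ => mul_nonneg (by positivity) (iG_nonneg _ _))
      _ = B1 z X (2 * N) * (2 * (1 / 2) ^ j * ((∑ G ∈ (PO 0 y).powerset, (3 : ℝ) ^ G.card * iG G ((n : ℤ) + a)) *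
          ∑ d ∈ SS, i1 d ((n : ℤ) + a))) := by ring
      _ = _ := by
          congr 2
          rw [sum_mul_sum]
          refine sum_congr rfl fun G hG => sum_congr rfl fun d hd => ?_
          rw [mul_assoc, i1_iG (hSS hd) (mem_powerset.1 hG)]
  refine (sum_le_sum h1).trans ?_
  rw [← mul_sum, ← mul_sum]
  apply mul_le_mul_of_nonneg_left _ hB0.le
  apply mul_le_mul_of_nonneg_left _ (by positivity)
  rw [sum_comm]
  have h4 : ∀ G ∈ (PO 0 y).powerset, ∑ n ∈ Icc 1 N, ∑ d ∈ SS, (3 : ℝ) ^ G.card *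
        (if ((d * ∏ p ∈ G, p : ℕ) : ℤ) ∣ ((n : ℤ) + a) then 1 else 0) ≤
      2 * N * (∑ d ∈ SS, 1 / (d : ℝ)) * ∏ p ∈ G, (3 / (p : ℝ)) := by
    intro G hG
    have hG' := mem_powerset.1 hG
    rw [sum_comm]
    have h5 : ∀ d ∈ SS, ∑ n ∈ Icc 1 N, (3 : ℝ) ^ G.card *
        (if ((d * ∏ p ∈ G, p : ℕ) : ℤ) ∣ ((n : ℤ) + a) then 1 else 0) ≤
        2 * N * (1 / (d : ℝ)) * ∏ p ∈ G, (3 / (p : ℝ)) := by
      intro d hd
      have hd1 : 1 ≤ d := (mem_SD.1 (hSS hd)).1.1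
      have hG1 : 1 ≤ ∏ p ∈ G, p := prod_pos' hG'
      rw [← mul_sum]
      calc (3 : ℝ) ^ G.card * ∑ n ∈ Icc 1 N, (if ((d * ∏ p ∈ G, p : ℕ) : ℤ) ∣ ((n : ℤ) + a) then (1 : ℝ) else 0)
          ≤ (3 : ℝ) ^ G.card * (2 * N / ((d * ∏ p ∈ G, p : ℕ) : ℝ)) :=
            mul_le_mul_of_nonneg_left (mult_count N a _ ha (Nat.mul_pos hd1 hG1)) (by positivity)
        _ = 2 * N * (1 / (d : ℝ)) * ∏ p ∈ G, (3 / (p : ℝ)) := by
            rw [prod_div_distrib, prod_const]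
            push_cast
            have : (∏ p ∈ G, (p : ℝ)) ≠ 0 := by
              have h6 : (1 : ℝ) ≤ ((∏ p ∈ G, p : ℕ) : ℝ) := by exact_mod_cast hG1
              push_cast at h6
              positivity
            have hd0 : (d : ℝ) ≠ 0 := by positivity
            field_simp
    refine (sum_le_sum h5).trans (le_of_eq ?_)
    rw [← sum_mul, ← mul_sum]
  refine (sum_le_sum h4).trans ?_
  rw [← mul_sum, ← prod_one_add, mul_assoc]
  apply mul_le_mul_of_nonneg_left _ (by positivity)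
  apply mul_le_mul
  · refine le_trans ?_ (sum_div_le y D)
    refine le_trans (sum_le_sum_of_subset_of_nonneg hSS fun _ _ _ => by positivity) ?_
    refine sum_le_sum fun d _ => ?_
    exact div_le_div_of_nonneg_right (one_le_pow₀ (by norm_num)) (Nat.cast_nonneg d)
  · unfold EE
    refine prod_le_prod_of_subset_of_one_le ?_ (fun p _ => by positivity) (fun p _ _ => ?_)
    · intro p hp
      rw [mem_PO] at hp
      rw [mem_PP]
      exact ⟨hp.1, hp.2.1⟩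
    · have : 0 ≤ 3 / (p : ℝ) := by positivity
      linarith
  · exact prod_nonneg fun p _ => by positivity
  · exact (EE_pos _ _).le


/-- the index of the modulus -/
def kk (i : ℕ × Finset ℕ × ℕ) : ℕ := (i.1 * ∏ p ∈ i.2.1, p) * i.2.2

lemma dvd_kk {y j z D X : ℕ} {SS TT : Finset ℕ} (hSS : SS ⊆ SD y D)
    {i : ℕ × Finset ℕ × ℕ} (hi : i ∈ SS ×ˢ (GJ y j ×ˢ TT)) {p : ℕ} (hp : p.Prime) :
    p ∣ kk i ↔ (p ∣ i.1 ∨ p ∈ i.2.1 ∨ p ∣ i.2.2) := by
  rw [mem_product, mem_product] at hi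
  unfold kk
  rw [hp.dvd_mul, hp.dvd_mul, or_assoc]
  have h1 : p ∣ ∏ q ∈ i.2.1, q ↔ p ∈ i.2.1 := by
    rw [Prime.dvd_finsetProd_iff hp.prime]
    constructor
    · rintro ⟨q, hq, hpq⟩
      have hqp := (mem_PO.1 ((mem_GJ.1 hi.2.1).1 hq)).2.1
      rw [(Nat.prime_dvd_prime_iff_eq hp hqp).1 hpq]
      exact hq
    · intro h
      exact ⟨p, h, dvd_rfl⟩
  rw [h1]

lemma kk_inj {y j z D X : ℕ} {SS TT : Finset ℕ} (hyz : y ≤ z) (hSS : SS ⊆ SD y D)
    (hSz : ∀ d ∈ SS, ∀ p : ℕ, p.Prime → p ∣ d → p ≤ z) (hTT : TT ⊆ SD z X) :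
    Set.InjOn kk ((SS ×ˢ (GJ y j ×ˢ TT) : Finset (ℕ × Finset ℕ × ℕ)) : Set (ℕ × Finset ℕ × ℕ)) := by
  intro i hi i' hi' h
  rw [mem_coe] at hi hi'
  have hk : ∀ p : ℕ, p.Prime → ((p ∣ i.1 ∨ p ∈ i.2.1 ∨ p ∣ i.2.2) ↔ (p ∣ i'.1 ∨ p ∈ i'.2.1 ∨ p ∣ i'.2.2)) := by
    intro p hp
    rw [← dvd_kk (z := z) (X := X) hSS hi hp, ← dvd_kk (z := z) (X := X) hSS hi' hp, h]
  have hm := hi
  have hm' := hi'
  rw [mem_product, mem_product] at hm hm'
  have f1 : ∀ {w : ℕ × Finset ℕ × ℕ}, w ∈ SS ×ˢ (GJ y j ×ˢ TT) → ∀ p : ℕ, p.Prime → p ∣ w.1 → y < p ∧ p ≤ z := by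
    intro w hw p hp hpd
    rw [mem_product] at hw
    refine ⟨?_, hSz _ hw.1 p hp hpd⟩
    by_contra hle
    exact (mem_SD.1 (hSS hw.1)).2.2 p hp (not_lt.1 hle) hpd
  have f2 : ∀ {w : ℕ × Finset ℕ × ℕ}, w ∈ SS ×ˢ (GJ y j ×ˢ TT) → ∀ p : ℕ, p ∈ w.2.1 → p.Prime ∧ p ≤ y := by
    intro w hw p hp
    rw [mem_product, mem_product] at hw
    have := mem_PO.1 ((mem_GJ.1 hw.2.1).1 hp)
    exact ⟨this.2.1, this.1.2⟩
  have f3 : ∀ {w : ℕ × Finset ℕ × ℕ}, w ∈ SS ×ˢ (GJ y j ×ˢ TT) → ∀ p : ℕ, p.Prime → p ∣ w.2.2 → z < p := by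
    intro w hw p hp hpd
    rw [mem_product, mem_product] at hw
    by_contra hle
    exact (mem_SD.1 (hTT hw.2.2)).2.2 p hp (not_lt.1 hle) hpd
  have g1 : i.1.primeFactors = i'.1.primeFactors := by
    ext p
    rw [Nat.mem_primeFactors, Nat.mem_primeFactors]
    have n1 : i.1 ≠ 0 := by have := (mem_SD.1 (hSS hm.1)).1.1; omega
    have n2 : i'.1 ≠ 0 := by have := (mem_SD.1 (hSS hm'.1)).1.1; omega
    constructor
    · rintro ⟨hp, hpd, _⟩
      refine ⟨hp, ?_, n2⟩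
      have h2 := f1 hi p hp hpd
      rcases (hk p hp).1 (Or.inl hpd) with h3 | h3 | h3
      · exact h3
      · have := f2 hi' p h3; omega
      · have := f3 hi' p hp h3; omega
    · rintro ⟨hp, hpd, _⟩
      refine ⟨hp, ?_, n1⟩
      have h2 := f1 hi' p hp hpd
      rcases (hk p hp).2 (Or.inl hpd) with h3 | h3 | h3
      · exact h3
      · have := f2 hi p h3; omega
      · have := f3 hi p hp h3; omega
  have g2 : i.2.1 = i'.2.1 := by
    ext p
    constructor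
    · intro hp
      have h2 := f2 hi p hp
      rcases (hk p h2.1).1 (Or.inr (Or.inl hp)) with h3 | h3 | h3
      · have := f1 hi' p h2.1 h3; omega
      · exact h3
      · have := f3 hi' p h2.1 h3; omega
    · intro hp
      have h2 := f2 hi' p hp
      rcases (hk p h2.1).2 (Or.inr (Or.inl hp)) with h3 | h3 | h3
      · have := f1 hi p h2.1 h3; omega
      · exact h3
      · have := f3 hi p h2.1 h3; omega
  have g3 : i.2.2.primeFactors = i'.2.2.primeFactors := by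
    ext p
    rw [Nat.mem_primeFactors, Nat.mem_primeFactors]
    have n1 : i.2.2 ≠ 0 := by have := (mem_SD.1 (hTT hm.2.2)).1.1; omega
    have n2 : i'.2.2 ≠ 0 := by have := (mem_SD.1 (hTT hm'.2.2)).1.1; omega
    constructor
    · rintro ⟨hp, hpd, _⟩
      refine ⟨hp, ?_, n2⟩
      have h2 := f3 hi p hp hpd
      rcases (hk p hp).1 (Or.inr (Or.inr hpd)) with h3 | h3 | h3
      · have := f1 hi' p hp h3; omega
      · have := f2 hi' p h3; omega
      · exact h3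
    · rintro ⟨hp, hpd, _⟩
      refine ⟨hp, ?_, n1⟩
      have h2 := f3 hi' p hp hpd
      rcases (hk p hp).2 (Or.inr (Or.inr hpd)) with h3 | h3 | h3
      · have := f1 hi p hp h3; omega
      · have := f2 hi p h3; omega
      · exact h3
  have k1 : i.1 = i'.1 := by
    rw [← prod_pf (hSS hm.1), ← prod_pf (hSS hm'.1), g1]
  have k3 : i.2.2 = i'.2.2 := by
    rw [← prod_pf (hTT hm.2.2), ← prod_pf (hTT hm'.2.2), g3]
  exact Prod.ext k1 (Prod.ext g2 k3)

lemma prod_le_pow {y j : ℕ} {G : Finset ℕ} (hG : G ∈ GJ y j) (hy : 1 ≤ y) : ∏ p ∈ G, p ≤ y ^ j := by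
  rw [mem_GJ] at hG
  calc ∏ p ∈ G, p ≤ ∏ _p ∈ G, y := prod_le_prod (fun _ _ => Nat.zero_le _) fun p hp => (mem_PO.1 (hG.1 hp)).1.2
    _ = y ^ G.card := by rw [prod_const]
    _ ≤ y ^ j := Nat.pow_le_pow_right hy hG.2.le

/-- **the deterministic inequality** -/
theorem main_ineq (N y z D X j K0 : ℕ) (hy : 1 ≤ y) (hyz : y ≤ z) (hz : 2 ≤ z) (SS TT S : Finset ℕ)
    (hSS : SS ⊆ SD y D) (hSz : ∀ d ∈ SS, ∀ p : ℕ, p.Prime → p ∣ d → p ≤ z) (hTT : TT ⊆ SD z X)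
    (hK0 : D * y ^ j * X ≤ K0) (hS : ∀ a ∈ S, a ≤ N) (f : ℕ → ℝ) (hf : ∀ n, |f n| ≤ 1)
    (T : ℝ) (hT0 : 0 ≤ T) (hT : ∀ m : ℕ, 1 ≤ m → m ≤ N → (m.divisors.card : ℝ) ≤ T)
    (H : ℝ) (hH : ∑ m ∈ Icc 1 K0, (1 / (m : ℝ)) ≤ H) :
    ∑ a ∈ S, ZZ y N SS TT f a ≤ (Nat.log 2 K0 + 1) * Real.sqrt (6 * H ^ 2 * N * (N * S.card +
        2 * N * T * S.card ^ 2 / z + 4 * K0 ^ 2 * S.card + 4 * K0 * T * S.card ^ 2)) +
      S.card * (B1 z X (2 * N) * (2 * (1 / 2) ^ j * (2 * N * (EE y D * EE 0 y)))) := by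
  classical
  set XX : ℕ → ℕ → ℕ → ℝ := fun a d e => ∑ n ∈ Icc 1 N, f n *
    (rz y ((n : ℤ) + a) * (i1 d ((n : ℤ) + a) * BX.dl e ((n : ℤ) + a))) with hXX
  set s : ℕ → ℕ → ℕ → ℝ := fun a d e => if 0 ≤ XX a d e then 1 else -1 with hs
  have hsX : ∀ a d e, s a d e * XX a d e = |XX a d e| := by
    intro a d e
    rw [hs]
    simp only
    split_ifs with h
    · rw [one_mul, abs_of_nonneg h]
    · rw [abs_of_neg (not_le.1 h)]; ring
  have hs1 : ∀ a d e, |s a d e| = 1 := by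
    intro a d e
    rw [hs]
    simp only
    split_ifs <;> norm_num
  -- main part and error
  set MM : ℕ → ℕ → ℕ → ℝ := fun a d e => ∑ n ∈ Icc 1 N, f n *
    (TJ y j ((n : ℤ) + a) * (i1 d ((n : ℤ) + a) * BX.dl e ((n : ℤ) + a))) with hMM
  set RR : ℕ → ℕ → ℕ → ℝ := fun a d e => ∑ n ∈ Icc 1 N, |rz y ((n : ℤ) + a) - TJ y j ((n : ℤ) + a)| *
    (i1 d ((n : ℤ) + a) * |BX.dl e ((n : ℤ) + a)|) with hRR
  have hXM : ∀ a d e, |XX a d e| ≤ s a d e * MM a d e + RR a d e := by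
    intro a d e
    rw [← hsX]
    have h1 : s a d e * XX a d e = s a d e * MM a d e + s a d e * (XX a d e - MM a d e) := by ring
    rw [h1]
    have h2 : s a d e * (XX a d e - MM a d e) ≤ RR a d e := by
      refine (le_abs_self _).trans ?_
      rw [abs_mul, hs1, one_mul, hXX, hMM, hRR]
      simp only
      rw [← sum_sub_distrib]
      refine (abs_sum_le_sum_abs _ _).trans ?_
      refine sum_le_sum fun n _ => ?_
      have e1 : f n * (rz y ((n : ℤ) + a) * (i1 d ((n : ℤ) + a) * BX.dl e ((n : ℤ) + a))) -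
          f n * (TJ y j ((n : ℤ) + a) * (i1 d ((n : ℤ) + a) * BX.dl e ((n : ℤ) + a))) =
          f n * ((rz y ((n : ℤ) + a) - TJ y j ((n : ℤ) + a)) * (i1 d ((n : ℤ) + a) * BX.dl e ((n : ℤ) + a))) := by
        ring
      rw [e1, abs_mul, abs_mul, abs_mul, abs_of_nonneg (i1_nonneg d _)]
      calc |f n| * _ ≤ 1 * _ := mul_le_mul_of_nonneg_right (hf n)
            (mul_nonneg (abs_nonneg _) (mul_nonneg (i1_nonneg _ _) (abs_nonneg _)))
        _ = _ := one_mul _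
    linarith
  have hZ : ∑ a ∈ S, ZZ y N SS TT f a ≤ (∑ a ∈ S, ∑ d ∈ SS, ∑ e ∈ TT, s a d e * MM a d e) +
      ∑ a ∈ S, ∑ d ∈ SS, ∑ e ∈ TT, RR a d e := by
    rw [← sum_add_distrib]
    refine sum_le_sum fun a _ => ?_
    unfold ZZ
    rw [← sum_add_distrib]
    refine sum_le_sum fun d _ => ?_
    rw [← sum_add_distrib]
    refine sum_le_sum fun e _ => ?_
    exact hXM a d e
  refine hZ.trans (add_le_add ?_ ?_)
  · -- the main part
    set I : Finset (ℕ × Finset ℕ × ℕ) := SS ×ˢ (GJ y j ×ˢ TT) with hI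
    set c : (ℕ × Finset ℕ × ℕ) → ℕ → ℝ := fun i a => (-1 : ℝ) ^ i.2.1.card * s a i.1 i.2.2 with hc
    have hmem : ∀ i ∈ I, i.1 ∈ SS ∧ i.2.1 ∈ GJ y j ∧ i.2.2 ∈ TT := by
      intro i hi
      rw [hI, mem_product, mem_product] at hi
      exact ⟨hi.1, hi.2.1, hi.2.2⟩
    have hc1 : ∀ i a, |c i a| ≤ 1 := by
      intro i a
      rw [hc]
      simp only
      rw [abs_mul, hs1, mul_one, abs_pow, abs_neg, abs_one, one_pow]
    have e1 : ∑ a ∈ S, ∑ d ∈ SS, ∑ e ∈ TT, s a d e * MM a d e = ∑ i ∈ I, ∑ a ∈ S, c i a *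
        ∑ n ∈ Icc 1 N, f n * ((if ((i.1 * ∏ p ∈ i.2.1, p : ℕ) : ℤ) ∣ ((n : ℤ) + a) then 1 else 0) *
          ((if (i.2.2 : ℤ) ∣ ((n : ℤ) + a) then 1 else 0) - 1 / (i.2.2 : ℝ))) := by
      rw [sum_comm (s := I)]
      refine sum_congr rfl fun a _ => ?_
      rw [hI, sum_product]
      refine sum_congr rfl fun d hd => ?_
      rw [sum_product_right]
      refine sum_congr rfl fun e _ => ?_
      rw [hMM]
      simp only
      have e2 : ∀ n ∈ Icc 1 N, f n * (TJ y j ((n : ℤ) + a) * (i1 d ((n : ℤ) + a) * BX.dl e ((n : ℤ) + a))) =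
          ∑ G ∈ GJ y j, (-1 : ℝ) ^ G.card * (f n * ((if ((d * ∏ p ∈ G, p : ℕ) : ℤ) ∣ ((n : ℤ) + a) then 1 else 0) *
          ((if (e : ℤ) ∣ ((n : ℤ) + a) then 1 else 0) - 1 / (e : ℝ)))) := by
        intro n _
        unfold TJ
        rw [sum_mul, mul_sum]
        refine sum_congr rfl fun G hG => ?_
        rw [← i1_iG (hSS hd) (mem_GJ.1 hG).1]
        unfold BX.dl
        ring
      rw [sum_congr rfl e2, sum_comm, mul_sum]
      refine sum_congr rfl fun G _ => ?_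
      rw [← mul_sum, hc]
      simp only
      ring
    rw [e1]
    refine le_trans (sum_le_sum fun i _ => le_abs_self _) ?_
    have hb := bil N f S z I (fun i => i.1 * ∏ p ∈ i.2.1, p) (fun i => i.2.2) K0
      (fun i hi => Nat.mul_pos (mem_SD.1 (hSS (hmem i hi).1)).1.1 (prod_pos' (mem_GJ.1 (hmem i hi).2.1).1))
      (fun i hi => (mem_SD.1 (hTT (hmem i hi).2.2)).1.1) (fun i hi => ?_) (fun i hi p hp hpd => ?_)
      (fun i hi => ?_) c
    · refine hb.trans ?_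
      refine total N f hf S hS I (fun i => (i.1 * ∏ p ∈ i.2.1, p) * i.2.2) K0 ?_ ?_ c hc1 T hT0 hT H hH z (by omega)
      · exact kk_inj hyz hSS hSz hTT
      · intro i hi
        have h1 := (mem_SD.1 (hSS (hmem i hi).1)).1
        have h2 := prod_pos' (mem_GJ.1 (hmem i hi).2.1).1
        have h3 := (mem_SD.1 (hTT (hmem i hi).2.2)).1
        refine ⟨Nat.mul_pos (Nat.mul_pos h1.1 h2) h3.1, le_trans ?_ hK0⟩
        exact Nat.mul_le_mul (Nat.mul_le_mul h1.2 (prod_le_pow (hmem i hi).2.1 hy)) h3.2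
    · -- coprimality
      obtain ⟨h1, h2, h3⟩ := hmem i hi
      rw [Nat.coprime_iff_gcd_eq_one]
      by_contra hne
      obtain ⟨p, hp, hpd⟩ := Nat.exists_prime_and_dvd hne
      have h4 : ¬ p ≤ z := fun h => (mem_SD.1 (hTT h3)).2.2 p hp h (hpd.trans (Nat.gcd_dvd_right _ _))
      have h5 := hpd.trans (Nat.gcd_dvd_left _ _)
      rcases hp.dvd_mul.1 h5 with h6 | h6
      · exact h4 (hSz _ h1 p hp h6)
      · obtain ⟨q, hq, hpq⟩ := (Prime.dvd_finsetProd_iff hp.prime _).1 h6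
        have hq2 := mem_PO.1 ((mem_GJ.1 h2).1 hq)
        rw [(Nat.prime_dvd_prime_iff_eq hp hq2.2.1).1 hpq] at h4
        exact h4 (hq2.1.2.trans hyz)
    · have h3 := (hmem i hi).2.2
      by_contra hle
      exact (mem_SD.1 (hTT h3)).2.2 p hp (not_lt.1 hle) hpd
    · obtain ⟨h1, h2, h3⟩ := hmem i hi
      refine le_trans ?_ hK0
      exact Nat.mul_le_mul (Nat.mul_le_mul (mem_SD.1 (hSS h1)).1.2 (prod_le_pow h2 hy)) (mem_SD.1 (hTT h3)).1.2
  · -- the error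
    rw [← nsmul_eq_mul]
    refine sum_le_card_nsmul _ _ _ fun a ha => ?_
    refine le_trans (le_of_eq ?_) (err_bd N y j z X D a (hS a ha) hz SS TT hSS hTT)
    rw [hRR]
    simp only
    have e1 : ∀ d ∈ SS, ∑ e ∈ TT, ∑ n ∈ Icc 1 N, |rz y ((n : ℤ) + a) - TJ y j ((n : ℤ) + a)| *
        (i1 d ((n : ℤ) + a) * |BX.dl e ((n : ℤ) + a)|) = ∑ n ∈ Icc 1 N, |rz y ((n : ℤ) + a) - TJ y j ((n : ℤ) + a)| *
        (i1 d ((n : ℤ) + a) * ∑ e ∈ TT, |BX.dl e ((n : ℤ) + a)|) := by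
      intro d _
      rw [sum_comm]
      refine sum_congr rfl fun n _ => ?_
      rw [← mul_sum, ← mul_sum]
    rw [sum_congr rfl e1, sum_comm]
    refine sum_congr rfl fun n _ => ?_
    rw [← mul_sum]

end Pool.Agent.H528.Lsd
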