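import Mathlib
import Pool.Agent.H528.Lsd

/-! Few shifts, up to `N ^ δ`, have a large discrepancy over moduli up to `N ^ ((1 + δ) / 2)`. -/

set_option autoImplicit false

namespace Pool.Agent.H528.QFd

open Finset Filter
open Pool.Agent.H442R2
open Pool.Agent.Y822
open Pool.Agent.Y822.Win Pool.Agent.Y822.Cop Pool.Agent.Y822.Nc Pool.Agent.Y822.Par3 Pool.Agent.Y822.QF
open Pool.Agent.Helper112 (divisor_bound harm_le)

/-- few shifts, up to `N ^ δ` and powers of logarithms, have a large discrepancy, for the moduli with the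
property `P`; explicit range -/
def QDx (δ₀ δ : ℝ) (P : ℕ → ℕ → Prop) : Prop := ∀ δ' : ℝ, 0 < δ' → δ' ≤ δ₀ → ∀ ε₁ : ℝ,
    0 < ε₁ → ε₁ ≤ 1 / 2 → ∀ U : ℕ, ∃ κ₀ : ℝ, 0 < κ₀ ∧ κ₀ ≤ 1 ∧ ∀ κ : ℝ, 0 < κ → κ ≤ κ₀ → ∃ C : ℕ,
    ∀ᶠ N : ℕ in atTop, ∀ f : ℕ → ℝ, (∀ n, |f n| ≤ 1) → ∀ TT : Finset ℕ,
    (∀ e ∈ TT, P N e ∧ 1 < e ∧ Squarefree e ∧ Ro (zN ε₁ N) e) → ∀ S : Finset ℕ, (∀ a ∈ S, a ≤ N ∧
      (N : ℝ) / Real.log N ^ U < ZZ (yN κ N) N (SSm N (yN κ N) ε₁ δ') TT f a) →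
    (S.card : ℝ) ≤ (N : ℝ) ^ δ * Real.log N ^ C

/-- few shifts, up to `N ^ δ` and powers of logarithms, have a large discrepancy, for the moduli with the
property `P` -/
def QD (δ : ℝ) (P : ℕ → ℕ → Prop) : Prop := ∃ δ₀ : ℝ, 0 < δ₀ ∧ ∀ δ' : ℝ, 0 < δ' → δ' ≤ δ₀ → ∀ ε₁ : ℝ,
    0 < ε₁ → ε₁ ≤ 1 / 2 → ∀ U : ℕ, ∃ κ₀ : ℝ, 0 < κ₀ ∧ κ₀ ≤ 1 ∧ ∀ κ : ℝ, 0 < κ → κ ≤ κ₀ → ∃ C : ℕ,
    ∀ᶠ N : ℕ in atTop, ∀ f : ℕ → ℝ, (∀ n, |f n| ≤ 1) → ∀ TT : Finset ℕ,
    (∀ e ∈ TT, P N e ∧ 1 < e ∧ Squarefree e ∧ Ro (zN ε₁ N) e) → ∀ S : Finset ℕ, (∀ a ∈ S, a ≤ N ∧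
      (N : ℝ) / Real.log N ^ U < ZZ (yN κ N) N (SSm N (yN κ N) ε₁ δ') TT f a) →
    (S.card : ℝ) ≤ (N : ℝ) ^ δ * Real.log N ^ C

theorem QD_mono {δ : ℝ} {P P' : ℕ → ℕ → Prop} (h : ∀ᶠ N : ℕ in atTop, ∀ d, P' N d → P N d) (hP : QD δ P) :
    QD δ P' := by
  obtain ⟨δ₀, hδ₀, H⟩ := hP
  refine ⟨δ₀, hδ₀, fun δ' hδ' hδ'2 ε₁ hε₁ hε₁2 U => ?_⟩
  obtain ⟨κ₀, hκ₀, hκ₀1, H⟩ := H δ' hδ' hδ'2 ε₁ hε₁ hε₁2 U
  refine ⟨κ₀, hκ₀, hκ₀1, fun κ hκ hκκ => ?_⟩
  obtain ⟨C, H⟩ := H κ hκ hκκ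
  refine ⟨C, ?_⟩
  filter_upwards [H, h] with N H h f hf TT hTT
  exact H f hf TT fun e he => ⟨h e (hTT e he).1, (hTT e he).2⟩

theorem QD_of_QF {δ : ℝ} (hδ : 0 ≤ δ) {P : ℕ → ℕ → Prop} (hP : QF P) : QD δ P := by
  obtain ⟨δ₀, hδ₀, H⟩ := hP
  refine ⟨δ₀, hδ₀, fun δ' hδ' hδ'2 ε₁ hε₁ hε₁2 U => ?_⟩
  obtain ⟨κ₀, hκ₀, hκ₀1, H⟩ := H δ' hδ' hδ'2 ε₁ hε₁ hε₁2 U
  refine ⟨κ₀, hκ₀, hκ₀1, fun κ hκ hκκ => ?_⟩
  obtain ⟨C, H⟩ := H κ hκ hκκ
  refine ⟨C, ?_⟩
  filter_upwards [H, ev_logN (eventually_ge_atTop (0 : ℝ)), eventually_ge_atTop 1] with N H hL hN f hf TT hTT S hS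
  refine (H f hf TT hTT S hS).trans ?_
  have h1 : (1 : ℝ) ≤ (N : ℝ) ^ δ := Real.one_le_rpow (by exact_mod_cast hN) hδ
  have h2 : 0 ≤ Real.log N ^ C := by positivity
  nlinarith

/-- **the large sieve range** -/
theorem QDx_ls (δ τ : ℝ) (hδ : 0 < δ) (hδ1 : δ < 1) (hτ : τ < (1 + δ) / 2) :
    QDx (min ((1 + δ) / 2 - τ) δ / 16) δ (fun N e => (e : ℝ) ≤ (N : ℝ) ^ τ) := by
  classical
  obtain ⟨C1, hEE⟩ := EE_bound
  obtain ⟨σ, hσd⟩ : ∃ σ : ℝ, σ = (1 + δ) / 2 - τ := ⟨_, rfl⟩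
  rw [← hσd]
  have hσ : 0 < σ := by rw [hσd]; linarith
  obtain ⟨δ₀, hδ₀d⟩ : ∃ δ₀ : ℝ, δ₀ = min σ δ / 16 := ⟨_, rfl⟩
  rw [← hδ₀d]
  have hδ₀ : 0 < δ₀ := by rw [hδ₀d]; have := lt_min hσ hδ; positivity
  have hδ₀1 : 16 * δ₀ ≤ σ := by rw [hδ₀d]; have := min_le_left σ δ; linarith
  have hδ₀2 : 16 * δ₀ ≤ δ := by rw [hδ₀d]; have := min_le_right σ δ; linarith
  intro δ' hδ' hδ'2 ε₁ hε₁ hε₁2 U
  obtain ⟨β, hβ⟩ : ∃ β : ℕ, β = 2 * (U + 3 * C1 + 4) := ⟨_, rfl⟩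
  refine ⟨min 1 (δ₀ / (β + 1)), lt_min one_pos (by positivity), min_le_left _ _, fun κ hκ hκκ => ⟨0, ?_⟩⟩
  have hκ1 : κ ≤ 1 := hκκ.trans (min_le_left _ _)
  have hκw : κ * (β + 1) ≤ δ₀ := by
    have := hκκ.trans (min_le_right _ _)
    rwa [le_div_iff₀ (by positivity)] at this
  obtain ⟨εd, hεdd⟩ : ∃ εd : ℝ, εd = min ε₁ δ₀ / 2 := ⟨_, rfl⟩
  have hεd : 0 < εd := by rw [hεdd]; have := lt_min hε₁ hδ₀; positivity
  have hεd1 : εd ≤ ε₁ / 2 := by rw [hεdd]; have := min_le_left ε₁ δ₀; linarith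
  have hεd2 : εd ≤ δ₀ / 2 := by rw [hεdd]; have := min_le_right ε₁ δ₀; linarith
  obtain ⟨CT, hCT, hdiv⟩ := divisor_bound εd hεd
  obtain ⟨η, hηd⟩ : ∃ η : ℝ, η = min (ε₁ / 2) δ₀ := ⟨_, rfl⟩
  have hη : 0 < η := by rw [hηd]; exact lt_min (by linarith) hδ₀
  have hη1 : η ≤ ε₁ / 2 := by rw [hηd]; exact min_le_left _ _
  have hη2 : η ≤ δ₀ := by rw [hηd]; exact min_le_right _ _
  obtain ⟨c4, hc4d⟩ : ∃ c4 : ℝ, c4 = 5 + 8 * CT := ⟨_, rfl⟩
  have hc4 : 0 < c4 := by rw [hc4d]; positivity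
  have a1 := ev_logN (ev_pow_exp (U + 2) (η / 2) (24 * Real.sqrt (6 * c4)) (by positivity))
  have a6 := ev_logN (eventually_ge_atTop (8 : ℝ))
  have a7 := ev_logN (Real.tendsto_log_atTop.eventually (eventually_ge_atTop (1 : ℝ)))
  have a8 := ev_logN (Real.tendsto_log_atTop.eventually (eventually_ge_atTop (1 / ε₁ + 1)))
  have a9 := ev_logN (ev_log_pow 1 (1 / ε₁))
  filter_upwards [hEE, yN_facts κ hκ hκ1 1 1, zN_facts ε₁ hε₁ (by linarith) 2, logz_pow ε₁ hε₁ (by linarith),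
    a1, a6, a7, a8, a9, eventually_ge_atTop 3] with N hE hyf hzf hz4 b1 b6 b7 b8 b9 hN3
  intro f hf TT hTT S hS
  have hN1 : 1 ≤ N := by omega
  obtain ⟨y1, y2, y3, y4, y5⟩ := hyf
  obtain ⟨z1, z2, z3, z4, z5⟩ := hzf
  set y := yN κ N with hyd
  set z := zN ε₁ N with hzd
  set L := Real.log N with hL
  set l := Real.log L with hl
  have hL0 : 0 < L := by linarith
  have hL1 : 1 ≤ L := by linarith
  have hl0 : 0 < l := by linarith
  have hN0 : (0 : ℝ) < N := by positivity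
  have hN1r : (1 : ℝ) ≤ N := by exact_mod_cast hN1
  have hNe : (N : ℝ) = Real.exp L := by rw [hL, Real.exp_log hN0]
  have hrp : ∀ x : ℝ, (N : ℝ) ^ x = Real.exp (x * L) := by
    intro x
    rw [Real.rpow_def_of_pos hN0, ← hL]
    congr 1
    ring
  have hLpow : ∀ j : ℕ, L ^ j = Real.exp (j * l) := by
    intro j
    rw [hl, mul_comm, Real.exp_mul, Real.exp_log hL0, Real.rpow_natCast]
  have hLC : ∀ i j : ℕ, i ≤ j → L ^ i ≤ L ^ j := fun i j h => pow_le_pow_right₀ hL1 h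
  have hy1 : 1 ≤ y := y5
  have hyz : y ≤ z := by
    have h1 : (y : ℝ) ≤ z := by
      refine y1.trans (le_trans ?_ z1)
      have h2 : κ * L / l ≤ ε₁ * L - 1 := by
        rw [div_le_iff₀ hl0]
        have h3 : 1 ≤ ε₁ * l - ε₁ := by
          have := mul_le_mul_of_nonneg_left b8 hε₁.le
          rw [mul_add, mul_one_div, div_self hε₁.ne'] at this
          linarith
        have h5 : l ≤ ε₁ * L := by
          rw [pow_one, one_div, inv_mul_le_iff₀ hε₁] at b9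
          exact b9
        have h6 := mul_le_mul_of_nonneg_right h3 hL0.le
        have h7 := mul_le_mul_of_nonneg_right hκ1 hL0.le
        have h4 : (ε₁ * L - 1) * l = (ε₁ * l - ε₁) * L + ε₁ * L - l := by ring
        rw [h4]
        linarith
      calc Real.exp (κ * L / l) ≤ Real.exp (ε₁ * L - 1) := Real.exp_le_exp.2 h2
        _ = Real.exp (ε₁ * L) / Real.exp 1 := Real.exp_sub _ _
        _ ≤ Real.exp (ε₁ * L) / 2 := by
            apply div_le_div_of_nonneg_left (Real.exp_pos _).le (by norm_num)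
            have := Real.add_one_le_exp (1 : ℝ)
            linarith
    exact_mod_cast h1
  have hz0 : (0 : ℝ) < z := lt_of_lt_of_le (by have := Real.exp_pos (ε₁ * L); positivity) z1
  set D : ℕ := ⌊(N : ℝ) ^ δ'⌋₊ with hD
  have hDle : (D : ℝ) ≤ Real.exp (δ₀ * L) := by
    refine (Nat.floor_le (by positivity)).trans ?_
    rw [hrp]
    exact Real.exp_le_exp.2 (mul_le_mul_of_nonneg_right hδ'2 hL0.le)
  set SS := SSm N y ε₁ δ' with hSS
  have hSS1 : SS ⊆ SD y D := by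
    intro d hd
    exact (mem_SSm.1 hd).1
  have hSS2 : ∀ d ∈ SS, ∀ p : ℕ, p.Prime → p ∣ d → p ≤ z := fun d hd => (mem_SSm.1 hd).2
  set X : ℕ := ⌊(N : ℝ) ^ τ⌋₊ with hX
  have hX2 : (X : ℝ) ≤ Real.exp (τ * L) := by
    refine (Nat.floor_le (by positivity)).trans ?_
    rw [hrp]
  have hTT1 : TT ⊆ SD z X := by
    intro e he
    obtain ⟨h1, h2, h3, h4⟩ := hTT e he
    rw [mem_SD]
    exact ⟨⟨by omega, Nat.le_floor h1⟩, h3, h4⟩
  have hτ1 : τ ≤ 1 - σ := by rw [hσd]; linarith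
  set j := ⌈(β : ℝ) * l⌉₊ with hj
  have hj1 : (β : ℝ) * l ≤ j := Nat.le_ceil _
  have hj2 : (j : ℝ) ≤ (β + 1) * l := by
    have := (Nat.ceil_lt_add_one (by positivity : (0 : ℝ) ≤ β * l)).le
    linarith
  have hyj : ((y ^ j : ℕ) : ℝ) ≤ Real.exp (δ₀ * L) := by
    push_cast
    calc (y : ℝ) ^ j ≤ Real.exp (κ * L / l) ^ j := pow_le_pow_left₀ (Nat.cast_nonneg _) y1 _
      _ = Real.exp ((j : ℝ) * (κ * L / l)) := by rw [← Real.exp_nat_mul]
      _ ≤ Real.exp (δ₀ * L) := by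
          apply Real.exp_le_exp.2
          rw [mul_div_assoc', div_le_iff₀ hl0]
          calc (j : ℝ) * (κ * L) ≤ (β + 1) * l * (κ * L) := mul_le_mul_of_nonneg_right hj2 (by positivity)
            _ = κ * (β + 1) * (L * l) := by ring
            _ ≤ δ₀ * (L * l) := mul_le_mul_of_nonneg_right hκw (by positivity)
            _ = δ₀ * L * l := by ring
  set K0 : ℕ := D * y ^ j * X with hK0
  have hK0le : (K0 : ℝ) ≤ Real.exp ((τ + 2 * δ₀) * L) := by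
    have e1 : (K0 : ℝ) = (D : ℝ) * ((y ^ j : ℕ) : ℝ) * (X : ℝ) := by rw [hK0]; push_cast; ring
    rw [e1]
    calc (D : ℝ) * ((y ^ j : ℕ) : ℝ) * (X : ℝ) ≤ Real.exp (δ₀ * L) * Real.exp (δ₀ * L) * Real.exp (τ * L) := by
          gcongr
      _ = _ := by rw [← Real.exp_add, ← Real.exp_add]; congr 1; ring
  have hK0N : (K0 : ℝ) ≤ N := by
    refine hK0le.trans ?_
    rw [hNe]
    apply Real.exp_le_exp.2
    have : (τ + 2 * δ₀) * L ≤ 1 * L := mul_le_mul_of_nonneg_right (by linarith) hL0.le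
    linarith
  have hK0N' : K0 ≤ N := by exact_mod_cast hK0N
  set T : ℝ := CT * Real.exp (εd * L) with hTd
  have hT0 : 0 ≤ T := by positivity
  have hT : ∀ m : ℕ, 1 ≤ m → m ≤ N → (m.divisors.card : ℝ) ≤ T := by
    intro m hm hmN
    refine (hdiv m hm).trans ?_
    rw [hTd, ← hrp]
    apply mul_le_mul_of_nonneg_left _ hCT.le
    apply Real.rpow_le_rpow (Nat.cast_nonneg _) (by exact_mod_cast hmN) hεd.le
  have hH : ∑ m ∈ Icc 1 K0, (1 / (m : ℝ)) ≤ 2 * L := by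
    calc ∑ m ∈ Icc 1 K0, (1 / (m : ℝ)) ≤ ∑ m ∈ Icc 1 N, (1 / (m : ℝ)) := by
          refine sum_le_sum_of_subset_of_nonneg ?_ fun _ _ _ => by positivity
          exact Icc_subset_Icc_right hK0N'
      _ ≤ 1 + Real.log N := harm_le N hN1
      _ ≤ 2 * L := by linarith
  -- contradiction
  by_contra hbig
  push Not at hbig
  rw [pow_zero, mul_one, hrp] at hbig
  have hSpos : (0 : ℝ) < S.card := lt_trans (Real.exp_pos _) hbig
  have main := Lsd.main_ineq N y z D X j K0 hy1 hyz z2 SS TT S hSS1 hSS2 hTT1 le_rfl (fun a ha => (hS a ha).1) f hf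
    T hT0 hT (2 * L) hH
  have hlow : (S.card : ℝ) * (N / L ^ U) ≤ ∑ a ∈ S, ZZ y N SS TT f a := by
    rw [← nsmul_eq_mul]
    exact card_nsmul_le_sum _ _ _ fun a ha => (hS a ha).2.le
  obtain ⟨s, hsd⟩ : ∃ s : ℝ, s = (S.card : ℝ) := ⟨_, rfl⟩
  rw [← hsd] at hbig hSpos main hlow
  -- first term
  have hS1 : s ≤ s ^ 2 * Real.exp (-(δ * L)) := by
    rw [Real.exp_neg, ← div_eq_mul_inv, le_div_iff₀ (Real.exp_pos _), sq]
    exact mul_le_mul_of_nonneg_left hbig.le hSpos.le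
  have hin : N * s + 2 * N * T * s ^ 2 / z + 4 * (K0 : ℝ) ^ 2 * s + 4 * K0 * T * s ^ 2 ≤
      s ^ 2 * (c4 * (N * Real.exp (-(η * L)))) := by
    have hexpmono : ∀ u v : ℝ, u ≤ v → Real.exp (u * L) ≤ Real.exp (v * L) := fun u v h =>
      Real.exp_le_exp.2 (mul_le_mul_of_nonneg_right h hL0.le)
    have hNη : N * Real.exp (-(η * L)) = Real.exp ((1 - η) * L) := by
      rw [hNe, ← Real.exp_add]; congr 1; ring
    rw [hNη]
    have hS20 : (0 : ℝ) ≤ s ^ 2 := by positivity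
    have t1 : N * s ≤ s ^ 2 * Real.exp ((1 - η) * L) := by
      calc N * s ≤ N * (s ^ 2 * Real.exp (-(δ * L))) := mul_le_mul_of_nonneg_left hS1 hN0.le
        _ = s ^ 2 * Real.exp ((1 - δ) * L) := by
            rw [hNe]
            have : Real.exp ((1 - δ) * L) = Real.exp L * Real.exp (-(δ * L)) := by
              rw [← Real.exp_add]; congr 1; ring
            rw [this]; ring
        _ ≤ _ := mul_le_mul_of_nonneg_left (hexpmono _ _ (by linarith)) hS20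
    have t2 : 2 * N * T * s ^ 2 / z ≤ s ^ 2 * (4 * CT * Real.exp ((1 - η) * L)) := by
      have e1 : 2 * N * T * s ^ 2 / z = s ^ 2 * (2 * CT * (N * Real.exp (εd * L) / z)) := by
        rw [hTd]; ring
      rw [e1]
      apply mul_le_mul_of_nonneg_left _ hS20
      have e2 : N * Real.exp (εd * L) / z ≤ 2 * Real.exp ((1 - η) * L) := by
        rw [div_le_iff₀ hz0]
        calc N * Real.exp (εd * L) = Real.exp ((1 + εd) * L) := by
              rw [hNe, ← Real.exp_add]; congr 1; ring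
          _ ≤ Real.exp ((1 - η + ε₁) * L) := hexpmono _ _ (by linarith)
          _ = 2 * Real.exp ((1 - η) * L) * (Real.exp (ε₁ * L) / 2) := by
              rw [show (1 - η + ε₁) * L = (1 - η) * L + ε₁ * L by ring, Real.exp_add]; ring
          _ ≤ 2 * Real.exp ((1 - η) * L) * z := mul_le_mul_of_nonneg_left z1 (by positivity)
      calc 2 * CT * (N * Real.exp (εd * L) / z) ≤ 2 * CT * (2 * Real.exp ((1 - η) * L)) :=
            mul_le_mul_of_nonneg_left e2 (by positivity)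
        _ = _ := by ring
    have t3 : 4 * (K0 : ℝ) ^ 2 * s ≤ s ^ 2 * (4 * Real.exp ((1 - η) * L)) := by
      calc 4 * (K0 : ℝ) ^ 2 * s ≤ 4 * Real.exp ((τ + 2 * δ₀) * L) ^ 2 * (s ^ 2 * Real.exp (-(δ * L))) := by
            gcongr
        _ = s ^ 2 * (4 * Real.exp ((2 * τ + 4 * δ₀ - δ) * L)) := by
            have : Real.exp ((2 * τ + 4 * δ₀ - δ) * L) = Real.exp ((τ + 2 * δ₀) * L) ^ 2 * Real.exp (-(δ * L)) := by
              rw [← Real.exp_nat_mul, ← Real.exp_add]; congr 1; push_cast; ring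
            rw [this]; ring
        _ ≤ _ := by
            apply mul_le_mul_of_nonneg_left _ hS20
            apply mul_le_mul_of_nonneg_left _ (by norm_num)
            exact hexpmono _ _ (by linarith)
    have t4 : 4 * (K0 : ℝ) * T * s ^ 2 ≤ s ^ 2 * (4 * CT * Real.exp ((1 - η) * L)) := by
      have e1 : (K0 : ℝ) * Real.exp (εd * L) ≤ Real.exp ((1 - η) * L) := by
        calc (K0 : ℝ) * Real.exp (εd * L) ≤ Real.exp ((τ + 2 * δ₀) * L) * Real.exp (εd * L) :=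
              mul_le_mul_of_nonneg_right hK0le (Real.exp_pos _).le
          _ = Real.exp ((τ + 2 * δ₀ + εd) * L) := by rw [← Real.exp_add]; congr 1; ring
          _ ≤ _ := hexpmono _ _ (by linarith)
      calc 4 * (K0 : ℝ) * T * s ^ 2 = s ^ 2 * (4 * CT * (K0 * Real.exp (εd * L))) := by rw [hTd]; ring
        _ ≤ _ := by
            apply mul_le_mul_of_nonneg_left _ hS20
            exact mul_le_mul_of_nonneg_left e1 (by positivity)
    have e5 : s ^ 2 * (c4 * Real.exp ((1 - η) * L)) = s ^ 2 * Real.exp ((1 - η) * L) +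
        s ^ 2 * (4 * CT * Real.exp ((1 - η) * L)) + s ^ 2 * (4 * Real.exp ((1 - η) * L)) +
        s ^ 2 * (4 * CT * Real.exp ((1 - η) * L)) := by rw [hc4d]; ring
    rw [e5]
    linarith
  have hsqrt : Real.sqrt (6 * (2 * L) ^ 2 * N * (N * s +
        2 * N * T * s ^ 2 / z + 4 * (K0 : ℝ) ^ 2 * s + 4 * K0 * T * s ^ 2)) ≤
      (2 * L) * N * s * Real.sqrt (6 * c4) * Real.exp (-(η / 2 * L)) := by
    apply Real.sqrt_le_iff.2
    refine ⟨by positivity, ?_⟩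
    calc 6 * (2 * L) ^ 2 * N * (N * s +
        2 * N * T * s ^ 2 / z + 4 * (K0 : ℝ) ^ 2 * s + 4 * K0 * T * s ^ 2) ≤
        6 * (2 * L) ^ 2 * N * (s ^ 2 * (c4 * (N * Real.exp (-(η * L))))) :=
          mul_le_mul_of_nonneg_left hin (by positivity)
      _ = ((2 * L) * N * s) ^ 2 * (6 * c4) * Real.exp (-(η * L)) := by ring
      _ = _ := by
          rw [mul_pow _ (Real.exp _), mul_pow _ (Real.sqrt _), Real.sq_sqrt (by positivity)]
          congr 1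
          rw [← Real.exp_nat_mul]
          congr 1
          push_cast
          ring
  have hlog2 : ((Nat.log 2 K0 : ℕ) : ℝ) + 1 ≤ 3 * L := by
    have h1 : (Nat.log 2 K0 : ℝ) ≤ Nat.log 2 N := by exact_mod_cast Nat.log_mono_right hK0N'
    have h2 : (Nat.log 2 N : ℝ) ≤ Real.logb 2 N := Real.natLog_le_logb _ _
    have h3 : Real.logb 2 N = L / Real.log 2 := rfl
    have h4 := Real.log_two_gt_d9
    have h5 : L / Real.log 2 ≤ 2 * L := by
      rw [div_le_iff₀ (by linarith)]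
      calc L = 2 * L * (1 / 2) := by ring
        _ ≤ 2 * L * Real.log 2 := mul_le_mul_of_nonneg_left (by linarith) (by linarith)
    linarith
  have hfirst : ((Nat.log 2 K0 : ℕ) + 1) * Real.sqrt (6 * (2 * L) ^ 2 * N * (N * s +
        2 * N * T * s ^ 2 / z + 4 * (K0 : ℝ) ^ 2 * s + 4 * K0 * T * s ^ 2)) ≤
      s * (N / (4 * L ^ U)) := by
    calc _ ≤ (3 * L) * ((2 * L) * N * s * Real.sqrt (6 * c4) * Real.exp (-(η / 2 * L))) := by
          apply mul_le_mul hlog2 hsqrt (Real.sqrt_nonneg _) (by positivity)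
      _ = s * (N / (4 * L ^ U)) * ((24 * Real.sqrt (6 * c4) * L ^ (U + 2)) * Real.exp (-(η / 2 * L))) := by
          rw [pow_add]
          field_simp
          ring
      _ ≤ s * (N / (4 * L ^ U)) * 1 := by
          apply mul_le_mul_of_nonneg_left _ (by positivity)
          rw [Real.exp_neg, ← div_eq_mul_inv, div_le_one (Real.exp_pos _)]
          exact b1
      _ = _ := mul_one _
  -- second term
  have hhalf : (1 / 2 : ℝ) ^ j ≤ 1 / L ^ (U + 3 * C1 + 4) := by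
    have g0 : 1 / L ^ (U + 3 * C1 + 4) = Real.exp (-(((U + 3 * C1 + 4 : ℕ) : ℝ) * l)) := by
      rw [hLpow, Real.exp_neg, one_div]
    have g1 : (1 / 2 : ℝ) ^ j = Real.exp (-(Real.log 2 * j)) := by
      rw [Real.exp_neg, Real.exp_mul, Real.exp_log (by norm_num), Real.rpow_natCast, one_div,
        inv_pow]
    rw [g0, g1]
    apply Real.exp_le_exp.2
    have g2 : 1 / 2 ≤ Real.log 2 := by have := Real.log_two_gt_d9; linarith
    have g3 : (1 / 2 : ℝ) * j ≤ Real.log 2 * j := mul_le_mul_of_nonneg_right g2 (Nat.cast_nonneg _)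
    have g4 : ((U + 3 * C1 + 4 : ℕ) : ℝ) * l = 1 / 2 * (β * l) := by
      rw [hβ]; push_cast; ring
    rw [g4]
    linarith
  have hXN : X ≤ N := by
    have : (X : ℝ) ≤ N := by
      refine hX2.trans ?_
      rw [hNe]
      apply Real.exp_le_exp.2
      have : τ * L ≤ 1 * L := mul_le_mul_of_nonneg_right (by linarith) hL0.le
      linarith
    exact_mod_cast this
  have hDN : D ≤ N := by
    have : (D : ℝ) ≤ N := by
      refine hDle.trans ?_
      rw [hNe]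
      apply Real.exp_le_exp.2
      have : δ₀ * L ≤ 1 * L := mul_le_mul_of_nonneg_right (by linarith) hL0.le
      linarith
    exact_mod_cast this
  have hyN : y ≤ N := by rw [pow_one] at y4; exact y4
  have hB1 : B1 z X (2 * N) ≤ L ^ (C1 + 2) := by
    unfold B1
    have t0 : (4 : ℝ) ^ Nat.log z (2 * N) ≤ L := by
      refine le_trans ?_ hz4
      apply pow_le_pow_right₀ (by norm_num)
      apply Nat.log_mono_right
      rw [sq]
      exact Nat.mul_le_mul_left 2 (Nat.le_mul_of_pos_left N hN1)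
    have tE := hE z X hXN
    have t1 : L ≤ L ^ (C1 + 1) := by
      calc L = L ^ 1 := (pow_one _).symm
        _ ≤ _ := hLC _ _ (by omega)
    have t2 : L ^ C1 ≤ L ^ (C1 + 1) := hLC _ _ (by omega)
    have t3 : L ^ (C1 + 2) = L * L ^ (C1 + 1) := by ring
    have t4 : 0 < L ^ (C1 + 1) := by positivity
    rw [t3]
    have t5 := mul_le_mul_of_nonneg_right (by linarith : (2 : ℝ) ≤ L) t4.le
    linarith
  have hsecond : s * (B1 z X (2 * N) * (2 * (1 / 2) ^ j * (2 * N * (EE y D * EE 0 y)))) ≤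
      s * (N / (4 * L ^ U)) := by
    apply mul_le_mul_of_nonneg_left _ hSpos.le
    have hB10 := (B1_pos z X (2 * N)).le
    have hE1 := hE y D hDN
    have hE2 := hE 0 y hyN
    have hE10 := (EE_pos y D).le
    have hE20 := (EE_pos 0 y).le
    calc B1 z X (2 * N) * (2 * (1 / 2) ^ j * (2 * N * (EE y D * EE 0 y))) ≤
        L ^ (C1 + 2) * (2 * (1 / L ^ (U + 3 * C1 + 4)) * (2 * N * (L ^ C1 * L ^ C1))) := by gcongr
      _ = (16 / L ^ 2) * (N / (4 * L ^ U)) := by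
          have e1 : L ^ (U + 3 * C1 + 4) = L ^ (C1 + 2) * L ^ C1 * L ^ C1 * L ^ 2 * L ^ U := by ring
          rw [e1]
          field_simp
          ring
      _ ≤ 1 * (N / (4 * L ^ U)) := by
          apply mul_le_mul_of_nonneg_right _ (by positivity)
          rw [div_le_one (by positivity)]
          calc (16 : ℝ) ≤ 8 ^ 2 := by norm_num
            _ ≤ L ^ 2 := pow_le_pow_left₀ (by norm_num) b6 2
      _ = _ := one_mul _
  have hfin : s * (N / L ^ U) ≤ s * (N / (4 * L ^ U)) + s * (N / (4 * L ^ U)) := by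
    linarith
  have e9 : s * (N / L ^ U) = 4 * (s * (N / (4 * L ^ U))) := by field_simp
  have e10 : 0 < s * (N / (4 * L ^ U)) := by positivity
  linarith

theorem QD_ls (δ τ : ℝ) (hδ : 0 < δ) (hδ1 : δ < 1) (hτ : τ < (1 + δ) / 2) :
    QD δ (fun N e => (e : ℝ) ≤ (N : ℝ) ^ τ) :=
  ⟨min ((1 + δ) / 2 - τ) δ / 16, by have := lt_min (sub_pos.2 hτ) hδ; positivity, QDx_ls δ τ hδ hδ1 hτ⟩

end Pool.Agent.H528.QFd
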