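import Mathlib
import Pool.Agent.H528.QFd
import Pool.Graph.R_pool_sql_team_seeded_3997aac3.Q148.FN.Fac

/-! The moduli of the linear sieve. -/

set_option autoImplicit false

namespace Pool.Agent.H528.Mod

open Finset Filter
open Pool.Agent.H442R2
open Pool.Agent.Y822
open Pool.Agent.Y822.QF
open Pool.Agent.H528.QFd
open Pool.Agent.W23.DC (WFac tt sz)

/-- the level of distribution for all but `N ^ δ` shifts -/
noncomputable def Th (δ : ℝ) : ℝ := max (5 / 9) ((1 + δ) / 2)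

lemma QF_false : QF (fun _ _ => False) := by
  refine QF_mono (Eventually.of_forall fun N d h => ?_) (QF_fac (1 / 2) 1 (by norm_num) (by norm_num) one_pos)
  exact h.elim

lemma QF_fin_or (P : ℕ → ℕ → ℕ → Prop) (M : ℕ) (hP : ∀ i, i < M → QF (P i)) :
    QF (fun N e => ∃ i, i < M ∧ P i N e) := by
  induction M with
  | zero =>
    refine QF_mono (Eventually.of_forall fun N d h => ?_) QF_false
    obtain ⟨i, hi, _⟩ := h
    omega
  | succ M ih =>
    refine QF_mono (Eventually.of_forall fun N d h => ?_)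
      (QF_or (ih fun i hi => hP i (by omega)) (hP M (by omega)))
    obtain ⟨i, hi, h⟩ := h
    rcases Nat.lt_or_ge i M with h1 | h1
    · exact Or.inl ⟨i, h1, h⟩
    · right
      have : i = M := by omega
      rw [this] at h
      exact h

/-- **the well factorable moduli of level below `5 / 9`** -/
theorem QF_wfac (τ : ℝ) (hτ1 : 1 / 2 ≤ τ) (hτ2 : τ < 5 / 9) :
    QF (fun N e => Squarefree e ∧ WFac (tt N) τ e) := by
  obtain ⟨κ, hκd⟩ : ∃ κ : ℝ, κ = (5 - 9 * τ) / 20 := ⟨_, rfl⟩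
  have hκ : 0 < κ := by rw [hκd]; linarith
  obtain ⟨M, hM⟩ : ∃ M : ℕ, M = ⌈(τ + κ - 1 / 2) / κ⌉₊ := ⟨_, rfl⟩
  have hθ : ∀ i : ℕ, i ≤ M → (1 / 2 + i * κ : ℝ) < 5 / 9 := by
    intro i hi
    have h1 : (M : ℝ) < (τ + κ - 1 / 2) / κ + 1 := by
      rw [hM]; exact Nat.ceil_lt_add_one (div_nonneg (by linarith) hκ.le)
    have h2 : (i : ℝ) ≤ M := by exact_mod_cast hi
    have h3 : (i : ℝ) * κ ≤ ((τ + κ - 1 / 2) / κ + 1) * κ := mul_le_mul_of_nonneg_right (by linarith) hκ.le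
    rw [add_mul, div_mul_cancel₀ _ hκ.ne', one_mul] at h3
    rw [hκd] at h3 ⊢
    linarith
  have hA : QF (fun N e => ∃ i, i < M + 1 ∧ ((e : ℝ) ≤ (N : ℝ) ^ (1 / 2 + i * κ : ℝ) ∧
      ((1 / 2 + i * κ : ℝ) ≤ 51 / 100 ∨ FX.FacD (2 * N) (1 / 2 + i * κ) (κ / 2) e))) := by
    refine QF_fin_or (fun i N e => (e : ℝ) ≤ (N : ℝ) ^ (1 / 2 + i * κ : ℝ) ∧
      ((1 / 2 + i * κ : ℝ) ≤ 51 / 100 ∨ FX.FacD (2 * N) (1 / 2 + i * κ) (κ / 2) e)) (M + 1) fun i hi => ?_
    exact QF_fac (1 / 2 + i * κ) (κ / 2) (by positivity) (hθ i (by omega)) (by positivity)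
  have hB := QF_fac (1 / 2) 1 (by norm_num) (by norm_num) one_pos
  have hsc : ∀ᶠ N : ℕ in atTop, ∀ i, i ≤ M → ∀ d, FX.FacD N (1 / 2 + i * κ) κ d →
      FX.FacD (2 * N) (1 / 2 + i * κ) (κ / 2) d := by
    have h1 : ∀ i ∈ range (M + 1), ∀ᶠ N : ℕ in atTop, ∀ d, FX.FacD N (1 / 2 + i * κ) κ d →
      FX.FacD (2 * N) (1 / 2 + i * κ) (κ / 2) d := by
      intro i hi
      rw [mem_range] at hi
      exact facD_scale (1 / 2 + i * κ) κ (hθ i (by omega)) hκ (by rw [hκd]; linarith)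
    have h2 := (Finset.eventually_all (range (M + 1))).2 h1
    filter_upwards [h2] with N h i hi
    exact h i (by rw [mem_range]; omega)
  refine QF_mono ?_ (QF_or hB hA)
  filter_upwards [hsc, eventually_ge_atTop 2] with N hN hN2 e he
  obtain ⟨he1, he2⟩ := he
  have hN1 : (1 : ℝ) ≤ N := by exact_mod_cast (by omega : 1 ≤ N)
  obtain ⟨i, hi, hmem⟩ := Pool.Agent.Q148.FN.fac_mem τ hτ1 hτ2 N hN2 1 e (by rwa [one_mul])
    (by rw [Nat.cast_one]; exact Real.one_le_rpow hN1 (by linarith)) he2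
  rw [one_mul, ← hκd] at hmem
  rw [← hκd, ← hM] at hi
  classical
  unfold Pool.Agent.Q148.FN.SS at hmem
  rw [mem_filter, mem_Icc] at hmem
  obtain ⟨⟨h1, h2⟩, h3⟩ := hmem
  have h4 : (e : ℝ) ≤ (N : ℝ) ^ (1 / 2 + i * κ : ℝ) := by
    calc (e : ℝ) ≤ (⌊(N : ℝ) ^ (1 / 2 + i * κ : ℝ)⌋₊ : ℝ) := by exact_mod_cast h2
      _ ≤ _ := Nat.floor_le (by positivity)
  rcases h3 with h3 | h3
  · left
    refine ⟨?_, Or.inl (by norm_num)⟩
    calc (e : ℝ) ≤ (⌊(N : ℝ) ^ (49 / 100 : ℝ)⌋₊ : ℝ) := by exact_mod_cast h3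
      _ ≤ (N : ℝ) ^ (49 / 100 : ℝ) := Nat.floor_le (by positivity)
      _ ≤ _ := Real.rpow_le_rpow_of_exponent_le hN1 (by norm_num)
  · right
    exact ⟨i, by omega, h4, Or.inr (hN i hi e h3)⟩

/-- the size of a well factorable number -/
lemma wfac_le {N e : ℕ} {τ : ℝ} (hN : 2 ≤ N) (hτ : 0 ≤ τ) (he : Squarefree e) (h : WFac (tt N) τ e) :
    (e : ℝ) ≤ (N : ℝ) ^ τ := by
  have hNr : (2 : ℝ) ≤ N := by exact_mod_cast hN
  have hN0 : (0 : ℝ) < N := by linarith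
  have hL : 0 < Real.log N := Real.log_pos (by linarith)
  have he0 : e ≠ 0 := he.ne_zero
  have he0' : (0 : ℝ) < e := by exact_mod_cast Nat.pos_of_ne_zero he0
  obtain ⟨u, v, huv, hu, hv⟩ := h τ 0 hτ le_rfl (by ring)
  have hu0 : u ≠ 0 := by rintro rfl; rw [zero_mul] at huv; exact he0 huv.symm
  have hv0 : v ≠ 0 := by rintro rfl; rw [mul_zero] at huv; exact he0 huv.symm
  have hus : Squarefree u := he.squarefree_of_dvd ⟨v, huv.symm⟩
  have hvs : Squarefree v := he.squarefree_of_dvd ⟨u, by rw [mul_comm, huv]⟩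
  rw [Pool.Agent.Q148.FN.sz_eq N u hus hu0] at hu
  rw [Pool.Agent.Q148.FN.sz_eq N v hvs hv0] at hv
  have h1 : Real.log e / Real.log N ≤ τ := by
    have : (e : ℝ) = u * v := by rw [← Nat.cast_mul, huv]
    rw [this, Real.log_mul (by exact_mod_cast hu0) (by exact_mod_cast hv0), add_div]
    linarith
  rw [div_le_iff₀ hL, ← Real.log_rpow hN0] at h1
  exact (Real.log_le_log_iff he0' (by positivity)).1 h1

/-- **the moduli of the linear sieve, for all but `N ^ δ` shifts** -/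
theorem QD_wfac (δ τ : ℝ) (hδ : 0 ≤ δ) (hδ1 : δ < 1) (hτ1 : 1 / 2 ≤ τ) (hτ : τ < Th δ) :
    QD δ (fun N e => Squarefree e ∧ WFac (tt N) τ e) := by
  unfold Th at hτ
  rcases lt_or_ge τ (5 / 9) with h | h
  · exact QD_of_QF hδ (QF_wfac τ hτ1 h)
  · have h1 : τ < (1 + δ) / 2 := by
      rcases lt_max_iff.1 hτ with h2 | h2
      · linarith
      · exact h2
    refine QD_mono ?_ (QD_ls δ τ (by linarith) hδ1 h1)
    filter_upwards [eventually_ge_atTop 2] with N hN e he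
    exact wfac_le hN (by linarith) he.1 he.2

end Pool.Agent.H528.Mod
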