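import Mathlib
import Pool.Graph.R_pool_sql_team_seeded_1acbe0a2.Y822.V.Few

/-! The sieve step with weights supported on a given set of moduli (adapted from
`Pool.Agent.Y822.V` of the starting files). -/

set_option autoImplicit false

namespace Pool.Agent.H528.Stp

open Finset Filter
open Pool.Agent.Y822
open Pool.Agent.Y822.Q (ro_rin)
open Pool.Agent.Y822.V (rr_mulV EV foV)
open Pool.Agent.H442R2
open Pool.Agent.Y822.Cop Pool.Agent.Y822.Nc Pool.Agent.Y822.Par3 Pool.Agent.Y822.QF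
open Pool.Agent.W41 (JJ JJ_lt JJ_le)

/-- divisor sum over `K` -/
noncomputable def thK (K : Finset ℕ) (c : ℕ → ℝ) (m : ℕ) : ℝ := ∑ d ∈ K, c d * (if d ∣ m then 1 else 0)

/-- the double sum of errors -/
noncomputable def DK (K : Finset ℕ) (y z₀ E N : ℕ) (f : ℕ → ℝ) (t : ℕ) : ℝ :=
  ∑ d ∈ K, ∑ T ∈ (PP y z₀).powerset.filter
      (fun T : Finset ℕ => ∏ p ∈ T, p ≤ E), |rr y N f t (d * ∏ p ∈ T, p)|

lemma DK_nonneg (K : Finset ℕ) (y z₀ E N : ℕ) (f : ℕ → ℝ) (t : ℕ) : 0 ≤ DK K y z₀ E N f t :=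
  sum_nonneg fun _ _ => sum_nonneg fun _ _ => abs_nonneg _

/-- **the step** -/
theorem stepK : ∃ C0 : ℕ, 1 ≤ C0 ∧ ∀ b y z₀ Z N : ℕ, C0 ≤ b → C0 ≤ y → y ≤ z₀ →
    ∀ K : Finset ℕ, K ⊆ SD z₀ Z → ∀ c : ℕ → ℝ, (∀ d, |c d| ≤ 1) → ∀ f : ℕ → ℝ, (∀ n, 0 ≤ f n) → ∀ t : ℕ,
    |∑ n ∈ Icc 1 N, f n * (ro z₀ (n + t) * thK K c (n + t)) -
      (∑ d ∈ K, c d / d) * (VP (PP y z₀) * ∑ n ∈ Icc 1 N, f n * ro y (n + t))| ≤
      (1 / 2) ^ b * (∑ d ∈ K, 1 / (d : ℝ)) * (VP (PP y z₀) * ∑ n ∈ Icc 1 N, f n * ro y (n + t)) +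
        ((JJ z₀ : ℕ) + 2) * DK K y z₀ ((2 ^ 2 ^ JJ z₀) ^ (C0 * b)) N f t := by
  obtain ⟨C0, hC0, INN⟩ := Pool.Agent.Y822.inner
  refine ⟨C0, hC0, ?_⟩
  intro b y z₀ Z N hb hy hyz K hK c hc f hf t
  have hP : ∀ p ∈ PP y z₀, p.Prime ∧ y < p ∧ p ≤ 2 ^ 2 ^ JJ z₀ := by
    intro p hp
    obtain ⟨⟨h1, h2⟩, h3⟩ := mem_PP.1 hp
    exact ⟨h3, h1, h2.trans (JJ_lt z₀).le⟩
  set W := ∑ n ∈ Icc 1 N, f n * ro y (n + t) with hW
  have hW' : W0 y N f t = W := rfl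
  have hW0 : 0 ≤ W := sum_nonneg fun n _ => mul_nonneg (hf n) (ro_nonneg _ _)
  have hV : 0 ≤ VP (PP y z₀) := by
    unfold VP
    refine prod_nonneg fun p hp => ?_
    have hp1 : (1 : ℝ) ≤ p := by exact_mod_cast (mem_PP.1 hp).2.one_lt.le
    have : 1 / (p : ℝ) ≤ 1 := by rw [div_le_one (by linarith)]; exact hp1
    linarith
  -- expansion
  have e1 : ∑ n ∈ Icc 1 N, f n * (ro z₀ (n + t) * thK K c (n + t)) =
      ∑ d ∈ K, c d * Aw y N (PP y z₀) f t d := by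
    have h1 : ∀ n ∈ Icc 1 N, f n * (ro z₀ (n + t) * thK K c (n + t)) =
        ∑ d ∈ K, c d * ((f n * ro y (n + t) * rin (PP y z₀) (n + t)) * (if d ∣ n + t then 1 else 0)) := by
      intro n _
      unfold thK
      rw [← ro_rin hyz, mul_sum, mul_sum]
      refine sum_congr rfl fun d _ => ?_
      ring
    rw [sum_congr rfl h1, sum_comm]
    refine sum_congr rfl fun d _ => ?_
    unfold Aw
    rw [mul_sum]
  have e2 : (∑ d ∈ K, c d / d) * (VP (PP y z₀) * W) =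
      ∑ d ∈ K, c d * (W * VP (PP y z₀) * (1 / (d : ℝ))) := by
    rw [sum_mul]
    refine sum_congr rfl fun d _ => ?_
    ring
  rw [e1, e2, ← sum_sub_distrib]
  have hterm : ∀ d ∈ K, |c d * Aw y N (PP y z₀) f t d - c d * (W * VP (PP y z₀) * (1 / (d : ℝ)))| ≤
      (1 / 2) ^ b * (VP (PP y z₀) * W) * (1 / d) + ((JJ z₀ : ℕ) + 2) * (
        ∑ T ∈ (PP y z₀).powerset.filter (fun T : Finset ℕ => ∏ p ∈ T, p ≤ (2 ^ 2 ^ JJ z₀) ^ (C0 * b)),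
          |rr y N f t (d * ∏ p ∈ T, p)|) := by
    intro d hd
    obtain ⟨g1, g2, g3⟩ := mem_SD.1 (hK hd)
    have h1 := INN b (JJ z₀) y N (PP y z₀) hb hy hP f hf t d g1.1 (fun p hp hpd =>
      g3 p (mem_PP.1 hp).2 (mem_PP.1 hp).1.2 hpd)
    rw [hW'] at h1
    rw [← mul_sub, abs_mul]
    have h0 : 0 ≤ |Aw y N (PP y z₀) f t d - W * VP (PP y z₀) * (1 / (d : ℝ))| := abs_nonneg _
    have h2 := mul_le_mul_of_nonneg_right (hc d) h0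
    rw [one_mul] at h2
    refine h2.trans (h1.trans (le_of_eq ?_))
    ring
  refine (abs_sum_le_sum_abs _ _).trans ((sum_le_sum hterm).trans ?_)
  rw [sum_add_distrib, ← mul_sum, ← mul_sum]
  unfold DK
  apply le_of_eq
  ring

/-- **passing to the smooth and the rough parts of the moduli** -/
theorem errK {N y Z E : ℕ} {ε₁ δ' : ℝ} (hE : E ≤ ⌊(N : ℝ) ^ δ'⌋₊) (K : Finset ℕ)
    (hK : K ⊆ SD (zN ε₁ N) Z) (f : ℕ → ℝ) (t : ℕ) (hf : ∀ n, f n ≠ 0 → Odd (n + t)) :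
    DK K y (zN ε₁ N) E N f t ≤ ZZ y N (SSm N y ε₁ δ') (K.erase 1) f t +
        (∑ d ∈ K, 1 / (d : ℝ)) * LD y ⌊(N : ℝ) ^ δ'⌋₊ N f t := by
  classical
  set z₀ := zN ε₁ N with hz₀
  set Q := (PP y z₀).powerset.filter (fun T : Finset ℕ => ∏ p ∈ T, p ≤ E) with hQ
  set SS := SSm N y ε₁ δ' with hSS
  have hQp : ∀ T ∈ Q, ∀ p ∈ T, p.Prime ∧ y < p ∧ p ≤ z₀ := by
    intro T hT p hp
    rw [hQ, mem_filter, mem_powerset] at hT
    have h1 := mem_PP.1 (hT.1 hp)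
    exact ⟨h1.2, h1.1.1, h1.1.2⟩
  have hmem : ∀ T ∈ Q, ∏ p ∈ T, p ∈ SS := by
    intro T hT
    have hT2 : ∏ p ∈ T, p ≤ E := by
      rw [hQ, mem_filter] at hT
      exact hT.2
    rw [hSS, mem_SSm, mem_SD]
    refine ⟨⟨⟨Finset.prod_pos fun p hp => (hQp T hT p hp).1.pos, hT2.trans hE⟩,
      sqf_prod fun p hp => (hQp T hT p hp).1, ?_⟩, ?_⟩
    · intro p hp hpy hpd
      have := (hQp T hT p (prime_dvd_prod (fun q hq => (hQp T hT q hq).1) hp hpd)).2.1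
      omega
    · intro p hp hpd
      exact (hQp T hT p (prime_dvd_prod (fun q hq => (hQp T hT q hq).1) hp hpd)).2.2
  have hinj : Set.InjOn (fun T : Finset ℕ => ∏ p ∈ T, p) (Q : Set (Finset ℕ)) := by
    intro T hT T' hT' h
    rw [mem_coe] at hT hT'
    simp only at h
    rw [← Nat.primeFactors_prod (fun p hp => (hQp T hT p hp).1),
      ← Nat.primeFactors_prod (fun p hp => (hQp T' hT' p hp).1), h]
  have hsum : ∀ F : ℕ → ℝ, (∀ s, 0 ≤ F s) → ∑ T ∈ Q, F (∏ p ∈ T, p) ≤ ∑ s ∈ SS, F s := by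
    intro F hF
    rw [← sum_image (f := F) hinj]
    refine sum_le_sum_of_subset_of_nonneg ?_ (fun s _ _ => hF s)
    intro s hs
    rw [mem_image] at hs
    obtain ⟨T, hT, rfl⟩ := hs
    exact hmem T hT
  obtain ⟨RS, hRS⟩ : ∃ RS : ℝ, RS = ∑ s ∈ SS, |rr y N f t s| := ⟨_, rfl⟩
  have hRSle : RS ≤ LD y ⌊(N : ℝ) ^ δ'⌋₊ N f t := by
    rw [hRS]
    unfold LD
    calc ∑ s ∈ SS, |rr y N f t s| ≤ ∑ s ∈ SD y ⌊(N : ℝ) ^ δ'⌋₊, |rr y N f t s| :=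
          sum_le_sum_of_subset_of_nonneg (fun s hs => (mem_SSm.1 hs).1) fun s _ _ => abs_nonneg _
      _ ≤ _ := by
          refine sum_le_sum fun s _ => ?_
          exact le_mul_of_one_le_left (abs_nonneg _) (one_le_pow₀ (by norm_num))
  obtain ⟨I, hI⟩ : ∃ I : ℕ → ℝ, I = fun d => ∑ s ∈ SS, |∑ n ∈ Icc 1 N, f n * (rz y ((n : ℤ) + t) * (i1 s ((n : ℤ) + t) *
      BX.dl d ((n : ℤ) + t)))| := ⟨_, rfl⟩
  have hI1 : I 1 = 0 := by
    rw [hI]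
    refine sum_eq_zero fun s _ => ?_
    rw [abs_eq_zero]
    refine sum_eq_zero fun n _ => ?_
    unfold BX.dl
    simp
  have hd : ∀ d ∈ K, ∑ T ∈ Q, |rr y N f t (d * ∏ p ∈ T, p)| ≤ I d + 1 / (d : ℝ) * RS := by
    intro d hd
    obtain ⟨f3, f4, f5⟩ := mem_SD.1 (hK hd)
    refine (hsum (fun s => |rr y N f t (d * s)|) fun s => abs_nonneg _).trans ?_
    rw [hRS, mul_sum, hI, ← sum_add_distrib]
    refine sum_le_sum fun s hs => ?_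
    obtain ⟨g1, g2⟩ := mem_SSm.1 hs
    refine rr_mulV hf ?_ f3.1 (mem_SD.1 g1).1.1
    refine Nat.coprime_of_dvd ?_
    intro p hp hpd hps
    exact f5 p hp (g2 p hp hps) hpd
  have hZI : ∑ d ∈ K, I d = ZZ y N SS (K.erase 1) f t := by
    have h4 : ∑ d ∈ K, I d = ∑ d ∈ K.erase 1, I d := by
      by_cases h1 : 1 ∈ K
      · rw [← add_sum_erase _ _ h1, hI1, zero_add]
      · rw [erase_eq_of_notMem h1]
    rw [h4, hI]
    unfold ZZ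
    rw [sum_comm]
  unfold DK
  refine (sum_le_sum hd).trans ?_
  rw [sum_add_distrib, ← sum_mul, hZI]
  have h8 : (∑ d ∈ K, 1 / (d : ℝ)) * RS ≤ (∑ d ∈ K, 1 / (d : ℝ)) * LD y ⌊(N : ℝ) ^ δ'⌋₊ N f t :=
    mul_le_mul_of_nonneg_left hRSle (sum_nonneg fun d _ => by positivity)
  linarith

end Pool.Agent.H528.Stp
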