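import Mathlib
import Pool.Agent.H528.Mod
import Pool.Agent.H528.Stp
import Pool.Graph.R_pool_sql_team_seeded_3997aac3.Q148.FN.Lsw
import Pool.Graph.R_pool_sql_team_seeded_3997aac3.Q148.FN.Dens

/-! The linear sieve weights above `N ^ ε₁`. -/

set_option autoImplicit false

namespace Pool.Agent.H528.Lin

open Finset Filter
open Pool.Agent.Y822
open Pool.Agent.Y822.Par3 Pool.Agent.Y822.QF
open Pool.Agent.W23.DC (WFac tt sz pr SF Mer)
open Pool.Agent.Y882 (VV PZ tt_lt)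
open Pool.Agent.H373R2.T7 (pz Vz mem_pz)
open Pool.Agent.H528.Stp

/-- expectation formula: lower bound for upper bound weights -/
lemma VV_ge (P : Finset ℕ) (c : Finset ℕ → ℝ) (g : ℕ → ℝ) (hg : ∀ p ∈ P, 0 ≤ g p ∧ g p ≤ 1)
    (hpt : ∀ D ⊆ P, (if D = ∅ then (1 : ℝ) else 0) ≤ ∑ T ∈ D.powerset, c T) :
    ∏ p ∈ P, (1 - g p) ≤ VV P c g := by
  classical
  set w : Finset ℕ → ℝ := fun D => (∏ p ∈ D, g p) * ∏ p ∈ P \ D, (1 - g p) with hw
  have hw0 : ∀ D ⊆ P, 0 ≤ w D := by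
    intro D hD
    rw [hw]
    refine mul_nonneg (prod_nonneg fun p hp => (hg p (hD hp)).1) (prod_nonneg fun p hp => ?_)
    have := (hg p (mem_sdiff.1 hp).1).2
    linarith
  have h1 : ∀ T ⊆ P, ∏ p ∈ T, g p = ∑ D ∈ P.powerset.filter (fun D => T ⊆ D), w D := by
    intro T hT
    have h2 : ∏ p ∈ P \ T, (g p + (1 - g p)) = 1 := by
      refine prod_eq_one fun p _ => ?_
      ring
    rw [prod_add] at h2
    have h3 : ∏ p ∈ T, g p = ∑ D' ∈ (P \ T).powerset, (∏ p ∈ T, g p) *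
        ((∏ p ∈ D', g p) * ∏ p ∈ (P \ T) \ D', (1 - g p)) := by
      rw [← mul_sum, h2, mul_one]
    rw [h3]
    refine sum_bij (fun D' _ => T ∪ D') ?_ ?_ ?_ ?_
    · intro D' hD'
      rw [mem_powerset] at hD'
      rw [mem_filter, mem_powerset]
      exact ⟨union_subset hT (hD'.trans sdiff_subset), subset_union_left⟩
    · intro D' hD' D'' hD'' h
      rw [mem_powerset] at hD' hD''
      have e1 : ∀ E : Finset ℕ, E ⊆ P \ T → (T ∪ E) \ T = E := by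
        intro E hE
        rw [union_sdiff_left]
        rw [Finset.sdiff_eq_self_iff_disjoint]
        exact disjoint_of_subset_left hE sdiff_disjoint
      rw [← e1 D' hD', ← e1 D'' hD'', h]
    · intro D hD
      rw [mem_filter, mem_powerset] at hD
      refine ⟨D \ T, mem_powerset.2 (sdiff_subset_sdiff hD.1 (Subset.refl _)), ?_⟩
      exact union_sdiff_of_subset hD.2
    · intro D' hD'
      rw [mem_powerset] at hD'
      have hdis : Disjoint T D' := (disjoint_of_subset_left hD' sdiff_disjoint).symm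
      rw [hw]
      simp only
      rw [prod_union hdis, ← mul_assoc]
      congr 2
      rw [sdiff_sdiff_left, sup_eq_union]
  have h2 : VV P c g = ∑ D ∈ P.powerset, w D * ∑ T ∈ D.powerset, c T := by
    unfold VV
    have h3 : ∀ T ∈ P.powerset, c T * ∏ p ∈ T, g p = ∑ D ∈ P.powerset, (if T ⊆ D then c T * w D else 0) := by
      intro T hT
      rw [h1 T (mem_powerset.1 hT), mul_sum, ← sum_filter]
    rw [sum_congr rfl h3, sum_comm]
    refine sum_congr rfl fun D hD => ?_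
    rw [mem_powerset] at hD
    rw [mul_sum, ← sum_filter]
    have h4 : P.powerset.filter (fun T => T ⊆ D) = D.powerset := by
      ext T
      rw [mem_filter, mem_powerset, mem_powerset]
      exact ⟨fun h => h.2, fun h => ⟨h.trans hD, h⟩⟩
    rw [h4]
    exact sum_congr rfl fun T _ => mul_comm _ _
  rw [h2]
  have h3 : ∏ p ∈ P, (1 - g p) = ∑ D ∈ P.powerset, w D * (if D = ∅ then (1 : ℝ) else 0) := by
    rw [sum_eq_single ∅]
    · rw [hw]; simp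
    · intro D _ hD
      rw [if_neg hD, mul_zero]
    · intro h
      exact absurd (empty_mem_powerset P) h
  rw [h3]
  refine sum_le_sum fun D hD => ?_
  exact mul_le_mul_of_nonneg_left (hpt D (mem_powerset.1 hD)) (hw0 D (mem_powerset.1 hD))

/-- the moduli of the linear sieve -/
noncomputable def KL (N : ℕ) (ε₁ ζ τ : ℝ) : Finset ℕ := by
  classical
  exact ((pr N ε₁ ζ).powerset.filter (fun T => WFac (tt N) τ (∏ p ∈ T, p))).image (fun T => ∏ p ∈ T, p)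

lemma mem_pr' {N p : ℕ} {u v : ℝ} : p ∈ pr N u v ↔ (1 ≤ p ∧ p ≤ N) ∧ p.Prime ∧ u ≤ tt N p ∧ tt N p < v := by
  unfold pr
  rw [mem_filter, mem_Icc]

lemma pf_prod {N : ℕ} {ε₁ ζ : ℝ} {T : Finset ℕ} (hT : T ⊆ pr N ε₁ ζ) : (∏ p ∈ T, p).primeFactors = T :=
  Nat.primeFactors_prod fun p hp => (mem_pr'.1 (hT hp)).2.1

lemma mem_KL {N : ℕ} {ε₁ ζ τ : ℝ} {d : ℕ} : d ∈ KL N ε₁ ζ τ ↔ Squarefree d ∧ d.primeFactors ⊆ pr N ε₁ ζ ∧
    WFac (tt N) τ d := by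
  classical
  unfold KL
  rw [mem_image]
  constructor
  · rintro ⟨T, hT, rfl⟩
    rw [mem_filter, mem_powerset] at hT
    refine ⟨Pool.Agent.Y822.Cop.sqf_prod fun p hp => (mem_pr'.1 (hT.1 hp)).2.1, ?_, hT.2⟩
    rw [pf_prod hT.1]
    exact hT.1
  · rintro ⟨h1, h2, h3⟩
    refine ⟨d.primeFactors, ?_, Nat.prod_primeFactors_of_squarefree h1⟩
    rw [mem_filter, mem_powerset, Nat.prod_primeFactors_of_squarefree h1]
    exact ⟨h2, h3⟩

/-- from sets of primes to moduli -/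
lemma VV_KL (N : ℕ) (ε₁ ζ τ : ℝ) (c : Finset ℕ → ℝ) (hc : ∀ T ⊆ pr N ε₁ ζ, c T ≠ 0 → WFac (tt N) τ (∏ p ∈ T, p))
    (h : ℕ → ℝ) : VV (pr N ε₁ ζ) c h = ∑ d ∈ KL N ε₁ ζ τ, c d.primeFactors * ∏ p ∈ d.primeFactors, h p := by
  classical
  unfold VV KL
  rw [sum_image]
  · have h1 : ∑ T ∈ (pr N ε₁ ζ).powerset.filter (fun T => WFac (tt N) τ (∏ p ∈ T, p)), c T * ∏ p ∈ T, h p =
        ∑ T ∈ (pr N ε₁ ζ).powerset, c T * ∏ p ∈ T, h p := by
      refine sum_subset (filter_subset _ _) ?_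
      intro T hT hT2
      have : c T = 0 := by
        by_contra h3
        exact hT2 (mem_filter.2 ⟨hT, hc T (mem_powerset.1 hT) h3⟩)
      rw [this, zero_mul]
    rw [← h1]
    refine sum_congr rfl fun T hT => ?_
    rw [mem_filter, mem_powerset] at hT
    rw [pf_prod hT.1]
  · intro T hT T' hT' heq
    rw [mem_coe, mem_filter, mem_powerset] at hT hT'
    simp only at heq
    rw [← pf_prod hT.1, ← pf_prod hT'.1, heq]

lemma le_zN_iff {N p : ℕ} {ζ : ℝ} (hN : 2 ≤ N) (hp : p.Prime) : p ≤ zN ζ N ↔ tt N p < ζ := by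
  rw [tt_lt N p ζ hN hp.pos]
  constructor
  · intro h
    exact lt_of_le_of_lt (by exact_mod_cast h) (zN_lt (ε₁ := ζ) (by omega))
  · intro h
    exact le_zN h

lemma KL_sub {N : ℕ} (hN : 2 ≤ N) {ε₁ ζ τ : ℝ} (hτ : 0 ≤ τ) :
    KL N ε₁ ζ τ ⊆ SD (zN ε₁ N) ⌊(N : ℝ) ^ τ⌋₊ := by
  intro d hd
  obtain ⟨h1, h2, h3⟩ := mem_KL.1 hd
  rw [mem_SD]
  refine ⟨⟨Nat.pos_of_ne_zero h1.ne_zero, Nat.le_floor (Mod.wfac_le hN hτ h1 h3)⟩, h1, ?_⟩
  intro p hp hpz hpd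
  have h4 := (mem_pr'.1 (h2 (Nat.mem_primeFactors.2 ⟨hp, hpd, h1.ne_zero⟩))).2.2.1
  have h5 := (le_zN_iff hN hp).1 hpz
  linarith

lemma sum_KL (N : ℕ) (hN : 2 ≤ N) (ε₁ ζ τ : ℝ) : ∑ d ∈ KL N ε₁ ζ τ, 1 / (d : ℝ) ≤ EE (zN ε₁ N) N := by
  classical
  have h1 : ∀ d ∈ KL N ε₁ ζ τ, 1 / (d : ℝ) ≤ ∏ p ∈ d.primeFactors, (3 / (p : ℝ)) := by
    intro d hd
    obtain ⟨h1, h2, h3⟩ := mem_KL.1 hd
    rw [prod_div_distrib, prod_const]
    have h4 : (d : ℝ) = ∏ p ∈ d.primeFactors, (p : ℝ) := by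
      conv_lhs => rw [← Nat.prod_primeFactors_of_squarefree h1]
      push_cast
      rfl
    rw [← h4]
    exact div_le_div_of_nonneg_right (one_le_pow₀ (by norm_num)) (Nat.cast_nonneg d)
  refine (sum_le_sum h1).trans ?_
  unfold EE
  rw [prod_one_add]
  have hinj : Set.InjOn Nat.primeFactors (KL N ε₁ ζ τ : Set ℕ) := by
    intro d hd d' hd' h
    have e1 := (mem_KL.1 (mem_coe.1 hd)).1
    have e2 := (mem_KL.1 (mem_coe.1 hd')).1
    rw [← Nat.prod_primeFactors_of_squarefree e1, ← Nat.prod_primeFactors_of_squarefree e2, h]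
  rw [← sum_image (f := fun T : Finset ℕ => ∏ p ∈ T, (3 / (p : ℝ))) hinj]
  refine sum_le_sum_of_subset_of_nonneg ?_ (fun T _ _ => prod_nonneg fun p _ => by positivity)
  intro T hT
  rw [mem_image] at hT
  obtain ⟨d, hd, rfl⟩ := hT
  rw [mem_powerset]
  obtain ⟨h1, h2, h3⟩ := mem_KL.1 hd
  intro p hp
  have h4 := mem_pr'.1 (h2 hp)
  rw [mem_PP]
  refine ⟨⟨?_, h4.1.2⟩, h4.2.1⟩
  by_contra hle
  have h5 := (le_zN_iff hN h4.2.1).1 (not_lt.1 hle)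
  linarith [h4.2.2.1]

lemma ro_split {N : ℕ} (hN : 2 ≤ N) {ε₁ ζ : ℝ} (hεζ : ε₁ ≤ ζ) (hζ1 : ζ ≤ 1) (m : ℕ) :
    ro (zN ζ N) m = ro (zN ε₁ N) m * (by classical exact if ∀ p ∈ pr N ε₁ ζ, ¬ p ∣ m then 1 else 0) := by
  classical
  have h : Ro (zN ζ N) m ↔ (Ro (zN ε₁ N) m ∧ ∀ p ∈ pr N ε₁ ζ, ¬ p ∣ m) := by
    constructor
    · intro h
      refine ⟨fun p hp hpz => ?_, fun p hp => ?_⟩
      · refine h p hp ((le_zN_iff hN hp).2 ?_)
        have := (le_zN_iff hN hp).1 hpz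
        linarith
      · have h2 := mem_pr'.1 hp
        exact h p h2.2.1 ((le_zN_iff hN h2.2.1).2 h2.2.2.2)
    · rintro ⟨h1, h2⟩ p hp hpz
      have h3 := (le_zN_iff hN hp).1 hpz
      rcases lt_or_ge (tt N p) ε₁ with h4 | h4
      · exact h1 p hp ((le_zN_iff hN hp).2 h4)
      · refine h2 p (mem_pr'.2 ⟨⟨hp.pos, ?_⟩, hp, h4, h3⟩)
        have h5 := (tt_lt N p ζ hN hp.pos).1 h3
        have h6 : (N : ℝ) ^ ζ ≤ N := by
          calc (N : ℝ) ^ ζ ≤ (N : ℝ) ^ (1 : ℝ) :=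
                Real.rpow_le_rpow_of_exponent_le (by exact_mod_cast (by omega : 1 ≤ N)) hζ1
            _ = N := Real.rpow_one _
        have : (p : ℝ) ≤ N := by linarith
        exact_mod_cast this
  unfold ro
  by_cases h1 : Ro (zN ε₁ N) m
  · by_cases h2 : ∀ p ∈ pr N ε₁ ζ, ¬ p ∣ m
    · rw [if_pos (h.2 ⟨h1, h2⟩), if_pos h1, if_pos h2, mul_one]
    · rw [if_neg (fun h3 => h2 (h.1 h3).2), if_neg h2, mul_zero]
  · rw [if_neg (fun h3 => h1 (h.1 h3).1), if_neg h1, zero_mul]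

lemma thK_VV (N : ℕ) (ε₁ ζ τ : ℝ) (c : Finset ℕ → ℝ) (hc : ∀ T ⊆ pr N ε₁ ζ, c T ≠ 0 → WFac (tt N) τ (∏ p ∈ T, p))
    (m : ℕ) : thK (KL N ε₁ ζ τ) (fun d => c d.primeFactors) m =
      VV (pr N ε₁ ζ) c (fun p => if p ∣ m then 1 else 0) := by
  rw [VV_KL N ε₁ ζ τ c hc]
  unfold thK
  refine sum_congr rfl fun d hd => ?_
  congr 1
  obtain ⟨h1, h2, h3⟩ := mem_KL.1 hd
  rw [Pool.Agent.Y882.prod_ind]
  by_cases h : d ∣ m
  · rw [if_pos h, if_pos]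
    intro p hp
    exact (Nat.dvd_of_mem_primeFactors hp).trans h
  · rw [if_neg h, if_neg]
    intro h4
    apply h
    rw [← Nat.prod_primeFactors_of_squarefree h1]
    exact Finset.prod_primes_dvd m (fun p hp => (Nat.prime_of_mem_primeFactors hp).prime) h4

lemma sum_VV (N : ℕ) (ε₁ ζ τ : ℝ) (c : Finset ℕ → ℝ) (hc : ∀ T ⊆ pr N ε₁ ζ, c T ≠ 0 → WFac (tt N) τ (∏ p ∈ T, p)) :
    ∑ d ∈ KL N ε₁ ζ τ, (fun d : ℕ => c d.primeFactors) d / (d : ℝ) = VV (pr N ε₁ ζ) c (fun p => 1 / (p : ℝ)) := by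
  rw [VV_KL N ε₁ ζ τ c hc]
  refine sum_congr rfl fun d hd => ?_
  obtain ⟨h1, h2, h3⟩ := mem_KL.1 hd
  simp only
  rw [prod_div_distrib, prod_const_one]
  have h4 : (d : ℝ) = ∏ p ∈ d.primeFactors, (p : ℝ) := by
    conv_lhs => rw [← Nat.prod_primeFactors_of_squarefree h1]
    push_cast
    rfl
  rw [← h4]
  ring

lemma PZ_pz (N : ℕ) (hN : 2 ≤ N) (ζ : ℝ) (hζ1 : ζ ≤ 1) : PZ N ζ = pz (zN ζ N) := by
  ext p
  rw [mem_pz]
  unfold PZ
  rw [mem_filter, mem_Icc]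
  constructor
  · rintro ⟨⟨h1, h2⟩, h3, h4⟩
    exact ⟨(le_zN_iff hN h3).2 h4, h3⟩
  · rintro ⟨h1, h2⟩
    have h3 := (le_zN_iff hN h2).1 h1
    refine ⟨⟨h2.pos, ?_⟩, h2, h3⟩
    have h5 := (tt_lt N p ζ hN h2.pos).1 h3
    have h6 : (N : ℝ) ^ ζ ≤ N := by
      calc (N : ℝ) ^ ζ ≤ (N : ℝ) ^ (1 : ℝ) :=
            Real.rpow_le_rpow_of_exponent_le (by exact_mod_cast (by omega : 1 ≤ N)) hζ1
        _ = N := Real.rpow_one _
    have : (p : ℝ) ≤ N := by linarith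
    exact_mod_cast this

lemma Vz_split {N : ℕ} (hN : 2 ≤ N) {ε₁ ζ : ℝ} (hεζ : ε₁ ≤ ζ) (hζ1 : ζ ≤ 1) :
    Vz (zN ζ N) = Vz (zN ε₁ N) * ∏ p ∈ pr N ε₁ ζ, (1 - 1 / (p : ℝ)) := by
  classical
  unfold Vz
  rw [← prod_union]
  · refine prod_congr ?_ fun _ _ => rfl
    rw [← PZ_pz N hN ζ hζ1, ← PZ_pz N hN ε₁ (by linarith)]
    ext p
    unfold PZ
    rw [mem_union, mem_filter, mem_filter, mem_pr', mem_Icc]
    constructor
    · rintro ⟨h1, h2, h3⟩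
      rcases lt_or_ge (tt N p) ε₁ with h4 | h4
      · exact Or.inl ⟨h1, h2, h4⟩
      · exact Or.inr ⟨h1, h2, h4, h3⟩
    · rintro (⟨h1, h2, h3⟩ | ⟨h1, h2, h3, h4⟩)
      · exact ⟨h1, h2, by linarith⟩
      · exact ⟨h1, h2, h4⟩
  · rw [← PZ_pz N hN ε₁ (by linarith), disjoint_left]
    intro p hp hp2
    unfold PZ at hp
    rw [mem_filter] at hp
    have := (mem_pr'.1 hp2).2.2.1
    linarith [hp.2.2]

/-- **the linear sieve weights** -/
theorem linK (A0 : ℝ) (F f : ℝ → ℝ) (hSF : SF A0 F f) (τ ζ ν ε₁ : ℝ) (hζ : 0 < ζ) (h1 : ζ ≤ τ) (hτ : τ ≤ 1)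
    (hε₁ : 0 < ε₁) (hεζ : ε₁ ≤ ζ) (hν : 0 < ν) : ∀ᶠ N : ℕ in atTop, ∃ cU cL : ℕ → ℝ,
    (∀ d, |cU d| ≤ 1) ∧ (∀ d, |cL d| ≤ 1) ∧
    (∀ m : ℕ, ro (zN ε₁ N) m * thK (KL N ε₁ ζ τ) cL m ≤ ro (zN ζ N) m ∧
      ro (zN ζ N) m ≤ ro (zN ε₁ N) m * thK (KL N ε₁ ζ τ) cU m) ∧
    (∀ m : ℕ, 0 ≤ thK (KL N ε₁ ζ τ) cU m) ∧
    (∀ m : ℕ, (∀ p ∈ pr N ε₁ ζ, ¬ p ∣ m) → thK (KL N ε₁ ζ τ) cU m = cU 1) ∧ 1 ≤ cU 1 ∧
    (Real.exp (-Real.eulerMascheroniConstant) / ζ * (f (τ / ζ) - ν)) / Real.log N ≤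
      Vz (zN ε₁ N) * ∑ d ∈ KL N ε₁ ζ τ, cL d / d ∧
    Vz (zN ε₁ N) * ∑ d ∈ KL N ε₁ ζ τ, cU d / d ≤
      (Real.exp (-Real.eulerMascheroniConstant) / ζ * (F (τ / ζ) + ν)) / Real.log N ∧
    Vz (zN ζ N) ≤ Vz (zN ε₁ N) * ∑ d ∈ KL N ε₁ ζ τ, cU d / d := by
  classical
  have hζ1 : ζ ≤ 1 := by linarith
  have hs1 : 1 ≤ τ / ζ := by rw [le_div_iff₀ hζ]; linarith
  have hF1 := hSF.F1 _ hs1
  obtain ⟨ν', hν'd⟩ : ∃ ν' : ℝ, ν' = min (1 / 2) (ν / (F (τ / ζ) + |f (τ / ζ)| + 3)) := ⟨_, rfl⟩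
  have hden : 0 < F (τ / ζ) + |f (τ / ζ)| + 3 := by have := abs_nonneg (f (τ / ζ)); linarith
  have hν'0 : 0 < ν' := by rw [hν'd]; exact lt_min (by norm_num) (by positivity)
  have hν'1 : ν' ≤ 1 / 2 := by rw [hν'd]; exact min_le_left _ _
  have hν'2 : ν' * (F (τ / ζ) + |f (τ / ζ)| + 3) ≤ ν := by
    have : ν' ≤ ν / (F (τ / ζ) + |f (τ / ζ)| + 3) := by rw [hν'd]; exact min_le_right _ _
    rwa [le_div_iff₀ hden] at this
  obtain ⟨η, hη, H⟩ := Pool.Agent.Q148.FN.lsw6 A0 F f hSF τ ζ hζ h1 hτ ε₁ ν' hε₁ hεζ hν'0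
  obtain ⟨N1, hN1⟩ := Pool.Agent.Y822.Lin.mer_of ε₁ ζ η hε₁ hζ1 hη
  obtain ⟨N2, hN2⟩ := Pool.Agent.Q148.KJ.mert ε₁ ν' hε₁ (by linarith) hν'0
  filter_upwards [eventually_ge_atTop (max (max N1 N2) 3)] with N hN
  have hNN1 : N1 ≤ N := ((le_max_left _ _).trans (le_max_left _ _)).trans hN
  have hNN2 : N2 ≤ N := ((le_max_right _ _).trans (le_max_left _ _)).trans hN
  have hN3 : 3 ≤ N := (le_max_right _ _).trans hN
  have hN2' : 2 ≤ N := by omega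
  have hL : 0 < Real.log N := Real.log_pos (by exact_mod_cast (by omega : 1 < N))
  obtain ⟨cU, cL, g1, g2, g3, g4⟩ := H N hN2'
  have hcU : ∀ T ⊆ pr N ε₁ ζ, cU T ≠ 0 → WFac (tt N) τ (∏ p ∈ T, p) := fun T hT h => g2 T hT (Or.inl h)
  have hcL : ∀ T ⊆ pr N ε₁ ζ, cL T ≠ 0 → WFac (tt N) τ (∏ p ∈ T, p) := fun T hT h => g2 T hT (Or.inr h)
  obtain ⟨m1, m2⟩ := hN2 N hNN2
  rw [PZ_pz N hN2' ε₁ (by linarith)] at m1 m2
  have hVdef : ∏ p ∈ pz (zN ε₁ N), (1 - 1 / (p : ℝ)) = Vz (zN ε₁ N) := rfl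
  rw [hVdef] at m1 m2
  have hgp : ∀ p ∈ pr N ε₁ ζ, (0 : ℝ) ≤ 1 / (p : ℝ) ∧ 1 / (p : ℝ) ≤ 1 := by
    intro p hp
    have h2 : (1 : ℝ) ≤ p := by exact_mod_cast (mem_pr'.1 hp).1.1
    exact ⟨by positivity, by rw [div_le_one (by linarith)]; exact h2⟩
  obtain ⟨a1, a2⟩ := g4 (fun p => 1 / (p : ℝ)) (fun p hp => (hgp p hp).1) (hN1 N hNN1)
  refine ⟨fun d => cU d.primeFactors, fun d => cL d.primeFactors, fun d => (g1 _).1, fun d => (g1 _).2, ?_, ?_, ?_, ?_, ?_, ?_, ?_⟩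
  · intro m
    rw [thK_VV N ε₁ ζ τ cU hcU m, thK_VV N ε₁ ζ τ cL hcL m, ro_split hN2' hεζ hζ1 m]
    obtain ⟨b1, b2⟩ := g3 m
    have hr := ro_nonneg (zN ε₁ N) m
    exact ⟨mul_le_mul_of_nonneg_left b1 hr, mul_le_mul_of_nonneg_left b2 hr⟩
  · intro m
    rw [thK_VV N ε₁ ζ τ cU hcU m]
    refine le_trans ?_ (g3 m).2
    split_ifs <;> norm_num
  · intro m hm
    rw [thK_VV N ε₁ ζ τ cU hcU m]
    unfold VV
    show _ = cU (Nat.primeFactors 1)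
    rw [Nat.primeFactors_one, sum_eq_single ∅]
    · simp
    · intro T hT hT0
      rw [Pool.Agent.Y882.prod_ind, if_neg, mul_zero]
      intro h2
      obtain ⟨p, hp⟩ := nonempty_iff_ne_empty.2 hT0
      exact hm p (mem_powerset.1 hT hp) (h2 p hp)
    · intro h
      exact absurd (empty_mem_powerset _) h
  · have h2 := (g3 1).2
    rw [if_pos] at h2
    · have h3 : VV (pr N ε₁ ζ) cU (fun p => if p ∣ 1 then 1 else 0) = cU ∅ := by
        unfold VV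
        rw [sum_eq_single ∅]
        · simp
        · intro T hT hT0
          rw [Pool.Agent.Y882.prod_ind, if_neg, mul_zero]
          intro h2
          obtain ⟨p, hp⟩ := nonempty_iff_ne_empty.2 hT0
          have hpp := (mem_pr'.1 (mem_powerset.1 hT hp)).2.1
          exact hpp.one_lt.ne' (Nat.dvd_one.1 (h2 p hp))
        · intro h
          exact absurd (empty_mem_powerset _) h
      rw [h3] at h2
      simpa using h2
    · intro p hp hpd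
      have hpp := (mem_pr'.1 hp).2.1
      exact hpp.one_lt.ne' (Nat.dvd_one.1 hpd)
  · -- lower bound
    rw [sum_VV N ε₁ ζ τ cL hcL]
    obtain ⟨V, hV⟩ : ∃ V : ℝ, V = Vz (zN ε₁ N) := ⟨_, rfl⟩
    rw [← hV] at m1 m2 ⊢
    obtain ⟨E, hE⟩ : ∃ E : ℝ, E = Real.exp (-Real.eulerMascheroniConstant) := ⟨_, rfl⟩
    have hE0 : 0 < E := by rw [hE]; exact Real.exp_pos _
    rw [← hE] at m1 m2 ⊢
    have hV0 : 0 ≤ V := le_trans (mul_nonneg (by linarith) (by positivity)) m1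
    obtain ⟨v, hv⟩ : ∃ v : ℝ, v = V * (ε₁ / ζ) * (ζ * Real.log N / E) := ⟨_, rfl⟩
    have hvV : V * (ε₁ / ζ) = E / (ζ * Real.log N) * v := by
      rw [hv]; field_simp
    have hv1 : 1 - ν' ≤ v := by
      rw [hv]
      calc 1 - ν' = ((1 - ν') * (E / (ε₁ * Real.log N))) * (ε₁ / ζ) * (ζ * Real.log N / E) := by field_simp
        _ ≤ _ := by gcongr
    have hv2 : v ≤ 1 + ν' := by
      rw [hv]
      calc V * (ε₁ / ζ) * (ζ * Real.log N / E) ≤ ((1 + ν') * (E / (ε₁ * Real.log N))) * (ε₁ / ζ) * (ζ * Real.log N / E) := by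
            gcongr
        _ = 1 + ν' := by field_simp
    have hfv : f (τ / ζ) - ν ≤ v * (f (τ / ζ) - ν') := by
      have e1 : f (τ / ζ) - v * f (τ / ζ) ≤ ν' * |f (τ / ζ)| := by
        have : f (τ / ζ) - v * f (τ / ζ) = (1 - v) * f (τ / ζ) := by ring
        rw [this]
        refine (le_abs_self _).trans ?_
        rw [abs_mul]
        apply mul_le_mul_of_nonneg_right _ (abs_nonneg _)
        rw [abs_le]
        constructor <;> linarith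
      have e2 : v * ν' ≤ 2 * ν' := mul_le_mul_of_nonneg_right (by linarith) hν'0.le
      have e3 : ν' * (F (τ / ζ) + |f (τ / ζ)| + 3) = ν' * F (τ / ζ) + ν' * |f (τ / ζ)| + 3 * ν' := by ring
      have e4 : 0 ≤ ν' * F (τ / ζ) := mul_nonneg hν'0.le (by linarith)
      have e5 : v * (f (τ / ζ) - ν') = v * f (τ / ζ) - v * ν' := by ring
      rw [e5]
      linarith
    calc E / ζ * (f (τ / ζ) - ν) / Real.log N = E / (ζ * Real.log N) * (f (τ / ζ) - ν) := by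
          field_simp
      _ ≤ E / (ζ * Real.log N) * (v * (f (τ / ζ) - ν')) := mul_le_mul_of_nonneg_left hfv (by positivity)
      _ = V * (ε₁ / ζ * (f (τ / ζ) - ν')) := by rw [← mul_assoc, ← hvV]; ring
      _ ≤ _ := mul_le_mul_of_nonneg_left a1 hV0
  · -- upper bound
    rw [sum_VV N ε₁ ζ τ cU hcU]
    obtain ⟨V, hV⟩ : ∃ V : ℝ, V = Vz (zN ε₁ N) := ⟨_, rfl⟩
    rw [← hV] at m1 m2 ⊢
    obtain ⟨E, hE⟩ : ∃ E : ℝ, E = Real.exp (-Real.eulerMascheroniConstant) := ⟨_, rfl⟩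
    have hE0 : 0 < E := by rw [hE]; exact Real.exp_pos _
    rw [← hE] at m1 m2 ⊢
    have hV0 : 0 ≤ V := le_trans (mul_nonneg (by linarith) (by positivity)) m1
    have hfv : (1 + ν') * (F (τ / ζ) + ν') ≤ F (τ / ζ) + ν := by
      have e4 : 0 ≤ ν' * |f (τ / ζ)| := mul_nonneg hν'0.le (abs_nonneg _)
      nlinarith
    calc V * VV (pr N ε₁ ζ) cU (fun p => 1 / (p : ℝ)) ≤ V * (ε₁ / ζ * (F (τ / ζ) + ν')) :=
          mul_le_mul_of_nonneg_left a2 hV0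
      _ ≤ ((1 + ν') * (E / (ε₁ * Real.log N))) * (ε₁ / ζ * (F (τ / ζ) + ν')) := by
          apply mul_le_mul_of_nonneg_right m2
          have : 0 < F (τ / ζ) + ν' := by linarith
          positivity
      _ = E / (ζ * Real.log N) * ((1 + ν') * (F (τ / ζ) + ν')) := by field_simp
      _ ≤ E / (ζ * Real.log N) * (F (τ / ζ) + ν) := mul_le_mul_of_nonneg_left hfv (by positivity)
      _ = _ := by field_simp
  · -- comparison with the product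
    rw [sum_VV N ε₁ ζ τ cU hcU, Vz_split hN2' hεζ hζ1]
    have hV0 : 0 ≤ Vz (zN ε₁ N) := Vz_nonneg _
    apply mul_le_mul_of_nonneg_left _ hV0
    refine VV_ge _ cU (fun p => 1 / (p : ℝ)) hgp ?_
    intro D hD
    have h2 := (g3 (∏ p ∈ D, p)).2
    have h3 : VV (pr N ε₁ ζ) cU (fun p => if p ∣ ∏ q ∈ D, q then 1 else 0) = ∑ T ∈ D.powerset, cU T := by
      unfold VV
      have h4 : ∀ T ∈ (pr N ε₁ ζ).powerset, cU T * ∏ p ∈ T, (if p ∣ ∏ q ∈ D, q then (1 : ℝ) else 0) =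
          if T ⊆ D then cU T else 0 := by
        intro T hT
        rw [Pool.Agent.Y882.prod_ind]
        by_cases hTD : T ⊆ D
        · rw [if_pos hTD, if_pos, mul_one]
          intro p hp
          exact dvd_prod_of_mem _ (hTD hp)
        · rw [if_neg hTD, if_neg, mul_zero]
          intro h5
          apply hTD
          intro p hp
          have hpp := (mem_pr'.1 (mem_powerset.1 hT hp)).2.1
          obtain ⟨q, hq, hpq⟩ := (Prime.dvd_finsetProd_iff hpp.prime _).1 (h5 p hp)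
          rw [(Nat.prime_dvd_prime_iff_eq hpp (mem_pr'.1 (hD hq)).2.1).1 hpq]
          exact hq
      rw [sum_congr rfl h4, ← sum_filter]
      congr 1
      ext T
      rw [mem_filter, mem_powerset, mem_powerset]
      exact ⟨fun h => h.2, fun h => ⟨h.trans hD, h⟩⟩
    rw [h3] at h2
    refine le_trans (le_of_eq ?_) h2
    by_cases hD0 : D = ∅
    · rw [if_pos hD0, if_pos]
      intro p hp hpd
      rw [hD0, prod_empty] at hpd
      exact (mem_pr'.1 hp).2.1.one_lt.ne' (Nat.dvd_one.1 hpd)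
    · rw [if_neg hD0, if_neg]
      intro h5
      obtain ⟨p, hp⟩ := nonempty_iff_ne_empty.2 hD0
      exact h5 p (hD hp) (dvd_prod_of_mem _ hp)

end Pool.Agent.H528.Lin
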