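import Mathlib
import Pool.Agent.H528.Lin

/-! The sieve step with the linear sieve weights. -/

set_option autoImplicit false

namespace Pool.Agent.H528.Com

open Finset Filter
open Pool.Agent.Y822
open Pool.Agent.Y822.Q (VP_PP VP_bd Vz_pos Vz_up EE_le choose_b)
open Pool.Agent.Y822.V (EV foV)
open Pool.Agent.Y822.Par3 Pool.Agent.Y822.QF
open Pool.Agent.W41 (JJ JJ_lt JJ_le)
open Pool.Agent.H373R2.T7 (pz Vz mem_pz)
open Pool.Agent.W23.DC (WFac tt sz pr SF Mer)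
open Pool.Agent.H528.Stp Pool.Agent.H528.Lin

/-- **the step for all weights on the moduli of the linear sieve** -/
theorem com (τ ζ δ' ε : ℝ) (hζ : 0 < ζ) (h1 : ζ ≤ τ) (hτ : τ ≤ 1) (hδ : 0 < δ') (hδ1 : δ' ≤ 1) (hδζ : δ' ≤ ζ)
    (hε : 0 < ε) : ∃ ε₁ CE cz ρ : ℝ, 0 < ε₁ ∧ ε₁ ≤ 1 / 2 ∧ ε₁ ≤ ζ ∧ 1 ≤ CE ∧ 0 < cz ∧ 0 ≤ ρ ∧
    ρ ≤ ε * (cz * ε₁ / 2) ∧ ρ * (2 / ε₁) ≤ ε ∧ (∀ z : ℕ, 3 ≤ z → cz / Real.log z ≤ Vz z) ∧
    ∀ κ : ℝ, 0 < κ → κ ≤ 1 → ∀ᶠ N : ℕ in atTop,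
      yN κ N ≤ zN ε₁ N ∧ 3 ≤ yN κ N ∧ zN ζ N ≤ N ∧ 3 ≤ zN ζ N ∧ zN ε₁ N ≤ zN ζ N ∧
      ε₁ / 2 * Real.log N ≤ Real.log (zN ε₁ N) ∧ ((2 * N : ℕ) : ℝ) < (zN ε₁ N : ℝ) ^ (⌈4 / ε₁⌉₊ + 1) ∧
      (N : ℝ) ^ (ε₁ / 2) ≤ zN ε₁ N ∧
      (∑ d ∈ KL N ε₁ ζ τ, 1 / (d : ℝ) ≤ CE) ∧
      (∀ c : ℕ → ℝ, (∀ d, |c d| ≤ 1) → ∀ f : ℕ → ℝ, (∀ n, 0 ≤ f n ∧ f n ≤ 1) → ∀ t : ℕ,
        |∑ n ∈ Icc 1 N, f n * (ro (zN ε₁ N) (n + t) * thK (KL N ε₁ ζ τ) c (n + t)) -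
          (∑ d ∈ KL N ε₁ ζ τ, c d / d) * (VP (PP (yN κ N) (zN ε₁ N)) * ∑ n ∈ Icc 1 N, f n * ro (yN κ N) (n + t))| ≤
          ρ * (VP (PP (yN κ N) (zN ε₁ N)) * ∑ n ∈ Icc 1 N, f n * ro (yN κ N) (n + t)) +
            4 * Real.log N * ((1 + CE) * EV (yN κ N) N ε₁ δ' ((KL N ε₁ ζ τ).erase 1) f t)) := by
  classical
  obtain ⟨C0, hC0, STEP⟩ := stepK
  obtain ⟨cz', hcz', VZ'⟩ := Vz_sharp
  obtain ⟨cz, hczd⟩ : ∃ cz : ℝ, cz = min cz' 1 := ⟨_, rfl⟩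
  have hcz : 0 < cz := by rw [hczd]; exact lt_min hcz' one_pos
  have hcz1 : cz ≤ 1 := by rw [hczd]; exact min_le_right _ _
  have VZ : ∀ z : ℕ, 3 ≤ z → cz / Real.log z ≤ Vz z := by
    intro z hz
    refine le_trans ?_ (VZ' z hz)
    apply div_le_div_of_nonneg_right _ (Real.log_natCast_nonneg z)
    rw [hczd]; exact min_le_left _ _
  obtain ⟨b, hb1, hb2, hb3⟩ := choose_b C0 cz δ' (ε / 2) hcz hδ (by positivity)
  have hC0r : (1 : ℝ) ≤ C0 := by exact_mod_cast hC0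
  have hbr : (1 : ℝ) ≤ b := by exact_mod_cast hb2
  have hCb : (1 : ℝ) ≤ C0 * b := one_le_mul_of_one_le_of_one_le hC0r hbr
  obtain ⟨ε₁, hε₁⟩ : ∃ ε₁ : ℝ, ε₁ = δ' / (2 * C0 * b) := ⟨_, rfl⟩
  have hε₁0 : 0 < ε₁ := by rw [hε₁]; positivity
  have hε₁δ : ε₁ ≤ δ' / 2 := by
    rw [hε₁]
    apply div_le_div_of_nonneg_left hδ.le (by norm_num)
    linarith
  have hε₁m : ε₁ * (2 * C0 * b) = δ' := by rw [hε₁]; field_simp
  obtain ⟨R, hR⟩ : ∃ R : ℝ, R = 4 * C0 * b / (cz * δ') := ⟨_, rfl⟩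
  have hRε : R = 2 / (cz * ε₁) := by
    rw [hR, ← hε₁m]
    field_simp
    ring
  have hR1 : 1 ≤ R := by
    rw [hR, le_div_iff₀ (by positivity)]
    have : cz * δ' ≤ 1 * 1 := mul_le_mul hcz1 hδ1 hδ.le zero_le_one
    linarith
  have hR0 : 0 < R := by linarith
  rw [← hR] at hb3
  obtain ⟨CE, hCE⟩ : ∃ CE : ℝ, CE = R ^ 3 := ⟨_, rfl⟩
  have hCE1 : 1 ≤ CE := by rw [hCE]; exact one_le_pow₀ hR1
  have hCE0 : 0 < CE := by linarith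
  obtain ⟨ρ, hρ⟩ : ∃ ρ : ℝ, ρ = (1 / 2 : ℝ) ^ b * CE := ⟨_, rfl⟩
  have hρ0 : 0 ≤ ρ := by rw [hρ]; positivity
  have hρR : ρ * R ≤ ε / 2 := by
    refine le_trans ?_ hb3
    rw [hρ, ← hCE, mul_assoc]
    apply mul_le_mul_of_nonneg_left _ (by positivity)
    rw [sq]
    apply mul_le_mul_of_nonneg_left _ hCE0.le
    rw [hCE]
    calc R = R ^ 1 := (pow_one _).symm
      _ ≤ R ^ 3 := pow_le_pow_right₀ hR1 (by norm_num)
  obtain ⟨m₀, hm₀⟩ : ∃ m₀ : ℕ, m₀ = ⌈4 / ε₁⌉₊ := ⟨_, rfl⟩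
  have hm₀2 : 4 / ε₁ ≤ m₀ := by rw [hm₀]; exact Nat.le_ceil _
  refine ⟨ε₁, CE, cz, ρ, hε₁0, by linarith, by linarith, hCE1, hcz, hρ0, ?_, ?_, VZ, ?_⟩
  · have h2 : ρ * (2 / (cz * ε₁)) ≤ ε / 2 := by rw [← hRε]; exact hρR
    have h3 : ρ = ρ * (2 / (cz * ε₁)) * (cz * ε₁ / 2) := by field_simp
    rw [h3]
    apply mul_le_mul_of_nonneg_right _ (by positivity)
    linarith
  · have h2 : 2 / ε₁ ≤ R := by
      rw [hRε]
      apply div_le_div_of_nonneg_left (by norm_num) (by positivity)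
      calc cz * ε₁ ≤ 1 * ε₁ := mul_le_mul_of_nonneg_right hcz1 hε₁0.le
        _ = ε₁ := one_mul _
    have := mul_le_mul_of_nonneg_left h2 hρ0
    linarith
  intro κ hκ hκ1
  have e1 := ev_logN (eventually_ge_atTop (max 1 (2 / ε₁)))
  have e2 := ev_logN (Real.tendsto_log_atTop.eventually (eventually_ge_atTop (max 1 (2 / ε₁))))
  filter_upwards [yN_facts κ hκ hκ1 (max C0 3) 8, e1, e2, eventually_ge_atTop 3,
    zN_facts ε₁ hε₁0 (by linarith) 3, zN_facts ζ hζ (by linarith) 3] with N hyf f1 f2 hN3 hzf hzg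
  obtain ⟨zf1, zf2, zf3, zf4, zf5⟩ := hzf
  obtain ⟨zg1, zg2, zg3, zg4, zg5⟩ := hzg
  obtain ⟨y1, y2, y3, y4, y5⟩ := hyf
  set y := yN κ N with hy
  set L := Real.log N with hL
  have hL1 : 1 ≤ L := (le_max_left _ _).trans f1
  have hL2 : 2 / ε₁ ≤ L := (le_max_right _ _).trans f1
  have hl1 : 1 ≤ Real.log L := (le_max_left _ _).trans f2
  have hl2 : 2 / ε₁ ≤ Real.log L := (le_max_right _ _).trans f2
  have hL0 : 0 < L := by linarith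
  have hN0 : (0 : ℝ) < N := by positivity
  have hNe : (N : ℝ) = Real.exp L := by rw [hL, Real.exp_log hN0]
  have hNpow : ∀ x : ℝ, (N : ℝ) ^ x = Real.exp (x * L) := by
    intro x
    rw [Real.rpow_def_of_pos hN0, ← hL, mul_comm]
  have hC0y : C0 ≤ y := (le_max_left _ _).trans y5
  have hy3 : 3 ≤ y := (le_max_right _ _).trans y5
  obtain ⟨z₀, hz₀⟩ : ∃ z₀ : ℕ, z₀ = zN ε₁ N := ⟨_, rfl⟩
  have hz₀le : (z₀ : ℝ) ≤ Real.exp (ε₁ * L) := by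
    rw [hz₀, ← hNpow]
    exact (zN_lt (by omega)).le
  have hE2 : 2 ≤ Real.exp (ε₁ / 2 * L) := by
    have h1 := Real.add_one_le_exp (ε₁ / 2 * L)
    have h2 : 1 ≤ ε₁ / 2 * L := by
      rw [div_le_iff₀ hε₁0] at hL2
      linarith
    linarith
  have hz₀ge : Real.exp (ε₁ / 2 * L) ≤ z₀ := by
    have h1 := zf4
    rw [← hz₀] at h1 zf2
    have h3 : (0 : ℝ) < z₀ := by exact_mod_cast (by omega : 0 < z₀)
    rwa [Real.le_log_iff_exp_le h3] at h1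
  have hz₀2 : 2 ≤ z₀ := by exact_mod_cast hE2.trans hz₀ge
  have hz₀0 : (0 : ℝ) < z₀ := by positivity
  have hlogz₀ : ε₁ / 2 * L ≤ Real.log z₀ := by
    rw [Real.le_log_iff_exp_le hz₀0]
    exact hz₀ge
  have hyz₀ : y ≤ z₀ := by
    rw [hz₀]
    apply le_zN
    rw [hNpow]
    refine lt_of_le_of_lt y1 (Real.exp_lt_exp.2 ?_)
    rw [div_lt_iff₀ (by linarith)]
    have h1 : κ * L ≤ 1 * L := mul_le_mul_of_nonneg_right hκ1 hL0.le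
    have h2 : 2 ≤ ε₁ * Real.log L := by
      rw [div_le_iff₀ hε₁0] at hl2
      linarith
    have h3 : 2 * L ≤ ε₁ * Real.log L * L := mul_le_mul_of_nonneg_right h2 hL0.le
    linarith
  have hexpL2 : Real.exp (ε₁ * L) ≤ Real.exp (L / 2) := by
    apply Real.exp_le_exp.2
    have : ε₁ * L ≤ 1 / 2 * L := mul_le_mul_of_nonneg_right (by linarith) hL0.le
    linarith
  have hexpLN : Real.exp (L / 2) ≤ N := by
    rw [hNe]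
    exact Real.exp_le_exp.2 (by linarith)
  have hz₀N : z₀ ≤ N := by exact_mod_cast (hz₀le.trans hexpL2).trans hexpLN
  -- the product bound
  have hEEN : EE z₀ N ≤ CE := by
    refine (EE_le z₀ N hz₀N).trans ?_
    rw [hCE]
    have hVN := Vz_pos N
    refine pow_le_pow_left₀ (div_nonneg (Vz_pos z₀).le hVN.le) ?_ 3
    have h1 := Vz_up z₀ (by omega)
    have h2 := VZ N hN3
    rw [← hL] at h2
    have h3 : Vz z₀ ≤ 1 / (ε₁ / 2 * L) := by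
      rw [le_div_iff₀ (by positivity)]
      calc Vz z₀ * (ε₁ / 2 * L) ≤ Vz z₀ * Real.log z₀ := mul_le_mul_of_nonneg_left hlogz₀ (Vz_pos z₀).le
        _ ≤ 1 := by linarith
    calc Vz z₀ / Vz N ≤ (1 / (ε₁ / 2 * L)) / (cz / L) := by
          apply div_le_div₀ (by positivity) h3 (by positivity) h2
      _ = 2 / (cz * ε₁) := by field_simp
      _ = R := hRε.symm
  have hK1 : ∑ d ∈ KL N ε₁ ζ τ, 1 / (d : ℝ) ≤ CE := by
    refine (sum_KL N (by omega) ε₁ ζ τ).trans ?_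
    rw [← hz₀]
    exact hEEN
  have hpow : ((2 * N : ℕ) : ℝ) < (z₀ : ℝ) ^ (m₀ + 1) := by
    push_cast
    calc (2 : ℝ) * N ≤ Real.exp (ε₁ / 2 * L) * Real.exp L := by
          rw [← hNe]
          exact mul_le_mul_of_nonneg_right hE2 hN0.le
      _ < Real.exp (ε₁ / 2 * L) * Real.exp (ε₁ / 2 * L * m₀) := by
          apply mul_lt_mul_of_pos_left _ (Real.exp_pos _)
          apply Real.exp_lt_exp.2
          rw [div_le_iff₀ hε₁0] at hm₀2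
          have h5 : 2 * L ≤ ε₁ / 2 * L * m₀ := by
            have h6 : 4 * L ≤ m₀ * ε₁ * L := mul_le_mul_of_nonneg_right hm₀2 hL0.le
            have h7 : ε₁ / 2 * L * m₀ = m₀ * ε₁ * L / 2 := by ring
            linarith
          linarith
      _ = Real.exp (ε₁ / 2 * L) ^ (m₀ + 1) := by
          rw [← Real.exp_add, ← Real.exp_nat_mul]
          congr 1
          push_cast
          ring
      _ ≤ (z₀ : ℝ) ^ (m₀ + 1) := pow_le_pow_left₀ (Real.exp_pos _).le hz₀ge _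
  obtain ⟨hV0, hV1⟩ := VP_bd y z₀
  have hzz : zN ε₁ N ≤ zN ζ N := by
    unfold zN
    have h2 : (N : ℝ) ^ ε₁ ≤ (N : ℝ) ^ ζ :=
      Real.rpow_le_rpow_of_exponent_le (by exact_mod_cast (by omega : 1 ≤ N)) (by linarith)
    have := Nat.ceil_mono h2
    omega
  rw [← hm₀]
  refine ⟨by rw [← hz₀]; exact hyz₀, hy3, zg5, zg2, hzz, by rw [← hz₀]; exact hlogz₀, by rw [← hz₀]; exact hpow,
    by rw [← hz₀, hNpow]; exact hz₀ge, hK1, ?_⟩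
  intro c hc f hf t
  rw [← hz₀]
  have hlev : (2 ^ 2 ^ JJ z₀) ^ (C0 * b) ≤ ⌊(N : ℝ) ^ δ'⌋₊ := by
    apply Nat.le_floor
    push_cast
    have h1 : ((2 ^ 2 ^ JJ z₀ : ℕ) : ℝ) ≤ (z₀ : ℝ) ^ 2 := by exact_mod_cast JJ_le z₀ hz₀2
    push_cast at h1
    calc ((2 : ℝ) ^ 2 ^ JJ z₀) ^ (C0 * b) ≤ ((z₀ : ℝ) ^ 2) ^ (C0 * b) := pow_le_pow_left₀ (by positivity) h1 _
      _ = (z₀ : ℝ) ^ (2 * C0 * b) := by rw [← pow_mul]; congr 1; ring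
      _ ≤ Real.exp (ε₁ * L) ^ (2 * C0 * b) := pow_le_pow_left₀ hz₀0.le hz₀le _
      _ = (N : ℝ) ^ δ' := by
          rw [← Real.exp_nat_mul, hNpow, ← hε₁m]
          congr 1
          push_cast
          ring
  obtain ⟨f', hf'⟩ : ∃ f' : ℕ → ℝ, f' = foV t f := ⟨_, rfl⟩
  have hf'0 : ∀ n, 0 ≤ f' n := fun n => by
    rw [hf']
    unfold foV
    split_ifs
    · exact (hf n).1
    · exact le_rfl
  have hf'o : ∀ n, f' n ≠ 0 → Odd (n + t) := by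
    intro n hn
    by_contra ho
    apply hn
    rw [hf']
    unfold foV
    rw [if_neg ho]
  have hff : ∀ (w : ℕ) (_ : 2 ≤ w) (n : ℕ), f n * ro w (n + t) = f' n * ro w (n + t) := by
    intro w hw n
    rw [hf']
    unfold foV
    split_ifs with ho
    · rfl
    · have : ro w (n + t) = 0 := by
        unfold ro
        rw [if_neg]
        intro h
        exact h 2 Nat.prime_two hw (even_iff_two_dvd.1 (Nat.not_odd_iff_even.1 ho))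
      rw [this, mul_zero, mul_zero]
  have hWe : ∑ n ∈ Icc 1 N, f n * ro y (n + t) = ∑ n ∈ Icc 1 N, f' n * ro y (n + t) :=
    sum_congr rfl fun n _ => hff y (by omega) n
  have hTe : ∑ n ∈ Icc 1 N, f n * (ro z₀ (n + t) * thK (KL N ε₁ ζ τ) c (n + t)) =
      ∑ n ∈ Icc 1 N, f' n * (ro z₀ (n + t) * thK (KL N ε₁ ζ τ) c (n + t)) := by
    refine sum_congr rfl fun n _ => ?_
    rw [← mul_assoc, ← mul_assoc, hff z₀ hz₀2 n]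
  rw [hWe, hTe]
  have hKsub : KL N ε₁ ζ τ ⊆ SD z₀ ⌊(N : ℝ) ^ τ⌋₊ := by
    rw [hz₀]
    exact KL_sub (by omega) (by linarith)
  have h2 := STEP b y z₀ ⌊(N : ℝ) ^ τ⌋₊ N hb1 hC0y hyz₀ (KL N ε₁ ζ τ) hKsub c hc f' hf'0 t
  refine h2.trans ?_
  set W := ∑ n ∈ Icc 1 N, f' n * ro y (n + t) with hW
  have hW0 : 0 ≤ W := sum_nonneg fun n _ => mul_nonneg (hf'0 n) (ro_nonneg _ _)
  have hJ := Pool.Agent.Y822.G.JJ_bd hN3 hz₀N hz₀2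
  rw [← hL] at hJ
  have hDS := errK (N := N) (y := y) (Z := ⌊(N : ℝ) ^ τ⌋₊) (ε₁ := ε₁) (δ' := δ') hlev (KL N ε₁ ζ τ)
    (by rw [← hz₀]; exact hKsub) f' t hf'o
  rw [← hz₀] at hDS
  obtain ⟨A1, hA1⟩ : ∃ A1 : ℝ, A1 = ZZ y N (SSm N y ε₁ δ') ((KL N ε₁ ζ τ).erase 1) f' t := ⟨_, rfl⟩
  obtain ⟨A2, hA2⟩ : ∃ A2 : ℝ, A2 = LD y ⌊(N : ℝ) ^ δ'⌋₊ N f' t := ⟨_, rfl⟩
  have hA10 : 0 ≤ A1 := by rw [hA1]; exact ZZ_nonneg _ _ _ _ _ _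
  have hA20 : 0 ≤ A2 := by rw [hA2]; exact LD_nonneg _ _ _ _ _
  have hEV : EV y N ε₁ δ' ((KL N ε₁ ζ τ).erase 1) f t = A1 + A2 := by
    unfold EV
    rw [← hf', hA1, hA2]
  rw [← hA1, ← hA2] at hDS
  rw [hEV]
  have hDS2 : DK (KL N ε₁ ζ τ) y z₀ ((2 ^ 2 ^ JJ z₀) ^ (C0 * b)) N f' t ≤ (1 + CE) * (A1 + A2) := by
    refine hDS.trans ?_
    have g1 : (∑ d ∈ KL N ε₁ ζ τ, 1 / (d : ℝ)) * A2 ≤ CE * A2 := mul_le_mul_of_nonneg_right hK1 hA20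
    have g3 : 0 ≤ CE * A1 := by positivity
    have e3 : (1 + CE) * (A1 + A2) = A1 + A2 + CE * A1 + CE * A2 := by ring
    rw [e3]
    linarith
  have hDS0 := DK_nonneg (KL N ε₁ ζ τ) y z₀ ((2 ^ 2 ^ JJ z₀) ^ (C0 * b)) N f' t
  have h4 : ((JJ z₀ : ℕ) + 2 : ℝ) * DK (KL N ε₁ ζ τ) y z₀ ((2 ^ 2 ^ JJ z₀) ^ (C0 * b)) N f' t ≤
      4 * L * ((1 + CE) * (A1 + A2)) := mul_le_mul hJ hDS2 hDS0 (by positivity : (0 : ℝ) ≤ 4 * L)
  have h5 : (1 / 2 : ℝ) ^ b * (∑ d ∈ KL N ε₁ ζ τ, 1 / (d : ℝ)) * (VP (PP y z₀) * W) ≤ ρ * (VP (PP y z₀) * W) := by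
    apply mul_le_mul_of_nonneg_right _ (mul_nonneg hV0 hW0)
    rw [hρ]
    exact mul_le_mul_of_nonneg_left hK1 (by positivity)
  linarith

end Pool.Agent.H528.Com
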