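import Mathlib
import Pool.Agent.H528.Com
import Pool.Agent.H528.Few
import Pool.Graph.R_pool_sql_team_seeded_1acbe0a2.Y822.V.Cmb

/-! Upper and lower bounds for almost all patterns. -/

set_option autoImplicit false

namespace Pool.Agent.H528.UpLo

open Finset Filter
open Pool.Agent.Y822
open Pool.Agent.Y822.Q (VP_PP VP_bd Vz_pos Vz_up)
open Pool.Agent.Y822.V (EV foV)
open Pool.Agent.Y822.Par3
open Pool.Agent.H373R2.T7 (pz Vz mem_pz)
open Pool.Agent.H387R2.Uni (nuT Adm locT CT)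
open Pool.Agent.W23.DC (WFac tt sz pr SF Mer)
open Pool.Agent.H528.Stp Pool.Agent.H528.Lin Pool.Agent.H528.Mod

/-- the number of primes `p ≤ N` such that no prime `≤ z` divides any `p + h`, `h ∈ H` -/
noncomputable def rgh (H : Finset ℕ) (z N : ℕ) : ℕ := by
  classical
  exact ((Icc 1 N).filter (fun p => p.Prime ∧ ∀ h ∈ H, Ro z (p + h))).card

lemma sum_rgh (H : Finset ℕ) (N z : ℕ) (r : ℕ → ℝ) :
    ∑ n ∈ Icc 1 N, WH eP (ro z) r H H n = (rgh H z N : ℝ) := by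
  classical
  have h : ∀ n ∈ Icc 1 N, WH eP (ro z) r H H n =
      if (n.Prime ∧ ∀ h ∈ H, Ro z (n + h)) then (1 : ℝ) else 0 := by
    intro n _
    unfold WH eP
    rw [Finset.sdiff_self, prod_empty, mul_one]
    by_cases h1 : n.Prime
    · rw [if_pos h1, one_mul]
      by_cases h2 : ∀ h ∈ H, Ro z (n + h)
      · rw [if_pos ⟨h1, h2⟩]
        refine prod_eq_one fun s hs => ?_
        unfold ro
        rw [if_pos (h2 s hs)]
      · rw [if_neg (fun h => h2 h.2)]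
        push Not at h2
        obtain ⟨s, hs, hns⟩ := h2
        refine prod_eq_zero hs ?_
        unfold ro
        rw [if_neg hns]
    · rw [if_neg h1, if_neg (fun h => h1 h.1), zero_mul]
  rw [sum_congr rfl h, ← sum_filter, sum_const, nsmul_eq_mul, mul_one]
  unfold rgh
  rfl

open Topology in
lemma ex_small (m : ℕ) (c c' ε : ℝ) (hc' : 0 ≤ c') (hε : 0 < ε) : ∃ x : ℝ, 0 < x ∧ x ≤ 1 / 8 ∧
    (1 + x) ^ 2 * (c + x) ^ m ≤ c ^ m + ε ∧ c' ^ m - ε ≤ (1 - x) * (max 0 (c' - x)) ^ m / (1 + x) := by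
  have hc : ContinuousAt (fun x : ℝ => (1 + x) ^ 2 * (c + x) ^ m) 0 := by fun_prop
  have hcc : ContinuousAt (fun x : ℝ => (1 - x) * (max 0 (c' - x)) ^ m / (1 + x)) 0 := by
    refine ContinuousAt.div ?_ (by fun_prop) (by norm_num)
    refine ContinuousAt.mul (by fun_prop) (ContinuousAt.pow ?_ m)
    exact (Continuous.max continuous_const (by fun_prop)).continuousAt
  have h1 : ∀ᶠ x in 𝓝 (0 : ℝ), (1 + x) ^ 2 * (c + x) ^ m < c ^ m + ε := by
    refine hc.eventually_lt continuousAt_const ?_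
    simp only [add_zero, one_pow, one_mul]
    linarith
  have h2 : ∀ᶠ x in 𝓝 (0 : ℝ), c' ^ m - ε < (1 - x) * (max 0 (c' - x)) ^ m / (1 + x) := by
    refine continuousAt_const.eventually_lt hcc ?_
    simp only [sub_zero, add_zero, one_mul, div_one]
    rw [max_eq_right hc']
    linarith
  obtain ⟨d, hd, h3⟩ := Metric.eventually_nhds_iff.1 (h1.and h2)
  refine ⟨min (d / 2) (1 / 8), by positivity, min_le_right _ _, ?_⟩
  have h4 := h3 (y := min (d / 2) (1 / 8)) (by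
    rw [Real.dist_eq, sub_zero, abs_of_pos (by positivity)]
    exact (min_le_left _ _).trans_lt (by linarith))
  exact ⟨h4.1.le, h4.2.le⟩

/-- comparison of the constants -/
lemma CT_le1 {N y k : ℕ} {x L : ℝ} (hx : 0 < x) (hx1 : x ≤ 1) (hL : L = Real.log N) (hL1 : 1 ≤ L) (hy3 : 3 ≤ y)
    (hyL : L ^ 3 ≤ y) (hLk : 4 * ((k : ℝ) + 1) ^ 3 / x ≤ L) {T : Finset ℕ} (hT : T.card = k + 1)
    (hTN : ∀ t ∈ T, t ≤ N) : CT T ≤ (1 + x) * PT T y := by
  have g1 := CT_up T N y hTN (by omega)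
  rw [hT] at g1
  refine g1.trans (mul_le_mul_of_nonneg_right ?_ (PT_nonneg _ _))
  have hy0 : (0 : ℝ) < y := by positivity
  have hL0 : 0 < L := by linarith
  have g2 : (Nat.log y N : ℝ) ≤ L := by
    have g3 : (Nat.log y N : ℝ) ≤ Real.logb y (N : ℝ) := Real.natLog_le_logb _ _
    have g4 : 1 ≤ Real.log y := by
      rw [Real.le_log_iff_exp_le hy0]
      have h5 : (3 : ℝ) ≤ y := by exact_mod_cast hy3
      have := Real.exp_one_lt_d9
      linarith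
    refine g3.trans ?_
    rw [Real.logb, ← hL]
    exact div_le_self hL0.le g4
  have g6 : 2 * (((k + 1 : ℕ) : ℝ)) ^ 3 * (Nat.log y N) / y ≤ x / 2 := by
    rw [div_le_div_iff₀ hy0 (by norm_num)]
    have g7 : (((k + 1 : ℕ) : ℝ)) ^ 3 = ((k : ℝ) + 1) ^ 3 := by push_cast; ring
    rw [g7]
    rw [div_le_iff₀ hx] at hLk
    calc 2 * ((k : ℝ) + 1) ^ 3 * (Nat.log y N) * 2 = 4 * ((k : ℝ) + 1) ^ 3 * (Nat.log y N) := by ring
      _ ≤ (L * x) * L := mul_le_mul hLk g2 (Nat.cast_nonneg _) (by positivity)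
      _ = x * (L * L) := by ring
      _ ≤ x * L ^ 3 := by
          apply mul_le_mul_of_nonneg_left _ hx.le
          rw [pow_succ, sq]
          exact le_mul_of_one_le_right (by positivity) hL1
      _ ≤ x * y := mul_le_mul_of_nonneg_left hyL hx.le
  calc Real.exp (2 * (((k + 1 : ℕ) : ℝ)) ^ 3 * (Nat.log y N) / y) ≤ Real.exp (x / 2) :=
        Real.exp_le_exp.2 g6
    _ ≤ 1 + x := by
        have h5 : Real.exp (x / 2) * Real.exp (-(x / 2)) = 1 := by rw [← Real.exp_add]; norm_num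
        have h6 := Real.add_one_le_exp (-(x / 2))
        have h7 := Real.exp_pos (x / 2)
        have h8 : Real.exp (x / 2) * (1 - x / 2) ≤ 1 := by
          calc Real.exp (x / 2) * (1 - x / 2) ≤ Real.exp (x / 2) * Real.exp (-(x / 2)) :=
                mul_le_mul_of_nonneg_left (by linarith) h7.le
            _ = 1 := h5
        have h9 : 1 ≤ (1 + x) * (1 - x / 2) := by nlinarith
        have h10 : 0 < 1 - x / 2 := by linarith
        refine le_of_mul_le_mul_right (h8.trans h9) h10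

/-- the final computation, upper bound -/
lemma up_calc {k : ℕ} {x ε c c0 L n u V PTy W xN CTy P : ℝ} (hx : 0 < x) (hc1 : 0 ≤ c)
    (hε : 0 < ε) (hc0 : 0 < c0) (hL : 1 ≤ L) (hn : 0 < n)
    (hx4 : (1 + x) ^ 2 * (c + x) ^ (k + 1) ≤ c ^ (k + 1) + ε / 2)
    (hLb : 2 * (k + 4) / (ε * c0) ≤ L) (hu0 : 0 ≤ u) (hu1 : u ≤ 1) (hV : 0 ≤ V)
    (huV : u * V ≤ (c + x) / L) (hc : c0 ≤ CTy)
    (hPT : PTy ≤ (1 + x) * CTy)
    (hW : W ≤ (1 + x) * (n / L * (PTy * V ^ (k + 1))) + xN) (hxN : xN = n / L ^ (k + 4))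
    (hP : P ≤ u ^ (k + 1) * W + (k + 1) * xN) :
    P ≤ (c ^ (k + 1) + ε) * CTy * (n / L ^ (k + 2)) := by
  have hL0 : 0 < L := by linarith
  have hxN0 : 0 ≤ xN := by rw [hxN]; positivity
  have hCT0 : 0 < CTy := by linarith
  have g1 : u ^ (k + 1) * W ≤ u ^ (k + 1) * ((1 + x) * (n / L * (PTy * V ^ (k + 1))) + xN) :=
    mul_le_mul_of_nonneg_left hW (pow_nonneg hu0 _)
  have g2 : u ^ (k + 1) * xN ≤ xN := by
    have : u ^ (k + 1) ≤ 1 := pow_le_one₀ hu0 hu1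
    calc u ^ (k + 1) * xN ≤ 1 * xN := mul_le_mul_of_nonneg_right this hxN0
      _ = xN := one_mul _
  have g3 : u ^ (k + 1) * ((1 + x) * (n / L * (PTy * V ^ (k + 1)))) =
      (1 + x) * (n / L) * PTy * (u * V) ^ (k + 1) := by
    rw [mul_pow]; ring
  have g4 : (u * V) ^ (k + 1) ≤ ((c + x) / L) ^ (k + 1) :=
    pow_le_pow_left₀ (mul_nonneg hu0 hV) huV _
  have hnL : 0 ≤ n / L := by positivity
  have g5 : (1 + x) * (n / L) * PTy * (u * V) ^ (k + 1) ≤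
      (1 + x) * (n / L) * ((1 + x) * CTy) * ((c + x) / L) ^ (k + 1) := by
    refine mul_le_mul ?_ g4 (pow_nonneg (mul_nonneg hu0 hV) _) ?_
    · exact mul_le_mul_of_nonneg_left hPT (mul_nonneg (by linarith) hnL)
    · exact mul_nonneg (mul_nonneg (by linarith) hnL) (mul_nonneg (by linarith) hCT0.le)
  have g6 : (1 + x) * (n / L) * ((1 + x) * CTy) * ((c + x) / L) ^ (k + 1) =
      ((1 + x) ^ 2 * (c + x) ^ (k + 1)) * (CTy * (n / L ^ (k + 2))) := by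
    rw [div_pow _ L, show k + 2 = k + 1 + 1 by ring, pow_succ L (k + 1)]
    field_simp
  have g7 : ((1 + x) ^ 2 * (c + x) ^ (k + 1)) * (CTy * (n / L ^ (k + 2))) ≤
      (c ^ (k + 1) + ε / 2) * (CTy * (n / L ^ (k + 2))) :=
    mul_le_mul_of_nonneg_right hx4 (by positivity)
  rw [mul_add, g3] at g1
  rw [g6] at g5
  have herr : ((k : ℝ) + 2) * xN ≤ ε / 2 * (CTy * (n / L ^ (k + 2))) := by
    have f1 : xN = n / L ^ (k + 2) / L ^ 2 := by
      rw [hxN, show k + 4 = (k + 2) + 2 by ring, pow_add]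
      field_simp
    have f2 : 2 * (k + 4) / (ε * c0) ≤ L ^ 2 := by
      have : L ≤ L ^ 2 := by nlinarith
      linarith
    have f4 : ((k : ℝ) + 2) / L ^ 2 ≤ ε / 2 * CTy := by
      rw [div_le_iff₀ (by positivity)]
      rw [div_le_iff₀ (by positivity)] at f2
      have f5 : c0 * L ^ 2 ≤ CTy * L ^ 2 := mul_le_mul_of_nonneg_right hc (by positivity)
      have f6 : ε * (c0 * L ^ 2) ≤ ε * (CTy * L ^ 2) := mul_le_mul_of_nonneg_left f5 hε.le
      linarith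
    rw [f1]
    calc ((k : ℝ) + 2) * (n / L ^ (k + 2) / L ^ 2) = ((k : ℝ) + 2) / L ^ 2 * (n / L ^ (k + 2)) := by
          ring
      _ ≤ ε / 2 * CTy * (n / L ^ (k + 2)) := mul_le_mul_of_nonneg_right f4 (by positivity)
      _ = _ := by ring
  have e : (c ^ (k + 1) + ε) * CTy * (n / L ^ (k + 2)) =
    (c ^ (k + 1) + ε / 2) * (CTy * (n / L ^ (k + 2))) + ε / 2 * (CTy * (n / L ^ (k + 2))) := by ring
  rw [e]
  have e2 : ((k : ℝ) + 2) * xN = (k + 1) * xN + xN := by ring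
  linarith

/-- the final computation, lower bound -/
lemma lo_calc {k : ℕ} {x ε c c0 L n u V PTy W xN CTy P : ℝ} (hx : 0 < x) (hx8 : x ≤ 1 / 8)
    (hε : 0 < ε) (hc0 : 0 < c0) (hL : 1 ≤ L) (hn : 0 < n)
    (hx4 : c ^ (k + 1) - ε / 2 ≤ (1 - x) * (max 0 (c - x)) ^ (k + 1) / (1 + x))
    (hLb : 2 * (k + 4) / (ε * c0) ≤ L) (hu0 : 0 ≤ u) (hu1 : u ≤ 1) (hV : 0 ≤ V)
    (huV : (c - x) / L ≤ u * V) (hPT0 : 0 ≤ PTy) (hc : c0 ≤ CTy)
    (hPT : CTy ≤ (1 + x) * PTy)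
    (hW : (1 - x) * (n / L * (PTy * V ^ (k + 1))) - xN ≤ W) (hxN : xN = n / L ^ (k + 4))
    (hP : u ^ (k + 1) * W - (k + 1) * xN ≤ P) :
    (c ^ (k + 1) - ε) * CTy * (n / L ^ (k + 2)) ≤ P := by
  have hL0 : 0 < L := by linarith
  have hxN0 : 0 ≤ xN := by rw [hxN]; positivity
  have hCT0 : 0 < CTy := by linarith
  have g1 : u ^ (k + 1) * ((1 - x) * (n / L * (PTy * V ^ (k + 1))) - xN) ≤ u ^ (k + 1) * W :=
    mul_le_mul_of_nonneg_left hW (pow_nonneg hu0 _)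
  have g2 : u ^ (k + 1) * xN ≤ xN := by
    have : u ^ (k + 1) ≤ 1 := pow_le_one₀ hu0 hu1
    calc u ^ (k + 1) * xN ≤ 1 * xN := mul_le_mul_of_nonneg_right this hxN0
      _ = xN := one_mul _
  have g3 : u ^ (k + 1) * ((1 - x) * (n / L * (PTy * V ^ (k + 1)))) =
      (1 - x) * (n / L) * PTy * (u * V) ^ (k + 1) := by
    rw [mul_pow]; ring
  have hm : max 0 (c - x) / L ≤ u * V := by
    rcases max_cases 0 (c - x) with ⟨h, _⟩ | ⟨h, _⟩
    · rw [h, zero_div]; exact mul_nonneg hu0 hV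
    · rw [h]; exact huV
  have g4 : (max 0 (c - x) / L) ^ (k + 1) ≤ (u * V) ^ (k + 1) :=
    pow_le_pow_left₀ (div_nonneg (le_max_left _ _) hL0.le) hm _
  have hnL : 0 ≤ n / L := by positivity
  have g5 : (1 - x) * (n / L) * (CTy / (1 + x)) * (max 0 (c - x) / L) ^ (k + 1) ≤
      (1 - x) * (n / L) * PTy * (u * V) ^ (k + 1) := by
    refine mul_le_mul ?_ g4 (pow_nonneg (div_nonneg (le_max_left _ _) hL0.le) _) ?_
    · apply mul_le_mul_of_nonneg_left _ (mul_nonneg (by linarith) hnL)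
      rw [div_le_iff₀ (by linarith)]
      linarith
    · exact mul_nonneg (mul_nonneg (by linarith) hnL) hPT0
  have g6 : (1 - x) * (n / L) * (CTy / (1 + x)) * (max 0 (c - x) / L) ^ (k + 1) =
      ((1 - x) * (max 0 (c - x)) ^ (k + 1) / (1 + x)) * (CTy * (n / L ^ (k + 2))) := by
    have h1x : (1 + x) ≠ 0 := by linarith
    rw [div_pow _ L, show k + 2 = k + 1 + 1 by ring, pow_succ L (k + 1)]
    field_simp
  have g7 : (c ^ (k + 1) - ε / 2) * (CTy * (n / L ^ (k + 2))) ≤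
      ((1 - x) * (max 0 (c - x)) ^ (k + 1) / (1 + x)) * (CTy * (n / L ^ (k + 2))) :=
    mul_le_mul_of_nonneg_right hx4 (by positivity)
  rw [mul_sub, g3] at g1
  rw [g6] at g5
  have herr : ((k : ℝ) + 2) * xN ≤ ε / 2 * (CTy * (n / L ^ (k + 2))) := by
    have f1 : xN = n / L ^ (k + 2) / L ^ 2 := by
      rw [hxN, show k + 4 = (k + 2) + 2 by ring, pow_add]
      field_simp
    have f2 : 2 * (k + 4) / (ε * c0) ≤ L ^ 2 := by
      have : L ≤ L ^ 2 := by nlinarith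
      linarith
    have f4 : ((k : ℝ) + 2) / L ^ 2 ≤ ε / 2 * CTy := by
      rw [div_le_iff₀ (by positivity)]
      rw [div_le_iff₀ (by positivity)] at f2
      have f5 : c0 * L ^ 2 ≤ CTy * L ^ 2 := mul_le_mul_of_nonneg_right hc (by positivity)
      have f6 : ε * (c0 * L ^ 2) ≤ ε * (CTy * L ^ 2) := mul_le_mul_of_nonneg_left f5 hε.le
      linarith
    rw [f1]
    calc ((k : ℝ) + 2) * (n / L ^ (k + 2) / L ^ 2) = ((k : ℝ) + 2) / L ^ 2 * (n / L ^ (k + 2)) := by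
          ring
      _ ≤ ε / 2 * CTy * (n / L ^ (k + 2)) := mul_le_mul_of_nonneg_right f4 (by positivity)
      _ = _ := by ring
  have e : (c ^ (k + 1) - ε) * CTy * (n / L ^ (k + 2)) =
    (c ^ (k + 1) - ε / 2) * (CTy * (n / L ^ (k + 2))) - ε / 2 * (CTy * (n / L ^ (k + 2))) := by ring
  rw [e]
  have e2 : ((k : ℝ) + 2) * xN = (k + 1) * xN + xN := by ring
  linarith

/-- the lower function is nonnegative -/
lemma f_nonneg {A0 : ℝ} {F f : ℝ → ℝ} (hSF : SF A0 F f) {s : ℝ} (hs : 1 ≤ s) : 0 ≤ f s := by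
  rcases le_or_gt s 2 with h | h
  · rw [hSF.f2 s hs h]
  · have h1 := hSF.ef s h.le
    have h2 : 0 ≤ ∫ x in (2 : ℝ)..s, F (x - 1) := by
      refine intervalIntegral.integral_nonneg h.le fun x hx => ?_
      have := hSF.F1 (x - 1) (by linarith [hx.1])
      linarith
    rw [← h1] at h2
    by_contra hneg
    push Not at hneg
    have : s * f s < 0 := mul_neg_of_pos_of_neg (by linarith) hneg
    linarith

/-- the constants of the linear sieve -/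
noncomputable def cS (F : ℝ → ℝ) (τ ζ : ℝ) : ℝ := Real.exp (-Real.eulerMascheroniConstant) / ζ * F (τ / ζ)

/-- **bounds for almost all sets of shifts, below the level** -/
theorem uplo1 (A0 : ℝ) (F f : ℝ → ℝ) (hSF : SF A0 F f) (δ τ ζ : ℝ) (hδ : 0 ≤ δ) (hδ1 : δ < 1) (hτ1 : 1 / 2 ≤ τ)
    (hτ : τ < Th δ) (hζ : 0 < ζ) (hζτ : ζ ≤ τ) (hτ2 : τ ≤ 1) (k : ℕ) (ε : ℝ) (hε : 0 < ε) :
    ∃ B : ℕ, ∀ᶠ N : ℕ in atTop, ∀ A : Finset ℕ, (∀ a ∈ A, 1 ≤ a ∧ a ≤ N) → ∀ Bad : Finset (Finset ℕ),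
    (∀ H ∈ Bad, H ∈ A.powersetCard (k + 1) ∧ Adm (pat H) ∧
      (cS F τ ζ ^ (k + 1) + ε) * CT (pat H) * (N / Real.log N ^ (k + 2)) < rgh H (zN ζ N) N ∨
      H ∈ A.powersetCard (k + 1) ∧ Adm (pat H) ∧
      (rgh H (zN ζ N) N : ℝ) < (cS f τ ζ ^ (k + 1) - ε) * CT (pat H) * (N / Real.log N ^ (k + 2))) →
    (Bad.card : ℝ) ≤ A.card.choose k * ((N : ℝ) ^ δ * Real.log N ^ B) := by
  classical
  have hs1 : 1 ≤ τ / ζ := by rw [le_div_iff₀ hζ]; linarith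
  have hE0 : 0 < Real.exp (-Real.eulerMascheroniConstant) := Real.exp_pos _
  have hcF0 : 0 ≤ cS F τ ζ := by
    unfold cS
    have := hSF.F1 _ hs1
    positivity
  have hcf0 : 0 ≤ cS f τ ζ := by
    unfold cS
    have := f_nonneg hSF hs1
    positivity
  obtain ⟨x, hx, hx8, hx4, hx5⟩ := ex_small (k + 1) (cS F τ ζ) (cS f τ ζ) (ε / 2) hcf0 (by positivity)
  obtain ⟨δ₀, hδ₀, FEW⟩ := Few.fewD δ τ hδ hδ1 hτ1 hτ
  obtain ⟨δ', hδ'd⟩ : ∃ δ' : ℝ, δ' = min δ₀ ζ := ⟨_, rfl⟩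
  have hδ' : 0 < δ' := by rw [hδ'd]; exact lt_min hδ₀ hζ
  have hδ'1 : δ' ≤ δ₀ := by rw [hδ'd]; exact min_le_left _ _
  have hδ'2 : δ' ≤ ζ := by rw [hδ'd]; exact min_le_right _ _
  obtain ⟨ε₁, CE, cz, ρ, hε₁, hε₁2, hε₁ζ, hCE, hcz, hρ0, hρ1, hρ2, VZ, COM⟩ :=
    Com.com τ ζ δ' (x / 2) hζ hζτ hτ2 hδ' (by linarith) hδ'2 (by positivity)
  obtain ⟨κ, hκ, hκ1, C, FEW⟩ := FEW δ' hδ' hδ'1 ε₁ hε₁ hε₁2 (k + 5) (4 * (1 + CE)) (by positivity)
  have COM := COM κ hκ hκ1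
  obtain ⟨ν, hνd⟩ : ∃ ν : ℝ, ν = x / 2 * ζ / Real.exp (-Real.eulerMascheroniConstant) := ⟨_, rfl⟩
  have hν : 0 < ν := by rw [hνd]; positivity
  have hνx : Real.exp (-Real.eulerMascheroniConstant) / ζ * ν = x / 2 := by rw [hνd]; field_simp
  have LIN := linK A0 F f hSF τ ζ ν ε₁ hζ hζτ hτ2 hε₁ hε₁ζ hν
  obtain ⟨c0, hc0, hlow⟩ := PT_low (k + 1)
  have hm0 := main0 κ hκ hκ1 (k + 1) (k + 4) x hx (by linarith)
  obtain ⟨M, hM⟩ : ∃ M : ℕ, M = ⌈((k : ℝ) + 2) ^ 2 * (2 / x)⌉₊ + 4 := ⟨_, rfl⟩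
  refine ⟨C + 1, ?_⟩
  have e1 := ev_logN (eventually_ge_atTop ((2 : ℝ) ^ (k + 1)))
  have e1' := ev_logN (eventually_ge_atTop (2 * (k + 4) / (ε * c0)))
  have e1'' := ev_logN (eventually_ge_atTop (4 * ((k : ℝ) + 1 + 1) ^ 3 / x))
  have e2 := ev_logN (Real.tendsto_log_atTop.eventually (eventually_ge_atTop
    (max 1 (2 * κ * (CE + ρ) / (ε₁ * cz)))))
  filter_upwards [FEW, hm0, yN_facts κ hκ hκ1 M 8, e1, e1', e1'', e2, COM, LIN, eventually_ge_atTop 3] with N h1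
    h2 hyf h3 h3' h3'' h4 hcom hlin hN A hA Bad hBad
  obtain ⟨y1, y2, y3, y4, y5⟩ := hyf
  obtain ⟨w1, w2, w3, w4, w5, w6, w7, w8, w9, STEP⟩ := hcom
  obtain ⟨cU, cL, l1, l2, l3, l4, l5, l6, l7, l8, l9⟩ := hlin
  have hL1 : 1 ≤ Real.log N := le_trans (one_le_pow₀ (by norm_num)) h3
  have hL0 : 0 < Real.log N := by linarith
  have hN0 : (0 : ℝ) < N := by positivity
  set L := Real.log N with hLd
  set y := yN κ N with hyd
  obtain ⟨z₀, hz₀⟩ : ∃ z₀ : ℕ, z₀ = zN ε₁ N := ⟨_, rfl⟩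
  obtain ⟨z, hz⟩ : ∃ z : ℕ, z = zN ζ N := ⟨_, rfl⟩
  rw [← hz₀] at w1 w5 w6 w7 w8 l3 l7 l8 l9 STEP
  rw [← hz] at w3 w4 w5 l3 l9
  rw [← hz] at hBad
  set K := KL N ε₁ ζ τ with hK
  -- the product over the primes in `(y, z₀]`
  obtain ⟨V1, hV1⟩ : ∃ V1 : ℝ, V1 = VP (PP y z₀) := ⟨_, rfl⟩
  have hV10 : 0 ≤ V1 := by rw [hV1]; exact (VP_bd y z₀).1
  have hVV : V1 * Vz y = Vz z₀ := by rw [hV1]; exact VP_PP w1
  have hVy : 0 < Vz y := Vz_pos y
  have hVz₀ : Vz z₀ ≤ 2 / ε₁ / L := by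
    have g1 := Vz_up z₀ (by omega)
    have g2 : 0 < ε₁ / 2 * L := by positivity
    have g3 : Vz z₀ * (ε₁ / 2 * L) ≤ 1 := by
      calc Vz z₀ * (ε₁ / 2 * L) ≤ Vz z₀ * Real.log z₀ := mul_le_mul_of_nonneg_left w6 (Vz_pos z₀).le
        _ ≤ 1 := by linarith
    calc Vz z₀ ≤ 1 / (ε₁ / 2 * L) := by rw [le_div_iff₀ g2]; exact g3
      _ = 2 / ε₁ / L := by field_simp
  have hl1 : 1 ≤ Real.log L := (le_max_left _ _).trans h4
  have hl0 : 0 < Real.log L := by linarith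
  have hV1le : V1 ≤ 2 * κ / (ε₁ * cz) / Real.log L := by
    have g1 : cz / (κ * L / Real.log L) ≤ Vz y := by
      refine le_trans ?_ (VZ y w2)
      have hy0 : (0 : ℝ) < y := by exact_mod_cast (by omega : 0 < y)
      have g2 : 0 < Real.log y := Real.log_pos (by exact_mod_cast (by omega : 1 < y))
      apply div_le_div_of_nonneg_left hcz.le g2
      rw [Real.log_le_iff_le_exp hy0]
      exact y1
    have g2 : V1 = Vz z₀ / Vz y := by rw [← hVV]; field_simp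
    rw [g2]
    calc Vz z₀ / Vz y ≤ (2 / ε₁ / L) / (cz / (κ * L / Real.log L)) := by
          apply div_le_div₀ (by positivity) hVz₀ (by positivity) g1
      _ = 2 * κ / (ε₁ * cz) / Real.log L := by field_simp
  have hsmall : (CE + ρ) * V1 ≤ 1 := by
    calc (CE + ρ) * V1 ≤ (CE + ρ) * (2 * κ / (ε₁ * cz) / Real.log L) :=
          mul_le_mul_of_nonneg_left hV1le (by linarith)
      _ = (2 * κ * (CE + ρ) / (ε₁ * cz)) / Real.log L := by ring
      _ ≤ 1 := by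
          rw [div_le_one hl0]
          exact (le_max_right _ _).trans h4
  -- the sums of the weights
  have hAbd : ∀ c : ℕ → ℝ, (∀ d, |c d| ≤ 1) → ∑ d ∈ K, c d / d ≤ CE := by
    intro c hc
    refine le_trans (sum_le_sum fun d _ => ?_) w9
    exact div_le_div_of_nonneg_right ((le_abs_self _).trans (hc d)) (Nat.cast_nonneg d)
  obtain ⟨AU, hAU⟩ : ∃ AU : ℝ, AU = ∑ d ∈ K, cU d / d := ⟨_, rfl⟩
  obtain ⟨AL, hAL⟩ : ∃ AL : ℝ, AL = ∑ d ∈ K, cL d / d := ⟨_, rfl⟩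
  have hAU1 : AU ≤ CE := by rw [hAU]; exact hAbd cU l1
  have hAL1 : AL ≤ CE := by rw [hAL]; exact hAbd cL l2
  rw [← hAU] at l8 l9
  rw [← hAL] at l7
  have hAU0 : 0 ≤ AU := by
    by_contra hneg
    push Not at hneg
    have g1 : Vz z₀ * AU < 0 := mul_neg_of_pos_of_neg (Vz_pos z₀) hneg
    have g2 := Vz_pos z
    linarith
  obtain ⟨uU, huU⟩ : ∃ uU : ℝ, uU = (AU + ρ) * V1 := ⟨_, rfl⟩
  obtain ⟨uL, huL⟩ : ∃ uL : ℝ, uL = max 0 ((AL - ρ) * V1) := ⟨_, rfl⟩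
  have huU0 : 0 ≤ uU := by rw [huU]; exact mul_nonneg (by linarith) hV10
  have huU1 : uU ≤ 1 := by
    rw [huU]
    exact (mul_le_mul_of_nonneg_right (by linarith) hV10).trans hsmall
  have huL0 : 0 ≤ uL := by rw [huL]; exact le_max_left _ _
  have huL1 : uL ≤ 1 := by
    rw [huL]
    refine max_le zero_le_one ?_
    exact (mul_le_mul_of_nonneg_right (by linarith) hV10).trans hsmall
  have hρV : ρ * Vz z₀ ≤ x / 2 / L := by
    calc ρ * Vz z₀ ≤ ρ * (2 / ε₁ / L) := mul_le_mul_of_nonneg_left hVz₀ hρ0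
      _ = ρ * (2 / ε₁) / L := by ring
      _ ≤ x / 2 / L := div_le_div_of_nonneg_right hρ2 hL0.le
  have huUV : uU * Vz y ≤ (cS F τ ζ + x) / L := by
    have g1 : uU * Vz y = Vz z₀ * AU + ρ * Vz z₀ := by rw [huU, ← hVV]; ring
    rw [g1]
    have g2 : (cS F τ ζ + x) / L = (Real.exp (-Real.eulerMascheroniConstant) / ζ * (F (τ / ζ) + ν)) / L + x / 2 / L := by
      rw [← add_div]
      congr 1
      rw [mul_add, hνx]
      unfold cS
      ring
    rw [g2]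
    linarith
  have huLV : (cS f τ ζ - x) / L ≤ uL * Vz y := by
    have g1 : (AL - ρ) * V1 * Vz y = Vz z₀ * AL - ρ * Vz z₀ := by rw [← hVV]; ring
    have g2 : (cS f τ ζ - x) / L = (Real.exp (-Real.eulerMascheroniConstant) / ζ * (f (τ / ζ) - ν)) / L - x / 2 / L := by
      rw [← sub_div]
      congr 1
      rw [mul_sub, hνx]
      unfold cS
      ring
    rw [g2]
    have g3 : (AL - ρ) * V1 * Vz y ≤ uL * Vz y := by
      apply mul_le_mul_of_nonneg_right _ hVy.le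
      rw [huL]
      exact le_max_right _ _
    linarith
  -- the error functional
  obtain ⟨Z, hZ⟩ : ∃ Z : (ℕ → ℝ) → ℕ → ℝ, Z = fun f t => 4 * L * ((1 + CE) * EV y N ε₁ δ' (K.erase 1) f t) := ⟨_, rfl⟩
  have hzr : (N : ℝ) / L ^ (k + 4) = N / L ^ (k + 4) := rfl
  have hxN0 : 0 ≤ (N : ℝ) / L ^ (k + 4) := by positivity
  have hSU : ∀ f : ℕ → ℝ, (∀ n, 0 ≤ f n ∧ f n ≤ 1) → ∀ h : ℕ, Z f h ≤ N / L ^ (k + 4) →
      ∑ n ∈ Icc 1 N, f n * ro z (n + h) ≤ uU * ∑ n ∈ Icc 1 N, f n * ro y (n + h) + N / L ^ (k + 4) := by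
    intro f hf t ht
    have g1 := (abs_le.1 (STEP cU l1 f hf t)).2
    rw [← hAU, ← hV1] at g1
    have g2 : ∑ n ∈ Icc 1 N, f n * ro z (n + t) ≤ ∑ n ∈ Icc 1 N, f n * (ro z₀ (n + t) * thK K cU (n + t)) :=
      sum_le_sum fun n _ => mul_le_mul_of_nonneg_left (l3 (n + t)).2 (hf n).1
    rw [hZ] at ht
    simp only at ht
    rw [huU]
    have g3 : (AU + ρ) * V1 * ∑ n ∈ Icc 1 N, f n * ro y (n + t) = AU * (V1 * ∑ n ∈ Icc 1 N, f n * ro y (n + t)) +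
      ρ * (V1 * ∑ n ∈ Icc 1 N, f n * ro y (n + t)) := by ring
    rw [g3]
    linarith
  have hSL : ∀ f : ℕ → ℝ, (∀ n, 0 ≤ f n ∧ f n ≤ 1) → ∀ h : ℕ, Z f h ≤ N / L ^ (k + 4) →
      uL * ∑ n ∈ Icc 1 N, f n * ro y (n + h) - N / L ^ (k + 4) ≤ ∑ n ∈ Icc 1 N, f n * ro z (n + h) := by
    intro f hf t ht
    have hW0 : 0 ≤ ∑ n ∈ Icc 1 N, f n * ro y (n + t) := sum_nonneg fun n _ => mul_nonneg (hf n).1 (ro_nonneg _ _)
    have hR0 : 0 ≤ ∑ n ∈ Icc 1 N, f n * ro z (n + t) := sum_nonneg fun n _ => mul_nonneg (hf n).1 (ro_nonneg _ _)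
    have g1 := (abs_le.1 (STEP cL l2 f hf t)).1
    rw [← hAL, ← hV1] at g1
    have g2 : ∑ n ∈ Icc 1 N, f n * (ro z₀ (n + t) * thK K cL (n + t)) ≤ ∑ n ∈ Icc 1 N, f n * ro z (n + t) :=
      sum_le_sum fun n _ => mul_le_mul_of_nonneg_left (l3 (n + t)).1 (hf n).1
    rw [hZ] at ht
    simp only at ht
    rw [huL]
    rcases max_cases 0 ((AL - ρ) * V1) with ⟨h5, _⟩ | ⟨h5, _⟩
    · rw [h5, zero_mul]
      linarith
    · rw [h5]
      have g3 : (AL - ρ) * V1 * ∑ n ∈ Icc 1 N, f n * ro y (n + t) = AL * (V1 * ∑ n ∈ Icc 1 N, f n * ro y (n + t)) -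
        ρ * (V1 * ∑ n ∈ Icc 1 N, f n * ro y (n + t)) := by ring
      rw [g3]
      linarith
  have hbad : ∀ H ∈ Bad, H ∈ A.powersetCard (k + 1) ∧
      ¬ Good eP (ro z) (ro y) Z (N / L ^ (k + 4)) H := by
    intro H hH
    have hb := hBad H hH
    have hb0 : H ∈ A.powersetCard (k + 1) ∧ Adm (pat H) := by
      rcases hb with hb | hb
      · exact ⟨hb.1, hb.2.1⟩
      · exact ⟨hb.1, hb.2.1⟩
    obtain ⟨b1, b2⟩ := hb0
    refine ⟨b1, fun hg => ?_⟩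
    rw [mem_powersetCard] at b1
    have h0 : 0 ∉ H := fun h => by
      have := (hA 0 (b1.1 h)).1
      omega
    have hTc : (pat H).card = k + 1 + 1 := by rw [card_pat h0, b1.2]
    obtain ⟨c1, c2⟩ := hlow (pat H) hTc b2
    have hpt : PT (pat H) y ≤ (1 + x) * CT (pat H) := by
      refine PT_le_CT (pat H) x hx (by linarith) y ?_ (by omega)
      rw [hTc]
      have g1 : ((k : ℝ) + 2) ^ 2 * (2 / x) ≤ M := by
        rw [hM]
        push_cast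
        have := Nat.le_ceil (((k : ℝ) + 2) ^ 2 * (2 / x))
        linarith
      have g2 : (M : ℝ) ≤ y := by exact_mod_cast y5
      have e : (((k + 1 + 1 : ℕ) : ℝ)) ^ 2 = ((k : ℝ) + 2) ^ 2 := by push_cast; ring
      rw [e]
      linarith
    have hct : CT (pat H) ≤ (1 + x) * PT (pat H) y := by
      refine CT_le1 (k := k + 1) (L := L) hx (by linarith) hLd hL1 w2 ?_ ?_ hTc ?_
      · refine le_trans ?_ y3
        exact pow_le_pow_right₀ hL1 (by omega)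
      · push_cast
        exact h3''
      · intro t ht
        unfold pat at ht
        rw [mem_insert] at ht
        rcases ht with rfl | ht
        · omega
        · exact (hA t (b1.1 ht)).2
    have hmm := abs_le.1 (h2 (ro z) H h0 b1.2)
    rcases hb with hb | hb
    · have t1 := step_upper hxN0 huU0 huU1 eP_bd (ro_bd z) (ro_bd y) (N := N) hSU hg H (subset_refl H)
      rw [b1.2, sum_rgh] at t1
      have := up_calc (k := k) (x := x) (ε := ε) (c := cS F τ ζ) (c0 := c0) (L := L) (n := N) (u := uU) (V := Vz y)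
        (PTy := PT (pat H) y) (W := ∑ n ∈ Icc 1 N, WH eP (ro z) (ro y) H ∅ n) (xN := N / L ^ (k + 4))
        (CTy := CT (pat H)) (P := rgh H z N) hx hcF0 hε hc0 hL1 hN0 hx4 h3' huU0 huU1 hVy.le huUV c2 hpt
        (by linarith [hmm.2]) rfl (by push_cast at t1; linarith)
      linarith [hb.2.2]
    · have t1 := step_lower hxN0 huL0 huL1 eP_bd (ro_bd z) (ro_bd y) (N := N) hSL hg H (subset_refl H)
      rw [b1.2, sum_rgh] at t1
      have := lo_calc (k := k) (x := x) (ε := ε) (c := cS f τ ζ) (c0 := c0) (L := L) (n := N) (u := uL) (V := Vz y)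
        (PTy := PT (pat H) y) (W := ∑ n ∈ Icc 1 N, WH eP (ro z) (ro y) H ∅ n) (xN := N / L ^ (k + 4))
        (CTy := CT (pat H)) (P := rgh H z N) hx hx8 hε hc0 hL1 hN0 hx5 h3' huL0 huL1 hVy.le huLV (PT_nonneg _ _) c2 hct
        (by linarith [hmm.1]) rfl (by push_cast at t1; linarith)
      linarith [hb.2.2]
  have hTT : ∀ e ∈ K.erase 1, (Squarefree e ∧ WFac (tt N) τ e) ∧ 1 < e ∧ Squarefree e ∧ Ro (zN ε₁ N) e := by
    intro e he
    rw [mem_erase] at he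
    obtain ⟨g1, g2, g3⟩ := mem_KL.1 he.2
    have g4 := mem_SD.1 (KL_sub (by omega : 2 ≤ N) (by linarith : (0 : ℝ) ≤ τ) he.2)
    exact ⟨⟨g1, g3⟩, by have := g4.1.1; have := he.1; omega, g1, g4.2.2⟩
  have hfew : ∀ f : ℕ → ℝ, (∀ n, |f n| ≤ 1) → ∀ S : Finset ℕ, (∀ a ∈ S, a ≤ N ∧ (N : ℝ) / L ^ (k + 4) < Z f a) →
      (S.card : ℝ) ≤ (N : ℝ) ^ δ * L ^ C := by
    intro f hf S hS
    refine h1 (K.erase 1) hTT f hf S fun a ha => ⟨(hS a ha).1, ?_⟩
    have g1 := (hS a ha).2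
    rw [hZ] at g1
    simp only at g1
    have e5 : (N : ℝ) / L ^ (k + 5) = N / L ^ (k + 4) / L := by
      rw [pow_succ L (k + 4), div_div]
    rw [e5, div_lt_iff₀ hL0]
    calc (N : ℝ) / L ^ (k + 4) < 4 * L * ((1 + CE) * EV y N ε₁ δ' (K.erase 1) f a) := g1
      _ = 4 * (1 + CE) * EV y N ε₁ δ' (K.erase 1) f a * L := by ring
  have hfinal := few_bad (K := (N : ℝ) ^ δ * L ^ C) (by positivity) eP_bd (ro_bd z) (ro_bd y)
    hfew k A (fun a ha => (hA a ha).2) Bad hbad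
  refine hfinal.trans (mul_le_mul_of_nonneg_left ?_ (Nat.cast_nonneg _))
  have g1 : (2 : ℝ) ^ k ≤ L := by
    have : (2 : ℝ) ^ k ≤ 2 ^ (k + 1) := pow_le_pow_right₀ (by norm_num) (by omega)
    linarith
  calc (2 : ℝ) ^ k * ((N : ℝ) ^ δ * L ^ C) ≤ L * ((N : ℝ) ^ δ * L ^ C) :=
        mul_le_mul_of_nonneg_right g1 (by positivity)
    _ = (N : ℝ) ^ δ * L ^ (C + 1) := by rw [pow_succ]; ring

end Pool.Agent.H528.UpLo
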