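import Mathlib
import Pool.Graph.R_seed8.Y822.Main0
import Pool.Agent.H528.UpLo

/-! The number of primes outside few residue classes modulo small primes. -/

set_option autoImplicit false

namespace Pool.Agent.H528.PCnt

open Finset Filter
open Pool.Agent.Y822
open Pool.Agent.Y822.Q (VP_PP VP_bd Vz_pos Vz_up)
open Pool.Agent.H373R2.T7 (pz Vz mem_pz rhoA PerA lam_fund rhoA_le)
open Pool.Agent.H387R2.Uni (nuT Adm locT CT)

lemma prod_rhoA_nonneg (Q : ℕ → ℕ → Prop) (y : ℕ) : 0 ≤ ∏ p ∈ pz y, (1 - (rhoA Q p : ℝ) / (p - 1 : ℝ)) := by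
  refine prod_nonneg fun p hp => ?_
  have h2 := (mem_pz.1 hp).2.two_le
  have h1 := rhoA_le Q p
  have h3 : (rhoA Q p : ℝ) ≤ (p : ℝ) - 1 := by
    have : ((p - 1 : ℕ) : ℝ) = (p : ℝ) - 1 := by rw [Nat.cast_sub (by omega)]; simp
    rw [← this]
    exact_mod_cast h1
  have h4 : (0 : ℝ) < (p : ℝ) - 1 := by
    have : (2 : ℝ) ≤ p := by exact_mod_cast h2
    linarith
  rw [sub_nonneg, div_le_one h4]
  exact h3

/-- outside the forbidden classes -/
def BQ (Q : ℕ → ℕ → Prop) (y n : ℕ) : Prop := ∀ p ∈ pz y, ¬ Q p n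

open Classical in
/-- **the number of primes outside few residue classes** -/
theorem prime_cnt (κ : ℝ) (hκ : 0 < κ) (hκ1 : κ ≤ 1) (c U : ℕ) (hc : 1 ≤ c) (ε : ℝ) (hε : 0 < ε) (hε1 : ε ≤ 1) :
    ∀ᶠ N : ℕ in atTop, ∀ Q : ℕ → ℕ → Prop, PerA Q c → ∀ X : ℕ, X ≤ N →
      |(((Icc 1 X).filter (fun n => n.Prime ∧ BQ Q (yN κ N) n)).card : ℝ) -
        X / Real.log N * ∏ p ∈ pz (yN κ N), (1 - (rhoA Q p : ℝ) / (p - 1 : ℝ))| ≤
      ε * (X / Real.log N * ∏ p ∈ pz (yN κ N), (1 - (rhoA Q p : ℝ) / (p - 1 : ℝ))) + N / Real.log N ^ U := by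
  obtain ⟨K, hK, hfund⟩ := lam_fund c hc (ε / 4) (by positivity)
  obtain ⟨x0, hx0⟩ := hfund (U + 1)
  have e1 := ev_logN (ev_log_pow 1 ((U + 1) * 8 / ε))
  have e2 := ev_logN (eventually_ge_atTop (8 : ℝ))
  have e3 := ev_logN (ev_pow_exp (U + 1) (1 / 2) 8 (by norm_num))
  have e4 := ev_logN (ev_pow_exp (U + 1) 1 1 (by norm_num))
  filter_upwards [yN_facts κ hκ hκ1 x0 K, e1, e2, e3, e4, eventually_ge_atTop 3] with N hyf h1 h2 h3 h4
    hN Q hQ X hX
  obtain ⟨y1, y2, y3, y4, y5⟩ := hyf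
  set y := yN κ N with hy
  set L := Real.log N with hL
  have hL0 : 0 < L := by linarith
  have hN0 : (0 : ℝ) < N := by positivity
  have hNe : (N : ℝ) = Real.exp L := by rw [hL, Real.exp_log hN0]
  rw [pow_one] at h1
  rcases Nat.eq_zero_or_pos X with rfl | hXp
  · simp only [Nat.cast_zero, zero_div, zero_mul, mul_zero, sub_zero, zero_add]
    rw [show Icc 1 0 = (∅ : Finset ℕ) from by ext n; simp, filter_empty, card_empty, Nat.cast_zero, abs_zero]
    positivity
  have hXr : (X : ℝ) ≤ N := by exact_mod_cast hX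
  have hX0 : (0 : ℝ) < X := by exact_mod_cast hXp
  have hmain := hx0 N y y5 y4 Q hQ X hX
  set P := ∏ p ∈ pz y, (1 - (rhoA Q p : ℝ) / (p - 1 : ℝ)) with hP
  have hP0 : 0 ≤ P := prod_rhoA_nonneg Q y
  obtain ⟨S, hS⟩ : ∃ S, S = ∑ n ∈ (Icc 1 X).filter (BQ Q y),
    ArithmeticFunction.vonMangoldt n := ⟨_, rfl⟩
  obtain ⟨C, hC⟩ : ∃ C, C = (((Icc 1 X).filter (fun n => n.Prime ∧ BQ Q y n)).card : ℝ) := ⟨_, rfl⟩
  have hmain' : |S - X * P| ≤ ε / 4 * (X * P) + N / L ^ (U + 1) := by
    rw [hS]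
    refine le_trans (le_of_eq ?_) hmain
    congr 2
    refine sum_congr ?_ fun _ _ => rfl
    ext n
    rw [mem_filter, mem_filter]
    exact Iff.rfl
  have hlogX : Real.log X ≤ L := Real.log_le_log hX0 hXr
  have hlogX0 : 0 ≤ Real.log X := Real.log_nonneg (by exact_mod_cast hXp)
  have hC0 : 0 ≤ C := by rw [hC]; exact Nat.cast_nonneg _
  have hlow := count_low (BQ Q y) X (by omega)
  have hlow' : S - 2 * Real.sqrt N * L ≤ L * C := by
    have h5 : S - 2 * Real.sqrt X * Real.log X ≤ Real.log X * C := by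
      rw [hS, hC]
      exact hlow
    have h6 : 2 * Real.sqrt X * Real.log X ≤ 2 * Real.sqrt N * L := by
      have := Real.sqrt_le_sqrt hXr
      gcongr
    have h7 : Real.log X * C ≤ L * C := mul_le_mul_of_nonneg_right hlogX hC0
    linarith
  have hNP : 0 ≤ X / L * P := by positivity
  have hm := abs_le.1 hmain'
  -- logarithm of `N / L^(U+1)`
  set x := (N : ℝ) / L ^ (U + 1) with hx
  have hLU : 0 < L ^ (U + 1) := by positivity
  have hx1 : 1 ≤ x := by
    rw [hx, le_div_iff₀ hLU, one_mul, hNe]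
    have := h4
    rwa [one_mul, one_mul] at this
  have hxN : x ≤ N := div_le_self hN0.le (one_le_pow₀ (by linarith))
  have hlx : Real.log x = L - (U + 1) * Real.log L := by
    rw [hx, Real.log_div hN0.ne' hLU.ne', Real.log_pow]
    push_cast
    rfl
  have hlx2 : (1 - ε / 8) * L ≤ Real.log x := by
    rw [hlx]
    have : (U + 1) * Real.log L ≤ ε / 8 * L := by
      have h5 : (U + 1) * 8 / ε * Real.log L * (ε / 8) ≤ L * (ε / 8) :=
        mul_le_mul_of_nonneg_right h1 (by positivity)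
      have h6 : (U + 1) * 8 / ε * Real.log L * (ε / 8) = (U + 1) * Real.log L := by field_simp
      rw [h6] at h5
      linarith
    nlinarith
  have hup := count_up (BQ Q y) X x hx1
  have hup' : Real.log x * C ≤ S + Real.log x * x := by
    rw [hS, hC]
    exact hup
  have hlx0 : 0 < Real.log x := lt_of_lt_of_le (by nlinarith) hlx2
  -- error terms
  have hxL : N / L ^ (U + 1) = N / L ^ U / L := by
    rw [pow_succ]
    field_simp
  set R := (N : ℝ) / L ^ U with hR
  have hR0 : 0 ≤ R := by positivity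
  have hxR : x = R / L := hxL
  have hRL : R / L ≤ R / 8 := div_le_div_of_nonneg_left hR0 (by norm_num) h2
  have hsq : 2 * Real.sqrt N ≤ R / L / 4 := by
    have h5 : Real.sqrt N = Real.exp (L / 2) := by
      rw [hNe, Real.exp_half]
    have h6 : (N : ℝ) = Real.exp (L / 2) * Real.exp (L / 2) := by
      rw [← Real.exp_add, hNe]; congr 1; ring
    rw [← hxL, h5, le_div_iff₀ (by norm_num), le_div_iff₀ hLU]
    have h7 : 8 * L ^ (U + 1) ≤ Real.exp (L / 2) := by
      have : (1 : ℝ) / 2 * L = L / 2 := by ring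
      rw [← this]; exact h3
    calc 2 * Real.exp (L / 2) * 4 * L ^ (U + 1) = Real.exp (L / 2) * (8 * L ^ (U + 1)) := by ring
      _ ≤ Real.exp (L / 2) * Real.exp (L / 2) := mul_le_mul_of_nonneg_left h7 (Real.exp_pos _).le
      _ = N := h6.symm
  have hNPL : X * P = L * (X / L * P) := by
    have : L * (X / L * P) = (L / L) * (X * P) := by ring
    rw [this, div_self hL0.ne', one_mul]
  rw [hxR, hNPL] at hm
  rw [← hC]
  set Q' := X / L * P with hQ'
  have hdiv : ∀ a b : ℝ, L * a ≤ L * b → a ≤ b := fun a b h => le_of_mul_le_mul_left h hL0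
  rw [abs_le]
  constructor
  · -- lower bound
    apply hdiv
    have h5 : L * (R / L) = R := by field_simp
    nlinarith [hm.1]
  · -- upper bound
    have h6 : (1 - ε / 8) * L * C ≤ S + Real.log x * x := by
      refine le_trans ?_ hup'
      exact mul_le_mul_of_nonneg_right hlx2 hC0
    have hlxL : Real.log x ≤ L := by
      rw [hlx]
      have : 0 ≤ (U + 1) * Real.log L := by
        have := Real.log_nonneg (by linarith : (1 : ℝ) ≤ L)
        positivity
      linarith
    have h7 : Real.log x * x ≤ L * (R / L) := by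
      rw [← hxR]
      exact mul_le_mul_of_nonneg_right hlxL (by linarith)
    have h8 : (1 - ε / 8) * L * C ≤ L * ((1 + ε / 4) * Q' + (R / L) / L + R / L) := by
      have e9 : L * ((R / L) / L) = R / L := by field_simp
      nlinarith [hm.2]
    have h9 : (1 - ε / 8) * C ≤ (1 + ε / 4) * Q' + (R / L) / L + R / L := by
      apply hdiv
      linarith
    have h10 : (R / L) / L ≤ R / 64 := by
      have : (R / L) / L ≤ (R / 8) / 8 :=
        div_le_div₀ (by positivity) hRL (by norm_num) h2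
      linarith
    have h11 : (1 - ε / 8) * C ≤ (1 + ε / 4) * Q' + R / 4 := by linarith
    have h12 : (1 + ε / 4) * Q' + R / 4 ≤ (1 - ε / 8) * ((1 + ε) * Q' + R) := by
      nlinarith [mul_nonneg hε.le hNP, mul_nonneg hε.le hR0]
    have h13 : C ≤ (1 + ε) * Q' + R := le_of_mul_le_mul_left (h11.trans h12) (by linarith)
    linarith

end Pool.Agent.H528.PCnt
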