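import Mathlib
import Pool.Graph.R_seed8.H373R2.T7.FundC
import Pool.Agent.H528.PCnt

/-! Primes `p` in an arithmetic progression with `p + t` rough: the local conditions. -/

set_option autoImplicit false

namespace Pool.Agent.H528.Ap

open Finset Filter
open H343E (Fam psiAP psi1)
open Pool.Agent.H373R2.T7 (pz Vz mem_pz lam_mult_prime)

/-- the local factor of the shift `t` -/
noncomputable def gp (t p : ℕ) : ℝ := if p ∣ t then 0 else 1 / ((p : ℝ) - 1)

lemma gp_bd {t p : ℕ} (hp : p.Prime) : 0 ≤ gp t p ∧ gp t p ≤ 1 / ((p : ℝ) - 1) := by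
  have h2 : (2 : ℝ) ≤ p := by exact_mod_cast hp.two_le
  unfold gp
  split_ifs
  · exact ⟨le_rfl, div_nonneg zero_le_one (by linarith)⟩
  · exact ⟨div_nonneg zero_le_one (by linarith), le_rfl⟩

lemma gp_le_one {t p : ℕ} (hp : p.Prime) : gp t p ≤ 1 := by
  have h2 : (2 : ℝ) ≤ p := by exact_mod_cast hp.two_le
  refine (gp_bd hp).2.trans ?_
  rw [div_le_one (by linarith)]
  linarith

/-- the residue class -/
def cls (q a t d : ℕ) (h : Nat.Coprime q d) : ℕ := (Nat.chineseRemainder h a ((d - 1) * t)) % (q * d)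

lemma cls_iff {q a t d n : ℕ} (h : Nat.Coprime q d) (hd : 1 ≤ d) :
    n ≡ cls q a t d h [MOD q * d] ↔ n ≡ a [MOD q] ∧ d ∣ n + t := by
  have h1 := (Nat.chineseRemainder h a ((d - 1) * t)).2
  obtain ⟨c, hc⟩ : ∃ c : ℕ, c = (Nat.chineseRemainder h a ((d - 1) * t) : ℕ) := ⟨_, rfl⟩
  rw [← hc] at h1
  have h2 : n ≡ cls q a t d h [MOD q * d] ↔ n ≡ c [MOD q * d] := by
    unfold cls
    rw [← hc]
    unfold Nat.ModEq
    rw [Nat.mod_mod]
  have h3 : d ∣ n + t ↔ n ≡ (d - 1) * t [MOD d] := by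
    have e1 : (d - 1) * t + t = d * t := by
      obtain ⟨j, rfl⟩ : ∃ j, d = j + 1 := ⟨d - 1, by omega⟩
      rw [Nat.add_sub_cancel]
      ring
    constructor
    · intro h4
      have h5 : n + t ≡ (d - 1) * t + t [MOD d] := by
        rw [e1]
        exact ((Nat.modEq_zero_iff_dvd.2 h4).trans (Nat.modEq_zero_iff_dvd.2 (Nat.dvd_mul_right d t)).symm)
      exact Nat.ModEq.add_right_cancel' t h5
    · intro h4
      have h5 : n + t ≡ d * t [MOD d] := by
        rw [← e1]
        exact Nat.ModEq.add_right t h4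
      exact Nat.modEq_zero_iff_dvd.1 (h5.trans (Nat.modEq_zero_iff_dvd.2 (Nat.dvd_mul_right d t)))
  rw [h2, h3, ← Nat.modEq_and_modEq_iff_modEq_mul h]
  constructor
  · rintro ⟨h4, h5⟩
    exact ⟨h4.trans h1.1, h5.trans h1.2⟩
  · rintro ⟨h4, h5⟩
    exact ⟨h4.trans h1.1.symm, h5.trans h1.2.symm⟩

lemma cls_cop {q a t d : ℕ} (h : Nat.Coprime q d) (hq : 1 ≤ q) (hd : 1 ≤ d) (ha : Nat.Coprime a q) (ht : Nat.Coprime d t) :
    cls q a t d h < q * d ∧ (cls q a t d h).Coprime (q * d) := by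
  refine ⟨Nat.mod_lt _ (Nat.mul_pos hq hd), ?_⟩
  have h1 := (cls_iff (a := a) (t := t) (n := cls q a t d h) h hd).1 (Nat.ModEq.refl _)
  rw [Nat.coprime_mul_iff_right]
  constructor
  · unfold Nat.Coprime
    rw [h1.1.gcd_eq]
    exact ha
  · have h2 : Nat.gcd (cls q a t d h) d ∣ t := by
      have h3 : Nat.gcd (cls q a t d h) d ∣ cls q a t d h + t := (Nat.gcd_dvd_right _ _).trans h1.2
      exact (Nat.dvd_add_right (Nat.gcd_dvd_left _ _)).1 h3
    have h3 : Nat.gcd (cls q a t d h) d ∣ Nat.gcd d t := Nat.dvd_gcd (Nat.gcd_dvd_right _ _) h2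
    rw [ht] at h3
    exact Nat.dvd_one.1 h3

open Classical in
/-- the error for one modulus -/
noncomputable def eA (X q a t d : ℕ) : ℝ :=
  (if h : Nat.Coprime q d ∧ Nat.Coprime d t then
    |psiAP X (q * d) (cls q a t d h.1) - psi1 X / (Nat.totient (q * d) : ℝ)| else 0) + (Nat.log 2 X + 1 : ℝ) * Real.log X

lemma eA_nonneg (X q a t d : ℕ) : 0 ≤ eA X q a t d := by
  unfold eA
  have h1 : 0 ≤ Real.log X := Real.log_natCast_nonneg X
  have h2 : (0 : ℝ) ≤ (Nat.log 2 X + 1 : ℝ) * Real.log X := by positivity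
  split_ifs
  · positivity
  · linarith

lemma tot_prod (S : Finset ℕ) (hS : ∀ p ∈ S, p.Prime) : (Nat.totient (∏ p ∈ S, p) : ℝ) = ∏ p ∈ S, ((p : ℝ) - 1) := by
  classical
  induction S using Finset.induction_on with
  | empty => simp
  | insert p S hp ih =>
    have hcop : Nat.Coprime p (∏ r ∈ S, r) := by
      apply Nat.Coprime.prod_right
      intro r hr
      rw [Nat.coprime_primes (hS p (mem_insert_self _ _)) (hS r (mem_insert_of_mem hr))]
      rintro rfl
      exact hp hr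
    have hpp := hS p (mem_insert_self _ _)
    rw [prod_insert hp, prod_insert hp, Nat.totient_mul hcop, Nat.totient_prime hpp]
    push_cast
    rw [ih fun r hr => hS r (mem_insert_of_mem hr), Nat.cast_sub hpp.one_le]
    push_cast
    ring

open Classical in
/-- **the sum over one class** -/
lemma lam_class {X q a t : ℕ} (_hq : 1 ≤ q) (S : Finset ℕ) (hS : ∀ p ∈ S, p.Prime ∧ ¬ p ∣ q) :
    |∑ n ∈ (Icc 1 X).filter (fun n => n ≡ a [MOD q] ∧ ∀ p ∈ S, p ∣ n + t), ArithmeticFunction.vonMangoldt n -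
      psi1 X / (Nat.totient q : ℝ) * ∏ p ∈ S, gp t p| ≤ eA X q a t (∏ p ∈ S, p) := by
  have hSp : ∀ p ∈ S, p.Prime := fun p hp => (hS p hp).1
  obtain ⟨d, hd⟩ : ∃ d : ℕ, d = ∏ p ∈ S, p := ⟨_, rfl⟩
  rw [← hd]
  have hd1 : 1 ≤ d := by rw [hd]; exact Nat.pos_of_ne_zero (prod_ne_zero_iff.2 fun p hp => (hSp p hp).ne_zero)
  have hcop : Nat.Coprime q d := by
    rw [hd]
    apply Nat.Coprime.prod_right
    intro p hp
    exact ((Nat.Prime.coprime_iff_not_dvd (hSp p hp)).2 (hS p hp).2).symm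
  have hlog : (0 : ℝ) ≤ (Nat.log 2 X + 1 : ℝ) * Real.log X := by
    have h1 : 0 ≤ Real.log X := Real.log_natCast_nonneg X
    positivity
  by_cases ht : Nat.Coprime d t
  · unfold eA
    rw [dif_pos ⟨hcop, ht⟩]
    have e1 : ∑ n ∈ (Icc 1 X).filter (fun n => n ≡ a [MOD q] ∧ ∀ p ∈ S, p ∣ n + t), ArithmeticFunction.vonMangoldt n =
        psiAP X (q * d) (cls q a t d hcop) := by
      unfold psiAP
      rw [Nat.floor_natCast]
      refine sum_congr ?_ fun _ _ => rfl
      ext n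
      rw [mem_filter, mem_filter]
      refine and_congr_right fun _ => ?_
      rw [cls_iff hcop hd1]
      refine and_congr_right fun _ => ?_
      constructor
      · intro h
        rw [hd]
        exact Finset.prod_primes_dvd (n + t) (fun p hp => (hSp p hp).prime) h
      · intro h p hp
        rw [hd] at h
        exact (dvd_prod_of_mem _ hp).trans h
    have e2 : ∏ p ∈ S, gp t p = 1 / (Nat.totient d : ℝ) := by
      rw [hd, tot_prod S hSp, one_div, ← prod_inv_distrib]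
      refine prod_congr rfl fun p hp => ?_
      unfold gp
      rw [if_neg, one_div]
      intro hpt
      have h2 : p ∣ Nat.gcd d t := Nat.dvd_gcd (by rw [hd]; exact dvd_prod_of_mem _ hp) hpt
      rw [ht] at h2
      exact (hSp p hp).one_lt.ne' (Nat.dvd_one.1 h2)
    have e3 : psi1 (X : ℝ) / (Nat.totient q : ℝ) * (1 / (Nat.totient d : ℝ)) = psi1 X / (Nat.totient (q * d) : ℝ) := by
      rw [Nat.totient_mul hcop]
      push_cast
      rw [div_mul_div_comm, mul_one]
    rw [e1, e2, e3]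
    linarith
  · -- a common prime factor
    obtain ⟨p, hp, hpd, hpt⟩ := Nat.Prime.not_coprime_iff_dvd.1 ht
    have hpS : p ∈ S := by
      rw [hd] at hpd
      obtain ⟨r, hr, hpr⟩ := (Prime.dvd_finsetProd_iff hp.prime _).1 hpd
      rw [(Nat.prime_dvd_prime_iff_eq hp (hSp r hr)).1 hpr]
      exact hr
    have e2 : ∏ p ∈ S, gp t p = 0 := by
      refine prod_eq_zero hpS ?_
      unfold gp
      rw [if_pos hpt]
    rw [e2, mul_zero, sub_zero, abs_of_nonneg (sum_nonneg fun _ _ => ArithmeticFunction.vonMangoldt_nonneg)]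
    have h1 : ∑ n ∈ (Icc 1 X).filter (fun n => n ≡ a [MOD q] ∧ ∀ p ∈ S, p ∣ n + t), ArithmeticFunction.vonMangoldt n ≤
        ∑ n ∈ (Icc 1 X).filter (fun n => p ∣ n), ArithmeticFunction.vonMangoldt n := by
      apply sum_le_sum_of_subset_of_nonneg
      · intro n hn
        rw [mem_filter] at hn ⊢
        exact ⟨hn.1, (Nat.dvd_add_left hpt).1 (hn.2.2 p hpS)⟩
      · intro _ _ _
        exact ArithmeticFunction.vonMangoldt_nonneg
    refine h1.trans ((lam_mult_prime X p hp).trans ?_)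
    unfold eA
    have h2 : (0 : ℝ) ≤ if h : Nat.Coprime q d ∧ Nat.Coprime d t then
      |psiAP X (q * d) (cls q a t d h.1) - psi1 X / (Nat.totient (q * d) : ℝ)| else 0 := by
      split_ifs
      · positivity
      · exact le_rfl
    linarith

/-- the family of the classes -/
noncomputable def LL (q a t m : ℕ) : Finset ℕ :=
  if h : (q ∣ m ∧ 1 ≤ m) ∧ Nat.Coprime q (m / q) ∧ Nat.Coprime (m / q) t then {cls q a t (m / q) h.2.1} else ∅

lemma LL_fam {q a t : ℕ} (hq : 1 ≤ q) (ha : Nat.Coprime a q) : Fam 1 (LL q a t) := by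
  constructor
  · intro m b hb
    unfold LL at hb
    split_ifs at hb with h
    · rw [mem_singleton] at hb
      rw [hb]
      have h1 : 1 ≤ m / q := Nat.div_pos (Nat.le_of_dvd h.1.2 h.1.1) hq
      have h2 := cls_cop h.2.1 hq h1 ha h.2.2
      rw [Nat.mul_div_cancel' h.1.1] at h2
      exact h2
    · simp at hb
  · intro m
    unfold LL
    split_ifs <;> simp

/-- **the sum of the errors** -/
lemma sum_eA {X q a t D : ℕ} (hq : 1 ≤ q) {Y : ℝ}
    (hBV : ∑ m ∈ Icc 1 (q * D), ∑ b ∈ LL q a t m, |psiAP X m b - psi1 X / (Nat.totient m : ℝ)| ≤ Y) :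
    ∑ d ∈ Icc 1 D, eA X q a t d ≤ Y + D * ((Nat.log 2 X + 1 : ℝ) * Real.log X) := by
  classical
  unfold eA
  rw [sum_add_distrib, sum_const, Nat.card_Icc, Nat.add_sub_cancel, nsmul_eq_mul]
  refine add_le_add (le_trans ?_ hBV) le_rfl
  have hinj : Set.InjOn (fun d => q * d) (Icc 1 D : Finset ℕ) := fun d _ d' _ h => Nat.eq_of_mul_eq_mul_left hq h
  have h1 : ∑ d ∈ Icc 1 D, (if h : Nat.Coprime q d ∧ Nat.Coprime d t then
      |psiAP X (q * d) (cls q a t d h.1) - psi1 X / (Nat.totient (q * d) : ℝ)| else 0) =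
      ∑ d ∈ Icc 1 D, ∑ b ∈ LL q a t (q * d), |psiAP X (q * d) b - psi1 X / (Nat.totient (q * d) : ℝ)| := by
    refine sum_congr rfl fun d hd => ?_
    rw [mem_Icc] at hd
    have e : q * d / q = d := Nat.mul_div_cancel_left d hq
    unfold LL
    by_cases h : Nat.Coprime q d ∧ Nat.Coprime d t
    · rw [dif_pos h, dif_pos (by rw [e]; exact ⟨⟨Nat.dvd_mul_right q d, Nat.mul_pos hq hd.1⟩, h⟩), sum_singleton]
      congr 3
      simp only [e]
    · rw [dif_neg h, dif_neg (by rw [e]; exact fun h2 => h h2.2), sum_empty]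
  rw [h1, ← sum_image (s := Icc 1 D) (g := fun d => q * d)
    (f := fun m => ∑ b ∈ LL q a t m, |psiAP X m b - psi1 X / (Nat.totient m : ℝ)|) hinj]
  apply sum_le_sum_of_subset_of_nonneg
  · intro m hm
    rw [mem_image] at hm
    obtain ⟨d, hd, rfl⟩ := hm
    rw [mem_Icc] at hd ⊢
    exact ⟨Nat.mul_pos hq hd.1, Nat.mul_le_mul_left q hd.2⟩
  · intro m _ _
    exact sum_nonneg fun _ _ => abs_nonneg _

end Pool.Agent.H528.Ap
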