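import Mathlib
import Pool.Agent.H528.Ap

/-! Primes `p` in an arithmetic progression with `p + t` rough: the fundamental lemma. -/

set_option autoImplicit false

namespace Pool.Agent.H528.Ap

open Finset Filter
open H343E (Fam psiAP psi1)
open Pool.Agent.H373R2.T7 (pz Vz mem_pz lam_mult_prime JJ JJ_lt JJ_le sum_inj_le)

open Classical in
/-- the von Mangoldt sum over the class `a` with sifted shift -/
noncomputable def WA (X q a t : ℕ) (P : Finset ℕ) : ℝ :=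
  ∑ n ∈ (Icc 1 X).filter (fun n => n ≡ a [MOD q] ∧ ∀ p ∈ P, ¬ p ∣ n + t), ArithmeticFunction.vonMangoldt n

open Classical in
/-- inclusion and exclusion over the small primes -/
lemma incl_excl {X q a t : ℕ} (Ps T : Finset ℕ) :
    ∑ n ∈ ((Icc 1 X).filter (fun n => n ≡ a [MOD q] ∧ ∀ p ∈ Ps, ¬ p ∣ n + t)).filter (fun n => ∀ p ∈ T, p ∣ n + t),
      ArithmeticFunction.vonMangoldt n =
    ∑ S ∈ Ps.powerset, (-1 : ℝ) ^ S.card *
      ∑ n ∈ (Icc 1 X).filter (fun n => n ≡ a [MOD q] ∧ ∀ p ∈ S ∪ T, p ∣ n + t), ArithmeticFunction.vonMangoldt n := by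
  have h1 : ∀ S ∈ Ps.powerset, (-1 : ℝ) ^ S.card *
      ∑ n ∈ (Icc 1 X).filter (fun n => n ≡ a [MOD q] ∧ ∀ p ∈ S ∪ T, p ∣ n + t), ArithmeticFunction.vonMangoldt n =
      ∑ n ∈ (Icc 1 X).filter (fun n => n ≡ a [MOD q] ∧ ∀ p ∈ T, p ∣ n + t),
        (∏ p ∈ S, (-(if p ∣ n + t then (1 : ℝ) else 0))) * ArithmeticFunction.vonMangoldt n := by
    intro S _
    have h2 : (Icc 1 X).filter (fun n => n ≡ a [MOD q] ∧ ∀ p ∈ S ∪ T, p ∣ n + t) =
        ((Icc 1 X).filter (fun n => n ≡ a [MOD q] ∧ ∀ p ∈ T, p ∣ n + t)).filter (fun n => ∀ p ∈ S, p ∣ n + t) := by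
      rw [filter_filter]
      apply filter_congr
      intro n _
      constructor
      · rintro ⟨h3, h4⟩
        exact ⟨⟨h3, fun p hp => h4 p (mem_union_right _ hp)⟩, fun p hp => h4 p (mem_union_left _ hp)⟩
      · rintro ⟨⟨h3, h4⟩, h5⟩
        refine ⟨h3, fun p hp => ?_⟩
        rcases mem_union.1 hp with h | h
        · exact h5 p h
        · exact h4 p h
    rw [h2, sum_filter, mul_sum]
    refine sum_congr rfl fun n _ => ?_
    split_ifs with h3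
    · congr 1
      rw [prod_congr rfl fun p hp => by rw [if_pos (h3 p hp)], prod_const]
    · push Not at h3
      obtain ⟨p, hp, hpn⟩ := h3
      have h4 : ∏ p ∈ S, (-(if p ∣ n + t then (1 : ℝ) else 0)) = 0 := by
        refine prod_eq_zero hp ?_
        rw [if_neg hpn, neg_zero]
      rw [h4, mul_zero, zero_mul]
  rw [sum_congr rfl h1, sum_comm]
  have h2 : ((Icc 1 X).filter (fun n => n ≡ a [MOD q] ∧ ∀ p ∈ Ps, ¬ p ∣ n + t)).filter (fun n => ∀ p ∈ T, p ∣ n + t) =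
      ((Icc 1 X).filter (fun n => n ≡ a [MOD q] ∧ ∀ p ∈ T, p ∣ n + t)).filter (fun n => ∀ p ∈ Ps, ¬ p ∣ n + t) := by
    rw [filter_filter, filter_filter]
    apply filter_congr
    intro n _
    tauto
  rw [h2, sum_filter]
  refine sum_congr rfl fun n _ => ?_
  rw [← sum_mul, ← Finset.prod_one_add]
  split_ifs with h3
  · rw [prod_congr rfl fun p hp => by rw [if_neg (h3 p hp)]]
    simp
  · push Not at h3
    obtain ⟨p, hp, hpn⟩ := h3
    have h4 : ∏ i ∈ Ps, (1 + -(if i ∣ n + t then (1 : ℝ) else 0)) = 0 := by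
      refine prod_eq_zero hp ?_
      rw [if_pos hpn]
      ring
    rw [h4, zero_mul]

open Classical in
/-- the hypothesis of the fundamental lemma -/
lemma hyp_fl {X q a t : ℕ} (hq : 1 ≤ q) (Ps T : Finset ℕ) (hPs : ∀ p ∈ Ps, p.Prime ∧ ¬ p ∣ q)
    (hT : ∀ p ∈ T, p.Prime ∧ ¬ p ∣ q) (hd : Disjoint Ps T) :
    |∑ n ∈ ((Icc 1 X).filter (fun n => n ≡ a [MOD q] ∧ ∀ p ∈ Ps, ¬ p ∣ n + t)).filter (fun n => ∀ p ∈ T, p ∣ n + t),
      ArithmeticFunction.vonMangoldt n - (psi1 X / (Nat.totient q : ℝ) * ∏ p ∈ Ps, (1 - gp t p)) * ∏ p ∈ T, gp t p| ≤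
      ∑ S ∈ Ps.powerset, eA X q a t (∏ p ∈ S ∪ T, p) := by
  rw [incl_excl]
  have h1 : (psi1 X / (Nat.totient q : ℝ) * ∏ p ∈ Ps, (1 - gp t p)) * ∏ p ∈ T, gp t p =
      ∑ S ∈ Ps.powerset, (-1 : ℝ) ^ S.card * (psi1 X / (Nat.totient q : ℝ) * ∏ p ∈ S ∪ T, gp t p) := by
    have h2 : ∏ p ∈ Ps, (1 - gp t p) = ∑ S ∈ Ps.powerset, (-1 : ℝ) ^ S.card * ∏ p ∈ S, gp t p := by
      rw [prod_congr rfl fun p _ => sub_eq_add_neg 1 (gp t p), Finset.prod_one_add]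
      refine sum_congr rfl fun S _ => ?_
      rw [prod_neg]
    rw [h2, mul_sum, sum_mul]
    refine sum_congr rfl fun S hS => ?_
    rw [mem_powerset] at hS
    rw [prod_union (disjoint_of_subset_left hS hd)]
    ring
  rw [h1, ← sum_sub_distrib]
  refine (abs_sum_le_sum_abs _ _).trans (sum_le_sum fun S hS => ?_)
  rw [mem_powerset] at hS
  rw [← mul_sub, abs_mul, abs_pow, abs_neg, abs_one, one_pow, one_mul]
  refine lam_class hq (S ∪ T) fun p hp => ?_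
  rcases mem_union.1 hp with h | h
  · exact hPs p (hS h)
  · exact hT p h

/-- the primes up to `y` not dividing `q` -/
def pq (q y : ℕ) : Finset ℕ := (pz y).filter (fun p => ¬ p ∣ q)

lemma mem_pq {q y p : ℕ} : p ∈ pq q y ↔ (p ≤ y ∧ p.Prime) ∧ ¬ p ∣ q := by
  unfold pq
  rw [mem_filter, mem_pz]

/-- **the fundamental lemma** -/
theorem wa_core : ∃ C0 : ℕ, 1 ≤ C0 ∧ ∀ b : ℕ, C0 ≤ b → ∀ X y q a t : ℕ, 1 ≤ q → C0 ≤ y →
    |WA X q a t (pq q y) - psi1 X / (Nat.totient q : ℝ) * ∏ p ∈ pq q y, (1 - gp t p)| ≤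
      (1 / 2 : ℝ) ^ b * (psi1 X / (Nat.totient q : ℝ) * ∏ p ∈ pq q y, (1 - gp t p)) +
      ((JJ y : ℝ) + 2) * (2 ^ C0 * ∑ d ∈ Icc 1 ((∏ p ∈ pz C0, p) * (2 ^ 2 ^ JJ y) ^ (C0 * b)), eA X q a t d) := by
  classical
  obtain ⟨C0, hC0, H⟩ := Pool.Agent.H20R2.fLem 1
  refine ⟨C0, hC0, fun b hb X y q a t hq hy => ?_⟩
  obtain ⟨Ps, hPs⟩ : ∃ Ps : Finset ℕ, Ps = pq q C0 := ⟨_, rfl⟩
  obtain ⟨P, hP⟩ : ∃ P : Finset ℕ, P = (pq q y).filter (fun p => C0 < p) := ⟨_, rfl⟩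
  have hPsp : ∀ p ∈ Ps, p.Prime ∧ ¬ p ∣ q := by
    intro p hp
    rw [hPs, mem_pq] at hp
    exact ⟨hp.1.2, hp.2⟩
  have hPp : ∀ p ∈ P, (p.Prime ∧ ¬ p ∣ q) ∧ C0 < p ∧ p ≤ y := by
    intro p hp
    rw [hP, mem_filter, mem_pq] at hp
    exact ⟨⟨hp.1.1.2, hp.1.2⟩, hp.2, hp.1.1.1⟩
  have hdisj : Disjoint Ps P := by
    rw [disjoint_left]
    intro p hp hp'
    rw [hPs, mem_pq] at hp
    have := (hPp p hp').2.1
    omega
  have hun : pq q y = Ps ∪ P := by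
    ext p
    rw [mem_union, hPs, hP, mem_filter, mem_pq, mem_pq]
    constructor
    · rintro ⟨⟨h1, h2⟩, h3⟩
      rcases Nat.lt_or_ge C0 p with h | h
      · exact Or.inr ⟨⟨⟨h1, h2⟩, h3⟩, h⟩
      · exact Or.inl ⟨⟨h, h2⟩, h3⟩
    · rintro (⟨⟨h1, h2⟩, h3⟩ | ⟨h1, _⟩)
      · exact ⟨⟨by omega, h2⟩, h3⟩
      · exact h1
  have hψ0 : 0 ≤ psi1 (X : ℝ) := sum_nonneg fun _ _ => ArithmeticFunction.vonMangoldt_nonneg
  have hA0 : 0 ≤ psi1 (X : ℝ) / (Nat.totient q : ℝ) * ∏ p ∈ Ps, (1 - gp t p) := by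
    apply mul_nonneg (div_nonneg hψ0 (Nat.cast_nonneg _))
    exact prod_nonneg fun p hp => by have := gp_le_one (t := t) (hPsp p hp).1; linarith
  have key := H b (JJ y) C0 P (gp t) hb le_rfl
    (fun p hp => ⟨(hPp p hp).1.1, (hPp p hp).2.1, (hPp p hp).2.2.trans (JJ_lt y).le⟩)
    (fun p hp => ⟨(gp_bd (hPp p hp).1.1).1, by push_cast; exact (gp_bd (hPp p hp).1.1).2⟩)
    ((Icc 1 X).filter (fun n => n ≡ a [MOD q] ∧ ∀ p ∈ Ps, ¬ p ∣ n + t)) (fun n => ArithmeticFunction.vonMangoldt n)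
    (fun p n => p ∣ n + t) (psi1 X / (Nat.totient q : ℝ) * ∏ p ∈ Ps, (1 - gp t p))
    (fun T => ∑ S ∈ Ps.powerset, eA X q a t (∏ p ∈ S ∪ T, p))
    (fun _ _ => ArithmeticFunction.vonMangoldt_nonneg) hA0 (by
      intro T hT _
      have h1 := hyp_fl (X := X) (a := a) (t := t) hq Ps T hPsp (fun p hp => (hPp p (hT hp)).1) (disjoint_of_subset_right hT hdisj)
      convert h1)
  have e1 : (psi1 (X : ℝ) / (Nat.totient q : ℝ) * ∏ p ∈ Ps, (1 - gp t p)) * ∏ p ∈ P, (1 - gp t p) =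
      psi1 X / (Nat.totient q : ℝ) * ∏ p ∈ pq q y, (1 - gp t p) := by
    rw [hun, prod_union hdisj, mul_assoc]
  rw [e1] at key
  have e2 : ∑ n ∈ ((Icc 1 X).filter (fun n => n ≡ a [MOD q] ∧ ∀ p ∈ Ps, ¬ p ∣ n + t)).filter (fun n => ∀ p ∈ P, ¬ p ∣ n + t),
      ArithmeticFunction.vonMangoldt n = WA X q a t (pq q y) := by
    unfold WA
    refine sum_congr ?_ fun _ _ => rfl
    rw [filter_filter]
    apply filter_congr
    intro n _
    rw [hun]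
    constructor
    · rintro ⟨⟨h3, h4⟩, h5⟩
      refine ⟨h3, fun p hp => ?_⟩
      rcases mem_union.1 hp with h | h
      · exact h4 p h
      · exact h5 p h
    · rintro ⟨h3, h4⟩
      exact ⟨⟨h3, fun p hp => h4 p (mem_union_left _ hp)⟩, fun p hp => h4 p (mem_union_right _ hp)⟩
  have key' : |WA X q a t (pq q y) - psi1 X / (Nat.totient q : ℝ) * ∏ p ∈ pq q y, (1 - gp t p)| ≤
      (1 / 2 : ℝ) ^ b * (psi1 X / (Nat.totient q : ℝ) * ∏ p ∈ pq q y, (1 - gp t p)) +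
      ((JJ y : ℝ) + 2) * ∑ T ∈ P.powerset.filter (fun T : Finset ℕ => ∏ p ∈ T, p ≤ (2 ^ 2 ^ JJ y) ^ (C0 * b)),
        ∑ S ∈ Ps.powerset, eA X q a t (∏ p ∈ S ∪ T, p) := by
    rw [← e2]
    convert key
  refine key'.trans (add_le_add le_rfl ?_)
  apply mul_le_mul_of_nonneg_left _ (by positivity)
  rw [sum_comm]
  have h1 : ∀ S ∈ Ps.powerset, ∑ T ∈ P.powerset.filter (fun T : Finset ℕ => ∏ p ∈ T, p ≤ (2 ^ 2 ^ JJ y) ^ (C0 * b)),
      eA X q a t (∏ p ∈ S ∪ T, p) ≤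
      ∑ d ∈ Icc 1 ((∏ p ∈ pz C0, p) * (2 ^ 2 ^ JJ y) ^ (C0 * b)), eA X q a t d := by
    intro S hS
    rw [mem_powerset] at hS
    have h2 := sum_inj_le P S (fun p hp => (hPp p hp).1.1) (fun p hp => (hPsp p (hS hp)).1) (disjoint_of_subset_left hS hdisj)
      ((2 ^ 2 ^ JJ y) ^ (C0 * b)) (fun d => eA X q a t d) (fun d => eA_nonneg X q a t d)
    refine h2.trans ?_
    apply sum_le_sum_of_subset_of_nonneg
    · apply Icc_subset_Icc le_rfl
      apply Nat.mul_le_mul_right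
      apply Finset.prod_le_prod_of_subset_of_one_le'
      · intro p hp
        have h3 := hS hp
        rw [hPs, mem_pq] at h3
        exact mem_pz.2 h3.1
      · intro p hp _
        exact (mem_pz.1 hp).2.one_lt.le
    · intro d _ _
      exact eA_nonneg X q a t d
  refine (sum_le_sum h1).trans ?_
  rw [sum_const, card_powerset, nsmul_eq_mul]
  have h3 : Ps.card ≤ C0 := by
    have h4 : Ps ⊆ Icc 1 C0 := by
      intro p hp
      rw [hPs, mem_pq] at hp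
      rw [mem_Icc]
      exact ⟨hp.1.2.one_lt.le, hp.1.1⟩
    have h5 := card_le_card h4
    rwa [Nat.card_Icc, Nat.add_sub_cancel] at h5
  apply mul_le_mul_of_nonneg_right _ (sum_nonneg fun d _ => eA_nonneg X q a t d)
  push_cast
  exact pow_le_pow_right₀ (by norm_num) h3

end Pool.Agent.H528.Ap
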