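import Mathlib
import Pool.Agent.H528.ApB

/-! Primes `p` in an arithmetic progression with `p + t` rough: the count. -/

set_option autoImplicit false

namespace Pool.Agent.H528.Ap

open Finset Filter
open H343E (Fam psiAP psi1)
open Pool.Agent.Y822
open Pool.Agent.H373R2.T7 (pz Vz mem_pz JJ JJ_lt JJ_le natlog_le pnt_lam lam1)

open Classical in
/-- from the von Mangoldt function to the primes -/
lemma cnt_of_lam (U : ℕ) (ε : ℝ) (hε : 0 < ε) (hε1 : ε ≤ 1) : ∀ᶠ N : ℕ in atTop, ∀ R : ℕ → Prop, ∀ M : ℝ, 0 ≤ M →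
    |∑ n ∈ (Icc 1 N).filter R, ArithmeticFunction.vonMangoldt n - M| ≤ ε / 4 * M + N / Real.log N ^ (U + 1) →
    |(((Icc 1 N).filter (fun n => n.Prime ∧ R n)).card : ℝ) - M / Real.log N| ≤ ε * (M / Real.log N) + N / Real.log N ^ U := by
  have e1 := ev_logN (ev_log_pow 1 ((U + 1) * 8 / ε))
  have e2 := ev_logN (eventually_ge_atTop (8 : ℝ))
  have e3 := ev_logN (ev_pow_exp (U + 1) (1 / 2) 8 (by norm_num))
  have e4 := ev_logN (ev_pow_exp (U + 1) 1 1 (by norm_num))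
  filter_upwards [e1, e2, e3, e4, eventually_ge_atTop 3] with N h1 h2 h3 h4 hN R M hM hmain'
  obtain ⟨L, hL⟩ : ∃ L : ℝ, L = Real.log N := ⟨_, rfl⟩
  rw [← hL] at h1 h2 h3 h4 hmain' ⊢
  have hL0 : 0 < L := by linarith
  have hN0 : (0 : ℝ) < N := by positivity
  have hNe : (N : ℝ) = Real.exp L := by rw [hL, Real.exp_log hN0]
  rw [pow_one] at h1
  obtain ⟨S, hS⟩ : ∃ S, S = ∑ n ∈ (Icc 1 N).filter R, ArithmeticFunction.vonMangoldt n := ⟨_, rfl⟩
  obtain ⟨C, hC⟩ : ∃ C, C = (((Icc 1 N).filter (fun n => n.Prime ∧ R n)).card : ℝ) := ⟨_, rfl⟩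
  rw [← hS] at hmain'
  have hC0 : 0 ≤ C := by rw [hC]; exact Nat.cast_nonneg _
  have hlow := Pool.Agent.Y822.count_low R N (by omega)
  have hlow' : S - 2 * Real.sqrt N * L ≤ L * C := by
    rw [hS, hC, hL]
    exact hlow
  have hm := abs_le.1 hmain'
  obtain ⟨x, hx⟩ : ∃ x : ℝ, x = (N : ℝ) / L ^ (U + 1) := ⟨_, rfl⟩
  have hLU : 0 < L ^ (U + 1) := by positivity
  have hx1 : 1 ≤ x := by
    rw [hx, le_div_iff₀ hLU, one_mul, hNe]
    have := h4
    rwa [one_mul, one_mul] at this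
  have hlx : Real.log x = L - (U + 1) * Real.log L := by
    rw [hx, Real.log_div hN0.ne' hLU.ne', Real.log_pow, ← hL]
    push_cast
    rfl
  have hlx2 : (1 - ε / 8) * L ≤ Real.log x := by
    rw [hlx]
    have : (U + 1) * Real.log L ≤ ε / 8 * L := by
      have h5 : (U + 1) * 8 / ε * Real.log L * (ε / 8) ≤ L * (ε / 8) :=
        mul_le_mul_of_nonneg_right h1 (by positivity)
      have h6 : (U + 1) * 8 / ε * Real.log L * (ε / 8) = (U + 1) * Real.log L := by field_simp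
      rw [h6] at h5
      linarith
    nlinarith
  have hup := Pool.Agent.Y822.count_up R N x hx1
  have hup' : Real.log x * C ≤ S + Real.log x * x := by
    rw [hS, hC]
    exact hup
  have hxL : N / L ^ (U + 1) = N / L ^ U / L := by
    rw [pow_succ]
    field_simp
  obtain ⟨W, hW⟩ : ∃ W : ℝ, W = (N : ℝ) / L ^ U := ⟨_, rfl⟩
  have hW0 : 0 ≤ W := by rw [hW]; positivity
  have hxR : x = W / L := by rw [hx, hW, hxL]
  have hRL : W / L ≤ W / 8 := div_le_div_of_nonneg_left hW0 (by norm_num) h2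
  have hsq : 2 * Real.sqrt N ≤ W / L / 4 := by
    have h5 : Real.sqrt N = Real.exp (L / 2) := by
      rw [hNe, Real.exp_half]
    have h6 : (N : ℝ) = Real.exp (L / 2) * Real.exp (L / 2) := by
      rw [← Real.exp_add, hNe]; congr 1; ring
    rw [← hxR, hx, h5, le_div_iff₀ (by norm_num), le_div_iff₀ hLU]
    have h7 : 8 * L ^ (U + 1) ≤ Real.exp (L / 2) := by
      have : (1 : ℝ) / 2 * L = L / 2 := by ring
      rw [← this]; exact h3
    calc 2 * Real.exp (L / 2) * 4 * L ^ (U + 1) = Real.exp (L / 2) * (8 * L ^ (U + 1)) := by ring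
      _ ≤ Real.exp (L / 2) * Real.exp (L / 2) := mul_le_mul_of_nonneg_left h7 (Real.exp_pos _).le
      _ = N := h6.symm
  rw [← hx, hxR] at hm
  rw [← hC, ← hW]
  obtain ⟨Q', hQ'⟩ : ∃ Q' : ℝ, Q' = M / L := ⟨_, rfl⟩
  have hNPL : M = L * Q' := by rw [hQ']; field_simp
  have hNP : 0 ≤ Q' := by rw [hQ']; positivity
  rw [← hQ']
  rw [hNPL] at hm
  have hdiv : ∀ a b : ℝ, L * a ≤ L * b → a ≤ b := fun a b h => le_of_mul_le_mul_left h hL0
  rw [abs_le]
  constructor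
  · -- lower bound
    apply hdiv
    have h5 : L * (W / L) = W := by field_simp
    nlinarith [hm.1]
  · -- upper bound
    have h6 : (1 - ε / 8) * L * C ≤ S + Real.log x * x := by
      refine le_trans ?_ hup'
      exact mul_le_mul_of_nonneg_right hlx2 hC0
    have hlxL : Real.log x ≤ L := by
      rw [hlx]
      have : 0 ≤ (U + 1) * Real.log L := by
        have := Real.log_nonneg (by linarith : (1 : ℝ) ≤ L)
        positivity
      linarith
    have h7 : Real.log x * x ≤ L * (W / L) := by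
      rw [← hxR]
      exact mul_le_mul_of_nonneg_right hlxL (by linarith)
    have h8 : (1 - ε / 8) * L * C ≤ L * ((1 + ε / 4) * Q' + (W / L) / L + W / L) := by
      have e9 : L * ((W / L) / L) = W / L := by field_simp
      nlinarith [hm.2]
    have h9 : (1 - ε / 8) * C ≤ (1 + ε / 4) * Q' + (W / L) / L + W / L := by
      apply hdiv
      linarith
    have h10 : (W / L) / L ≤ W / 64 := by
      have : (W / L) / L ≤ (W / 8) / 8 :=
        div_le_div₀ (by positivity) hRL (by norm_num) h2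
      linarith
    have h11 : (1 - ε / 8) * C ≤ (1 + ε / 4) * Q' + W / 4 := by linarith
    have h12 : (1 + ε / 4) * Q' + W / 4 ≤ (1 - ε / 8) * ((1 + ε) * Q' + W) := by
      nlinarith [mul_nonneg hε.le hNP, mul_nonneg hε.le hW0]
    have h13 : C ≤ (1 + ε) * Q' + W := le_of_mul_le_mul_left (h11.trans h12) (by linarith)
    linarith

/-- numbers -/
lemma num_ap {W ψ Nr φ Pq h ε' e1 e2 Er : ℝ} (hφ : 1 ≤ φ) (hP0 : 0 ≤ Pq) (hP1 : Pq ≤ 1)
    (hh0 : 0 ≤ h) (hhε : h ≤ ε' / 2) (hε1 : ε' ≤ 1) (hψ : |ψ - Nr| ≤ e1) (hW : |W - ψ / φ * Pq| ≤ h * (ψ / φ * Pq) + e2)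
    (hE : 2 * e1 + e2 ≤ Er) (hNr : 0 ≤ Nr) : |W - Nr / φ * Pq| ≤ ε' * (Nr / φ * Pq) + Er := by
  have hφ0 : 0 < φ := by linarith
  have he1 : 0 ≤ e1 := (abs_nonneg _).trans hψ
  have h1 : |ψ / φ * Pq - Nr / φ * Pq| ≤ e1 := by
    have e : ψ / φ * Pq - Nr / φ * Pq = (ψ - Nr) * (Pq / φ) := by ring
    rw [e, abs_mul, abs_of_nonneg (div_nonneg hP0 hφ0.le)]
    have h2 : Pq / φ ≤ 1 := by
      rw [div_le_one hφ0]
      linarith
    calc |ψ - Nr| * (Pq / φ) ≤ e1 * 1 := mul_le_mul hψ h2 (div_nonneg hP0 hφ0.le) he1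
      _ = e1 := mul_one _
  obtain ⟨A, hA⟩ : ∃ A : ℝ, A = ψ / φ * Pq := ⟨_, rfl⟩
  obtain ⟨M, hM⟩ : ∃ M : ℝ, M = Nr / φ * Pq := ⟨_, rfl⟩
  have hM0 : 0 ≤ M := by rw [hM]; positivity
  rw [← hA] at hW h1
  rw [← hM] at h1 ⊢
  obtain ⟨a1, a2⟩ := abs_le.1 h1
  have h3 : h * A ≤ h * (M + e1) := mul_le_mul_of_nonneg_left (by linarith) hh0
  have h4 : h * (M + e1) ≤ ε' / 2 * (M + e1) := mul_le_mul_of_nonneg_right hhε (by positivity)
  have h5 : ε' / 2 * e1 ≤ 1 * e1 := mul_le_mul_of_nonneg_right (by linarith) he1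
  have h6 : ε' / 2 * M ≤ ε' * M := mul_le_mul_of_nonneg_right (by linarith) hM0
  obtain ⟨a3, a4⟩ := abs_le.1 hW
  rw [abs_le]
  constructor <;> linarith

open Classical in
/-- **primes `p ≡ a mod q` with `p + t` rough** -/
theorem ap_cnt (κ : ℝ) (hκ : 0 < κ) (hκ1 : κ ≤ 1) (B U : ℕ) (ε : ℝ) (hε : 0 < ε) (hε1 : ε ≤ 1) : ∀ᶠ N : ℕ in atTop,
    ∀ q : ℕ, 1 ≤ q → (q : ℝ) ≤ Real.log N ^ B → ∀ a t : ℕ, Nat.Coprime a q →
      |(((Icc 1 N).filter (fun n => n.Prime ∧ (n ≡ a [MOD q] ∧ ∀ p ∈ pq q (yN κ N), ¬ p ∣ n + t))).card : ℝ) -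
        N / (Nat.totient q : ℝ) * (∏ p ∈ pq q (yN κ N), (1 - gp t p)) / Real.log N| ≤
      ε * (N / (Nat.totient q : ℝ) * (∏ p ∈ pq q (yN κ N), (1 - gp t p)) / Real.log N) + N / Real.log N ^ U := by
  obtain ⟨C0, hC0, CORE⟩ := wa_core
  obtain ⟨b1, hb1⟩ := exists_pow_lt_of_lt_one (show 0 < ε / 8 by positivity) (show (1 / 2 : ℝ) < 1 by norm_num)
  obtain ⟨b, hbC, hbε⟩ : ∃ b, C0 ≤ b ∧ (1 / 2 : ℝ) ^ b ≤ ε / 8 := ⟨max C0 b1, le_max_left _ _,
    (pow_le_pow_of_le_one (by norm_num) (by norm_num) (le_max_right _ _)).trans hb1.le⟩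
  obtain ⟨K0, hK0⟩ : ∃ K0, K0 = ∏ p ∈ pz C0, p := ⟨_, rfl⟩
  obtain ⟨BB, X0, hBV⟩ := H343E.unsmoothed (U + 4)
  obtain ⟨C, N1, hC, hpnt⟩ := pnt_lam (U + 2)
  have e1 := ev_logN (eventually_ge_atTop (max (max 1 (8 * C)) (max (40 * 2 ^ C0) 16)))
  have e2 := ev_logN (ev_pow_exp (BB + U + 8) (1 / 4) 16 (by norm_num))
  filter_upwards [cnt_of_lam U ε hε hε1, e1, e2, eventually_ge_atTop (max (max ⌈X0⌉₊ N1) 3),
    yN_facts κ hκ hκ1 (max B (C0 + K0 + 3)) (4 * (2 * (C0 * b) + 2))] with N hcnt f1 f2 hN hyf q hq hqB a t haq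
  obtain ⟨y1, y2, y3, y4, y5⟩ := hyf
  obtain ⟨y, hyd⟩ : ∃ y : ℕ, y = yN κ N := ⟨_, rfl⟩
  rw [← hyd] at y3 y4 y5 ⊢
  obtain ⟨L, hL⟩ : ∃ L : ℝ, L = Real.log N := ⟨_, rfl⟩
  rw [← hL] at f1 f2 y3 hqB
  have hL1 : 1 ≤ L := (le_max_left _ _).trans ((le_max_left _ _).trans f1)
  have hLC : 8 * C ≤ L := (le_max_right _ _).trans ((le_max_left _ _).trans f1)
  have hLC0 : 40 * 2 ^ C0 ≤ L := (le_max_left _ _).trans ((le_max_right _ _).trans f1)
  have hL16 : 16 ≤ L := (le_max_right _ _).trans ((le_max_right _ _).trans f1)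
  have hL0 : 0 < L := by linarith
  have hN3 : 3 ≤ N := (le_max_right _ _).trans hN
  have hNX0 : X0 ≤ (N : ℝ) := (Nat.le_ceil _).trans (by exact_mod_cast (le_max_left _ _).trans ((le_max_left _ _).trans hN))
  have hNN1 : N1 ≤ N := (le_max_right _ _).trans ((le_max_left _ _).trans hN)
  have hN0 : (0 : ℝ) < N := by positivity
  have hNe : (N : ℝ) = Real.exp L := by rw [hL, Real.exp_log hN0]
  have hyC0 : C0 ≤ y := by have := le_max_right B (C0 + K0 + 3); omega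
  have hyK0 : K0 ≤ y := by have := le_max_right B (C0 + K0 + 3); omega
  have hy3 : 3 ≤ y := by have := le_max_right B (C0 + K0 + 3); omega
  have hqy : q ≤ y := by
    have h1 : (q : ℝ) ≤ y := by
      refine hqB.trans ((pow_le_pow_right₀ hL1 (le_max_left B (C0 + K0 + 3))).trans y3)
    exact_mod_cast h1
  have hCb : 1 ≤ C0 * b := Nat.mul_pos hC0 (by omega)
  obtain ⟨DD, hDD⟩ : ∃ DD, DD = K0 * (2 ^ 2 ^ JJ y) ^ (C0 * b) := ⟨_, rfl⟩
  have hDDy : DD ≤ y ^ (2 * (C0 * b) + 1) := by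
    rw [hDD, pow_succ, mul_comm]
    apply Nat.mul_le_mul _ hyK0
    calc (2 ^ 2 ^ JJ y) ^ (C0 * b) ≤ (y ^ 2) ^ (C0 * b) := Nat.pow_le_pow_left (JJ_le y (by omega)) _
      _ = _ := by rw [← pow_mul]
  have hqD4 : (q * DD) ^ 4 ≤ N := by
    calc (q * DD) ^ 4 ≤ (y * y ^ (2 * (C0 * b) + 1)) ^ 4 := Nat.pow_le_pow_left (Nat.mul_le_mul hqy hDDy) 4
      _ = y ^ (4 * (2 * (C0 * b) + 2)) := by rw [← pow_succ', ← pow_mul]; congr 1; ring
      _ ≤ N := y4
  have hqD4r : ((q * DD : ℕ) : ℝ) ^ 4 ≤ N := by exact_mod_cast hqD4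
  -- the fourth root
  obtain ⟨s, hs⟩ : ∃ s : ℝ, s = Real.exp (L / 4) := ⟨_, rfl⟩
  have hs4 : s ^ 4 = N := by
    rw [hs, ← Real.exp_nat_mul, hNe]
    congr 1
    push_cast; ring
  have hs0 : 0 < s := by rw [hs]; exact Real.exp_pos _
  have hqDs : ((q * DD : ℕ) : ℝ) ≤ s := by
    by_contra h
    push Not at h
    have := pow_lt_pow_left₀ h hs0.le (show (4 : ℕ) ≠ 0 by norm_num)
    rw [hs4] at this
    linarith
  have f2' : 16 * L ^ (BB + U + 8) ≤ s := by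
    rw [hs]
    have : (1 : ℝ) / 4 * L = L / 4 := by ring
    rw [← this]; exact f2
  have hspow : ∀ j, j ≤ BB + U + 8 → 16 * L ^ j ≤ s := fun j hj =>
    le_trans (mul_le_mul_of_nonneg_left (pow_le_pow_right₀ hL1 hj) (by norm_num)) f2'
  have hs1 : 1 ≤ s := by have := hspow 0 (by omega); rw [pow_zero] at this; linarith
  have hD1 : ((q * DD : ℕ) : ℝ) ≤ N / L ^ BB := by
    rw [le_div_iff₀ (by positivity)]
    calc ((q * DD : ℕ) : ℝ) * L ^ BB ≤ s * s := by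
          apply mul_le_mul hqDs _ (by positivity) hs0.le
          have := hspow BB (by omega)
          have h5 : 0 ≤ L ^ BB := by positivity
          linarith
      _ = s ^ 2 := by ring
      _ ≤ s ^ 4 := pow_le_pow_right₀ hs1 (by norm_num)
      _ = N := hs4
  have hD2 : ((q * DD : ℕ) : ℝ) ^ 2 ≤ 1 * N / L ^ BB := by
    rw [one_mul, le_div_iff₀ (by positivity)]
    calc ((q * DD : ℕ) : ℝ) ^ 2 * L ^ BB ≤ s ^ 2 * s := by
          apply mul_le_mul (pow_le_pow_left₀ (by positivity) hqDs 2) _ (by positivity) (by positivity)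
          have := hspow BB (by omega)
          have h5 : 0 ≤ L ^ BB := by positivity
          linarith
      _ = s ^ 3 := by ring
      _ ≤ s ^ 4 := pow_le_pow_right₀ hs1 (by norm_num)
      _ = N := hs4
  have hbv := hBV N hNX0 1 le_rfl (q * DD) (by rw [← hL]; exact hD1) (by rw [← hL]; exact hD2) (LL q a t) (LL_fam hq haq)
  rw [one_mul, ← hL] at hbv
  have hsum := sum_eA (X := N) (a := a) (t := t) (D := DD) hq hbv
  have hnl := natlog_le N (by omega)
  rw [← hL] at hnl hsum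
  have hDDs : (DD : ℝ) ≤ s := by
    refine le_trans ?_ hqDs
    exact_mod_cast Nat.le_mul_of_pos_left DD hq
  have hsmall : (DD : ℝ) * ((Nat.log 2 N + 1 : ℝ) * L) ≤ N / L ^ (U + 4) := by
    rw [le_div_iff₀ (by positivity)]
    calc (DD : ℝ) * ((Nat.log 2 N + 1 : ℝ) * L) * L ^ (U + 4) ≤ s * ((2 * L + L) * L) * L ^ (U + 4) := by gcongr
      _ = s * (3 * L ^ (U + 6)) := by ring
      _ ≤ s * s := by
          apply mul_le_mul_of_nonneg_left _ hs0.le
          have := hspow (U + 6) (by omega)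
          have h5 : 0 ≤ L ^ (U + 6) := by positivity
          linarith
      _ = s ^ 2 := by ring
      _ ≤ s ^ 4 := pow_le_pow_right₀ hs1 (by norm_num)
      _ = N := hs4
  have hcore := CORE b hbC N y q a t hq hyC0
  rw [← hK0, ← hDD] at hcore
  have hJ : (JJ y : ℝ) + 2 ≤ 5 * L := by
    have h5 : JJ y ≤ Nat.log 2 N + 1 := by
      unfold JJ
      have := Nat.log_le_self 2 (Nat.log 2 y)
      have hyN : y ≤ N := by
        calc y = y ^ 1 := (pow_one y).symm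
          _ ≤ y ^ (4 * (2 * (C0 * b) + 2)) := Nat.pow_le_pow_right (by omega) (by omega)
          _ ≤ N := y4
      have h6 : Nat.log 2 y ≤ Nat.log 2 N := Nat.log_mono_right hyN
      omega
    have h6 : (JJ y : ℝ) ≤ Nat.log 2 N + 1 := by exact_mod_cast h5
    linarith
  obtain ⟨Pq, hPq⟩ : ∃ Pq : ℝ, Pq = ∏ p ∈ pq q y, (1 - gp t p) := ⟨_, rfl⟩
  have hP01 : ∀ p ∈ pq q y, 0 ≤ 1 - gp t p ∧ 1 - gp t p ≤ 1 := by
    intro p hp
    rw [mem_pq] at hp
    have h1 := gp_bd (t := t) hp.1.2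
    have h2 := gp_le_one (t := t) hp.1.2
    constructor <;> linarith
  have hP0 : 0 ≤ Pq := by rw [hPq]; exact prod_nonneg fun p hp => (hP01 p hp).1
  have hP1 : Pq ≤ 1 := by rw [hPq]; exact prod_le_one (fun p hp => (hP01 p hp).1) (fun p hp => (hP01 p hp).2)
  rw [← hPq] at hcore
  have hφ : (1 : ℝ) ≤ (Nat.totient q : ℝ) := by exact_mod_cast Nat.totient_pos.2 hq
  have hpn := hpnt N hNN1
  rw [← hL] at hpn
  have elam : lam1 N = psi1 (N : ℝ) := by
    unfold lam1 psi1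
    rw [Nat.floor_natCast]
  rw [elam] at hpn
  have hNL : ∀ j, j ≤ BB + U + 8 → 16 ≤ (N : ℝ) / L ^ j := by
    intro j hj
    rw [le_div_iff₀ (by positivity)]
    refine (hspow j hj).trans ?_
    calc s = s ^ 1 := (pow_one s).symm
      _ ≤ s ^ 4 := pow_le_pow_right₀ hs1 (by norm_num)
      _ = N := hs4
  have hmain := num_ap (ε' := ε / 4) (Er := N / L ^ (U + 1)) hφ hP0 hP1 (by positivity : (0 : ℝ) ≤ (1 / 2) ^ b) (by linarith)
    (by linarith) hpn (hcore.trans (add_le_add le_rfl (mul_le_mul hJ (mul_le_mul_of_nonneg_left (hsum.trans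
      (add_le_add le_rfl hsmall)) (by positivity)) (by
        apply mul_nonneg (by positivity)
        exact sum_nonneg fun d _ => eA_nonneg N q a t d) (by positivity)))) (by
      have g1 : (N : ℝ) / L ^ (U + 2) = N / L ^ (U + 1) / L := by rw [pow_succ L (U + 1)]; field_simp
      have g2 : (N : ℝ) / L ^ (U + 4) = N / L ^ (U + 1) / L / L / L := by
        rw [show U + 4 = (U + 1) + 3 by ring, pow_add]; field_simp
      obtain ⟨Z, hZ⟩ : ∃ Z : ℝ, Z = (N : ℝ) / L ^ (U + 1) := ⟨_, rfl⟩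
      have hZ16 : 16 ≤ Z := by rw [hZ]; exact hNL (U + 1) (by omega)
      rw [g1, g2, ← hZ]
      have g3 : 2 * (C * (Z / L) + 2) ≤ Z / 2 := by
        have g4 : C * (Z / L) ≤ Z / 8 := by
          rw [← mul_div_assoc, div_le_div_iff₀ hL0 (by norm_num)]
          nlinarith
        linarith
      have g5 : 5 * L * (2 ^ C0 * (Z / L / L / L + Z / L / L / L)) ≤ Z / 2 := by
        have g6 : 5 * L * (2 ^ C0 * (Z / L / L / L + Z / L / L / L)) = 10 * 2 ^ C0 / L * (Z / L) := by field_simp; ring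
        have g7 : 10 * 2 ^ C0 / L ≤ 1 / 4 := by
          rw [div_le_iff₀ hL0]
          linarith
        have g8 : Z / L ≤ Z := div_le_self (by linarith) hL1
        rw [g6]
        calc 10 * 2 ^ C0 / L * (Z / L) ≤ 1 / 4 * Z := mul_le_mul g7 g8 (by positivity) (by norm_num)
          _ ≤ Z / 2 := by linarith
      linarith) hN0.le
  have hfin := hcnt (fun n => n ≡ a [MOD q] ∧ ∀ p ∈ pq q y, ¬ p ∣ n + t) (N / (Nat.totient q : ℝ) * Pq) (by positivity) (by
    rw [← hL]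
    unfold WA at hmain
    convert hmain)
  rw [← hPq]
  convert hfin

end Pool.Agent.H528.Ap
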