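import Mathlib
import Pool.Agent.H528.Stp

/-! The function `Γ_N(m) = ∑_{d ∣ m} μ(d) (1 - log d / log N) ^ 2` and its truncations. -/

set_option autoImplicit false

namespace Pool.Agent.H528.Gam

open Finset Filter
open Pool.Agent.Y822
open Pool.Agent.H528.Stp

/-- the second difference -/
noncomputable def SS (P : Finset ℕ) (a : ℕ → ℝ) (x : ℝ) : ℝ := ∑ T ∈ P.powerset, (-1 : ℝ) ^ T.card * (x - ∑ p ∈ T, a p) ^ 2

lemma SS_empty (a : ℕ → ℝ) (x : ℝ) : SS ∅ a x = x ^ 2 := by
  simp [SS]

lemma SS_insert {P : Finset ℕ} {p : ℕ} (hp : p ∉ P) (a : ℕ → ℝ) (x : ℝ) :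
    SS (insert p P) a x = SS P a x - SS P a (x - a p) := by
  unfold SS
  rw [Finset.sum_powerset_insert hp, sub_eq_add_neg]
  congr 1
  rw [← Finset.sum_neg_distrib]
  refine sum_congr rfl fun T hT => ?_
  have hpT : p ∉ T := fun h => hp (mem_powerset.1 hT h)
  rw [card_insert_of_notMem hpT, sum_insert hpT, pow_succ]
  ring

lemma SS_one (p : ℕ) (a : ℕ → ℝ) (x : ℝ) : SS {p} a x = 2 * a p * x - a p ^ 2 := by
  have h : ({p} : Finset ℕ) = insert p ∅ := rfl
  rw [h, SS_insert (notMem_empty p), SS_empty, SS_empty]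
  ring

lemma SS_two {p q : ℕ} (h : p ≠ q) (a : ℕ → ℝ) (x : ℝ) : SS {p, q} a x = 2 * a p * a q := by
  rw [SS_insert (by rwa [mem_singleton]), SS_one, SS_one]
  ring

lemma SS_three {P : Finset ℕ} (hP : 3 ≤ P.card) (a : ℕ → ℝ) (x : ℝ) : SS P a x = 0 := by
  induction P using Finset.induction_on generalizing x with
  | empty => simp at hP
  | insert p P hp ih =>
    rw [SS_insert hp]
    rw [card_insert_of_notMem hp] at hP
    rcases Nat.lt_or_ge P.card 3 with h | h
    · have h2 : P.card = 2 := by omega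
      obtain ⟨q, r, hqr, rfl⟩ := card_eq_two.1 h2
      rw [SS_two hqr, SS_two hqr, sub_self]
    · rw [ih h, ih h, sub_self]

/-- the full divisor sum -/
noncomputable def Gm (N m : ℕ) : ℝ :=
  ∑ d ∈ m.divisors, (ArithmeticFunction.moebius d : ℝ) * (1 - Real.log d / Real.log N) ^ 2

/-- the coefficients -/
noncomputable def cG (N d : ℕ) : ℝ :=
  if d ≤ N then (ArithmeticFunction.moebius d : ℝ) * (1 - Real.log d / Real.log N) ^ 2 else 0

lemma mu_le (d : ℕ) : |(ArithmeticFunction.moebius d : ℝ)| ≤ 1 := by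
  have h := ArithmeticFunction.abs_moebius_le_one (n := d)
  have : |((ArithmeticFunction.moebius d : ℤ) : ℝ)| = ((|ArithmeticFunction.moebius d| : ℤ) : ℝ) := by
    push_cast
    rfl
  rw [this]
  exact_mod_cast h

lemma cG_le (N : ℕ) (hN : 2 ≤ N) (d : ℕ) : |cG N d| ≤ 1 := by
  unfold cG
  split_ifs with h
  · rw [abs_mul]
    have hL : 0 < Real.log N := Real.log_pos (by exact_mod_cast (by omega : 1 < N))
    have h1 : 0 ≤ Real.log d := Real.log_natCast_nonneg d
    have h2 : Real.log d ≤ Real.log N := by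
      rcases Nat.eq_zero_or_pos d with rfl | hd
      · simp only [Nat.cast_zero, Real.log_zero]; exact hL.le
      · exact Real.log_le_log (by exact_mod_cast hd) (by exact_mod_cast h)
    have h3 : Real.log d / Real.log N ≤ 1 := by rw [div_le_one hL]; exact h2
    have h4 : 0 ≤ Real.log d / Real.log N := div_nonneg h1 hL.le
    have h5 : |(1 - Real.log d / Real.log N) ^ 2| ≤ 1 := by
      rw [abs_of_nonneg (sq_nonneg _)]
      exact pow_le_one₀ (by linarith) (by linarith)
    calc _ ≤ (1 : ℝ) * 1 := mul_le_mul (mu_le d) h5 (abs_nonneg _) zero_le_one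
      _ = 1 := one_mul 1
  · rw [abs_zero]; exact zero_le_one

lemma Gm_eq {N m : ℕ} (hm : 1 ≤ m) : Gm N m = SS m.primeFactors (fun p => Real.log p / Real.log N) 1 := by
  classical
  unfold Gm SS
  have h1 : ∑ d ∈ m.divisors, (ArithmeticFunction.moebius d : ℝ) * (1 - Real.log d / Real.log N) ^ 2 =
      ∑ d ∈ m.divisors.filter Squarefree, (ArithmeticFunction.moebius d : ℝ) * (1 - Real.log d / Real.log N) ^ 2 := by
    rw [sum_filter]
    refine sum_congr rfl fun d _ => ?_
    split_ifs with h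
    · rfl
    · rw [ArithmeticFunction.moebius_eq_zero_of_not_squarefree h]
      simp
  have h2 : (UniqueFactorizationMonoid.normalizedFactors m).toFinset = m.primeFactors := by
    rw [Nat.factors_eq]
    rfl
  rw [h1, Nat.sum_divisors_filter_squarefree (by omega : m ≠ 0), h2]
  refine sum_congr rfl fun T hT => ?_
  have hTp : ∀ p ∈ T, p.Prime := fun p hp => Nat.prime_of_mem_primeFactors (mem_powerset.1 hT hp)
  have e1 : T.val.prod = ∏ p ∈ T, p := by rw [Finset.prod_eq_multiset_prod, Multiset.map_id']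
  rw [e1]
  congr 1
  · have h3 : ArithmeticFunction.moebius (∏ p ∈ T, p) = (-1) ^ T.card := by
      have hsq : Squarefree (∏ p ∈ T, p) := Pool.Agent.Y822.Cop.sqf_prod hTp
      rw [ArithmeticFunction.moebius_apply_of_squarefree hsq]
      congr 1
      have h5 : (∏ p ∈ T, p).primeFactors = T := Nat.primeFactors_prod hTp
      rw [← ArithmeticFunction.cardDistinctFactors_eq_cardFactors_iff_squarefree
        (Finset.prod_ne_zero_iff.2 fun p hp => (hTp p hp).ne_zero) |>.2 hsq]
      rw [ArithmeticFunction.cardDistinctFactors_apply, ← List.card_toFinset]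
      show (∏ p ∈ T, p).primeFactors.card = T.card
      rw [h5]
    rw [h3]
    push_cast
    rfl
  · congr 2
    rw [← sum_div]
    congr 1
    push_cast
    exact Real.log_prod fun p hp => by exact_mod_cast (hTp p hp).ne_zero

end Pool.Agent.H528.Gam
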