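import Mathlib
import Pool.Agent.H528.Gam

/-! The truncation of the divisor sum on rough numbers. -/

set_option autoImplicit false

namespace Pool.Agent.H528.Gam

open Finset Filter
open Pool.Agent.Y822
open Pool.Agent.H528.Stp

lemma log_nn (p : ℕ) : 0 ≤ Real.log p := Real.log_natCast_nonneg p

lemma Gm_one_pf {N m p : ℕ} (hm : 1 ≤ m) (h : m.primeFactors = {p}) :
    Gm N m = 2 * (Real.log p / Real.log N) - (Real.log p / Real.log N) ^ 2 := by
  rw [Gm_eq hm, h, SS_one, mul_one]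

lemma Gm_two_pf {N m p q : ℕ} (hm : 1 ≤ m) (hpq : p ≠ q) (h : m.primeFactors = {p, q}) :
    Gm N m = 2 * (Real.log p / Real.log N) * (Real.log q / Real.log N) := by
  rw [Gm_eq hm, h, SS_two hpq]

lemma Gm_three_pf {N m : ℕ} (hm : 1 ≤ m) (h : 3 ≤ m.primeFactors.card) : Gm N m = 0 := by
  rw [Gm_eq hm, SS_three h]

/-- the trichotomy -/
lemma pf_cases {m : ℕ} (hm : 1 ≤ m) : m = 1 ∨ (∃ p, p.Prime ∧ p ∣ m ∧ m.primeFactors = {p}) ∨
    (∃ p q, p ≠ q ∧ p.Prime ∧ q.Prime ∧ p * q ∣ m ∧ m.primeFactors = {p, q}) ∨ 3 ≤ m.primeFactors.card := by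
  rcases Nat.lt_or_ge m.primeFactors.card 3 with h | h
  · interval_cases hc : m.primeFactors.card
    · left
      rw [card_eq_zero, Nat.primeFactors_eq_empty] at hc
      omega
    · right; left
      obtain ⟨p, hp⟩ := card_eq_one.1 hc
      have hpm : p ∈ m.primeFactors := by rw [hp]; exact mem_singleton_self p
      exact ⟨p, Nat.prime_of_mem_primeFactors hpm, Nat.dvd_of_mem_primeFactors hpm, hp⟩
    · right; right; left
      obtain ⟨p, q, hpq, h2⟩ := card_eq_two.1 hc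
      have hpm : p ∈ m.primeFactors := by rw [h2]; simp
      have hqm : q ∈ m.primeFactors := by rw [h2]; simp
      have hp := Nat.prime_of_mem_primeFactors hpm
      have hq := Nat.prime_of_mem_primeFactors hqm
      refine ⟨p, q, hpq, hp, hq, ?_, h2⟩
      exact Nat.Coprime.mul_dvd_of_dvd_of_dvd ((Nat.coprime_primes hp hq).2 hpq)
        (Nat.dvd_of_mem_primeFactors hpm) (Nat.dvd_of_mem_primeFactors hqm)
  · right; right; right
    exact h

lemma Gm_bd {N m : ℕ} (hN : 2 ≤ N) (hm : 1 ≤ m) (hm2 : m ≤ 2 * N) : 0 ≤ Gm N m ∧ Gm N m ≤ 2 := by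
  have hN1 : (1 : ℝ) < N := by exact_mod_cast (by omega : 1 < N)
  have hL : 0 < Real.log N := Real.log_pos hN1
  have hlm : Real.log m ≤ 2 * Real.log N := by
    have h1 : Real.log m ≤ Real.log ((N : ℝ) * N) := by
      apply Real.log_le_log (by exact_mod_cast hm)
      have h2 : (m : ℝ) ≤ 2 * N := by exact_mod_cast hm2
      have h3 : (2 : ℝ) ≤ N := by exact_mod_cast hN
      nlinarith
    rw [Real.log_mul (by positivity) (by positivity)] at h1
    linarith
  rcases pf_cases hm with rfl | ⟨p, hp, hpm, h⟩ | ⟨p, q, hpq, hp, hq, hpqm, h⟩ | h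
  · rw [Gm_eq hm, Nat.primeFactors_one, SS_empty]
    norm_num
  · rw [Gm_one_pf hm h]
    obtain ⟨a, ha⟩ : ∃ a : ℝ, a = Real.log p / Real.log N := ⟨_, rfl⟩
    have ha0 : 0 ≤ a := by rw [ha]; exact div_nonneg (log_nn p) hL.le
    have ha2 : a ≤ 2 := by
      rw [ha, div_le_iff₀ hL]
      refine le_trans ?_ hlm
      exact Real.log_le_log (by exact_mod_cast hp.pos) (by exact_mod_cast Nat.le_of_dvd hm hpm)
    rw [← ha]
    constructor <;> nlinarith [sq_nonneg (1 - a)]
  · rw [Gm_two_pf hm hpq h]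
    obtain ⟨a, ha⟩ : ∃ a : ℝ, a = Real.log p / Real.log N := ⟨_, rfl⟩
    obtain ⟨b, hb⟩ : ∃ b : ℝ, b = Real.log q / Real.log N := ⟨_, rfl⟩
    have ha0 : 0 ≤ a := by rw [ha]; exact div_nonneg (log_nn p) hL.le
    have hb0 : 0 ≤ b := by rw [hb]; exact div_nonneg (log_nn q) hL.le
    have hab : a + b ≤ 2 := by
      rw [ha, hb, ← add_div, div_le_iff₀ hL]
      refine le_trans ?_ hlm
      rw [← Real.log_mul (by exact_mod_cast hp.ne_zero) (by exact_mod_cast hq.ne_zero)]
      apply Real.log_le_log (mul_pos (by exact_mod_cast hp.pos) (by exact_mod_cast hq.pos))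
      exact_mod_cast Nat.le_of_dvd hm hpqm
    rw [← ha, ← hb]
    constructor
    · positivity
    · nlinarith [sq_nonneg (a - b)]
  · rw [Gm_three_pf hm h]
    norm_num

/-- rough numbers have few prime factors -/
lemma card_le_of_rough {z m M X : ℕ} (hX : (X : ℝ) < (z : ℝ) ^ (M + 1)) (hm1 : 1 ≤ m) (hm : m ≤ X) (hro : Ro z m) :
    m.primeFactors.card ≤ M := by
  by_contra hcon
  push Not at hcon
  have hz : 1 ≤ z := by
    by_contra h
    have : z = 0 := by omega
    subst this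
    simp at hX
    have : (0 : ℝ) ≤ X := Nat.cast_nonneg X
    linarith
  have h1 : z ^ m.primeFactors.card ≤ ∏ p ∈ m.primeFactors, p := by
    refine Finset.pow_card_le_prod _ _ _ fun p hp => ?_
    by_contra hlt
    push Not at hlt
    exact hro p (Nat.prime_of_mem_primeFactors hp) hlt.le (Nat.dvd_of_mem_primeFactors hp)
  have h2 : ∏ p ∈ m.primeFactors, p ≤ m := Nat.le_of_dvd hm1 (Nat.prod_primeFactors_dvd m)
  have h3 : z ^ (M + 1) ≤ z ^ m.primeFactors.card := Nat.pow_le_pow_right hz hcon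
  have h4 : z ^ (M + 1) ≤ X := by omega
  have h5 : ((z : ℝ)) ^ (M + 1) ≤ X := by exact_mod_cast h4
  linarith

lemma thK_one (K : Finset ℕ) (m : ℕ) : thK K (fun _ => 1) m = ((K.filter (fun d => d ∣ m)).card : ℝ) := by
  unfold thK
  rw [card_filter]
  push_cast
  exact sum_congr rfl fun d _ => by rw [one_mul]

lemma thK_one_nonneg (K : Finset ℕ) (m : ℕ) : 0 ≤ thK K (fun _ => 1) m := by
  rw [thK_one]
  exact Nat.cast_nonneg _

/-- squarefree divisors -/
lemma thK_le_pow {z Z m M : ℕ} (hm1 : 1 ≤ m) (hM : m.primeFactors.card ≤ M) (K : Finset ℕ) (hK : K ⊆ SD z Z)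
    (c : ℕ → ℝ) (hc : ∀ d, |c d| ≤ 1) : |thK K c m| ≤ 2 ^ M := by
  classical
  have h1 : |thK K c m| ≤ thK K (fun _ => 1) m := by
    unfold thK
    refine (abs_sum_le_sum_abs _ _).trans (sum_le_sum fun d _ => ?_)
    rw [abs_mul]
    have h2 : |(if d ∣ m then (1 : ℝ) else 0)| = if d ∣ m then 1 else 0 := by
      split_ifs <;> simp
    rw [h2]
    exact mul_le_mul_of_nonneg_right (hc d) (by split_ifs <;> norm_num)
  refine h1.trans ?_
  rw [thK_one]
  have h3 : (K.filter (fun d => d ∣ m)).card ≤ m.primeFactors.powerset.card := by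
    refine card_le_card_of_injOn Nat.primeFactors ?_ ?_
    · intro d hd
      rw [mem_coe, mem_filter] at hd
      rw [mem_coe, mem_powerset]
      exact Nat.primeFactors_mono hd.2 (by omega)
    · intro d hd d' hd' h
      rw [mem_coe, mem_filter] at hd hd'
      have e1 := Nat.prod_primeFactors_of_squarefree (mem_SD.1 (hK hd.1)).2.1
      have e2 := Nat.prod_primeFactors_of_squarefree (mem_SD.1 (hK hd'.1)).2.1
      rw [← e1, ← e2, h]
  rw [card_powerset] at h3
  calc ((K.filter (fun d => d ∣ m)).card : ℝ) ≤ ((2 ^ m.primeFactors.card : ℕ) : ℝ) := by exact_mod_cast h3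
    _ ≤ 2 ^ M := by
        push_cast
        exact pow_le_pow_right₀ (by norm_num) hM

/-- **the truncation** -/
lemma tail {N z m : ℕ} {η : ℝ} (hN : 2 ≤ N) (hm1 : 1 ≤ m) (hm : m ≤ 2 * N) (hsq : Squarefree m) (hro : Ro z m)
    (hη0 : 0 < η) (hη1 : η ≤ 1) (hlog2 : Real.log 2 ≤ η * Real.log N) (h2 : 2 ≤ (N : ℝ) ^ η) :
    |Gm N m - thK (SD z ⌊(N : ℝ) ^ (1 - η)⌋₊) (cG N) m| ≤ η ^ 2 * thK (SD z ⌊(N : ℝ) ^ (2 * η)⌋₊) (fun _ => 1) m := by
  classical
  have hN1 : (1 : ℝ) < N := by exact_mod_cast (by omega : 1 < N)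
  have hN0 : (0 : ℝ) < N := by linarith
  have hL : 0 < Real.log N := Real.log_pos hN1
  obtain ⟨Z, hZ⟩ : ∃ Z : ℕ, Z = ⌊(N : ℝ) ^ (1 - η)⌋₊ := ⟨_, rfl⟩
  rw [← hZ]
  have hZN : Z ≤ N := by
    rw [hZ]
    apply Nat.floor_le_of_le
    calc (N : ℝ) ^ (1 - η) ≤ (N : ℝ) ^ (1 : ℝ) := Real.rpow_le_rpow_of_exponent_le hN1.le (by linarith)
      _ = N := Real.rpow_one _
  have e1 : thK (SD z Z) (cG N) m = ∑ d ∈ m.divisors.filter (fun d => d ≤ Z),
      (ArithmeticFunction.moebius d : ℝ) * (1 - Real.log d / Real.log N) ^ 2 := by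
    have h3 : thK (SD z Z) (cG N) m = ∑ d ∈ (SD z Z).filter (fun d => d ∣ m), cG N d := by
      unfold thK
      rw [sum_filter]
      exact sum_congr rfl fun d _ => by split_ifs <;> simp
    rw [h3]
    have h4 : (SD z Z).filter (fun d => d ∣ m) = m.divisors.filter (fun d => d ≤ Z) := by
      ext d
      rw [mem_filter, mem_filter, mem_SD, Nat.mem_divisors]
      constructor
      · rintro ⟨⟨⟨a1, a2⟩, a3, a4⟩, a5⟩
        exact ⟨⟨a5, by omega⟩, a2⟩
      · rintro ⟨⟨a1, a2⟩, a3⟩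
        exact ⟨⟨⟨Nat.pos_of_dvd_of_pos a1 hm1, a3⟩, hsq.squarefree_of_dvd a1,
          fun p hp hpz hpd => hro p hp hpz (hpd.trans a1)⟩, a1⟩
    rw [h4]
    refine sum_congr rfl fun d hd => ?_
    rw [mem_filter] at hd
    unfold cG
    rw [if_pos (hd.2.trans hZN)]
  have e2 : Gm N m - thK (SD z Z) (cG N) m = ∑ d ∈ m.divisors.filter (fun d => ¬ d ≤ Z),
      (ArithmeticFunction.moebius d : ℝ) * (1 - Real.log d / Real.log N) ^ 2 := by
    rw [e1, sub_eq_iff_eq_add']
    unfold Gm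
    rw [sum_filter_add_sum_filter_not]
  rw [e2]
  have hbig : ∀ d ∈ m.divisors.filter (fun d => ¬ d ≤ Z), (N : ℝ) ^ (1 - η) < d := by
    intro d hd
    rw [mem_filter] at hd
    have h3 := hd.2
    rw [hZ] at h3
    push Not at h3
    exact Nat.lt_of_floor_lt h3
  have hterm : ∀ d ∈ m.divisors.filter (fun d => ¬ d ≤ Z),
      |(ArithmeticFunction.moebius d : ℝ) * (1 - Real.log d / Real.log N) ^ 2| ≤ η ^ 2 := by
    intro d hd
    have h3 := hbig d hd
    rw [mem_filter, Nat.mem_divisors] at hd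
    have hd0 : 0 < d := Nat.pos_of_dvd_of_pos hd.1.1 hm1
    have hd0' : (0 : ℝ) < d := by exact_mod_cast hd0
    rw [abs_mul]
    have h4 : |(1 - Real.log d / Real.log N) ^ 2| ≤ η ^ 2 := by
      rw [abs_of_nonneg (sq_nonneg _)]
      apply sq_le_sq'
      · have h5 : Real.log d ≤ Real.log (2 * N) := by
          apply Real.log_le_log hd0'
          exact_mod_cast (Nat.le_of_dvd hm1 hd.1.1).trans hm
        rw [Real.log_mul (by norm_num) hN0.ne'] at h5
        have h6 : Real.log d / Real.log N ≤ 1 + η := by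
          rw [div_le_iff₀ hL]
          linarith
        linarith
      · have h5 : (1 - η) * Real.log N ≤ Real.log d := by
          rw [← Real.log_rpow hN0]
          exact Real.log_le_log (by positivity) h3.le
        have h6 : 1 - η ≤ Real.log d / Real.log N := by
          rw [le_div_iff₀ hL]
          exact h5
        linarith
    calc _ ≤ 1 * η ^ 2 := mul_le_mul (mu_le d) h4 (abs_nonneg _) zero_le_one
      _ = η ^ 2 := one_mul _
  refine (abs_sum_le_sum_abs _ _).trans ((sum_le_sum hterm).trans ?_)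
  rw [sum_const, nsmul_eq_mul, mul_comm, thK_one]
  apply mul_le_mul_of_nonneg_left _ (sq_nonneg _)
  have hcard : (m.divisors.filter (fun d => ¬ d ≤ Z)).card ≤
      ((SD z ⌊(N : ℝ) ^ (2 * η)⌋₊).filter (fun d => d ∣ m)).card := by
    refine card_le_card_of_injOn (fun d => m / d) ?_ ?_
    · intro d hd
      rw [mem_coe] at hd
      have h3 := hbig d hd
      rw [mem_filter, Nat.mem_divisors] at hd
      have hdm := hd.1.1
      have hd0 : 0 < d := Nat.pos_of_dvd_of_pos hdm hm1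
      have hd0' : (0 : ℝ) < d := by exact_mod_cast hd0
      have hdvd : m / d ∣ m := Nat.div_dvd_of_dvd hdm
      rw [mem_coe, mem_filter, mem_SD]
      refine ⟨⟨⟨Nat.div_pos (Nat.le_of_dvd hm1 hdm) hd0, ?_⟩, hsq.squarefree_of_dvd hdvd,
        fun p hp hpz hpd => hro p hp hpz (hpd.trans hdvd)⟩, hdvd⟩
      apply Nat.le_floor
      rw [Nat.cast_div hdm hd0'.ne', div_le_iff₀ hd0']
      have h4 : (m : ℝ) ≤ 2 * N := by exact_mod_cast hm
      have h5 : (N : ℝ) = (N : ℝ) ^ η * (N : ℝ) ^ (1 - η) := by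
        rw [← Real.rpow_add hN0]
        simp
      have h6 : (N : ℝ) ^ (2 * η) = (N : ℝ) ^ η * (N : ℝ) ^ η := by
        rw [← Real.rpow_add hN0]
        congr 1
        ring
      have h7 : 0 < (N : ℝ) ^ η := by positivity
      calc (m : ℝ) ≤ 2 * N := h4
        _ = 2 * ((N : ℝ) ^ η * (N : ℝ) ^ (1 - η)) := by rw [← h5]
        _ ≤ (N : ℝ) ^ η * ((N : ℝ) ^ η * (N : ℝ) ^ (1 - η)) :=
            mul_le_mul_of_nonneg_right h2 (by positivity)
        _ ≤ (N : ℝ) ^ η * ((N : ℝ) ^ η * d) := by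
            apply mul_le_mul_of_nonneg_left _ h7.le
            exact mul_le_mul_of_nonneg_left h3.le h7.le
        _ = (N : ℝ) ^ (2 * η) * d := by rw [h6]; ring
    · intro d hd d' hd' h
      rw [mem_coe, mem_filter, Nat.mem_divisors] at hd hd'
      simp only at h
      have e3 := Nat.div_mul_cancel hd.1.1
      have e4 := Nat.div_mul_cancel hd'.1.1
      rw [← h] at e4
      have hpos : 0 < m / d := Nat.div_pos (Nat.le_of_dvd hm1 hd.1.1) (Nat.pos_of_dvd_of_pos hd.1.1 hm1)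
      exact Nat.eq_of_mul_eq_mul_left hpos (e3.trans e4.symm)
  exact_mod_cast hcard

end Pool.Agent.H528.Gam
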