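import Mathlib
import Pool.Agent.H528.GamT

/-! Rough numbers which are not squarefree are rare. -/

set_option autoImplicit false

namespace Pool.Agent.H528.Gam

open Finset Filter
open Pool.Agent.Y822
open Pool.Agent.H528.Stp

lemma cnt_dvd (N t q : ℕ) (hq : 1 ≤ q) :
    (((Icc 1 N).filter (fun n => q ∣ n + t)).card : ℝ) ≤ N / q + 1 := by
  have h1 : ((Icc 1 N).filter (fun n => q ∣ n + t)).card ≤ (Ioc (t / q) ((t + N) / q)).card := by
    refine card_le_card_of_injOn (fun n => (n + t) / q) ?_ ?_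
    · intro n hn
      rw [mem_coe, mem_filter, mem_Icc] at hn
      rw [mem_coe, mem_Ioc]
      obtain ⟨⟨h1, h2⟩, h3⟩ := hn
      refine ⟨?_, Nat.div_le_div_right (by omega)⟩
      rw [Nat.lt_div_iff_mul_lt_of_dvd (by omega) h3]
      calc t / q * q ≤ t := Nat.div_mul_le_self t q
        _ < n + t := by omega
    · intro n hn n' hn' h
      rw [mem_coe, mem_filter] at hn hn'
      simp only at h
      have e1 := Nat.div_mul_cancel hn.2
      have e2 := Nat.div_mul_cancel hn'.2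
      rw [h, e2] at e1
      omega
  rw [Nat.card_Ioc] at h1
  have hq0 : (0 : ℝ) < q := by exact_mod_cast hq
  have h2 : (t : ℝ) / q < (t / q : ℕ) + 1 := by
    have h3 : t < (t / q + 1) * q := by
      have := Nat.lt_div_mul_add (a := t) (b := q) (by omega)
      rw [add_mul, one_mul]
      exact this
    rw [div_lt_iff₀ hq0]
    exact_mod_cast h3
  have h3 : (((t + N) / q : ℕ) : ℝ) ≤ ((t + N : ℕ) : ℝ) / q := Nat.cast_div_le
  have h4 : ((((t + N) / q - t / q : ℕ)) : ℝ) = ((t + N) / q : ℕ) - (t / q : ℕ) :=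
    Nat.cast_sub (Nat.div_le_div_right (by omega))
  have h5 : (((Icc 1 N).filter (fun n => q ∣ n + t)).card : ℝ) ≤ (((t + N) / q - t / q : ℕ) : ℝ) := by exact_mod_cast h1
  rw [h4] at h5
  push_cast at h3
  rw [add_div] at h3
  linarith

open Classical in
/-- rough numbers which are not squarefree -/
lemma cnt_nsq {N z t : ℕ} (hz : 1 ≤ z) (ht : t ≤ N) :
    (((Icc 1 N).filter (fun n => Ro z (n + t) ∧ ¬ Squarefree (n + t))).card : ℝ) ≤ 3 * N / z := by
  have hz0 : (0 : ℝ) < z := by exact_mod_cast hz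
  have hN0 : (0 : ℝ) ≤ N := Nat.cast_nonneg N
  obtain ⟨P, hP⟩ : ∃ P : Finset ℕ, P = (Ioc z (z + 2 * N)).filter (fun p => p ^ 2 ≤ 2 * N) := ⟨_, rfl⟩
  have hsub : (Icc 1 N).filter (fun n => Ro z (n + t) ∧ ¬ Squarefree (n + t)) ⊆
      P.biUnion fun p => (Icc 1 N).filter (fun n => p ^ 2 ∣ n + t) := by
    intro n hn
    rw [mem_filter, mem_Icc] at hn
    obtain ⟨⟨h1, h2⟩, h3, h4⟩ := hn
    rw [Nat.squarefree_iff_prime_squarefree] at h4
    push Not at h4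
    obtain ⟨p, hp, hpp⟩ := h4
    rw [mem_biUnion]
    have h5 : p * p ≤ n + t := Nat.le_of_dvd (by omega) hpp
    refine ⟨p, ?_, ?_⟩
    · rw [hP, mem_filter, mem_Ioc, sq]
      refine ⟨⟨?_, ?_⟩, by omega⟩
      · by_contra h6
        push Not at h6
        exact h3 p hp h6 ((dvd_mul_right p p).trans hpp)
      · have h6 : p ≤ p * p := Nat.le_mul_self p
        omega
    · rw [mem_filter, mem_Icc, sq]
      exact ⟨⟨h1, h2⟩, hpp⟩
  have h1 : (((Icc 1 N).filter (fun n => Ro z (n + t) ∧ ¬ Squarefree (n + t))).card : ℝ) ≤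
      ∑ p ∈ P, (((Icc 1 N).filter (fun n => p ^ 2 ∣ n + t)).card : ℝ) := by
    exact_mod_cast (card_le_card hsub).trans card_biUnion_le
  refine h1.trans ?_
  have h2 : ∀ p ∈ P, (((Icc 1 N).filter (fun n => p ^ 2 ∣ n + t)).card : ℝ) ≤ 3 * N * (((p : ℝ) ^ 2)⁻¹) := by
    intro p hp
    rw [hP, mem_filter, mem_Ioc] at hp
    have hp0 : 0 < p := by omega
    have hp0' : (0 : ℝ) < p := by exact_mod_cast hp0
    refine (cnt_dvd N t (p ^ 2) (Nat.pos_of_ne_zero (by positivity))).trans ?_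
    have h3 : ((p : ℝ)) ^ 2 ≤ 2 * N := by exact_mod_cast hp.2
    push_cast
    rw [← div_eq_mul_inv, div_add_one (by positivity)]
    apply div_le_div_of_nonneg_right _ (by positivity)
    linarith
  refine (sum_le_sum h2).trans ?_
  rw [← mul_sum, mul_div_assoc, ]
  have h3 : ∑ p ∈ P, ((p : ℝ) ^ 2)⁻¹ ≤ ∑ p ∈ Ioc z (z + 2 * N), ((p : ℝ) ^ 2)⁻¹ := by
    rw [hP]
    exact sum_le_sum_of_subset_of_nonneg (filter_subset _ _) fun p _ _ => by positivity
  have h4 : ∑ p ∈ Ioc z (z + 2 * N), ((p : ℝ) ^ 2)⁻¹ ≤ (z : ℝ)⁻¹ - ((z + 2 * N : ℕ) : ℝ)⁻¹ :=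
    sum_Ioc_inv_sq_le_sub (by omega) (by omega)
  have h5 : (0 : ℝ) ≤ ((z + 2 * N : ℕ) : ℝ)⁻¹ := by positivity
  have h6 : ∑ p ∈ P, ((p : ℝ) ^ 2)⁻¹ ≤ (z : ℝ)⁻¹ := by linarith
  calc 3 * (N : ℝ) * ∑ p ∈ P, ((p : ℝ) ^ 2)⁻¹ ≤ 3 * N * (z : ℝ)⁻¹ := mul_le_mul_of_nonneg_left h6 (by positivity)
    _ = 3 * (N / z) := by rw [mul_assoc, ← div_eq_mul_inv]

end Pool.Agent.H528.Gam
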