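import Mathlib
import Pool.Agent.H528.Nsq
import Pool.Graph.R_seed8.H442R2.EHI.PntErr
import Pool.Graph.R_seed8.Helper923.HMertens

/-! The mean value of `Γ` over rough numbers. -/

set_option autoImplicit false

namespace Pool.Agent.H528.Avg

open Finset Filter
open Pool.Agent.Y822
open Pool.Agent.H528.Stp Pool.Agent.H528.Gam

/-- primes in `(z, N]` -/
noncomputable def PR (z N : ℕ) : Finset ℕ := (Ioc z N).filter Nat.Prime

lemma mem_PR {z N p : ℕ} : p ∈ PR z N ↔ (z < p ∧ p ≤ N) ∧ p.Prime := by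
  unfold PR
  rw [mem_filter, mem_Ioc]

/-- theta at integers -/
noncomputable def th (m : ℕ) : ℝ := ∑ p ∈ PR 0 m, Real.log p

lemma th_eq (m : ℕ) : th m = Chebyshev.theta (m : ℝ) := by
  unfold th PR
  rw [Chebyshev.theta, Nat.floor_natCast]

lemma th_nonneg (m : ℕ) : 0 ≤ th m := sum_nonneg fun p _ => log_nn p

lemma th_le (m : ℕ) : th m ≤ 2 * m := by
  rw [th_eq]
  have h := Chebyshev.theta_le_log4_mul_x (x := (m : ℝ)) (by positivity)
  have h3 : Real.log 4 ≤ 2 := by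
    have : (4 : ℝ) = 2 ^ 2 := by norm_num
    rw [this, Real.log_pow]
    have := Real.log_two_lt_d9
    push_cast
    linarith
  have h4 : (0 : ℝ) ≤ m := Nat.cast_nonneg m
  nlinarith

lemma sum_PR_sub {z m : ℕ} (h : z ≤ m) (F : ℕ → ℝ) : ∑ p ∈ PR z m, F p = ∑ p ∈ PR 0 m, F p - ∑ p ∈ PR 0 z, F p := by
  have h1 : PR 0 m = PR 0 z ∪ PR z m := by
    ext p
    rw [mem_union, mem_PR, mem_PR, mem_PR]
    constructor
    · rintro ⟨⟨a, b⟩, c⟩
      rcases Nat.lt_or_ge z p with h2 | h2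
      · exact Or.inr ⟨⟨h2, b⟩, c⟩
      · exact Or.inl ⟨⟨a, h2⟩, c⟩
    · rintro (⟨⟨a, b⟩, c⟩ | ⟨⟨a, b⟩, c⟩)
      · exact ⟨⟨a, b.trans h⟩, c⟩
      · exact ⟨⟨by omega, b⟩, c⟩
  have h2 : Disjoint (PR 0 z) (PR z m) := by
    rw [disjoint_left]
    intro p hp hp'
    rw [mem_PR] at hp hp'
    omega
  rw [h1, sum_union h2]
  ring

/-- the double sum -/
noncomputable def TT (z N : ℕ) : ℝ := ∑ p ∈ PR z N, ∑ q ∈ (PR z N).filter (fun q => p * q ≤ N), Real.log p * Real.log q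

lemma TT_eq {z N : ℕ} (hz : 1 ≤ z) (hzN : z * z ≤ N) :
    TT z N = ∑ p ∈ PR z (N / z), Real.log p * (th (N / p) - th z) := by
  have hzz : z ≤ N / z := by rw [Nat.le_div_iff_mul_le (by omega)]; exact hzN
  have hzN' : z ≤ N := le_trans (Nat.le_mul_self z) hzN
  have h1 : PR z (N / z) ⊆ PR z N := by
    intro p hp
    rw [mem_PR] at hp ⊢
    exact ⟨⟨hp.1.1, hp.1.2.trans (Nat.div_le_self N z)⟩, hp.2⟩
  unfold TT
  rw [← sum_subset h1]
  · refine sum_congr rfl fun p hp => ?_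
    rw [mem_PR] at hp
    rw [← mul_sum]
    congr 1
    have hp0 : 0 < p := hp.2.pos
    have h2 : z ≤ N / p := by
      rw [Nat.le_div_iff_mul_le hp0]
      have := hp.1.2
      rw [Nat.le_div_iff_mul_le (by omega)] at this
      rw [mul_comm]; exact this
    have h3 : (PR z N).filter (fun q => p * q ≤ N) = PR z (N / p) := by
      ext q
      rw [mem_filter, mem_PR, mem_PR, Nat.le_div_iff_mul_le hp0]
      constructor
      · rintro ⟨⟨⟨a, b⟩, c⟩, d⟩
        exact ⟨⟨a, by rw [mul_comm]; exact d⟩, c⟩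
      · rintro ⟨⟨a, b⟩, c⟩
        exact ⟨⟨⟨a, le_trans (Nat.le_mul_of_pos_right q hp0) b⟩, c⟩, by rw [mul_comm]; exact b⟩
    rw [h3, sum_PR_sub h2]
    rfl
  · intro p hp hp'
    refine sum_eq_zero fun q hq => ?_
    exfalso
    rw [mem_PR] at hp hp'
    rw [mem_filter, mem_PR] at hq
    apply hp'
    refine ⟨⟨hp.1.1, ?_⟩, hp.2⟩
    rw [Nat.le_div_iff_mul_le (by omega)]
    exact le_trans (Nat.mul_le_mul_left p hq.1.1.1.le) hq.2

/-- the double sum, asymptotically -/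
lemma TT_bd : ∃ C : ℝ, 0 < C ∧ ∀ z N : ℕ, 2 ≤ z → z * z ≤ N →
    TT z N ≤ N * (1 + C / Real.log z) * (Real.log N - 2 * Real.log z + C) ∧
    (C ≤ Real.log z → C ≤ Real.log N - 2 * Real.log z →
    N * (1 - C / Real.log z) * (Real.log N - 2 * Real.log z - C) - 6 * N ≤ TT z N) := by
  obtain ⟨C1, hC1, hth⟩ := Pool.Agent.H442R2.EHI.PntErrAux.thetaU 1
  obtain ⟨C2, hM⟩ := Pool.Agent.Helper923.HMertens.mertens_log
  have hC2 : 0 ≤ C2 := (abs_nonneg _).trans (hM 1 le_rfl)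
  obtain ⟨C, hC⟩ : ∃ C : ℝ, C = C1 + 2 * C2 + 2 := ⟨_, rfl⟩
  refine ⟨C, by rw [hC]; linarith, ?_⟩
  intro z N hz hzN
  have hz0 : (0 : ℝ) < z := by exact_mod_cast (by omega : 0 < z)
  have hN1 : 1 ≤ N := by
    have : 1 ≤ z * z := Nat.one_le_iff_ne_zero.2 (by positivity)
    omega
  have hN0 : (0 : ℝ) < N := by exact_mod_cast hN1
  have hlz : 0 < Real.log z := Real.log_pos (by exact_mod_cast (by omega : 1 < z))
  have hzz : z ≤ N / z := by rw [Nat.le_div_iff_mul_le (by omega)]; exact hzN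
  obtain ⟨MM, hMM⟩ : ∃ MM : ℝ, MM = ∑ p ∈ PR z (N / z), Real.log p / p := ⟨_, rfl⟩
  -- Mertens
  have hPR : ∀ m : ℕ, ∑ p ∈ PR 0 m, Real.log p / p = ∑ p ∈ (Finset.Icc 1 m).filter Nat.Prime, Real.log p / p := by
    intro m
    refine sum_congr ?_ fun _ _ => rfl
    ext p
    rw [mem_PR, mem_filter, mem_Icc]
    rfl
  have hNz1 : 1 ≤ N / z := by omega
  have m1 := abs_le.1 (hM (N / z) hNz1)
  have m2 := abs_le.1 (hM z (by omega))
  rw [← hPR] at m1 m2
  have m3 : MM = ∑ p ∈ PR 0 (N / z), Real.log p / p - ∑ p ∈ PR 0 z, Real.log p / p := by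
    rw [hMM]; exact sum_PR_sub hzz _
  have m4 : Real.log ((N / z : ℕ) : ℝ) ≤ Real.log N - Real.log z := by
    rw [← Real.log_div hN0.ne' hz0.ne']
    apply Real.log_le_log (by exact_mod_cast hNz1)
    exact Nat.cast_div_le
  have m5 : Real.log N - Real.log z - 1 ≤ Real.log ((N / z : ℕ) : ℝ) := by
    have h1 : (N : ℝ) / z ≤ 2 * ((N / z : ℕ) : ℝ) := by
      have h2 : N < N / z * z + z := Nat.lt_div_mul_add (by omega)
      have h3 : (N : ℝ) < (N / z : ℕ) * z + z := by exact_mod_cast h2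
      have h4 : (1 : ℝ) ≤ (N / z : ℕ) := by exact_mod_cast hNz1
      rw [div_le_iff₀ hz0]
      nlinarith
    have h2 : Real.log ((N : ℝ) / z) ≤ Real.log (2 * ((N / z : ℕ) : ℝ)) :=
      Real.log_le_log (by positivity) h1
    have h4 : (0 : ℝ) < (N / z : ℕ) := by exact_mod_cast hNz1
    rw [Real.log_div hN0.ne' hz0.ne', Real.log_mul (by norm_num) h4.ne'] at h2
    have := Real.log_two_lt_d9
    linarith
  have hMU : MM ≤ Real.log N - 2 * Real.log z + C := by rw [hC]; linarith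
  have hML : Real.log N - 2 * Real.log z - C ≤ MM := by rw [hC]; linarith
  have hMM0 : 0 ≤ MM := by
    rw [hMM]
    exact sum_nonneg fun p _ => div_nonneg (log_nn p) (Nat.cast_nonneg p)
  -- theta
  have hthb : ∀ p ∈ PR z (N / z), |th (N / p) - ((N / p : ℕ) : ℝ)| ≤ C1 / Real.log z * (N / p) := by
    intro p hp
    rw [mem_PR] at hp
    have hp0 : 0 < p := hp.2.pos
    have hp0' : (0 : ℝ) < p := by exact_mod_cast hp0
    have h2 : z ≤ N / p := by
      rw [Nat.le_div_iff_mul_le hp0]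
      have := hp.1.2
      rw [Nat.le_div_iff_mul_le (by omega)] at this
      rw [mul_comm]; exact this
    have h3 := hth (N / p) (by omega)
    rw [← th_eq, pow_one] at h3
    refine h3.trans ?_
    have h4 : Real.log z ≤ Real.log ((N / p : ℕ) : ℝ) := Real.log_le_log hz0 (by exact_mod_cast h2)
    have h5 : ((N / p : ℕ) : ℝ) ≤ N / p := Nat.cast_div_le
    have h6 : ((N / p : ℕ) : ℝ) / Real.log ((N / p : ℕ) : ℝ) ≤ (N / p) / Real.log z :=
      div_le_div₀ (by positivity) h5 hlz h4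
    calc C1 * (((N / p : ℕ) : ℝ) / Real.log ((N / p : ℕ) : ℝ)) ≤ C1 * ((N / p) / Real.log z) :=
          mul_le_mul_of_nonneg_left h6 hC1.le
      _ = _ := by ring
  rw [TT_eq (by omega) hzN]
  constructor
  · have h1 : ∀ p ∈ PR z (N / z), Real.log p * (th (N / p) - th z) ≤ N * (1 + C / Real.log z) * (Real.log p / p) := by
      intro p hp
      have h2 := (abs_le.1 (hthb p hp)).2
      rw [mem_PR] at hp
      have hp0' : (0 : ℝ) < p := by exact_mod_cast hp.2.pos
      have h5 : ((N / p : ℕ) : ℝ) ≤ N / p := Nat.cast_div_le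
      have h6 := th_nonneg z
      have h7 : C1 / Real.log z * (N / p) ≤ C / Real.log z * (N / p) := by
        apply mul_le_mul_of_nonneg_right _ (by positivity)
        apply div_le_div_of_nonneg_right _ hlz.le
        rw [hC]; linarith
      calc Real.log p * (th (N / p) - th z) ≤ Real.log p * ((1 + C / Real.log z) * (N / p)) := by
            apply mul_le_mul_of_nonneg_left _ (log_nn p)
            linarith
        _ = _ := by ring
    refine (sum_le_sum h1).trans ?_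
    rw [← mul_sum, ← hMM]
    apply mul_le_mul_of_nonneg_left hMU
    have : 0 ≤ C / Real.log z := by rw [hC]; positivity
    positivity
  · intro hc1 hc2
    have h1 : ∀ p ∈ PR z (N / z), N * (1 - C / Real.log z) * (Real.log p / p) - (1 + 2 * z) * Real.log p ≤
        Real.log p * (th (N / p) - th z) := by
      intro p hp
      have h2 := (abs_le.1 (hthb p hp)).1
      rw [mem_PR] at hp
      have hp0 : 0 < p := hp.2.pos
      have hp0' : (0 : ℝ) < p := by exact_mod_cast hp0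
      have h5 : (N : ℝ) / p - 1 ≤ ((N / p : ℕ) : ℝ) := by
        have h3 : N < N / p * p + p := Nat.lt_div_mul_add (by omega)
        have h4 : (N : ℝ) < (N / p : ℕ) * p + p := by exact_mod_cast h3
        have h6 : (N : ℝ) / p ≤ ((N / p : ℕ) : ℝ) + 1 := by
          rw [div_le_iff₀ hp0']
          linarith
        linarith
      have h6 := th_le z
      have h7 : C1 / Real.log z * (N / p) ≤ C / Real.log z * (N / p) := by
        apply mul_le_mul_of_nonneg_right _ (by positivity)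
        apply div_le_div_of_nonneg_right _ hlz.le
        rw [hC]; linarith
      have h8 : (1 - C / Real.log z) * (N / p) - (1 + 2 * z) ≤ th (N / p) - th z := by linarith
      calc N * (1 - C / Real.log z) * (Real.log p / p) - (1 + 2 * z) * Real.log p =
            Real.log p * ((1 - C / Real.log z) * (N / p) - (1 + 2 * z)) := by ring
        _ ≤ _ := mul_le_mul_of_nonneg_left h8 (log_nn p)
    refine le_trans ?_ (sum_le_sum h1)
    rw [sum_sub_distrib, ← mul_sum, ← mul_sum, ← hMM]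
    have h2 : ∑ p ∈ PR z (N / z), Real.log p ≤ 2 * (N / z : ℕ) := by
      refine le_trans ?_ (th_le (N / z))
      unfold th
      refine sum_le_sum_of_subset_of_nonneg ?_ fun p _ _ => log_nn p
      intro p hp
      rw [mem_PR] at hp ⊢
      exact ⟨⟨by omega, hp.1.2⟩, hp.2⟩
    have h3 : (1 + 2 * (z : ℝ)) * ∑ p ∈ PR z (N / z), Real.log p ≤ 6 * N := by
      have h4 : ((N / z : ℕ) : ℝ) ≤ N / z := Nat.cast_div_le
      have hz1 : (1 : ℝ) ≤ z := by exact_mod_cast (by omega : 1 ≤ z)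
      calc (1 + 2 * (z : ℝ)) * ∑ p ∈ PR z (N / z), Real.log p ≤ (3 * z) * (2 * (N / z)) := by
            apply mul_le_mul _ _ (sum_nonneg fun p _ => log_nn p) (by positivity)
            · linarith
            · linarith
        _ = 6 * N := by field_simp; ring
    have h4 : 0 ≤ 1 - C / Real.log z := by
      rw [sub_nonneg, div_le_one hlz]
      exact hc1
    have h5 : N * (1 - C / Real.log z) * (Real.log N - 2 * Real.log z - C) ≤ N * (1 - C / Real.log z) * MM :=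
      mul_le_mul_of_nonneg_left hML (by positivity)
    linarith

/-- ordered pairs of primes -/
noncomputable def DD (z N : ℕ) : Finset (ℕ × ℕ) :=
  (PR z N ×ˢ PR z N).filter (fun x => x.1 < x.2 ∧ x.1 * x.2 ≤ N)

lemma mem_DD {z N : ℕ} {x : ℕ × ℕ} : x ∈ DD z N ↔
    ((z < x.1 ∧ x.1.Prime) ∧ (z < x.2 ∧ x.2.Prime)) ∧ x.1 < x.2 ∧ x.1 * x.2 ≤ N := by
  unfold DD
  rw [mem_filter, mem_product, mem_PR, mem_PR]
  constructor
  · rintro ⟨⟨⟨⟨a, b⟩, c⟩, ⟨d, e⟩, f⟩, g⟩
    exact ⟨⟨⟨a, c⟩, d, f⟩, g⟩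
  · rintro ⟨⟨⟨a, c⟩, d, f⟩, g⟩
    refine ⟨⟨⟨⟨a, ?_⟩, c⟩, ⟨d, ?_⟩, f⟩, g⟩
    · exact le_trans (Nat.le_mul_of_pos_right _ f.pos) g.2
    · exact le_trans (Nat.le_mul_of_pos_left _ c.pos) g.2

lemma sum_DD (z N : ℕ) : 2 * ∑ x ∈ DD z N, Real.log x.1 * Real.log x.2 =
    TT z N - ∑ p ∈ (PR z N).filter (fun p => p * p ≤ N), Real.log p * Real.log p := by
  classical
  have e1 : TT z N = ∑ x ∈ (PR z N ×ˢ PR z N).filter (fun x => x.1 * x.2 ≤ N), Real.log x.1 * Real.log x.2 := by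
    unfold TT
    rw [sum_filter, sum_product]
    refine sum_congr rfl fun p _ => ?_
    rw [sum_filter]
  obtain ⟨S, hS⟩ : ∃ S : Finset (ℕ × ℕ), S = (PR z N ×ˢ PR z N).filter (fun x => x.1 * x.2 ≤ N) := ⟨_, rfl⟩
  have hsplit : S = (DD z N ∪ (DD z N).image Prod.swap) ∪
      ((PR z N).filter (fun p => p * p ≤ N)).image (fun p => (p, p)) := by
    ext ⟨p, q⟩
    rw [mem_union, mem_union, mem_image, mem_image, hS, mem_filter, mem_product]
    simp only [mem_DD, mem_filter]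
    constructor
    · rintro ⟨⟨h1, h2⟩, h3⟩
      rw [mem_PR] at h1 h2
      rcases Nat.lt_trichotomy p q with h | h | h
      · exact Or.inl (Or.inl ⟨⟨⟨h1.1.1, h1.2⟩, h2.1.1, h2.2⟩, h, h3⟩)
      · subst h
        exact Or.inr ⟨p, ⟨mem_PR.2 h1, h3⟩, rfl⟩
      · refine Or.inl (Or.inr ⟨(q, p), ⟨⟨⟨h2.1.1, h2.2⟩, h1.1.1, h1.2⟩, h, by rw [mul_comm]; exact h3⟩, rfl⟩)
    · rintro ((h | ⟨⟨a, b⟩, h, h4⟩) | ⟨a, h, h4⟩)
      · have h5 := (mem_filter.1 (mem_DD.2 h : (p, q) ∈ DD z N)).1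
        rw [mem_product] at h5
        exact ⟨h5, h.2.2⟩
      · rw [Prod.swap_prod_mk, Prod.mk.injEq] at h4
        obtain ⟨rfl, rfl⟩ := h4
        have h5 := (mem_filter.1 (mem_DD.2 h)).1
        rw [mem_product] at h5
        exact ⟨⟨h5.2, h5.1⟩, by rw [mul_comm]; exact h.2.2⟩
      · rw [Prod.mk.injEq] at h4
        obtain ⟨rfl, rfl⟩ := h4
        exact ⟨⟨h.1, h.1⟩, h.2⟩
  have hd1 : Disjoint (DD z N) ((DD z N).image Prod.swap) := by
    rw [disjoint_left]
    rintro ⟨p, q⟩ h1 h2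
    rw [mem_image] at h2
    obtain ⟨⟨a, b⟩, h3, h4⟩ := h2
    rw [Prod.swap_prod_mk, Prod.mk.injEq] at h4
    obtain ⟨rfl, rfl⟩ := h4
    have g1 := (mem_DD.1 h1).2.1
    have g2 := (mem_DD.1 h3).2.1
    simp only at g1 g2
    omega
  have hd2 : Disjoint (DD z N ∪ (DD z N).image Prod.swap) (((PR z N).filter (fun p => p * p ≤ N)).image (fun p => (p, p))) := by
    rw [disjoint_left]
    rintro ⟨p, q⟩ h1 h2
    rw [mem_image] at h2
    obtain ⟨a, h3, h4⟩ := h2
    rw [Prod.mk.injEq] at h4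
    obtain ⟨rfl, rfl⟩ := h4
    rw [mem_union, mem_image] at h1
    rcases h1 with h1 | ⟨⟨c, b⟩, h5, h6⟩
    · have := (mem_DD.1 h1).2.1
      simp only at this
      omega
    · rw [Prod.swap_prod_mk, Prod.mk.injEq] at h6
      obtain ⟨rfl, rfl⟩ := h6
      have := (mem_DD.1 h5).2.1
      simp only at this
      omega
  rw [e1, ← hS, hsplit, sum_union hd2, sum_union hd1, sum_image (fun x _ y _ h => Prod.swap_injective h),
    sum_image (fun x _ y _ h => (Prod.mk.injEq _ _ _ _ ▸ h).1)]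
  simp only [Prod.fst_swap, Prod.snd_swap]
  have h3 : ∑ x ∈ DD z N, Real.log x.2 * Real.log x.1 = ∑ x ∈ DD z N, Real.log x.1 * Real.log x.2 :=
    sum_congr rfl fun x _ => mul_comm _ _
  rw [h3]
  ring

end Pool.Agent.H528.Avg
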