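import Mathlib
import Pool.Agent.H528.Avg

/-! The mean value of `Γ` over rough numbers, the asymptotic formula. -/

set_option autoImplicit false

namespace Pool.Agent.H528.Avg

open Finset Filter
open Pool.Agent.Y822
open Pool.Agent.H528.Stp Pool.Agent.H528.Gam

/-- the mean value -/
noncomputable def SG (z N : ℕ) : ℝ := ∑ n ∈ Icc 1 N, ro z n * Gm N n

lemma Ro_prime {z p : ℕ} (hp : p.Prime) (hz : z < p) : Ro z p := by
  intro q hq hqz hqp
  have := (Nat.prime_dvd_prime_iff_eq hq hp).1 hqp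
  omega

lemma Ro_mul {z p q : ℕ} (hp : Ro z p) (hq : Ro z q) : Ro z (p * q) := by
  intro l hl hlz hlpq
  rcases (Nat.Prime.dvd_mul hl).1 hlpq with h | h
  · exact hp l hl hlz h
  · exact hq l hl hlz h

lemma ro_of {z m : ℕ} (h : Ro z m) : ro z m = 1 := by unfold ro; rw [if_pos h]

/-- the decomposition -/
lemma SG_split {z N : ℕ} (hz : 1 ≤ z) (hN : 2 ≤ N) :
    (∑ p ∈ PR z N, (2 * (Real.log p / Real.log N) - (Real.log p / Real.log N) ^ 2)) +
      (TT z N - ∑ p ∈ (PR z N).filter (fun p => p * p ≤ N), Real.log p * Real.log p) / Real.log N ^ 2 ≤ SG z N ∧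
    SG z N ≤ (∑ p ∈ PR z N, (2 * (Real.log p / Real.log N) - (Real.log p / Real.log N) ^ 2)) +
      (TT z N - ∑ p ∈ (PR z N).filter (fun p => p * p ≤ N), Real.log p * Real.log p) / Real.log N ^ 2 +
      2 + 2 * (3 * N / z) := by
  classical
  have hN1 : (1 : ℝ) < N := by exact_mod_cast (by omega : 1 < N)
  have hL : 0 < Real.log N := Real.log_pos hN1
  obtain ⟨E, hE⟩ : ∃ E : Finset ℕ, E = (DD z N).image (fun x => x.1 * x.2) := ⟨_, rfl⟩
  have hPp : ∀ x ∈ DD z N, (x.1 * x.2).primeFactors = {x.1, x.2} ∧ x.1 ≠ x.2 := by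
    intro x hx
    obtain ⟨⟨⟨_, hp⟩, ⟨_, hq⟩⟩, h3, _⟩ := mem_DD.1 hx
    refine ⟨?_, h3.ne⟩
    rw [Nat.primeFactors_mul hp.ne_zero hq.ne_zero, hp.primeFactors, hq.primeFactors]
    rfl
  have hinj : Set.InjOn (fun x : ℕ × ℕ => x.1 * x.2) (DD z N : Set (ℕ × ℕ)) := by
    intro x hx y hy hxy
    rw [mem_coe] at hx hy
    simp only at hxy
    have h1 := (hPp x hx).1
    have h2 := (hPp y hy).1
    rw [hxy, h2] at h1
    have hx3 := (mem_DD.1 hx).2.1
    have hy3 := (mem_DD.1 hy).2.1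
    have e1 : y.1 ∈ ({x.1, x.2} : Finset ℕ) := by rw [← h1]; simp
    have e2 : y.2 ∈ ({x.1, x.2} : Finset ℕ) := by rw [← h1]; simp
    rw [mem_insert, mem_singleton] at e1 e2
    rcases e1 with e1 | e1 <;> rcases e2 with e2 | e2
    · omega
    · exact Prod.ext e1.symm e2.symm
    · omega
    · omega
  have hdisj : Disjoint (PR z N) E := by
    rw [disjoint_left]
    intro p hp hpE
    rw [hE, mem_image] at hpE
    obtain ⟨x, hx, hxp⟩ := hpE
    obtain ⟨⟨⟨_, h1⟩, ⟨_, h2⟩⟩, _⟩ := mem_DD.1 hx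
    rw [mem_PR, ← hxp] at hp
    exact Nat.not_prime_mul h1.ne_one h2.ne_one hp.2
  have hEm : ∀ n ∈ E, 1 ≤ n ∧ n ≤ N ∧ Ro z n := by
    intro n hn
    rw [hE, mem_image] at hn
    obtain ⟨x, hx, rfl⟩ := hn
    obtain ⟨⟨⟨z1, h1⟩, ⟨z2, h2⟩⟩, h3, h4⟩ := mem_DD.1 hx
    exact ⟨Nat.mul_pos h1.pos h2.pos, h4, Ro_mul (Ro_prime h1 z1) (Ro_prime h2 z2)⟩
  have hPm : ∀ n ∈ PR z N, 1 ≤ n ∧ n ≤ N ∧ Ro z n := by
    intro p hp
    rw [mem_PR] at hp
    exact ⟨hp.2.pos, hp.1.2, Ro_prime hp.2 hp.1.1⟩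
  have hsubset : PR z N ∪ E ⊆ Icc 1 N := by
    intro n hn
    rw [mem_union] at hn
    rw [mem_Icc]
    rcases hn with hn | hn
    · exact ⟨(hPm n hn).1, (hPm n hn).2.1⟩
    · exact ⟨(hEm n hn).1, (hEm n hn).2.1⟩
  have hterm0 : ∀ n ∈ Icc 1 N, 0 ≤ ro z n * Gm N n ∧ ro z n * Gm N n ≤ 2 := by
    intro n hn
    rw [mem_Icc] at hn
    obtain ⟨g1, g2⟩ := Gm_bd hN hn.1 (by omega : n ≤ 2 * N)
    have g3 := ro_nonneg z n
    have g4 := ro_le_one z n
    refine ⟨mul_nonneg g3 g1, ?_⟩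
    calc ro z n * Gm N n ≤ 1 * Gm N n := mul_le_mul_of_nonneg_right g4 g1
      _ ≤ 2 := by linarith
  have hmain : ∑ n ∈ PR z N ∪ E, ro z n * Gm N n =
      (∑ p ∈ PR z N, (2 * (Real.log p / Real.log N) - (Real.log p / Real.log N) ^ 2)) +
      (TT z N - ∑ p ∈ (PR z N).filter (fun p => p * p ≤ N), Real.log p * Real.log p) / Real.log N ^ 2 := by
    rw [sum_union hdisj]
    congr 1
    · refine sum_congr rfl fun p hp => ?_
      rw [ro_of (hPm p hp).2.2, one_mul]
      rw [mem_PR] at hp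
      exact Gm_one_pf hp.2.pos hp.2.primeFactors
    · rw [← sum_DD, hE, sum_image hinj, mul_sum, sum_div]
      refine sum_congr rfl fun x hx => ?_
      have hx2 : x.1 * x.2 ∈ E := by rw [hE, mem_image]; exact ⟨x, hx, rfl⟩
      rw [ro_of (hEm _ hx2).2.2, one_mul, Gm_two_pf (hEm _ hx2).1 (hPp x hx).2 (hPp x hx).1]
      field_simp
  have hsum : SG z N = ∑ n ∈ PR z N ∪ E, ro z n * Gm N n + ∑ n ∈ Icc 1 N \ (PR z N ∪ E), ro z n * Gm N n := by
    unfold SG
    rw [add_comm, sum_sdiff hsubset]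
  rw [hsum, hmain]
  have hrest0 : 0 ≤ ∑ n ∈ Icc 1 N \ (PR z N ∪ E), ro z n * Gm N n :=
    sum_nonneg fun n hn => (hterm0 n (mem_sdiff.1 hn).1).1
  have hrest1 : ∑ n ∈ Icc 1 N \ (PR z N ∪ E), ro z n * Gm N n ≤ 2 + 2 * (3 * N / z) := by
    have h1 : ∀ n ∈ Icc 1 N \ (PR z N ∪ E), ro z n * Gm N n ≤
        (if n = 1 then (2 : ℝ) else 0) + (if (Ro z (n + 0) ∧ ¬ Squarefree (n + 0)) then (2 : ℝ) else 0) := by
      intro n hn
      rw [Finset.mem_sdiff, mem_union] at hn
      obtain ⟨hn1, hn2⟩ := hn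
      push Not at hn2
      obtain ⟨g1, g2⟩ := hterm0 n hn1
      rw [mem_Icc] at hn1
      by_cases hone : n = 1
      · rw [if_pos hone]
        have : (0 : ℝ) ≤ (if (Ro z (n + 0) ∧ ¬ Squarefree (n + 0)) then (2 : ℝ) else 0) := by split_ifs <;> norm_num
        linarith
      · rw [if_neg hone, zero_add]
        by_cases hro : Ro z n
        · by_cases hsq : Squarefree n
          · rcases pf_cases hn1.1 with h | ⟨p, hp, hpm, h⟩ | ⟨p, q, hpq, hp, hq, hpqm, h⟩ | h
            · exact absurd h hone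
            · exfalso
              have h2 := Nat.prod_primeFactors_of_squarefree hsq
              rw [h, prod_singleton] at h2
              subst h2
              refine hn2.1 (mem_PR.2 ⟨⟨?_, hn1.2⟩, hp⟩)
              by_contra hz2
              push Not at hz2
              exact hro p hp hz2 (dvd_refl p)
            · exfalso
              have h2 := Nat.prod_primeFactors_of_squarefree hsq
              rw [h, prod_pair hpq] at h2
              subst h2
              have hzp : z < p := by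
                by_contra hz2
                push Not at hz2
                exact hro p hp hz2 (dvd_mul_right p q)
              have hzq : z < q := by
                by_contra hz2
                push Not at hz2
                exact hro q hq hz2 (dvd_mul_left q p)
              apply hn2.2
              rw [hE, mem_image]
              rcases Nat.lt_or_gt_of_ne hpq with h3 | h3
              · exact ⟨(p, q), mem_DD.2 ⟨⟨⟨hzp, hp⟩, hzq, hq⟩, h3, hn1.2⟩, rfl⟩
              · exact ⟨(q, p), mem_DD.2 ⟨⟨⟨hzq, hq⟩, hzp, hp⟩, h3, by rw [mul_comm]; exact hn1.2⟩, mul_comm _ _⟩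
            · rw [Gm_three_pf hn1.1 h, mul_zero]
              split_ifs <;> norm_num
          · rw [if_pos ⟨hro, hsq⟩]
            exact g2
        · have : ro z n = 0 := by unfold ro; rw [if_neg hro]
          rw [this, zero_mul]
          split_ifs <;> norm_num
    refine (sum_le_sum h1).trans ?_
    rw [sum_add_distrib]
    have h2 : ∑ n ∈ Icc 1 N \ (PR z N ∪ E), (if n = 1 then (2 : ℝ) else 0) ≤ 2 := by
      rw [sum_ite_eq']
      split_ifs <;> norm_num
    have h3 : ∑ n ∈ Icc 1 N \ (PR z N ∪ E), (if (Ro z (n + 0) ∧ ¬ Squarefree (n + 0)) then (2 : ℝ) else 0) ≤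
        2 * (3 * N / z) := by
      calc ∑ n ∈ Icc 1 N \ (PR z N ∪ E), (if (Ro z (n + 0) ∧ ¬ Squarefree (n + 0)) then (2 : ℝ) else 0) ≤
            ∑ n ∈ Icc 1 N, (if (Ro z (n + 0) ∧ ¬ Squarefree (n + 0)) then (2 : ℝ) else 0) :=
            sum_le_sum_of_subset_of_nonneg sdiff_subset fun n _ _ => by split_ifs <;> norm_num
        _ = 2 * (((Icc 1 N).filter (fun n => Ro z (n + 0) ∧ ¬ Squarefree (n + 0))).card : ℝ) := by
            rw [← sum_filter, sum_const, nsmul_eq_mul, mul_comm]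
        _ ≤ _ := mul_le_mul_of_nonneg_left (cnt_nsq hz (Nat.zero_le N)) (by norm_num)
    linarith
  constructor <;> linarith

lemma hx_a {x L : ℝ} (hx : 0 < x) (hx1 : x ≤ 1) (hL : 2 ≤ L) : 2 ≤ 200 / x * L := by
  have h1 : 200 ≤ 200 / x := by rw [le_div_iff₀ hx]; linarith
  calc (2 : ℝ) ≤ 200 * 2 := by norm_num
    _ ≤ 200 / x * L := mul_le_mul h1 hL (by norm_num) (by linarith)

lemma hx_b {a : ℝ} (h0 : 0 ≤ a) (h1 : a ≤ 1) : a ≤ 2 * a - a ^ 2 := by nlinarith

lemma hx_c {a e : ℝ} (h0 : 0 ≤ a) (he : 0 < e) : 2 * a - a ^ 2 ≤ (1 + e) * a + 1 := by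
  have h1 : 0 ≤ e * a := mul_nonneg he.le h0
  have h2 := sq_nonneg (1 - a)
  nlinarith

lemma hx_d {a e : ℝ} (h0 : 0 ≤ a) (h : 1 - e < a) : 2 * a - a ^ 2 ≤ (1 + e) * a + 0 := by
  have h1 : 0 ≤ a * (a - (1 - e)) := mul_nonneg h0 (by linarith)
  nlinarith

lemma hx_e {e x : ℝ} (h0 : 0 < e) (h1 : e ≤ 1 / 4) (hx : 0 < x) : (1 + e) * (1 + x / 16) + x / 200 ≤ 1 + e + x / 8 := by
  have : e * x ≤ 1 / 4 * x := mul_le_mul_of_nonneg_right h1 hx.le
  linarith

lemma hx_f {x : ℝ} (hx : 0 < x) (hx1 : x ≤ 1) : (1 + x / 32) * (1 + x / 32) ≤ 1 + x / 8 := by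
  have : x * x ≤ 1 * x := mul_le_mul_of_nonneg_right hx1 hx.le
  linarith

lemma hx_g {e x : ℝ} (h0 : 0 < e) (hx : 0 < x) (hx1 : x ≤ 1) :
    (1 - 2 * e - x / 8) + x / 64 ≤ (1 - x / 32) * (1 - 2 * e - x / 32) := by
  have h1 : 0 ≤ x * e := by positivity
  have h2 : 0 ≤ x * x := by positivity
  linarith

/-- **the mean value** -/
theorem avg (ε₁ : ℝ) (h0 : 0 < ε₁) (h1 : ε₁ ≤ 1 / 4) (x : ℝ) (hx : 0 < x) (hx1 : x ≤ 1) : ∀ᶠ N : ℕ in atTop, ∀ z : ℕ,
    ε₁ / 2 * Real.log N ≤ Real.log z → Real.log z ≤ ε₁ * Real.log N →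
    |SG z N - 2 * (N / Real.log N)| ≤ (2 * ε₁ + x) * (N / Real.log N) := by
  obtain ⟨C1, hC1, hth⟩ := Pool.Agent.H442R2.EHI.PntErrAux.thetaU 1
  obtain ⟨C2, hC2, hTT⟩ := TT_bd
  have e1 := ev_logN (eventually_ge_atTop (max (max (16 * C1 / x) (64 * C2 / (ε₁ * x))) (max 2 (384 / x))))
  have e2 := ev_logN (ev_pow_exp 1 (ε₁ / 2) (200 / x) (by positivity))
  filter_upwards [e1, e2, eventually_ge_atTop 3] with N f1 f2 hN3 z hz1 hz2
  obtain ⟨L, hLd⟩ : ∃ L : ℝ, L = Real.log N := ⟨_, rfl⟩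
  rw [← hLd] at f1 f2 hz1 hz2 ⊢
  have hN0 : (0 : ℝ) < N := by positivity
  have hN1 : (1 : ℝ) < N := by exact_mod_cast (by omega : 1 < N)
  have hL2 : 2 ≤ L := (le_max_left _ _).trans ((le_max_right _ _).trans f1)
  have hL384 : 384 / x ≤ L := (le_max_right _ _).trans ((le_max_right _ _).trans f1)
  have hLC1 : 16 * C1 / x ≤ L := (le_max_left _ _).trans ((le_max_left _ _).trans f1)
  have hLC2 : 64 * C2 / (ε₁ * x) ≤ L := (le_max_right _ _).trans ((le_max_left _ _).trans f1)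
  have hL0 : 0 < L := by linarith
  rw [pow_one] at f2
  have hNe : (N : ℝ) = Real.exp L := by rw [hLd, Real.exp_log hN0]
  have hz0 : (0 : ℝ) < z := by
    have h2 : 0 < ε₁ / 2 * L := by positivity
    rcases Nat.eq_zero_or_pos z with rfl | h
    · simp at hz1
      linarith
    · exact_mod_cast h
  have hzu : (z : ℝ) ≤ Real.exp (ε₁ * L) := by rwa [← Real.log_le_iff_le_exp hz0]
  have hzl : Real.exp (ε₁ / 2 * L) ≤ z := by rwa [← Real.le_log_iff_exp_le hz0]
  have hz2' : 2 ≤ z := by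
    have h2 : 2 ≤ Real.exp (ε₁ / 2 * L) := le_trans (hx_a hx hx1 hL2) f2
    exact_mod_cast h2.trans hzl
  have hlz0 : 0 < Real.log z := Real.log_pos (by exact_mod_cast (by omega : 1 < z))
  -- `M = N / L`
  obtain ⟨M, hM⟩ : ∃ M : ℝ, M = N / L := ⟨_, rfl⟩
  rw [← hM]
  have hM0 : 0 < M := by rw [hM]; positivity
  -- small quantities
  have small : ∀ t : ℝ, t ≤ 1 - ε₁ / 2 → Real.exp (t * L) ≤ x / 200 * M := by
    intro t ht
    have h2 : Real.exp (t * L) * Real.exp (ε₁ / 2 * L) ≤ N := by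
      rw [← Real.exp_add, hNe]
      apply Real.exp_le_exp.2
      rw [← add_mul]
      calc (t + ε₁ / 2) * L ≤ 1 * L := mul_le_mul_of_nonneg_right (by linarith) hL0.le
        _ = L := one_mul _
    have h3 : Real.exp (t * L) * (200 / x * L) ≤ N :=
      (mul_le_mul_of_nonneg_left f2 (Real.exp_pos _).le).trans h2
    rw [hM]
    have h4 : Real.exp (t * L) * (200 / x * L) = Real.exp (t * L) * 200 * L / x := by ring
    rw [h4, div_le_iff₀ hx] at h3
    rw [← mul_div_assoc, le_div_iff₀ hL0]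
    linarith
  have s1 : (z : ℝ) ≤ x / 200 * M := hzu.trans (small ε₁ (by linarith))
  have s2 : Real.exp ((1 - ε₁) * L) ≤ x / 200 * M := small (1 - ε₁) (by linarith)
  have s3 : (N : ℝ) / z ≤ x / 200 * M := by
    refine le_trans ?_ (small (1 - ε₁ / 2) le_rfl)
    rw [div_le_iff₀ hz0]
    calc (N : ℝ) = Real.exp ((1 - ε₁ / 2) * L) * Real.exp (ε₁ / 2 * L) := by
          rw [← Real.exp_add, hNe]
          congr 1
          ring
      _ ≤ _ := mul_le_mul_of_nonneg_left hzl (Real.exp_pos _).le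
  have s4 : Real.exp (1 / 2 * L) ≤ x / 200 * M := small (1 / 2) (by linarith)
  have s5 : (2 : ℝ) ≤ x / 200 * M := by
    refine le_trans ?_ (small (ε₁ / 2) (by linarith))
    exact le_trans (hx_a hx hx1 hL2) f2
  have hzz : z * z ≤ N := by
    have h2 : ((z * z : ℕ) : ℝ) ≤ N := by
      push_cast
      calc (z : ℝ) * z ≤ Real.exp (ε₁ * L) * Real.exp (ε₁ * L) := mul_le_mul hzu hzu hz0.le (Real.exp_pos _).le
        _ = Real.exp (ε₁ * L + ε₁ * L) := by rw [Real.exp_add]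
        _ ≤ Real.exp L := by
            apply Real.exp_le_exp.2
            have : ε₁ * L ≤ 1 / 4 * L := mul_le_mul_of_nonneg_right h1 hL0.le
            linarith
        _ = N := hNe.symm
    exact_mod_cast h2
  have hzN : z ≤ N := le_trans (Nat.le_mul_self z) hzz
  -- theta
  obtain ⟨t1, t2⟩ := abs_le.1 (hth N (by omega))
  rw [← th_eq, pow_one, ← hLd, ← hM] at t1 t2
  have hC1M : C1 * M ≤ x / 16 * N := by
    rw [hM]
    rw [div_le_iff₀ hx] at hLC1
    rw [← mul_div_assoc, div_le_iff₀ hL0]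
    have : C1 * N ≤ (L * x / 16) * N := mul_le_mul_of_nonneg_right (by linarith) hN0.le
    linarith
  have hNM : (N : ℝ) / L = M := hM.symm
  have hthL : (1 - x / 16) * M ≤ th N / L := by
    rw [le_div_iff₀ hL0, hM]
    have : (1 - x / 16) * (N / L) * L = N - x / 16 * N := by field_simp
    rw [this]
    linarith
  have hthU : th N / L ≤ (1 + x / 16) * M := by
    rw [div_le_iff₀ hL0, hM]
    have : (1 + x / 16) * (N / L) * L = N + x / 16 * N := by field_simp
    rw [this]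
    linarith
  have hthz : th z / L ≤ x / 200 * M := by
    rw [div_le_iff₀ hL0]
    have h2 := th_le z
    have h3 : 2 * (x / 200 * M) ≤ x / 200 * M * L := by
      have h4 : 0 ≤ x / 200 * M := by positivity
      rw [mul_comm _ L]
      exact mul_le_mul_of_nonneg_right hL2 h4
    linarith
  have hPRth : ∑ p ∈ PR z N, Real.log p / L = th N / L - th z / L := by
    rw [← sum_div, sum_PR_sub hzN, sub_div]
    rfl
  -- the primes
  have hlogle : ∀ p ∈ PR z N, 0 ≤ Real.log p / L ∧ Real.log p / L ≤ 1 := by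
    intro p hp
    rw [mem_PR] at hp
    refine ⟨div_nonneg (log_nn p) hL0.le, ?_⟩
    rw [div_le_one hL0, hLd]
    exact Real.log_le_log (by exact_mod_cast hp.2.pos) (by exact_mod_cast hp.1.2)
  have hS1L : (1 - x / 8) * M ≤ ∑ p ∈ PR z N, (2 * (Real.log p / L) - (Real.log p / L) ^ 2) := by
    have h2 : ∑ p ∈ PR z N, Real.log p / L ≤ ∑ p ∈ PR z N, (2 * (Real.log p / L) - (Real.log p / L) ^ 2) := by
      refine sum_le_sum fun p hp => ?_
      obtain ⟨g1, g2⟩ := hlogle p hp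
      exact hx_b g1 g2
    rw [hPRth] at h2
    have h3 : (1 - x / 8) * M = (1 - x / 16) * M - x / 16 * M := by ring
    have h4 : x / 200 * M ≤ x / 16 * M := mul_le_mul_of_nonneg_right (by linarith) hM0.le
    linarith
  have hS1U : ∑ p ∈ PR z N, (2 * (Real.log p / L) - (Real.log p / L) ^ 2) ≤ (1 + ε₁ + x / 8) * M := by
    have h2 : ∑ p ∈ PR z N, (2 * (Real.log p / L) - (Real.log p / L) ^ 2) ≤
        ∑ p ∈ PR z N, ((1 + ε₁) * (Real.log p / L) + (if (p : ℝ) ≤ Real.exp ((1 - ε₁) * L) then (1 : ℝ) else 0)) := by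
      refine sum_le_sum fun p hp => ?_
      obtain ⟨g1, g2⟩ := hlogle p hp
      rw [mem_PR] at hp
      obtain ⟨a, ha⟩ : ∃ a : ℝ, a = Real.log p / L := ⟨_, rfl⟩
      rw [← ha] at g1 g2 ⊢
      split_ifs with h3
      · exact hx_c g1 h0
      · push Not at h3
        have hp0 : (0 : ℝ) < p := by exact_mod_cast hp.2.pos
        have h4 : (1 - ε₁) * L < Real.log p := by rwa [Real.lt_log_iff_exp_lt hp0]
        have h5 : 1 - ε₁ < a := by rw [ha, lt_div_iff₀ hL0]; exact h4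
        exact hx_d g1 h5
    refine h2.trans ?_
    rw [sum_add_distrib, ← mul_sum, hPRth]
    have h3 : ∑ p ∈ PR z N, (if (p : ℝ) ≤ Real.exp ((1 - ε₁) * L) then (1 : ℝ) else 0) ≤ Real.exp ((1 - ε₁) * L) := by
      rw [← sum_filter, sum_const, nsmul_eq_mul, mul_one]
      have h4 : (PR z N).filter (fun p : ℕ => (p : ℝ) ≤ Real.exp ((1 - ε₁) * L)) ⊆ Icc 1 ⌊Real.exp ((1 - ε₁) * L)⌋₊ := by
        intro p hp
        rw [mem_filter, mem_PR] at hp
        rw [mem_Icc]
        exact ⟨hp.1.2.pos, Nat.le_floor hp.2⟩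
      have h5 := card_le_card h4
      rw [Nat.card_Icc, Nat.add_sub_cancel] at h5
      have h6 : (((PR z N).filter (fun p : ℕ => (p : ℝ) ≤ Real.exp ((1 - ε₁) * L))).card : ℝ) ≤
        ⌊Real.exp ((1 - ε₁) * L)⌋₊ := by exact_mod_cast h5
      exact h6.trans (Nat.floor_le (Real.exp_pos _).le)
    have h4 : 0 ≤ th z / L := div_nonneg (th_nonneg z) hL0.le
    have h5 : (1 + ε₁) * (th N / L - th z / L) ≤ (1 + ε₁) * ((1 + x / 16) * M) :=
      mul_le_mul_of_nonneg_left (by linarith) (by linarith)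
    have h6 : (1 + ε₁) * ((1 + x / 16) * M) + x / 200 * M ≤ (1 + ε₁ + x / 8) * M := by
      have : (1 + ε₁) * (1 + x / 16) + x / 200 ≤ 1 + ε₁ + x / 8 := hx_e h0 h1 hx
      calc (1 + ε₁) * ((1 + x / 16) * M) + x / 200 * M = ((1 + ε₁) * (1 + x / 16) + x / 200) * M := by ring
        _ ≤ _ := mul_le_mul_of_nonneg_right this hM0.le
    linarith
  -- the products of two primes
  obtain ⟨T1, T2⟩ := hTT z N hz2' hzz
  rw [← hLd] at T1 T2
  have hc : C2 / Real.log z ≤ x / 32 := by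
    rw [div_le_iff₀ hlz0]
    rw [div_le_iff₀ (by positivity)] at hLC2
    have : x / 32 * (ε₁ / 2 * L) ≤ x / 32 * Real.log z := mul_le_mul_of_nonneg_left hz1 (by positivity)
    linarith
  have hcL : C2 ≤ x / 32 * L := by
    rw [div_le_iff₀ hlz0] at hc
    have : x / 32 * Real.log z ≤ x / 32 * (ε₁ * L) := mul_le_mul_of_nonneg_left hz2 (by positivity)
    have h2 : x / 32 * (ε₁ * L) ≤ x / 32 * L := by
      apply mul_le_mul_of_nonneg_left _ (by positivity)
      calc ε₁ * L ≤ 1 * L := mul_le_mul_of_nonneg_right (by linarith) hL0.le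
        _ = L := one_mul L
    linarith
  have hTU : TT z N / L ^ 2 ≤ (1 + x / 8) * M := by
    rw [div_le_iff₀ (by positivity)]
    refine T1.trans ?_
    have h2 : L - 2 * Real.log z + C2 ≤ (1 + x / 32) * L := by linarith
    have h3 : N * (1 + C2 / Real.log z) ≤ N * (1 + x / 32) := mul_le_mul_of_nonneg_left (by linarith) hN0.le
    have h4 : N * (1 + C2 / Real.log z) * (L - 2 * Real.log z + C2) ≤ N * (1 + C2 / Real.log z) * ((1 + x / 32) * L) :=
      mul_le_mul_of_nonneg_left h2 (by positivity)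
    have h5 : N * (1 + C2 / Real.log z) * ((1 + x / 32) * L) ≤ N * (1 + x / 32) * ((1 + x / 32) * L) :=
      mul_le_mul_of_nonneg_right h3 (by positivity)
    have h6 : (1 + x / 8) * M * L ^ 2 = (1 + x / 8) * (N * L) := by rw [hM]; field_simp
    rw [h6]
    have h7 : (1 + x / 32) * (1 + x / 32) ≤ 1 + x / 8 := hx_f hx hx1
    calc N * (1 + C2 / Real.log z) * (L - 2 * Real.log z + C2) ≤ N * (1 + x / 32) * ((1 + x / 32) * L) := h4.trans h5
      _ = (1 + x / 32) * (1 + x / 32) * (N * L) := by ring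
      _ ≤ _ := mul_le_mul_of_nonneg_right h7 (by positivity)
  have hTL : (1 - 2 * ε₁ - x / 8) * M ≤ TT z N / L ^ 2 := by
    rw [le_div_iff₀ (by positivity)]
    have g1 : C2 ≤ Real.log z := by
      have h2 : C2 / Real.log z ≤ 1 := hc.trans (by linarith)
      rwa [div_le_one hlz0] at h2
    have g2 : C2 ≤ L - 2 * Real.log z := by
      have : ε₁ * L ≤ 1 / 4 * L := mul_le_mul_of_nonneg_right h1 hL0.le
      have h3 : x / 32 * L ≤ 1 / 2 * L := mul_le_mul_of_nonneg_right (by linarith) hL0.le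
      linarith
    refine le_trans ?_ (T2 g1 g2)
    have h2 : (1 - 2 * ε₁ - x / 32) * L ≤ L - 2 * Real.log z - C2 := by
      have : (1 - 2 * ε₁ - x / 32) * L = L - 2 * (ε₁ * L) - x / 32 * L := by ring
      rw [this]
      linarith
    have h3 : N * (1 - x / 32) ≤ N * (1 - C2 / Real.log z) := mul_le_mul_of_nonneg_left (by linarith) hN0.le
    have h20 : 0 ≤ (1 - 2 * ε₁ - x / 32) * L := mul_nonneg (by linarith) hL0.le
    have h30 : 0 ≤ N * (1 - C2 / Real.log z) := mul_nonneg hN0.le (by linarith)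
    have h4 : N * (1 - x / 32) * ((1 - 2 * ε₁ - x / 32) * L) ≤ N * (1 - C2 / Real.log z) * (L - 2 * Real.log z - C2) :=
      mul_le_mul h3 h2 h20 h30
    have h6 : (1 - 2 * ε₁ - x / 8) * M * L ^ 2 = (1 - 2 * ε₁ - x / 8) * (N * L) := by rw [hM]; field_simp
    rw [h6]
    have h7 : (1 - 2 * ε₁ - x / 8) + x / 64 ≤ (1 - x / 32) * (1 - 2 * ε₁ - x / 32) := hx_g h0 hx hx1
    have h8 : 6 * (N : ℝ) ≤ x / 64 * (N * L) := by
      rw [div_le_iff₀ hx] at hL384
      have : 384 * (N : ℝ) ≤ (L * x) * N := mul_le_mul_of_nonneg_right hL384 hN0.le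
      linarith
    have h9 : ((1 - 2 * ε₁ - x / 8) + x / 64) * (N * L) ≤ (1 - x / 32) * (1 - 2 * ε₁ - x / 32) * (N * L) :=
      mul_le_mul_of_nonneg_right h7 (by positivity)
    have h10 : N * (1 - x / 32) * ((1 - 2 * ε₁ - x / 32) * L) = (1 - x / 32) * (1 - 2 * ε₁ - x / 32) * (N * L) := by ring
    rw [h10] at h4
    rw [add_mul] at h9
    linarith
  -- the diagonal
  obtain ⟨DG, hDG⟩ : ∃ DG : ℝ, DG = ∑ p ∈ (PR z N).filter (fun p => p * p ≤ N), Real.log p * Real.log p := ⟨_, rfl⟩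
  have hDG0 : 0 ≤ DG / L ^ 2 := by
    rw [hDG]
    exact div_nonneg (sum_nonneg fun p _ => mul_self_nonneg _) (by positivity)
  have hDG1 : DG / L ^ 2 ≤ x / 200 * M := by
    refine le_trans ?_ s4
    rw [div_le_iff₀ (by positivity), hDG]
    have h2 : ∑ p ∈ (PR z N).filter (fun p => p * p ≤ N), Real.log p * Real.log p ≤
        ∑ p ∈ (PR z N).filter (fun p => p * p ≤ N), L ^ 2 := by
      refine sum_le_sum fun p hp => ?_
      rw [mem_filter, mem_PR] at hp
      have h3 : Real.log p ≤ L := by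
        rw [hLd]
        exact Real.log_le_log (by exact_mod_cast hp.1.2.pos) (by exact_mod_cast hp.1.1.2)
      rw [sq]
      exact mul_le_mul h3 h3 (log_nn p) hL0.le
    refine h2.trans ?_
    rw [sum_const, nsmul_eq_mul]
    apply mul_le_mul_of_nonneg_right _ (by positivity)
    have h4 : (PR z N).filter (fun p => p * p ≤ N) ⊆ Icc 1 ⌊Real.exp (1 / 2 * L)⌋₊ := by
      intro p hp
      rw [mem_filter, mem_PR] at hp
      rw [mem_Icc]
      refine ⟨hp.1.2.pos, Nat.le_floor ?_⟩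
      have hp0 : (0 : ℝ) < p := by exact_mod_cast hp.1.2.pos
      rw [← Real.log_le_iff_le_exp hp0]
      have h5 : Real.log ((p : ℝ) * p) ≤ L := by
        rw [hLd]
        exact Real.log_le_log (by positivity) (by exact_mod_cast hp.2)
      rw [Real.log_mul hp0.ne' hp0.ne'] at h5
      linarith
    have h5 := card_le_card h4
    rw [Nat.card_Icc, Nat.add_sub_cancel] at h5
    have h6 : ((((PR z N).filter (fun p => p * p ≤ N)).card : ℕ) : ℝ) ≤ ⌊Real.exp (1 / 2 * L)⌋₊ := by exact_mod_cast h5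
    exact h6.trans (Nat.floor_le (Real.exp_pos _).le)
  -- assembling
  obtain ⟨A1, A2⟩ := SG_split (z := z) (N := N) (by omega) (by omega)
  rw [← hLd, ← hDG, sub_div] at A1 A2
  have h6 : 2 + 2 * (3 * N / z) ≤ x / 20 * M := by
    have : 2 * (3 * (N : ℝ) / z) = 6 * (N / z) := by ring
    rw [this]
    have h7 : x / 20 * M = 10 * (x / 200 * M) := by ring
    rw [h7]
    linarith
  have hMx : 0 < x * M := by positivity
  have hMe : 0 < ε₁ * M := by positivity
  rw [abs_le]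
  constructor
  · have : (1 - 2 * ε₁ - x / 8) * M + (1 - x / 8) * M - x / 200 * M = 2 * M - 2 * ε₁ * M - (x / 4 + x / 200) * M := by ring
    have h8 : (x / 4 + x / 200) * M ≤ x * M := mul_le_mul_of_nonneg_right (by linarith) hM0.le
    have h9 : (2 * ε₁ + x) * M = 2 * ε₁ * M + x * M := by ring
    rw [h9]
    linarith
  · have : (1 + x / 8) * M + (1 + ε₁ + x / 8) * M + x / 20 * M = 2 * M + ε₁ * M + (x / 4 + x / 20) * M := by ring
    have h8 : (x / 4 + x / 20) * M ≤ x * M := mul_le_mul_of_nonneg_right (by linarith) hM0.le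
    have h9 : (2 * ε₁ + x) * M = 2 * (ε₁ * M) + x * M := by ring
    rw [h9]
    linarith

end Pool.Agent.H528.Avg
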