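import Mathlib
import Pool.Agent.H528.QFd
import Pool.Graph.R_pool_sql_team_seeded_1acbe0a2.Y822.V.Few

/-! Few shifts have a large error, in the range of the large sieve, with an explicit parameter. -/

set_option autoImplicit false

namespace Pool.Agent.H528.FewL

open Finset Filter
open Pool.Agent.Y822
open Pool.Agent.Y822.Par3 Pool.Agent.Y822.QF
open Pool.Agent.Y822.V (EV foV foV_mod foV_abs)
open Pool.Agent.H528.QFd

theorem fewL (δ τ : ℝ) (hδ : 0 < δ) (hδ1 : δ < 1) (hτ : τ < (1 + δ) / 2) :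
    ∀ δ' : ℝ, 0 < δ' → δ' ≤ min ((1 + δ) / 2 - τ) δ / 16 → ∀ ε₁ : ℝ, 0 < ε₁ → ε₁ ≤ 1 / 2 →
    ∀ (U : ℕ) (K : ℝ), 0 < K → ∃ κ : ℝ, 0 < κ ∧ κ ≤ 1 ∧ ∃ C : ℕ, ∀ᶠ N : ℕ in atTop, ∀ TT : Finset ℕ,
    (∀ e ∈ TT, (e : ℝ) ≤ (N : ℝ) ^ τ ∧ 1 < e ∧ Squarefree e ∧ Ro (zN ε₁ N) e) →
    ∀ f : ℕ → ℝ, (∀ n, |f n| ≤ 1) → ∀ S : Finset ℕ,
    (∀ a ∈ S, a ≤ N ∧ N / Real.log N ^ U < K * EV (yN κ N) N ε₁ δ' TT f a) →
    (S.card : ℝ) ≤ (N : ℝ) ^ δ * Real.log N ^ C := by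
  classical
  have HQ := QDx_ls δ τ hδ hδ1 hτ
  intro δ' hδ' hδ'2 ε₁ hε₁ hε₁2 U K hK
  obtain ⟨κ₁, hκ₁, hκ₁1, HQ⟩ := HQ δ' hδ' hδ'2 ε₁ hε₁ hε₁2 (U + 1)
  obtain ⟨κ₂, hκ₂, hκ₂1, HF⟩ := few_par' (U + 1) (1 / 4) (by norm_num) (by norm_num)
  obtain ⟨κ, hκd⟩ : ∃ κ : ℝ, κ = min κ₁ κ₂ := ⟨_, rfl⟩
  have hκ : 0 < κ := by rw [hκd]; exact lt_min hκ₁ hκ₂
  have hκ1 : κ ≤ κ₁ := by rw [hκd]; exact min_le_left _ _
  have hκ2 : κ ≤ κ₂ := by rw [hκd]; exact min_le_right _ _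
  obtain ⟨C, HQ⟩ := HQ κ hκ hκ1
  obtain ⟨C', HF⟩ := HF κ hκ hκ2
  refine ⟨κ, hκ, hκ1.trans hκ₁1, max C C' + 1, ?_⟩
  filter_upwards [HQ, HF, ev_logN (eventually_ge_atTop (max 4 (2 * K))), eventually_ge_atTop 3]
    with N HQ HF hL hN TT hTT f hf S hS
  set L := Real.log N with hLd
  have hL4 : 4 ≤ L := (le_max_left _ _).trans hL
  have hLK : 2 * K ≤ L := (le_max_right _ _).trans hL
  have hL0 : 0 < L := by linarith
  have hL1 : 1 ≤ L := by linarith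
  have hN0 : (0 : ℝ) < N := by positivity
  have hDle : ((⌊(N : ℝ) ^ δ'⌋₊ : ℕ) : ℝ) ≤ (N : ℝ) ^ (1 / 2 - 1 / 4 : ℝ) := by
    refine (Nat.floor_le (by positivity)).trans ?_
    apply Real.rpow_le_rpow_of_exponent_le (by exact_mod_cast (by omega : 1 ≤ N))
    have := min_le_right ((1 + δ) / 2 - τ) δ
    linarith
  obtain ⟨X, hX⟩ : ∃ X : ℝ, X = (N : ℝ) ^ δ * L ^ max C C' := ⟨_, rfl⟩
  have hNδ : 1 ≤ (N : ℝ) ^ δ := Real.one_le_rpow (by exact_mod_cast (by omega : 1 ≤ N)) hδ.le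
  have hQ : ∀ i : ℕ, ((S.filter (fun a => (N : ℝ) / L ^ (U + 1) <
      ZZ (yN κ N) N (SSm N (yN κ N) ε₁ δ') TT (foV i f) a)).card : ℝ) ≤ X := by
    intro i
    refine (HQ (foV i f) (foV_abs hf i) TT hTT _ (fun a ha => ?_)).trans ?_
    · rw [mem_filter] at ha
      exact ⟨(hS a ha.1).1, ha.2⟩
    · rw [hX]
      exact mul_le_mul_of_nonneg_left (pow_le_pow_right₀ hL1 (le_max_left _ _)) (by positivity)
  have hF : ∀ i : ℕ, ((S.filter (fun a => (N : ℝ) / L ^ (U + 1) <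
      LD (yN κ N) ⌊(N : ℝ) ^ δ'⌋₊ N (foV i f) a)).card : ℝ) ≤ X := by
    intro i
    refine (HF ⌊(N : ℝ) ^ δ'⌋₊ hDle (foV i f) (foV_abs hf i) _ (fun a ha => ?_)).trans ?_
    · rw [mem_filter] at ha
      exact ⟨(hS a ha.1).1, ha.2⟩
    · rw [hX]
      calc L ^ C' ≤ L ^ max C C' := pow_le_pow_right₀ hL1 (le_max_right _ _)
        _ = 1 * L ^ max C C' := (one_mul _).symm
        _ ≤ _ := mul_le_mul_of_nonneg_right hNδ (by positivity)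
  have hcov : S ⊆ (S.filter (fun a => (N : ℝ) / L ^ (U + 1) < ZZ (yN κ N) N (SSm N (yN κ N) ε₁ δ') TT (foV 0 f) a) ∪
      S.filter (fun a => (N : ℝ) / L ^ (U + 1) < LD (yN κ N) ⌊(N : ℝ) ^ δ'⌋₊ N (foV 0 f) a)) ∪
      (S.filter (fun a => (N : ℝ) / L ^ (U + 1) < ZZ (yN κ N) N (SSm N (yN κ N) ε₁ δ') TT (foV 1 f) a) ∪
      S.filter (fun a => (N : ℝ) / L ^ (U + 1) < LD (yN κ N) ⌊(N : ℝ) ^ δ'⌋₊ N (foV 1 f) a)) := by
    intro a ha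
    obtain ⟨h1, h2⟩ := hS a ha
    unfold EV at h2
    rw [foV_mod a f] at h2
    have key : ∀ i : ℕ, N / L ^ U < K * (ZZ (yN κ N) N (SSm N (yN κ N) ε₁ δ') TT (foV i f) a +
        LD (yN κ N) ⌊(N : ℝ) ^ δ'⌋₊ N (foV i f) a) →
        (N : ℝ) / L ^ (U + 1) < ZZ (yN κ N) N (SSm N (yN κ N) ε₁ δ') TT (foV i f) a ∨
        (N : ℝ) / L ^ (U + 1) < LD (yN κ N) ⌊(N : ℝ) ^ δ'⌋₊ N (foV i f) a := by
      intro i h3
      by_contra hcon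
      push Not at hcon
      have h4 : K * (ZZ (yN κ N) N (SSm N (yN κ N) ε₁ δ') TT (foV i f) a +
        LD (yN κ N) ⌊(N : ℝ) ^ δ'⌋₊ N (foV i f) a) ≤ K * (N / L ^ (U + 1) + N / L ^ (U + 1)) :=
        mul_le_mul_of_nonneg_left (add_le_add hcon.1 hcon.2) hK.le
      have h5 : K * (N / L ^ (U + 1) + N / L ^ (U + 1)) ≤ N / L ^ U := by
        have e : K * (N / L ^ (U + 1) + N / L ^ (U + 1)) = (2 * K) / L * (N / L ^ U) := by
          rw [pow_succ]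
          field_simp
          ring
        rw [e]
        have h6 : 2 * K / L ≤ 1 := by rw [div_le_one hL0]; exact hLK
        have h7 : 0 ≤ N / L ^ U := by positivity
        calc 2 * K / L * (N / L ^ U) ≤ 1 * (N / L ^ U) := mul_le_mul_of_nonneg_right h6 h7
          _ = _ := one_mul _
      linarith
    have hmod : a % 2 = 0 ∨ a % 2 = 1 := by omega
    simp only [mem_union, mem_filter]
    rcases hmod with h3 | h3
    · rw [h3] at h2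
      rcases key 0 h2 with h4 | h4
      · exact Or.inl (Or.inl ⟨ha, h4⟩)
      · exact Or.inl (Or.inr ⟨ha, h4⟩)
    · rw [h3] at h2
      rcases key 1 h2 with h4 | h4
      · exact Or.inr (Or.inl ⟨ha, h4⟩)
      · exact Or.inr (Or.inr ⟨ha, h4⟩)
  have hcard := (card_le_card hcov).trans ((card_union_le _ _).trans (add_le_add (card_union_le _ _) (card_union_le _ _)))
  have hcard' : (S.card : ℝ) ≤ ((S.filter (fun a => (N : ℝ) / L ^ (U + 1) < ZZ (yN κ N) N (SSm N (yN κ N) ε₁ δ') TT (foV 0 f) a)).card +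
      (S.filter (fun a => (N : ℝ) / L ^ (U + 1) < LD (yN κ N) ⌊(N : ℝ) ^ δ'⌋₊ N (foV 0 f) a)).card) +
      ((S.filter (fun a => (N : ℝ) / L ^ (U + 1) < ZZ (yN κ N) N (SSm N (yN κ N) ε₁ δ') TT (foV 1 f) a)).card +
      (S.filter (fun a => (N : ℝ) / L ^ (U + 1) < LD (yN κ N) ⌊(N : ℝ) ^ δ'⌋₊ N (foV 1 f) a)).card) := by
    exact_mod_cast hcard
  have q0 := hQ 0
  have q1 := hQ 1
  have q2 := hF 0
  have q3 := hF 1
  have hX0 : 0 ≤ X := by rw [hX]; positivity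
  have hfin : 4 * X ≤ (N : ℝ) ^ δ * L ^ (max C C' + 1) := by
    rw [pow_succ, ← mul_assoc, ← hX, mul_comm]
    exact mul_le_mul_of_nonneg_left hL4 hX0
  linarith

end Pool.Agent.H528.FewL
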