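import Mathlib
import Pool.Agent.H528.AvgB
import Pool.Agent.H528.ComB
import Pool.Agent.H528.FewL
import Pool.Graph.R_pool_sql_team_seeded_1acbe0a2.Y822.Q.Int

/-! The weight `Γ / 2` on rough numbers: the truncation in sums. -/

set_option autoImplicit false

namespace Pool.Agent.H528.Cst

open Finset Filter Topology
open Pool.Agent.Y822
open Pool.Agent.Y822.Q (VP_PP VP_bd Vz_pos Vz_up EE_le)
open Pool.Agent.Y822.V (EV foV)
open Pool.Agent.Y822.Par3 Pool.Agent.Y822.QF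
open Pool.Agent.H373R2.T7 (pz Vz mem_pz)
open Pool.Agent.H387R2.Uni (nuT Adm locT CT)
open Pool.Agent.H528.Stp Pool.Agent.H528.Gam Pool.Agent.H528.Avg

/-- the weight -/
noncomputable def gG (z N m : ℕ) : ℝ := if m ≤ 2 * N then ro z m * Gm N m / 2 else 0

lemma gG_bd {z N : ℕ} (hN : 2 ≤ N) (m : ℕ) : 0 ≤ gG z N m ∧ gG z N m ≤ 1 := by
  unfold gG
  split_ifs with h
  · rcases Nat.eq_zero_or_pos m with rfl | hm
    · have : Gm N 0 = 0 := by unfold Gm; simp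
      rw [this]
      norm_num
    · obtain ⟨g1, g2⟩ := Gm_bd hN hm h
      have g3 := ro_nonneg z m
      have g4 := ro_le_one z m
      have g5 : 0 ≤ ro z m * Gm N m := mul_nonneg g3 g1
      have g6 : ro z m * Gm N m ≤ 1 * Gm N m := mul_le_mul_of_nonneg_right g4 g1
      constructor <;> linarith
  · norm_num

lemma PT_single (t y : ℕ) : PT {t} y = 1 := by
  unfold PT
  refine prod_eq_one fun p hp => ?_
  have hp2 : (2 : ℝ) ≤ p := by exact_mod_cast (mem_pz.1 hp).2.two_le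
  unfold locT nuT
  rw [image_singleton, card_singleton, card_singleton, pow_one, Nat.cast_one]
  apply div_self
  have : 1 / (p : ℝ) < 1 := by rw [div_lt_one (by linarith)]; linarith
  linarith

open Classical in
lemma gG_tail {N z m M : ℕ} {η : ℝ} (hN : 2 ≤ N) (hm1 : 1 ≤ m) (hm : m ≤ 2 * N) (hM : ((2 * N : ℕ) : ℝ) < (z : ℝ) ^ (M + 1))
    (hη0 : 0 < η) (hη1 : η ≤ 1) (hlog2 : Real.log 2 ≤ η * Real.log N) (h2 : 2 ≤ (N : ℝ) ^ η) :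
    |gG z N m - ro z m * thK (SD z ⌊(N : ℝ) ^ (1 - η)⌋₊) (cG N) m / 2| ≤
      η ^ 2 / 2 * (ro z m * thK (SD z ⌊(N : ℝ) ^ (2 * η)⌋₊) (fun _ => 1) m) +
        (1 + 2 ^ M) * (if Ro z m ∧ ¬ Squarefree m then 1 else 0) := by
  unfold gG
  rw [if_pos hm]
  by_cases hro : Ro z m
  · rw [ro_of hro, one_mul, one_mul, one_mul, ← sub_div, abs_div, abs_of_pos (show (0 : ℝ) < 2 by norm_num)]
    by_cases hsq : Squarefree m
    · rw [if_neg (fun h => h.2 hsq), mul_zero, add_zero]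
      have := tail (z := z) hN hm1 hm hsq hro hη0 hη1 hlog2 h2
      linarith
    · rw [if_pos ⟨hro, hsq⟩, mul_one]
      obtain ⟨g1, g2⟩ := Gm_bd hN hm1 hm
      have g3 := thK_le_pow hm1 (card_le_of_rough hM hm1 hm hro) (SD z ⌊(N : ℝ) ^ (1 - η)⌋₊) (Z := ⌊(N : ℝ) ^ (1 - η)⌋₊)
        (fun _ h => h) (cG N) (cG_le N hN)
      have g4 : |Gm N m - thK (SD z ⌊(N : ℝ) ^ (1 - η)⌋₊) (cG N) m| ≤ 2 + 2 ^ M := by
        refine (abs_sub _ _).trans ?_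
        rw [abs_of_nonneg g1]
        exact add_le_add g2 g3
      have g5 : 0 ≤ η ^ 2 / 2 * thK (SD z ⌊(N : ℝ) ^ (2 * η)⌋₊) (fun _ => 1) m :=
        mul_nonneg (by positivity) (thK_one_nonneg _ _)
      have g6 : (0 : ℝ) ≤ 2 ^ M := by positivity
      linarith
  · have h3 : ro z m = 0 := by unfold ro; rw [if_neg hro]
    rw [h3, if_neg (fun h => hro h.1)]
    simp

/-- the truncation in sums -/
lemma gG_sum {N z M : ℕ} {η : ℝ} (hN : 2 ≤ N) (hz : 1 ≤ z) (hM : ((2 * N : ℕ) : ℝ) < (z : ℝ) ^ (M + 1))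
    (hη0 : 0 < η) (hη1 : η ≤ 1) (hlog2 : Real.log 2 ≤ η * Real.log N) (h2 : 2 ≤ (N : ℝ) ^ η)
    (f : ℕ → ℝ) (hf : ∀ n, 0 ≤ f n ∧ f n ≤ 1) (t : ℕ) (ht : t ≤ N) :
    |∑ n ∈ Icc 1 N, f n * gG z N (n + t) -
      (∑ n ∈ Icc 1 N, f n * (ro z (n + t) * thK (SD z ⌊(N : ℝ) ^ (1 - η)⌋₊) (cG N) (n + t))) / 2| ≤
      η ^ 2 / 2 * (∑ n ∈ Icc 1 N, f n * (ro z (n + t) * thK (SD z ⌊(N : ℝ) ^ (2 * η)⌋₊) (fun _ => 1) (n + t))) +
        (1 + 2 ^ M) * (3 * N / z) := by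
  classical
  rw [sum_div, ← sum_sub_distrib]
  have h3 : ∀ n ∈ Icc 1 N, |f n * gG z N (n + t) -
      f n * (ro z (n + t) * thK (SD z ⌊(N : ℝ) ^ (1 - η)⌋₊) (cG N) (n + t)) / 2| ≤
      η ^ 2 / 2 * (f n * (ro z (n + t) * thK (SD z ⌊(N : ℝ) ^ (2 * η)⌋₊) (fun _ => 1) (n + t))) +
      (1 + 2 ^ M) * (if Ro z (n + t) ∧ ¬ Squarefree (n + t) then 1 else 0) := by
    intro n hn
    rw [mem_Icc] at hn
    have h4 := gG_tail (z := z) (m := n + t) hN (by omega) (by omega) hM hη0 hη1 hlog2 h2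
    have e1 : f n * gG z N (n + t) - f n * (ro z (n + t) * thK (SD z ⌊(N : ℝ) ^ (1 - η)⌋₊) (cG N) (n + t)) / 2 =
        f n * (gG z N (n + t) - ro z (n + t) * thK (SD z ⌊(N : ℝ) ^ (1 - η)⌋₊) (cG N) (n + t) / 2) := by ring
    rw [e1, abs_mul, abs_of_nonneg (hf n).1]
    refine (mul_le_mul_of_nonneg_left h4 (hf n).1).trans ?_
    rw [mul_add]
    have h5 : (0 : ℝ) ≤ (1 + 2 ^ M) * (if Ro z (n + t) ∧ ¬ Squarefree (n + t) then 1 else 0) := by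
      split_ifs <;> positivity
    have h6 : f n * ((1 + 2 ^ M) * (if Ro z (n + t) ∧ ¬ Squarefree (n + t) then 1 else 0)) ≤
      1 * ((1 + 2 ^ M) * (if Ro z (n + t) ∧ ¬ Squarefree (n + t) then 1 else 0)) :=
      mul_le_mul_of_nonneg_right (hf n).2 h5
    rw [one_mul] at h6
    have e2 : f n * (η ^ 2 / 2 * (ro z (n + t) * thK (SD z ⌊(N : ℝ) ^ (2 * η)⌋₊) (fun _ => 1) (n + t))) =
      η ^ 2 / 2 * (f n * (ro z (n + t) * thK (SD z ⌊(N : ℝ) ^ (2 * η)⌋₊) (fun _ => 1) (n + t))) := by ring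
    rw [e2]
    linarith
  refine (abs_sum_le_sum_abs _ _).trans ((sum_le_sum h3).trans ?_)
  rw [sum_add_distrib, ← mul_sum, ← mul_sum]
  have h4 : ∑ n ∈ Icc 1 N, (if Ro z (n + t) ∧ ¬ Squarefree (n + t) then (1 : ℝ) else 0) ≤ 3 * N / z := by
    rw [← sum_filter, sum_const, nsmul_eq_mul, mul_one]
    exact cnt_nsq hz ht
  have h5 := mul_le_mul_of_nonneg_left h4 (show (0 : ℝ) ≤ 1 + 2 ^ M by positivity)
  linarith

lemma EV_mono {y N : ℕ} {ε₁ δ' : ℝ} {T T' : Finset ℕ} (h : T ⊆ T') (f : ℕ → ℝ) (t : ℕ) :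
    EV y N ε₁ δ' T f t ≤ EV y N ε₁ δ' T' f t := by
  unfold EV
  apply add_le_add _ le_rfl
  unfold ZZ
  exact sum_le_sum fun s _ => sum_le_sum_of_subset_of_nonneg h fun _ _ _ => abs_nonneg _

lemma EV_nonneg' {y N : ℕ} {ε₁ δ' : ℝ} {T : Finset ℕ} (f : ℕ → ℝ) (t : ℕ) : 0 ≤ EV y N ε₁ δ' T f t := by
  unfold EV
  exact add_nonneg (ZZ_nonneg _ _ _ _ _ _) (LD_nonneg _ _ _ _ _)

/-- shifting a sum of terms in `[0, 1]` -/
lemma shift_sum {g : ℕ → ℝ} (hg : ∀ m, 0 ≤ g m ∧ g m ≤ 1) (N t : ℕ) :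
    |∑ n ∈ Icc 1 N, g (n + t) - ∑ n ∈ Icc 1 N, g n| ≤ t := by
  have h1 : ∑ n ∈ Icc 1 N, g (n + t) = ∑ n ∈ Ioc t (N + t), g n := by
    have h2 : Ioc t (N + t) = (Icc 1 N).image (fun n => n + t) := by
      ext m
      rw [mem_Ioc, mem_image]
      constructor
      · rintro ⟨a, b⟩
        exact ⟨m - t, by rw [mem_Icc]; omega, by omega⟩
      · rintro ⟨n, hn, rfl⟩
        rw [mem_Icc] at hn
        omega
    rw [h2, sum_image (fun a _ b _ h => by simpa using h)]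
  have h3 : ∑ n ∈ Ioc 0 (N + t), g n = ∑ n ∈ Icc 1 N, g n + ∑ n ∈ Ioc N (N + t), g n := by
    rw [← Finset.sum_Ioc_consecutive g (Nat.zero_le N) (by omega : N ≤ N + t)]
    rfl
  have h4 : ∑ n ∈ Ioc 0 (N + t), g n = ∑ n ∈ Ioc 0 t, g n + ∑ n ∈ Ioc t (N + t), g n := by
    rw [← Finset.sum_Ioc_consecutive g (Nat.zero_le t) (by omega : t ≤ N + t)]
  have h5 : 0 ≤ ∑ n ∈ Ioc N (N + t), g n ∧ ∑ n ∈ Ioc N (N + t), g n ≤ t := by
    refine ⟨sum_nonneg fun n _ => (hg n).1, ?_⟩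
    calc ∑ n ∈ Ioc N (N + t), g n ≤ ∑ n ∈ Ioc N (N + t), (1 : ℝ) := sum_le_sum fun n _ => (hg n).2
      _ = t := by rw [sum_const, Nat.card_Ioc, nsmul_eq_mul, mul_one]; push_cast; simp
  have h6 : 0 ≤ ∑ n ∈ Ioc 0 t, g n ∧ ∑ n ∈ Ioc 0 t, g n ≤ t := by
    refine ⟨sum_nonneg fun n _ => (hg n).1, ?_⟩
    calc ∑ n ∈ Ioc 0 t, g n ≤ ∑ n ∈ Ioc 0 t, (1 : ℝ) := sum_le_sum fun n _ => (hg n).2
      _ = t := by rw [sum_const, Nat.card_Ioc, nsmul_eq_mul, mul_one]; simp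
  rw [h1, abs_le]
  constructor <;> linarith

/-- choice of the parameters -/
lemma choose_bb (C0 : ℕ) (hC0 : 1 ≤ C0) (cz x : ℝ) (hcz : 0 < cz) (hx : 0 < x) : ∃ b : ℕ, C0 ≤ b ∧ 1 ≤ b ∧
    (1 / 2 : ℝ) ^ b * ((64 * C0 * b) ^ 20 * 2 ^ 44 / (cz ^ 15 * x ^ 4)) ≤ x / 16 := by
  have h1 : Tendsto (fun n : ℕ => (n : ℝ) ^ 20 / 2 ^ n) atTop (𝓝 0) :=
    tendsto_pow_const_div_const_pow_of_one_lt 20 (by norm_num)
  have h2 := h1.const_mul ((64 * C0) ^ 20 * 2 ^ 44 / (cz ^ 15 * x ^ 4) : ℝ)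
  rw [mul_zero] at h2
  have h3 := (h2.eventually (ge_mem_nhds (show 0 < x / 16 by positivity))).and (eventually_ge_atTop C0)
  obtain ⟨b, hb, hb2⟩ := h3.exists
  refine ⟨b, hb2, by omega, ?_⟩
  refine le_trans (le_of_eq ?_) hb
  rw [mul_pow (64 * (C0 : ℝ)) (b : ℝ) 20, one_div, inv_pow]
  field_simp

end Pool.Agent.H528.Cst
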