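import Mathlib
import Pool.Agent.H528.Cst

/-! The function `Λ₂` and the comparison with `Γ`. -/

set_option autoImplicit false

namespace Pool.Agent.H528.Lam

open Finset Filter
open Pool.Agent.Y822
open Pool.Agent.H528.Stp Pool.Agent.H528.Gam Pool.Agent.H528.Avg Pool.Agent.H528.Cst

/-- `Λ₂(m) = ∑_{d ∣ m} μ(d) log² (m / d)` -/
noncomputable def L2 (m : ℕ) : ℝ :=
  ∑ d ∈ m.divisors, (ArithmeticFunction.moebius d : ℝ) * Real.log ((m : ℝ) / d) ^ 2

lemma sum_mu {m : ℕ} (hm : 1 ≤ m) (F : ℕ → ℝ) :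
    ∑ d ∈ m.divisors, (ArithmeticFunction.moebius d : ℝ) * F d =
      ∑ T ∈ m.primeFactors.powerset, (-1 : ℝ) ^ T.card * F (∏ p ∈ T, p) := by
  classical
  have h1 : ∑ d ∈ m.divisors, (ArithmeticFunction.moebius d : ℝ) * F d =
      ∑ d ∈ m.divisors.filter Squarefree, (ArithmeticFunction.moebius d : ℝ) * F d := by
    rw [sum_filter]
    refine sum_congr rfl fun d _ => ?_
    split_ifs with h
    · rfl
    · rw [ArithmeticFunction.moebius_eq_zero_of_not_squarefree h]
      simp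
  have h2 : (UniqueFactorizationMonoid.normalizedFactors m).toFinset = m.primeFactors := by
    rw [Nat.factors_eq]
    rfl
  rw [h1, Nat.sum_divisors_filter_squarefree (by omega : m ≠ 0), h2]
  refine sum_congr rfl fun T hT => ?_
  have hTp : ∀ p ∈ T, p.Prime := fun p hp => Nat.prime_of_mem_primeFactors (mem_powerset.1 hT hp)
  have e1 : T.val.prod = ∏ p ∈ T, p := by rw [Finset.prod_eq_multiset_prod, Multiset.map_id']
  rw [e1]
  congr 1
  have h3 : ArithmeticFunction.moebius (∏ p ∈ T, p) = (-1) ^ T.card := by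
    have hsq : Squarefree (∏ p ∈ T, p) := Pool.Agent.Y822.Cop.sqf_prod hTp
    rw [ArithmeticFunction.moebius_apply_of_squarefree hsq]
    congr 1
    have h5 : (∏ p ∈ T, p).primeFactors = T := Nat.primeFactors_prod hTp
    rw [← ArithmeticFunction.cardDistinctFactors_eq_cardFactors_iff_squarefree
      (Finset.prod_ne_zero_iff.2 fun p hp => (hTp p hp).ne_zero) |>.2 hsq]
    rw [ArithmeticFunction.cardDistinctFactors_apply, ← List.card_toFinset]
    show (∏ p ∈ T, p).primeFactors.card = T.card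
    rw [h5]
  rw [h3]
  push_cast
  rfl

lemma L2_eq {m : ℕ} (hm : 1 ≤ m) : L2 m = SS m.primeFactors (fun p => Real.log p) (Real.log m) := by
  unfold L2
  rw [sum_mu hm (fun d => Real.log ((m : ℝ) / d) ^ 2)]
  unfold SS
  refine sum_congr rfl fun T hT => ?_
  have hTp : ∀ p ∈ T, p.Prime := fun p hp => Nat.prime_of_mem_primeFactors (mem_powerset.1 hT hp)
  have hT0 : ((∏ p ∈ T, p : ℕ) : ℝ) ≠ 0 := by
    exact_mod_cast Finset.prod_ne_zero_iff.2 fun p hp => (hTp p hp).ne_zero
  rw [Real.log_div (by exact_mod_cast (by omega : m ≠ 0)) hT0]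
  congr 2
  push_cast
  rw [Real.log_prod fun p hp => by exact_mod_cast (hTp p hp).ne_zero]

lemma L2_one : L2 1 = 0 := by
  rw [L2_eq le_rfl, Nat.primeFactors_one, SS_empty]
  simp

lemma L2_one_pf {m p : ℕ} (hm : 1 ≤ m) (h : m.primeFactors = {p}) :
    L2 m = 2 * Real.log p * Real.log m - Real.log p ^ 2 := by
  rw [L2_eq hm, h, SS_one]

lemma L2_two_pf {m p q : ℕ} (hm : 1 ≤ m) (hpq : p ≠ q) (h : m.primeFactors = {p, q}) :
    L2 m = 2 * Real.log p * Real.log q := by
  rw [L2_eq hm, h, SS_two hpq]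

lemma L2_three_pf {m : ℕ} (hm : 1 ≤ m) (h : 3 ≤ m.primeFactors.card) : L2 m = 0 := by
  rw [L2_eq hm, SS_three h]

lemma L2_bd {m : ℕ} (hm : 1 ≤ m) : 0 ≤ L2 m ∧ L2 m ≤ Real.log m ^ 2 := by
  have hlm := log_nn m
  rcases pf_cases hm with rfl | ⟨p, hp, hpm, h⟩ | ⟨p, q, hpq, hp, hq, hpqm, h⟩ | h
  · rw [L2_one]
    exact ⟨le_rfl, sq_nonneg _⟩
  · rw [L2_one_pf hm h]
    have h1 : Real.log p ≤ Real.log m :=
      Real.log_le_log (by exact_mod_cast hp.pos) (by exact_mod_cast Nat.le_of_dvd hm hpm)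
    have h0 := log_nn p
    constructor <;> nlinarith [sq_nonneg (Real.log m - Real.log p)]
  · rw [L2_two_pf hm hpq h]
    have h1 := log_nn p
    have h2 := log_nn q
    have h3 : Real.log p + Real.log q ≤ Real.log m := by
      rw [← Real.log_mul (by exact_mod_cast hp.ne_zero) (by exact_mod_cast hq.ne_zero)]
      apply Real.log_le_log (mul_pos (by exact_mod_cast hp.pos) (by exact_mod_cast hq.pos))
      exact_mod_cast Nat.le_of_dvd hm hpqm
    constructor
    · positivity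
    · have h4 : (Real.log p + Real.log q) ^ 2 ≤ Real.log m ^ 2 := pow_le_pow_left₀ (by linarith) h3 2
      nlinarith [sq_nonneg (Real.log p - Real.log q), sq_nonneg (Real.log p), sq_nonneg (Real.log q)]
  · rw [L2_three_pf hm h]
    exact ⟨le_rfl, sq_nonneg _⟩

/-- **comparison** -/
lemma L2_cmp {N m : ℕ} {θ L : ℝ} (hN : 2 ≤ N) (hL : L = Real.log N) (hm : 2 ≤ m) (hθ0 : 0 < θ) (hθ : θ ≤ 1 / 8)
    (h1 : (1 - θ) * L ≤ Real.log m) (h2 : Real.log m ≤ (1 + θ) * L) :
    (1 - 4 * θ) * (L ^ 2 * Gm N m) ≤ L2 m ∧ L2 m ≤ (1 + 4 * θ) * (L ^ 2 * Gm N m) := by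
  have hN1 : (1 : ℝ) < N := by exact_mod_cast (by omega : 1 < N)
  have hL0 : 0 < L := by rw [hL]; exact Real.log_pos hN1
  rcases pf_cases (by omega : 1 ≤ m) with rfl | ⟨p, hp, hpm, h⟩ | ⟨p, q, hpq, hp, hq, hpqm, h⟩ | h
  · omega
  · rw [L2_one_pf (by omega) h, Gm_one_pf (by omega) h, ← hL]
    obtain ⟨l, hl⟩ : ∃ l : ℝ, l = Real.log p := ⟨_, rfl⟩
    obtain ⟨M, hM⟩ : ∃ M : ℝ, M = Real.log m := ⟨_, rfl⟩
    have hl0 : 0 ≤ l := by rw [hl]; exact log_nn p
    have hlM : l ≤ M := by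
      rw [hl, hM]
      exact Real.log_le_log (by exact_mod_cast hp.pos) (by exact_mod_cast Nat.le_of_dvd (by omega) hpm)
    rw [← hl, ← hM]
    rw [← hM] at h1 h2
    have e : L ^ 2 * (2 * (l / L) - (l / L) ^ 2) = l * (2 * L - l) := by field_simp
    rw [e]
    have g1 : 0 ≤ l * (L - l + 1 / 8 * L) := by
      apply mul_nonneg hl0
      have : (1 + θ) * L ≤ (1 + 1 / 8) * L := mul_le_mul_of_nonneg_right (by linarith) hL0.le
      linarith
    have g2 : l * L ≤ 8 / 7 * (l * (2 * L - l)) := by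
      have : l * (L - l + 1 / 8 * L) = l * (2 * L - l) - 7 / 8 * (l * L) := by ring
      linarith
    have g3 : |2 * l * M - l ^ 2 - l * (2 * L - l)| ≤ 4 * θ * (l * (2 * L - l)) := by
      have e2 : 2 * l * M - l ^ 2 - l * (2 * L - l) = 2 * l * (M - L) := by ring
      rw [e2, abs_mul, abs_of_nonneg (by positivity)]
      have g4 : |M - L| ≤ θ * L := by
        rw [abs_le]
        constructor <;> linarith
      have g6 := mul_le_mul_of_nonneg_left g2 hθ0.le
      have g7 : 0 ≤ θ * (l * (2 * L - l)) := by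
        apply mul_nonneg hθ0.le
        have : 0 ≤ l * L := by positivity
        linarith
      calc 2 * l * |M - L| ≤ 2 * l * (θ * L) := mul_le_mul_of_nonneg_left g4 (by positivity)
        _ = 2 * (θ * (l * L)) := by ring
        _ ≤ 2 * (θ * (8 / 7 * (l * (2 * L - l)))) := by linarith
        _ ≤ 4 * θ * (l * (2 * L - l)) := by
            have e3 : 2 * (θ * (8 / 7 * (l * (2 * L - l)))) = 16 / 7 * (θ * (l * (2 * L - l))) := by ring
            rw [e3]
            have e4 : 4 * θ * (l * (2 * L - l)) = 4 * (θ * (l * (2 * L - l))) := by ring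
            rw [e4]
            linarith
    obtain ⟨a1, a2⟩ := abs_le.1 g3
    constructor <;> linarith
  · rw [L2_two_pf (by omega) hpq h, Gm_two_pf (by omega) hpq h, ← hL]
    have e : L ^ 2 * (2 * (Real.log p / L) * (Real.log q / L)) = 2 * Real.log p * Real.log q := by field_simp
    rw [e]
    have h3 : 0 ≤ 2 * Real.log p * Real.log q := mul_nonneg (mul_nonneg (by norm_num) (log_nn p)) (log_nn q)
    constructor <;> nlinarith
  · rw [L2_three_pf (by omega) h, Gm_three_pf (by omega) h]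
    simp

end Pool.Agent.H528.Lam
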