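import Mathlib
import Pool.Agent.H528.Cst

/-! The step for the weight `Γ / 2`. -/

set_option autoImplicit false

namespace Pool.Agent.H528.StA

open Finset Filter Topology
open Pool.Agent.Y822
open Pool.Agent.Y822.Q (VP_PP VP_bd Vz_pos Vz_up EE_le)
open Pool.Agent.Y822.V (EV foV)
open Pool.Agent.Y822.Par3 Pool.Agent.Y822.QF
open Pool.Agent.H373R2.T7 (pz Vz mem_pz)
open Pool.Agent.H387R2.Uni (nuT Adm locT CT)
open Pool.Agent.H528.Stp Pool.Agent.H528.Gam Pool.Agent.H528.Avg Pool.Agent.H528.Cst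

/-- combination of the error terms -/
lemma calcA {X1 X2 X3 A VW S' c E ns η : ℝ} (hη0 : 0 < η) (hη1 : η ≤ 1) (hc : 0 ≤ c) (hE : 0 ≤ E) (hVW : 0 ≤ VW)
    (h1 : |X1 - X2 / 2| ≤ η ^ 2 / 2 * X3 + ns) (h2 : |X2 - A * VW| ≤ c * VW + E)
    (h3 : X3 ≤ S' * VW + (c * VW + E)) :
    |X1 - A / 2 * VW| ≤ (c + η ^ 2 / 2 * S') * VW + E + ns := by
  have h0 : 0 ≤ c * VW + E := by positivity
  have hη2 : η ^ 2 ≤ 1 := pow_le_one₀ hη0.le hη1
  have h4 : η ^ 2 / 2 * X3 ≤ η ^ 2 / 2 * (S' * VW + (c * VW + E)) := mul_le_mul_of_nonneg_left h3 (by positivity)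
  have h5 : η ^ 2 / 2 * (c * VW + E) ≤ 1 / 2 * (c * VW + E) := mul_le_mul_of_nonneg_right (by linarith) h0
  have h6 : |X1 - A / 2 * VW| ≤ |X1 - X2 / 2| + |X2 - A * VW| / 2 := by
    have e : X1 - A / 2 * VW = (X1 - X2 / 2) + (X2 - A * VW) / 2 := by ring
    rw [e]
    refine (abs_add_le _ _).trans ?_
    rw [abs_div, abs_of_pos (show (0 : ℝ) < 2 by norm_num)]
  have h7 : η ^ 2 / 2 * (S' * VW + (c * VW + E)) = η ^ 2 / 2 * S' * VW + η ^ 2 / 2 * (c * VW + E) := by ring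
  have h8 : (c + η ^ 2 / 2 * S') * VW = c * VW + η ^ 2 / 2 * S' * VW := by ring
  rw [h8]
  rw [h7] at h4
  linarith

/-- the numerical condition -/
lemma num_rho {C0 b : ℕ} {cz x R η ε₁ CE : ℝ} (hcz : 0 < cz) (hx : 0 < x) (hR : R = 64 * C0 * b) (hR0 : 0 < R)
    (hη : η = x * cz ^ 3 / (1024 * R ^ 4)) (hε : ε₁ = η / R) (hCE : CE = (2 / (cz * ε₁)) ^ 3)
    (hb : (1 / 2 : ℝ) ^ b * ((64 * C0 * b) ^ 20 * 2 ^ 44 / (cz ^ 15 * x ^ 4)) ≤ x / 16) :
    ((1 / 2) ^ b * CE + η ^ 2 / 2 * (4 * R / cz) ^ 3) * (2 / ε₁) ≤ x / 8 := by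
  have hη0 : 0 < η := by rw [hη]; positivity
  have hε0 : 0 < ε₁ := by rw [hε]; positivity
  have e1 : (1 / 2 : ℝ) ^ b * CE * (2 / ε₁) = (1 / 2) ^ b * ((64 * C0 * b) ^ 20 * 2 ^ 44 / (cz ^ 15 * x ^ 4)) := by
    rw [mul_assoc]
    congr 1
    rw [← hR, hCE, hε, hη]
    field_simp
    norm_num
  have e2 : η ^ 2 / 2 * (4 * R / cz) ^ 3 * (2 / ε₁) = x / 16 := by
    rw [hε, hη]
    field_simp
    norm_num
  rw [add_mul, e1, e2]
  linarith

/-- determination of the constant -/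
lemma calcB {B w M x ρ' e : ℝ} (hx : 0 < x) (hx8 : x ≤ 1 / 8) (hM : 0 < M) (hw1 : 1 - x / 32 ≤ w) (hw2 : w ≤ 1 + x / 32)
    (hρ : ρ' ≤ x / 8) (hρ0 : 0 ≤ ρ') (he : e ≤ x / 64 * M) {X : ℝ} (hX : |X - M| ≤ x / 32 * M)
    (h : |X - B * (w * M)| ≤ ρ' * (w * M) + e) : 1 - x / 2 ≤ B ∧ B ≤ 1 + x / 2 := by
  have hw0 : 0 < w := by linarith
  obtain ⟨a1, a2⟩ := abs_le.1 hX
  obtain ⟨b1, b2⟩ := abs_le.1 h
  have h1 : ρ' * (w * M) ≤ x / 8 * ((1 + x / 32) * M) := by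
    apply mul_le_mul hρ (mul_le_mul_of_nonneg_right hw2 hM.le) (by positivity) (by positivity)
  have h2 : x / 8 * ((1 + x / 32) * M) ≤ x / 7 * M := by
    have : x / 8 * (1 + x / 32) ≤ x / 7 := by
      have : x * x ≤ x * (1 / 8) := mul_le_mul_of_nonneg_left hx8 hx.le
      linarith
    calc x / 8 * ((1 + x / 32) * M) = (x / 8 * (1 + x / 32)) * M := by ring
      _ ≤ _ := mul_le_mul_of_nonneg_right this hM.le
  have h3 : B * w * M ≤ (1 + x / 4) * M := by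
    have e1 : (1 + x / 4) * M = M + x / 4 * M := by ring
    have e2 : x / 7 * M + x / 64 * M + x / 32 * M ≤ x / 4 * M := by
      have : x / 7 + x / 64 + x / 32 ≤ x / 4 := by linarith
      calc x / 7 * M + x / 64 * M + x / 32 * M = (x / 7 + x / 64 + x / 32) * M := by ring
        _ ≤ _ := mul_le_mul_of_nonneg_right this hM.le
    rw [e1]
    linarith
  have h4 : (1 - x / 4) * M ≤ B * w * M := by
    have e1 : (1 - x / 4) * M = M - x / 4 * M := by ring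
    have e2 : x / 7 * M + x / 64 * M + x / 32 * M ≤ x / 4 * M := by
      have : x / 7 + x / 64 + x / 32 ≤ x / 4 := by linarith
      calc x / 7 * M + x / 64 * M + x / 32 * M = (x / 7 + x / 64 + x / 32) * M := by ring
        _ ≤ _ := mul_le_mul_of_nonneg_right this hM.le
    rw [e1]
    linarith
  have h5 : B * w ≤ 1 + x / 4 := le_of_mul_le_mul_right h3 hM
  have h6 : 1 - x / 4 ≤ B * w := le_of_mul_le_mul_right h4 hM
  constructor
  · by_contra hcon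
    push Not at hcon
    have h7 : B * w ≤ (1 - x / 2) * w := mul_le_mul_of_nonneg_right hcon.le hw0.le
    have h8 : (1 - x / 2) * w ≤ (1 - x / 2) * (1 + x / 32) := mul_le_mul_of_nonneg_left hw2 (by linarith)
    nlinarith
  · by_contra hcon
    push Not at hcon
    have h7 : (1 + x / 2) * w ≤ B * w := mul_le_mul_of_nonneg_right hcon.le hw0.le
    have h8 : (1 + x / 2) * (1 - x / 32) ≤ (1 + x / 2) * w := mul_le_mul_of_nonneg_left hw1 (by linarith)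
    nlinarith

/-- **the step for the weight** -/
theorem stA (x : ℝ) (hx : 0 < x) (hx8 : x ≤ 1 / 8) (U : ℕ) (hU : 2 ≤ U) : ∃ δ : ℝ, 1 / 2 ≤ δ ∧ δ < 1 ∧
    ∃ ε₁ : ℝ, 0 < ε₁ ∧ ε₁ ≤ x ∧ ∃ κ : ℝ, 0 < κ ∧ κ ≤ 1 ∧ ∃ C : ℕ, ∀ᶠ N : ℕ in atTop,
    ∃ (u : ℝ) (Z : (ℕ → ℝ) → ℕ → ℝ), 0 ≤ u ∧ (1 + x) * u ≤ 1 ∧ (1 - x) / Real.log N ≤ u * Vz (yN κ N) ∧
      u * Vz (yN κ N) ≤ (1 + x) / Real.log N ∧ 3 ≤ yN κ N ∧
      (N : ℝ) ^ (ε₁ / 2) ≤ zN ε₁ N ∧
      (∀ f : ℕ → ℝ, (∀ n, 0 ≤ f n ∧ f n ≤ 1) → ∀ t ≤ N, Z f t ≤ N / Real.log N ^ U →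
        |∑ n ∈ Icc 1 N, f n * gG (zN ε₁ N) N (n + t) - u * ∑ n ∈ Icc 1 N, f n * ro (yN κ N) (n + t)| ≤
          x * (u * ∑ n ∈ Icc 1 N, f n * ro (yN κ N) (n + t)) + N / Real.log N ^ U) ∧
      (∀ f : ℕ → ℝ, (∀ n, |f n| ≤ 1) → ∀ S : Finset ℕ, (∀ a ∈ S, a ≤ N ∧ N / Real.log N ^ U < Z f a) →
        (S.card : ℝ) ≤ (N : ℝ) ^ δ * Real.log N ^ C) := by
  classical
  obtain ⟨C0, hC0, cz, hcz, hcz1, VZ, COM⟩ := ComB.comB
  obtain ⟨b, hb1, hb2, hbx⟩ := choose_bb C0 hC0 cz x hcz hx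
  obtain ⟨R, hR⟩ : ∃ R : ℝ, R = 64 * C0 * b := ⟨_, rfl⟩
  have hC0r : (1 : ℝ) ≤ C0 := by exact_mod_cast hC0
  have hbr : (1 : ℝ) ≤ b := by exact_mod_cast hb2
  have hCb : (1 : ℝ) ≤ C0 * b := one_le_mul_of_one_le_of_one_le hC0r hbr
  have hR64 : 64 ≤ R := by rw [hR, mul_assoc]; linarith
  have hR0 : 0 < R := by linarith
  obtain ⟨η, hη⟩ : ∃ η : ℝ, η = x * cz ^ 3 / (1024 * R ^ 4) := ⟨_, rfl⟩
  have hη0 : 0 < η := by rw [hη]; positivity
  have hηx : η ≤ x / 1024 := by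
    rw [hη, div_le_div_iff₀ (by positivity) (by norm_num)]
    have h1 : cz ^ 3 ≤ 1 := pow_le_one₀ hcz.le hcz1
    have h2 : 1 ≤ R ^ 4 := one_le_pow₀ (by linarith)
    have h3 : cz ^ 3 ≤ R ^ 4 := h1.trans h2
    calc x * cz ^ 3 * 1024 ≤ x * R ^ 4 * 1024 := by gcongr
      _ = x * (1024 * R ^ 4) := by ring
  obtain ⟨ε₁, hε₁⟩ : ∃ ε₁ : ℝ, ε₁ = η / R := ⟨_, rfl⟩
  have hε₁0 : 0 < ε₁ := by rw [hε₁]; positivity
  have hε₁η : ε₁ ≤ η := by rw [hε₁]; exact div_le_self hη0.le (by linarith)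
  obtain ⟨CE, hCE⟩ : ∃ CE : ℝ, CE = (2 / (cz * ε₁)) ^ 3 := ⟨_, rfl⟩
  have hCE0 : 0 < CE := by rw [hCE]; positivity
  obtain ⟨δ', hδ'⟩ : ∃ δ' : ℝ, δ' = η / 32 := ⟨_, rfl⟩
  have hε₁δ' : ε₁ * (2 * C0 * b) = δ' := by rw [hε₁, hδ', hR]; field_simp; norm_num
  have hη1 : η ≤ 1 / 8 := by linarith
  obtain ⟨ρ, hρ⟩ : ∃ ρ : ℝ, ρ = (1 / 2) ^ b * CE + η ^ 2 / 2 * (4 * R / cz) ^ 3 := ⟨_, rfl⟩
  have hρ0 : 0 ≤ ρ := by rw [hρ]; positivity
  have hρx : ρ * (2 / ε₁) ≤ x / 8 := by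
    rw [hρ]
    exact num_rho hcz hx hR hR0 hη hε₁ hCE hbx
  obtain ⟨κ, hκ, hκ1, C, FEW⟩ := FewL.fewL (1 - η) (1 - η) (by linarith) (by linarith) (by linarith) δ'
    (by rw [hδ']; positivity) (by
      rw [hδ', min_eq_left (by linarith)]
      apply le_of_eq
      ring) ε₁ hε₁0 (by linarith) (U + 1) (8 * (1 + CE)) (by positivity)
  have COM := COM b hb1 hb2 δ' ε₁ CE (1 - η) (by rw [hδ']; positivity) (by rw [hδ']; linarith) hε₁δ' hCE (by linarith)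
    (by linarith) κ hκ hκ1
  have AVG := avg ε₁ hε₁0 (by linarith) (x / 64) (by positivity) (by linarith)
  have INT := Pool.Agent.Y822.Q.int0 0 κ (x / 64) 3 hκ hκ1 (by positivity) (by linarith)
  obtain ⟨m₀, hm₀⟩ : ∃ m₀ : ℕ, m₀ = ⌈4 / ε₁⌉₊ := ⟨_, rfl⟩
  refine ⟨1 - η, by linarith, by linarith, ε₁, hε₁0, by linarith, κ, hκ, hκ1, C, ?_⟩
  have e1 := ev_logN (eventually_ge_atTop (max (max (Real.log 2 / η) (256 / x)) (max 1 (64 / (x * cz)))))
  have e2 := ev_logN (ev_pow_exp U (ε₁ / 2) (6 * (1 + 2 ^ m₀)) (by positivity))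
  have e3 := ev_logN (ev_pow_exp (C + 1) η (512 / x) hη0)
  have e4 := ev_logN (Real.tendsto_log_atTop.eventually (eventually_ge_atTop (max 1 (4 / cz))))
  filter_upwards [FEW, COM, AVG, INT, e1, e2, e3, e4, eventually_ge_atTop 3, yN_facts κ hκ hκ1 3 8] with N FEW COM
    AVG INT f1 f2 f3 f4 hN3 hyf
  obtain ⟨w1, w2, w3, w4, w5, w6, w7, w8⟩ := COM
  obtain ⟨y1, y2, y3, y4, y5⟩ := hyf
  rw [← hm₀] at w6
  obtain ⟨L, hL⟩ : ∃ L : ℝ, L = Real.log N := ⟨_, rfl⟩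
  obtain ⟨y, hy⟩ : ∃ y : ℕ, y = yN κ N := ⟨_, rfl⟩
  obtain ⟨z₀, hz₀⟩ : ∃ z₀ : ℕ, z₀ = zN ε₁ N := ⟨_, rfl⟩
  rw [← hy] at w1 w2 w8 y1 y2 y3 y4 y5 FEW INT ⊢
  rw [← hz₀] at w1 w3 w4 w5 w6 w7 w8 ⊢
  rw [← hL] at w4 w5 w8 f1 f2 f3 f4 FEW INT AVG y1 ⊢
  have hN0 : (0 : ℝ) < N := by positivity
  have hL1 : 1 ≤ L := (le_max_left _ _).trans ((le_max_right _ _).trans f1)
  have hL0 : 0 < L := by linarith
  have hLη : Real.log 2 / η ≤ L := (le_max_left _ _).trans ((le_max_left _ _).trans f1)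
  have hLx : 256 / x ≤ L := (le_max_right _ _).trans ((le_max_left _ _).trans f1)
  have hLc : 64 / (x * cz) ≤ L := (le_max_right _ _).trans ((le_max_right _ _).trans f1)
  have hl1 : 1 ≤ Real.log L := (le_max_left _ _).trans f4
  have hlc : 4 / cz ≤ Real.log L := (le_max_right _ _).trans f4
  have hNe : (N : ℝ) = Real.exp L := by rw [hL, Real.exp_log hN0]
  have hNpow : ∀ s : ℝ, (N : ℝ) ^ s = Real.exp (s * L) := by
    intro s
    rw [Real.rpow_def_of_pos hN0, ← hL, mul_comm]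
  have hlog2 : Real.log 2 ≤ η * L := by
    rw [div_le_iff₀ hη0] at hLη
    linarith
  have h2N : 2 ≤ (N : ℝ) ^ η := by
    rw [hNpow]
    rw [← Real.log_le_iff_le_exp (by norm_num)]
    exact hlog2
  -- the sets of moduli
  obtain ⟨K, hK⟩ : ∃ K : Finset ℕ, K = SD z₀ ⌊(N : ℝ) ^ (1 - η)⌋₊ := ⟨_, rfl⟩
  obtain ⟨K', hK'⟩ : ∃ K' : Finset ℕ, K' = SD z₀ ⌊(N : ℝ) ^ (2 * η)⌋₊ := ⟨_, rfl⟩
  have hKK : K' ⊆ K := by
    intro d hd
    rw [hK', mem_SD] at hd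
    rw [hK, mem_SD]
    refine ⟨⟨hd.1.1, hd.1.2.trans ?_⟩, hd.2⟩
    apply Nat.floor_le_floor
    apply Real.rpow_le_rpow_of_exponent_le (by exact_mod_cast (by omega : 1 ≤ N))
    linarith
  obtain ⟨A, hA⟩ : ∃ A : ℝ, A = ∑ d ∈ K, cG N d / d := ⟨_, rfl⟩
  obtain ⟨V, hV⟩ : ∃ V : ℝ, V = VP (PP y z₀) := ⟨_, rfl⟩
  obtain ⟨S', hS'⟩ : ∃ S' : ℝ, S' = ∑ d ∈ K', 1 / (d : ℝ) := ⟨_, rfl⟩
  have hV0 : 0 ≤ V := by rw [hV]; exact (VP_bd y z₀).1
  have hVV : V * Vz y = Vz z₀ := by rw [hV]; exact VP_PP w1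
  have hVy : 0 < Vz y := Vz_pos y
  have hz₀3 : 3 ≤ z₀ := w2.trans w1
  have hVz₀ : Vz z₀ ≤ 2 / ε₁ / L := by
    have g1 := Vz_up z₀ (by omega)
    have g2 : 0 < ε₁ / 2 * L := by positivity
    have g3 : Vz z₀ * (ε₁ / 2 * L) ≤ 1 := by
      calc Vz z₀ * (ε₁ / 2 * L) ≤ Vz z₀ * Real.log z₀ := mul_le_mul_of_nonneg_left w4 (Vz_pos z₀).le
        _ ≤ 1 := by linarith
    calc Vz z₀ ≤ 1 / (ε₁ / 2 * L) := by rw [le_div_iff₀ g2]; exact g3
      _ = 2 / ε₁ / L := by field_simp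
  have hρV : ρ * (V * Vz y) ≤ x / 8 / L := by
    rw [hVV]
    calc ρ * Vz z₀ ≤ ρ * (2 / ε₁ / L) := mul_le_mul_of_nonneg_left hVz₀ hρ0
      _ = ρ * (2 / ε₁) / L := by ring
      _ ≤ x / 8 / L := div_le_div_of_nonneg_right hρx hL0.le
  -- the sum over `K'`
  have hS'le : S' ≤ (4 * R / cz) ^ 3 := by
    obtain ⟨Z', hZ'⟩ : ∃ Z' : ℕ, Z' = ⌊(N : ℝ) ^ (2 * η)⌋₊ := ⟨_, rfl⟩
    have hzZ : z₀ ≤ Z' := by
      rw [hZ']
      apply Nat.le_floor
      rw [hz₀]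
      refine (zN_lt (by omega)).le.trans ?_
      apply Real.rpow_le_rpow_of_exponent_le (by exact_mod_cast (by omega : 1 ≤ N))
      linarith
    have hZ'0 : (0 : ℝ) < Z' := by exact_mod_cast (by omega : 0 < Z')
    have hlZ : Real.log Z' ≤ 2 * η * L := by
      rw [Real.log_le_iff_le_exp hZ'0, ← hNpow, hZ']
      exact Nat.floor_le (by positivity)
    have hlZ0 : 0 < Real.log Z' := Real.log_pos (by exact_mod_cast (by omega : 1 < Z'))
    have h1 : S' ≤ EE z₀ Z' := by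
      rw [hS', hK', ← hZ']
      refine le_trans ?_ (sum_div_le z₀ Z')
      exact sum_le_sum fun d _ => div_le_div_of_nonneg_right (one_le_pow₀ (by norm_num)) (Nat.cast_nonneg d)
    refine h1.trans ((EE_le z₀ Z' hzZ).trans ?_)
    refine pow_le_pow_left₀ (div_nonneg (Vz_pos z₀).le (Vz_pos Z').le) ?_ 3
    have h2 : cz / (2 * η * L) ≤ Vz Z' :=
      (div_le_div_of_nonneg_left hcz.le hlZ0 hlZ).trans (VZ Z' (by omega))
    calc Vz z₀ / Vz Z' ≤ (2 / ε₁ / L) / (cz / (2 * η * L)) := div_le_div₀ (by positivity) hVz₀ (by positivity) h2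
      _ = 4 * R / cz := by
          rw [hε₁]
          field_simp
          norm_num
  -- the error functional
  obtain ⟨Z, hZ⟩ : ∃ Z : (ℕ → ℝ) → ℕ → ℝ, Z = fun f t => 8 * L * ((1 + CE) * EV y N ε₁ δ' (K.erase 1) f t) := ⟨_, rfl⟩
  have hns : (1 + 2 ^ m₀) * (3 * N / z₀) ≤ 1 / 2 * (N / L ^ U) := by
    have hz₀0 : (0 : ℝ) < z₀ := by exact_mod_cast (by omega : 0 < z₀)
    have h1 : 6 * (1 + 2 ^ m₀) * L ^ U ≤ z₀ := by
      refine f2.trans ?_
      rw [← hNpow]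
      exact w7
    rw [← mul_div_assoc, ← mul_div_assoc, div_le_div_iff₀ hz₀0 (by positivity)]
    calc (1 + 2 ^ m₀) * (3 * (N : ℝ)) * L ^ U = 1 / 2 * N * (6 * (1 + 2 ^ m₀) * L ^ U) := by ring
      _ ≤ 1 / 2 * N * z₀ := mul_le_mul_of_nonneg_left h1 (by positivity)
  have KEY : ∀ f : ℕ → ℝ, (∀ n, 0 ≤ f n ∧ f n ≤ 1) → ∀ t ≤ N, Z f t ≤ N / L ^ U →
      |∑ n ∈ Icc 1 N, f n * gG z₀ N (n + t) - A / 2 * (V * ∑ n ∈ Icc 1 N, f n * ro y (n + t))| ≤
        ρ * (V * ∑ n ∈ Icc 1 N, f n * ro y (n + t)) + N / L ^ U := by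
    intro f hf t ht hZt
    have hW0 : 0 ≤ ∑ n ∈ Icc 1 N, f n * ro y (n + t) := sum_nonneg fun n _ => mul_nonneg (hf n).1 (ro_nonneg _ _)
    have hVW : 0 ≤ V * ∑ n ∈ Icc 1 N, f n * ro y (n + t) := mul_nonneg hV0 hW0
    have g1 := gG_sum (z := z₀) (M := m₀) (by omega) (by omega) w6 hη0 (by linarith) (by rw [← hL]; exact hlog2) h2N f hf t ht
    obtain ⟨_, g2⟩ := w8 K (by rw [hK])
    obtain ⟨_, g3⟩ := w8 K' (by rw [hK] at hKK; exact hKK)
    have g2 := g2 (cG N) (cG_le N (by omega)) f hf t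
    have g3 := g3 (fun _ => 1) (fun _ => by rw [abs_one]) f hf t
    rw [← hK, ← hK'] at g1
    rw [← hA, ← hV] at g2
    rw [← hS', ← hV] at g3
    have hE0 : 0 ≤ 4 * L * ((1 + CE) * EV y N ε₁ δ' (K.erase 1) f t) := by
      have := EV_nonneg' (y := y) (N := N) (ε₁ := ε₁) (δ' := δ') (T := K.erase 1) f t
      positivity
    have g4 : 4 * L * ((1 + CE) * EV y N ε₁ δ' (K'.erase 1) f t) ≤ 4 * L * ((1 + CE) * EV y N ε₁ δ' (K.erase 1) f t) := by
      apply mul_le_mul_of_nonneg_left _ (by positivity)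
      apply mul_le_mul_of_nonneg_left _ (by positivity)
      exact EV_mono (erase_subset_erase 1 hKK) f t
    have g5 := calcA (c := (1 / 2) ^ b * CE) (E := 4 * L * ((1 + CE) * EV y N ε₁ δ' (K.erase 1) f t)) (S' := S')
      (VW := V * ∑ n ∈ Icc 1 N, f n * ro y (n + t)) hη0 (by linarith) (by positivity) hE0 hVW g1 g2
      (by linarith [(abs_le.1 g3).2])
    refine g5.trans ?_
    have g6 : ((1 / 2) ^ b * CE + η ^ 2 / 2 * S') * (V * ∑ n ∈ Icc 1 N, f n * ro y (n + t)) ≤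
        ρ * (V * ∑ n ∈ Icc 1 N, f n * ro y (n + t)) := by
      apply mul_le_mul_of_nonneg_right _ hVW
      rw [hρ]
      have := mul_le_mul_of_nonneg_left hS'le (show 0 ≤ η ^ 2 / 2 by positivity)
      linarith
    have g7 : 4 * L * ((1 + CE) * EV y N ε₁ δ' (K.erase 1) f t) ≤ 1 / 2 * (N / L ^ U) := by
      rw [hZ] at hZt
      simp only at hZt
      linarith
    linarith
  have hTT : ∀ e ∈ K.erase 1, (e : ℝ) ≤ (N : ℝ) ^ (1 - η) ∧ 1 < e ∧ Squarefree e ∧ Ro (zN ε₁ N) e := by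
    intro e he
    rw [mem_erase, hK, mem_SD, hz₀] at he
    refine ⟨?_, by omega, he.2.2.1, he.2.2.2⟩
    have h1 : (e : ℝ) ≤ ⌊(N : ℝ) ^ (1 - η)⌋₊ := by exact_mod_cast he.2.1.2
    exact h1.trans (Nat.floor_le (by positivity))
  have hfew : ∀ f : ℕ → ℝ, (∀ n, |f n| ≤ 1) → ∀ S : Finset ℕ, (∀ a ∈ S, a ≤ N ∧ (N : ℝ) / L ^ U < Z f a) →
      (S.card : ℝ) ≤ (N : ℝ) ^ (1 - η) * L ^ C := by
    intro f hf S hS
    refine FEW (K.erase 1) hTT f hf S fun a ha => ⟨(hS a ha).1, ?_⟩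
    have g1 := (hS a ha).2
    rw [hZ] at g1
    simp only at g1
    have e5 : (N : ℝ) / L ^ (U + 1) = N / L ^ U / L := by
      rw [pow_succ L U, div_div]
    rw [e5, div_lt_iff₀ hL0]
    calc (N : ℝ) / L ^ U < 8 * L * ((1 + CE) * EV y N ε₁ δ' (K.erase 1) f a) := g1
      _ = 8 * (1 + CE) * EV y N ε₁ δ' (K.erase 1) f a * L := by ring
  -- a good shift
  obtain ⟨M, hM⟩ : ∃ M : ℝ, M = N / L := ⟨_, rfl⟩
  have hM0 : 0 < M := by rw [hM]; positivity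
  have hNδ : (N : ℝ) ^ (1 - η) * L ^ C + 1 ≤ x / 256 * M := by
    have h1 : (N : ℝ) ^ (1 - η) * (512 / x * L ^ (C + 1)) ≤ N := by
      calc (N : ℝ) ^ (1 - η) * (512 / x * L ^ (C + 1)) ≤ (N : ℝ) ^ (1 - η) * Real.exp (η * L) :=
            mul_le_mul_of_nonneg_left f3 (by positivity)
        _ = N := by
            rw [← hNpow, ← Real.rpow_add hN0]
            simp
    have h2 : 1 ≤ (N : ℝ) ^ (1 - η) * L ^ C := by
      apply one_le_mul_of_one_le_of_one_le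
      · exact Real.one_le_rpow (by exact_mod_cast (by omega : 1 ≤ N)) (by linarith)
      · exact one_le_pow₀ hL1
    have h3 : (N : ℝ) ^ (1 - η) * L ^ C * 2 ≤ x / 256 * M := by
      rw [hM, ← mul_div_assoc, le_div_iff₀ hL0]
      have e6 : (N : ℝ) ^ (1 - η) * (512 / x * L ^ (C + 1)) = ((N : ℝ) ^ (1 - η) * L ^ C * 2 * L) * 256 / x := by
        rw [pow_succ]; ring
      rw [e6, div_le_iff₀ hx] at h1
      linarith
    linarith
  obtain ⟨t₀, ht₀1, ht₀2⟩ : ∃ t₀ : ℕ, (t₀ : ℝ) ≤ (N : ℝ) ^ (1 - η) * L ^ C + 1 ∧ (t₀ ≤ N → Z (fun _ => 1) t₀ ≤ N / L ^ U) := by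
    by_contra hcon
    push Not at hcon
    obtain ⟨F, hF⟩ : ∃ F : ℕ, F = ⌊(N : ℝ) ^ (1 - η) * L ^ C⌋₊ + 1 := ⟨_, rfl⟩
    have h1 : ∀ a ∈ Icc 1 F, a ≤ N ∧ (N : ℝ) / L ^ U < Z (fun _ => 1) a := by
      intro a ha
      rw [mem_Icc] at ha
      apply hcon a
      have h2 : (a : ℝ) ≤ F := by exact_mod_cast ha.2
      rw [hF] at h2
      push_cast at h2
      have h3 := Nat.floor_le (show 0 ≤ (N : ℝ) ^ (1 - η) * L ^ C by positivity)
      linarith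
    have h2 := hfew (fun _ => 1) (fun _ => by rw [abs_one]) (Icc 1 F) h1
    rw [Nat.card_Icc, Nat.add_sub_cancel, hF] at h2
    push_cast at h2
    have h3 := Nat.lt_floor_add_one ((N : ℝ) ^ (1 - η) * L ^ C)
    linarith
  have hxM : x / 256 * M ≤ x / 256 * N := by
    apply mul_le_mul_of_nonneg_left _ (by positivity)
    rw [hM]
    exact div_le_self hN0.le hL1
  have ht₀N : t₀ ≤ N := by
    have h1 : (t₀ : ℝ) ≤ N := by
      have : x / 256 * N ≤ 1 * N := mul_le_mul_of_nonneg_right (by linarith) hN0.le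
      linarith
    exact_mod_cast h1
  have hkey0 := KEY (fun _ => 1) (fun _ => ⟨zero_le_one, le_rfl⟩) t₀ ht₀N (ht₀2 ht₀N)
  simp only [one_mul] at hkey0
  obtain ⟨W, hW⟩ : ∃ W : ℝ, W = ∑ n ∈ Icc 1 N, ro y (n + t₀) := ⟨_, rfl⟩
  rw [← hW] at hkey0
  have hWint : |W - N * Vz y| ≤ x / 32 * (N * Vz y) := by
    have h1 := INT {t₀} (card_singleton t₀)
    rw [PT_single, one_mul, pow_one] at h1
    have h2 : (((Icc 1 N).filter (fun n => ∀ t ∈ ({t₀} : Finset ℕ), Ro y (n + t))).card : ℝ) = W := by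
      rw [hW, card_filter]
      push_cast
      refine sum_congr rfl fun n _ => ?_
      unfold ro
      simp only [mem_singleton, forall_eq]
    rw [h2] at h1
    refine h1.trans ?_
    have h3 : cz / L ≤ Vz y := by
      have hy0 : (0 : ℝ) < y := by exact_mod_cast (by omega : 0 < y)
      have hyN : Real.log y ≤ L := by
        rw [hL]
        exact Real.log_le_log hy0 (by exact_mod_cast w1.trans w3)
      have hly : 0 < Real.log y := Real.log_pos (by exact_mod_cast (by omega : 1 < y))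
      exact (div_le_div_of_nonneg_left hcz.le hly hyN).trans (VZ y w2)
    have h4 : (N : ℝ) / L ^ 3 ≤ x / 64 * (N * Vz y) := by
      have h5 : x / 64 * (N * (cz / L)) ≤ x / 64 * (N * Vz y) := by gcongr
      refine le_trans ?_ h5
      rw [div_le_iff₀ (by positivity)]
      have h6 : x / 64 * (N * (cz / L)) * L ^ 3 = N * (x * cz / 64 * L * L) := by
        field_simp
      rw [h6]
      rw [div_le_iff₀ (by positivity)] at hLc
      have h7 : 1 ≤ x * cz / 64 * L := by linarith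
      have h8 : 1 ≤ x * cz / 64 * L * L := one_le_mul_of_one_le_of_one_le h7 hL1
      calc (N : ℝ) = N * 1 := (mul_one _).symm
        _ ≤ _ := mul_le_mul_of_nonneg_left h8 hN0.le
    have h5 : x / 32 * (N * Vz y) = x / 64 * (N * Vz y) + x / 64 * (N * Vz y) := by ring
    rw [h5]
    linarith
  -- the constant
  obtain ⟨B, hB⟩ : ∃ B : ℝ, B = A / 2 * V * Vz y * L := ⟨_, rfl⟩
  obtain ⟨w, hw⟩ : ∃ w : ℝ, w = W / (N * Vz y) := ⟨_, rfl⟩
  have hNV : 0 < N * Vz y := by positivity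
  have hWw : W = w * (N * Vz y) := by rw [hw]; field_simp
  have hw1 : 1 - x / 32 ≤ w := by
    rw [hw, le_div_iff₀ hNV]
    linarith [(abs_le.1 hWint).1]
  have hw2 : w ≤ 1 + x / 32 := by
    rw [hw, div_le_iff₀ hNV]
    linarith [(abs_le.1 hWint).2]
  have hSG : ∑ n ∈ Icc 1 N, gG z₀ N n = SG z₀ N / 2 := by
    unfold SG gG
    rw [sum_div]
    refine sum_congr rfl fun n hn => ?_
    rw [mem_Icc] at hn
    rw [if_pos (by omega)]
  have hshift := shift_sum (g := gG z₀ N) (gG_bd (by omega)) N t₀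
  rw [hSG] at hshift
  have hav := AVG z₀ w4 w5
  rw [← hM] at hav
  have hX : |∑ n ∈ Icc 1 N, gG z₀ N (n + t₀) - M| ≤ x / 32 * M := by
    have h1 : (t₀ : ℝ) ≤ x / 256 * M := by linarith
    have h2 : (2 * ε₁ + x / 64) * M ≤ (x / 50) * M := mul_le_mul_of_nonneg_right (by linarith) hM0.le
    have h3 := abs_le.1 hshift
    have h4 := abs_le.1 hav
    have h5 : x / 256 * M + (x / 50) * M / 2 ≤ x / 32 * M := by
      have : (x / 256 + x / 50 / 2) * M ≤ (x / 32) * M := mul_le_mul_of_nonneg_right (by linarith) hM0.le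
      linarith
    rw [abs_le]
    constructor <;> linarith
  have hUx : (N : ℝ) / L ^ U ≤ x / 64 * M := by
    rw [hM, div_le_iff₀ (by positivity)]
    have h1 : L ^ 2 ≤ L ^ U := pow_le_pow_right₀ hL1 hU
    rw [div_le_iff₀ hx] at hLx
    calc (N : ℝ) ≤ N * (x / 64 * L) := by
          have : 1 ≤ x / 64 * L := by linarith
          exact le_mul_of_one_le_right hN0.le this
      _ = x / 64 * (N / L) * L ^ 2 := by field_simp
      _ ≤ x / 64 * (N / L) * L ^ U := mul_le_mul_of_nonneg_left h1 (by positivity)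
  have hBB := calcB (B := B) (w := w) (M := M) (x := x) (ρ' := ρ * (V * Vz y) * L) (e := N / L ^ U)
    (X := ∑ n ∈ Icc 1 N, gG z₀ N (n + t₀)) hx hx8 hM0 hw1 hw2 (by
      calc ρ * (V * Vz y) * L ≤ x / 8 / L * L := mul_le_mul_of_nonneg_right hρV hL0.le
        _ = x / 8 := by field_simp) (by positivity) hUx hX (by
      have e7 : B * (w * M) = A / 2 * (V * W) := by rw [hB, hM, hWw]; field_simp
      have e8 : ρ * (V * Vz y) * L * (w * M) = ρ * (V * W) := by rw [hM, hWw]; field_simp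
      rw [e7, e8]
      exact hkey0)
  obtain ⟨hB1, hB2⟩ := hBB
  have hB0 : 0 < B := by linarith
  obtain ⟨u, hu⟩ : ∃ u : ℝ, u = A / 2 * V := ⟨_, rfl⟩
  have huV : u * Vz y = B / L := by rw [hu, hB]; field_simp
  have hu0 : 0 ≤ u := by
    by_contra hneg
    push Not at hneg
    have h1 : u * Vz y < 0 := mul_neg_of_neg_of_pos hneg hVy
    rw [huV] at h1
    have h2 : 0 < B / L := by positivity
    linarith
  have hρu : ρ * V ≤ x / 4 * u := by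
    have h1 : ρ * V * Vz y ≤ x / 4 * u * Vz y := by
      rw [mul_assoc, mul_assoc, huV]
      refine hρV.trans ?_
      rw [← mul_div_assoc, div_le_div_iff_of_pos_right hL0]
      have : x / 4 * (1 / 2) ≤ x / 4 * B := mul_le_mul_of_nonneg_left (by linarith) (by positivity)
      linarith
    exact le_of_mul_le_mul_right h1 hVy
  refine ⟨u, Z, hu0, ?_, ?_, ?_, w2, w7, ?_, hfew⟩
  · -- `u` is small
    have hy0 : (0 : ℝ) < y := by exact_mod_cast (by omega : 0 < y)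
    have hly : 0 < Real.log y := Real.log_pos (by exact_mod_cast (by omega : 1 < y))
    have h1 : Real.log y ≤ κ * L / Real.log L := by
      rw [Real.log_le_iff_le_exp hy0]
      exact y1
    have h2 : cz / (L / Real.log L) ≤ Vz y := by
      refine le_trans ?_ (VZ y w2)
      apply div_le_div_of_nonneg_left hcz.le hly
      refine h1.trans ?_
      apply div_le_div_of_nonneg_right _ (by linarith)
      calc κ * L ≤ 1 * L := mul_le_mul_of_nonneg_right hκ1 hL0.le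
        _ = L := one_mul L
    have h3 : u * (cz / (L / Real.log L)) ≤ B / L := by
      rw [← huV]
      exact mul_le_mul_of_nonneg_left h2 hu0
    have h4 : u * (cz * Real.log L) ≤ B := by
      have e9 : u * (cz / (L / Real.log L)) = u * (cz * Real.log L) / L := by field_simp
      rw [e9, div_le_div_iff_of_pos_right hL0] at h3
      exact h3
    have h5 : 4 ≤ cz * Real.log L := by
      rw [div_le_iff₀ hcz] at hlc
      linarith
    have h6 : u * 4 ≤ u * (cz * Real.log L) := mul_le_mul_of_nonneg_left h5 hu0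
    have h7 : u ≤ 1 / 2 := by linarith
    calc (1 + x) * u ≤ 2 * (1 / 2) := mul_le_mul (by linarith) h7 hu0 (by norm_num)
      _ = 1 := by norm_num
  · rw [huV]
    exact div_le_div_of_nonneg_right (by linarith) hL0.le
  · rw [huV]
    exact div_le_div_of_nonneg_right (by linarith) hL0.le
  · intro f hf t ht hZt
    have h1 := KEY f hf t ht hZt
    have hW0 : 0 ≤ ∑ n ∈ Icc 1 N, f n * ro y (n + t) := sum_nonneg fun n _ => mul_nonneg (hf n).1 (ro_nonneg _ _)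
    have e10 : A / 2 * (V * ∑ n ∈ Icc 1 N, f n * ro y (n + t)) = u * ∑ n ∈ Icc 1 N, f n * ro y (n + t) := by
      rw [hu]; ring
    rw [e10] at h1
    refine h1.trans ?_
    have h2 : ρ * (V * ∑ n ∈ Icc 1 N, f n * ro y (n + t)) ≤ x * (u * ∑ n ∈ Icc 1 N, f n * ro y (n + t)) := by
      calc ρ * (V * ∑ n ∈ Icc 1 N, f n * ro y (n + t)) = (ρ * V) * ∑ n ∈ Icc 1 N, f n * ro y (n + t) := by ring
        _ ≤ (x / 4 * u) * ∑ n ∈ Icc 1 N, f n * ro y (n + t) := mul_le_mul_of_nonneg_right hρu hW0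
        _ ≤ (x * u) * ∑ n ∈ Icc 1 N, f n * ro y (n + t) := by
            apply mul_le_mul_of_nonneg_right _ hW0
            exact mul_le_mul_of_nonneg_right (by linarith) hu0
        _ = _ := by ring
    linarith

end Pool.Agent.H528.StA
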