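import Mathlib
import Pool.Agent.H528.StA
import Pool.Agent.H528.Lam
import Pool.Agent.H528.UpLo

/-! The asymptotic sieve for almost all patterns. -/

set_option autoImplicit false

namespace Pool.Agent.H528.Asy

open Finset Filter Topology
open Pool.Agent.Y822
open Pool.Agent.Y822.Q (VP_PP VP_bd Vz_pos Vz_up)
open Pool.Agent.Y822.Par3
open Pool.Agent.H373R2.T7 (pz Vz mem_pz)
open Pool.Agent.H387R2.Uni (nuT Adm locT CT)
open Pool.Agent.H528.Gam Pool.Agent.H528.Avg Pool.Agent.H528.Cst Pool.Agent.H528.UpLo Pool.Agent.H528.Lam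

/-- the sum of the products of the weights over the primes -/
noncomputable def PG (z N : ℕ) (H : Finset ℕ) : ℝ := ∑ n ∈ Icc 1 N, eP n * ∏ h ∈ H, gG z N (n + h)

lemma PG_eq (z N : ℕ) (H : Finset ℕ) (r : ℕ → ℝ) : ∑ n ∈ Icc 1 N, WH eP (gG z N) r H H n = PG z N H := by
  unfold PG WH
  refine sum_congr rfl fun n _ => ?_
  rw [Finset.sdiff_self, prod_empty, mul_one]

/-- **the products of the weights, for almost all sets of shifts** -/
theorem prodG (k : ℕ) (ε : ℝ) (hε : 0 < ε) : ∃ δ : ℝ, 1 / 2 ≤ δ ∧ δ < 1 ∧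
    ∃ ξ : ℝ, 0 < ξ ∧ ξ ≤ 1 / 8 ∧ ξ ≤ ε ∧ ∃ B : ℕ, ∀ᶠ N : ℕ in atTop, (N : ℝ) ^ (ξ / 2) ≤ zN ξ N ∧
    ∀ A : Finset ℕ, (∀ a ∈ A, 1 ≤ a ∧ a ≤ N) → ∀ Bad : Finset (Finset ℕ),
    (∀ H ∈ Bad, H ∈ A.powersetCard (k + 1) ∧ Adm (pat H) ∧
      ε * CT (pat H) * (N / Real.log N ^ (k + 2)) < |PG (zN ξ N) N H - CT (pat H) * (N / Real.log N ^ (k + 2))|) →
    (Bad.card : ℝ) ≤ A.card.choose k * ((N : ℝ) ^ δ * Real.log N ^ B) := by
  classical
  obtain ⟨X, hX, hX8, hX4, hX5⟩ := ex_small (k + 1) 1 1 (ε / 2) zero_le_one (by positivity)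
  obtain ⟨x, hx⟩ : ∃ x : ℝ, x = min (X / 3) ε := ⟨_, rfl⟩
  have hx0 : 0 < x := by rw [hx]; exact lt_min (by positivity) hε
  have hxX : x ≤ X / 3 := by rw [hx]; exact min_le_left _ _
  have hxε : x ≤ ε := by rw [hx]; exact min_le_right _ _
  obtain ⟨δ, hδ1, hδ2, ε₁, hε₁, hε₁x, κ, hκ, hκ1, C, STEP⟩ := StA.stA x hx0 (by linarith) (k + 4) (by omega)
  obtain ⟨c0, hc0, hlow⟩ := PT_low (k + 1)
  have hm0 := main0 κ hκ hκ1 (k + 1) (k + 4) X hX (by linarith)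
  obtain ⟨M, hM⟩ : ∃ M : ℕ, M = ⌈((k : ℝ) + 2) ^ 2 * (2 / X)⌉₊ + 4 := ⟨_, rfl⟩
  refine ⟨δ, hδ1, hδ2, ε₁, hε₁, by linarith, by linarith, C + 1, ?_⟩
  have e1 := ev_logN (eventually_ge_atTop ((2 : ℝ) ^ (k + 1)))
  have e1' := ev_logN (eventually_ge_atTop (2 * (k + 4) / (ε * c0)))
  have e1'' := ev_logN (eventually_ge_atTop (4 * ((k : ℝ) + 1 + 1) ^ 3 / X))
  filter_upwards [STEP, hm0, yN_facts κ hκ hκ1 M 8, e1, e1', e1'', eventually_ge_atTop 3] with N hstep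
    h2 hyf h3 h3' h3'' hN
  obtain ⟨u, Z, hu0, hu1, huL, huU, w2, hzb, hst, hfew⟩ := hstep
  refine ⟨hzb, ?_⟩
  intro A hA Bad hBad
  obtain ⟨y1, y2, y3, y4, y5⟩ := hyf
  have hL1 : 1 ≤ Real.log N := le_trans (one_le_pow₀ (by norm_num)) h3
  have hL0 : 0 < Real.log N := by linarith
  have hN0 : (0 : ℝ) < N := by positivity
  set L := Real.log N with hLd
  set y := yN κ N with hyd
  obtain ⟨z₀, hz₀⟩ : ∃ z₀ : ℕ, z₀ = zN ε₁ N := ⟨_, rfl⟩
  rw [← hz₀] at hst hBad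
  have hVy : 0 < Vz y := Vz_pos y
  have hxN0 : 0 ≤ (N : ℝ) / L ^ (k + 4) := by positivity
  obtain ⟨Z', hZ'⟩ : ∃ Z' : (ℕ → ℝ) → ℕ → ℝ, Z' = fun f t => if t ≤ N then Z f t else N / L ^ (k + 4) + 1 := ⟨_, rfl⟩
  have hfew' : ∀ f : ℕ → ℝ, (∀ n, |f n| ≤ 1) → ∀ S : Finset ℕ, (∀ a ∈ S, a ≤ N ∧ (N : ℝ) / L ^ (k + 4) < Z' f a) →
      (S.card : ℝ) ≤ (N : ℝ) ^ δ * L ^ C := by
    intro f hf S hS
    refine hfew f hf S fun a ha => ⟨(hS a ha).1, ?_⟩
    obtain ⟨g1, g2⟩ := hS a ha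
    rw [hZ'] at g2
    simp only [if_pos g1] at g2
    exact g2
  obtain ⟨uU, huUd⟩ : ∃ uU : ℝ, uU = (1 + x) * u := ⟨_, rfl⟩
  obtain ⟨uL, huLd⟩ : ∃ uL : ℝ, uL = (1 - x) * u := ⟨_, rfl⟩
  have huU0 : 0 ≤ uU := by rw [huUd]; exact mul_nonneg (by linarith) hu0
  have huL0 : 0 ≤ uL := by rw [huLd]; exact mul_nonneg (by linarith) hu0
  have huU1 : uU ≤ 1 := by rw [huUd]; exact hu1
  have huL1 : uL ≤ 1 := by
    rw [huLd]
    exact (mul_le_mul_of_nonneg_right (by linarith) hu0).trans hu1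
  have huUV : uU * Vz y ≤ (1 + X) / L := by
    rw [huUd, mul_assoc]
    calc (1 + x) * (u * Vz y) ≤ (1 + x) * ((1 + x) / L) := mul_le_mul_of_nonneg_left huU (by linarith)
      _ = (1 + x) * (1 + x) / L := by ring
      _ ≤ (1 + X) / L := by
          apply div_le_div_of_nonneg_right _ hL0.le
          have : x * x ≤ x * (1 / 8) := mul_le_mul_of_nonneg_left (by linarith) hx0.le
          linarith
  have huLV : (1 - X) / L ≤ uL * Vz y := by
    rw [huLd, mul_assoc]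
    calc (1 - X) / L ≤ (1 - x) * (1 - x) / L := by
          apply div_le_div_of_nonneg_right _ hL0.le
          have : 0 ≤ x * x := mul_self_nonneg x
          linarith
      _ = (1 - x) * ((1 - x) / L) := by ring
      _ ≤ (1 - x) * (u * Vz y) := mul_le_mul_of_nonneg_left huL (by linarith)
  have hSU : ∀ f : ℕ → ℝ, (∀ n, 0 ≤ f n ∧ f n ≤ 1) → ∀ h : ℕ, Z' f h ≤ N / L ^ (k + 4) →
      ∑ n ∈ Icc 1 N, f n * gG z₀ N (n + h) ≤ uU * ∑ n ∈ Icc 1 N, f n * ro y (n + h) + N / L ^ (k + 4) := by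
    intro f hf t ht
    rw [hZ'] at ht
    simp only at ht
    split_ifs at ht with h
    · have g1 := (abs_le.1 (hst f hf t h ht)).2
      have e : uU * ∑ n ∈ Icc 1 N, f n * ro y (n + t) = u * ∑ n ∈ Icc 1 N, f n * ro y (n + t) +
        x * (u * ∑ n ∈ Icc 1 N, f n * ro y (n + t)) := by rw [huUd]; ring
      rw [e]
      linarith
    · linarith
  have hSL : ∀ f : ℕ → ℝ, (∀ n, 0 ≤ f n ∧ f n ≤ 1) → ∀ h : ℕ, Z' f h ≤ N / L ^ (k + 4) →
      uL * ∑ n ∈ Icc 1 N, f n * ro y (n + h) - N / L ^ (k + 4) ≤ ∑ n ∈ Icc 1 N, f n * gG z₀ N (n + h) := by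
    intro f hf t ht
    rw [hZ'] at ht
    simp only at ht
    split_ifs at ht with h
    · have g1 := (abs_le.1 (hst f hf t h ht)).1
      have e : uL * ∑ n ∈ Icc 1 N, f n * ro y (n + t) = u * ∑ n ∈ Icc 1 N, f n * ro y (n + t) -
        x * (u * ∑ n ∈ Icc 1 N, f n * ro y (n + t)) := by rw [huLd]; ring
      rw [e]
      linarith
    · linarith
  have hgb : ∀ m, 0 ≤ gG z₀ N m ∧ gG z₀ N m ≤ 1 := gG_bd (by omega)
  have hbad : ∀ H ∈ Bad, H ∈ A.powersetCard (k + 1) ∧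
      ¬ Good eP (gG z₀ N) (ro y) Z' (N / L ^ (k + 4)) H := by
    intro H hH
    obtain ⟨b1, b2, b3⟩ := hBad H hH
    refine ⟨b1, fun hg => ?_⟩
    rw [mem_powersetCard] at b1
    have h0 : 0 ∉ H := fun h => by
      have := (hA 0 (b1.1 h)).1
      omega
    have hTc : (pat H).card = k + 1 + 1 := by rw [card_pat h0, b1.2]
    obtain ⟨c1, c2⟩ := hlow (pat H) hTc b2
    have hpt : PT (pat H) y ≤ (1 + X) * CT (pat H) := by
      refine PT_le_CT (pat H) X hX (by linarith) y ?_ (by omega)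
      rw [hTc]
      have g1 : ((k : ℝ) + 2) ^ 2 * (2 / X) ≤ M := by
        rw [hM]
        push_cast
        have := Nat.le_ceil (((k : ℝ) + 2) ^ 2 * (2 / X))
        linarith
      have g2 : (M : ℝ) ≤ y := by exact_mod_cast y5
      have e : (((k + 1 + 1 : ℕ) : ℝ)) ^ 2 = ((k : ℝ) + 2) ^ 2 := by push_cast; ring
      rw [e]
      linarith
    have hct : CT (pat H) ≤ (1 + X) * PT (pat H) y := by
      refine CT_le1 (k := k + 1) (L := L) hX (by linarith) hLd hL1 w2 ?_ ?_ hTc ?_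
      · refine le_trans ?_ y3
        exact pow_le_pow_right₀ hL1 (by omega)
      · push_cast
        exact h3''
      · intro t ht
        unfold pat at ht
        rw [mem_insert] at ht
        rcases ht with rfl | ht
        · omega
        · exact (hA t (b1.1 ht)).2
    have hmm := abs_le.1 (h2 (gG z₀ N) H h0 b1.2)
    have t1 := step_upper hxN0 huU0 huU1 eP_bd hgb (ro_bd y) (N := N) hSU hg H (subset_refl H)
    have t2 := step_lower hxN0 huL0 huL1 eP_bd hgb (ro_bd y) (N := N) hSL hg H (subset_refl H)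
    rw [b1.2, PG_eq] at t1 t2
    have r1 := up_calc (k := k) (x := X) (ε := ε) (c := 1) (c0 := c0) (L := L) (n := N) (u := uU) (V := Vz y)
      (PTy := PT (pat H) y) (W := ∑ n ∈ Icc 1 N, WH eP (gG z₀ N) (ro y) H ∅ n) (xN := N / L ^ (k + 4))
      (CTy := CT (pat H)) (P := PG z₀ N H) hX zero_le_one hε hc0 hL1 hN0 hX4 h3' huU0 huU1 hVy.le huUV c2 hpt
      (by linarith [hmm.2]) rfl (by push_cast at t1; linarith)
    have r2 := lo_calc (k := k) (x := X) (ε := ε) (c := 1) (c0 := c0) (L := L) (n := N) (u := uL) (V := Vz y)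
      (PTy := PT (pat H) y) (W := ∑ n ∈ Icc 1 N, WH eP (gG z₀ N) (ro y) H ∅ n) (xN := N / L ^ (k + 4))
      (CTy := CT (pat H)) (P := PG z₀ N H) hX hX8 hε hc0 hL1 hN0 hX5 h3' huL0 huL1 hVy.le huLV (PT_nonneg _ _) c2 hct
      (by linarith [hmm.1]) rfl (by push_cast at t2; linarith)
    rw [one_pow] at r1 r2
    have r3 : |PG z₀ N H - CT (pat H) * (N / L ^ (k + 2))| ≤ ε * CT (pat H) * (N / L ^ (k + 2)) := by
      rw [abs_le]
      constructor <;> linarith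
    linarith
  have hfinal := few_bad (K := (N : ℝ) ^ δ * L ^ C) (by positivity) eP_bd hgb (ro_bd y)
    hfew' k A (fun a ha => (hA a ha).2) Bad hbad
  refine hfinal.trans (mul_le_mul_of_nonneg_left ?_ (Nat.cast_nonneg _))
  have g1 : (2 : ℝ) ^ k ≤ L := by
    have : (2 : ℝ) ^ k ≤ 2 ^ (k + 1) := pow_le_pow_right₀ (by norm_num) (by omega)
    linarith
  calc (2 : ℝ) ^ k * ((N : ℝ) ^ δ * L ^ C) ≤ L * ((N : ℝ) ^ δ * L ^ C) :=
        mul_le_mul_of_nonneg_right g1 (by positivity)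
    _ = (N : ℝ) ^ δ * L ^ (C + 1) := by rw [pow_succ]; ring

end Pool.Agent.H528.Asy
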