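import Mathlib
import Pool.Agent.H528.Asy

/-! The asymptotic sieve for almost all patterns, with the function `Λ₂`. -/

set_option autoImplicit false

namespace Pool.Agent.H528.AsyL

open Finset Filter Topology
open Pool.Agent.Y822
open Pool.Agent.Y822.Q (VP_PP VP_bd Vz_pos Vz_up)
open Pool.Agent.Y822.Par3
open Pool.Agent.H373R2.T7 (pz Vz mem_pz)
open Pool.Agent.H387R2.Uni (nuT Adm locT CT)
open Pool.Agent.H528.Gam Pool.Agent.H528.Avg Pool.Agent.H528.Cst Pool.Agent.H528.UpLo Pool.Agent.H528.Lam Pool.Agent.H528.Asy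

/-- the sum of the products of `Λ₂` over the primes -/
noncomputable def S3 (z N : ℕ) (H : Finset ℕ) : ℝ := ∑ n ∈ Icc 1 N, eP n * ∏ h ∈ H, (ro z (n + h) * L2 (n + h))

/-- the pointwise comparison -/
lemma pt_cmp {z N m : ℕ} {θ L : ℝ} (hN : 2 ≤ N) (hL : L = Real.log N) (hm : 2 ≤ m) (hm2 : m ≤ 2 * N) (hθ0 : 0 < θ)
    (hθ : θ ≤ 1 / 8) (h1 : (1 - θ) * L ≤ Real.log m) (h2 : Real.log m ≤ (1 + θ) * L) :
    (1 - 4 * θ) * (2 * L ^ 2) * gG z N m ≤ ro z m * L2 m ∧ ro z m * L2 m ≤ (1 + 4 * θ) * (2 * L ^ 2) * gG z N m := by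
  obtain ⟨g1, g2⟩ := L2_cmp hN hL hm hθ0 hθ h1 h2
  have h0 := ro_nonneg z m
  unfold gG
  rw [if_pos hm2]
  have e1 : (1 - 4 * θ) * (2 * L ^ 2) * (ro z m * Gm N m / 2) = ro z m * ((1 - 4 * θ) * (L ^ 2 * Gm N m)) := by ring
  have e2 : (1 + 4 * θ) * (2 * L ^ 2) * (ro z m * Gm N m / 2) = ro z m * ((1 + 4 * θ) * (L ^ 2 * Gm N m)) := by ring
  rw [e1, e2]
  exact ⟨mul_le_mul_of_nonneg_left g1 h0, mul_le_mul_of_nonneg_left g2 h0⟩

/-- comparison of the sums -/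
lemma sum_cmp {z N c : ℕ} {θ L : ℝ} {e : ℕ → ℝ} (he : ∀ n, 0 ≤ e n ∧ e n ≤ 1) (hN : 2 ≤ N) (hL : L = Real.log N)
    (hL1 : 1 ≤ L) (hθ0 : 0 < θ) (hθ : θ ≤ 1 / 8)
    (hc : c * Real.log L ≤ θ * L) (hl2 : Real.log 2 ≤ θ * L) (H : Finset ℕ) (hH : ∀ h ∈ H, 1 ≤ h ∧ h ≤ N) :
    ∑ n ∈ Icc 1 N, e n * ∏ h ∈ H, (ro z (n + h) * L2 (n + h)) ≤
      ((1 + 4 * θ) * (2 * L ^ 2)) ^ H.card * (∑ n ∈ Icc 1 N, e n * ∏ h ∈ H, gG z N (n + h)) +
        (4 * L ^ 2) ^ H.card * (N / L ^ c) ∧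
    ((1 - 4 * θ) * (2 * L ^ 2)) ^ H.card * ((∑ n ∈ Icc 1 N, e n * ∏ h ∈ H, gG z N (n + h)) - N / L ^ c) ≤
      ∑ n ∈ Icc 1 N, e n * ∏ h ∈ H, (ro z (n + h) * L2 (n + h)) := by
  classical
  have hN0 : (0 : ℝ) < N := by exact_mod_cast (by omega : 0 < N)
  have hL0 : 0 < L := by linarith
  have hgb := gG_bd (z := z) hN
  have hcnt : ∑ n ∈ Icc 1 N, (if (n : ℝ) ≤ N / L ^ c then (1 : ℝ) else 0) ≤ N / L ^ c := by
    rw [← sum_filter, sum_const, nsmul_eq_mul, mul_one]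
    have h1 : (Icc 1 N).filter (fun n : ℕ => (n : ℝ) ≤ N / L ^ c) ⊆ Icc 1 ⌊(N : ℝ) / L ^ c⌋₊ := by
      intro n hn
      rw [mem_filter, mem_Icc] at hn
      rw [mem_Icc]
      exact ⟨hn.1.1, Nat.le_floor hn.2⟩
    have h2 := card_le_card h1
    rw [Nat.card_Icc, Nat.add_sub_cancel] at h2
    have h3 : (((Icc 1 N).filter (fun n : ℕ => (n : ℝ) ≤ N / L ^ c)).card : ℝ) ≤ ⌊(N : ℝ) / L ^ c⌋₊ := by exact_mod_cast h2
    exact h3.trans (Nat.floor_le (by positivity))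
  have hlog : ∀ n ∈ Icc 1 N, ∀ h ∈ H, 2 ≤ n + h ∧ n + h ≤ 2 * N ∧ Real.log ((n + h : ℕ) : ℝ) ≤ (1 + θ) * L := by
    intro n hn h hh
    rw [mem_Icc] at hn
    obtain ⟨h1, h2⟩ := hH h hh
    refine ⟨by omega, by omega, ?_⟩
    have h3 : Real.log ((n + h : ℕ) : ℝ) ≤ Real.log (2 * N) := by
      apply Real.log_le_log (by exact_mod_cast (by omega : 0 < n + h))
      exact_mod_cast (by omega : n + h ≤ 2 * N)
    rw [Real.log_mul (by norm_num) hN0.ne', ← hL] at h3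
    linarith
  have hbig : ∀ n ∈ Icc 1 N, ¬ (n : ℝ) ≤ N / L ^ c → ∀ h ∈ H, (1 - θ) * L ≤ Real.log ((n + h : ℕ) : ℝ) := by
    intro n hn hnb h hh
    push Not at hnb
    have h3 : Real.log ((N : ℝ) / L ^ c) ≤ Real.log ((n + h : ℕ) : ℝ) := by
      apply Real.log_le_log (by positivity)
      push_cast
      have : (0 : ℝ) ≤ h := Nat.cast_nonneg h
      linarith
    rw [Real.log_div hN0.ne' (by positivity), Real.log_pow, ← hL] at h3
    linarith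
  have hLb : ∀ n ∈ Icc 1 N, ∀ h ∈ H, 0 ≤ ro z (n + h) * L2 (n + h) ∧ ro z (n + h) * L2 (n + h) ≤ 4 * L ^ 2 := by
    intro n hn h hh
    obtain ⟨g1, g2, g3⟩ := hlog n hn h hh
    obtain ⟨g4, g5⟩ := L2_bd (m := n + h) (by omega)
    have g6 := ro_nonneg z (n + h)
    have g7 := ro_le_one z (n + h)
    refine ⟨mul_nonneg g6 g4, ?_⟩
    have g8 : Real.log ((n + h : ℕ) : ℝ) ≤ 2 * L := by
      have : (1 + θ) * L ≤ 2 * L := mul_le_mul_of_nonneg_right (by linarith) hL0.le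
      linarith
    have g9 : Real.log ((n + h : ℕ) : ℝ) ^ 2 ≤ (2 * L) ^ 2 := pow_le_pow_left₀ (log_nn _) g8 2
    calc ro z (n + h) * L2 (n + h) ≤ 1 * L2 (n + h) := mul_le_mul_of_nonneg_right g7 g4
      _ ≤ 4 * L ^ 2 := by rw [one_mul]; linarith
  constructor
  · have hpt : ∀ n ∈ Icc 1 N, e n * ∏ h ∈ H, (ro z (n + h) * L2 (n + h)) ≤
        ((1 + 4 * θ) * (2 * L ^ 2)) ^ H.card * (e n * ∏ h ∈ H, gG z N (n + h)) +
          (4 * L ^ 2) ^ H.card * (if (n : ℝ) ≤ N / L ^ c then (1 : ℝ) else 0) := by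
      intro n hn
      have hP0 : 0 ≤ ∏ h ∈ H, gG z N (n + h) := prod_nonneg fun h _ => (hgb _).1
      have hQ0 : 0 ≤ ∏ h ∈ H, (ro z (n + h) * L2 (n + h)) := prod_nonneg fun h hh => (hLb n hn h hh).1
      split_ifs with hnb
      · have h1 : ∏ h ∈ H, (ro z (n + h) * L2 (n + h)) ≤ (4 * L ^ 2) ^ H.card := by
          rw [← prod_const]
          exact prod_le_prod (fun h hh => (hLb n hn h hh).1) fun h hh => (hLb n hn h hh).2
        have h2 : e n * ∏ h ∈ H, (ro z (n + h) * L2 (n + h)) ≤ 1 * (4 * L ^ 2) ^ H.card :=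
          mul_le_mul (he n).2 h1 hQ0 zero_le_one
        have h3 : 0 ≤ ((1 + 4 * θ) * (2 * L ^ 2)) ^ H.card * (e n * ∏ h ∈ H, gG z N (n + h)) :=
          mul_nonneg (by positivity) (mul_nonneg (he n).1 hP0)
        linarith
      · rw [mul_zero, add_zero]
        have h1 : ∏ h ∈ H, (ro z (n + h) * L2 (n + h)) ≤ ∏ h ∈ H, ((1 + 4 * θ) * (2 * L ^ 2) * gG z N (n + h)) := by
          refine prod_le_prod (fun h hh => (hLb n hn h hh).1) fun h hh => ?_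
          obtain ⟨g1, g2, g3⟩ := hlog n hn h hh
          exact (pt_cmp hN hL g1 g2 hθ0 hθ (hbig n hn hnb h hh) g3).2
        have e1 : ∏ h ∈ H, ((1 + 4 * θ) * (2 * L ^ 2) * gG z N (n + h)) =
            ((1 + 4 * θ) * (2 * L ^ 2)) ^ H.card * ∏ h ∈ H, gG z N (n + h) := by
          rw [prod_mul_distrib, prod_const]
        rw [e1] at h1
        calc e n * ∏ h ∈ H, (ro z (n + h) * L2 (n + h)) ≤
              e n * (((1 + 4 * θ) * (2 * L ^ 2)) ^ H.card * ∏ h ∈ H, gG z N (n + h)) :=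
              mul_le_mul_of_nonneg_left h1 (he n).1
          _ = _ := by ring
    refine (sum_le_sum hpt).trans ?_
    rw [sum_add_distrib, ← mul_sum, ← mul_sum]
    have := mul_le_mul_of_nonneg_left hcnt (show 0 ≤ (4 * L ^ 2) ^ H.card by positivity)
    linarith
  · have hθ4 : 0 ≤ 1 - 4 * θ := by linarith
    have hD : 0 ≤ ((1 - 4 * θ) * (2 * L ^ 2)) ^ H.card := by positivity
    have hpt : ∀ n ∈ Icc 1 N, ((1 - 4 * θ) * (2 * L ^ 2)) ^ H.card * (e n * ∏ h ∈ H, gG z N (n + h)) -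
        ((1 - 4 * θ) * (2 * L ^ 2)) ^ H.card * (if (n : ℝ) ≤ N / L ^ c then (1 : ℝ) else 0) ≤
        e n * ∏ h ∈ H, (ro z (n + h) * L2 (n + h)) := by
      intro n hn
      have hP0 : 0 ≤ ∏ h ∈ H, gG z N (n + h) := prod_nonneg fun h _ => (hgb _).1
      have hP1 : ∏ h ∈ H, gG z N (n + h) ≤ 1 := prod_le_one (fun h _ => (hgb _).1) fun h _ => (hgb _).2
      have hQ0 : 0 ≤ ∏ h ∈ H, (ro z (n + h) * L2 (n + h)) := prod_nonneg fun h hh => (hLb n hn h hh).1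
      split_ifs with hnb
      · have h1 : e n * ∏ h ∈ H, gG z N (n + h) ≤ 1 := mul_le_one₀ (he n).2 hP0 hP1
        have h2 : ((1 - 4 * θ) * (2 * L ^ 2)) ^ H.card * (e n * ∏ h ∈ H, gG z N (n + h)) ≤
          ((1 - 4 * θ) * (2 * L ^ 2)) ^ H.card * 1 := mul_le_mul_of_nonneg_left h1 hD
        have h3 : 0 ≤ e n * ∏ h ∈ H, (ro z (n + h) * L2 (n + h)) := mul_nonneg (he n).1 hQ0
        linarith
      · rw [mul_zero, sub_zero]
        have h1 : ∏ h ∈ H, ((1 - 4 * θ) * (2 * L ^ 2) * gG z N (n + h)) ≤ ∏ h ∈ H, (ro z (n + h) * L2 (n + h)) := by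
          refine prod_le_prod (fun h hh => mul_nonneg (by positivity) (hgb _).1) fun h hh => ?_
          obtain ⟨g1, g2, g3⟩ := hlog n hn h hh
          exact (pt_cmp hN hL g1 g2 hθ0 hθ (hbig n hn hnb h hh) g3).1
        have e1 : ∏ h ∈ H, ((1 - 4 * θ) * (2 * L ^ 2) * gG z N (n + h)) =
            ((1 - 4 * θ) * (2 * L ^ 2)) ^ H.card * ∏ h ∈ H, gG z N (n + h) := by
          rw [prod_mul_distrib, prod_const]
        rw [e1] at h1
        calc ((1 - 4 * θ) * (2 * L ^ 2)) ^ H.card * (e n * ∏ h ∈ H, gG z N (n + h)) =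
              e n * (((1 - 4 * θ) * (2 * L ^ 2)) ^ H.card * ∏ h ∈ H, gG z N (n + h)) := by ring
          _ ≤ _ := mul_le_mul_of_nonneg_left h1 (he n).1
    refine le_trans ?_ (sum_le_sum hpt)
    rw [sum_sub_distrib, ← mul_sum, ← mul_sum, mul_sub]
    have := mul_le_mul_of_nonneg_left hcnt hD
    linarith

lemma ex_small2 (m : ℕ) (ε : ℝ) (hε : 0 < ε) : ∃ x : ℝ, 0 < x ∧ x ≤ 1 / 8 ∧ x ≤ ε ∧
    (1 + 4 * x) ^ m * (1 + x) + x ≤ 1 + ε ∧ 1 - ε ≤ (1 - 4 * x) ^ m * (1 - 2 * x) := by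
  have hc : ContinuousAt (fun x : ℝ => (1 + 4 * x) ^ m * (1 + x) + x) 0 := by fun_prop
  have hcc : ContinuousAt (fun x : ℝ => (1 - 4 * x) ^ m * (1 - 2 * x)) 0 := by fun_prop
  have h1 : ∀ᶠ x in 𝓝 (0 : ℝ), (1 + 4 * x) ^ m * (1 + x) + x < 1 + ε := by
    refine hc.eventually_lt continuousAt_const ?_
    simp only [mul_zero, add_zero, one_pow, one_mul]
    linarith
  have h2 : ∀ᶠ x in 𝓝 (0 : ℝ), 1 - ε < (1 - 4 * x) ^ m * (1 - 2 * x) := by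
    refine continuousAt_const.eventually_lt hcc ?_
    simp only [mul_zero, sub_zero, one_pow, one_mul]
    linarith
  obtain ⟨d, hd, h3⟩ := Metric.eventually_nhds_iff.1 (h1.and h2)
  refine ⟨min (d / 2) (min (1 / 8) ε), by positivity, (min_le_right _ _).trans (min_le_left _ _),
    (min_le_right _ _).trans (min_le_right _ _), ?_⟩
  have h4 := h3 (y := min (d / 2) (min (1 / 8) ε)) (by
    rw [Real.dist_eq, sub_zero, abs_of_pos (by positivity)]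
    exact (min_le_left _ _).trans_lt (by linarith))
  exact ⟨h4.1.le, h4.2.le⟩

/-- the final computation -/
lemma fin_calc {k : ℕ} {x ε c0 L n CTy P S : ℝ} (hx : 0 < x) (hx8 : x ≤ 1 / 8) (hε : 0 < ε) (hc0 : 0 < c0) (hL : 1 ≤ L)
    (hn : 0 < n) (hx1 : (1 + 4 * x) ^ (k + 1) * (1 + x) + x ≤ 1 + ε / 2 ^ (k + 1))
    (hx2 : 1 - ε / 2 ^ (k + 1) ≤ (1 - 4 * x) ^ (k + 1) * (1 - 2 * x))
    (hLb : 2 ^ (k + 1) / (x * c0) ≤ L) (hc : c0 ≤ CTy)
    (hP : |P - CTy * (n / L ^ (k + 2))| ≤ x * CTy * (n / L ^ (k + 2)))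
    (h1 : S ≤ ((1 + 4 * x) * (2 * L ^ 2)) ^ (k + 1) * P + (4 * L ^ 2) ^ (k + 1) * (n / L ^ (k + 3)))
    (h2 : ((1 - 4 * x) * (2 * L ^ 2)) ^ (k + 1) * (P - n / L ^ (k + 3)) ≤ S) :
    |S - 2 ^ (k + 1) * CTy * (n * L ^ k)| ≤ ε * CTy * (n * L ^ k) := by
  have hL0 : 0 < L := by linarith
  have hC0 : 0 < CTy := by linarith
  obtain ⟨E, hE⟩ : ∃ E : ℝ, E = CTy * (n / L ^ (k + 2)) := ⟨_, rfl⟩
  have hE0 : 0 < E := by rw [hE]; positivity
  obtain ⟨D, hD⟩ : ∃ D : ℝ, D = (2 * L ^ 2) ^ (k + 1) := ⟨_, rfl⟩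
  have hD0 : 0 < D := by rw [hD]; positivity
  have hDE : D * E = 2 ^ (k + 1) * CTy * (n * L ^ k) := by
    rw [hD, hE, mul_pow, ← pow_mul]
    have : L ^ (2 * (k + 1)) = L ^ (k + 2) * L ^ k := by rw [← pow_add]; congr 1; omega
    rw [this]
    field_simp
  have hsm : n / L ^ (k + 3) * 2 ^ (k + 1) ≤ x * E := by
    have e1 : n / L ^ (k + 3) = n / L ^ (k + 2) / L := by rw [pow_succ L (k + 2), div_div]
    rw [e1, hE]
    rw [div_le_iff₀ (by positivity)] at hLb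
    have h3 : n / L ^ (k + 2) / L * 2 ^ (k + 1) ≤ n / L ^ (k + 2) / L * (L * (x * c0)) :=
      mul_le_mul_of_nonneg_left hLb (by positivity)
    have h4 : n / L ^ (k + 2) / L * (L * (x * c0)) = x * (c0 * (n / L ^ (k + 2))) := by field_simp
    rw [h4] at h3
    refine h3.trans ?_
    apply mul_le_mul_of_nonneg_left _ hx.le
    exact mul_le_mul_of_nonneg_right hc (by positivity)
  have hsm2 : n / L ^ (k + 3) ≤ x * E := by
    refine le_trans ?_ hsm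
    have : (1 : ℝ) ≤ 2 ^ (k + 1) := one_le_pow₀ (by norm_num)
    exact le_mul_of_one_le_right (by positivity) this
  have hP' : |P - E| ≤ x * E := by
    rw [hE]
    calc _ ≤ _ := hP
      _ = _ := by ring
  obtain ⟨p1, p2⟩ := abs_le.1 hP'
  have e4 : (4 * L ^ 2) ^ (k + 1) = D * 2 ^ (k + 1) := by
    rw [hD, ← mul_pow]
    congr 1
    ring
  have hU : S ≤ D * ((1 + 4 * x) ^ (k + 1) * (1 + x) + x) * E := by
    refine h1.trans ?_
    rw [mul_pow, ← hD, e4]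
    have g1 : (1 + 4 * x) ^ (k + 1) * D * P ≤ (1 + 4 * x) ^ (k + 1) * D * ((1 + x) * E) :=
      mul_le_mul_of_nonneg_left (by linarith) (by positivity)
    have g2 : D * 2 ^ (k + 1) * (n / L ^ (k + 3)) ≤ D * (x * E) := by
      calc D * 2 ^ (k + 1) * (n / L ^ (k + 3)) = D * (n / L ^ (k + 3) * 2 ^ (k + 1)) := by ring
        _ ≤ _ := mul_le_mul_of_nonneg_left hsm hD0.le
    have e5 : D * ((1 + 4 * x) ^ (k + 1) * (1 + x) + x) * E = (1 + 4 * x) ^ (k + 1) * D * ((1 + x) * E) + D * (x * E) := by ring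
    rw [e5]
    linarith
  have hLo : D * ((1 - 4 * x) ^ (k + 1) * (1 - 2 * x)) * E ≤ S := by
    refine le_trans ?_ h2
    rw [mul_pow, ← hD]
    have g0 : 0 ≤ 1 - 4 * x := by linarith
    have g1 : (1 - 4 * x) ^ (k + 1) * D * ((1 - 2 * x) * E) ≤ (1 - 4 * x) ^ (k + 1) * D * (P - n / L ^ (k + 3)) :=
      mul_le_mul_of_nonneg_left (by linarith) (by positivity)
    calc D * ((1 - 4 * x) ^ (k + 1) * (1 - 2 * x)) * E = (1 - 4 * x) ^ (k + 1) * D * ((1 - 2 * x) * E) := by ring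
      _ ≤ _ := g1
  have hq : 0 < (2 : ℝ) ^ (k + 1) := by positivity
  have e6 : ε * CTy * (n * L ^ k) = ε / 2 ^ (k + 1) * (D * E) := by
    rw [hDE]
    field_simp
  rw [← hDE, e6]
  have hDE0 : 0 < D * E := by positivity
  have u1 : D * ((1 + 4 * x) ^ (k + 1) * (1 + x) + x) * E ≤ (1 + ε / 2 ^ (k + 1)) * (D * E) := by
    calc D * ((1 + 4 * x) ^ (k + 1) * (1 + x) + x) * E = ((1 + 4 * x) ^ (k + 1) * (1 + x) + x) * (D * E) := by ring
      _ ≤ _ := mul_le_mul_of_nonneg_right hx1 hDE0.le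
  have u2 : (1 - ε / 2 ^ (k + 1)) * (D * E) ≤ D * ((1 - 4 * x) ^ (k + 1) * (1 - 2 * x)) * E := by
    calc (1 - ε / 2 ^ (k + 1)) * (D * E) ≤ ((1 - 4 * x) ^ (k + 1) * (1 - 2 * x)) * (D * E) :=
          mul_le_mul_of_nonneg_right hx2 hDE0.le
      _ = _ := by ring
  rw [abs_le]
  constructor <;> linarith

/-- **the asymptotic sieve for almost all patterns** -/
theorem asyL (k : ℕ) (ε : ℝ) (hε : 0 < ε) : ∃ δ : ℝ, 1 / 2 ≤ δ ∧ δ < 1 ∧
    ∃ ξ : ℝ, 0 < ξ ∧ ξ ≤ 1 / 8 ∧ ξ ≤ ε ∧ ∃ B : ℕ, ∀ᶠ N : ℕ in atTop,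
    ∀ A : Finset ℕ, (∀ a ∈ A, 1 ≤ a ∧ a ≤ N) → ∀ Bad : Finset (Finset ℕ),
    (∀ H ∈ Bad, H ∈ A.powersetCard (k + 1) ∧ Adm (pat H) ∧
      ε * CT (pat H) * (N * Real.log N ^ k) < |S3 (zN ξ N) N H - 2 ^ (k + 1) * CT (pat H) * (N * Real.log N ^ k)|) →
    (Bad.card : ℝ) ≤ A.card.choose k * ((N : ℝ) ^ δ * Real.log N ^ B) := by
  obtain ⟨x, hx, hx8, hxε, hx1, hx2⟩ := ex_small2 (k + 1) (ε / 2 ^ (k + 1)) (by positivity)
  have hxε' : x ≤ ε := hxε.trans (div_le_self hε.le (one_le_pow₀ (by norm_num)))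
  obtain ⟨δ, hδ1, hδ2, ξ, hξ, hξ8, hξx, B, HP⟩ := prodG k x hx
  obtain ⟨c0, hc0, hlow⟩ := PT_low (k + 1)
  refine ⟨δ, hδ1, hδ2, ξ, hξ, hξ8, hξx.trans hxε', B, ?_⟩
  have e1 := ev_logN (eventually_ge_atTop (max (max 1 (Real.log 2 / x)) (2 ^ (k + 1) / (x * c0))))
  have e2 : ∀ᶠ N : ℕ in atTop, ((k + 3 : ℕ) : ℝ) * Real.log (Real.log N) ≤ x * Real.log N := by
    apply ev_logN (P := fun L => ((k + 3 : ℕ) : ℝ) * Real.log L ≤ x * L)
    have h1 := (Real.isLittleO_log_id_atTop).def (c := x / (k + 3)) (by positivity)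
    filter_upwards [h1, eventually_ge_atTop 1] with L hL hL1
    rw [Real.norm_of_nonneg (Real.log_nonneg hL1), Real.norm_of_nonneg (show 0 ≤ id L by simpa using by linarith)] at hL
    simp only [id] at hL
    rw [div_mul_eq_mul_div, le_div_iff₀ (by positivity)] at hL
    push_cast
    linarith
  filter_upwards [HP, e1, e2, eventually_ge_atTop 2] with N hP f1 f2 hN A hA Bad hBad
  obtain ⟨L, hL⟩ : ∃ L : ℝ, L = Real.log N := ⟨_, rfl⟩
  rw [← hL] at f1 f2 hBad hP ⊢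
  have hL1 : 1 ≤ L := (le_max_left _ _).trans ((le_max_left _ _).trans f1)
  have hl2 : Real.log 2 / x ≤ L := (le_max_right _ _).trans ((le_max_left _ _).trans f1)
  have hLb : 2 ^ (k + 1) / (x * c0) ≤ L := (le_max_right _ _).trans f1
  rw [div_le_iff₀ hx, mul_comm] at hl2
  have hN0 : (0 : ℝ) < N := by exact_mod_cast (by omega : 0 < N)
  refine hP.2 A hA Bad fun H hH => ?_
  obtain ⟨b1, b2, b3⟩ := hBad H hH
  refine ⟨b1, b2, ?_⟩
  by_contra hcon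
  push Not at hcon
  rw [mem_powersetCard] at b1
  have h0 : 0 ∉ H := fun h => by
    have := (hA 0 (b1.1 h)).1
    omega
  have hTc : (pat H).card = k + 1 + 1 := by rw [card_pat h0, b1.2]
  obtain ⟨c1, c2⟩ := hlow (pat H) hTc b2
  obtain ⟨s1, s2⟩ := sum_cmp (z := zN ξ N) (c := k + 3) (e := eP) eP_bd hN hL hL1 hx hx8 f2 hl2 H
    (fun h hh => hA h (b1.1 hh))
  rw [b1.2] at s1 s2
  have := fin_calc (k := k) (x := x) (ε := ε) (c0 := c0) (L := L) (n := N) (CTy := CT (pat H)) (P := PG (zN ξ N) N H)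
    (S := S3 (zN ξ N) N H) hx hx8 hε hc0 hL1 hN0 hx1 hx2 hLb c2 hcon s1 s2
  linarith

end Pool.Agent.H528.AsyL
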