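import Mathlib
import Pool.Agent.H528.StA
import Pool.Agent.H528.Lam
import Pool.Agent.H528.UpLo
import Pool.Agent.H528.AsyL

/-! The asymptotic sieve for almost all patterns, with arbitrary weights. -/

set_option autoImplicit false

namespace Pool.Agent.H528.Gen

open Finset Filter Topology
open Pool.Agent.Y822
open Pool.Agent.Y822.Q (VP_PP VP_bd Vz_pos Vz_up)
open Pool.Agent.Y822.Par3
open Pool.Agent.H373R2.T7 (pz Vz mem_pz)
open Pool.Agent.H528.Gam Pool.Agent.H528.Avg Pool.Agent.H528.Cst Pool.Agent.H528.UpLo Pool.Agent.H528.Lam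
open Pool.Agent.H528.AsyL

/-- the weighted sum of the products of the sieve weights -/
noncomputable def GE (e : ℕ → ℝ) (z N : ℕ) (H : Finset ℕ) : ℝ := ∑ n ∈ Icc 1 N, e n * ∏ h ∈ H, gG z N (n + h)

/-- the weighted number of the `n` such that all `n + h` are rough -/
noncomputable def RE (e : ℕ → ℝ) (y N : ℕ) (H : Finset ℕ) : ℝ := ∑ n ∈ Icc 1 N, e n * ∏ h ∈ H, ro y (n + h)

/-- the weighted sum of the products of `Λ₂` -/
noncomputable def SE (e : ℕ → ℝ) (z N : ℕ) (H : Finset ℕ) : ℝ :=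
  ∑ n ∈ Icc 1 N, e n * ∏ h ∈ H, (ro z (n + h) * L2 (n + h))

lemma RE_nonneg {e : ℕ → ℝ} (he : ∀ n, 0 ≤ e n ∧ e n ≤ 1) (y N : ℕ) (H : Finset ℕ) : 0 ≤ RE e y N H :=
  sum_nonneg fun n _ => mul_nonneg (he n).1 (prod_nonneg fun _ _ => ro_nonneg _ _)

lemma RE_le {e : ℕ → ℝ} (he : ∀ n, 0 ≤ e n ∧ e n ≤ 1) (y N : ℕ) (H : Finset ℕ) : RE e y N H ≤ N := by
  unfold RE
  calc _ ≤ ∑ _n ∈ Icc 1 N, (1 : ℝ) := sum_le_sum fun n _ => mul_le_one₀ (he n).2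
        (prod_nonneg fun _ _ => ro_nonneg _ _) (prod_le_one (fun _ _ => ro_nonneg _ _) fun _ _ => ro_le_one _ _)
    _ = N := by simp

lemma GE_eq (e : ℕ → ℝ) (z N : ℕ) (H : Finset ℕ) (r : ℕ → ℝ) :
    ∑ n ∈ Icc 1 N, WH e (gG z N) r H H n = GE e z N H := by
  unfold GE WH
  refine sum_congr rfl fun n _ => ?_
  rw [Finset.sdiff_self, prod_empty, mul_one]

lemma RE_eq (e : ℕ → ℝ) (y N : ℕ) (H : Finset ℕ) (g : ℕ → ℝ) :
    ∑ n ∈ Icc 1 N, WH e g (ro y) H ∅ n = RE e y N H := by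
  unfold RE WH
  refine sum_congr rfl fun n _ => ?_
  rw [prod_empty, one_mul, sdiff_empty]

lemma ex_small3 (m : ℕ) (ε : ℝ) (hε : 0 < ε) : ∃ x : ℝ, 0 < x ∧ x ≤ 1 / 8 ∧ x ≤ ε ∧
    (1 + 4 * x) ^ m ≤ 1 + ε ∧ 1 - ε ≤ (1 - 4 * x) ^ m := by
  have hc : ContinuousAt (fun x : ℝ => (1 + 4 * x) ^ m) 0 := by fun_prop
  have hcc : ContinuousAt (fun x : ℝ => (1 - 4 * x) ^ m) 0 := by fun_prop
  have h1 : ∀ᶠ x in 𝓝 (0 : ℝ), (1 + 4 * x) ^ m < 1 + ε := by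
    refine hc.eventually_lt continuousAt_const ?_
    simp only [mul_zero, add_zero, one_pow]
    linarith
  have h2 : ∀ᶠ x in 𝓝 (0 : ℝ), 1 - ε < (1 - 4 * x) ^ m := by
    refine continuousAt_const.eventually_lt hcc ?_
    simp only [mul_zero, sub_zero, one_pow]
    linarith
  obtain ⟨d, hd, h3⟩ := Metric.eventually_nhds_iff.1 (h1.and h2)
  refine ⟨min (d / 2) (min (1 / 8) ε), by positivity, (min_le_right _ _).trans (min_le_left _ _),
    (min_le_right _ _).trans (min_le_right _ _), ?_⟩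
  have h4 := h3 (y := min (d / 2) (min (1 / 8) ε)) (by
    rw [Real.dist_eq, sub_zero, abs_of_pos (by positivity)]
    exact (min_le_left _ _).trans_lt (by linarith))
  exact ⟨h4.1.le, h4.2.le⟩

/-- **the products of the weights, for almost all sets of shifts and all weights `e`** -/
theorem genG (k U : ℕ) (ε : ℝ) (hε : 0 < ε) : ∃ δ : ℝ, 1 / 2 ≤ δ ∧ δ < 1 ∧
    ∃ ξ : ℝ, 0 < ξ ∧ ξ ≤ 1 / 8 ∧ ξ ≤ ε ∧ ∃ κ : ℝ, 0 < κ ∧ κ ≤ 1 ∧ ∃ B : ℕ, ∀ᶠ N : ℕ in atTop,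
    (N : ℝ) ^ (ξ / 2) ≤ zN ξ N ∧ ∀ e : ℕ → ℝ, (∀ n, 0 ≤ e n ∧ e n ≤ 1) →
    ∀ A : Finset ℕ, (∀ a ∈ A, a ≤ N) → ∀ Bad : Finset (Finset ℕ),
    (∀ H ∈ Bad, H ∈ A.powersetCard (k + 1) ∧
      ε * ((1 / (Real.log N * Vz (yN κ N))) ^ (k + 1) * RE e (yN κ N) N H) + N / Real.log N ^ U <
        |GE e (zN ξ N) N H - (1 / (Real.log N * Vz (yN κ N))) ^ (k + 1) * RE e (yN κ N) N H|) →
    (Bad.card : ℝ) ≤ A.card.choose k * ((N : ℝ) ^ δ * Real.log N ^ B) := by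
  classical
  obtain ⟨X, hX, hX8, hXε, hX4, hX5⟩ := ex_small3 (k + 1) ε hε
  obtain ⟨x, hx⟩ : ∃ x : ℝ, x = X / 3 := ⟨_, rfl⟩
  have hx0 : 0 < x := by rw [hx]; positivity
  have hxX : x ≤ X / 3 := hx.le
  obtain ⟨δ, hδ1, hδ2, ε₁, hε₁, hε₁x, κ, hκ, hκ1, C, STEP⟩ := StA.stA x hx0 (by linarith) (U + 2) (by omega)
  refine ⟨δ, hδ1, hδ2, ε₁, hε₁, by linarith, by linarith, κ, hκ, hκ1, C + 1, ?_⟩
  have e1 := ev_logN (eventually_ge_atTop (max ((2 : ℝ) ^ (k + 1)) (k + 1)))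
  filter_upwards [STEP, e1, eventually_ge_atTop 3] with N hstep h3 hN
  obtain ⟨u, Z, hu0, hu1, huL, huU, w2, hzb, hst, hfew⟩ := hstep
  refine ⟨hzb, ?_⟩
  intro e he A hA Bad hBad
  have h3k : (k : ℝ) + 1 ≤ Real.log N := (le_max_right _ _).trans h3
  have h3' : (2 : ℝ) ^ (k + 1) ≤ Real.log N := (le_max_left _ _).trans h3
  have hL1 : 1 ≤ Real.log N := le_trans (one_le_pow₀ (by norm_num)) h3'
  have hL0 : 0 < Real.log N := by linarith
  have hN0 : (0 : ℝ) < N := by positivity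
  set L := Real.log N with hLd
  set y := yN κ N with hyd
  obtain ⟨z₀, hz₀⟩ : ∃ z₀ : ℕ, z₀ = zN ε₁ N := ⟨_, rfl⟩
  rw [← hz₀] at hst hBad
  have hVy : 0 < Vz y := Vz_pos y
  have hxN0 : 0 ≤ (N : ℝ) / L ^ (U + 2) := by positivity
  obtain ⟨Z', hZ'⟩ : ∃ Z' : (ℕ → ℝ) → ℕ → ℝ, Z' = fun f t => if t ≤ N then Z f t else N / L ^ (U + 2) + 1 := ⟨_, rfl⟩
  have hfew' : ∀ f : ℕ → ℝ, (∀ n, |f n| ≤ 1) → ∀ S : Finset ℕ, (∀ a ∈ S, a ≤ N ∧ (N : ℝ) / L ^ (U + 2) < Z' f a) →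
      (S.card : ℝ) ≤ (N : ℝ) ^ δ * L ^ C := by
    intro f hf S hS
    refine hfew f hf S fun a ha => ⟨(hS a ha).1, ?_⟩
    obtain ⟨g1, g2⟩ := hS a ha
    rw [hZ'] at g2
    simp only [if_pos g1] at g2
    exact g2
  obtain ⟨uU, huUd⟩ : ∃ uU : ℝ, uU = (1 + x) * u := ⟨_, rfl⟩
  obtain ⟨uL, huLd⟩ : ∃ uL : ℝ, uL = (1 - x) * u := ⟨_, rfl⟩
  have huU0 : 0 ≤ uU := by rw [huUd]; exact mul_nonneg (by linarith) hu0
  have huL0 : 0 ≤ uL := by rw [huLd]; exact mul_nonneg (by linarith) hu0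
  have huU1 : uU ≤ 1 := by rw [huUd]; exact hu1
  have huL1 : uL ≤ 1 := by
    rw [huLd]
    exact (mul_le_mul_of_nonneg_right (by linarith) hu0).trans hu1
  obtain ⟨W, hW⟩ : ∃ W : ℝ, W = 1 / (L * Vz y) := ⟨_, rfl⟩
  have hW0 : 0 < W := by rw [hW]; positivity
  have huUV : uU ≤ (1 + 4 * X) * W := by
    rw [huUd, hW]
    have h1 : u ≤ (1 + x) / L / Vz y := by
      rw [le_div_iff₀ hVy]
      exact huU
    calc (1 + x) * u ≤ (1 + x) * ((1 + x) / L / Vz y) := mul_le_mul_of_nonneg_left h1 (by linarith)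
      _ = ((1 + x) * (1 + x)) * (1 / (L * Vz y)) := by field_simp
      _ ≤ (1 + 4 * X) * (1 / (L * Vz y)) := by
          apply mul_le_mul_of_nonneg_right _ (by positivity)
          have : x * x ≤ x * (1 / 8) := mul_le_mul_of_nonneg_left (by linarith) hx0.le
          linarith
  have huLV : (1 - 4 * X) * W ≤ uL := by
    rw [huLd, hW]
    have h1 : (1 - x) / L / Vz y ≤ u := by
      rw [div_le_iff₀ hVy]
      exact huL
    calc (1 - 4 * X) * (1 / (L * Vz y)) ≤ ((1 - x) * (1 - x)) * (1 / (L * Vz y)) := by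
          apply mul_le_mul_of_nonneg_right _ (by positivity)
          have : 0 ≤ x * x := mul_self_nonneg x
          linarith
      _ = (1 - x) * ((1 - x) / L / Vz y) := by field_simp
      _ ≤ (1 - x) * u := mul_le_mul_of_nonneg_left h1 (by linarith)
  have hSU : ∀ f : ℕ → ℝ, (∀ n, 0 ≤ f n ∧ f n ≤ 1) → ∀ h : ℕ, Z' f h ≤ N / L ^ (U + 2) →
      ∑ n ∈ Icc 1 N, f n * gG z₀ N (n + h) ≤ uU * ∑ n ∈ Icc 1 N, f n * ro y (n + h) + N / L ^ (U + 2) := by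
    intro f hf t ht
    rw [hZ'] at ht
    simp only at ht
    split_ifs at ht with h
    · have g1 := (abs_le.1 (hst f hf t h ht)).2
      have e : uU * ∑ n ∈ Icc 1 N, f n * ro y (n + t) = u * ∑ n ∈ Icc 1 N, f n * ro y (n + t) +
        x * (u * ∑ n ∈ Icc 1 N, f n * ro y (n + t)) := by rw [huUd]; ring
      rw [e]
      linarith
    · linarith
  have hSL : ∀ f : ℕ → ℝ, (∀ n, 0 ≤ f n ∧ f n ≤ 1) → ∀ h : ℕ, Z' f h ≤ N / L ^ (U + 2) →
      uL * ∑ n ∈ Icc 1 N, f n * ro y (n + h) - N / L ^ (U + 2) ≤ ∑ n ∈ Icc 1 N, f n * gG z₀ N (n + h) := by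
    intro f hf t ht
    rw [hZ'] at ht
    simp only at ht
    split_ifs at ht with h
    · have g1 := (abs_le.1 (hst f hf t h ht)).1
      have e : uL * ∑ n ∈ Icc 1 N, f n * ro y (n + t) = u * ∑ n ∈ Icc 1 N, f n * ro y (n + t) -
        x * (u * ∑ n ∈ Icc 1 N, f n * ro y (n + t)) := by rw [huLd]; ring
      rw [e]
      linarith
    · linarith
  have hgb : ∀ m, 0 ≤ gG z₀ N m ∧ gG z₀ N m ≤ 1 := gG_bd (by omega)
  have hbad : ∀ H ∈ Bad, H ∈ A.powersetCard (k + 1) ∧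
      ¬ Good e (gG z₀ N) (ro y) Z' (N / L ^ (U + 2)) H := by
    intro H hH
    obtain ⟨b1, b3⟩ := hBad H hH
    refine ⟨b1, fun hg => ?_⟩
    rw [mem_powersetCard] at b1
    have t1 := step_upper hxN0 huU0 huU1 he hgb (ro_bd y) (N := N) hSU hg H (subset_refl H)
    have t2 := step_lower hxN0 huL0 huL1 he hgb (ro_bd y) (N := N) hSL hg H (subset_refl H)
    rw [b1.2, GE_eq, RE_eq] at t1 t2
    rw [← hW] at b3
    have hR0 := RE_nonneg he y N H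
    have hWR : 0 ≤ W ^ (k + 1) * RE e y N H := mul_nonneg (by positivity) hR0
    have hsm : ((k + 1 : ℕ) : ℝ) * (N / L ^ (U + 2)) ≤ N / L ^ U := by
      have e1 : (N : ℝ) / L ^ U = L ^ 2 * (N / L ^ (U + 2)) := by
        rw [pow_add]; field_simp
      rw [e1]
      apply mul_le_mul_of_nonneg_right _ hxN0
      push_cast
      have : L ≤ L ^ 2 := by
        rw [sq]; exact le_mul_of_one_le_left hL0.le hL1
      linarith
    have s1 : uU ^ (k + 1) * RE e y N H ≤ (1 + ε) * (W ^ (k + 1) * RE e y N H) := by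
      calc uU ^ (k + 1) * RE e y N H ≤ ((1 + 4 * X) * W) ^ (k + 1) * RE e y N H :=
            mul_le_mul_of_nonneg_right (pow_le_pow_left₀ huU0 huUV _) hR0
        _ = (1 + 4 * X) ^ (k + 1) * (W ^ (k + 1) * RE e y N H) := by rw [mul_pow]; ring
        _ ≤ _ := mul_le_mul_of_nonneg_right hX4 hWR
    have s2 : (1 - ε) * (W ^ (k + 1) * RE e y N H) ≤ uL ^ (k + 1) * RE e y N H := by
      calc (1 - ε) * (W ^ (k + 1) * RE e y N H) ≤ (1 - 4 * X) ^ (k + 1) * (W ^ (k + 1) * RE e y N H) :=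
            mul_le_mul_of_nonneg_right hX5 hWR
        _ = ((1 - 4 * X) * W) ^ (k + 1) * RE e y N H := by rw [mul_pow]; ring
        _ ≤ _ := mul_le_mul_of_nonneg_right (pow_le_pow_left₀ (mul_nonneg (by linarith) hW0.le) huLV _) hR0
    have r3 : |GE e z₀ N H - W ^ (k + 1) * RE e y N H| ≤ ε * (W ^ (k + 1) * RE e y N H) + N / L ^ U := by
      rw [abs_le]
      constructor <;> linarith
    linarith
  have hfinal := few_bad (K := (N : ℝ) ^ δ * L ^ C) (by positivity) he hgb (ro_bd y)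
    hfew' k A (fun a ha => hA a ha) Bad hbad
  refine hfinal.trans (mul_le_mul_of_nonneg_left ?_ (Nat.cast_nonneg _))
  have g1 : (2 : ℝ) ^ k ≤ L := by
    have : (2 : ℝ) ^ k ≤ 2 ^ (k + 1) := pow_le_pow_right₀ (by norm_num) (by omega)
    linarith
  calc (2 : ℝ) ^ k * ((N : ℝ) ^ δ * L ^ C) ≤ L * ((N : ℝ) ^ δ * L ^ C) :=
        mul_le_mul_of_nonneg_right g1 (by positivity)
    _ = (N : ℝ) ^ δ * L ^ (C + 1) := by rw [pow_succ]; ring

end Pool.Agent.H528.Gen
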