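import Mathlib
import Pool.Agent.H528.Gen

/-! The asymptotic sieve for almost all patterns, with arbitrary weights, with the function `Λ₂`. -/

set_option autoImplicit false

namespace Pool.Agent.H528.Gen

open Finset Filter Topology
open Pool.Agent.Y822
open Pool.Agent.Y822.Q (VP_PP VP_bd Vz_pos Vz_up)
open Pool.Agent.Y822.Par3
open Pool.Agent.H373R2.T7 (pz Vz mem_pz)
open Pool.Agent.H528.Gam Pool.Agent.H528.Avg Pool.Agent.H528.Cst Pool.Agent.H528.UpLo Pool.Agent.H528.Lam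
open Pool.Agent.H528.AsyL

/-- the final computation -/
lemma fin_gen {k U : ℕ} {x ε L n M P S : ℝ} (hx : 0 < x) (hx8 : x ≤ 1 / 8) (hL : 1 ≤ L) (hn : 0 ≤ n) (hM : 0 ≤ M)
    (hx1 : (1 + 4 * x) ^ (k + 1) * (1 + x) ≤ 1 + ε)
    (hx2 : 1 - ε ≤ (1 - 4 * x) ^ (k + 1) * (1 - x))
    (hLb : 16 ^ (k + 1) ≤ L)
    (hP : |P - M| ≤ x * M + n / L ^ (U + 2 * (k + 1) + 2))
    (h1 : S ≤ ((1 + 4 * x) * (2 * L ^ 2)) ^ (k + 1) * P + (4 * L ^ 2) ^ (k + 1) * (n / L ^ (U + 2 * (k + 1) + 2)))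
    (h2 : ((1 - 4 * x) * (2 * L ^ 2)) ^ (k + 1) * (P - n / L ^ (U + 2 * (k + 1) + 2)) ≤ S) :
    |S - (2 * L ^ 2) ^ (k + 1) * M| ≤ ε * ((2 * L ^ 2) ^ (k + 1) * M) + n / L ^ U := by
  have hL0 : 0 < L := by linarith
  obtain ⟨D, hD⟩ : ∃ D : ℝ, D = (2 * L ^ 2) ^ (k + 1) := ⟨_, rfl⟩
  have hD0 : 0 < D := by rw [hD]; positivity
  obtain ⟨E, hE⟩ : ∃ E : ℝ, E = n / L ^ (U + 2 * (k + 1) + 2) := ⟨_, rfl⟩
  have hE0 : 0 ≤ E := by rw [hE]; positivity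
  have e4 : (4 * L ^ 2) ^ (k + 1) = D * 2 ^ (k + 1) := by
    rw [hD, ← mul_pow]
    congr 1
    ring
  have hq2 : (2 : ℝ) ^ (k + 1) * 2 ^ (k + 1) * 2 ^ (k + 1) * 2 ^ (k + 1) ≤ L := by
    rw [← mul_pow, ← mul_pow, ← mul_pow]
    norm_num
    exact hLb
  have hq1 : (1 : ℝ) ≤ 2 ^ (k + 1) := one_le_pow₀ (by norm_num)
  have hDE : D * E * (2 ^ (k + 1) * 2) ≤ n / L ^ U := by
    have e1 : n / L ^ U = L ^ (2 * (k + 1)) * (L * L) * E := by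
      rw [hE, pow_add, pow_add]
      field_simp
    have e2 : D = 2 ^ (k + 1) * L ^ (2 * (k + 1)) := by
      rw [hD, mul_pow, ← pow_mul]
    rw [e1, e2]
    have h3 : (2 : ℝ) ^ (k + 1) * (2 ^ (k + 1) * 2) ≤ L * L := by
      have h4 : (2 : ℝ) ^ (k + 1) * (2 ^ (k + 1) * 2) ≤ (2 : ℝ) ^ (k + 1) * 2 ^ (k + 1) * 2 ^ (k + 1) * 2 ^ (k + 1) := by
        have h5 : (2 : ℝ) ≤ 2 ^ (k + 1) * 2 ^ (k + 1) := by
          have : (2 : ℝ) ≤ 2 ^ (k + 1) := by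
            rw [pow_succ]
            have := one_le_pow₀ (n := k) (show (1 : ℝ) ≤ 2 by norm_num)
            linarith
          have h6 : (2 : ℝ) ^ (k + 1) * 1 ≤ 2 ^ (k + 1) * 2 ^ (k + 1) := mul_le_mul_of_nonneg_left hq1 (by positivity)
          linarith
        calc (2 : ℝ) ^ (k + 1) * (2 ^ (k + 1) * 2) ≤ (2 : ℝ) ^ (k + 1) * (2 ^ (k + 1) * (2 ^ (k + 1) * 2 ^ (k + 1))) := by
              gcongr
          _ = _ := by ring
      have h5 : L ≤ L * L := le_mul_of_one_le_left hL0.le hL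
      linarith
    calc 2 ^ (k + 1) * L ^ (2 * (k + 1)) * E * (2 ^ (k + 1) * 2) =
          (L ^ (2 * (k + 1)) * E) * (2 ^ (k + 1) * (2 ^ (k + 1) * 2)) := by ring
      _ ≤ (L ^ (2 * (k + 1)) * E) * (L * L) := mul_le_mul_of_nonneg_left h3 (by positivity)
      _ = _ := by ring
  rw [← hE] at hP h1 h2
  rw [← hD]
  obtain ⟨p1, p2⟩ := abs_le.1 hP
  have hU : S ≤ (1 + ε) * (D * M) + n / L ^ U := by
    refine h1.trans ?_
    rw [mul_pow, ← hD, e4]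
    have g0 : (1 + 4 * x) ^ (k + 1) ≤ 2 ^ (k + 1) := pow_le_pow_left₀ (by linarith) (by linarith) _
    have g1 : (1 + 4 * x) ^ (k + 1) * D * P ≤ (1 + 4 * x) ^ (k + 1) * D * ((1 + x) * M + E) :=
      mul_le_mul_of_nonneg_left (by linarith) (by positivity)
    have g2 : (1 + 4 * x) ^ (k + 1) * D * E ≤ 2 ^ (k + 1) * D * E := by gcongr
    have g3 : (1 + 4 * x) ^ (k + 1) * (1 + x) * (D * M) ≤ (1 + ε) * (D * M) :=
      mul_le_mul_of_nonneg_right hx1 (by positivity)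
    have e5 : (1 + 4 * x) ^ (k + 1) * D * ((1 + x) * M + E) =
      (1 + 4 * x) ^ (k + 1) * (1 + x) * (D * M) + (1 + 4 * x) ^ (k + 1) * D * E := by ring
    have e6 : D * E * (2 ^ (k + 1) * 2) = 2 ^ (k + 1) * D * E + D * 2 ^ (k + 1) * E := by ring
    rw [e5] at g1
    linarith
  have hLo : (1 - ε) * (D * M) - n / L ^ U ≤ S := by
    refine le_trans ?_ h2
    rw [mul_pow, ← hD]
    have g0 : 0 ≤ 1 - 4 * x := by linarith
    have g01 : (1 - 4 * x) ^ (k + 1) ≤ 1 := pow_le_one₀ g0 (by linarith)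
    have g1 : (1 - 4 * x) ^ (k + 1) * D * ((1 - x) * M - E - E) ≤ (1 - 4 * x) ^ (k + 1) * D * (P - E) :=
      mul_le_mul_of_nonneg_left (by linarith) (by positivity)
    have g3 : (1 - ε) * (D * M) ≤ (1 - 4 * x) ^ (k + 1) * (1 - x) * (D * M) :=
      mul_le_mul_of_nonneg_right hx2 (by positivity)
    have g4 : (1 - 4 * x) ^ (k + 1) * (D * (2 * E)) ≤ 1 * (D * (2 * E)) :=
      mul_le_mul_of_nonneg_right g01 (by positivity)
    have e5 : (1 - 4 * x) ^ (k + 1) * D * ((1 - x) * M - E - E) =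
      (1 - 4 * x) ^ (k + 1) * (1 - x) * (D * M) - (1 - 4 * x) ^ (k + 1) * (D * (2 * E)) := by ring
    have g5 : D * (2 * E) ≤ D * E * (2 ^ (k + 1) * 2) := by
      have : D * E * (2 ^ (k + 1) * 2) = (D * (2 * E)) * 2 ^ (k + 1) := by ring
      rw [this]
      exact le_mul_of_one_le_right (by positivity) hq1
    rw [e5] at g1
    linarith
  rw [abs_le]
  constructor <;> linarith

/-- **the asymptotic sieve for almost all patterns and arbitrary weights** -/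
theorem genL (k U : ℕ) (ε : ℝ) (hε : 0 < ε) : ∃ δ : ℝ, 1 / 2 ≤ δ ∧ δ < 1 ∧
    ∃ ξ : ℝ, 0 < ξ ∧ ξ ≤ 1 / 8 ∧ ξ ≤ ε ∧ ∃ κ : ℝ, 0 < κ ∧ κ ≤ 1 ∧ ∃ B : ℕ, ∀ᶠ N : ℕ in atTop,
    ∀ e : ℕ → ℝ, (∀ n, 0 ≤ e n ∧ e n ≤ 1) →
    ∀ A : Finset ℕ, (∀ a ∈ A, 1 ≤ a ∧ a ≤ N) → ∀ Bad : Finset (Finset ℕ),
    (∀ H ∈ Bad, H ∈ A.powersetCard (k + 1) ∧
      ε * ((2 * Real.log N / Vz (yN κ N)) ^ (k + 1) * RE e (yN κ N) N H) + N / Real.log N ^ U <
        |SE e (zN ξ N) N H - (2 * Real.log N / Vz (yN κ N)) ^ (k + 1) * RE e (yN κ N) N H|) →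
    (Bad.card : ℝ) ≤ A.card.choose k * ((N : ℝ) ^ δ * Real.log N ^ B) := by
  obtain ⟨x, hx, hx8, hxε, hx1, hx2⟩ := ex_small2 (k + 1) ε hε
  have hx1' : (1 + 4 * x) ^ (k + 1) * (1 + x) ≤ 1 + ε := by linarith
  have hx2' : 1 - ε ≤ (1 - 4 * x) ^ (k + 1) * (1 - x) := by
    refine hx2.trans (mul_le_mul_of_nonneg_left (by linarith) ?_)
    have : 0 ≤ 1 - 4 * x := by linarith
    positivity
  obtain ⟨δ, hδ1, hδ2, ξ, hξ, hξ8, hξx, κ, hκ, hκ1, B, HP⟩ := genG k (U + 2 * (k + 1) + 2) x hx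
  refine ⟨δ, hδ1, hδ2, ξ, hξ, hξ8, hξx.trans hxε, κ, hκ, hκ1, B, ?_⟩
  have e1 := ev_logN (eventually_ge_atTop (max (max 1 (Real.log 2 / x)) (16 ^ (k + 1))))
  have e2 : ∀ᶠ N : ℕ in atTop, ((U + 2 * (k + 1) + 2 : ℕ) : ℝ) * Real.log (Real.log N) ≤ x * Real.log N := by
    apply ev_logN (P := fun L => ((U + 2 * (k + 1) + 2 : ℕ) : ℝ) * Real.log L ≤ x * L)
    have hpos : (0 : ℝ) < ((U + 2 * (k + 1) + 2 : ℕ) : ℝ) := by positivity
    have h1 := (Real.isLittleO_log_id_atTop).def (c := x / ((U + 2 * (k + 1) + 2 : ℕ) : ℝ)) (by positivity)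
    filter_upwards [h1, eventually_ge_atTop 1] with L hL hL1
    rw [Real.norm_of_nonneg (Real.log_nonneg hL1), Real.norm_of_nonneg (show 0 ≤ id L by simpa using by linarith)] at hL
    simp only [id] at hL
    rw [div_mul_eq_mul_div, le_div_iff₀ (by positivity)] at hL
    linarith
  filter_upwards [HP, e1, e2, eventually_ge_atTop 2] with N hP f1 f2 hN e he A hA Bad hBad
  obtain ⟨L, hL⟩ : ∃ L : ℝ, L = Real.log N := ⟨_, rfl⟩
  rw [← hL] at f1 f2 hBad hP ⊢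
  have hL1 : 1 ≤ L := (le_max_left _ _).trans ((le_max_left _ _).trans f1)
  have hl2 : Real.log 2 / x ≤ L := (le_max_right _ _).trans ((le_max_left _ _).trans f1)
  have hLb : 16 ^ (k + 1) ≤ L := (le_max_right _ _).trans f1
  rw [div_le_iff₀ hx, mul_comm] at hl2
  have hN0 : (0 : ℝ) < N := by exact_mod_cast (by omega : 0 < N)
  have hL0 : 0 < L := by linarith
  refine hP.2 e he A (fun a ha => (hA a ha).2) Bad fun H hH => ?_
  obtain ⟨b1, b3⟩ := hBad H hH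
  refine ⟨b1, ?_⟩
  by_contra hcon
  push Not at hcon
  rw [mem_powersetCard] at b1
  obtain ⟨s1, s2⟩ := sum_cmp (z := zN ξ N) (c := U + 2 * (k + 1) + 2) (e := e) he hN hL hL1 hx hx8 f2 hl2 H
    (fun h hh => hA h (b1.1 hh))
  rw [b1.2] at s1 s2
  have hV := Vz_pos (yN κ N)
  have hM0 : 0 ≤ (1 / (L * Vz (yN κ N))) ^ (k + 1) * RE e (yN κ N) N H :=
    mul_nonneg (by positivity) (RE_nonneg he _ _ _)
  have := fin_gen (k := k) (U := U) (x := x) (ε := ε) (L := L) (n := N)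
    (M := (1 / (L * Vz (yN κ N))) ^ (k + 1) * RE e (yN κ N) N H) (P := GE e (zN ξ N) N H)
    (S := SE e (zN ξ N) N H) hx hx8 hL1 hN0.le hM0 hx1' hx2' hLb hcon s1 s2
  have e5 : (2 * L ^ 2) ^ (k + 1) * ((1 / (L * Vz (yN κ N))) ^ (k + 1) * RE e (yN κ N) N H) =
      (2 * L / Vz (yN κ N)) ^ (k + 1) * RE e (yN κ N) N H := by
    rw [← mul_assoc, ← mul_pow]
    congr 2
    field_simp
  rw [e5] at this
  linarith

end Pool.Agent.H528.Gen
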