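import Mathlib
import Pool.Graph.R_seed8.Y822.Main0
import Pool.Agent.H528.UpLo
import Pool.Agent.H528.PCnt

/-! The number of primes up to `2 N` outside few residue classes modulo small primes. -/

set_option autoImplicit false

namespace Pool.Agent.H528.PCnt

open Finset Filter
open Pool.Agent.Y822
open Pool.Agent.Y822.Q (VP_PP VP_bd Vz_pos Vz_up)
open Pool.Agent.H373R2.T7 (pz Vz mem_pz rhoA PerA lam_fund rhoA_le)
open Pool.Agent.H387R2.Uni (nuT Adm locT CT)

open Classical in
/-- **the number of primes outside few residue classes, up to `2 N`** -/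
theorem prime_cnt2 (κ : ℝ) (hκ : 0 < κ) (hκ1 : κ ≤ 1) (c U : ℕ) (hc : 1 ≤ c) (ε : ℝ) (hε : 0 < ε) (hε1 : ε ≤ 1) :
    ∀ᶠ N : ℕ in atTop, ∀ Q : ℕ → ℕ → Prop, PerA Q c → ∀ X : ℕ, X ≤ 2 * N →
      |(((Icc 1 X).filter (fun n => n.Prime ∧ BQ Q (yN κ N) n)).card : ℝ) -
        X / Real.log N * ∏ p ∈ pz (yN κ N), (1 - (rhoA Q p : ℝ) / (p - 1 : ℝ))| ≤
      ε * (X / Real.log N * ∏ p ∈ pz (yN κ N), (1 - (rhoA Q p : ℝ) / (p - 1 : ℝ))) + N / Real.log N ^ U := by
  obtain ⟨K, hK, hfund⟩ := lam_fund c hc (ε / 4) (by positivity)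
  obtain ⟨x0, hx0⟩ := hfund (U + 2)
  have e1 := ev_logN (ev_log_pow 1 ((U + 1) * 8 / ε))
  have e2 := ev_logN (eventually_ge_atTop (8 : ℝ))
  have e3 := ev_logN (ev_pow_exp (U + 1) (1 / 2) 24 (by norm_num))
  have e5 := ev_logN (eventually_ge_atTop (16 / ε))
  have e4 := ev_logN (ev_pow_exp (U + 1) 1 1 (by norm_num))
  filter_upwards [yN_facts κ hκ hκ1 x0 K, e1, e2, e3, e4, e5, eventually_ge_atTop 3] with N hyf h1 h2 h3 h4 h5'
    hN Q hQ X hX
  obtain ⟨y1, y2, y3, y4, y5⟩ := hyf
  set y := yN κ N with hy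
  set L := Real.log N with hL
  have hL0 : 0 < L := by linarith
  have hN0 : (0 : ℝ) < N := by positivity
  have hNe : (N : ℝ) = Real.exp L := by rw [hL, Real.exp_log hN0]
  rw [pow_one] at h1
  rcases Nat.eq_zero_or_pos X with rfl | hXp
  · simp only [Nat.cast_zero, zero_div, zero_mul, mul_zero, sub_zero, zero_add]
    rw [show Icc 1 0 = (∅ : Finset ℕ) from by ext n; simp, filter_empty, card_empty, Nat.cast_zero, abs_zero]
    positivity
  have hXr : (X : ℝ) ≤ 2 * N := by exact_mod_cast hX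
  have hX0 : (0 : ℝ) < X := by exact_mod_cast hXp
  have hmain := hx0 (2 * N) y y5 (by omega) Q hQ X hX
  set P := ∏ p ∈ pz y, (1 - (rhoA Q p : ℝ) / (p - 1 : ℝ)) with hP
  have hP0 : 0 ≤ P := prod_rhoA_nonneg Q y
  obtain ⟨S, hS⟩ : ∃ S, S = ∑ n ∈ (Icc 1 X).filter (BQ Q y),
    ArithmeticFunction.vonMangoldt n := ⟨_, rfl⟩
  obtain ⟨C, hC⟩ : ∃ C, C = (((Icc 1 X).filter (fun n => n.Prime ∧ BQ Q y n)).card : ℝ) := ⟨_, rfl⟩
  have hmain' : |S - X * P| ≤ ε / 4 * (X * P) + N / L ^ (U + 1) := by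
    rw [hS]
    have hL2N : L ≤ Real.log ((2 * N : ℕ) : ℝ) := by
      apply Real.log_le_log hN0
      push_cast
      linarith
    have hsm : ((2 * N : ℕ) : ℝ) / Real.log ((2 * N : ℕ) : ℝ) ^ (U + 2) ≤ N / L ^ (U + 1) := by
      have h6 : ((2 * N : ℕ) : ℝ) / Real.log ((2 * N : ℕ) : ℝ) ^ (U + 2) ≤ ((2 * N : ℕ) : ℝ) / L ^ (U + 2) := by
        apply div_le_div_of_nonneg_left (Nat.cast_nonneg _) (by positivity)
        exact pow_le_pow_left₀ hL0.le hL2N _
      refine h6.trans ?_
      push_cast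
      rw [div_le_div_iff₀ (by positivity) (by positivity), pow_succ L (U + 1)]
      have h7 : (0 : ℝ) ≤ N * L ^ (U + 1) := by positivity
      nlinarith
    refine le_trans (le_trans (le_of_eq ?_) hmain) (by linarith)
    congr 2
    refine sum_congr ?_ fun _ _ => rfl
    ext n
    rw [mem_filter, mem_filter]
    exact Iff.rfl
  have hlogX : Real.log X ≤ (1 + ε / 16) * L := by
    have h6 : Real.log X ≤ Real.log (2 * N) := Real.log_le_log hX0 hXr
    rw [Real.log_mul (by norm_num) hN0.ne'] at h6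
    rw [div_le_iff₀ hε] at h5'
    have := Real.log_two_lt_d9
    nlinarith
  have hlogX0 : 0 ≤ Real.log X := Real.log_nonneg (by exact_mod_cast hXp)
  have hC0 : 0 ≤ C := by rw [hC]; exact Nat.cast_nonneg _
  have hlow := count_low (BQ Q y) X (by omega)
  have hlow' : S - 6 * Real.sqrt N * L ≤ (1 + ε / 16) * L * C := by
    have h5 : S - 2 * Real.sqrt X * Real.log X ≤ Real.log X * C := by
      rw [hS, hC]
      exact hlow
    have h6 : 2 * Real.sqrt X * Real.log X ≤ 6 * Real.sqrt N * L := by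
      have h8 := Real.sqrt_le_sqrt hXr
      have h9 : Real.sqrt (2 * N) ≤ 3 / 2 * Real.sqrt N := by
        rw [Real.sqrt_mul (by norm_num)]
        apply mul_le_mul_of_nonneg_right _ (Real.sqrt_nonneg _)
        rw [Real.sqrt_le_left (by norm_num)]
        norm_num
      have h10 : Real.log X ≤ 2 * L := by nlinarith
      have h11 : 0 ≤ Real.sqrt N := Real.sqrt_nonneg _
      calc 2 * Real.sqrt X * Real.log X ≤ 2 * (3 / 2 * Real.sqrt N) * (2 * L) := by
            gcongr
            exact h8.trans h9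
        _ = 6 * Real.sqrt N * L := by ring
    have h7 : Real.log X * C ≤ (1 + ε / 16) * L * C := mul_le_mul_of_nonneg_right hlogX hC0
    linarith
  have hNP : 0 ≤ X / L * P := by positivity
  have hm := abs_le.1 hmain'
  -- logarithm of `N / L^(U+1)`
  set x := (N : ℝ) / L ^ (U + 1) with hx
  have hLU : 0 < L ^ (U + 1) := by positivity
  have hx1 : 1 ≤ x := by
    rw [hx, le_div_iff₀ hLU, one_mul, hNe]
    have := h4
    rwa [one_mul, one_mul] at this
  have hxN : x ≤ N := div_le_self hN0.le (one_le_pow₀ (by linarith))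
  have hlx : Real.log x = L - (U + 1) * Real.log L := by
    rw [hx, Real.log_div hN0.ne' hLU.ne', Real.log_pow]
    push_cast
    rfl
  have hlx2 : (1 - ε / 8) * L ≤ Real.log x := by
    rw [hlx]
    have : (U + 1) * Real.log L ≤ ε / 8 * L := by
      have h5 : (U + 1) * 8 / ε * Real.log L * (ε / 8) ≤ L * (ε / 8) :=
        mul_le_mul_of_nonneg_right h1 (by positivity)
      have h6 : (U + 1) * 8 / ε * Real.log L * (ε / 8) = (U + 1) * Real.log L := by field_simp
      rw [h6] at h5
      linarith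
    nlinarith
  have hup := count_up (BQ Q y) X x hx1
  have hup' : Real.log x * C ≤ S + Real.log x * x := by
    rw [hS, hC]
    exact hup
  have hlx0 : 0 < Real.log x := lt_of_lt_of_le (by nlinarith) hlx2
  -- error terms
  have hxL : N / L ^ (U + 1) = N / L ^ U / L := by
    rw [pow_succ]
    field_simp
  set R := (N : ℝ) / L ^ U with hR
  have hR0 : 0 ≤ R := by positivity
  have hxR : x = R / L := hxL
  have hRL : R / L ≤ R / 8 := div_le_div_of_nonneg_left hR0 (by norm_num) h2
  have hsq : 6 * Real.sqrt N ≤ R / L / 4 := by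
    have h5 : Real.sqrt N = Real.exp (L / 2) := by
      rw [hNe, Real.exp_half]
    have h6 : (N : ℝ) = Real.exp (L / 2) * Real.exp (L / 2) := by
      rw [← Real.exp_add, hNe]; congr 1; ring
    rw [← hxL, h5, le_div_iff₀ (by norm_num), le_div_iff₀ hLU]
    have h7 : 24 * L ^ (U + 1) ≤ Real.exp (L / 2) := by
      have : (1 : ℝ) / 2 * L = L / 2 := by ring
      rw [← this]; exact h3
    calc 6 * Real.exp (L / 2) * 4 * L ^ (U + 1) = Real.exp (L / 2) * (24 * L ^ (U + 1)) := by ring
      _ ≤ Real.exp (L / 2) * Real.exp (L / 2) := mul_le_mul_of_nonneg_left h7 (Real.exp_pos _).le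
      _ = N := h6.symm
  have hNPL : X * P = L * (X / L * P) := by
    have : L * (X / L * P) = (L / L) * (X * P) := by ring
    rw [this, div_self hL0.ne', one_mul]
  rw [hxR, hNPL] at hm
  rw [← hC]
  set Q' := X / L * P with hQ'
  have hdiv : ∀ a b : ℝ, L * a ≤ L * b → a ≤ b := fun a b h => le_of_mul_le_mul_left h hL0
  rw [abs_le]
  constructor
  · -- lower bound
    have h5 : L * (R / L) = R := by field_simp
    have h6 : L * (Q' - ε / 4 * Q' - R / L / L - R / L / 4) ≤ L * ((1 + ε / 16) * C) := by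
      have e9 : L * ((R / L) / L) = R / L := by field_simp
      have e10 : L * (Q' - ε / 4 * Q' - R / L / L - R / L / 4) = L * Q' - ε / 4 * (L * Q') - L * ((R / L) / L) - L * (R / L / 4) := by
        ring
      rw [e10, e9]
      have h11 : 6 * Real.sqrt N * L ≤ L * (R / L / 4) := by
        rw [mul_comm (6 * Real.sqrt N) L]
        exact mul_le_mul_of_nonneg_left hsq hL0.le
      linarith [hm.1]
    have h7 := hdiv _ _ h6
    have h8 : R / L / L ≤ R / 8 := (div_le_self (by positivity) (by linarith)).trans hRL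
    have h9 : (1 - ε / 4) * Q' - R / 4 ≤ (1 + ε / 16) * C := by linarith
    have h10 : (1 + ε / 16) * ((1 - ε) * Q' - R) ≤ (1 - ε / 4) * Q' - R / 4 := by
      have e11 : (1 + ε / 16) * ((1 - ε) * Q' - R) = (1 - ε / 4) * Q' - (ε * 11 / 16 + ε ^ 2 / 16) * Q' - (1 + ε / 16) * R := by ring
      have : 0 ≤ (ε * 11 / 16 + ε ^ 2 / 16) * Q' := by positivity
      have : 0 ≤ ε / 16 * R := by positivity
      linarith
    have h12 : (1 - ε) * Q' - R ≤ C := le_of_mul_le_mul_left (h10.trans h9) (by linarith)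
    linarith
  · -- upper bound
    have h6 : (1 - ε / 8) * L * C ≤ S + Real.log x * x := by
      refine le_trans ?_ hup'
      exact mul_le_mul_of_nonneg_right hlx2 hC0
    have hlxL : Real.log x ≤ L := by
      rw [hlx]
      have : 0 ≤ (U + 1) * Real.log L := by
        have := Real.log_nonneg (by linarith : (1 : ℝ) ≤ L)
        positivity
      linarith
    have h7 : Real.log x * x ≤ L * (R / L) := by
      rw [← hxR]
      exact mul_le_mul_of_nonneg_right hlxL (by linarith)
    have h8 : (1 - ε / 8) * L * C ≤ L * ((1 + ε / 4) * Q' + (R / L) / L + R / L) := by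
      have e9 : L * ((R / L) / L) = R / L := by field_simp
      nlinarith [hm.2]
    have h9 : (1 - ε / 8) * C ≤ (1 + ε / 4) * Q' + (R / L) / L + R / L := by
      apply hdiv
      linarith
    have h10 : (R / L) / L ≤ R / 64 := by
      have : (R / L) / L ≤ (R / 8) / 8 :=
        div_le_div₀ (by positivity) hRL (by norm_num) h2
      linarith
    have h11 : (1 - ε / 8) * C ≤ (1 + ε / 4) * Q' + R / 4 := by linarith
    have h12 : (1 + ε / 4) * Q' + R / 4 ≤ (1 - ε / 8) * ((1 + ε) * Q' + R) := by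
      nlinarith [mul_nonneg hε.le hNP, mul_nonneg hε.le hR0]
    have h13 : C ≤ (1 + ε) * Q' + R := le_of_mul_le_mul_left (h11.trans h12) (by linarith)
    linarith

end Pool.Agent.H528.PCnt
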