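import Mathlib
import Pool.Agent.H528.PCnt2
import Pool.Agent.H528.GenL
import Pool.Graph.R_pool_sql_team_seeded_1acbe0a2.Y822.Q.Int

/-! Local densities and main terms for tuples with one distinguished prime. -/

set_option autoImplicit false

namespace Pool.Agent.H528.Tup

open Finset Filter
open Pool.Agent.Y822
open Pool.Agent.H373R2.T7 (pz Vz mem_pz rhoA PerA lam_fund rhoA_le Vz_pos)
open Pool.Agent.H387R2.Uni (nuT Adm locT CT)
open Pool.Agent.H528.PCnt

/-- the forbidden classes for `n = x + a`, when all `x + t`, `t ∈ T`, are to be rough -/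
def QS (a : ℕ) (T : Finset ℕ) (q n : ℕ) : Prop := ∃ t ∈ T, n + t ≡ a [MOD q]

lemma rho_QS (a : ℕ) (T : Finset ℕ) (q : ℕ) (hq : q.Prime) : rhoA (QS a T) q + 1 = nuT (insert a T) q := by
  classical
  have h0 := Pool.Agent.Y978.QL.card_R (insert a T) a q hq
  have hmem : 0 ∈ (range q).filter (fun r => ∃ t ∈ insert a T, r + t ≡ a [MOD q]) := by
    rw [mem_filter, mem_range]
    exact ⟨hq.pos, a, mem_insert_self _ _, by rw [zero_add]⟩
  have h1 : ((range q).filter (fun r => ¬ q ∣ r ∧ QS a T q r)) =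
      ((range q).filter (fun r => ∃ t ∈ insert a T, r + t ≡ a [MOD q])).erase 0 := by
    ext r
    rw [mem_filter, mem_erase, mem_filter, mem_range]
    constructor
    · rintro ⟨hr, hd, t, ht, hmod⟩
      exact ⟨fun h => hd (by rw [h]; exact dvd_zero _), hr, t, mem_insert_of_mem ht, hmod⟩
    · rintro ⟨hr0, hr, t, ht, hmod⟩
      refine ⟨hr, fun hd => hr0 (Nat.eq_zero_of_dvd_of_lt hd hr), t, ?_, hmod⟩
      rw [mem_insert] at ht
      rcases ht with rfl | ht
      · exfalso
        have h2 : r + t ≡ 0 + t [MOD q] := by rw [zero_add]; exact hmod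
        have h3 := Nat.ModEq.add_right_cancel' t h2
        exact hr0 (Nat.eq_zero_of_dvd_of_lt ((Nat.modEq_zero_iff_dvd).1 h3) hr)
      · exact ht
  have h2 : rhoA (QS a T) q = (((range q).filter (fun r => ∃ t ∈ insert a T, r + t ≡ a [MOD q])).erase 0).card := by
    unfold rhoA
    rw [← h1]
  have h3 : ((range q).filter (fun r => ∃ t ∈ insert a T, r + t ≡ a [MOD q])).card = nuT (insert a T) q := by
    rw [← h0]
  rw [h2, card_erase_of_mem hmem, h3]
  have : 0 < nuT (insert a T) q := by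
    rw [← h3]
    exact card_pos.2 ⟨0, hmem⟩
  omega

lemma perA_QS (a : ℕ) (T : Finset ℕ) (c : ℕ) (hT : (insert a T).card ≤ c) : PerA (QS a T) c := by
  constructor
  · intro p n
    unfold QS
    constructor
    · rintro ⟨m, hm, hd⟩
      exact ⟨m, hm, (Nat.ModEq.add_right m (Nat.mod_modEq n p)).trans hd⟩
    · rintro ⟨m, hm, hd⟩
      exact ⟨m, hm, (Nat.ModEq.add_right m (Nat.mod_modEq n p)).symm.trans hd⟩
  · intro p hp
    have h1 := rho_QS a T p hp
    have h2 := nuT_le_card (insert a T) p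
    omega

lemma prod_QS {a : ℕ} {T : Finset ℕ} (j : ℕ) (hT : (insert a T).card = j + 1) (y : ℕ) :
    ∏ p ∈ pz y, (1 - (rhoA (QS a T) p : ℝ) / (p - 1 : ℝ)) = PT (insert a T) y * Vz y ^ j := by
  unfold PT Vz
  rw [← prod_pow, ← prod_mul_distrib]
  refine prod_congr rfl fun p hp => ?_
  have hpp := (mem_pz.1 hp).2
  have h1 := rho_QS a T p hpp
  have h2 : (rhoA (QS a T) p : ℝ) = (nuT (insert a T) p : ℝ) - 1 := by
    rw [← h1]; push_cast; ring
  have hp2 : (2 : ℝ) ≤ p := by exact_mod_cast hpp.two_le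
  have hp0 : (p : ℝ) ≠ 0 := by positivity
  have hp1 : (p : ℝ) - 1 ≠ 0 := by
    have : 0 < (p : ℝ) - 1 := by linarith
    exact this.ne'
  have hq : 1 - 1 / (p : ℝ) = ((p : ℝ) - 1) / p := by field_simp
  unfold locT
  rw [h2, hT, hq, pow_succ]
  have h3 : ((p : ℝ) - 1) / p ≠ 0 := div_ne_zero hp1 hp0
  have h4 : (((p : ℝ) - 1) / p) ^ j ≠ 0 := pow_ne_zero _ h3
  field_simp
  ring

open Classical in
/-- the number of the `n ≤ N` with all `n + h` prime -/
noncomputable def cP (N : ℕ) (H : Finset ℕ) : ℕ := ((Icc 1 N).filter (fun n => ∀ h ∈ H, (n + h).Prime)).card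

open Classical in
/-- the number of the `n ≤ N` with all `n + h` rough -/
noncomputable def cR (y N : ℕ) (H : Finset ℕ) : ℕ := ((Icc 1 N).filter (fun n => ∀ h ∈ H, Ro y (n + h))).card

open Classical in
/-- the number of the `n ≤ N` with `n + a` prime and all `n + t` rough -/
noncomputable def cM (y N a : ℕ) (T : Finset ℕ) : ℕ :=
  ((Icc 1 N).filter (fun n => (n + a).Prime ∧ ∀ t ∈ T, Ro y (n + t))).card

open Classical in
lemma cM_eq (y N a : ℕ) (T : Finset ℕ) :
    (cM y N a T : ℝ) = (((Icc 1 (N + a)).filter (fun n => n.Prime ∧ BQ (QS a T) y n)).card : ℝ) -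
      (((Icc 1 a).filter (fun n => n.Prime ∧ BQ (QS a T) y n)).card : ℝ) := by
  have hiff : ∀ n : ℕ, (∀ t ∈ T, Ro y (n + t)) ↔ BQ (QS a T) y (n + a) := by
    intro n
    unfold BQ QS
    have hmod : ∀ q t : ℕ, q ∣ n + t ↔ n + a + t ≡ a [MOD q] := by
      intro q t
      rw [show n + a + t = n + t + a by ring]
      constructor
      · intro h
        have := Nat.ModEq.add_right a ((Nat.modEq_zero_iff_dvd).2 h)
        rwa [zero_add] at this
      · intro h
        have h2 : n + t + a ≡ 0 + a [MOD q] := by rw [zero_add]; exact h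
        exact (Nat.modEq_zero_iff_dvd).1 (Nat.ModEq.add_right_cancel' a h2)
    constructor
    · rintro h q hq ⟨t, ht, hd⟩
      exact h t ht q (mem_pz.1 hq).2 (mem_pz.1 hq).1 ((hmod q t).2 hd)
    · intro h t ht q hq hqy hd
      exact h q (mem_pz.2 ⟨hqy, hq⟩) ⟨t, ht, (hmod q t).1 hd⟩
  have h1 : cM y N a T = (((Icc (a + 1) (N + a)).filter (fun n => n.Prime ∧ BQ (QS a T) y n)).card) := by
    unfold cM
    refine card_bij (fun n _ => n + a) ?_ ?_ ?_
    · intro n hn
      rw [mem_filter, mem_Icc] at hn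
      rw [mem_filter, mem_Icc]
      exact ⟨⟨by omega, by omega⟩, hn.2.1, (hiff n).1 hn.2.2⟩
    · intro n _ n' _ h
      omega
    · intro p hp
      rw [mem_filter, mem_Icc] at hp
      refine ⟨p - a, ?_, by omega⟩
      rw [mem_filter, mem_Icc]
      have e : p - a + a = p := by omega
      refine ⟨⟨by omega, by omega⟩, by rw [e]; exact hp.2.1, (hiff _).2 (by rw [e]; exact hp.2.2)⟩
  have h2 : (Icc 1 (N + a)).filter (fun n => n.Prime ∧ BQ (QS a T) y n) =
      ((Icc 1 a).filter (fun n => n.Prime ∧ BQ (QS a T) y n)) ∪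
        ((Icc (a + 1) (N + a)).filter (fun n => n.Prime ∧ BQ (QS a T) y n)) := by
    rw [← filter_union]
    congr 1
    ext n
    rw [mem_union, mem_Icc, mem_Icc, mem_Icc]
    omega
  have h3 : Disjoint ((Icc 1 a).filter (fun n => n.Prime ∧ BQ (QS a T) y n))
      ((Icc (a + 1) (N + a)).filter (fun n => n.Prime ∧ BQ (QS a T) y n)) := by
    rw [Finset.disjoint_left]
    intro n hn hn'
    rw [mem_filter, mem_Icc] at hn hn'
    omega
  rw [h2, card_union_of_disjoint h3, h1]
  push_cast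
  ring

/-- **one prime and several rough numbers** -/
theorem cM_main (κ : ℝ) (hκ : 0 < κ) (hκ1 : κ ≤ 1) (K U : ℕ) (ε : ℝ) (hε : 0 < ε) (hε1 : ε ≤ 1) :
    ∀ᶠ N : ℕ in atTop, ∀ j : ℕ, j < K → ∀ a : ℕ, a ≤ N → ∀ T : Finset ℕ, (insert a T).card = j + 1 →
      |(cM (yN κ N) N a T : ℝ) - N / Real.log N * (PT (insert a T) (yN κ N) * Vz (yN κ N) ^ j)| ≤
      ε * (N / Real.log N * (PT (insert a T) (yN κ N) * Vz (yN κ N) ^ j)) + N / Real.log N ^ U := by
  classical
  rcases Nat.eq_zero_or_pos K with rfl | hK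
  · filter_upwards with N j hj
    omega
  filter_upwards [prime_cnt2 κ hκ hκ1 K (U + 1) hK (ε / 3) (by positivity) (by linarith),
    ev_logN (eventually_ge_atTop (2 : ℝ)), eventually_ge_atTop 3] with N hcnt hL2 hN j hj a ha T hT
  set y := yN κ N with hy
  set L := Real.log N with hL
  have hL0 : 0 < L := by linarith
  have hper : PerA (QS a T) K := perA_QS a T K (by omega)
  have h1 := hcnt (QS a T) hper (N + a) (by omega)
  have h2 := hcnt (QS a T) hper a (by omega)
  rw [prod_QS j hT y] at h1 h2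
  rw [cM_eq]
  obtain ⟨P, hP⟩ : ∃ P : ℝ, P = PT (insert a T) y * Vz y ^ j := ⟨_, rfl⟩
  have hP0 : 0 ≤ P := by
    rw [hP]
    exact mul_nonneg (PT_nonneg _ _) (pow_nonneg (Vz_pos y).le _)
  rw [← hP] at h1 h2 ⊢
  have e1 : ((N + a : ℕ) : ℝ) / L * P = N / L * P + a / L * P := by push_cast; ring
  rw [e1] at h1
  have e2 : (a : ℝ) / L * P ≤ N / L * P := by
    apply mul_le_mul_of_nonneg_right _ hP0
    apply div_le_div_of_nonneg_right _ hL0.le
    exact_mod_cast ha
  have e3 : 0 ≤ (a : ℝ) / L * P := by positivity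
  have e4 : 2 * ((N : ℝ) / L ^ (U + 1)) ≤ N / L ^ U := by
    rw [pow_succ, ← div_div]
    have : (N : ℝ) / L ^ U / L ≤ N / L ^ U / 2 := div_le_div_of_nonneg_left (by positivity) (by norm_num) hL2
    linarith
  obtain ⟨a1, a2⟩ := abs_le.1 h1
  obtain ⟨b1, b2⟩ := abs_le.1 h2
  have e5 : ε / 3 * ((N : ℝ) / L * P + a / L * P) + ε / 3 * (a / L * P) ≤ ε * (N / L * P) := by
    have : ε / 3 * ((a : ℝ) / L * P) ≤ ε / 3 * (N / L * P) := mul_le_mul_of_nonneg_left e2 (by positivity)
    have e6 : ε / 3 * ((N : ℝ) / L * P + a / L * P) = ε / 3 * (N / L * P) + ε / 3 * (a / L * P) := by ring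
    rw [e6]
    linarith
  rw [abs_le]
  constructor <;> linarith

end Pool.Agent.H528.Tup
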