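import Mathlib
import Pool.Agent.H528.Tup

/-! Prime tuples in arbitrary sets of shifts: the lower bound for the total number. -/

set_option autoImplicit false

namespace Pool.Agent.H528.Tup

open Finset Filter
open Pool.Agent.Y822
open Pool.Agent.H373R2.T7 (pz Vz mem_pz rhoA PerA lam_fund rhoA_le Vz_pos)
open Pool.Agent.H387R2.Uni (nuT Adm locT CT)
open Pool.Agent.H528.PCnt

open Classical in
/-- double counting -/
lemma dc (A : Finset ℕ) (N K : ℕ) (q : ℕ → Prop) :
    ∑ H ∈ A.powersetCard K, ((Icc 1 N).filter (fun n => ∀ h ∈ H, q (n + h))).card =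
      ∑ n ∈ Icc 1 N, (A.filter (fun a => q (n + a))).card.choose K := by
  have h1 : ∀ H : Finset ℕ, ((Icc 1 N).filter (fun n => ∀ h ∈ H, q (n + h))).card =
      ∑ n ∈ Icc 1 N, if (∀ h ∈ H, q (n + h)) then 1 else 0 := by
    intro H
    rw [card_eq_sum_ones, sum_filter]
  rw [sum_congr rfl fun H _ => h1 H, sum_comm]
  refine sum_congr rfl fun n _ => ?_
  rw [← sum_filter, ← card_eq_sum_ones, ← card_powersetCard]
  congr 1
  ext H
  rw [mem_filter, mem_powersetCard, mem_powersetCard]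
  constructor
  · rintro ⟨⟨h2, h3⟩, h4⟩
    exact ⟨fun h hh => mem_filter.2 ⟨h2 hh, h4 h hh⟩, h3⟩
  · rintro ⟨h2, h3⟩
    exact ⟨⟨fun h hh => (mem_filter.1 (h2 hh)).1, h3⟩, fun h hh => (mem_filter.1 (h2 hh)).2⟩

/-- number of the primes among the `n + a` -/
noncomputable def P1 (A : Finset ℕ) (n : ℕ) : ℝ := ∑ a ∈ A, eP (n + a)

/-- number of the rough numbers among the `n + a` -/
noncomputable def M1 (A : Finset ℕ) (y n : ℕ) : ℝ := ∑ a ∈ A, ro y (n + a)

lemma P1_nonneg (A : Finset ℕ) (n : ℕ) : 0 ≤ P1 A n := sum_nonneg fun _ _ => (eP_bd _).1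

lemma M1_nonneg (A : Finset ℕ) (y n : ℕ) : 0 ≤ M1 A y n := sum_nonneg fun _ _ => ro_nonneg _ _

lemma P1_le (A : Finset ℕ) (n : ℕ) : P1 A n ≤ A.card := by
  unfold P1
  calc _ ≤ ∑ _a ∈ A, (1 : ℝ) := sum_le_sum fun a _ => (eP_bd _).2
    _ = A.card := by simp

lemma M1_le (A : Finset ℕ) (y n : ℕ) : M1 A y n ≤ A.card := by
  unfold M1
  calc _ ≤ ∑ _a ∈ A, (1 : ℝ) := sum_le_sum fun a _ => ro_le_one _ _
    _ = A.card := by simp

open Classical in
lemma P1_card (A : Finset ℕ) (n : ℕ) : P1 A n = ((A.filter (fun a => (n + a).Prime)).card : ℝ) := by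
  unfold P1
  rw [card_eq_sum_ones, Nat.cast_sum, sum_filter]
  refine sum_congr rfl fun a _ => ?_
  unfold eP
  by_cases h : (n + a).Prime
  · rw [if_pos h, if_pos h, Nat.cast_one]
  · rw [if_neg h, if_neg h]

open Classical in
lemma M1_card (A : Finset ℕ) (y n : ℕ) : M1 A y n = ((A.filter (fun a => Ro y (n + a))).card : ℝ) := by
  unfold M1
  rw [card_eq_sum_ones, Nat.cast_sum, sum_filter]
  refine sum_congr rfl fun a _ => ?_
  unfold ro
  split_ifs <;> simp

/-- falling factorials and powers -/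
lemma desc_low (S k : ℕ) : (S : ℝ) ^ (k + 1) - ((k : ℝ) + 1) ^ 2 * (S : ℝ) ^ k ≤ ((k + 1).factorial : ℝ) * (S.choose (k + 1) : ℝ) := by
  have hD : ∀ j : ℕ, ((S.descFactorial j : ℕ) : ℝ) = (j.factorial : ℝ) * (S.choose j : ℝ) := by
    intro j
    rw [Nat.descFactorial_eq_factorial_mul_choose]
    push_cast
    ring
  rw [← hD]
  induction k with
  | zero =>
    rw [Nat.descFactorial_succ, Nat.descFactorial_zero]
    push_cast
    have : (0 : ℝ) ≤ S := Nat.cast_nonneg S
    simp only [Nat.sub_zero, zero_add, pow_one, one_pow, pow_zero, mul_one]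
    linarith
  | succ k ih =>
    rw [Nat.descFactorial_succ]
    have hS0 : (0 : ℝ) ≤ S := Nat.cast_nonneg S
    have hk0 : (0 : ℝ) ≤ k := Nat.cast_nonneg k
    rcases Nat.lt_or_ge S (k + 1) with h | h
    · have h1 : S - (k + 1) = 0 := by omega
      rw [h1, zero_mul]
      push_cast
      have h2 : (S : ℝ) < (k : ℝ) + 1 := by exact_mod_cast h
      have h3 : (0 : ℝ) ≤ (S : ℝ) ^ (k + 1) := by positivity
      have h4 : (S : ℝ) ^ (k + 1 + 1) = S ^ (k + 1) * S := pow_succ _ _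
      rw [h4]
      have h5 : (S : ℝ) ≤ ((k : ℝ) + 1 + 1) ^ 2 := by nlinarith
      have := mul_le_mul_of_nonneg_left h5 h3
      linarith
    · have h1 : (((S - (k + 1)) * S.descFactorial (k + 1) : ℕ) : ℝ) = ((S : ℝ) - (k + 1)) * (S.descFactorial (k + 1) : ℝ) := by
        push_cast [Nat.cast_sub h]
        ring
      rw [h1]
      have h2 : (0 : ℝ) ≤ (S : ℝ) - (k + 1) := by
        have : ((k + 1 : ℕ) : ℝ) ≤ S := by exact_mod_cast h
        push_cast at this
        linarith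
      have h3 := mul_le_mul_of_nonneg_left ih h2
      refine le_trans ?_ h3
      push_cast
      have e1 : (S : ℝ) ^ (k + 1 + 1) = S * (S * S ^ k) := by ring
      have e2 : (S : ℝ) ^ (k + 1) = S * S ^ k := by ring
      rw [e1, e2]
      have h4 : (0 : ℝ) ≤ (S : ℝ) ^ k := by positivity
      obtain ⟨s, hs⟩ : ∃ s : ℝ, s = (S : ℝ) ^ k := ⟨_, rfl⟩
      rw [← hs] at h4 ⊢
      have h5 : 0 ≤ (S : ℝ) * s := by positivity
      have h6 : 0 ≤ (S : ℝ) * s * ((k : ℝ) + 1) := by positivity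
      have h7 : 0 ≤ ((k : ℝ) + 1) * (((k : ℝ) + 1) ^ 2 * s) := by positivity
      nlinarith

/-- Bernoulli's inequality -/
lemma bern (k : ℕ) {x c : ℝ} (hx : 0 ≤ x) (hc : 0 ≤ c) : ((k : ℝ) + 1) * c ^ k * x ≤ x ^ (k + 1) + k * c ^ (k + 1) := by
  rcases eq_or_lt_of_le hc with h | h
  · rw [← h]
    rcases Nat.eq_zero_or_pos k with rfl | hk
    · simp
    · rw [zero_pow (by omega), zero_pow (by omega)]
      have := pow_nonneg hx (k + 1)
      linarith
  · have h1 := one_add_mul_le_pow (a := x / c - 1) (by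
      have : 0 ≤ x / c := by positivity
      linarith) (k + 1)
    have h2 : (1 : ℝ) + (x / c - 1) = x / c := by ring
    rw [h2, div_pow] at h1
    have hck : 0 < c ^ (k + 1) := by positivity
    rw [le_div_iff₀ hck] at h1
    have e : (1 + ((k + 1 : ℕ) : ℝ) * (x / c - 1)) * c ^ (k + 1) = ((k : ℝ) + 1) * c ^ k * x - k * c ^ (k + 1) := by
      push_cast
      rw [pow_succ]
      field_simp
      ring
    rw [e] at h1
    linarith

/-- expansion of the mixed moment -/
lemma exp_gen (A : Finset ℕ) (N j : ℕ) (g r : ℕ → ℝ) :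
    ∑ n ∈ Icc 1 N, (∑ a ∈ A, g (n + a)) * (∑ a ∈ A, r (n + a)) ^ j =
      ∑ a ∈ A, ∑ f ∈ Fintype.piFinset (fun _ : Fin j => A), ∑ n ∈ Icc 1 N, g (n + a) * ∏ i, r (n + f i) := by
  have h1 : ∀ n, (∑ a ∈ A, g (n + a)) * (∑ a ∈ A, r (n + a)) ^ j =
      ∑ a ∈ A, ∑ f ∈ Fintype.piFinset (fun _ : Fin j => A), g (n + a) * ∏ i, r (n + f i) := by
    intro n
    rw [Finset.sum_pow' A (fun a => r (n + a)) j, sum_mul]
    refine sum_congr rfl fun a _ => ?_
    rw [mul_sum]
  rw [sum_congr rfl fun n _ => h1 n, sum_comm]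
  refine sum_congr rfl fun a _ => ?_
  rw [sum_comm]

open Classical in
lemma cM_sum (y N a j : ℕ) (f : Fin j → ℕ) :
    ∑ n ∈ Icc 1 N, eP (n + a) * ∏ i, ro y (n + f i) = (cM y N a (univ.image f) : ℝ) := by
  unfold cM
  rw [card_eq_sum_ones, Nat.cast_sum, sum_filter]
  refine sum_congr rfl fun n _ => ?_
  unfold eP
  by_cases hp : (n + a).Prime
  · rw [if_pos hp, one_mul]
    by_cases hr : ∀ t ∈ univ.image f, Ro y (n + t)
    · rw [if_pos ⟨hp, hr⟩, Nat.cast_one]
      refine prod_eq_one fun i _ => ?_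
      unfold ro
      rw [if_pos (hr _ (mem_image_of_mem _ (mem_univ i)))]
    · rw [if_neg (fun h => hr h.2)]
      push Not at hr
      obtain ⟨t, ht, h2⟩ := hr
      obtain ⟨i, _, rfl⟩ := mem_image.1 ht
      refine prod_eq_zero (mem_univ i) ?_
      unfold ro
      rw [if_neg h2]
  · rw [if_neg hp, if_neg (fun h => hp h.1), zero_mul]

open Classical in
lemma cR_sum (y N a j : ℕ) (f : Fin j → ℕ) :
    ∑ n ∈ Icc 1 N, ro y (n + a) * ∏ i, ro y (n + f i) = (cR y N (insert a (univ.image f)) : ℝ) := by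
  unfold cR
  rw [card_eq_sum_ones, Nat.cast_sum, sum_filter]
  refine sum_congr rfl fun n _ => ?_
  by_cases hr : ∀ t ∈ insert a (univ.image f), Ro y (n + t)
  · rw [if_pos hr, Nat.cast_one]
    have h1 : ro y (n + a) = 1 := by
      unfold ro
      rw [if_pos (hr a (mem_insert_self _ _))]
    rw [h1, one_mul]
    refine prod_eq_one fun i _ => ?_
    unfold ro
    rw [if_pos (hr _ (mem_insert_of_mem (mem_image_of_mem _ (mem_univ i))))]
  · rw [if_neg hr]
    push Not at hr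
    obtain ⟨t, ht, h2⟩ := hr
    rw [mem_insert] at ht
    rcases ht with rfl | ht
    · unfold ro
      rw [if_neg h2, zero_mul]
    · obtain ⟨i, _, rfl⟩ := mem_image.1 ht
      have : ∏ i, ro y (n + f i) = 0 := by
        refine prod_eq_zero (mem_univ i) ?_
        unfold ro
        rw [if_neg h2]
      rw [this, mul_zero]

lemma PT_single (a y : ℕ) : PT {a} y = 1 := by
  unfold PT
  refine prod_eq_one fun p hp => ?_
  have hp2 : (2 : ℝ) ≤ p := by exact_mod_cast (mem_pz.1 hp).2.two_le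
  have h1 : (1 - 1 / (p : ℝ)) ≠ 0 := by
    have : 1 / (p : ℝ) ≤ 1 / 2 := one_div_le_one_div_of_le (by norm_num) hp2
    linarith
  unfold locT nuT
  rw [image_singleton, card_singleton, card_singleton, pow_one, Nat.cast_one]
  exact div_self h1

end Pool.Agent.H528.Tup
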