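import Mathlib
import Pool.Agent.H528.TupB

/-! Prime tuples in arbitrary sets of shifts: the lower bound for the total number. -/

set_option autoImplicit false

namespace Pool.Agent.H528.Tup

open Finset Filter
open Pool.Agent.Y822
open Pool.Agent.Y822.Q (int0)
open Pool.Agent.H373R2.T7 (pz Vz mem_pz rhoA PerA lam_fund rhoA_le Vz_pos Vz_le_one)
open Pool.Agent.H387R2.Uni (nuT Adm locT CT)
open Pool.Agent.H528.PCnt

/-- the final computation -/
lemma low_calc {K t Z Q D R : ℝ} (hK : 1 ≤ K) (ht : 0 < t) (ht1 : 12 * K * t ≤ 1) (hD : 0 ≤ D) (hQ : 0 ≤ Q)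
    (ha : (1 - 2 * K * t) * D ≤ Z) (hb : (1 - 2 * K * t) * Z - t * D - t * D ≤ R)
    (hc : (1 - t) * Q - t * D ≤ Z) (hd : Z - t * D ≤ (1 + t) * Q + t * D) :
    D ≤ 2 * Q ∧ (1 - (2 * K + 7) * t) * Q ≤ R := by
  have hKt : 0 < K * t := by positivity
  have htK : t ≤ K * t := by nlinarith
  have h1 : D ≤ 2 * Q := by
    have h2 : (1 - 4 * (K * t)) * D ≤ (1 + t) * Q := by
      have : (1 - 4 * (K * t)) * D ≤ (1 - 2 * K * t) * D - 2 * t * D := by nlinarith
      nlinarith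
    have h3 : (1 + t) * Q ≤ (1 + K * t) * Q := mul_le_mul_of_nonneg_right (by linarith) hQ
    have h4 : 12 * (K * t) ≤ 1 := by linarith
    have h5 : (1 + K * t) * Q ≤ 13 / 12 * Q := mul_le_mul_of_nonneg_right (by linarith) hQ
    have h6 : 2 / 3 * D ≤ (1 - 4 * (K * t)) * D := mul_le_mul_of_nonneg_right (by linarith) hD
    linarith
  refine ⟨h1, ?_⟩
  have h2 : t * D ≤ 2 * t * Q := by
    have := mul_le_mul_of_nonneg_left h1 ht.le
    linarith
  have h3 : (1 - 3 * t) * Q ≤ Z := by linarith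
  have h4 : 0 ≤ 1 - 2 * K * t := by linarith
  have h5 : (1 - 2 * K * t) * ((1 - 3 * t) * Q) ≤ (1 - 2 * K * t) * Z := mul_le_mul_of_nonneg_left h3 h4
  have h6 : (1 - 2 * K * t - 3 * t) * Q ≤ (1 - 2 * K * t) * ((1 - 3 * t) * Q) := by
    have : 0 ≤ 6 * K * t * t * Q := by positivity
    nlinarith
  have e : (1 - (2 * K + 7) * t) * Q = (1 - 2 * K * t - 3 * t) * Q - 2 * t * Q - 2 * t * Q := by ring
  rw [e]
  linarith

open Classical in
/-- **the total number of the prime tuples in a set of shifts** -/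
theorem tup_low (k : ℕ) (κ : ℝ) (hκ : 0 < κ) (hκ1 : κ ≤ 1) (t : ℝ) (ht : 0 < t) (ht1 : 12 * ((k : ℝ) + 1) * t ≤ 1) :
    ∀ᶠ N : ℕ in atTop, ∀ A : Finset ℕ, (∀ a ∈ A, a ≤ N) → Real.log N ^ (k + 2) ≤ A.card →
      (1 - (2 * ((k : ℝ) + 1) + 7) * t) * (N / Real.log N ^ (k + 1) * ∑ H ∈ A.powersetCard (k + 1), PT H (yN κ N)) ≤
        ∑ H ∈ A.powersetCard (k + 1), (cP N H : ℝ) ∧
      N / Real.log N ^ (k + 1) * (A.card : ℝ) ^ (k + 1) ≤
        2 * (((k + 1).factorial : ℝ) * (N / Real.log N ^ (k + 1) * ∑ H ∈ A.powersetCard (k + 1), PT H (yN κ N))) := by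
  obtain ⟨cz, hcz, hV⟩ := Vz_sharp
  obtain ⟨B, hB⟩ : ∃ B : ℝ, B = 1 / cz + 1 := ⟨_, rfl⟩
  have hB1 : 1 ≤ B := by rw [hB]; have : 0 ≤ 1 / cz := by positivity
                         linarith
  have hB0 : 0 < B := by linarith
  have ht2 : t ≤ 1 / 12 := by
    have : 12 * t ≤ 12 * ((k : ℝ) + 1) * t := by
      have : (0 : ℝ) ≤ k * t := by positivity
      linarith
    linarith
  have hint : ∀ᶠ N : ℕ in atTop, ∀ j < k + 1, ∀ H : Finset ℕ, H.card = j + 1 →
      |(cR (yN κ N) N H : ℝ) - N * (PT H (yN κ N) * Vz (yN κ N) ^ (j + 1))| ≤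
      t / 2 * (N * (PT H (yN κ N) * Vz (yN κ N) ^ (j + 1))) + N / Real.log N ^ (k + 4) := by
    have := (Filter.eventually_all_finite (Set.finite_lt_nat (k + 1))).2 fun j _ =>
      int0 j κ (t / 2) (k + 4) hκ hκ1 (by positivity) (by linarith)
    filter_upwards [this] with N hN j hj
    exact hN j hj
  have hcM := cM_main κ hκ hκ1 (k + 1) (k + 4) t ht (by linarith)
  have e1 := ev_logN (eventually_ge_atTop (max (max 2 ((((k : ℝ) + 1) + 1) ^ 2 * B ^ (k + 2) / t)) (2 / (t * cz))))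
  filter_upwards [hint, hcM, yN_facts κ hκ hκ1 3 1, e1, eventually_ge_atTop 3] with N hR hM hyf f1 hN A hA hAc
  obtain ⟨y1, y2, y3, y4, y5⟩ := hyf
  set y := yN κ N with hyd
  set L := Real.log N with hLd
  have hL2 : 2 ≤ L := (le_max_left _ _).trans ((le_max_left _ _).trans f1)
  have hL0 : 0 < L := by linarith
  have hL1 : 1 ≤ L := by linarith
  have hN0 : (0 : ℝ) < N := by positivity
  have hLb : (((k : ℝ) + 1) + 1) ^ 2 * B ^ (k + 2) / t ≤ L := (le_max_right _ _).trans ((le_max_left _ _).trans f1)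
  have hLc : 2 / (t * cz) ≤ L := (le_max_right _ _).trans f1
  rw [div_le_iff₀ ht] at hLb
  rw [div_le_iff₀ (by positivity)] at hLc
  have hVy : 0 < Vz y := Vz_pos y
  have hyN : y ≤ N := by
    rw [pow_one] at y4
    exact y4
  have hVlow : cz / L ≤ Vz y := by
    refine le_trans ?_ (hV y y5)
    apply div_le_div_of_nonneg_left hcz.le
    · exact Real.log_pos (by exact_mod_cast (by omega : 1 < y))
    · exact Real.log_le_log (by positivity) (by exact_mod_cast hyN)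
  obtain ⟨W, hW⟩ : ∃ W : ℝ, W = 1 / (L * Vz y) := ⟨_, rfl⟩
  have hW0 : 0 < W := by rw [hW]; positivity
  have hWV : W * Vz y = 1 / L := by rw [hW]; field_simp
  have hWB : W ≤ B := by
    rw [hW, hB]
    have h1 : cz ≤ L * Vz y := by
      rw [div_le_iff₀ hL0] at hVlow
      linarith
    have h2 : 1 / (L * Vz y) ≤ 1 / cz := one_div_le_one_div_of_le hcz h1
    linarith
  have hWB1 : W + 1 ≤ 2 * B := by linarith
  obtain ⟨m, hm⟩ : ∃ m : ℝ, m = A.card := ⟨_, rfl⟩
  rw [← hm] at hAc ⊢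
  have hm0 : 0 < m := lt_of_lt_of_le (by positivity) hAc
  obtain ⟨D, hD⟩ : ∃ D : ℝ, D = N / L ^ (k + 1) * m ^ (k + 1) := ⟨_, rfl⟩
  have hD0 : 0 < D := by rw [hD]; positivity
  obtain ⟨Z, hZ⟩ : ∃ Z : ℝ, Z = W ^ (k + 1) * ∑ n ∈ Icc 1 N, M1 A y n ^ (k + 1) := ⟨_, rfl⟩
  obtain ⟨Q, hQ⟩ : ∃ Q : ℝ, Q = ((k + 1).factorial : ℝ) * (N / L ^ (k + 1) * ∑ H ∈ A.powersetCard (k + 1), PT H y) := ⟨_, rfl⟩
  obtain ⟨R, hRd⟩ : ∃ R : ℝ, R = ((k + 1).factorial : ℝ) * ∑ H ∈ A.powersetCard (k + 1), (cP N H : ℝ) := ⟨_, rfl⟩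
  have hPT0 : 0 ≤ ∑ H ∈ A.powersetCard (k + 1), PT H y := sum_nonneg fun H _ => PT_nonneg H y
  have hQ0 : 0 ≤ Q := by rw [hQ]; positivity
  have hk1 : (1 : ℝ) ≤ (k : ℝ) + 1 := by have : (0 : ℝ) ≤ k := Nat.cast_nonneg k
                                         linarith
  have hk0 : (0 : ℝ) ≤ k := Nat.cast_nonneg k
  have hBk : (1 : ℝ) ≤ B ^ (k + 2) := one_le_pow₀ hB1
  have hBk1 : B ^ (k + 1) ≤ B ^ (k + 2) := pow_le_pow_right₀ hB1 (by omega)
  have hWk : ∀ j, W ^ j ≤ B ^ j := fun j => pow_le_pow_left₀ hW0.le hWB j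
  -- small quantities
  have hs1 : ((k : ℝ) + 1) ^ 2 * B ^ (k + 1) * (m ^ k * N) ≤ t * D := by
    have e : D = m ^ k * N * (m / L ^ (k + 1)) := by rw [hD, pow_succ m k]; ring
    have h1 : L ≤ m / L ^ (k + 1) := by
      rw [le_div_iff₀ (by positivity)]
      calc L * L ^ (k + 1) = L ^ (k + 2) := by ring
        _ ≤ m := hAc
    rw [e]
    calc ((k : ℝ) + 1) ^ 2 * B ^ (k + 1) * (m ^ k * N) ≤ (((k : ℝ) + 1) + 1) ^ 2 * B ^ (k + 2) * (m ^ k * N) := by
          gcongr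
          linarith
      _ ≤ L * t * (m ^ k * N) := mul_le_mul_of_nonneg_right hLb (by positivity)
      _ ≤ (m / L ^ (k + 1)) * t * (m ^ k * N) := by gcongr
      _ = t * (m ^ k * N * (m / L ^ (k + 1))) := by ring
  have hs2 : ∀ c : ℝ, 0 ≤ c → c ≤ ((k : ℝ) + 1) * B ^ (k + 2) * 2 → c * (m ^ (k + 1) * (N / L ^ (k + 4))) ≤ t * D := by
    intro c hc0 hc
    have e : m ^ (k + 1) * (N / L ^ (k + 4)) = D / L ^ 3 := by
      rw [hD]
      have : L ^ (k + 4) = L ^ (k + 1) * L ^ 3 := by ring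
      rw [this]
      field_simp
    rw [e]
    have h1 : c ≤ t * L ^ 3 := by
      have h2 : ((k : ℝ) + 1) * B ^ (k + 2) * 2 ≤ 2 * ((((k : ℝ) + 1) + 1) ^ 2 * B ^ (k + 2)) := by
        have : (k : ℝ) + 1 ≤ (((k : ℝ) + 1) + 1) ^ 2 := by nlinarith
        nlinarith
      have h3 : L * 2 ≤ L ^ 3 := by
        have h4 : (2 : ℝ) ≤ L * L := by nlinarith
        calc L * 2 ≤ L * (L * L) := mul_le_mul_of_nonneg_left h4 hL0.le
          _ = L ^ 3 := by ring
      nlinarith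
    rw [mul_div_assoc', div_le_iff₀ (by positivity)]
    calc c * D ≤ (t * L ^ 3) * D := mul_le_mul_of_nonneg_right h1 hD0.le
      _ = t * D * L ^ 3 := by ring
  have hcardsub : ∀ j : ℕ, ∀ f ∈ Fintype.piFinset (fun _ : Fin j => A), ∀ t' ∈ univ.image f, t' ∈ A := by
    intro j f hf t' ht'
    obtain ⟨i, _, rfl⟩ := mem_image.1 ht'
    exact (Fintype.mem_piFinset.1 hf) i
  -- comparison of the moments
  have hMR : ∀ a ∈ A, ∀ f ∈ Fintype.piFinset (fun _ : Fin k => A),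
      (1 - 2 * t) * W * (cR y N (insert a (univ.image f)) : ℝ) - (W + 1) * (N / L ^ (k + 4)) ≤ (cM y N a (univ.image f) : ℝ) := by
    intro a ha f hf
    have hc1 : (insert a (univ.image f)).card ≤ k + 1 := by
      refine (card_insert_le _ _).trans ?_
      have := (card_image_le (s := (univ : Finset (Fin k))) (f := f))
      rw [card_univ, Fintype.card_fin] at this
      omega
    have hc2 : 0 < (insert a (univ.image f)).card := card_pos.2 ⟨a, mem_insert_self _ _⟩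
    obtain ⟨j, hj⟩ : ∃ j, (insert a (univ.image f)).card = j + 1 := ⟨_, (Nat.succ_pred_eq_of_pos hc2).symm⟩
    have g1 := hM j (by omega) a (hA a ha) (univ.image f) hj
    have g2 := hR j (by omega) (insert a (univ.image f)) hj
    obtain ⟨P, hP⟩ : ∃ P : ℝ, P = PT (insert a (univ.image f)) y := ⟨_, rfl⟩
    have hP0 : 0 ≤ P := by rw [hP]; exact PT_nonneg _ _
    rw [← hP] at g1 g2
    obtain ⟨X0, hX0⟩ : ∃ X0 : ℝ, X0 = N / L * (P * Vz y ^ j) := ⟨_, rfl⟩
    have hX00 : 0 ≤ X0 := by rw [hX0]; positivity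
    have e2 : W * (N * (P * Vz y ^ (j + 1))) = X0 := by
      rw [hX0, hW, pow_succ]
      field_simp
    have h1 := (abs_le.1 g1).1
    have h2 := (abs_le.1 g2).2
    rw [← hX0] at h1
    have h3 : W * (cR y N (insert a (univ.image f)) : ℝ) ≤ (1 + t) * X0 + W * (N / L ^ (k + 4)) := by
      have h4 : W * (cR y N (insert a (univ.image f)) : ℝ) ≤
          W * (N * (P * Vz y ^ (j + 1)) + (t / 2 * (N * (P * Vz y ^ (j + 1))) + N / L ^ (k + 4))) :=
        mul_le_mul_of_nonneg_left (by linarith) hW0.le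
      have e3 : W * (N * (P * Vz y ^ (j + 1)) + (t / 2 * (N * (P * Vz y ^ (j + 1))) + N / L ^ (k + 4))) =
        (1 + t / 2) * (W * (N * (P * Vz y ^ (j + 1)))) + W * (N / L ^ (k + 4)) := by ring
      rw [e3, e2] at h4
      have : 0 ≤ t / 2 * X0 := by positivity
      have e4 : (1 + t) * X0 = (1 + t / 2) * X0 + t / 2 * X0 := by ring
      linarith
    have h5 : (1 - 2 * t) * (W * (cR y N (insert a (univ.image f)) : ℝ)) ≤ (1 - 2 * t) * ((1 + t) * X0 + W * (N / L ^ (k + 4))) :=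
      mul_le_mul_of_nonneg_left h3 (by linarith)
    have h6 : (1 - 2 * t) * ((1 + t) * X0 + W * (N / L ^ (k + 4))) ≤ (1 - t) * X0 + W * (N / L ^ (k + 4)) := by
      have : 0 ≤ 2 * t * t * X0 := by positivity
      have : 0 ≤ 2 * t * (W * (N / L ^ (k + 4))) := by positivity
      nlinarith
    have e5 : (1 - 2 * t) * W * (cR y N (insert a (univ.image f)) : ℝ) = (1 - 2 * t) * (W * (cR y N (insert a (univ.image f)) : ℝ)) := by ring
    rw [e5]
    linarith
  have hPM : (1 - 2 * t) * W * (∑ n ∈ Icc 1 N, M1 A y n ^ (k + 1)) - (W + 1) * (N / L ^ (k + 4)) * m ^ (k + 1) ≤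
      ∑ n ∈ Icc 1 N, P1 A n * M1 A y n ^ k := by
    have g1 : ∑ n ∈ Icc 1 N, P1 A n * M1 A y n ^ k =
        ∑ a ∈ A, ∑ f ∈ Fintype.piFinset (fun _ : Fin k => A), (cM y N a (univ.image f) : ℝ) := by
      have := exp_gen A N k eP (ro y)
      unfold P1 M1
      rw [this]
      exact sum_congr rfl fun a _ => sum_congr rfl fun f _ => cM_sum y N a k f
    have g2 : ∑ n ∈ Icc 1 N, M1 A y n ^ (k + 1) =
        ∑ a ∈ A, ∑ f ∈ Fintype.piFinset (fun _ : Fin k => A), (cR y N (insert a (univ.image f)) : ℝ) := by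
      have := exp_gen A N k (ro y) (ro y)
      have h3 : ∑ n ∈ Icc 1 N, M1 A y n ^ (k + 1) = ∑ n ∈ Icc 1 N, (∑ a ∈ A, ro y (n + a)) * (∑ a ∈ A, ro y (n + a)) ^ k := by
        refine sum_congr rfl fun n _ => ?_
        unfold M1
        rw [pow_succ, mul_comm]
      rw [h3, this]
      exact sum_congr rfl fun a _ => sum_congr rfl fun f _ => cR_sum y N a k f
    rw [g1, g2, mul_sum]
    have hcp : (((Fintype.piFinset (fun _ : Fin k => A)).card : ℕ) : ℝ) = m ^ k := by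
      rw [Fintype.card_piFinset_const, hm]
      push_cast
      rfl
    have e3 : (W + 1) * (N / L ^ (k + 4)) * m ^ (k + 1) =
        ∑ _a ∈ A, ∑ _f ∈ Fintype.piFinset (fun _ : Fin k => A), (W + 1) * (N / L ^ (k + 4)) := by
      rw [sum_const, sum_const, nsmul_eq_mul, nsmul_eq_mul, hcp, ← hm]
      ring
    rw [e3, ← sum_sub_distrib]
    refine sum_le_sum fun a ha => ?_
    rw [mul_sum, ← sum_sub_distrib]
    exact sum_le_sum fun f hf => hMR a ha f hf
  have hbern : ((k : ℝ) + 1) * W ^ k * (∑ n ∈ Icc 1 N, P1 A n * M1 A y n ^ k) - k * Z ≤ ∑ n ∈ Icc 1 N, P1 A n ^ (k + 1) := by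
    have h1 : ∀ n ∈ Icc 1 N, ((k : ℝ) + 1) * W ^ k * (P1 A n * M1 A y n ^ k) - k * (W ^ (k + 1) * M1 A y n ^ (k + 1)) ≤ P1 A n ^ (k + 1) := by
      intro n _
      have := bern k (P1_nonneg A n) (c := W * M1 A y n) (mul_nonneg hW0.le (M1_nonneg A y n))
      rw [mul_pow, mul_pow] at this
      have e : ((k : ℝ) + 1) * (W ^ k * M1 A y n ^ k) * P1 A n = ((k : ℝ) + 1) * W ^ k * (P1 A n * M1 A y n ^ k) := by ring
      rw [e] at this
      linarith
    refine le_trans (le_of_eq ?_) (sum_le_sum h1)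
    rw [sum_sub_distrib, ← mul_sum, ← mul_sum, ← mul_sum, hZ]
  have hZ0 : 0 ≤ Z := by
    rw [hZ]
    exact mul_nonneg (by positivity) (sum_nonneg fun n _ => pow_nonneg (M1_nonneg A y n) _)
  have hdP : ∑ n ∈ Icc 1 N, P1 A n ^ (k + 1) - t * D ≤ R := by
    have h1 : ∀ n ∈ Icc 1 N, P1 A n ^ (k + 1) - ((k : ℝ) + 1) ^ 2 * m ^ k ≤
        ((k + 1).factorial : ℝ) * (((A.filter (fun a => (n + a).Prime)).card.choose (k + 1) : ℕ) : ℝ) := by
      intro n _
      have g1 := desc_low (A.filter (fun a => (n + a).Prime)).card k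
      rw [← P1_card] at g1
      have g2 : P1 A n ^ k ≤ m ^ k := by
        rw [hm]
        exact pow_le_pow_left₀ (P1_nonneg A n) (P1_le A n) k
      have g3 : ((k : ℝ) + 1) ^ 2 * P1 A n ^ k ≤ ((k : ℝ) + 1) ^ 2 * m ^ k := mul_le_mul_of_nonneg_left g2 (by positivity)
      linarith
    have h2 := sum_le_sum h1
    rw [sum_sub_distrib, sum_const, Nat.card_Icc, Nat.add_sub_cancel, nsmul_eq_mul, ← mul_sum] at h2
    have h3 := dc A N (k + 1) Nat.Prime
    have h4 : (∑ H ∈ A.powersetCard (k + 1), (cP N H : ℝ)) =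
        ∑ n ∈ Icc 1 N, (((A.filter (fun a => (n + a).Prime)).card.choose (k + 1) : ℕ) : ℝ) := by
      have h5 : ((∑ H ∈ A.powersetCard (k + 1), cP N H : ℕ) : ℝ) =
          ((∑ n ∈ Icc 1 N, (A.filter (fun a => (n + a).Prime)).card.choose (k + 1) : ℕ) : ℝ) := by
        have h6 : ∑ H ∈ A.powersetCard (k + 1), cP N H = ∑ n ∈ Icc 1 N, (A.filter (fun a => (n + a).Prime)).card.choose (k + 1) := by
          refine Eq.trans ?_ (h3.trans ?_)
          · refine sum_congr rfl fun H _ => ?_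
            unfold cP
            congr 1
            ext n
            simp only [mem_filter]
          · refine sum_congr rfl fun n _ => ?_
            congr 2
            ext a
            simp only [mem_filter]
        rw [h6]
      rw [Nat.cast_sum, Nat.cast_sum] at h5
      exact h5
    rw [hRd, h4]
    have h5 : (N : ℝ) * (((k : ℝ) + 1) ^ 2 * m ^ k) ≤ t * D := by
      refine le_trans ?_ hs1
      have h6 : 1 ≤ B ^ (k + 1) := one_le_pow₀ hB1
      have h7 : (0 : ℝ) ≤ ((k : ℝ) + 1) ^ 2 * (m ^ k * N) := by positivity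
      calc (N : ℝ) * (((k : ℝ) + 1) ^ 2 * m ^ k) = 1 * (((k : ℝ) + 1) ^ 2 * (m ^ k * N)) := by ring
        _ ≤ B ^ (k + 1) * (((k : ℝ) + 1) ^ 2 * (m ^ k * N)) := mul_le_mul_of_nonneg_right h6 h7
        _ = _ := by ring
    linarith
  have hb : (1 - 2 * ((k : ℝ) + 1) * t) * Z - t * D - t * D ≤ R := by
    have h1 : ((k : ℝ) + 1) * W ^ k * ((1 - 2 * t) * W * (∑ n ∈ Icc 1 N, M1 A y n ^ (k + 1)) - (W + 1) * (N / L ^ (k + 4)) * m ^ (k + 1)) ≤
        ((k : ℝ) + 1) * W ^ k * (∑ n ∈ Icc 1 N, P1 A n * M1 A y n ^ k) := mul_le_mul_of_nonneg_left hPM (by positivity)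
    have e1 : ((k : ℝ) + 1) * W ^ k * ((1 - 2 * t) * W * (∑ n ∈ Icc 1 N, M1 A y n ^ (k + 1)) - (W + 1) * (N / L ^ (k + 4)) * m ^ (k + 1)) =
        ((k : ℝ) + 1) * (1 - 2 * t) * Z - ((k : ℝ) + 1) * W ^ k * (W + 1) * (m ^ (k + 1) * (N / L ^ (k + 4))) := by
      rw [hZ, pow_succ W k]
      ring
    rw [e1] at h1
    have h2 := hs2 (((k : ℝ) + 1) * W ^ k * (W + 1)) (by positivity) (by
      calc ((k : ℝ) + 1) * W ^ k * (W + 1) ≤ ((k : ℝ) + 1) * B ^ k * (2 * B) := by
            gcongr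
        _ = ((k : ℝ) + 1) * B ^ (k + 1) * 2 := by ring
        _ ≤ ((k : ℝ) + 1) * B ^ (k + 2) * 2 := by gcongr)
    have e2 : (1 - 2 * ((k : ℝ) + 1) * t) * Z = ((k : ℝ) + 1) * (1 - 2 * t) * Z - k * Z := by ring
    rw [e2]
    linarith
  -- the mass
  have ha : (1 - 2 * ((k : ℝ) + 1) * t) * D ≤ Z := by
    have h1 : m * ((1 - t) * (N * Vz y)) ≤ ∑ n ∈ Icc 1 N, M1 A y n := by
      have e : ∑ n ∈ Icc 1 N, M1 A y n = ∑ a ∈ A, (cR y N {a} : ℝ) := by
        unfold M1
        rw [sum_comm]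
        refine sum_congr rfl fun a _ => ?_
        unfold cR
        rw [card_eq_sum_ones, Nat.cast_sum, sum_filter]
        refine sum_congr rfl fun n _ => ?_
        unfold ro
        by_cases hr : Ro y (n + a)
        · rw [if_pos hr, if_pos (by intro t' ht'; rw [mem_singleton.1 ht']; exact hr), Nat.cast_one]
        · rw [if_neg hr, if_neg (fun h => hr (h a (mem_singleton_self a)))]
      rw [e, hm, ← nsmul_eq_mul]
      refine card_nsmul_le_sum _ _ _ fun a ha => ?_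
      have g2 := (abs_le.1 (hR 0 (by omega) {a} (card_singleton a))).1
      rw [PT_single, zero_add, pow_one, one_mul] at g2
      have g3 : (N : ℝ) / L ^ (k + 4) ≤ t / 2 * (N * Vz y) := by
        have g4 : (N : ℝ) / L ^ (k + 4) ≤ N / L ^ 2 := by
          apply div_le_div_of_nonneg_left hN0.le (by positivity)
          exact pow_le_pow_right₀ hL1 (by omega)
        have g5 : (N : ℝ) / L ^ 2 ≤ t / 2 * (N * (cz / L)) := by
          rw [div_le_iff₀ (by positivity)]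
          have e6 : t / 2 * (N * (cz / L)) * L ^ 2 = N * ((L * (t * cz)) / 2) := by
            field_simp
          rw [e6]
          have : (1 : ℝ) ≤ (L * (t * cz)) / 2 := by linarith
          exact le_mul_of_one_le_right hN0.le this
        have g6 : t / 2 * (N * (cz / L)) ≤ t / 2 * (N * Vz y) := by gcongr
        linarith
      linarith
    have h2 := pow_sum_div_card_le_sum_pow (s := Icc 1 N) (f := fun n => M1 A y n) (fun n _ => M1_nonneg A y n) k
    rw [Nat.card_Icc, Nat.add_sub_cancel, div_le_iff₀ (by positivity)] at h2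
    have h3 : (m * ((1 - t) * (N * Vz y))) ^ (k + 1) ≤ (∑ n ∈ Icc 1 N, M1 A y n) ^ (k + 1) :=
      pow_le_pow_left₀ (mul_nonneg hm0.le (mul_nonneg (by linarith) (by positivity))) h1 _
    have h4 : 1 - ((k : ℝ) + 1) * t ≤ (1 - t) ^ (k + 1) := by
      have := one_add_mul_le_pow (a := -t) (by linarith) (k + 1)
      push_cast at this
      have e : (1 : ℝ) + -t = 1 - t := by ring
      rw [e] at this
      linarith
    have h5 : (m * ((1 - t) * (N * Vz y))) ^ (k + 1) = (1 - t) ^ (k + 1) * (m ^ (k + 1) * Vz y ^ (k + 1) * N) * N ^ k := by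
      rw [mul_pow, mul_pow, mul_pow, pow_succ (N : ℝ) k]
      ring
    rw [h5] at h3
    have h6 : (1 - t) ^ (k + 1) * (m ^ (k + 1) * Vz y ^ (k + 1) * N) ≤ ∑ n ∈ Icc 1 N, M1 A y n ^ (k + 1) := by
      have := h3.trans h2
      exact le_of_mul_le_mul_right this (by positivity)
    have h7 : W ^ (k + 1) * ((1 - t) ^ (k + 1) * (m ^ (k + 1) * Vz y ^ (k + 1) * N)) ≤ Z := by
      rw [hZ]
      exact mul_le_mul_of_nonneg_left h6 (by positivity)
    have h8 : W ^ (k + 1) * ((1 - t) ^ (k + 1) * (m ^ (k + 1) * Vz y ^ (k + 1) * N)) = (1 - t) ^ (k + 1) * D := by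
      have : W ^ (k + 1) * Vz y ^ (k + 1) = 1 / L ^ (k + 1) := by rw [← mul_pow, hWV, one_div_pow]
      calc _ = (1 - t) ^ (k + 1) * (m ^ (k + 1) * N * (W ^ (k + 1) * Vz y ^ (k + 1))) := by ring
        _ = _ := by rw [this, hD]; ring
    rw [h8] at h7
    have h9 : (1 - ((k : ℝ) + 1) * t) * D ≤ (1 - t) ^ (k + 1) * D := mul_le_mul_of_nonneg_right h4 hD0.le
    have h10 : 0 ≤ ((k : ℝ) + 1) * t * D := by positivity
    linarith
  -- the rough tuples
  have hdcR : ((k + 1).factorial : ℝ) * ∑ H ∈ A.powersetCard (k + 1), (cR y N H : ℝ) =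
      ∑ n ∈ Icc 1 N, ((k + 1).factorial : ℝ) * (((A.filter (fun a => Ro y (n + a))).card.choose (k + 1) : ℕ) : ℝ) := by
    have h3 := dc A N (k + 1) (Ro y)
    have h4 : (∑ H ∈ A.powersetCard (k + 1), (cR y N H : ℝ)) =
        ∑ n ∈ Icc 1 N, (((A.filter (fun a => Ro y (n + a))).card.choose (k + 1) : ℕ) : ℝ) := by
      have h5 : ((∑ H ∈ A.powersetCard (k + 1), cR y N H : ℕ) : ℝ) =
          ((∑ n ∈ Icc 1 N, (A.filter (fun a => Ro y (n + a))).card.choose (k + 1) : ℕ) : ℝ) := by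
        have h6 : ∑ H ∈ A.powersetCard (k + 1), cR y N H = ∑ n ∈ Icc 1 N, (A.filter (fun a => Ro y (n + a))).card.choose (k + 1) := by
          refine Eq.trans ?_ (h3.trans ?_)
          · refine sum_congr rfl fun H _ => ?_
            unfold cR
            congr 1
          · refine sum_congr rfl fun n _ => ?_
            congr 2
        rw [h6]
      rw [Nat.cast_sum, Nat.cast_sum] at h5
      exact h5
    rw [h4, mul_sum]
  have hcs : ∀ H ∈ A.powersetCard (k + 1), W ^ (k + 1) * (N * (PT H y * Vz y ^ (k + 1))) = N / L ^ (k + 1) * PT H y := by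
    intro H _
    have : W ^ (k + 1) * Vz y ^ (k + 1) = 1 / L ^ (k + 1) := by rw [← mul_pow, hWV, one_div_pow]
    calc _ = N * PT H y * (W ^ (k + 1) * Vz y ^ (k + 1)) := by ring
      _ = _ := by rw [this]; ring
  have hfc : ((k + 1).factorial : ℝ) * ((A.powersetCard (k + 1)).card : ℝ) ≤ m ^ (k + 1) := by
    rw [card_powersetCard, hm]
    have : (k + 1).factorial * A.card.choose (k + 1) ≤ A.card ^ (k + 1) := by
      rw [← Nat.descFactorial_eq_factorial_mul_choose]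
      exact Nat.descFactorial_le_pow _ _
    exact_mod_cast this
  have hf0 : (0 : ℝ) < ((k + 1).factorial : ℝ) := by exact_mod_cast Nat.factorial_pos _
  have hWK := hWk (k + 1)
  have herr : ((k + 1).factorial : ℝ) * (((A.powersetCard (k + 1)).card : ℝ) * (W ^ (k + 1) * (N / L ^ (k + 4)))) ≤ t * D := by
    have h1 := hs2 (W ^ (k + 1)) (by positivity) (by
      calc W ^ (k + 1) ≤ B ^ (k + 1) := hWK
        _ ≤ B ^ (k + 2) := hBk1
        _ = 1 * B ^ (k + 2) * 1 := by ring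
        _ ≤ ((k : ℝ) + 1) * B ^ (k + 2) * 2 := by gcongr; norm_num)
    calc _ = (((k + 1).factorial : ℝ) * ((A.powersetCard (k + 1)).card : ℝ)) * (W ^ (k + 1) * (N / L ^ (k + 4))) := by ring
      _ ≤ m ^ (k + 1) * (W ^ (k + 1) * (N / L ^ (k + 4))) := mul_le_mul_of_nonneg_right hfc (by positivity)
      _ = W ^ (k + 1) * (m ^ (k + 1) * (N / L ^ (k + 4))) := by ring
      _ ≤ _ := h1
  have hcard : ∀ H ∈ A.powersetCard (k + 1), H.card = k + 1 := fun H hH => (mem_powersetCard.1 hH).2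
  have hc : (1 - t) * Q - t * D ≤ Z := by
    have h1 : W ^ (k + 1) * (((k + 1).factorial : ℝ) * ∑ H ∈ A.powersetCard (k + 1), (cR y N H : ℝ)) ≤ Z := by
      rw [hdcR, hZ]
      apply mul_le_mul_of_nonneg_left _ (by positivity)
      refine sum_le_sum fun n _ => ?_
      rw [M1_card]
      have : (k + 1).factorial * (A.filter (fun a => Ro y (n + a))).card.choose (k + 1) ≤
          (A.filter (fun a => Ro y (n + a))).card ^ (k + 1) := by
        rw [← Nat.descFactorial_eq_factorial_mul_choose]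
        exact Nat.descFactorial_le_pow _ _
      exact_mod_cast this
    have h2 : (1 - t) * (N / L ^ (k + 1) * ∑ H ∈ A.powersetCard (k + 1), PT H y) -
        ((A.powersetCard (k + 1)).card : ℝ) * (W ^ (k + 1) * (N / L ^ (k + 4))) ≤
        W ^ (k + 1) * ∑ H ∈ A.powersetCard (k + 1), (cR y N H : ℝ) := by
      rw [← nsmul_eq_mul, ← sum_const, mul_sum, mul_sum, mul_sum, ← sum_sub_distrib]
      refine sum_le_sum fun H hH => ?_
      have g2 := (abs_le.1 (hR k (by omega) H (hcard H hH))).1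
      have g3 : W ^ (k + 1) * ((1 - t) * (N * (PT H y * Vz y ^ (k + 1))) - N / L ^ (k + 4)) ≤ W ^ (k + 1) * (cR y N H : ℝ) := by
        apply mul_le_mul_of_nonneg_left _ (by positivity)
        have : 0 ≤ t / 2 * (N * (PT H y * Vz y ^ (k + 1))) := by
          have := PT_nonneg H y
          positivity
        linarith
      have e : W ^ (k + 1) * ((1 - t) * (N * (PT H y * Vz y ^ (k + 1))) - N / L ^ (k + 4)) =
        (1 - t) * (W ^ (k + 1) * (N * (PT H y * Vz y ^ (k + 1)))) - W ^ (k + 1) * (N / L ^ (k + 4)) := by ring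
      rw [e, hcs H hH] at g3
      exact g3
    have h3 := mul_le_mul_of_nonneg_left h2 hf0.le
    have e4 : ((k + 1).factorial : ℝ) * ((1 - t) * (N / L ^ (k + 1) * ∑ H ∈ A.powersetCard (k + 1), PT H y) -
        ((A.powersetCard (k + 1)).card : ℝ) * (W ^ (k + 1) * (N / L ^ (k + 4)))) =
        (1 - t) * Q - ((k + 1).factorial : ℝ) * (((A.powersetCard (k + 1)).card : ℝ) * (W ^ (k + 1) * (N / L ^ (k + 4)))) := by
      rw [hQ]; ring
    rw [e4] at h3
    have e5 : ((k + 1).factorial : ℝ) * (W ^ (k + 1) * ∑ H ∈ A.powersetCard (k + 1), (cR y N H : ℝ)) =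
      W ^ (k + 1) * (((k + 1).factorial : ℝ) * ∑ H ∈ A.powersetCard (k + 1), (cR y N H : ℝ)) := by ring
    rw [e5] at h3
    linarith
  have hd : Z - t * D ≤ (1 + t) * Q + t * D := by
    have h1 : Z - t * D ≤ W ^ (k + 1) * (((k + 1).factorial : ℝ) * ∑ H ∈ A.powersetCard (k + 1), (cR y N H : ℝ)) := by
      have h2 : ∑ n ∈ Icc 1 N, (M1 A y n ^ (k + 1) - ((k : ℝ) + 1) ^ 2 * m ^ k) ≤
          ((k + 1).factorial : ℝ) * ∑ H ∈ A.powersetCard (k + 1), (cR y N H : ℝ) := by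
        rw [hdcR]
        refine sum_le_sum fun n _ => ?_
        have g1 := desc_low (A.filter (fun a => Ro y (n + a))).card k
        rw [← M1_card] at g1
        have g2 : M1 A y n ^ k ≤ m ^ k := by
          rw [hm]
          exact pow_le_pow_left₀ (M1_nonneg A y n) (M1_le A y n) k
        have g3 : ((k : ℝ) + 1) ^ 2 * M1 A y n ^ k ≤ ((k : ℝ) + 1) ^ 2 * m ^ k := mul_le_mul_of_nonneg_left g2 (by positivity)
        linarith
      rw [sum_sub_distrib, sum_const, Nat.card_Icc, Nat.add_sub_cancel, nsmul_eq_mul] at h2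
      have h3 := mul_le_mul_of_nonneg_left h2 (show 0 ≤ W ^ (k + 1) by positivity)
      rw [mul_sub, ← hZ] at h3
      have h4 : W ^ (k + 1) * ((N : ℝ) * (((k : ℝ) + 1) ^ 2 * m ^ k)) ≤ t * D := by
        refine le_trans ?_ hs1
        have h7 : (0 : ℝ) ≤ ((k : ℝ) + 1) ^ 2 * (m ^ k * N) := by positivity
        calc W ^ (k + 1) * ((N : ℝ) * (((k : ℝ) + 1) ^ 2 * m ^ k)) = W ^ (k + 1) * (((k : ℝ) + 1) ^ 2 * (m ^ k * N)) := by ring
          _ ≤ B ^ (k + 1) * (((k : ℝ) + 1) ^ 2 * (m ^ k * N)) := mul_le_mul_of_nonneg_right hWK h7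
          _ = _ := by ring
      linarith
    have h2 : W ^ (k + 1) * ∑ H ∈ A.powersetCard (k + 1), (cR y N H : ℝ) ≤
        (1 + t) * (N / L ^ (k + 1) * ∑ H ∈ A.powersetCard (k + 1), PT H y) +
        ((A.powersetCard (k + 1)).card : ℝ) * (W ^ (k + 1) * (N / L ^ (k + 4))) := by
      rw [← nsmul_eq_mul, ← sum_const, mul_sum, mul_sum, mul_sum, ← sum_add_distrib]
      refine sum_le_sum fun H hH => ?_
      have g2 := (abs_le.1 (hR k (by omega) H (hcard H hH))).2
      have g3 : W ^ (k + 1) * (cR y N H : ℝ) ≤ W ^ (k + 1) * ((1 + t) * (N * (PT H y * Vz y ^ (k + 1))) + N / L ^ (k + 4)) := by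
        apply mul_le_mul_of_nonneg_left _ (by positivity)
        have : 0 ≤ t / 2 * (N * (PT H y * Vz y ^ (k + 1))) := by
          have := PT_nonneg H y
          positivity
        linarith
      have e : W ^ (k + 1) * ((1 + t) * (N * (PT H y * Vz y ^ (k + 1))) + N / L ^ (k + 4)) =
        (1 + t) * (W ^ (k + 1) * (N * (PT H y * Vz y ^ (k + 1)))) + W ^ (k + 1) * (N / L ^ (k + 4)) := by ring
      rw [e, hcs H hH] at g3
      exact g3
    have h3 := mul_le_mul_of_nonneg_left h2 hf0.le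
    have e4 : ((k + 1).factorial : ℝ) * ((1 + t) * (N / L ^ (k + 1) * ∑ H ∈ A.powersetCard (k + 1), PT H y) +
        ((A.powersetCard (k + 1)).card : ℝ) * (W ^ (k + 1) * (N / L ^ (k + 4)))) =
        (1 + t) * Q + ((k + 1).factorial : ℝ) * (((A.powersetCard (k + 1)).card : ℝ) * (W ^ (k + 1) * (N / L ^ (k + 4)))) := by
      rw [hQ]; ring
    rw [e4] at h3
    have e5 : ((k + 1).factorial : ℝ) * (W ^ (k + 1) * ∑ H ∈ A.powersetCard (k + 1), (cR y N H : ℝ)) =
      W ^ (k + 1) * (((k + 1).factorial : ℝ) * ∑ H ∈ A.powersetCard (k + 1), (cR y N H : ℝ)) := by ring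
    rw [e5] at h3
    linarith
  obtain ⟨r1, r2⟩ := low_calc (K := (k : ℝ) + 1) (t := t) (Z := Z) (Q := Q) (D := D) (R := R) hk1 ht ht1 hD0.le hQ0 ha hb hc hd
  constructor
  · rw [hQ, hRd] at r2
    have e6 : (1 - (2 * ((k : ℝ) + 1) + 7) * t) * (((k + 1).factorial : ℝ) * (N / L ^ (k + 1) * ∑ H ∈ A.powersetCard (k + 1), PT H y)) =
      ((k + 1).factorial : ℝ) * ((1 - (2 * ((k : ℝ) + 1) + 7) * t) * (N / L ^ (k + 1) * ∑ H ∈ A.powersetCard (k + 1), PT H y)) := by ring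
    rw [e6] at r2
    exact le_of_mul_le_mul_left r2 hf0
  · rw [← hD, ← hQ]
    exact r1

end Pool.Agent.H528.Tup
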