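import Mathlib
import Pool.Agent.H528.PCnt

/-! The local densities of the simultaneous Goldbach problem. -/

set_option autoImplicit false

namespace Pool.Agent.H528.GbL

open Finset Filter
open Pool.Agent.Y822
open Pool.Agent.H373R2.T7 (pz Vz mem_pz rhoA PerA lam_fund rhoA_le)
open Pool.Agent.H387R2.Uni (nuT Adm locT CT)
open Pool.Agent.H528.PCnt

/-- the forbidden classes: those of the elements of `E` -/
def QG (E : Finset ℕ) (p n : ℕ) : Prop := ∃ m ∈ E, n ≡ m [MOD p]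

lemma rho_QG (E : Finset ℕ) (p : ℕ) (hp : p.Prime) : rhoA (QG E) p + 1 = nuT (pat E) p := by
  classical
  have h1 : ((range p).filter (fun r => ¬ p ∣ r ∧ QG E p r)) = (E.image (· % p)).erase 0 := by
    ext r
    rw [mem_filter, mem_range, mem_erase, mem_image]
    constructor
    · rintro ⟨hr, hd, m, hm, hmod⟩
      refine ⟨fun h => hd (by rw [h]; exact dvd_zero _), m, hm, ?_⟩
      rw [← Nat.mod_eq_of_lt hr]
      exact hmod.symm
    · rintro ⟨hr0, m, hm, rfl⟩
      refine ⟨Nat.mod_lt _ hp.pos, ?_, m, hm, Nat.mod_modEq _ _⟩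
      intro hd
      exact hr0 (Nat.eq_zero_of_dvd_of_lt hd (Nat.mod_lt _ hp.pos))
  have h2 : rhoA (QG E) p = ((E.image (· % p)).erase 0).card := by
    unfold rhoA
    rw [← h1]
  have h3 : nuT (pat E) p = (insert 0 ((E.image (· % p)).erase 0)).card := by
    unfold nuT pat
    rw [image_insert, Nat.zero_mod]
    congr 1
    ext r
    simp only [mem_insert, mem_erase]
    tauto
  rw [h2, h3, card_insert_of_notMem (by simp)]

lemma perA_QG (E : Finset ℕ) (k : ℕ) (hE : E.card = k) : PerA (QG E) (k + 1) := by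
  constructor
  · intro p n
    unfold QG
    constructor
    · rintro ⟨m, hm, hd⟩
      exact ⟨m, hm, (Nat.mod_modEq n p).trans hd⟩
    · rintro ⟨m, hm, hd⟩
      exact ⟨m, hm, (Nat.mod_modEq n p).symm.trans hd⟩
  · intro p hp
    have h1 := rho_QG E p hp
    have h2 := nuT_le_card (pat E) p
    have h3 : (pat E).card ≤ k + 1 := by
      unfold pat
      exact (card_insert_le _ _).trans (by omega)
    omega

lemma prod_QG {E : Finset ℕ} (h0 : 0 ∉ E) (k : ℕ) (hE : E.card = k) (y : ℕ) :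
    ∏ p ∈ pz y, (1 - (rhoA (QG E) p : ℝ) / (p - 1 : ℝ)) = PT (pat E) y * Vz y ^ k := by
  unfold PT Vz
  rw [← prod_pow, ← prod_mul_distrib]
  refine prod_congr rfl fun p hp => ?_
  have hpp := (mem_pz.1 hp).2
  have h1 := rho_QG E p hpp
  have h2 : (rhoA (QG E) p : ℝ) = (nuT (pat E) p : ℝ) - 1 := by
    rw [← h1]; push_cast; ring
  have hp2 : (2 : ℝ) ≤ p := by exact_mod_cast hpp.two_le
  have hp0 : (p : ℝ) ≠ 0 := by positivity
  have hp1 : (p : ℝ) - 1 ≠ 0 := by
    have : 0 < (p : ℝ) - 1 := by linarith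
    exact this.ne'
  have hq : 1 - 1 / (p : ℝ) = ((p : ℝ) - 1) / p := by field_simp
  unfold locT
  rw [h2, card_pat h0, hE, hq, pow_succ]
  have h3 : ((p : ℝ) - 1) / p ≠ 0 := div_ne_zero hp1 hp0
  have h4 : (((p : ℝ) - 1) / p) ^ k ≠ 0 := pow_ne_zero _ h3
  field_simp
  ring

lemma ro_sub_iff {E : Finset ℕ} {N y p : ℕ} (hp : p ≤ N) (hE : ∀ m ∈ E, N < m) :
    (∀ m ∈ E, Ro y (m - p)) ↔ BQ (QG E) y p := by
  unfold BQ QG
  constructor
  · rintro h q hq ⟨m, hm, hd⟩
    refine h m hm q (mem_pz.1 hq).2 (mem_pz.1 hq).1 ?_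
    exact (Nat.modEq_iff_dvd' (by have := hE m hm; omega)).1 hd
  · intro h m hm q hq hqy hd
    exact h q (mem_pz.2 ⟨hqy, hq⟩) ⟨m, hm, (Nat.modEq_iff_dvd' (by have := hE m hm; omega)).2 hd⟩

end Pool.Agent.H528.GbL
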