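import Mathlib
import Pool.Agent.H528.GenL
import Pool.Agent.H528.GbL

/-! The asymptotic sieve for the simultaneous Goldbach problem. -/

set_option autoImplicit false

namespace Pool.Agent.H528.GbM

open Finset Filter Topology
open Pool.Agent.Y822
open Pool.Agent.Y822.Q (VP_PP VP_bd Vz_up)
open Pool.Agent.Y822.Par3
open Pool.Agent.H373R2.T7 (pz Vz mem_pz rhoA PerA lam_fund rhoA_le Vz_pos)
open Pool.Agent.H387R2.Uni (nuT Adm locT CT)
open Pool.Agent.H528.Gam Pool.Agent.H528.Avg Pool.Agent.H528.Cst Pool.Agent.H528.UpLo Pool.Agent.H528.Lam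
open Pool.Agent.H528.AsyL Pool.Agent.H528.Gen Pool.Agent.H528.PCnt Pool.Agent.H528.GbL

/-- the weighted sum of the products of `Λ₂ (m - p)` -/
noncomputable def SG (w : ℕ → ℝ) (z N : ℕ) (E : Finset ℕ) : ℝ :=
  ∑ p ∈ range N, w p * ∏ m ∈ E, (ro z (m - p) * L2 (m - p))

/-- the weighted number of the `p` such that all `m - p` are rough -/
noncomputable def RG (w : ℕ → ℝ) (y N : ℕ) (E : Finset ℕ) : ℝ := ∑ p ∈ range N, w p * ∏ m ∈ E, ro y (m - p)

lemma sum_refl (N : ℕ) (F : ℕ → ℝ) : ∑ n ∈ Icc 1 N, F n = ∑ p ∈ range N, F (N - p) := by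
  refine sum_nbij' (fun n => N - n) (fun p => N - p) ?_ ?_ ?_ ?_ ?_
  · intro n hn
    rw [mem_Icc] at hn
    exact mem_range.2 (by omega)
  · intro p hp
    rw [mem_range] at hp
    exact mem_Icc.2 (by omega)
  · intro n hn
    rw [mem_Icc] at hn
    show N - (N - n) = n
    omega
  · intro p hp
    rw [mem_range] at hp
    show N - (N - p) = p
    omega
  · intro n hn
    rw [mem_Icc] at hn
    show F n = F (N - (N - n))
    congr 1
    omega

lemma prod_shift {N : ℕ} {E : Finset ℕ} (hE : ∀ m ∈ E, N < m) {p : ℕ} (hp : p < N) (F : ℕ → ℝ) :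
    ∏ h ∈ E.image (fun m => m - N), F (N - p + h) = ∏ m ∈ E, F (m - p) := by
  rw [prod_image]
  · refine prod_congr rfl fun m hm => ?_
    have := hE m hm
    congr 1
    omega
  · intro a ha b hb h
    have h1 := hE a ha
    have h2 := hE b hb
    have h3 : a - N = b - N := h
    omega

lemma SE_gold (w : ℕ → ℝ) (z N : ℕ) {E : Finset ℕ} (hE : ∀ m ∈ E, N < m) :
    SE (fun n => w (N - n)) z N (E.image (fun m => m - N)) = SG w z N E := by
  unfold SE SG
  rw [sum_refl N]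
  refine sum_congr rfl fun p hp => ?_
  rw [mem_range] at hp
  rw [prod_shift hE hp (fun m => ro z m * L2 m)]
  show w (N - (N - p)) * _ = _
  rw [show N - (N - p) = p by omega]

lemma RE_gold (w : ℕ → ℝ) (y N : ℕ) {E : Finset ℕ} (hE : ∀ m ∈ E, N < m) :
    RE (fun n => w (N - n)) y N (E.image (fun m => m - N)) = RG w y N E := by
  unfold RE RG
  rw [sum_refl N]
  refine sum_congr rfl fun p hp => ?_
  rw [mem_range] at hp
  rw [prod_shift hE hp (fun m => ro y m)]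
  show w (N - (N - p)) * _ = _
  rw [show N - (N - p) = p by omega]

lemma image_inj {N : ℕ} {E E' : Finset ℕ} (hE : ∀ m ∈ E, N < m) (hE' : ∀ m ∈ E', N < m)
    (h : E.image (fun m => m - N) = E'.image (fun m => m - N)) : E = E' := by
  have key : ∀ F : Finset ℕ, (∀ m ∈ F, N < m) → (F.image (fun m => m - N)).image (fun h => h + N) = F := by
    intro F hF
    rw [image_image]
    have : F.image ((fun h => h + N) ∘ fun m => m - N) = F.image id := by
      refine image_congr fun m hm => ?_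
      have := hF m hm
      show m - N + N = m
      omega
    rw [this, image_id]
  rw [← key E hE, ← key E' hE', h]

/-- **the asymptotic sieve for the simultaneous Goldbach problem, arbitrary weights on the summand** -/
theorem gold_gen (k U : ℕ) (ε : ℝ) (hε : 0 < ε) : ∃ δ : ℝ, 1 / 2 ≤ δ ∧ δ < 1 ∧
    ∃ ξ : ℝ, 0 < ξ ∧ ξ ≤ 1 / 8 ∧ ξ ≤ ε ∧ ∃ κ : ℝ, 0 < κ ∧ κ ≤ 1 ∧ ∃ B : ℕ, ∀ᶠ N : ℕ in atTop,
    ∀ w : ℕ → ℝ, (∀ n, 0 ≤ w n ∧ w n ≤ 1) →
    ∀ A : Finset ℕ, (∀ m ∈ A, N < m ∧ m ≤ 2 * N) → ∀ Bad : Finset (Finset ℕ),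
    (∀ E ∈ Bad, E ∈ A.powersetCard (k + 1) ∧
      ε * ((2 * Real.log N / Vz (yN κ N)) ^ (k + 1) * RG w (yN κ N) N E) + N / Real.log N ^ U <
        |SG w (zN ξ N) N E - (2 * Real.log N / Vz (yN κ N)) ^ (k + 1) * RG w (yN κ N) N E|) →
    (Bad.card : ℝ) ≤ A.card.choose k * ((N : ℝ) ^ δ * Real.log N ^ B) := by
  classical
  obtain ⟨δ, hδ1, hδ2, ξ, hξ, hξ8, hξx, κ, hκ, hκ1, B, HP⟩ := genL k U ε hε
  refine ⟨δ, hδ1, hδ2, ξ, hξ, hξ8, hξx, κ, hκ, hκ1, B, ?_⟩
  filter_upwards [HP] with N hP w hw A hA Bad hBad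
  have hBadN : ∀ E ∈ Bad, ∀ m ∈ E, N < m := fun E hE m hm =>
    (hA m ((mem_powersetCard.1 (hBad E hE).1).1 hm)).1
  have hc : (Bad.image (fun E => E.image (fun m => m - N))).card = Bad.card := by
    refine card_image_of_injOn ?_
    intro E hE E' hE' h
    exact image_inj (hBadN E hE) (hBadN E' hE') h
  have hcA : (A.image (fun m => m - N)).card = A.card := by
    refine card_image_of_injOn ?_
    intro a ha b hb h
    have h1 := (hA a ha).1
    have h2 := (hA b hb).1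
    have h3 : a - N = b - N := h
    omega
  rw [← hc, ← hcA]
  refine hP (fun n => w (N - n)) (fun n => hw _) (A.image (fun m => m - N)) ?_ _ ?_
  · intro a ha
    obtain ⟨m, hm, rfl⟩ := mem_image.1 ha
    have := hA m hm
    constructor
    · show 1 ≤ m - N
      omega
    · show m - N ≤ N
      omega
  · intro H hH
    obtain ⟨E, hE, rfl⟩ := mem_image.1 hH
    obtain ⟨b1, b2⟩ := hBad E hE
    rw [mem_powersetCard] at b1
    rw [SE_gold w _ N (hBadN E hE), RE_gold w _ N (hBadN E hE)]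
    refine ⟨mem_powersetCard.2 ⟨image_subset_image b1.1, ?_⟩, b2⟩
    rw [← b1.2]
    refine card_image_of_injOn ?_
    intro a ha b hb h
    have h1 := hBadN E hE a ha
    have h2 := hBadN E hE b hb
    have h3 : a - N = b - N := h
    omega

open Classical in
/-- for the primes the main term counts primes -/
lemma RG_prime {N y : ℕ} {E : Finset ℕ} (hE : ∀ m ∈ E, N < m) :
    |RG eP y N E - (((Icc 1 N).filter (fun n => n.Prime ∧ BQ (QG E) y n)).card : ℝ)| ≤ 1 := by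
  have h1 : ∀ p ≤ N, eP p * ∏ m ∈ E, ro y (m - p) = if (p.Prime ∧ BQ (QG E) y p) then (1 : ℝ) else 0 := by
    intro p hp
    unfold eP
    by_cases h1 : p.Prime
    · rw [if_pos h1, one_mul]
      by_cases h2 : BQ (QG E) y p
      · rw [if_pos ⟨h1, h2⟩]
        refine prod_eq_one fun m hm => ?_
        unfold ro
        rw [if_pos ((ro_sub_iff hp hE).2 h2 m hm)]
      · rw [if_neg (fun h => h2 h.2)]
        have h3 : ¬ ∀ m ∈ E, Ro y (m - p) := fun h => h2 ((ro_sub_iff hp hE).1 h)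
        push Not at h3
        obtain ⟨m, hm, hnm⟩ := h3
        refine prod_eq_zero hm ?_
        unfold ro
        rw [if_neg hnm]
    · rw [if_neg h1, if_neg (fun h => h1 h.1), zero_mul]
  have h2 : RG eP y N E = ((((range N).filter (fun n => n.Prime ∧ BQ (QG E) y n)).card : ℕ) : ℝ) := by
    unfold RG
    rw [sum_congr rfl fun p hp => h1 p (mem_range.1 hp).le, ← sum_filter, sum_const, nsmul_eq_mul, mul_one]
  have h3 : ((range N).filter (fun n => n.Prime ∧ BQ (QG E) y n)) ⊆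
      ((Icc 1 N).filter (fun n => n.Prime ∧ BQ (QG E) y n)) := by
    intro p hp
    rw [mem_filter, mem_range] at hp
    rw [mem_filter, mem_Icc]
    exact ⟨⟨hp.2.1.one_lt.le, hp.1.le⟩, hp.2⟩
  have h4 : ((Icc 1 N).filter (fun n => n.Prime ∧ BQ (QG E) y n)) ⊆
      insert N ((range N).filter (fun n => n.Prime ∧ BQ (QG E) y n)) := by
    intro p hp
    rw [mem_filter, mem_Icc] at hp
    rw [mem_insert, mem_filter, mem_range]
    rcases Nat.lt_or_ge p N with h | h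
    · exact Or.inr ⟨h, hp.2⟩
    · exact Or.inl (le_antisymm hp.1.2 h)
  have h5 := card_le_card h3
  have h6 := (card_le_card h4).trans (card_insert_le _ _)
  have h5' : (((range N).filter (fun n => n.Prime ∧ BQ (QG E) y n)).card : ℝ) ≤
      (((Icc 1 N).filter (fun n => n.Prime ∧ BQ (QG E) y n)).card : ℝ) := by exact_mod_cast h5
  have h6' : (((Icc 1 N).filter (fun n => n.Prime ∧ BQ (QG E) y n)).card : ℝ) ≤
      (((range N).filter (fun n => n.Prime ∧ BQ (QG E) y n)).card : ℝ) + 1 := by exact_mod_cast h6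
  rw [h2, abs_le]
  constructor <;> linarith

/-- the final computation -/
lemma gold_calc {k : ℕ} {x ε n L c0 P C S R e1 : ℝ} (hx : 0 < x) (hx8 : x ≤ 1 / 8) (hL : 0 < L)
    (hn : 0 < n) (hxε : 5 * x * 2 ^ (k + 1) ≤ ε) (he1 : 0 ≤ e1) (hc0 : 0 < c0)
    (hP : c0 ≤ P) (hC : c0 ≤ C) (hPC : P ≤ (1 + x) * C) (hCP : C ≤ (1 + x) * P)
    (hsm : 2 * e1 + n / L ≤ x * (c0 * (n * L ^ k)))
    (h1 : |S - R| ≤ x * R + n / L) (h2 : |R - 2 ^ (k + 1) * P * (n * L ^ k)| ≤ x * (2 ^ (k + 1) * P * (n * L ^ k)) + e1) :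
    |S - 2 ^ (k + 1) * C * (n * L ^ k)| ≤ ε * C * (n * L ^ k) := by
  obtain ⟨T, hT⟩ : ∃ T : ℝ, T = 2 ^ (k + 1) * P * (n * L ^ k) := ⟨_, rfl⟩
  obtain ⟨T', hT'⟩ : ∃ T' : ℝ, T' = 2 ^ (k + 1) * C * (n * L ^ k) := ⟨_, rfl⟩
  have hnL : 0 < n * L ^ k := by positivity
  have hq : (1 : ℝ) ≤ 2 ^ (k + 1) := one_le_pow₀ (by norm_num)
  have hT0 : 0 < T := by rw [hT]; have : 0 < P := by linarith
                         positivity
  have hT'0 : 0 < T' := by rw [hT']; have : 0 < C := by linarith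
                           positivity
  have hTT' : T ≤ (1 + x) * T' := by
    rw [hT, hT']
    calc 2 ^ (k + 1) * P * (n * L ^ k) ≤ 2 ^ (k + 1) * ((1 + x) * C) * (n * L ^ k) := by gcongr
      _ = _ := by ring
  have hT'T : T' ≤ (1 + x) * T := by
    rw [hT, hT']
    calc 2 ^ (k + 1) * C * (n * L ^ k) ≤ 2 ^ (k + 1) * ((1 + x) * P) * (n * L ^ k) := by gcongr
      _ = _ := by ring
  have hsm' : 2 * e1 + n / L ≤ x * T' := by
    refine hsm.trans (mul_le_mul_of_nonneg_left ?_ hx.le)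
    rw [hT']
    calc c0 * (n * L ^ k) ≤ C * (n * L ^ k) := mul_le_mul_of_nonneg_right hC hnL.le
      _ = 1 * C * (n * L ^ k) := by ring
      _ ≤ 2 ^ (k + 1) * C * (n * L ^ k) := by gcongr; linarith
  have hnL1 : 0 ≤ n / L := by positivity
  rw [← hT] at h2
  rw [← hT']
  obtain ⟨a1, a2⟩ := abs_le.1 h1
  obtain ⟨b1, b2⟩ := abs_le.1 h2
  have hU : S ≤ (1 + 5 * x) * T' := by
    have s1 : S ≤ (1 + x) * R + n / L := by linarith
    have s2 : (1 + x) * R ≤ (1 + x) * ((1 + x) * T + e1) := mul_le_mul_of_nonneg_left (by linarith) (by linarith)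
    have s3 : (1 + x) * (1 + x) * T ≤ (1 + x) * (1 + x) * ((1 + x) * T') :=
      mul_le_mul_of_nonneg_left hTT' (by positivity)
    have s4 : (1 + x) * e1 ≤ 2 * e1 := mul_le_mul_of_nonneg_right (by linarith) he1
    have s5 : (1 + x) * (1 + x) * ((1 + x) * T') ≤ (1 + 4 * x) * T' := by
      have : (1 + x) * (1 + x) * (1 + x) ≤ 1 + 4 * x := by nlinarith
      calc (1 + x) * (1 + x) * ((1 + x) * T') = ((1 + x) * (1 + x) * (1 + x)) * T' := by ring
        _ ≤ _ := mul_le_mul_of_nonneg_right this hT'0.le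
    have e2 : (1 + x) * ((1 + x) * T + e1) = (1 + x) * (1 + x) * T + (1 + x) * e1 := by ring
    have e3 : (1 + 5 * x) * T' = (1 + 4 * x) * T' + x * T' := by ring
    linarith
  have hLo : (1 - 4 * x) * T' ≤ S := by
    have s1 : (1 - x) * R - n / L ≤ S := by linarith
    have s2 : (1 - x) * ((1 - x) * T - e1) ≤ (1 - x) * R := mul_le_mul_of_nonneg_left (by linarith) (by linarith)
    have s3 : (1 - x) * T' ≤ T := by
      have : (1 - x) * T' ≤ (1 - x) * ((1 + x) * T) := mul_le_mul_of_nonneg_left hT'T (by linarith)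
      have e : (1 - x) * ((1 + x) * T) = T - x * x * T := by ring
      have : 0 ≤ x * x * T := by positivity
      linarith
    have s4 : (1 - x) * (1 - x) * ((1 - x) * T') ≤ (1 - x) * (1 - x) * T :=
      mul_le_mul_of_nonneg_left s3 (mul_nonneg (by linarith) (by linarith))
    have s5 : (1 - 3 * x) * T' ≤ (1 - x) * (1 - x) * ((1 - x) * T') := by
      have h3 : 1 - 3 * x ≤ (1 - x) * (1 - x) * (1 - x) := by nlinarith [mul_pos hx hx, mul_pos (mul_pos hx hx) hx]
      calc (1 - 3 * x) * T' ≤ ((1 - x) * (1 - x) * (1 - x)) * T' := mul_le_mul_of_nonneg_right h3 hT'0.le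
        _ = _ := by ring
    have s6 : (1 - x) * e1 ≤ 2 * e1 := mul_le_mul_of_nonneg_right (by linarith) he1
    have e2 : (1 - x) * ((1 - x) * T - e1) = (1 - x) * (1 - x) * T - (1 - x) * e1 := by ring
    have e3 : (1 - 4 * x) * T' = (1 - 3 * x) * T' - x * T' := by ring
    linarith
  have hfin : 5 * x * T' ≤ ε * C * (n * L ^ k) := by
    rw [hT']
    have hC0 : 0 < C := by linarith
    calc 5 * x * (2 ^ (k + 1) * C * (n * L ^ k)) = (5 * x * 2 ^ (k + 1)) * (C * (n * L ^ k)) := by ring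
      _ ≤ ε * (C * (n * L ^ k)) := mul_le_mul_of_nonneg_right hxε (by positivity)
      _ = _ := by ring
  have hxT : 0 ≤ x * T' := by positivity
  rw [abs_le]
  constructor <;> linarith

open Classical in
/-- **the asymptotic sieve for the simultaneous Goldbach problem** -/
theorem goldL (k : ℕ) (ε : ℝ) (hε : 0 < ε) : ∃ δ : ℝ, 1 / 2 ≤ δ ∧ δ < 1 ∧
    ∃ ξ : ℝ, 0 < ξ ∧ ξ ≤ 1 / 8 ∧ ξ ≤ ε ∧ ∃ B : ℕ, ∀ᶠ N : ℕ in atTop,
    ∀ A : Finset ℕ, (∀ m ∈ A, N < m ∧ m ≤ 2 * N) → ∀ Bad : Finset (Finset ℕ),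
    (∀ E ∈ Bad, E ∈ A.powersetCard (k + 1) ∧ Adm (pat E) ∧
      ε * CT (pat E) * (N * Real.log N ^ k) <
        |SG eP (zN ξ N) N E - 2 ^ (k + 1) * CT (pat E) * (N * Real.log N ^ k)|) →
    (Bad.card : ℝ) ≤ A.card.choose k * ((N : ℝ) ^ δ * Real.log N ^ B) := by
  obtain ⟨x, hxd⟩ : ∃ x : ℝ, x = min (1 / 8) (min ε (ε / (5 * 2 ^ (k + 1)))) := ⟨_, rfl⟩
  have hx : 0 < x := by rw [hxd]; positivity
  have hx8 : x ≤ 1 / 8 := by rw [hxd]; exact min_le_left _ _
  have hxε : x ≤ ε := by rw [hxd]; exact (min_le_right _ _).trans (min_le_left _ _)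
  have hxε2 : 5 * x * 2 ^ (k + 1) ≤ ε := by
    have h1 : x ≤ ε / (5 * 2 ^ (k + 1)) := by rw [hxd]; exact (min_le_right _ _).trans (min_le_right _ _)
    rw [le_div_iff₀ (by positivity)] at h1
    linarith
  obtain ⟨δ, hδ1, hδ2, ξ, hξ, hξ8, hξx, κ, hκ, hκ1, B, HP⟩ := gold_gen k 1 x hx
  obtain ⟨c0, hc0, hlow⟩ := PT_low (k + 1)
  obtain ⟨cz, hcz, hV⟩ := Vz_sharp
  refine ⟨δ, hδ1, hδ2, ξ, hξ, hξ8, hξx.trans hxε, B, ?_⟩
  have hcnt := prime_cnt κ hκ hκ1 (k + 2) (2 * k + 4) (by omega) (x / 2) (by positivity) (by linarith)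
  obtain ⟨M, hM⟩ : ∃ M : ℕ, M = ⌈((k : ℝ) + 2) ^ 2 * (2 / x)⌉₊ + 4 := ⟨_, rfl⟩
  obtain ⟨K1, hK1⟩ : ∃ K1 : ℝ, K1 = (2 / cz) ^ (k + 1) := ⟨_, rfl⟩
  have hK10 : 0 < K1 := by rw [hK1]; positivity
  have e1 := ev_logN (eventually_ge_atTop (max (max 2 ((4 * (K1 * 2) + 1) / (x * c0))) (8 * ((k : ℝ) + 1 + 1) ^ 3 / x)))
  have e4 := ev_logN (ev_pow_exp (2 * k + 4) 1 1 (by norm_num))
  filter_upwards [HP, hcnt, yN_facts κ hκ hκ1 M 8, e1, e4, eventually_ge_atTop 3] with N hP hcn hyf f1 f4 hN A hA Bad hBad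
  obtain ⟨y1, y2, y3, y4, y5⟩ := hyf
  set y := yN κ N with hyd
  set L := Real.log N with hLd
  have hL2 : 2 ≤ L := (le_max_left _ _).trans ((le_max_left _ _).trans f1)
  have hL0 : 0 < L := by linarith
  have hN0 : (0 : ℝ) < N := by positivity
  have hLb : (4 * (K1 * 2) + 1) / (x * c0) ≤ L := (le_max_right _ _).trans ((le_max_left _ _).trans f1)
  have hLc : 8 * ((k : ℝ) + 1 + 1) ^ 3 / x ≤ L := (le_max_right _ _).trans f1
  have hVy : 0 < Vz y := Vz_pos y
  have hy3 : 3 ≤ y := by omega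
  have hyN : y ≤ N := by
    have h1 : y ^ 1 ≤ y ^ 8 := Nat.pow_le_pow_right (by omega) (by norm_num)
    rw [pow_one] at h1
    exact h1.trans y4
  have hVlow : cz / L ≤ Vz y := by
    refine le_trans ?_ (hV y hy3)
    apply div_le_div_of_nonneg_left hcz.le
    · exact Real.log_pos (by exact_mod_cast (by omega : 1 < y))
    · exact Real.log_le_log (by positivity) (by exact_mod_cast hyN)
  refine hP eP eP_bd A hA Bad fun E hE => ?_
  obtain ⟨b1, b2, b3⟩ := hBad E hE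
  refine ⟨b1, ?_⟩
  rw [pow_one]
  by_contra hcon
  push Not at hcon
  rw [mem_powersetCard] at b1
  have hEN : ∀ m ∈ E, N < m := fun m hm => (hA m (b1.1 hm)).1
  have h0 : 0 ∉ E := fun h => by
    have := hEN 0 h
    omega
  have hTc : (pat E).card = k + 1 + 1 := by rw [card_pat h0, b1.2]
  obtain ⟨c1, c2⟩ := hlow (pat E) hTc b2
  have hpt : PT (pat E) y ≤ (1 + x) * CT (pat E) := by
    refine PT_le_CT (pat E) x hx (by linarith) y ?_ (by omega)
    rw [hTc]
    have g1 : ((k : ℝ) + 2) ^ 2 * (2 / x) ≤ M := by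
      rw [hM]
      push_cast
      have := Nat.le_ceil (((k : ℝ) + 2) ^ 2 * (2 / x))
      linarith
    have g2 : (M : ℝ) ≤ y := by exact_mod_cast y5
    have e : (((k + 1 + 1 : ℕ) : ℝ)) ^ 2 = ((k : ℝ) + 2) ^ 2 := by push_cast; ring
    rw [e]
    linarith
  have hlog2N : Real.log ((2 * N : ℕ) : ℝ) ≤ 2 * L := by
    push_cast
    rw [Real.log_mul (by norm_num) hN0.ne']
    have : Real.log 2 ≤ L := by
      have := Real.log_two_lt_d9
      linarith
    linarith
  have hlog2N' : L ≤ Real.log ((2 * N : ℕ) : ℝ) := by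
    apply Real.log_le_log hN0
    push_cast
    linarith
  have hct : CT (pat E) ≤ (1 + x) * PT (pat E) y := by
    refine CT_le1 (N := 2 * N) (k := k + 1) (L := Real.log ((2 * N : ℕ) : ℝ)) hx (by linarith) rfl (by linarith) hy3 ?_ ?_ hTc ?_
    · have h1 : Real.log ((2 * N : ℕ) : ℝ) ^ 3 ≤ (2 * L) ^ 3 := pow_le_pow_left₀ (by linarith) hlog2N 3
      have h2 : (2 * L) ^ 3 ≤ L ^ 6 := by
        have h8 : (8 : ℝ) ≤ L ^ 3 := by
          have := pow_le_pow_left₀ (by norm_num) hL2 3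
          norm_num at this
          exact this
        calc (2 * L) ^ 3 = 8 * L ^ 3 := by ring
          _ ≤ L ^ 3 * L ^ 3 := mul_le_mul_of_nonneg_right h8 (by positivity)
          _ = L ^ 6 := by ring
      have h3 : L ^ 6 ≤ L ^ M ∨ True := Or.inr trivial
      have h4 : (6 : ℕ) ≤ M := by
        rw [hM]
        have g1 : (2 : ℝ) ≤ ((k : ℝ) + 2) ^ 2 * (2 / x) := by
          have g2 : (4 : ℝ) ≤ ((k : ℝ) + 2) ^ 2 := by nlinarith [(Nat.cast_nonneg k : (0 : ℝ) ≤ k)]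
          have g3 : 1 ≤ 2 / x := by rw [le_div_iff₀ hx]; linarith
          nlinarith
        have g2 : 2 ≤ ⌈((k : ℝ) + 2) ^ 2 * (2 / x)⌉₊ := by
          have := g1.trans (Nat.le_ceil _)
          exact_mod_cast this
        omega
      have h5 : L ^ 6 ≤ L ^ M := pow_le_pow_right₀ (by linarith) h4
      linarith
    · push_cast
      push_cast at hlog2N'
      have : 4 * ((k : ℝ) + 1 + 1) ^ 3 / x ≤ 8 * ((k : ℝ) + 1 + 1) ^ 3 / x := by
        apply div_le_div_of_nonneg_right _ hx.le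
        have : 0 ≤ ((k : ℝ) + 1 + 1) ^ 3 := by positivity
        linarith
      linarith
    · intro t ht
      unfold pat at ht
      rw [mem_insert] at ht
      rcases ht with rfl | ht
      · omega
      · exact (hA t (b1.1 ht)).2
  -- the main term
  have hmm := hcn (QG E) (by
    have := perA_QG E (k + 1) b1.2
    exact this) N le_rfl
  rw [prod_QG h0 (k + 1) b1.2 y] at hmm
  have hrg := RG_prime (y := y) hEN
  obtain ⟨Cn, hCn⟩ : ∃ Cn : ℝ, Cn = (((Icc 1 N).filter (fun n => n.Prime ∧ BQ (QG E) y n)).card : ℝ) := ⟨_, rfl⟩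
  obtain ⟨D, hD⟩ : ∃ D : ℝ, D = (2 * L / Vz y) ^ (k + 1) := ⟨_, rfl⟩
  have hD0 : 0 < D := by rw [hD]; positivity
  obtain ⟨P, hPd⟩ : ∃ P : ℝ, P = PT (pat E) y := ⟨_, rfl⟩
  obtain ⟨M0, hM0⟩ : ∃ M0 : ℝ, M0 = N / L * (P * Vz y ^ (k + 1)) := ⟨_, rfl⟩
  have hDM : D * M0 = 2 ^ (k + 1) * P * (N * L ^ k) := by
    rw [hD, hM0, div_pow, mul_pow, pow_succ L k]
    field_simp
  obtain ⟨R', hR'⟩ : ∃ R' : ℝ, R' = N / L ^ (2 * k + 4) := ⟨_, rfl⟩
  have hR'1 : 1 ≤ R' := by
    rw [hR', le_div_iff₀ (by positivity), one_mul]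
    rw [one_mul, one_mul, hLd, Real.exp_log hN0] at f4
    exact f4
  have hM00 : 0 ≤ M0 := by
    rw [hM0, hPd]
    have := PT_nonneg (pat E) y
    positivity
  have hmm' : |Cn - M0| ≤ x / 2 * M0 + R' := by
    rw [hCn, hM0, hPd, hR']
    exact hmm
  have hrg' : |RG eP y N E - Cn| ≤ 1 := by rw [hCn]; exact hrg
  have hRM : |RG eP y N E - M0| ≤ x * M0 + 2 * R' := by
    have h1 : |RG eP y N E - M0| ≤ |RG eP y N E - Cn| + |Cn - M0| := by
      have := abs_sub_le (RG eP y N E) Cn M0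
      exact this
    have : x / 2 * M0 ≤ x * M0 := mul_le_mul_of_nonneg_right (by linarith) hM00
    linarith
  have h2 : |D * RG eP y N E - 2 ^ (k + 1) * P * (N * L ^ k)| ≤ x * (2 ^ (k + 1) * P * (N * L ^ k)) + D * (2 * R') := by
    rw [← hDM, ← mul_sub, abs_mul, abs_of_pos hD0]
    calc D * |RG eP y N E - M0| ≤ D * (x * M0 + 2 * R') := mul_le_mul_of_nonneg_left hRM hD0.le
      _ = x * (D * M0) + D * (2 * R') := by ring
  have hDup : D ≤ K1 * L ^ (2 * (k + 1)) := by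
    rw [hD, hK1]
    have h1 : 2 * L / Vz y ≤ 2 / cz * (L * L) := by
      rw [div_le_iff₀ hVy]
      have h3 : 2 / cz * (L * L) * (cz / L) ≤ 2 / cz * (L * L) * Vz y := mul_le_mul_of_nonneg_left hVlow (by positivity)
      have h4 : 2 / cz * (L * L) * (cz / L) = 2 * L := by field_simp
      linarith
    calc (2 * L / Vz y) ^ (k + 1) ≤ (2 / cz * (L * L)) ^ (k + 1) := pow_le_pow_left₀ (by positivity) h1 _
      _ = _ := by rw [mul_pow, ← pow_two, ← pow_mul]
  have hDR : D * (2 * R') ≤ K1 * 2 * (N / L) := by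
    rw [hR']
    have h1 : D * (2 * (N / L ^ (2 * k + 4))) ≤ K1 * L ^ (2 * (k + 1)) * (2 * (N / L ^ (2 * k + 4))) :=
      mul_le_mul_of_nonneg_right hDup (by positivity)
    have h3 : K1 * L ^ (2 * (k + 1)) * (2 * (N / L ^ (2 * k + 4))) = K1 * 2 * (N / L) / L := by
      have : L ^ (2 * k + 4) = L ^ (2 * (k + 1)) * L * L := by ring
      rw [this]
      field_simp
    have h4 : K1 * 2 * (N / L) / L ≤ K1 * 2 * (N / L) := div_le_self (by positivity) (by linarith)
    linarith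
  have hsm : 2 * (D * (2 * R')) + N / L ≤ x * (c0 * (N * L ^ k)) := by
    rw [div_le_iff₀ (by positivity)] at hLb
    have h1 : 2 * (D * (2 * R')) + N / L ≤ (4 * (K1 * 2) + 1) * (N / L) := by
      have : 0 ≤ K1 * 2 * (N / L) := by positivity
      linarith
    have h3 : (4 * (K1 * 2) + 1) * (N / L) ≤ L * (x * c0) * (N / L) := mul_le_mul_of_nonneg_right hLb (by positivity)
    have h4 : L * (x * c0) * (N / L) = x * (c0 * N) := by field_simp
    have h5 : x * (c0 * N) ≤ x * (c0 * (N * L ^ k)) := by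
      have : (1 : ℝ) ≤ L ^ k := one_le_pow₀ (by linarith)
      gcongr
      exact le_mul_of_one_le_right hN0.le this
    linarith
  have := gold_calc (k := k) (x := x) (ε := ε) (n := N) (L := L) (c0 := c0) (P := PT (pat E) y) (C := CT (pat E))
    (S := SG eP (zN ξ N) N E) (R := D * RG eP y N E) (e1 := D * (2 * R')) hx hx8 hL0 hN0 hxε2 (by positivity) hc0
    (c1 y) c2 hpt hct hsm (by
      rw [hD]
      exact hcon) (by rw [← hPd]; exact h2)
  linarith

end Pool.Agent.H528.GbM
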