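import Mathlib
import Pool.Agent.H528.GbM

/-! Numbers of simultaneous Goldbach representations. -/

set_option autoImplicit false

namespace Pool.Agent.H528.GbF

open Finset Filter Topology
open Pool.Agent.Y822
open Pool.Agent.Y822.Par3
open Pool.Agent.H373R2.T7 (pz Vz mem_pz Vz_pos)
open Pool.Agent.H387R2.Uni (nuT Adm locT CT)
open Pool.Agent.H528.Cst Pool.Agent.H528.UpLo Pool.Agent.H528.Lam
open Pool.Agent.H528.AsyL Pool.Agent.H528.Gen Pool.Agent.H528.PCnt Pool.Agent.H528.GbL Pool.Agent.H528.GbM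

open Classical in
/-- the number of the primes `p < N` such that all `m - p` are prime -/
noncomputable def rep (N : ℕ) (E : Finset ℕ) : ℕ :=
  ((range N).filter (fun p => p.Prime ∧ ∀ m ∈ E, (m - p).Prime)).card

open Classical in
/-- the number of the primes `p < N` such that all `m - p` are rough with at most two different prime factors -/
noncomputable def alm (z N : ℕ) (E : Finset ℕ) : ℕ :=
  ((range N).filter (fun p => p.Prime ∧ ∀ m ∈ E, Ro z (m - p) ∧ (m - p).primeFactors.card ≤ 2)).card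

lemma SG_le {z N : ℕ} {θ L : ℝ} (hN : 2 ≤ N) (hL : L = Real.log N) (hL1 : 1 ≤ L) (hθ0 : 0 < θ)
    (hl2 : Real.log 2 ≤ θ * L) {E : Finset ℕ} (hE : ∀ m ∈ E, N < m ∧ m ≤ 2 * N) :
    SG eP z N E ≤ (((1 + θ) * L) ^ 2) ^ E.card * alm z N E := by
  classical
  unfold SG alm
  have hN0 : (0 : ℝ) < N := by exact_mod_cast (by omega : 0 < N)
  obtain ⟨K, hK⟩ : ∃ K : ℝ, K = (((1 + θ) * L) ^ 2) ^ E.card := ⟨_, rfl⟩
  rw [← hK, card_eq_sum_ones, Nat.cast_sum, mul_sum, sum_filter]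
  refine sum_le_sum fun p hp => ?_
  rw [mem_range] at hp
  have hb : ∀ m ∈ E, 0 ≤ ro z (m - p) * L2 (m - p) ∧ ro z (m - p) * L2 (m - p) ≤ ((1 + θ) * L) ^ 2 := by
    intro m hm
    obtain ⟨h1, h2⟩ := hE m hm
    obtain ⟨g4, g5⟩ := L2_bd (m := m - p) (by omega)
    have g6 := ro_nonneg z (m - p)
    have g7 := ro_le_one z (m - p)
    have g8 : Real.log ((m - p : ℕ) : ℝ) ≤ (1 + θ) * L := by
      have h3 : Real.log ((m - p : ℕ) : ℝ) ≤ Real.log (2 * N) := by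
        apply Real.log_le_log (by exact_mod_cast (by omega : 0 < m - p))
        exact_mod_cast (by omega : m - p ≤ 2 * N)
      rw [Real.log_mul (by norm_num) hN0.ne', ← hL] at h3
      linarith
    have g9 : Real.log ((m - p : ℕ) : ℝ) ^ 2 ≤ ((1 + θ) * L) ^ 2 := pow_le_pow_left₀ (Real.log_natCast_nonneg _) g8 2
    refine ⟨mul_nonneg g6 g4, ?_⟩
    calc ro z (m - p) * L2 (m - p) ≤ 1 * L2 (m - p) := mul_le_mul_of_nonneg_right g7 g4
      _ ≤ _ := by rw [one_mul]; linarith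
  have hP0 : 0 ≤ ∏ m ∈ E, (ro z (m - p) * L2 (m - p)) := prod_nonneg fun m hm => (hb m hm).1
  split_ifs with h
  · rw [Nat.cast_one, mul_one]
    calc eP p * ∏ m ∈ E, (ro z (m - p) * L2 (m - p)) ≤ 1 * ∏ m ∈ E, (ro z (m - p) * L2 (m - p)) :=
          mul_le_mul_of_nonneg_right (eP_bd p).2 hP0
      _ ≤ K := by
          rw [one_mul, hK, ← prod_const]
          exact prod_le_prod (fun m hm => (hb m hm).1) fun m hm => (hb m hm).2
  · apply le_of_eq
    by_cases hpp : p.Prime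
    · have h2 : ¬ ∀ m ∈ E, Ro z (m - p) ∧ (m - p).primeFactors.card ≤ 2 := fun h3 => h ⟨hpp, h3⟩
      push Not at h2
      obtain ⟨m, hm, h3⟩ := h2
      have h4 : ro z (m - p) * L2 (m - p) = 0 := by
        by_cases h5 : Ro z (m - p)
        · rw [L2_three_pf (by have := (hE m hm).1; omega) (by have := h3 h5; omega), mul_zero]
        · unfold ro
          rw [if_neg h5, zero_mul]
      rw [prod_eq_zero hm h4, mul_zero]
    · unfold eP
      rw [if_neg hpp, zero_mul]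

lemma rep_le {z N c : ℕ} {θ L : ℝ} (hN : 2 ≤ N) (hL : L = Real.log N) (hL1 : 1 ≤ L) (hθ1 : θ < 1)
    (hz : (z : ℝ) < N / L ^ c) (hc : c * Real.log L ≤ θ * L) {E : Finset ℕ} (hE : ∀ m ∈ E, N < m ∧ m ≤ 2 * N) :
    (((1 - θ) * L) ^ 2) ^ E.card * ((rep N E : ℝ) - (N / L ^ c + 1)) ≤ SG eP z N E := by
  classical
  have hN0 : (0 : ℝ) < N := by exact_mod_cast (by omega : 0 < N)
  have hL0 : 0 < L := by linarith
  set K := (((1 - θ) * L) ^ 2) ^ E.card with hK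
  have hK0 : 0 ≤ K := by positivity
  have hb0 : ∀ p < N, ∀ m ∈ E, 0 ≤ ro z (m - p) * L2 (m - p) := by
    intro p hp m hm
    exact mul_nonneg (ro_nonneg _ _) (L2_bd (by have := (hE m hm).1; omega)).1
  have h1 : (rep N E : ℝ) ≤ (((range N).filter (fun p : ℕ => (p.Prime ∧ ∀ m ∈ E, (m - p).Prime) ∧ (p : ℝ) ≤ N - N / L ^ c)).card : ℝ)
      + (N / L ^ c + 1) := by
    have h2 : ((range N).filter (fun p => p.Prime ∧ ∀ m ∈ E, (m - p).Prime)) ⊆
        ((range N).filter (fun p : ℕ => (p.Prime ∧ ∀ m ∈ E, (m - p).Prime) ∧ (p : ℝ) ≤ N - N / L ^ c)) ∪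
          (Icc 0 ⌊(N : ℝ) / L ^ c⌋₊).image (fun j => N - j) := by
      intro p hp
      rw [mem_filter, mem_range] at hp
      rw [mem_union, mem_filter, mem_range, mem_image]
      by_cases h : (p : ℝ) ≤ N - N / L ^ c
      · exact Or.inl ⟨hp.1, hp.2, h⟩
      · refine Or.inr ⟨N - p, mem_Icc.2 ⟨Nat.zero_le _, Nat.le_floor ?_⟩, by omega⟩
        rw [Nat.cast_sub hp.1.le]
        linarith
    have h3 := (card_le_card h2).trans (card_union_le _ _)
    have h4 : ((Icc 0 ⌊(N : ℝ) / L ^ c⌋₊).image (fun j => N - j)).card ≤ ⌊(N : ℝ) / L ^ c⌋₊ + 1 := by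
      refine card_image_le.trans ?_
      rw [Nat.card_Icc]
      omega
    have h5 : rep N E ≤ (((range N).filter (fun p : ℕ => (p.Prime ∧ ∀ m ∈ E, (m - p).Prime) ∧ (p : ℝ) ≤ N - N / L ^ c)).card)
      + (⌊(N : ℝ) / L ^ c⌋₊ + 1) := by
      unfold rep
      omega
    have h6 : (⌊(N : ℝ) / L ^ c⌋₊ : ℝ) ≤ N / L ^ c := Nat.floor_le (by positivity)
    have h7 : (rep N E : ℝ) ≤ (((((range N).filter (fun p : ℕ => (p.Prime ∧ ∀ m ∈ E, (m - p).Prime) ∧ (p : ℝ) ≤ N - N / L ^ c)).card)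
      + (⌊(N : ℝ) / L ^ c⌋₊ + 1) : ℕ) : ℝ) := by exact_mod_cast h5
    push_cast at h7
    linarith
  have h2 : K * (((range N).filter (fun p : ℕ => (p.Prime ∧ ∀ m ∈ E, (m - p).Prime) ∧ (p : ℝ) ≤ N - N / L ^ c)).card : ℝ) ≤
      SG eP z N E := by
    unfold SG
    rw [card_eq_sum_ones, Nat.cast_sum, mul_sum, sum_filter]
    refine sum_le_sum fun p hp => ?_
    rw [mem_range] at hp
    split_ifs with h
    · obtain ⟨⟨hpp, hmp⟩, hpN⟩ := h
      rw [Nat.cast_one, mul_one, hK, ← prod_const]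
      have : eP p = 1 := by unfold eP; rw [if_pos hpp]
      rw [this, one_mul]
      refine prod_le_prod (fun _ _ => by positivity) fun m hm => ?_
      obtain ⟨g1, g2⟩ := hE m hm
      have hq := hmp m hm
      have hbig : (N : ℝ) / L ^ c ≤ ((m - p : ℕ) : ℝ) := by
        rw [Nat.cast_sub (by omega)]
        have : (N : ℝ) < m := by exact_mod_cast g1
        linarith
      have hro : ro z (m - p) = 1 := by
        unfold ro
        rw [if_pos]
        intro q hq2 hqz hqd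
        have h3 := (Nat.prime_dvd_prime_iff_eq hq2 hq).1 hqd
        have h4 : (z : ℝ) < q := by rw [h3]; linarith
        have h5 : z < q := by exact_mod_cast h4
        omega
      have hl2 : L2 (m - p) = Real.log ((m - p : ℕ) : ℝ) ^ 2 := by
        rw [L2_one_pf (by omega) hq.primeFactors]
        ring
      rw [hro, one_mul, hl2]
      apply pow_le_pow_left₀ (mul_nonneg (by linarith) hL0.le)
      have h3 : Real.log ((N : ℝ) / L ^ c) ≤ Real.log ((m - p : ℕ) : ℝ) := Real.log_le_log (by positivity) hbig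
      rw [Real.log_div hN0.ne' (by positivity), Real.log_pow, ← hL] at h3
      linarith
    · exact mul_nonneg (eP_bd p).1 (prod_nonneg fun m hm => hb0 p hp m hm)
  have h3 : K * ((rep N E : ℝ) - (N / L ^ c + 1)) ≤
      K * (((range N).filter (fun p : ℕ => (p.Prime ∧ ∀ m ∈ E, (m - p).Prime) ∧ (p : ℝ) ≤ N - N / L ^ c)).card : ℝ) :=
    mul_le_mul_of_nonneg_left (by linarith) hK0
  linarith

lemma ex_small4 (m : ℕ) (ε : ℝ) (hε : 0 < ε) : ∃ x : ℝ, 0 < x ∧ x ≤ 1 / 8 ∧ x ≤ ε ∧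
    (2 ^ m + x) / ((1 - x) ^ 2) ^ m + x ≤ 2 ^ m + ε ∧ (2 ^ m - ε) * ((1 + x) ^ 2) ^ m ≤ 2 ^ m - x := by
  have hc : ContinuousAt (fun x : ℝ => (2 ^ m + x) / ((1 - x) ^ 2) ^ m + x) 0 := by
    apply ContinuousAt.add _ continuousAt_id
    apply ContinuousAt.div
    · fun_prop
    · fun_prop
    · norm_num
  have hcc : ContinuousAt (fun x : ℝ => (2 ^ m - ε) * ((1 + x) ^ 2) ^ m + x) 0 := by fun_prop
  have h1 : ∀ᶠ x in 𝓝 (0 : ℝ), (2 ^ m + x) / ((1 - x) ^ 2) ^ m + x < 2 ^ m + ε := by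
    refine hc.eventually_lt continuousAt_const ?_
    norm_num
    linarith
  have h2 : ∀ᶠ x in 𝓝 (0 : ℝ), (2 ^ m - ε) * ((1 + x) ^ 2) ^ m + x < 2 ^ m := by
    refine hcc.eventually_lt continuousAt_const ?_
    norm_num
    linarith
  obtain ⟨d, hd, h3⟩ := Metric.eventually_nhds_iff.1 (h1.and h2)
  refine ⟨min (d / 2) (min (1 / 8) ε), by positivity, (min_le_right _ _).trans (min_le_left _ _),
    (min_le_right _ _).trans (min_le_right _ _), ?_⟩
  have h4 := h3 (y := min (d / 2) (min (1 / 8) ε)) (by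
    rw [Real.dist_eq, sub_zero, abs_of_pos (by positivity)]
    exact (min_le_left _ _).trans_lt (by linarith))
  exact ⟨h4.1.le, by linarith [h4.2]⟩

/-- **the asymptotic sieve for the simultaneous Goldbach problem, with counts** -/
theorem gold_full (k : ℕ) (ε : ℝ) (hε : 0 < ε) : ∃ δ : ℝ, 1 / 2 ≤ δ ∧ δ < 1 ∧
    ∃ ξ : ℝ, 0 < ξ ∧ ξ ≤ 1 / 8 ∧ ξ ≤ ε ∧ ∃ B : ℕ, ∀ᶠ N : ℕ in atTop,
    ∀ A : Finset ℕ, (∀ m ∈ A, N < m ∧ m ≤ 2 * N) → ∀ Bad : Finset (Finset ℕ),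
    (∀ E ∈ Bad, E ∈ A.powersetCard (k + 1) ∧ Adm (pat E) ∧
      ¬ (|SG eP (zN ξ N) N E - 2 ^ (k + 1) * CT (pat E) * (N * Real.log N ^ k)| ≤ ε * CT (pat E) * (N * Real.log N ^ k) ∧
        (rep N E : ℝ) ≤ (2 ^ (k + 1) + ε) * CT (pat E) * (N / Real.log N ^ (k + 2)) ∧
        (2 ^ (k + 1) - ε) * CT (pat E) * (N / Real.log N ^ (k + 2)) ≤ alm (zN ξ N) N E)) →
    (Bad.card : ℝ) ≤ A.card.choose k * ((N : ℝ) ^ δ * Real.log N ^ B) := by
  obtain ⟨x, hx, hx8, hxε, hx1, hx2⟩ := ex_small4 (k + 1) ε hε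
  obtain ⟨δ, hδ1, hδ2, ξ, hξ, hξ8, hξx, B, HP⟩ := goldL k x hx
  obtain ⟨c0, hc0, hlow⟩ := PT_low (k + 1)
  refine ⟨δ, hδ1, hδ2, ξ, hξ, hξ8, hξx.trans hxε, B, ?_⟩
  have e1 := ev_logN (eventually_ge_atTop (max (max 1 (Real.log 2 / x)) (2 / (x * c0))))
  have e2 : ∀ᶠ N : ℕ in atTop, ((k + 3 : ℕ) : ℝ) * Real.log (Real.log N) ≤ x * Real.log N := by
    apply ev_logN (P := fun L => ((k + 3 : ℕ) : ℝ) * Real.log L ≤ x * L)
    have hpos : (0 : ℝ) < ((k + 3 : ℕ) : ℝ) := by positivity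
    have h1 := (Real.isLittleO_log_id_atTop).def (c := x / ((k + 3 : ℕ) : ℝ)) (by positivity)
    filter_upwards [h1, eventually_ge_atTop 1] with L hL hL1
    rw [Real.norm_of_nonneg (Real.log_nonneg hL1), Real.norm_of_nonneg (show 0 ≤ id L by simpa using by linarith)] at hL
    simp only [id] at hL
    rw [div_mul_eq_mul_div, le_div_iff₀ (by positivity)] at hL
    linarith
  have e3 := ev_logN (ev_pow_exp (k + 3) (7 / 8) 1 (by norm_num))
  filter_upwards [HP, e1, e2, e3, eventually_ge_atTop 2] with N hP f1 f2 f3 hN A hA Bad hBad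
  obtain ⟨L, hL⟩ : ∃ L : ℝ, L = Real.log N := ⟨_, rfl⟩
  rw [← hL] at f1 f2 f3 hBad hP ⊢
  have hL1 : 1 ≤ L := (le_max_left _ _).trans ((le_max_left _ _).trans f1)
  have hL0 : 0 < L := by linarith
  have hl2 : Real.log 2 / x ≤ L := (le_max_right _ _).trans ((le_max_left _ _).trans f1)
  have hLb : 2 / (x * c0) ≤ L := (le_max_right _ _).trans f1
  rw [div_le_iff₀ hx, mul_comm] at hl2
  rw [div_le_iff₀ (by positivity)] at hLb
  have hN0 : (0 : ℝ) < N := by exact_mod_cast (by omega : 0 < N)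
  have hNe : (N : ℝ) = Real.exp L := by rw [hL, Real.exp_log hN0]
  have hzlt : (zN ξ N : ℝ) < N / L ^ (k + 3) := by
    have h1 : (zN ξ N : ℝ) < (N : ℝ) ^ ξ := by
      have h2 : (0 : ℝ) < (N : ℝ) ^ ξ := Real.rpow_pos_of_pos hN0 _
      have h3 := Nat.ceil_lt_add_one h2.le
      have h4 : 1 ≤ ⌈(N : ℝ) ^ ξ⌉₊ := Nat.one_le_iff_ne_zero.2 (Nat.ceil_pos.2 h2).ne'
      unfold zN
      rw [Nat.cast_sub h4]
      push_cast
      linarith
    have h2 : (N : ℝ) ^ ξ ≤ (N : ℝ) ^ (1 / 8 : ℝ) :=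
      Real.rpow_le_rpow_of_exponent_le (by exact_mod_cast (by omega : 1 ≤ N)) hξ8
    have h3 : (N : ℝ) ^ (1 / 8 : ℝ) ≤ N / L ^ (k + 3) := by
      rw [le_div_iff₀ (by positivity)]
      rw [one_mul] at f3
      calc (N : ℝ) ^ (1 / 8 : ℝ) * L ^ (k + 3) ≤ (N : ℝ) ^ (1 / 8 : ℝ) * Real.exp (7 / 8 * L) :=
            mul_le_mul_of_nonneg_left f3 (by positivity)
        _ = N := by
            rw [Real.rpow_def_of_pos hN0, ← hL, ← Real.exp_add, hNe]
            congr 1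
            ring
    linarith
  have hsmall : (N : ℝ) / L ^ (k + 3) + 1 ≤ x * (c0 * (N / L ^ (k + 2))) := by
    have h1 : 1 ≤ (N : ℝ) / L ^ (k + 3) := by
      rw [le_div_iff₀ (by positivity), one_mul, hNe]
      rw [one_mul] at f3
      refine f3.trans (Real.exp_le_exp.2 (by linarith))
    have h2 : (N : ℝ) / L ^ (k + 3) = N / L ^ (k + 2) / L := by rw [pow_succ L (k + 2), div_div]
    have h3 : 2 * ((N : ℝ) / L ^ (k + 3)) ≤ x * (c0 * (N / L ^ (k + 2))) := by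
      rw [h2]
      have h4 : 2 * ((N : ℝ) / L ^ (k + 2) / L) ≤ L * (x * c0) * (N / L ^ (k + 2) / L) :=
        mul_le_mul_of_nonneg_right hLb (by positivity)
      have h5 : L * (x * c0) * (N / L ^ (k + 2) / L) = x * (c0 * (N / L ^ (k + 2))) := by field_simp
      linarith
    linarith
  refine hP A hA Bad fun E hE => ?_
  obtain ⟨b1, b2, b3⟩ := hBad E hE
  refine ⟨b1, b2, ?_⟩
  by_contra hcon
  push Not at hcon
  apply b3
  rw [mem_powersetCard] at b1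
  have hEN : ∀ m ∈ E, N < m ∧ m ≤ 2 * N := fun m hm => hA m (b1.1 hm)
  have h0 : 0 ∉ E := fun h => by
    have := (hEN 0 h).1
    omega
  have hTc : (pat E).card = k + 1 + 1 := by rw [card_pat h0, b1.2]
  obtain ⟨c1, c2⟩ := hlow (pat E) hTc b2
  have hC0 : 0 < CT (pat E) := by linarith
  obtain ⟨Y, hY⟩ : ∃ Y : ℝ, Y = CT (pat E) * (N / L ^ (k + 2)) := ⟨_, rfl⟩
  have hY0 : 0 < Y := by rw [hY]; positivity
  have hYc : c0 * (N / L ^ (k + 2)) ≤ Y := by rw [hY]; exact mul_le_mul_of_nonneg_right c2 (by positivity)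
  have hNL : (N : ℝ) * L ^ k = L ^ (2 * (k + 1)) * (N / L ^ (k + 2)) := by
    have : L ^ (2 * (k + 1)) = L ^ (k + 2) * L ^ k := by rw [← pow_add]; congr 1; omega
    rw [this]
    field_simp
  have hup := rep_le (z := zN ξ N) (c := k + 3) (θ := x) hN hL hL1 (by linarith) hzlt f2 hEN
  have hlo := SG_le (z := zN ξ N) (θ := x) hN hL hL1 hx hl2 hEN
  rw [b1.2] at hup hlo
  obtain ⟨a1, a2⟩ := abs_le.1 hcon
  have e5 : ∀ t : ℝ, (((t) * L) ^ 2) ^ (k + 1) = (t ^ 2) ^ (k + 1) * L ^ (2 * (k + 1)) := by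
    intro t
    rw [mul_pow, mul_pow, ← pow_mul L 2 (k + 1)]
  rw [e5] at hup hlo
  have hLp : 0 < L ^ (2 * (k + 1)) := by positivity
  refine ⟨?_, ?_, ?_⟩
  · refine hcon.trans ?_
    gcongr
  · have h1 : (1 - x) ^ 2 ^ 1 ≥ 0 ∨ True := Or.inr trivial
    have hq : 0 < ((1 - x) ^ 2) ^ (k + 1) := by
      have : 0 < 1 - x := by linarith
      positivity
    have h2 : ((1 - x) ^ 2) ^ (k + 1) * L ^ (2 * (k + 1)) * ((rep N E : ℝ) - (N / L ^ (k + 3) + 1)) ≤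
        L ^ (2 * (k + 1)) * ((2 ^ (k + 1) + x) * Y) := by
      refine hup.trans ?_
      have : 2 ^ (k + 1) * CT (pat E) * (N * L ^ k) + x * CT (pat E) * (N * L ^ k) = L ^ (2 * (k + 1)) * ((2 ^ (k + 1) + x) * Y) := by
        rw [hNL, hY]
        ring
      linarith
    have h3 : ((rep N E : ℝ) - (N / L ^ (k + 3) + 1)) ≤ (2 ^ (k + 1) + x) / ((1 - x) ^ 2) ^ (k + 1) * Y := by
      rw [div_mul_eq_mul_div, le_div_iff₀ hq]
      have h4 : L ^ (2 * (k + 1)) * (((rep N E : ℝ) - (N / L ^ (k + 3) + 1)) * ((1 - x) ^ 2) ^ (k + 1)) ≤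
          L ^ (2 * (k + 1)) * ((2 ^ (k + 1) + x) * Y) := by
        calc _ = ((1 - x) ^ 2) ^ (k + 1) * L ^ (2 * (k + 1)) * ((rep N E : ℝ) - (N / L ^ (k + 3) + 1)) := by ring
          _ ≤ _ := h2
      exact le_of_mul_le_mul_left h4 hLp
    have h4 : (rep N E : ℝ) ≤ ((2 ^ (k + 1) + x) / ((1 - x) ^ 2) ^ (k + 1) + x) * Y := by
      have : x * (c0 * (N / L ^ (k + 2))) ≤ x * Y := mul_le_mul_of_nonneg_left hYc hx.le
      have e6 : ((2 ^ (k + 1) + x) / ((1 - x) ^ 2) ^ (k + 1) + x) * Y =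
        (2 ^ (k + 1) + x) / ((1 - x) ^ 2) ^ (k + 1) * Y + x * Y := by ring
      linarith
    calc (rep N E : ℝ) ≤ _ := h4
      _ ≤ (2 ^ (k + 1) + ε) * Y := mul_le_mul_of_nonneg_right hx1 hY0.le
      _ = _ := by rw [hY]; ring
  · have h2 : L ^ (2 * (k + 1)) * ((2 ^ (k + 1) - x) * Y) ≤ ((1 + x) ^ 2) ^ (k + 1) * L ^ (2 * (k + 1)) * alm (zN ξ N) N E := by
      refine le_trans ?_ hlo
      have : 2 ^ (k + 1) * CT (pat E) * (N * L ^ k) - x * CT (pat E) * (N * L ^ k) = L ^ (2 * (k + 1)) * ((2 ^ (k + 1) - x) * Y) := by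
        rw [hNL, hY]
        ring
      linarith
    have h3 : (2 ^ (k + 1) - x) * Y ≤ ((1 + x) ^ 2) ^ (k + 1) * alm (zN ξ N) N E := by
      have h4 : L ^ (2 * (k + 1)) * ((2 ^ (k + 1) - x) * Y) ≤ L ^ (2 * (k + 1)) * (((1 + x) ^ 2) ^ (k + 1) * alm (zN ξ N) N E) := by
        calc _ ≤ _ := h2
          _ = _ := by ring
      exact le_of_mul_le_mul_left h4 hLp
    have h4 : (2 ^ (k + 1) - ε) * ((1 + x) ^ 2) ^ (k + 1) * Y ≤ (2 ^ (k + 1) - x) * Y := mul_le_mul_of_nonneg_right hx2 hY0.le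
    have hq : 0 < ((1 + x) ^ 2) ^ (k + 1) := by positivity
    have h5 : ((1 + x) ^ 2) ^ (k + 1) * ((2 ^ (k + 1) - ε) * Y) ≤ ((1 + x) ^ 2) ^ (k + 1) * alm (zN ξ N) N E := by
      calc _ = (2 ^ (k + 1) - ε) * ((1 + x) ^ 2) ^ (k + 1) * Y := by ring
        _ ≤ _ := h4.trans h3
    have h6 := le_of_mul_le_mul_left h5 hq
    calc _ = (2 ^ (k + 1) - ε) * Y := by rw [hY]; ring
      _ ≤ _ := h6

end Pool.Agent.H528.GbF
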