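import Mathlib
import Pool.Agent.H528.Tup
import Pool.Agent.H528.GbF

/-! Prime tuples in arbitrary sets of shifts: the upper bound. -/

set_option autoImplicit false

namespace Pool.Agent.H528.Tup

open Finset Filter Topology
open Pool.Agent.Y822 Pool.Agent.Y822.Par3
open Pool.Agent.H373R2.T7 (pz Vz mem_pz Vz_pos)
open Pool.Agent.H387R2.Uni (nuT Adm locT CT)
open Pool.Agent.H528.UpLo Pool.Agent.H528.Lam
open Pool.Agent.H528.AsyL Pool.Agent.H528.Gen Pool.Agent.H528.PCnt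

/-- the upper bound for the number of the prime translates -/
lemma cP_le {z N c : ℕ} {θ L : ℝ} (hN : 2 ≤ N) (hL : L = Real.log N) (hL1 : 1 ≤ L) (hθ1 : θ < 1)
    (hz : (z : ℝ) < N / L ^ c) (hc : c * Real.log L ≤ θ * L) (a : ℕ) (T : Finset ℕ) :
    (((1 - θ) * L) ^ 2) ^ T.card * ((cP N (insert a T) : ℝ) - N / L ^ c) ≤ SE (fun n => eP (n + a)) z N T := by
  classical
  have hN0 : (0 : ℝ) < N := by exact_mod_cast (by omega : 0 < N)
  have hL0 : 0 < L := by linarith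
  obtain ⟨K, hK⟩ : ∃ K : ℝ, K = (((1 - θ) * L) ^ 2) ^ T.card := ⟨_, rfl⟩
  rw [← hK]
  have hK0 : 0 ≤ K := by rw [hK]; positivity
  have hb0 : ∀ n ∈ Icc 1 N, 0 ≤ eP (n + a) * ∏ h ∈ T, (ro z (n + h) * L2 (n + h)) := by
    intro n hn
    rw [mem_Icc] at hn
    exact mul_nonneg (eP_bd _).1 (prod_nonneg fun h _ => mul_nonneg (ro_nonneg _ _) (L2_bd (by omega)).1)
  have h1 : (cP N (insert a T) : ℝ) ≤ (((Icc 1 N).filter (fun n : ℕ => (∀ h ∈ insert a T, (n + h).Prime) ∧ (N : ℝ) / L ^ c ≤ n)).card : ℝ)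
      + N / L ^ c := by
    have h2 : ((Icc 1 N).filter (fun n => ∀ h ∈ insert a T, (n + h).Prime)) ⊆
        ((Icc 1 N).filter (fun n : ℕ => (∀ h ∈ insert a T, (n + h).Prime) ∧ (N : ℝ) / L ^ c ≤ n)) ∪
          Icc 1 ⌊(N : ℝ) / L ^ c⌋₊ := by
      intro n hn
      rw [mem_filter] at hn
      rw [mem_union, mem_filter, mem_Icc (a := 1) (b := ⌊(N : ℝ) / L ^ c⌋₊)]
      by_cases h : (N : ℝ) / L ^ c ≤ n
      · exact Or.inl ⟨hn.1, hn.2, h⟩
      · push Not at h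
        exact Or.inr ⟨(mem_Icc.1 hn.1).1, Nat.le_floor h.le⟩
    have h3 := (card_le_card h2).trans (card_union_le _ _)
    rw [Nat.card_Icc] at h3
    have h6 : (⌊(N : ℝ) / L ^ c⌋₊ : ℝ) ≤ N / L ^ c := Nat.floor_le (by positivity)
    have h7 : (cP N (insert a T) : ℝ) ≤ (((((Icc 1 N).filter (fun n : ℕ => (∀ h ∈ insert a T, (n + h).Prime) ∧ (N : ℝ) / L ^ c ≤ n)).card)
      + (⌊(N : ℝ) / L ^ c⌋₊) : ℕ) : ℝ) := by
      unfold cP
      exact_mod_cast (by omega)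
    push_cast at h7
    linarith
  have h2 : K * (((Icc 1 N).filter (fun n : ℕ => (∀ h ∈ insert a T, (n + h).Prime) ∧ (N : ℝ) / L ^ c ≤ n)).card : ℝ) ≤
      SE (fun n => eP (n + a)) z N T := by
    unfold SE
    rw [card_eq_sum_ones, Nat.cast_sum, mul_sum, sum_filter]
    refine sum_le_sum fun n hn => ?_
    split_ifs with h
    · obtain ⟨hp, hnN⟩ := h
      rw [mem_Icc] at hn
      rw [Nat.cast_one, mul_one, hK, ← prod_const]
      have : eP (n + a) = 1 := by unfold eP; rw [if_pos (hp a (mem_insert_self _ _))]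
      beta_reduce
      rw [this, one_mul]
      refine prod_le_prod (fun _ _ => by positivity) fun m hm => ?_
      have hq := hp m (mem_insert_of_mem hm)
      have hbig : (N : ℝ) / L ^ c ≤ ((n + m : ℕ) : ℝ) := by
        push_cast
        have : (0 : ℝ) ≤ m := Nat.cast_nonneg _
        linarith
      have hro : ro z (n + m) = 1 := by
        unfold ro
        rw [if_pos]
        intro q hq2 hqz hqd
        have h3 := (Nat.prime_dvd_prime_iff_eq hq2 hq).1 hqd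
        have h4 : (z : ℝ) < q := by rw [h3]; linarith
        have h5 : z < q := by exact_mod_cast h4
        omega
      have hl2 : L2 (n + m) = Real.log ((n + m : ℕ) : ℝ) ^ 2 := by
        rw [L2_one_pf (by omega) hq.primeFactors]
        ring
      rw [hro, one_mul, hl2]
      apply pow_le_pow_left₀ (mul_nonneg (by linarith) hL0.le)
      have h3 : Real.log ((N : ℝ) / L ^ c) ≤ Real.log ((n + m : ℕ) : ℝ) := Real.log_le_log (by positivity) hbig
      rw [Real.log_div hN0.ne' (by positivity), Real.log_pow, ← hL] at h3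
      linarith
    · exact hb0 n hn
  have h3 : K * ((cP N (insert a T) : ℝ) - N / L ^ c) ≤
      K * (((Icc 1 N).filter (fun n : ℕ => (∀ h ∈ insert a T, (n + h).Prime) ∧ (N : ℝ) / L ^ c ≤ n)).card : ℝ) :=
    mul_le_mul_of_nonneg_left (by linarith) hK0
  linarith

open Classical in
lemma RE_eA (y N a : ℕ) (T : Finset ℕ) : RE (fun n => eP (n + a)) y N T = (cM y N a T : ℝ) := by
  unfold cM RE
  rw [card_eq_sum_ones, Nat.cast_sum, sum_filter]
  refine sum_congr rfl fun n _ => ?_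
  unfold eP
  beta_reduce
  by_cases hp : (n + a).Prime
  · rw [if_pos hp, one_mul]
    by_cases hr : ∀ t ∈ T, Ro y (n + t)
    · rw [if_pos ⟨hp, hr⟩, Nat.cast_one]
      refine prod_eq_one fun i hi => ?_
      unfold ro
      rw [if_pos (hr _ hi)]
    · rw [if_neg (fun h => hr h.2)]
      push Not at hr
      obtain ⟨t, ht, h2⟩ := hr
      refine prod_eq_zero ht ?_
      unfold ro
      rw [if_neg h2]
  · rw [if_neg hp, if_neg (fun h => hp h.1), zero_mul]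

lemma ex_small5 (m : ℕ) (ε : ℝ) (hε : 0 < ε) : ∃ x : ℝ, 0 < x ∧ x ≤ 1 / 8 ∧ x ≤ ε ∧
    (1 + x) ^ 2 / ((1 - x) ^ 2) ^ m ≤ 1 + ε ∧ 3 * x / ((1 - x) ^ 2) ^ m + x ≤ ε := by
  have hc : ContinuousAt (fun x : ℝ => (1 + x) ^ 2 / ((1 - x) ^ 2) ^ m) 0 := by
    apply ContinuousAt.div
    · fun_prop
    · fun_prop
    · norm_num
  have hcc : ContinuousAt (fun x : ℝ => 3 * x / ((1 - x) ^ 2) ^ m + x) 0 := by
    apply ContinuousAt.add _ continuousAt_id
    apply ContinuousAt.div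
    · fun_prop
    · fun_prop
    · norm_num
  have h1 : ∀ᶠ x in 𝓝 (0 : ℝ), (1 + x) ^ 2 / ((1 - x) ^ 2) ^ m < 1 + ε := by
    refine hc.eventually_lt continuousAt_const ?_
    norm_num
    linarith
  have h2 : ∀ᶠ x in 𝓝 (0 : ℝ), 3 * x / ((1 - x) ^ 2) ^ m + x < ε := by
    refine hcc.eventually_lt continuousAt_const ?_
    norm_num
    linarith
  obtain ⟨d, hd, h3⟩ := Metric.eventually_nhds_iff.1 (h1.and h2)
  refine ⟨min (d / 2) (min (1 / 8) ε), by positivity, (min_le_right _ _).trans (min_le_left _ _),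
    (min_le_right _ _).trans (min_le_right _ _), ?_⟩
  have h4 := h3 (y := min (d / 2) (min (1 / 8) ε)) (by
    rw [Real.dist_eq, sub_zero, abs_of_pos (by positivity)]
    exact (min_le_left _ _).trans_lt (by linarith))
  exact ⟨h4.1.le, h4.2.le⟩

/-- counting through the members -/
lemma bad_count {A : Finset ℕ} {Bad : Finset (Finset ℕ)} {k : ℕ} {M : ℝ}
    (hBad : ∀ H ∈ Bad, H ∈ A.powersetCard (k + 2))
    (h : ∀ a ∈ A, (((Bad.filter (fun H => a ∈ H)).image (fun H => H.erase a)).card : ℝ) ≤ M) :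
    (Bad.card : ℝ) ≤ A.card * M := by
  classical
  have h1 : ∀ a ∈ A, ((Bad.filter (fun H => a ∈ H)).card : ℝ) ≤ M := by
    intro a ha
    refine le_trans (le_of_eq ?_) (h a ha)
    rw [card_image_of_injOn]
    intro H hH H' hH' he
    rw [mem_coe, mem_filter] at hH hH'
    have he' : H.erase a = H'.erase a := he
    rw [← insert_erase hH.2, ← insert_erase hH'.2, he']
  have h2 : Bad ⊆ A.biUnion (fun a => Bad.filter (fun H => a ∈ H)) := by
    intro H hH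
    have h3 := mem_powersetCard.1 (hBad H hH)
    have h4 : H.Nonempty := by
      rw [← card_pos]
      omega
    obtain ⟨a, ha⟩ := h4
    rw [mem_biUnion]
    exact ⟨a, h3.1 ha, mem_filter.2 ⟨hH, ha⟩⟩
  have h3 : (Bad.card : ℝ) ≤ ∑ a ∈ A, ((Bad.filter (fun H => a ∈ H)).card : ℝ) := by
    exact_mod_cast (card_le_card h2).trans card_biUnion_le
  calc (Bad.card : ℝ) ≤ _ := h3
    _ ≤ ∑ _a ∈ A, M := sum_le_sum h1
    _ = _ := by rw [sum_const, nsmul_eq_mul]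

lemma up_calc2 {k : ℕ} {x ε n L S C c P V Q : ℝ} (hx : 0 < x) (hx8 : x ≤ 1 / 8) (hL1 : 1 ≤ L) (hn : 0 < n)
    (hx1 : (1 + x) ^ 2 / ((1 - x) ^ 2) ^ (k + 1) ≤ 1 + ε) (hx2 : 3 * x / ((1 - x) ^ 2) ^ (k + 1) + x ≤ ε)
    (hP : 0 ≤ P) (hV : 0 < V) (hLx : 1 ≤ x * L)
    (hS : S ≤ (1 + x) * ((2 * L / V) ^ (k + 1) * C) + n / L)
    (hC : C ≤ (1 + x) * (n / L * (P * V ^ (k + 1))) + Q)
    (hQ : (2 * L / V) ^ (k + 1) * Q ≤ x / 2 * (n * L ^ k))
    (hc : (((1 - x) * L) ^ 2) ^ (k + 1) * (c - n / L ^ (k + 3)) ≤ S) :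
    c ≤ (1 + ε) * (2 ^ (k + 1) * (P * (n / L ^ (k + 2)))) + ε * (n / L ^ (k + 2)) := by
  have hL0 : 0 < L := by linarith
  have hq : 0 < ((1 - x) ^ 2) ^ (k + 1) := by
    have : 0 < 1 - x := by linarith
    positivity
  have e1 : (((1 - x) * L) ^ 2) ^ (k + 1) = ((1 - x) ^ 2) ^ (k + 1) * (L ^ (2 * (k + 1))) := by
    rw [mul_pow, mul_pow, ← pow_mul L 2 (k + 1)]
  have e2 : (2 * L / V) ^ (k + 1) * (n / L * (P * V ^ (k + 1))) = L ^ (2 * (k + 1)) * (2 ^ (k + 1) * (P * (n / L ^ (k + 2)))) := by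
    rw [div_pow, mul_pow]
    have : L ^ (2 * (k + 1)) = L ^ k * L ^ (k + 2) := by rw [← pow_add]; congr 1; omega
    rw [this, pow_succ L k]
    field_simp
  have e3 : n * L ^ k = L ^ (2 * (k + 1)) * (n / L ^ (k + 2)) := by
    have : L ^ (2 * (k + 1)) = L ^ k * L ^ (k + 2) := by rw [← pow_add]; congr 1; omega
    rw [this]
    field_simp
  obtain ⟨D, hD⟩ : ∃ D : ℝ, D = n / L ^ (k + 2) := ⟨_, rfl⟩
  have hD0 : 0 < D := by rw [hD]; positivity
  have h1 : (2 * L / V) ^ (k + 1) * C ≤ (1 + x) * (L ^ (2 * (k + 1)) * (2 ^ (k + 1) * (P * D))) + x / 2 * (L ^ (2 * (k + 1)) * D) := by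
    have h2 : (2 * L / V) ^ (k + 1) * C ≤ (2 * L / V) ^ (k + 1) * ((1 + x) * (n / L * (P * V ^ (k + 1))) + Q) :=
      mul_le_mul_of_nonneg_left hC (by positivity)
    have h3 : (2 * L / V) ^ (k + 1) * ((1 + x) * (n / L * (P * V ^ (k + 1))) + Q) =
        (1 + x) * ((2 * L / V) ^ (k + 1) * (n / L * (P * V ^ (k + 1)))) + (2 * L / V) ^ (k + 1) * Q := by ring
    rw [h3, e2, ← hD] at h2
    rw [e3, ← hD] at hQ
    linarith
  have h2 : n / L ≤ x * (L ^ (2 * (k + 1)) * D) := by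
    rw [hD, ← e3, div_le_iff₀ hL0]
    have h3 : 1 ≤ L ^ k := one_le_pow₀ hL1
    calc n = n * 1 * 1 := by ring
      _ ≤ n * L ^ k * (x * L) := mul_le_mul (mul_le_mul_of_nonneg_left h3 hn.le) hLx (by norm_num) (by positivity)
      _ = _ := by ring
  have h3 : S ≤ L ^ (2 * (k + 1)) * ((1 + x) ^ 2 * (2 ^ (k + 1) * (P * D)) + 2 * x * D) := by
    have h4 : (1 + x) * ((2 * L / V) ^ (k + 1) * C) ≤
      (1 + x) * ((1 + x) * (L ^ (2 * (k + 1)) * (2 ^ (k + 1) * (P * D))) + x / 2 * (L ^ (2 * (k + 1)) * D)) :=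
      mul_le_mul_of_nonneg_left h1 (by linarith)
    have h5 : 0 ≤ L ^ (2 * (k + 1)) * D := by positivity
    have h6 : (1 + x) * (x / 2 * (L ^ (2 * (k + 1)) * D)) ≤ x * (L ^ (2 * (k + 1)) * D) := by
      have : (1 + x) * (x / 2) ≤ x := by nlinarith
      calc _ = (1 + x) * (x / 2) * (L ^ (2 * (k + 1)) * D) := by ring
        _ ≤ _ := mul_le_mul_of_nonneg_right this h5
    have e4 : (1 + x) * ((1 + x) * (L ^ (2 * (k + 1)) * (2 ^ (k + 1) * (P * D))) + x / 2 * (L ^ (2 * (k + 1)) * D)) =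
      L ^ (2 * (k + 1)) * ((1 + x) ^ 2 * (2 ^ (k + 1) * (P * D))) + (1 + x) * (x / 2 * (L ^ (2 * (k + 1)) * D)) := by ring
    have e5 : L ^ (2 * (k + 1)) * ((1 + x) ^ 2 * (2 ^ (k + 1) * (P * D)) + 2 * x * D) =
      L ^ (2 * (k + 1)) * ((1 + x) ^ 2 * (2 ^ (k + 1) * (P * D))) + 2 * (x * (L ^ (2 * (k + 1)) * D)) := by ring
    rw [e5]
    linarith
  have h4 : n / L ^ (k + 3) ≤ x * D := by
    rw [hD, pow_succ L (k + 2), ← div_div, div_le_iff₀ hL0]
    calc n / L ^ (k + 2) = n / L ^ (k + 2) * 1 := by ring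
      _ ≤ n / L ^ (k + 2) * (x * L) := mul_le_mul_of_nonneg_left hLx (by positivity)
      _ = _ := by ring
  rw [e1] at hc
  have h5 : ((1 - x) ^ 2) ^ (k + 1) * (c - n / L ^ (k + 3)) ≤ (1 + x) ^ 2 * (2 ^ (k + 1) * (P * D)) + 2 * x * D := by
    have h6 : L ^ (2 * (k + 1)) * (((1 - x) ^ 2) ^ (k + 1) * (c - n / L ^ (k + 3))) ≤
        L ^ (2 * (k + 1)) * ((1 + x) ^ 2 * (2 ^ (k + 1) * (P * D)) + 2 * x * D) := by
      calc _ = ((1 - x) ^ 2) ^ (k + 1) * L ^ (2 * (k + 1)) * (c - n / L ^ (k + 3)) := by ring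
        _ ≤ _ := hc.trans h3
    exact le_of_mul_le_mul_left h6 (by positivity)
  have h6 : c - n / L ^ (k + 3) ≤ (1 + x) ^ 2 / ((1 - x) ^ 2) ^ (k + 1) * (2 ^ (k + 1) * (P * D)) + 2 * x / ((1 - x) ^ 2) ^ (k + 1) * D := by
    rw [div_mul_eq_mul_div, div_mul_eq_mul_div, ← add_div, le_div_iff₀ hq, mul_comm]
    exact h5
  have h7 : (1 + x) ^ 2 / ((1 - x) ^ 2) ^ (k + 1) * (2 ^ (k + 1) * (P * D)) ≤ (1 + ε) * (2 ^ (k + 1) * (P * D)) :=
    mul_le_mul_of_nonneg_right hx1 (by positivity)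
  have h8 : (2 * x / ((1 - x) ^ 2) ^ (k + 1) + x) * D ≤ ε * D := by
    apply mul_le_mul_of_nonneg_right _ hD0.le
    refine le_trans ?_ hx2
    have : 2 * x / ((1 - x) ^ 2) ^ (k + 1) ≤ 3 * x / ((1 - x) ^ 2) ^ (k + 1) := by
      apply div_le_div_of_nonneg_right _ hq.le
      linarith
    linarith
  rw [← hD]
  have e6 : (2 * x / ((1 - x) ^ 2) ^ (k + 1) + x) * D = 2 * x / ((1 - x) ^ 2) ^ (k + 1) * D + x * D := by ring
  linarith

/-- **the upper bound with the constant `2^(k+1)` for almost all the subsets** -/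
theorem tup_up (k : ℕ) (ε : ℝ) (hε : 0 < ε) : ∃ δ : ℝ, 1 / 2 ≤ δ ∧ δ < 1 ∧
    ∃ κ : ℝ, 0 < κ ∧ κ ≤ 1 ∧ ∃ B : ℕ, ∀ᶠ N : ℕ in atTop,
    ∀ A : Finset ℕ, (∀ a ∈ A, 1 ≤ a ∧ a ≤ N) → ∀ Bad : Finset (Finset ℕ),
    (∀ H ∈ Bad, H ∈ A.powersetCard (k + 2) ∧
      (1 + ε) * (2 ^ (k + 1) * (PT H (yN κ N) * (N / Real.log N ^ (k + 2)))) + ε * (N / Real.log N ^ (k + 2)) < cP N H) →
    (Bad.card : ℝ) ≤ A.card * (A.card.choose k * ((N : ℝ) ^ δ * Real.log N ^ B)) := by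
  classical
  obtain ⟨x, hx, hx8, hxε, hx1, hx2⟩ := ex_small5 (k + 1) ε hε
  obtain ⟨δ, hδ1, hδ2, ξ, hξ, hξ8, hξx, κ, hκ, hκ1, B, HP⟩ := genL k 1 x hx
  obtain ⟨cz, hcz, hV⟩ := Vz_sharp
  refine ⟨δ, hδ1, hδ2, κ, hκ, hκ1, B, ?_⟩
  have hcM := cM_main κ hκ hκ1 (k + 2) (k + 3) x hx (by linarith)
  have e1 := ev_logN (eventually_ge_atTop (max (max 2 (1 / x)) (2 * (2 / cz) ^ (k + 1) / x)))
  have e2 : ∀ᶠ N : ℕ in atTop, ((k + 3 : ℕ) : ℝ) * Real.log (Real.log N) ≤ x * Real.log N := by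
    apply ev_logN (P := fun L => ((k + 3 : ℕ) : ℝ) * Real.log L ≤ x * L)
    have hpos : (0 : ℝ) < ((k + 3 : ℕ) : ℝ) := by positivity
    have h1 := (Real.isLittleO_log_id_atTop).def (c := x / ((k + 3 : ℕ) : ℝ)) (by positivity)
    filter_upwards [h1, eventually_ge_atTop 1] with L hL hL1
    rw [Real.norm_of_nonneg (Real.log_nonneg hL1), Real.norm_of_nonneg (show 0 ≤ id L by simpa using by linarith)] at hL
    simp only [id] at hL
    rw [div_mul_eq_mul_div, le_div_iff₀ (by positivity)] at hL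
    linarith
  have e3 := ev_logN (ev_pow_exp (k + 3) (7 / 8) 1 (by norm_num))
  filter_upwards [HP, hcM, yN_facts κ hκ hκ1 3 1, e1, e2, e3, eventually_ge_atTop 3] with N hP hM hyf f1 f2 f3 hN A hA Bad hBad
  obtain ⟨y1, y2, y3, y4, y5⟩ := hyf
  obtain ⟨L, hL⟩ : ∃ L : ℝ, L = Real.log N := ⟨_, rfl⟩
  rw [← hL] at f1 f2 f3 hBad hP hM ⊢
  obtain ⟨y, hyd⟩ : ∃ y : ℕ, y = yN κ N := ⟨_, rfl⟩
  rw [← hyd] at y1 y2 y3 y4 y5 hM hP hBad
  have hL2 : 2 ≤ L := (le_max_left _ _).trans ((le_max_left _ _).trans f1)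
  have hL1 : 1 ≤ L := by linarith
  have hL0 : 0 < L := by linarith
  have hLx : 1 / x ≤ L := (le_max_right _ _).trans ((le_max_left _ _).trans f1)
  have hLb : 2 * (2 / cz) ^ (k + 1) / x ≤ L := (le_max_right _ _).trans f1
  rw [div_le_iff₀ hx] at hLx hLb
  have hN0 : (0 : ℝ) < N := by exact_mod_cast (by omega : 0 < N)
  have hNe : (N : ℝ) = Real.exp L := by rw [hL, Real.exp_log hN0]
  have hVy : 0 < Vz y := Vz_pos y
  have hyN : y ≤ N := by
    rw [pow_one] at y4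
    exact y4
  have hVlow : cz / L ≤ Vz y := by
    refine le_trans ?_ (hV y y5)
    apply div_le_div_of_nonneg_left hcz.le
    · exact Real.log_pos (by exact_mod_cast (by omega : 1 < y))
    · rw [hL]; exact Real.log_le_log (by positivity) (by exact_mod_cast hyN)
  have hzlt : (zN ξ N : ℝ) < N / L ^ (k + 3) := by
    have h1 : (zN ξ N : ℝ) < (N : ℝ) ^ ξ := by
      have h2 : (0 : ℝ) < (N : ℝ) ^ ξ := Real.rpow_pos_of_pos hN0 _
      have h3 := Nat.ceil_lt_add_one h2.le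
      have h4 : 1 ≤ ⌈(N : ℝ) ^ ξ⌉₊ := Nat.one_le_iff_ne_zero.2 (Nat.ceil_pos.2 h2).ne'
      unfold zN
      rw [Nat.cast_sub h4]
      push_cast
      linarith
    have h2 : (N : ℝ) ^ ξ ≤ (N : ℝ) ^ (1 / 8 : ℝ) :=
      Real.rpow_le_rpow_of_exponent_le (by exact_mod_cast (by omega : 1 ≤ N)) hξ8
    have h3 : (N : ℝ) ^ (1 / 8 : ℝ) ≤ N / L ^ (k + 3) := by
      rw [le_div_iff₀ (by positivity)]
      rw [one_mul] at f3
      calc (N : ℝ) ^ (1 / 8 : ℝ) * L ^ (k + 3) ≤ (N : ℝ) ^ (1 / 8 : ℝ) * Real.exp (7 / 8 * L) :=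
            mul_le_mul_of_nonneg_left f3 (by positivity)
        _ = N := by
            rw [Real.rpow_def_of_pos hN0, ← hL, ← Real.exp_add, hNe]
            congr 1
            ring
    linarith
  refine bad_count (k := k) (fun H hH => (hBad H hH).1) fun a ha => ?_
  refine hP (fun n => eP (n + a)) (fun n => eP_bd (n + a)) A hA _ fun T hT => ?_
  rw [mem_image] at hT
  obtain ⟨H, hH, rfl⟩ := hT
  rw [mem_filter] at hH
  obtain ⟨hH1, haH⟩ := hH
  obtain ⟨b1, b2⟩ := hBad H hH1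
  rw [mem_powersetCard] at b1
  have hT1 : H.erase a ⊆ A := (erase_subset _ _).trans b1.1
  have hT2 : (H.erase a).card = k + 1 := by rw [card_erase_of_mem haH, b1.2]; rfl
  refine ⟨mem_powersetCard.2 ⟨hT1, hT2⟩, ?_⟩
  by_contra hcon
  push Not at hcon
  refine absurd b2 (not_lt.2 ?_)
  have hins : insert a (H.erase a) = H := insert_erase haH
  have hup := cP_le (z := zN ξ N) (c := k + 3) (θ := x) (by omega) hL hL1 (by linarith) hzlt f2 a (H.erase a)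
  have hm := hM (k + 1) (by omega) a (hA a ha).2 (H.erase a) (by rw [hins, b1.2])
  rw [hins] at hup hm
  rw [hT2] at hup
  rw [RE_eA, pow_one] at hcon
  obtain ⟨a1, a2⟩ := abs_le.1 hcon
  obtain ⟨c1, c2⟩ := abs_le.1 hm
  refine up_calc2 (k := k) (x := x) (ε := ε) (n := N) (L := L) (S := SE (fun n => eP (n + a)) (zN ξ N) N (H.erase a))
    (C := cM y N a (H.erase a)) (V := Vz y) (P := PT H y) (Q := N / L ^ (k + 3)) hx hx8 hL1 hN0 hx1 hx2 (PT_nonneg _ _) hVy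
    (by linarith) (by linarith) (by linarith) ?_ hup
  have g1 : 2 * L / Vz y ≤ 2 / cz * L ^ 2 := by
    rw [div_le_iff₀ hVy]
    have h1 : 2 / cz * L ^ 2 * (cz / L) ≤ 2 / cz * L ^ 2 * Vz y := mul_le_mul_of_nonneg_left hVlow (by positivity)
    have h2 : 2 / cz * L ^ 2 * (cz / L) = 2 * L := by field_simp
    linarith
  calc (2 * L / Vz y) ^ (k + 1) * (N / L ^ (k + 3)) ≤ (2 / cz * L ^ 2) ^ (k + 1) * (N / L ^ (k + 3)) := by
        apply mul_le_mul_of_nonneg_right _ (by positivity)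
        exact pow_le_pow_left₀ (by positivity) g1 _
    _ = (2 / cz) ^ (k + 1) * (N * L ^ k / L) := by
        rw [mul_pow, ← pow_mul]
        have : L ^ (2 * (k + 1)) = L ^ (k + 2) * L ^ k := by rw [← pow_add]; congr 1; omega
        rw [this, pow_succ L (k + 2)]
        field_simp
    _ ≤ x / 2 * (N * L ^ k) := by
        rw [← mul_div_assoc, div_le_iff₀ hL0]
        have h1 : 2 * (2 / cz) ^ (k + 1) * (N * L ^ k) ≤ L * x * (N * L ^ k) := mul_le_mul_of_nonneg_right hLb (by positivity)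
        linarith

end Pool.Agent.H528.Tup
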