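import Mathlib
import Pool.Agent.H528.TupC
import Pool.Agent.H528.TupD

/-! Prime tuples in arbitrary sets of shifts: the proportion. -/

set_option autoImplicit false

namespace Pool.Agent.H528.Tup

open Finset Filter Topology
open Pool.Agent.Y822 Pool.Agent.Y822.Par3
open Pool.Agent.H373R2.T7 (pz Vz mem_pz Vz_pos)
open Pool.Agent.H387R2.Uni (nuT Adm locT CT)
open Pool.Agent.H528.UpLo Pool.Agent.H528.Lam
open Pool.Agent.H528.AsyL Pool.Agent.H528.Gen Pool.Agent.H528.PCnt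

lemma ex_small6 (C q c η : ℝ) (hC : 0 ≤ C) (hq : 1 < q) (hc1 : c < 1) (hη : 0 < η) :
    ∃ t : ℝ, 0 < t ∧ t ≤ 1 / 8 ∧ C * t ≤ 1 ∧ 0 ≤ 1 - C * t - c * (1 + t) ∧
      (1 - c) / (q - c) - η ≤ (1 - C * t - c * (1 + t)) / ((1 + t) ^ 3 * (q - c)) := by
  have hqc : 0 < q - c := by linarith
  have hcc : ContinuousAt (fun t : ℝ => (1 - C * t - c * (1 + t)) / ((1 + t) ^ 3 * (q - c))) 0 := by
    apply ContinuousAt.div
    · fun_prop
    · fun_prop
    · norm_num
      exact hqc.ne'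
  have hcd : ContinuousAt (fun t : ℝ => 1 - C * t - c * (1 + t)) 0 := by fun_prop
  have hce : ContinuousAt (fun t : ℝ => C * t) 0 := by fun_prop
  have h1 : ∀ᶠ t in 𝓝 (0 : ℝ), (1 - c) / (q - c) - η < (1 - C * t - c * (1 + t)) / ((1 + t) ^ 3 * (q - c)) := by
    refine continuousAt_const.eventually_lt hcc ?_
    simp only [mul_zero, sub_zero, add_zero, mul_one, one_pow, one_mul]
    linarith
  have h2 : ∀ᶠ t in 𝓝 (0 : ℝ), 0 < 1 - C * t - c * (1 + t) := by
    refine continuousAt_const.eventually_lt hcd ?_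
    norm_num
    linarith
  have h3 : ∀ᶠ t in 𝓝 (0 : ℝ), C * t < 1 := by
    refine hce.eventually_lt continuousAt_const ?_
    norm_num
  obtain ⟨d, hd, h4⟩ := Metric.eventually_nhds_iff.1 (h1.and (h2.and h3))
  refine ⟨min (d / 2) (1 / 8), by positivity, min_le_right _ _, ?_⟩
  have h5 := h4 (y := min (d / 2) (1 / 8)) (by
    rw [Real.dist_eq, sub_zero, abs_of_pos (by positivity)]
    exact (min_le_left _ _).trans_lt (by linarith))
  exact ⟨h5.2.2.le, h5.2.1.le, h5.1.le⟩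

lemma fin_calc3 {C q c η t G GG T TG : ℝ} (hC : 0 ≤ C) (hq : 1 < q) (hc0 : 0 ≤ c) (hc1 : c < 1) (ht : 0 < t)
    (ht2 : 0 ≤ 1 - C * t - c * (1 + t))
    (ht3 : (1 - c) / (q - c) - η ≤ (1 - C * t - c * (1 + t)) / ((1 + t) ^ 3 * (q - c)))
    (hT0 : 0 ≤ T) (h1 : (1 - C * t) * G ≤ (1 + t) * q * GG + c * (1 + t) * (G - GG))
    (h2 : GG ≤ (1 + t) * TG) (h3 : T ≤ (1 + t) * G) :
    ((1 - c) / (q - c) - η) * T ≤ TG := by
  have hqc : 0 < q - c := by linarith
  have h4 : (1 - C * t - c * (1 + t)) * G ≤ (1 + t) * (q - c) * GG := by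
    have : (1 + t) * (q - c) * GG = (1 + t) * q * GG - c * (1 + t) * GG := by ring
    rw [this]
    linarith
  have h5 : (1 + t) * (q - c) * GG ≤ (1 + t) * (q - c) * ((1 + t) * TG) := mul_le_mul_of_nonneg_left h2 (by positivity)
  have h6 : (1 - C * t - c * (1 + t)) * T ≤ (1 - C * t - c * (1 + t)) * ((1 + t) * G) := mul_le_mul_of_nonneg_left h3 ht2
  have h7 : (1 - C * t - c * (1 + t)) * T ≤ ((1 + t) ^ 3 * (q - c)) * TG := by
    calc _ ≤ _ := h6
      _ = (1 + t) * ((1 - C * t - c * (1 + t)) * G) := by ring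
      _ ≤ (1 + t) * ((1 + t) * (q - c) * ((1 + t) * TG)) := mul_le_mul_of_nonneg_left (h4.trans h5) (by positivity)
      _ = _ := by ring
  have h8 : (1 - C * t - c * (1 + t)) / ((1 + t) ^ 3 * (q - c)) * T ≤ TG := by
    rw [div_mul_eq_mul_div, div_le_iff₀ (by positivity), mul_comm TG]
    exact h7
  exact (mul_le_mul_of_nonneg_right ht3 hT0).trans h8

lemma CT_nonneg' (T : Finset ℕ) : 0 ≤ CT T := by
  obtain ⟨y, hy⟩ := exists_nat_ge (max 1 ((T.card : ℝ) ^ 2 * (2 / 1)))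
  have h1 := PT_le_CT T 1 one_pos le_rfl y ((le_max_right _ _).trans hy) (by exact_mod_cast (le_max_left _ _).trans hy)
  have h2 := PT_nonneg T y
  linarith

lemma cP_le_N (N : ℕ) (H : Finset ℕ) : (cP N H : ℝ) ≤ N := by
  classical
  unfold cP
  have := card_filter_le (Icc 1 N) (fun n => ∀ h ∈ H, (n + h).Prime)
  rw [Nat.card_Icc, Nat.add_sub_cancel] at this
  exact_mod_cast this

open Classical in
/-- **a positive proportion of the tuples in any set of shifts** -/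
theorem tup_fin (k : ℕ) (η c : ℝ) (hη : 0 < η) (hc0 : 0 ≤ c) (hc1 : c < 1) : ∃ δ : ℝ, 0 < δ ∧ δ < 1 ∧
    ∀ᶠ N : ℕ in atTop, ∀ A : Finset ℕ, (∀ a ∈ A, 1 ≤ a ∧ a ≤ N) → (N : ℝ) ^ δ ≤ A.card →
      ((1 - c) / (2 ^ (k + 1) - c) - η) * ∑ H ∈ A.powersetCard (k + 2), CT H ≤
        ∑ H ∈ (A.powersetCard (k + 2)).filter (fun H => c * (CT H * (N / Real.log N ^ (k + 2))) ≤ cP N H), CT H := by
  obtain ⟨C, hC⟩ : ∃ C : ℝ, C = 2 * ((k : ℝ) + 2) + 7 + 4 * (k + 2).factorial + 12 * ((k : ℝ) + 2) := ⟨_, rfl⟩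
  have hC0 : 0 ≤ C := by rw [hC]; positivity
  have hq : (1 : ℝ) < 2 ^ (k + 1) := one_lt_pow₀ (by norm_num) (by omega)
  obtain ⟨t, ht, ht8, ht1, ht2, ht3⟩ := ex_small6 C (2 ^ (k + 1)) c η hC0 hq hc1 hη
  have hf0 : (0 : ℝ) ≤ (k + 2).factorial := Nat.cast_nonneg _
  have hk0 : (0 : ℝ) ≤ k := Nat.cast_nonneg _
  have htC : 12 * (((k + 1 : ℕ) : ℝ) + 1) * t ≤ 1 := by
    refine le_trans (mul_le_mul_of_nonneg_right ?_ ht.le) ht1
    rw [hC]
    push_cast
    linarith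
  obtain ⟨δ, hδ1, hδ2, κ, hκ, hκ1, B, HU⟩ := tup_up k t ht
  have HL := tup_low (k + 1) κ hκ hκ1 t ht htC
  refine ⟨(1 + δ) / 2, by linarith, by linarith, ?_⟩
  obtain ⟨M, hM⟩ : ∃ M : ℕ, M = max 3 ⌈((k : ℝ) + 2) ^ 2 * (2 / t)⌉₊ := ⟨_, rfl⟩
  have e1 := ev_logN (eventually_ge_atTop (max 2 (4 * ((((k + 1 : ℕ) : ℝ)) + 1) ^ 3 / t)))
  have e2 := ev_logN (ev_pow_exp (B + k + 3) ((1 - δ) / 2) (1 / t) (by linarith))
  filter_upwards [HU, HL, yN_facts κ hκ hκ1 M 1, e1, e2, eventually_ge_atTop 3] with N hU hL hyf f1 f2 hN A hA hAδ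
  obtain ⟨y1, y2, y3, y4, y5⟩ := hyf
  obtain ⟨L, hLd⟩ : ∃ L : ℝ, L = Real.log N := ⟨_, rfl⟩
  rw [← hLd] at f1 f2 hU hL y3 ⊢
  obtain ⟨y, hyd⟩ : ∃ y : ℕ, y = yN κ N := ⟨_, rfl⟩
  rw [← hyd] at y1 y2 y3 y4 y5 hL hU
  have hL2 : 2 ≤ L := (le_max_left _ _).trans f1
  have hL1 : 1 ≤ L := by linarith
  have hL0 : 0 < L := by linarith
  have hLk : 4 * ((((k + 1 : ℕ) : ℝ)) + 1) ^ 3 / t ≤ L := (le_max_right _ _).trans f1
  have hN0 : (0 : ℝ) < N := by exact_mod_cast (by omega : 0 < N)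
  have hM3 : 3 ≤ M := by rw [hM]; exact le_max_left _ _
  obtain ⟨m, hm⟩ : ∃ m : ℝ, m = A.card := ⟨_, rfl⟩
  have hm0 : 0 < m := by
    rw [hm]
    exact lt_of_lt_of_le (Real.rpow_pos_of_pos hN0 _) hAδ
  rw [← hm] at hAδ
  have hNδ : (N : ℝ) ^ δ * L ^ (B + k + 3) ≤ t * m := by
    have h1 : L ^ (B + k + 3) ≤ t * Real.exp ((1 - δ) / 2 * L) := by
      have : L ^ (B + k + 3) = t * (1 / t * L ^ (B + k + 3)) := by field_simp
      rw [this]
      exact mul_le_mul_of_nonneg_left f2 ht.le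
    have e3 : (N : ℝ) ^ ((1 + δ) / 2) = (N : ℝ) ^ δ * Real.exp ((1 - δ) / 2 * L) := by
      rw [hLd, mul_comm ((1 - δ) / 2), ← Real.rpow_def_of_pos hN0, ← Real.rpow_add hN0]
      congr 1
      ring
    calc (N : ℝ) ^ δ * L ^ (B + k + 3) ≤ (N : ℝ) ^ δ * (t * Real.exp ((1 - δ) / 2 * L)) :=
          mul_le_mul_of_nonneg_left h1 (by positivity)
      _ = t * (N : ℝ) ^ ((1 + δ) / 2) := by rw [e3]; ring
      _ ≤ t * m := mul_le_mul_of_nonneg_left hAδ ht.le
  have hAL : L ^ (k + 1 + 2) ≤ A.card := by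
    rw [← hm]
    have h1 : (1 : ℝ) ≤ (N : ℝ) ^ δ := Real.one_le_rpow (by exact_mod_cast (by omega : 1 ≤ N)) (by linarith)
    have h2 : L ^ (k + 1 + 2) ≤ L ^ (B + k + 3) := pow_le_pow_right₀ hL1 (by omega)
    have h3 : L ^ (B + k + 3) ≤ (N : ℝ) ^ δ * L ^ (B + k + 3) := le_mul_of_one_le_left (by positivity) h1
    have h4 : t * m ≤ m := by nlinarith
    linarith
  obtain ⟨l1, l2⟩ := hL A (fun a ha => (hA a ha).2) hAL
  rw [show k + 1 + 1 = k + 2 from rfl] at l1 l2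
  rw [← hm] at l2
  obtain ⟨D, hD⟩ : ∃ D : ℝ, D = N / L ^ (k + 2) := ⟨_, rfl⟩
  have hD0 : 0 < D := by rw [hD]; positivity
  rw [← hD] at l1 l2 hU ⊢
  -- the constants
  have hcon : ∀ H ∈ A.powersetCard (k + 2), PT H y ≤ (1 + t) * CT H ∧ CT H ≤ (1 + t) * PT H y := by
    intro H hH
    rw [mem_powersetCard] at hH
    constructor
    · refine PT_le_CT H t ht (by linarith) y ?_ (by omega)
      rw [hH.2]
      have g1 : ((k : ℝ) + 2) ^ 2 * (2 / t) ≤ M := by
        rw [hM]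
        push_cast
        exact (Nat.le_ceil _).trans (le_max_right _ _)
      have g2 : (M : ℝ) ≤ y := by exact_mod_cast y5
      have e : (((k + 2 : ℕ) : ℝ)) ^ 2 = ((k : ℝ) + 2) ^ 2 := by push_cast; ring
      rw [e]
      linarith
    · refine CT_le1 (N := N) (k := k + 1) (L := L) ht (by linarith) hLd hL1 (by omega) ?_ hLk hH.2 ?_
      · exact (pow_le_pow_right₀ hL1 hM3).trans y3
      · intro h hh
        exact (hA h (hH.1 hh)).2
  have hCT0 : ∀ H ∈ A.powersetCard (k + 2), 0 ≤ CT H := by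
    intro H hH
    have h1 := (hcon H hH).1
    have h2 := PT_nonneg H y
    by_contra h3
    push Not at h3
    have : (1 + t) * CT H < 0 := mul_neg_of_pos_of_neg (by linarith) h3
    linarith
  -- the exceptional tuples
  set P := A.powersetCard (k + 2) with hP
  set Bad := P.filter (fun H => (1 + t) * (2 ^ (k + 1) * (PT H y * D)) + t * D < cP N H) with hBad
  have hb := hU A hA Bad fun H hH => by
    rw [hBad, mem_filter] at hH
    exact hH
  rw [← hm] at hb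
  have hbsum : ∑ H ∈ Bad, (cP N H : ℝ) ≤ t * (D * m ^ (k + 2)) := by
    have h1 : ∑ H ∈ Bad, (cP N H : ℝ) ≤ Bad.card * N := by
      calc _ ≤ ∑ _H ∈ Bad, (N : ℝ) := sum_le_sum fun H _ => cP_le_N N H
        _ = _ := by rw [sum_const, nsmul_eq_mul]
    have h2 : ((A.card.choose k : ℕ) : ℝ) ≤ m ^ k := by
      rw [hm]
      exact_mod_cast Nat.choose_le_pow A.card k
    have h3 : (Bad.card : ℝ) ≤ m ^ (k + 1) * ((N : ℝ) ^ δ * L ^ B) := by
      refine hb.trans ?_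
      have : m * (((A.card.choose k : ℕ) : ℝ) * ((N : ℝ) ^ δ * L ^ B)) ≤ m * (m ^ k * ((N : ℝ) ^ δ * L ^ B)) := by gcongr
      refine this.trans (le_of_eq ?_)
      rw [pow_succ]
      ring
    have h4 : (N : ℝ) ^ δ * L ^ B * N ≤ t * (D * m) := by
      rw [hD]
      have h5 : (N : ℝ) ^ δ * L ^ (B + k + 2) ≤ t * m := by
        refine le_trans ?_ hNδ
        exact mul_le_mul_of_nonneg_left (pow_le_pow_right₀ hL1 (by omega)) (by positivity)
      have h6 : (N : ℝ) ^ δ * L ^ B * N = (N : ℝ) ^ δ * L ^ (B + k + 2) * (N / L ^ (k + 2)) := by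
        rw [show B + k + 2 = B + (k + 2) by ring, pow_add L B]
        field_simp
      rw [h6]
      calc _ ≤ t * m * (N / L ^ (k + 2)) := mul_le_mul_of_nonneg_right h5 (by positivity)
        _ = _ := by ring
    calc _ ≤ _ := h1
      _ ≤ m ^ (k + 1) * ((N : ℝ) ^ δ * L ^ B) * N := mul_le_mul_of_nonneg_right h3 hN0.le
      _ = m ^ (k + 1) * ((N : ℝ) ^ δ * L ^ B * N) := by ring
      _ ≤ m ^ (k + 1) * (t * (D * m)) := mul_le_mul_of_nonneg_left h4 (by positivity)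
      _ = _ := by rw [pow_succ]; ring
  set Good := P.filter (fun H => c * (CT H * D) ≤ cP N H) with hGood
  obtain ⟨G, hG⟩ : ∃ G : ℝ, G = ∑ H ∈ P, PT H y := ⟨_, rfl⟩
  obtain ⟨GG, hGG⟩ : ∃ GG : ℝ, GG = ∑ H ∈ Good, PT H y := ⟨_, rfl⟩
  rw [← hG] at l1 l2
  have hGdiff : G - GG = ∑ H ∈ P.filter (fun H => ¬ c * (CT H * D) ≤ cP N H), PT H y := by
    rw [hG, hGG, hGood, ← sum_filter_add_sum_filter_not P (fun H => c * (CT H * D) ≤ cP N H)]
    ring
  have hG0 : 0 ≤ G := by rw [hG]; exact sum_nonneg fun H _ => PT_nonneg H y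
  have hcard : ((P.card : ℕ) : ℝ) ≤ m ^ (k + 2) := by
    rw [hP, card_powersetCard, hm]
    exact_mod_cast Nat.choose_le_pow A.card (k + 2)
  have hgsum : ∑ H ∈ P, (if H ∈ Bad then 0 else (cP N H : ℝ)) ≤
      t * D * m ^ (k + 2) + D * ((1 + t) * 2 ^ (k + 1) * GG + c * (1 + t) * (G - GG)) := by
    have h1 : ∀ H ∈ P, (if H ∈ Bad then 0 else (cP N H : ℝ)) ≤ t * D +
        ((if c * (CT H * D) ≤ cP N H then (1 + t) * 2 ^ (k + 1) * D * PT H y else 0) +
          (if ¬ c * (CT H * D) ≤ cP N H then c * (1 + t) * D * PT H y else 0)) := by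
      intro H hH
      have hpt := PT_nonneg H y
      obtain ⟨g1, g2⟩ := hcon H hH
      have htD : 0 ≤ t * D := by positivity
      by_cases hb : H ∈ Bad
      · rw [if_pos hb]
        have h5 : 0 ≤ (if c * (CT H * D) ≤ cP N H then (1 + t) * 2 ^ (k + 1) * D * PT H y else 0) := by
          split_ifs <;> positivity
        have h6 : 0 ≤ (if ¬ c * (CT H * D) ≤ cP N H then c * (1 + t) * D * PT H y else 0) := by
          split_ifs <;> positivity
        linarith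
      · rw [if_neg hb]
        by_cases hg : c * (CT H * D) ≤ cP N H
        · rw [if_pos hg, if_neg (not_not.2 hg), add_zero]
          have h2 : ¬ (1 + t) * (2 ^ (k + 1) * (PT H y * D)) + t * D < cP N H := by
            intro h3
            exact hb (by rw [hBad, mem_filter]; exact ⟨hH, h3⟩)
          push Not at h2
          calc (cP N H : ℝ) ≤ _ := h2
            _ = _ := by ring
        · rw [if_neg hg, if_pos hg, zero_add]
          push Not at hg
          have h3 : c * (CT H * D) ≤ c * ((1 + t) * PT H y * D) := by gcongr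
          have h4 : c * ((1 + t) * PT H y * D) = c * (1 + t) * D * PT H y := by ring
          linarith
    refine (sum_le_sum h1).trans ?_
    rw [sum_add_distrib, sum_add_distrib, sum_const, nsmul_eq_mul, ← sum_filter, ← sum_filter, ← mul_sum, ← mul_sum, ← hGdiff,
      ← hGood, ← hGG]
    have h2 : (P.card : ℝ) * (t * D) ≤ m ^ (k + 2) * (t * D) := mul_le_mul_of_nonneg_right hcard (by positivity)
    have e3 : D * ((1 + t) * 2 ^ (k + 1) * GG + c * (1 + t) * (G - GG)) = (1 + t) * 2 ^ (k + 1) * D * GG + c * (1 + t) * D * (G - GG) := by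
      ring
    rw [e3]
    linarith
  have hall : ∑ H ∈ P, (cP N H : ℝ) = ∑ H ∈ Bad, (cP N H : ℝ) + ∑ H ∈ P, (if H ∈ Bad then 0 else (cP N H : ℝ)) := by
    have h1 : ∑ H ∈ Bad, (cP N H : ℝ) = ∑ H ∈ P, (if H ∈ Bad then (cP N H : ℝ) else 0) := by
      rw [← sum_filter]
      congr 1
      ext H
      exact ⟨fun h => mem_filter.2 ⟨(mem_filter.1 h).1, h⟩, fun h => (mem_filter.1 h).2⟩
    rw [h1, ← sum_add_distrib]
    refine sum_congr rfl fun H _ => ?_
    split_ifs <;> ring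
  have hmass : D * m ^ (k + 2) ≤ 2 * (((k + 2).factorial : ℝ) * (D * G)) := l2
  have hfin : (1 - C * t) * G ≤ (1 + t) * 2 ^ (k + 1) * GG + c * (1 + t) * (G - GG) := by
    have h1 : (1 - (2 * (((k + 1 : ℕ) : ℝ) + 1) + 7) * t) * (D * G) ≤
        2 * (t * (D * m ^ (k + 2))) + D * ((1 + t) * 2 ^ (k + 1) * GG + c * (1 + t) * (G - GG)) := by
      refine l1.trans ?_
      rw [hall]
      linarith
    have h2 : 2 * (t * (D * m ^ (k + 2))) ≤ 4 * ((k + 2).factorial : ℝ) * t * (D * G) := by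
      have := mul_le_mul_of_nonneg_left hmass (show 0 ≤ 2 * t by linarith)
      linarith
    have h3 : D * ((1 - C * t) * G) ≤ D * ((1 + t) * 2 ^ (k + 1) * GG + c * (1 + t) * (G - GG)) := by
      have h4 : 0 ≤ 12 * ((k : ℝ) + 2) * t * (D * G) := by positivity
      have h5 : D * ((1 - C * t) * G) = (1 - (2 * (((k + 1 : ℕ) : ℝ) + 1) + 7) * t) * (D * G) -
          4 * ((k + 2).factorial : ℝ) * t * (D * G) - 12 * ((k : ℝ) + 2) * t * (D * G) := by
        rw [hC]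
        push_cast
        ring
      rw [h5]
      linarith
    exact le_of_mul_le_mul_left h3 hD0
  refine fin_calc3 (G := G) (GG := GG) hC0 hq hc0 hc1 ht ht2 ht3 (sum_nonneg hCT0) hfin ?_ ?_
  · rw [hGG, mul_sum]
    exact sum_le_sum fun H hH => (hcon H (mem_filter.1 hH).1).1
  · rw [hG, mul_sum]
    exact sum_le_sum fun H hH => (hcon H hH).2

/-- **the lower bound for the total number, with the constants** -/
theorem tup_avg (k : ℕ) (ε : ℝ) (hε : 0 < ε) : ∀ᶠ N : ℕ in atTop, ∀ A : Finset ℕ, (∀ a ∈ A, a ≤ N) →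
    Real.log N ^ (k + 1 + 1) ≤ A.card →
      (1 - ε) * (N / Real.log N ^ (k + 1) * ∑ H ∈ A.powersetCard (k + 1), CT H) ≤
        ∑ H ∈ A.powersetCard (k + 1), (cP N H : ℝ) := by
  have hk0 : (0 : ℝ) ≤ k := Nat.cast_nonneg _
  obtain ⟨C, hC⟩ : ∃ C : ℝ, C = 12 * ((k : ℝ) + 1) + 8 := ⟨_, rfl⟩
  have hC0 : 0 < C := by rw [hC]; positivity
  obtain ⟨t, ht⟩ : ∃ t : ℝ, t = min (1 / C) (ε / C) := ⟨_, rfl⟩
  have ht0 : 0 < t := by rw [ht]; positivity
  have ht1 : C * t ≤ 1 := by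
    have : t ≤ 1 / C := by rw [ht]; exact min_le_left _ _
    calc C * t ≤ C * (1 / C) := mul_le_mul_of_nonneg_left this hC0.le
      _ = 1 := by field_simp
  have ht2 : C * t ≤ ε := by
    have : t ≤ ε / C := by rw [ht]; exact min_le_right _ _
    calc C * t ≤ C * (ε / C) := mul_le_mul_of_nonneg_left this hC0.le
      _ = ε := by field_simp
  have htk : 12 * ((k : ℝ) + 1) * t ≤ 1 := by
    refine le_trans (mul_le_mul_of_nonneg_right ?_ ht0.le) ht1
    rw [hC]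
    linarith
  have ht8 : t ≤ 1 / 8 := by
    have h1 : 8 * t ≤ C * t := mul_le_mul_of_nonneg_right (by rw [hC]; linarith) ht0.le
    linarith
  have HL := tup_low k 1 one_pos le_rfl t ht0 htk
  have e1 := ev_logN (eventually_ge_atTop (max 2 (4 * ((k : ℝ) + 1) ^ 3 / t)))
  filter_upwards [HL, yN_facts 1 one_pos le_rfl 3 1, e1, eventually_ge_atTop 3] with N hL hyf f1 hN A hA hAc
  obtain ⟨y1, y2, y3, y4, y5⟩ := hyf
  obtain ⟨L, hLd⟩ : ∃ L : ℝ, L = Real.log N := ⟨_, rfl⟩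
  rw [← hLd] at f1 hL y3 hAc ⊢
  have hL2 : 2 ≤ L := (le_max_left _ _).trans f1
  have hL1 : 1 ≤ L := by linarith
  have hLk : 4 * ((k : ℝ) + 1) ^ 3 / t ≤ L := (le_max_right _ _).trans f1
  have hN0 : (0 : ℝ) < N := by exact_mod_cast (by omega : 0 < N)
  obtain ⟨l1, -⟩ := hL A hA hAc
  have hcon : ∑ H ∈ A.powersetCard (k + 1), CT H ≤ (1 + t) * ∑ H ∈ A.powersetCard (k + 1), PT H (yN 1 N) := by
    rw [mul_sum]
    refine sum_le_sum fun H hH => ?_
    rw [mem_powersetCard] at hH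
    exact CT_le1 (N := N) (k := k) (L := L) ht0 (by linarith) hLd hL1 (by omega) y3 hLk hH.2
      fun h hh => hA h (hH.1 hh)
  obtain ⟨G, hG⟩ : ∃ G : ℝ, G = ∑ H ∈ A.powersetCard (k + 1), PT H (yN 1 N) := ⟨_, rfl⟩
  have hG0 : 0 ≤ G := by rw [hG]; exact sum_nonneg fun H _ => PT_nonneg H _
  rw [← hG] at hcon l1
  refine le_trans ?_ l1
  by_cases hε1 : 1 ≤ ε
  · have h1 : 0 ≤ (1 - (2 * ((k : ℝ) + 1) + 7) * t) * (N / L ^ (k + 1) * G) := by
      apply mul_nonneg _ (by positivity)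
      have : (2 * ((k : ℝ) + 1) + 7) * t ≤ C * t := mul_le_mul_of_nonneg_right (by rw [hC]; linarith) ht0.le
      linarith
    refine le_trans ?_ h1
    apply mul_nonpos_of_nonpos_of_nonneg (by linarith)
    apply mul_nonneg (by positivity)
    refine sum_nonneg fun H hH => ?_
    exact Pool.Agent.H528.Tup.CT_nonneg' H
  · push Not at hε1
    have h1 : (1 - ε) * (N / L ^ (k + 1) * ∑ H ∈ A.powersetCard (k + 1), CT H) ≤
        (1 - ε) * (N / L ^ (k + 1) * ((1 + t) * G)) := by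
      have : 0 ≤ 1 - ε := by linarith
      gcongr
    refine h1.trans ?_
    have h2 : (1 - ε) * (N / L ^ (k + 1) * ((1 + t) * G)) = (1 - ε) * (1 + t) * (N / L ^ (k + 1) * G) := by ring
    rw [h2]
    apply mul_le_mul_of_nonneg_right _ (by positivity)
    have h3 : (2 * ((k : ℝ) + 1) + 7) * t + t ≤ ε := by
      have : (2 * ((k : ℝ) + 1) + 8) * t ≤ C * t := mul_le_mul_of_nonneg_right (by rw [hC]; linarith) ht0.le
      linarith
    nlinarith

end Pool.Agent.H528.Tup
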