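import Mathlib
import Pool.Agent.H528.TupE

/-! The main terms: rough numbers and the singular series. -/

set_option autoImplicit false

namespace Pool.Agent.H528.Mass

open Finset Filter Topology
open Pool.Agent.Y822 Pool.Agent.Y822.Par3
open Pool.Agent.Y822.Q (int0)
open Pool.Agent.H373R2.T7 (pz Vz mem_pz Vz_pos)
open Pool.Agent.H387R2.Uni (nuT Adm locT CT)
open Pool.Agent.H528.UpLo Pool.Agent.H528.Lam
open Pool.Agent.H528.AsyL Pool.Agent.H528.Gen Pool.Agent.H528.PCnt Pool.Agent.H528.Tup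

/-- the truncated and the full constant -/
theorem PT_CT (k : ℕ) (κ : ℝ) (hκ : 0 < κ) (hκ1 : κ ≤ 1) (x : ℝ) (hx : 0 < x) (hx1 : x ≤ 1) : ∀ᶠ N : ℕ in atTop,
    ∀ H : Finset ℕ, H.card = k + 1 → (∀ h ∈ H, h ≤ N) →
      PT H (yN κ N) ≤ (1 + x) * CT H ∧ CT H ≤ (1 + x) * PT H (yN κ N) := by
  obtain ⟨M, hM⟩ : ∃ M : ℕ, M = 3 + ⌈((k : ℝ) + 1) ^ 2 * (2 / x)⌉₊ := ⟨_, rfl⟩
  have e1 := ev_logN (eventually_ge_atTop (max 2 (4 * ((k : ℝ) + 1) ^ 3 / Real.log (1 + x))))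
  filter_upwards [yN_facts κ hκ hκ1 M 1, e1, eventually_ge_atTop 3] with N hyf f1 hN H hH hHN
  obtain ⟨y1, y2, y3, y4, y5⟩ := hyf
  obtain ⟨L, hL⟩ : ∃ L : ℝ, L = Real.log N := ⟨_, rfl⟩
  rw [← hL] at f1 y3
  obtain ⟨y, hyd⟩ : ∃ y : ℕ, y = yN κ N := ⟨_, rfl⟩
  rw [← hyd] at y1 y2 y3 y4 y5 ⊢
  have hL2 : 2 ≤ L := (le_max_left _ _).trans f1
  have hLx : 4 * ((k : ℝ) + 1) ^ 3 / Real.log (1 + x) ≤ L := (le_max_right _ _).trans f1
  have hlx : 0 < Real.log (1 + x) := Real.log_pos (by linarith)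
  rw [div_le_iff₀ hlx] at hLx
  have hy3 : 3 ≤ y := by omega
  have hM2 : 2 ≤ M := by omega
  have hHr : (H.card : ℝ) = (k : ℝ) + 1 := by rw [hH]; push_cast; ring
  constructor
  · refine PT_le_CT H x hx hx1 y ?_ (by omega)
    rw [hHr]
    have h1 : ((k : ℝ) + 1) ^ 2 * (2 / x) ≤ M := by
      rw [hM]
      push_cast
      have := Nat.le_ceil (((k : ℝ) + 1) ^ 2 * (2 / x))
      linarith
    have h2 : (M : ℝ) ≤ y := by exact_mod_cast y5
    linarith
  · refine (CT_up H N y hHN (by omega)).trans (mul_le_mul_of_nonneg_right ?_ (PT_nonneg H y))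
    rw [hHr]
    have h1 : Real.exp (Real.log (1 + x)) = 1 + x := Real.exp_log (by linarith)
    rw [← h1]
    apply Real.exp_le_exp.2
    have hy0 : (0 : ℝ) < y := by exact_mod_cast (by omega : 0 < y)
    rw [div_le_iff₀ hy0]
    have h2 : (Nat.log y N : ℝ) ≤ 2 * L := by
      have h3 : y ^ Nat.log y N ≤ N := Nat.pow_log_le_self y (by omega)
      have h4 : Real.log ((y : ℝ) ^ Nat.log y N) ≤ Real.log N := by
        apply Real.log_le_log (by positivity)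
        exact_mod_cast h3
      rw [Real.log_pow, ← hL] at h4
      have h5 : (1 : ℝ) / 2 ≤ Real.log y := by
        have h6 : Real.log 2 ≤ Real.log y := Real.log_le_log (by norm_num) (by exact_mod_cast (by omega : 2 ≤ y))
        have := Real.log_two_gt_d9
        linarith
      have h7 : (Nat.log y N : ℝ) * (1 / 2) ≤ Nat.log y N * Real.log y := mul_le_mul_of_nonneg_left h5 (Nat.cast_nonneg _)
      linarith
    have h3 : L * L ≤ y := by
      refine le_trans ?_ y3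
      calc L * L = L ^ 2 := by ring
        _ ≤ L ^ M := pow_le_pow_right₀ (by linarith) hM2
    calc 2 * ((k : ℝ) + 1) ^ 3 * Nat.log y N ≤ 2 * ((k : ℝ) + 1) ^ 3 * (2 * L) := mul_le_mul_of_nonneg_left h2 (by positivity)
      _ = (4 * ((k : ℝ) + 1) ^ 3) * L := by ring
      _ ≤ L * Real.log (1 + x) * L := mul_le_mul_of_nonneg_right hLx (by linarith)
      _ = Real.log (1 + x) * (L * L) := by ring
      _ ≤ Real.log (1 + x) * y := mul_le_mul_of_nonneg_left h3 hlx.le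

open Classical in
lemma RE_one_cR (y N : ℕ) (H : Finset ℕ) : RE (fun _ => (1 : ℝ)) y N H = (cR y N H : ℝ) := by
  unfold RE cR
  rw [card_eq_sum_ones, Nat.cast_sum, sum_filter]
  refine sum_congr rfl fun n _ => ?_
  by_cases hr : ∀ h ∈ H, Ro y (n + h)
  · rw [if_pos hr, Nat.cast_one, one_mul]
    refine prod_eq_one fun i hi => ?_
    unfold ro
    rw [if_pos (hr _ hi)]
  · rw [if_neg hr]
    push Not at hr
    obtain ⟨t, ht, h2⟩ := hr
    rw [prod_eq_zero ht, mul_zero]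
    unfold ro
    rw [if_neg h2]

/-- the final computation -/
lemma mass_calc {m : ℕ} {x L V n P C c0 cz R : ℝ} (hx : 0 < x) (hx1 : x ≤ 1) (hL : 1 ≤ L) (hV : 0 < V) (hn : 0 < n)
    (hcz : 0 < cz) (hc0 : 0 < c0) (hVl : cz / L ≤ V) (hP : 0 ≤ P) (hC : c0 ≤ C)
    (h1 : P ≤ (1 + x) * C) (h2 : C ≤ (1 + x) * P) (hb : (2 / cz) ^ m / (x * c0) ≤ L)
    (hR : |R - n * (P * V ^ m)| ≤ x * (n * (P * V ^ m)) + n / L ^ (2 * m + 1)) :
    |(2 * L / V) ^ m * R - 2 ^ m * C * (n * L ^ m)| ≤ 6 * x * (2 ^ m * C * (n * L ^ m)) := by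
  have hL0 : 0 < L := by linarith
  have hC0 : 0 < C := by linarith
  obtain ⟨W, hW⟩ : ∃ W : ℝ, W = (2 * L / V) ^ m := ⟨_, rfl⟩
  have hW0 : 0 < W := by rw [hW]; positivity
  obtain ⟨Y, hY⟩ : ∃ Y : ℝ, Y = 2 ^ m * (n * L ^ m) := ⟨_, rfl⟩
  have hY0 : 0 < Y := by rw [hY]; positivity
  have e1 : W * (n * (P * V ^ m)) = P * Y := by
    rw [hW, hY, div_pow, mul_pow]
    field_simp
  have e2 : W * (n / L ^ (2 * m + 1)) ≤ x * c0 * Y := by
    have g1 : 2 * L / V ≤ 2 / cz * L ^ 2 := by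
      rw [div_le_iff₀ hV]
      have h1 : 2 / cz * L ^ 2 * (cz / L) ≤ 2 / cz * L ^ 2 * V := mul_le_mul_of_nonneg_left hVl (by positivity)
      have h2 : 2 / cz * L ^ 2 * (cz / L) = 2 * L := by field_simp
      linarith
    have g2 : W ≤ (2 / cz) ^ m * L ^ (2 * m) := by
      rw [hW]
      calc (2 * L / V) ^ m ≤ (2 / cz * L ^ 2) ^ m := pow_le_pow_left₀ (by positivity) g1 _
        _ = _ := by rw [mul_pow, ← pow_mul]
    have g3 : W * (n / L ^ (2 * m + 1)) ≤ (2 / cz) ^ m * L ^ (2 * m) * (n / L ^ (2 * m + 1)) :=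
      mul_le_mul_of_nonneg_right g2 (by positivity)
    have g4 : (2 / cz) ^ m * L ^ (2 * m) * (n / L ^ (2 * m + 1)) = (2 / cz) ^ m * (n / L) := by
      rw [pow_succ]
      field_simp
    rw [div_le_iff₀ (by positivity)] at hb
    have g5 : (2 / cz) ^ m * (n / L) ≤ x * c0 * n := by
      calc (2 / cz) ^ m * (n / L) ≤ L * (x * c0) * (n / L) := mul_le_mul_of_nonneg_right hb (by positivity)
        _ = x * c0 * n := by field_simp
    have g6 : n ≤ Y := by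
      rw [hY]
      have h1 : (1 : ℝ) ≤ 2 ^ m := one_le_pow₀ (by norm_num)
      have h2 : (1 : ℝ) ≤ L ^ m := one_le_pow₀ hL
      calc n = 1 * (n * 1) := by ring
        _ ≤ 2 ^ m * (n * L ^ m) := by gcongr
    have g7 : x * c0 * n ≤ x * c0 * Y := mul_le_mul_of_nonneg_left g6 (by positivity)
    linarith
  have e3 : 2 ^ m * C * (n * L ^ m) = C * Y := by rw [hY]; ring
  rw [← hW, e3]
  have h3 : |W * R - P * Y| ≤ x * (P * Y) + x * (C * Y) := by
    have g1 : W * R - P * Y = W * (R - n * (P * V ^ m)) := by rw [mul_sub, e1]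
    rw [g1, abs_mul, abs_of_pos hW0]
    calc W * |R - n * (P * V ^ m)| ≤ W * (x * (n * (P * V ^ m)) + n / L ^ (2 * m + 1)) := mul_le_mul_of_nonneg_left hR hW0.le
      _ = x * (W * (n * (P * V ^ m))) + W * (n / L ^ (2 * m + 1)) := by ring
      _ ≤ x * (P * Y) + x * (C * Y) := by
          rw [e1]
          have : x * c0 * Y ≤ x * (C * Y) := by
            calc x * c0 * Y = x * (c0 * Y) := by ring
              _ ≤ x * (C * Y) := by gcongr
          linarith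
  have h4 : P * Y ≤ (1 + x) * (C * Y) := by
    calc P * Y ≤ (1 + x) * C * Y := mul_le_mul_of_nonneg_right h1 hY0.le
      _ = _ := by ring
  have h5 : C * Y ≤ (1 + x) * (P * Y) := by
    calc C * Y ≤ (1 + x) * P * Y := mul_le_mul_of_nonneg_right h2 hY0.le
      _ = _ := by ring
  have hCY : 0 < C * Y := by positivity
  have hPY : 0 ≤ P * Y := by positivity
  have h6 : P * Y ≤ 2 * (C * Y) := by nlinarith
  have h7 : |P * Y - C * Y| ≤ 2 * x * (C * Y) := by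
    rw [abs_le]
    constructor <;> nlinarith
  obtain ⟨a1, a2⟩ := abs_le.1 h3
  obtain ⟨b1, b2⟩ := abs_le.1 h7
  have h8 : x * (P * Y) ≤ x * (2 * (C * Y)) := mul_le_mul_of_nonneg_left h6 hx.le
  have h9 : 0 < x * (C * Y) := by positivity
  rw [abs_le]
  constructor <;> nlinarith

/-- **the total mass** -/
theorem mass_one (k : ℕ) (κ : ℝ) (hκ : 0 < κ) (hκ1 : κ ≤ 1) (ε : ℝ) (hε : 0 < ε) : ∀ᶠ N : ℕ in atTop,
    ∀ H : Finset ℕ, H.card = k + 1 → (∀ h ∈ H, h ≤ N) → Adm H →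
      |(2 * Real.log N / Vz (yN κ N)) ^ (k + 1) * RE (fun _ => (1 : ℝ)) (yN κ N) N H -
        2 ^ (k + 1) * CT H * (N * Real.log N ^ (k + 1))| ≤ ε * (2 ^ (k + 1) * CT H * (N * Real.log N ^ (k + 1))) := by
  obtain ⟨x, hx⟩ : ∃ x : ℝ, x = min (ε / 6) 1 := ⟨_, rfl⟩
  have hx0 : 0 < x := by rw [hx]; positivity
  have hx1 : x ≤ 1 := by rw [hx]; exact min_le_right _ _
  have hxε : 6 * x ≤ ε := by
    have : x ≤ ε / 6 := by rw [hx]; exact min_le_left _ _
    linarith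
  obtain ⟨cz, hcz, hV⟩ := Vz_sharp
  obtain ⟨c0, hc0, hlow⟩ := PT_low k
  have e1 := ev_logN (eventually_ge_atTop (max 1 ((2 / cz) ^ (k + 1) / (x * c0))))
  filter_upwards [int0 k κ x (2 * (k + 1) + 1) hκ hκ1 hx0 hx1, PT_CT k κ hκ hκ1 x hx0 hx1,
    yN_facts κ hκ hκ1 3 1, e1, eventually_ge_atTop 3] with N hR hP hyf f1 hN H hH hHN hA
  obtain ⟨y1, y2, y3, y4, y5⟩ := hyf
  obtain ⟨L, hL⟩ : ∃ L : ℝ, L = Real.log N := ⟨_, rfl⟩
  rw [← hL] at f1 hR ⊢
  have hL1 : 1 ≤ L := (le_max_left _ _).trans f1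
  have hLb : (2 / cz) ^ (k + 1) / (x * c0) ≤ L := (le_max_right _ _).trans f1
  have hN0 : (0 : ℝ) < N := by exact_mod_cast (by omega : 0 < N)
  have hyN : yN κ N ≤ N := by rw [pow_one] at y4; exact y4
  have hVlow : cz / L ≤ Vz (yN κ N) := by
    refine le_trans ?_ (hV _ y5)
    apply div_le_div_of_nonneg_left hcz.le
    · exact Real.log_pos (by exact_mod_cast (by omega : 1 < yN κ N))
    · rw [hL]
      exact Real.log_le_log (by exact_mod_cast (by omega : 0 < yN κ N)) (by exact_mod_cast hyN)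
  obtain ⟨p1, p2⟩ := hP H hH hHN
  obtain ⟨l1, l2⟩ := hlow H hH hA
  have h1 := hR H hH
  have h2 : |(cR (yN κ N) N H : ℝ) - N * (PT H (yN κ N) * Vz (yN κ N) ^ (k + 1))| ≤
    x * (N * (PT H (yN κ N) * Vz (yN κ N) ^ (k + 1))) + N / L ^ (2 * (k + 1) + 1) := h1
  rw [RE_one_cR]
  refine (mass_calc hx0 hx1 hL1 (Vz_pos _) hN0 hcz hc0 hVlow (PT_nonneg _ _) l2 p1 p2 hLb h2).trans ?_
  have hCT : 0 < CT H := by linarith
  exact mul_le_mul_of_nonneg_right hxε (by positivity)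

end Pool.Agent.H528.Mass
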