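import Mathlib
import Pool.Agent.H528.Avg
import Pool.Graph.R_seed8.Helper256.KM.Mertens

/-! Sums over primes of powers of logarithms. -/

set_option autoImplicit false

namespace Pool.Agent.H528.Mn

open Finset Filter
open Pool.Agent.H528.Avg (PR mem_PR th th_eq th_le th_nonneg)

lemma poly_ineq (j : ℕ) {a b : ℝ} (ha : 0 ≤ a) (hb : 0 ≤ b) :
    ((j : ℝ) + 1) * (a * b ^ j) ≤ j * b ^ (j + 1) + a ^ (j + 1) := by
  induction j with
  | zero => simp
  | succ j ih =>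
    push_cast
    have h1 := mul_le_mul_of_nonneg_right ih hb
    have h2 : 0 ≤ (b ^ (j + 1) - a ^ (j + 1)) * (b - a) := by
      rcases le_total a b with h | h
      · exact mul_nonneg (sub_nonneg.2 (pow_le_pow_left₀ ha h _)) (sub_nonneg.2 h)
      · exact mul_nonneg_of_nonpos_of_nonpos (sub_nonpos.2 (pow_le_pow_left₀ hb h _)) (sub_nonpos.2 h)
    have e1 : ((j : ℝ) + 1) * (a * b ^ j) * b = (j + 1) * (a * b ^ (j + 1)) := by ring
    have e2 : ((j : ℝ) * b ^ (j + 1) + a ^ (j + 1)) * b = j * b ^ (j + 1 + 1) + a ^ (j + 1) * b := by ring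
    rw [e1, e2] at h1
    have e3 : (b ^ (j + 1) - a ^ (j + 1)) * (b - a) = b ^ (j + 1 + 1) + a ^ (j + 1 + 1) - a * b ^ (j + 1) - a ^ (j + 1) * b := by
      ring
    rw [e3] at h2
    nlinarith

/-- partial summation -/
lemma abel (w g : ℕ → ℝ) (X : ℕ) (hX : 1 ≤ X) :
    ∑ n ∈ Icc 1 X, w n * g n = (∑ n ∈ Icc 1 X, w n) * g X - ∑ n ∈ Ico 1 X, (g (n + 1) - g n) * ∑ m ∈ Icc 1 n, w m := by
  induction X, hX using Nat.le_induction with
  | base => simp
  | succ X hX ih =>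
    rw [sum_Icc_succ_top (by omega), sum_Icc_succ_top (by omega), sum_Ico_succ_top hX, ih]
    ring

lemma log_step (n : ℕ) (hn : 1 ≤ n) : Real.log n ≤ Real.log (n + 1 : ℕ) ∧ Real.log (n + 1 : ℕ) - Real.log n ≤ 1 / n := by
  have hn0 : (0 : ℝ) < n := by exact_mod_cast hn
  constructor
  · apply Real.log_le_log hn0
    push_cast; linarith
  · have h1 : Real.log (n + 1 : ℕ) - Real.log n = Real.log (1 + 1 / n) := by
      rw [← Real.log_div (by positivity) hn0.ne']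
      congr 1
      push_cast
      field_simp
    rw [h1]
    have := Real.log_le_sub_one_of_pos (show (0 : ℝ) < 1 + 1 / n by positivity)
    linarith

lemma G_bd (j X : ℕ) (hX : 1 ≤ X) :
    ((j : ℝ) + 1) * (∑ n ∈ Ico 1 X, (Real.log (n + 1 : ℕ) ^ j - Real.log n ^ j) * Real.log n) ≤ j * Real.log X ^ (j + 1) ∧
    j * Real.log X ^ (j + 1) - (j + 1) * Real.log X ^ j ≤
      ((j : ℝ) + 1) * (∑ n ∈ Ico 1 X, (Real.log (n + 1 : ℕ) ^ j - Real.log n ^ j) * Real.log n) := by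
  induction X, hX using Nat.le_induction with
  | base =>
    simp only [Ico_self, sum_empty, mul_zero, Nat.cast_one, Real.log_one]
    constructor
    · positivity
    · rcases Nat.eq_zero_or_pos j with rfl | h
      · norm_num
      · rw [zero_pow (by omega : j ≠ 0), zero_pow (by omega : j + 1 ≠ 0)]
        simp
  | succ X hX ih =>
    rw [sum_Ico_succ_top hX]
    obtain ⟨ih1, ih2⟩ := ih
    obtain ⟨g1, g2⟩ := log_step X hX
    obtain ⟨a, ha⟩ : ∃ a : ℝ, a = Real.log X := ⟨_, rfl⟩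
    obtain ⟨b, hb⟩ : ∃ b : ℝ, b = Real.log (X + 1 : ℕ) := ⟨_, rfl⟩
    obtain ⟨G, hG⟩ : ∃ G : ℝ, G = ∑ n ∈ Ico 1 X, (Real.log (n + 1 : ℕ) ^ j - Real.log n ^ j) * Real.log n := ⟨_, rfl⟩
    rw [← hG, ← ha] at ih1 ih2
    rw [← ha, ← hb] at g1 g2
    rw [← hG, ← ha, ← hb]
    have ha0 : 0 ≤ a := by rw [ha]; exact Real.log_natCast_nonneg X
    have hb0 : 0 ≤ b := ha0.trans g1
    have hX1 : (1 : ℝ) / X ≤ 1 := by
      rw [div_le_one (by exact_mod_cast hX)]
      exact_mod_cast hX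
    have h1 := poly_ineq j ha0 hb0
    have h2 := poly_ineq j hb0 ha0
    have hab : a ^ j ≤ b ^ j := pow_le_pow_left₀ ha0 g1 j
    have ea : a ^ (j + 1) = a ^ j * a := pow_succ _ _
    have eb : b ^ (j + 1) = b ^ j * b := pow_succ _ _
    rw [ea, eb] at h1 h2
    rw [ea] at ih1 ih2
    rw [eb]
    have hj : (0 : ℝ) ≤ j := Nat.cast_nonneg j
    constructor
    · nlinarith
    · have h3 : (b ^ j - a ^ j) * (b - a) ≤ (b ^ j - a ^ j) * 1 :=
        mul_le_mul_of_nonneg_left (by linarith) (by linarith)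
      have h4 : ((j : ℝ) + 1) * ((b ^ j - a ^ j) * (b - a)) ≤ ((j : ℝ) + 1) * ((b ^ j - a ^ j) * 1) :=
        mul_le_mul_of_nonneg_left h3 (by linarith)
      nlinarith

lemma sum_PR_eq (X : ℕ) (F : ℕ → ℝ) : ∑ p ∈ PR 0 X, F p = ∑ n ∈ Icc 1 X, if n.Prime then F n else 0 := by
  rw [← sum_filter]
  rfl

/-- the powers of the logarithm -/
lemma mert_j (j : ℕ) : ∃ C : ℝ, 0 ≤ C ∧ ∀ X : ℕ, 1 ≤ X →
    |∑ p ∈ PR 0 X, Real.log p ^ (j + 1) / p - Real.log X ^ (j + 1) / (j + 1)| ≤ C * (1 + Real.log X) ^ j := by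
  obtain ⟨C, hC⟩ := Pool.Agent.Helper256.KM.mertens_log
  have hC0 : 0 ≤ C := (abs_nonneg _).trans (hC 1 le_rfl)
  refine ⟨2 * C + 1, by positivity, fun X hX => ?_⟩
  obtain ⟨w, hw⟩ : ∃ w : ℕ → ℝ, w = fun n => if n.Prime then Real.log n / n else 0 := ⟨_, rfl⟩
  have hW : ∀ n : ℕ, 1 ≤ n → |∑ m ∈ Icc 1 n, w m - Real.log n| ≤ C := by
    intro n hn
    have h1 := hC n hn
    rw [sum_filter] at h1
    rw [hw]
    exact h1
  have h1 : ∑ p ∈ PR 0 X, Real.log p ^ (j + 1) / p = ∑ n ∈ Icc 1 X, w n * Real.log n ^ j := by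
    rw [sum_PR_eq]
    refine sum_congr rfl fun n _ => ?_
    rw [hw]
    dsimp only
    split_ifs with h
    · rw [pow_succ]; ring
    · ring
  rw [h1, abel w (fun n => Real.log n ^ j) X hX]
  have hlX : 0 ≤ Real.log X := Real.log_natCast_nonneg X
  have hinc : ∀ n ∈ Ico 1 X, 0 ≤ Real.log (n + 1 : ℕ) ^ j - Real.log n ^ j := by
    intro n hn
    rw [mem_Ico] at hn
    exact sub_nonneg.2 (pow_le_pow_left₀ (Real.log_natCast_nonneg n) (log_step n hn.1).1 j)
  have htel : ∑ n ∈ Ico 1 X, (Real.log (n + 1 : ℕ) ^ j - Real.log n ^ j) ≤ Real.log X ^ j := by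
    rw [Finset.sum_Ico_eq_sub _ hX]
    rw [Finset.sum_range_sub (fun n : ℕ => Real.log n ^ j), Finset.sum_range_sub (fun n : ℕ => Real.log n ^ j)]
    have h3 : 0 ≤ Real.log (1 : ℕ) ^ j := pow_nonneg (Real.log_natCast_nonneg 1) j
    linarith
  have h2 : |∑ n ∈ Ico 1 X, (Real.log (n + 1 : ℕ) ^ j - Real.log n ^ j) * ∑ m ∈ Icc 1 n, w m -
      ∑ n ∈ Ico 1 X, (Real.log (n + 1 : ℕ) ^ j - Real.log n ^ j) * Real.log n| ≤ C * Real.log X ^ j := by
    rw [← sum_sub_distrib]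
    refine (abs_sum_le_sum_abs _ _).trans ?_
    calc ∑ n ∈ Ico 1 X, |(Real.log (n + 1 : ℕ) ^ j - Real.log n ^ j) * ∑ m ∈ Icc 1 n, w m -
          (Real.log (n + 1 : ℕ) ^ j - Real.log n ^ j) * Real.log n| ≤
          ∑ n ∈ Ico 1 X, (Real.log (n + 1 : ℕ) ^ j - Real.log n ^ j) * C := by
            refine sum_le_sum fun n hn => ?_
            rw [← mul_sub, abs_mul, abs_of_nonneg (hinc n hn)]
            exact mul_le_mul_of_nonneg_left (hW n (mem_Ico.1 hn).1) (hinc n hn)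
      _ = (∑ n ∈ Ico 1 X, (Real.log (n + 1 : ℕ) ^ j - Real.log n ^ j)) * C := by rw [sum_mul]
      _ ≤ Real.log X ^ j * C := mul_le_mul_of_nonneg_right htel hC0
      _ = _ := mul_comm _ _
  obtain ⟨G1, G2⟩ := G_bd j X hX
  obtain ⟨G, hG⟩ : ∃ G : ℝ, G = ∑ n ∈ Ico 1 X, (Real.log (n + 1 : ℕ) ^ j - Real.log n ^ j) * Real.log n := ⟨_, rfl⟩
  rw [← hG] at G1 G2 h2
  obtain ⟨G', hG'⟩ : ∃ G' : ℝ, G' = ∑ n ∈ Ico 1 X, (Real.log (n + 1 : ℕ) ^ j - Real.log n ^ j) * ∑ m ∈ Icc 1 n, w m := ⟨_, rfl⟩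
  rw [← hG'] at h2
  show |(∑ n ∈ Icc 1 X, w n) * Real.log X ^ j - ∑ n ∈ Ico 1 X, (Real.log (n + 1 : ℕ) ^ j - Real.log n ^ j) * ∑ m ∈ Icc 1 n, w m -
    Real.log X ^ (j + 1) / (j + 1)| ≤ _
  rw [← hG']
  have hWX := hW X hX
  have hj1 : (0 : ℝ) < (j : ℝ) + 1 := by positivity
  have hG3 : |G - (j * Real.log X ^ (j + 1)) / (j + 1)| ≤ Real.log X ^ j := by
    rw [abs_le]
    constructor
    · have : (j * Real.log X ^ (j + 1)) / (j + 1) - Real.log X ^ j ≤ G := by
        rw [div_sub' hj1.ne', div_le_iff₀ hj1]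
        linarith
      linarith
    · have : G ≤ (j * Real.log X ^ (j + 1)) / (j + 1) := by
        rw [le_div_iff₀ hj1]
        linarith
      have : 0 ≤ Real.log X ^ j := by positivity
      linarith
  have e1 : (∑ n ∈ Icc 1 X, w n) * Real.log X ^ j - G' - Real.log X ^ (j + 1) / (j + 1) =
      (∑ n ∈ Icc 1 X, w n - Real.log X) * Real.log X ^ j - (G' - G) - (G - (j * Real.log X ^ (j + 1)) / (j + 1)) := by
    field_simp
    ring
  rw [e1]
  have h3 : |(∑ n ∈ Icc 1 X, w n - Real.log X) * Real.log X ^ j| ≤ C * Real.log X ^ j := by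
    rw [abs_mul, abs_of_nonneg (show 0 ≤ Real.log X ^ j by positivity)]
    exact mul_le_mul_of_nonneg_right hWX (by positivity)
  have h4 : Real.log X ^ j ≤ (1 + Real.log X) ^ j := pow_le_pow_left₀ hlX (by linarith) j
  have h5 := abs_sub ((∑ n ∈ Icc 1 X, w n - Real.log X) * Real.log X ^ j - (G' - G)) (G - (j * Real.log X ^ (j + 1)) / (j + 1))
  have h6 := abs_sub ((∑ n ∈ Icc 1 X, w n - Real.log X) * Real.log X ^ j) (G' - G)
  have h7 : (2 * C + 1) * Real.log X ^ j ≤ (2 * C + 1) * (1 + Real.log X) ^ j := mul_le_mul_of_nonneg_left h4 (by positivity)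
  linarith

/-- **the Beta integral over primes** -/
lemma mert_beta (n : ℕ) : ∀ k : ℕ, ∃ C : ℝ, 0 ≤ C ∧ ∀ X : ℕ, 1 ≤ X →
    |∑ p ∈ PR 0 X, Real.log p ^ (k + 1) / p * (Real.log X - Real.log p) ^ n -
      (k.factorial * n.factorial : ℝ) / (k + n + 1).factorial * Real.log X ^ (k + n + 1)| ≤ C * (1 + Real.log X) ^ (k + n) := by
  induction n with
  | zero =>
    intro k
    obtain ⟨C, hC, h⟩ := mert_j k
    refine ⟨C, hC, fun X hX => ?_⟩
    have h1 := h X hX
    simp only [pow_zero, mul_one, Nat.factorial_zero, Nat.cast_one, add_zero]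
    have e : (k.factorial : ℝ) / (k + 1).factorial * Real.log X ^ (k + 1) = Real.log X ^ (k + 1) / (k + 1) := by
      rw [Nat.factorial_succ]
      push_cast
      have : (k.factorial : ℝ) ≠ 0 := by exact_mod_cast k.factorial_ne_zero
      field_simp
    rw [e]
    exact h1
  | succ n ih =>
    intro k
    obtain ⟨C1, hC1, h1⟩ := ih k
    obtain ⟨C2, hC2, h2⟩ := ih (k + 1)
    refine ⟨C1 + C2, by positivity, fun X hX => ?_⟩
    have g1 := h1 X hX
    have g2 := h2 X hX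
    have hlX : 0 ≤ Real.log X := Real.log_natCast_nonneg X
    have e1 : ∑ p ∈ PR 0 X, Real.log p ^ (k + 1) / p * (Real.log X - Real.log p) ^ (n + 1) =
        Real.log X * ∑ p ∈ PR 0 X, Real.log p ^ (k + 1) / p * (Real.log X - Real.log p) ^ n -
          ∑ p ∈ PR 0 X, Real.log p ^ (k + 1 + 1) / p * (Real.log X - Real.log p) ^ n := by
      rw [mul_sum, ← sum_sub_distrib]
      refine sum_congr rfl fun p _ => ?_
      ring
    obtain ⟨S1, hS1⟩ : ∃ S1 : ℝ, S1 = ∑ p ∈ PR 0 X, Real.log p ^ (k + 1) / p * (Real.log X - Real.log p) ^ n := ⟨_, rfl⟩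
    obtain ⟨S2, hS2⟩ : ∃ S2 : ℝ, S2 = ∑ p ∈ PR 0 X, Real.log p ^ (k + 1 + 1) / p * (Real.log X - Real.log p) ^ n := ⟨_, rfl⟩
    rw [e1, ← hS1, ← hS2]
    rw [← hS1] at g1
    rw [← hS2] at g2
    have e2 : (k.factorial * (n + 1).factorial : ℝ) / (k + (n + 1) + 1).factorial * Real.log X ^ (k + (n + 1) + 1) =
        Real.log X * ((k.factorial * n.factorial : ℝ) / (k + n + 1).factorial * Real.log X ^ (k + n + 1)) -
        ((k + 1).factorial * n.factorial : ℝ) / (k + 1 + n + 1).factorial * Real.log X ^ (k + 1 + n + 1) := by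
      have e3 : k + (n + 1) + 1 = k + n + 1 + 1 := by omega
      have e4 : k + 1 + n + 1 = k + n + 1 + 1 := by omega
      rw [e3, e4, Nat.factorial_succ (k + n + 1), Nat.factorial_succ n, Nat.factorial_succ k]
      push_cast
      have h3 : ((k + n + 1).factorial : ℝ) ≠ 0 := by exact_mod_cast (k + n + 1).factorial_ne_zero
      have h4 : (k : ℝ) + n + 1 + 1 ≠ 0 := by positivity
      rw [pow_succ (Real.log X) (k + n + 1)]
      field_simp
      ring
    rw [e2]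
    have e5 : Real.log X * S1 - S2 - (Real.log X * ((k.factorial * n.factorial : ℝ) / (k + n + 1).factorial * Real.log X ^ (k + n + 1)) -
        ((k + 1).factorial * n.factorial : ℝ) / (k + 1 + n + 1).factorial * Real.log X ^ (k + 1 + n + 1)) =
        Real.log X * (S1 - (k.factorial * n.factorial : ℝ) / (k + n + 1).factorial * Real.log X ^ (k + n + 1)) -
        (S2 - ((k + 1).factorial * n.factorial : ℝ) / (k + 1 + n + 1).factorial * Real.log X ^ (k + 1 + n + 1)) := by ring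
    rw [e5]
    refine (abs_sub _ _).trans ?_
    rw [abs_mul, abs_of_nonneg hlX]
    have g3 : Real.log X * |S1 - (k.factorial * n.factorial : ℝ) / (k + n + 1).factorial * Real.log X ^ (k + n + 1)| ≤
        (1 + Real.log X) * (C1 * (1 + Real.log X) ^ (k + n)) :=
      mul_le_mul (by linarith) g1 (abs_nonneg _) (by linarith)
    have e6 : (1 + Real.log X) ^ (k + 1 + n) = (1 + Real.log X) ^ (k + (n + 1)) := by
      congr 1
      omega
    have e7 : (1 + Real.log X) * (C1 * (1 + Real.log X) ^ (k + n)) = C1 * (1 + Real.log X) ^ (k + (n + 1)) := by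
      rw [← add_assoc, pow_succ]
      ring
    rw [e6] at g2
    rw [e7] at g3
    linarith

end Pool.Agent.H528.Mn
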