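import Mathlib
import Pool.Agent.H528.Gam

/-! The algebra of the moments: the ideal generated by `Λ₂`. -/

set_option autoImplicit false

namespace Pool.Agent.H528.Mo

open Finset
open Pool.Agent.H528.Gam (SS SS_empty SS_insert SS_one SS_two SS_three)

/-- the moments: the sum of `∏ a(p_i) ^ (k_i + 1)` over the orderings `p_1, …, p_r` of `P` -/
noncomputable def M (a : ℕ → ℝ) : List ℕ → Finset ℕ → ℝ
  | [], P => if P = ∅ then 1 else 0
  | k :: l, P => ∑ p ∈ P, a p ^ (k + 1) * M a l (P.erase p)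

lemma M_nonneg {a : ℕ → ℝ} (ha : ∀ p, 0 ≤ a p) (l : List ℕ) : ∀ P, 0 ≤ M a l P := by
  induction l with
  | nil =>
    intro P
    unfold M
    split_ifs <;> norm_num
  | cons k l ih =>
    intro P
    unfold M
    exact sum_nonneg fun p _ => mul_nonneg (pow_nonneg (ha p) _) (ih _)

lemma sum_erase_le {a : ℕ → ℝ} (ha : ∀ p, 0 ≤ a p) (P : Finset ℕ) (p : ℕ) : ∑ q ∈ P.erase p, a q ≤ ∑ q ∈ P, a q :=
  sum_le_sum_of_subset_of_nonneg (erase_subset _ _) fun q _ _ => ha q

lemma a_le {a : ℕ → ℝ} (ha : ∀ p, 0 ≤ a p) {P : Finset ℕ} {p : ℕ} (hp : p ∈ P) : a p ≤ ∑ q ∈ P, a q :=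
  single_le_sum (fun q _ => ha q) hp

lemma M_le {a : ℕ → ℝ} (ha : ∀ p, 0 ≤ a p) (l : List ℕ) : ∀ P, ∑ q ∈ P, a q ≤ 2 → M a l P ≤ 2 ^ (l.length + l.sum) := by
  induction l with
  | nil =>
    intro P _
    unfold M
    split_ifs <;> norm_num
  | cons k l ih =>
    intro P hP
    unfold M
    have h1 : ∀ p ∈ P, a p ^ (k + 1) * M a l (P.erase p) ≤ a p * (2 ^ k * 2 ^ (l.length + l.sum)) := by
      intro p hp
      have h2 : a p ≤ 2 := (a_le ha hp).trans hP
      have h3 : a p ^ k ≤ 2 ^ k := pow_le_pow_left₀ (ha p) h2 k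
      have h4 := ih (P.erase p) ((sum_erase_le ha P p).trans hP)
      rw [pow_succ, mul_comm (a p ^ k), mul_assoc]
      apply mul_le_mul_of_nonneg_left _ (ha p)
      exact mul_le_mul h3 h4 (M_nonneg ha l _) (by positivity)
    refine (sum_le_sum h1).trans ?_
    rw [← sum_mul]
    calc (∑ p ∈ P, a p) * (2 ^ k * 2 ^ (l.length + l.sum)) ≤ 2 * (2 ^ k * 2 ^ (l.length + l.sum)) :=
          mul_le_mul_of_nonneg_right hP (by positivity)
      _ = 2 ^ ((k :: l).length + (k :: l).sum) := by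
          rw [List.length_cons, List.sum_cons]
          ring

/-- sums over subsets with a marked element -/
lemma sum_marked (T : Finset ℕ) (g : ℕ → Finset ℕ → ℝ) :
    ∑ A ∈ T.powerset, ∑ p ∈ A, g p (A.erase p) = ∑ p ∈ T, ∑ A ∈ (T.erase p).powerset, g p A := by
  rw [sum_sigma', sum_sigma']
  apply sum_nbij' (fun x => ⟨x.2, x.1.erase x.2⟩) (fun x => ⟨insert x.1 x.2, x.1⟩)
  · rintro ⟨A, p⟩ h
    rw [mem_sigma, mem_powerset] at h
    rw [mem_sigma, mem_powerset]
    exact ⟨h.1 h.2, erase_subset_erase _ h.1⟩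
  · rintro ⟨p, A⟩ h
    rw [mem_sigma, mem_powerset] at h
    rw [mem_sigma, mem_powerset]
    refine ⟨?_, mem_insert_self _ _⟩
    exact insert_subset h.1 (h.2.trans (erase_subset _ _))
  · rintro ⟨A, p⟩ h
    rw [mem_sigma, mem_powerset] at h
    simp only [insert_erase h.2]
  · rintro ⟨p, A⟩ h
    rw [mem_sigma, mem_powerset] at h
    have h1 : p ∉ A := fun hp => (mem_erase.1 (h.2 hp)).1 rfl
    simp only [erase_insert h1]
  · rintro ⟨A, p⟩ _
    rfl

lemma sum_M_le {a : ℕ → ℝ} (ha : ∀ p, 0 ≤ a p) (l : List ℕ) :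
    ∀ T : Finset ℕ, ∑ q ∈ T, a q ≤ 2 → ∑ A ∈ T.powerset, M a l A ≤ 2 ^ (l.length + l.sum) := by
  induction l with
  | nil =>
    intro T _
    unfold M
    rw [sum_ite_eq', if_pos (empty_mem_powerset T)]
    norm_num
  | cons k l ih =>
    intro T hT
    unfold M
    rw [sum_marked T (fun p A => a p ^ (k + 1) * M a l A)]
    have h1 : ∀ p ∈ T, ∑ A ∈ (T.erase p).powerset, a p ^ (k + 1) * M a l A ≤ a p * (2 ^ k * 2 ^ (l.length + l.sum)) := by
      intro p hp
      rw [← mul_sum]
      have h2 : a p ≤ 2 := (a_le ha hp).trans hT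
      have h3 : a p ^ k ≤ 2 ^ k := pow_le_pow_left₀ (ha p) h2 k
      have h4 := ih (T.erase p) ((sum_erase_le ha T p).trans hT)
      rw [pow_succ, mul_comm (a p ^ k), mul_assoc]
      apply mul_le_mul_of_nonneg_left _ (ha p)
      exact mul_le_mul h3 h4 (sum_nonneg fun A _ => M_nonneg ha l _) (by positivity)
    refine (sum_le_sum h1).trans ?_
    rw [← sum_mul]
    calc (∑ p ∈ T, a p) * (2 ^ k * 2 ^ (l.length + l.sum)) ≤ 2 * (2 ^ k * 2 ^ (l.length + l.sum)) :=
          mul_le_mul_of_nonneg_right hT (by positivity)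
      _ = 2 ^ ((k :: l).length + (k :: l).sum) := by
          rw [List.length_cons, List.sum_cons]
          ring

/-- double sums over pairs are symmetric -/
lemma pair_symm (P : Finset ℕ) (g : ℕ → ℕ → ℝ) :
    ∑ p ∈ P, ∑ q ∈ P.erase p, g p q = ∑ p ∈ P, ∑ q ∈ P.erase p, g q p := by
  rw [sum_comm' (t' := P) (s' := fun q => P.erase q)]
  intro x y
  rw [mem_erase, mem_erase]
  constructor
  · rintro ⟨h1, h2, h3⟩
    exact ⟨⟨fun h => h2 h.symm, h1⟩, h3⟩
  · rintro ⟨⟨h1, h2⟩, h3⟩
    exact ⟨h2, fun h => h1 h.symm, h3⟩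

lemma M_two (a : ℕ → ℝ) (k j : ℕ) (l : List ℕ) (P : Finset ℕ) :
    M a (k :: j :: l) P = ∑ p ∈ P, ∑ q ∈ P.erase p, a p ^ (k + 1) * (a q ^ (j + 1) * M a l ((P.erase p).erase q)) := by
  simp only [M, mul_sum]

lemma M_swap (a : ℕ → ℝ) (k j : ℕ) (l : List ℕ) (P : Finset ℕ) : M a (k :: j :: l) P = M a (j :: k :: l) P := by
  rw [M_two, M_two, pair_symm]
  refine sum_congr rfl fun p _ => sum_congr rfl fun q _ => ?_
  rw [erase_right_comm]
  ring

lemma M_perm (a : ℕ → ℝ) {l l' : List ℕ} (h : l.Perm l') : ∀ P, M a l P = M a l' P := by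
  induction h with
  | nil => intro P; rfl
  | cons k _ ih =>
    intro P
    simp only [M]
    exact sum_congr rfl fun p _ => by rw [ih]
  | swap k j l => intro P; exact M_swap a j k l P
  | trans _ _ ih1 ih2 => intro P; rw [ih1, ih2]

/-- the sums over the subsets whose complement has two elements -/
lemma sum_card_two (P : Finset ℕ) (g : Finset ℕ → ℝ) :
    ∑ p ∈ P, ∑ q ∈ P.erase p, g {p, q} = 2 * ∑ B ∈ P.powersetCard 2, g B := by
  induction P using Finset.induction_on with
  | empty =>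
    rw [powersetCard_eq_empty.2 (by simp)]
    simp
  | insert x P hx ih =>
    rw [sum_insert hx, erase_insert hx]
    have h1 : ∀ p ∈ P, ∑ q ∈ (insert x P).erase p, g {p, q} = g {p, x} + ∑ q ∈ P.erase p, g {p, q} := by
      intro p hp
      have hpx : x ≠ p := fun h => hx (h ▸ hp)
      rw [erase_insert_of_ne hpx, sum_insert (fun h => hx (mem_of_mem_erase h))]
    rw [sum_congr rfl h1, sum_add_distrib, ih]
    have h2 : powersetCard 2 (insert x P) = powersetCard 2 P ∪ (powersetCard 1 P).image (insert x) :=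
      powersetCard_succ_insert hx 1
    have h3 : Disjoint (powersetCard 2 P) ((powersetCard 1 P).image (insert x)) := by
      rw [disjoint_left]
      intro B hB hB'
      rw [mem_image] at hB'
      obtain ⟨C, _, rfl⟩ := hB'
      rw [mem_powersetCard] at hB
      exact hx (hB.1 (mem_insert_self _ _))
    have h4 : ∑ B ∈ (powersetCard 1 P).image (insert x), g B = ∑ q ∈ P, g {x, q} := by
      rw [sum_image]
      · rw [powersetCard_one, sum_map]
        rfl
      · intro B hB C hC h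
        rw [mem_coe, mem_powersetCard] at hB hC
        have hB' : x ∉ B := fun h => hx (hB.1 h)
        have hC' : x ∉ C := fun h => hx (hC.1 h)
        rw [← erase_insert hB', ← erase_insert hC', h]
    rw [h2, sum_union h3, h4]
    have h5 : ∑ p ∈ P, g {p, x} = ∑ q ∈ P, g {x, q} := sum_congr rfl fun p _ => by rw [pair_comm]
    rw [h5]
    ring

/-- the weights in the ideal -/
noncomputable def WH (a : ℕ → ℝ) (H : Finset ℕ → ℝ) (P : Finset ℕ) : ℝ :=
  ∑ A ∈ P.powerset, H A * SS (P \ A) a (1 - ∑ p ∈ A, a p)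

/-- explicit formula -/
lemma WH_eq (a : ℕ → ℝ) (H : Finset ℕ → ℝ) (P : Finset ℕ) :
    WH a H P = H P * (1 - ∑ p ∈ P, a p) ^ 2 +
      ∑ q ∈ P, H (P.erase q) * (2 * a q * (1 - ∑ p ∈ P.erase q, a p) - a q ^ 2) +
      ∑ p ∈ P, ∑ q ∈ P.erase p, H ((P.erase p).erase q) * (a p * a q) := by
  unfold WH
  -- complements
  have h1 : ∑ A ∈ P.powerset, H A * SS (P \ A) a (1 - ∑ p ∈ A, a p) =
      ∑ B ∈ P.powerset, H (P \ B) * SS B a (1 - ∑ p ∈ P \ B, a p) := by
    apply sum_nbij' (fun A => P \ A) (fun B => P \ B)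
    · intro A _
      rw [mem_powerset]
      exact sdiff_subset
    · intro A _
      rw [mem_powerset]
      exact sdiff_subset
    · intro A hA
      exact Finset.sdiff_sdiff_eq_self (mem_powerset.1 hA)
    · intro A hA
      exact Finset.sdiff_sdiff_eq_self (mem_powerset.1 hA)
    · intro A hA
      rw [Finset.sdiff_sdiff_eq_self (mem_powerset.1 hA)]
  rw [h1]
  have h2 : ∑ B ∈ P.powerset, H (P \ B) * SS B a (1 - ∑ p ∈ P \ B, a p) =
      ∑ B ∈ P.powerset.filter (fun B => B.card ≤ 2), H (P \ B) * SS B a (1 - ∑ p ∈ P \ B, a p) := by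
    rw [sum_filter]
    refine sum_congr rfl fun B _ => ?_
    split_ifs with h
    · rfl
    · rw [SS_three (by omega), mul_zero]
  have h3 : P.powerset.filter (fun B => B.card ≤ 2) = (P.powersetCard 0 ∪ P.powersetCard 1) ∪ P.powersetCard 2 := by
    ext B
    rw [mem_filter, mem_union, mem_union, mem_powerset, mem_powersetCard, mem_powersetCard, mem_powersetCard]
    constructor
    · rintro ⟨h1, h2⟩
      have : B.card = 0 ∨ B.card = 1 ∨ B.card = 2 := by omega
      rcases this with h | h | h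
      · exact Or.inl (Or.inl ⟨h1, h⟩)
      · exact Or.inl (Or.inr ⟨h1, h⟩)
      · exact Or.inr ⟨h1, h⟩
    · rintro ((⟨h1, h2⟩ | ⟨h1, h2⟩) | ⟨h1, h2⟩) <;> exact ⟨h1, by omega⟩
  have hd1 : Disjoint (P.powersetCard 0) (P.powersetCard 1) := by
    rw [disjoint_left]
    intro B h1 h2
    rw [mem_powersetCard] at h1 h2
    omega
  have hd2 : Disjoint (P.powersetCard 0 ∪ P.powersetCard 1) (P.powersetCard 2) := by
    rw [disjoint_left]
    intro B h1 h2
    rw [mem_union, mem_powersetCard, mem_powersetCard] at h1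
    rw [mem_powersetCard] at h2
    omega
  rw [h2, h3, sum_union hd2, sum_union hd1]
  congr 1
  · congr 1
    · rw [powersetCard_zero, sum_singleton, sdiff_empty, SS_empty]
    · rw [powersetCard_one, sum_map]
      refine sum_congr rfl fun q _ => ?_
      show H (P \ {q}) * SS {q} a (1 - ∑ p ∈ P \ {q}, a p) = _
      rw [sdiff_singleton_eq_erase, SS_one]
  · have h5 := sum_card_two P (fun B => H (P \ B) * SS B a (1 - ∑ p ∈ P \ B, a p))
    have h6 : ∑ p ∈ P, ∑ q ∈ P.erase p, H (P \ {p, q}) * SS {p, q} a (1 - ∑ r ∈ P \ {p, q}, a r) =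
        2 * ∑ p ∈ P, ∑ q ∈ P.erase p, H ((P.erase p).erase q) * (a p * a q) := by
      rw [mul_sum]
      refine sum_congr rfl fun p _ => ?_
      rw [mul_sum]
      refine sum_congr rfl fun q hq => ?_
      have hpq : p ≠ q := fun h => (mem_erase.1 hq).1 h.symm
      rw [SS_two hpq]
      have e : P \ {p, q} = (P.erase p).erase q := by
        ext r
        rw [Finset.mem_sdiff, mem_insert, mem_singleton, mem_erase, mem_erase]
        tauto
      rw [e]
      ring
    rw [h6] at h5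
    linarith

end Pool.Agent.H528.Mo
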