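import Mathlib
import Pool.Agent.H528.Mo

/-! The algebra of the moments: reduction of all moments modulo the ideal generated by `Λ₂`. -/

set_option autoImplicit false

namespace Pool.Agent.H528.Mo

open Finset
open Pool.Agent.H528.Gam (SS SS_empty SS_insert SS_one SS_two SS_three)

/-- membership in the ideal -/
def IsK (a : ℕ → ℝ) (B : ℝ) (F : Finset ℕ → ℝ) : Prop := ∃ H : Finset ℕ → ℝ,
  (∀ T : Finset ℕ, ∑ q ∈ T, a q ≤ 2 → ∑ A ∈ T.powerset, |H A| ≤ B) ∧
  ∀ θ : ℝ, 0 ≤ θ → θ ≤ 1 → ∀ P : Finset ℕ, |∑ q ∈ P, a q - 1| ≤ θ → |F P - WH a H P| ≤ B * θ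

lemma WH_smul (a : ℕ → ℝ) (c : ℝ) (H : Finset ℕ → ℝ) (P : Finset ℕ) : WH a (fun A => c * H A) P = c * WH a H P := by
  unfold WH
  rw [mul_sum]
  exact sum_congr rfl fun A _ => by ring

lemma WH_add (a : ℕ → ℝ) (H H' : Finset ℕ → ℝ) (P : Finset ℕ) :
    WH a (fun A => H A + H' A) P = WH a H P + WH a H' P := by
  unfold WH
  rw [← sum_add_distrib]
  exact sum_congr rfl fun A _ => by ring

lemma IsK_smul {a : ℕ → ℝ} {B : ℝ} {F : Finset ℕ → ℝ} (c : ℝ) (h : IsK a B F) : IsK a (|c| * B) (fun P => c * F P) := by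
  obtain ⟨H, h1, h2⟩ := h
  refine ⟨fun A => c * H A, fun T hT => ?_, fun θ h0 hθ P hP => ?_⟩
  · have e : ∑ A ∈ T.powerset, |c * H A| = |c| * ∑ A ∈ T.powerset, |H A| := by
      rw [mul_sum]
      exact sum_congr rfl fun A _ => abs_mul _ _
    rw [e]
    exact mul_le_mul_of_nonneg_left (h1 T hT) (abs_nonneg c)
  · rw [WH_smul, ← mul_sub, abs_mul, mul_assoc]
    exact mul_le_mul_of_nonneg_left (h2 θ h0 hθ P hP) (abs_nonneg c)

lemma IsK_add {a : ℕ → ℝ} {B B' : ℝ} {F F' : Finset ℕ → ℝ} (h : IsK a B F) (h' : IsK a B' F') :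
    IsK a (B + B') (fun P => F P + F' P) := by
  obtain ⟨H, h1, h2⟩ := h
  obtain ⟨H', h1', h2'⟩ := h'
  refine ⟨fun A => H A + H' A, fun T hT => ?_, fun θ h0 hθ P hP => ?_⟩
  · calc ∑ A ∈ T.powerset, |H A + H' A| ≤ ∑ A ∈ T.powerset, (|H A| + |H' A|) := sum_le_sum fun A _ => abs_add_le _ _
      _ = ∑ A ∈ T.powerset, |H A| + ∑ A ∈ T.powerset, |H' A| := sum_add_distrib
      _ ≤ B + B' := add_le_add (h1 T hT) (h1' T hT)
  · rw [WH_add]
    have e : F P + F' P - (WH a H P + WH a H' P) = (F P - WH a H P) + (F' P - WH a H' P) := by ring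
    rw [e, add_mul]
    exact (abs_add_le _ _).trans (add_le_add (h2 θ h0 hθ P hP) (h2' θ h0 hθ P hP))

lemma IsK_zero (a : ℕ → ℝ) : IsK a 0 (fun _ => 0) := by
  refine ⟨fun _ => 0, fun T _ => by simp, fun θ _ _ P _ => ?_⟩
  have : WH a (fun _ => 0) P = 0 := by
    unfold WH
    exact sum_eq_zero fun A _ => by rw [zero_mul]
  rw [this]
  simp

lemma IsK_sum {ι : Type*} {a : ℕ → ℝ} (s : Finset ι) {B : ι → ℝ} {F : ι → Finset ℕ → ℝ}
    (h : ∀ i ∈ s, IsK a (B i) (F i)) : IsK a (∑ i ∈ s, B i) (fun P => ∑ i ∈ s, F i P) := by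
  classical
  induction s using Finset.induction_on with
  | empty => simpa using IsK_zero a
  | insert i s hi ih =>
    simp only [sum_insert hi]
    exact IsK_add (h i (mem_insert_self _ _)) (ih fun j hj => h j (mem_insert_of_mem hj))

/-- small perturbations -/
lemma IsK_small {a : ℕ → ℝ} {B B' : ℝ} {F F' : Finset ℕ → ℝ} (h : IsK a B F) (hB' : 0 ≤ B')
    (hs : ∀ θ : ℝ, 0 ≤ θ → θ ≤ 1 → ∀ P : Finset ℕ, |∑ q ∈ P, a q - 1| ≤ θ → |F' P - F P| ≤ B' * θ) : IsK a (B + B') F' := by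
  obtain ⟨H, h1, h2⟩ := h
  refine ⟨H, fun T hT => (h1 T hT).trans (by linarith), fun θ h0 hθ P hP => ?_⟩
  have e : F' P - WH a H P = (F' P - F P) + (F P - WH a H P) := by ring
  rw [e, add_mul]
  refine (abs_add_le _ _).trans ?_
  have := hs θ h0 hθ P hP
  have := h2 θ h0 hθ P hP
  linarith

lemma pow_pert (k : ℕ) {u s θ : ℝ} (hu : 0 ≤ u) (hu2 : u ≤ 2) (hs : |s| ≤ θ) (hθ : θ ≤ 1) :
    |(u + s) ^ k - u ^ k| ≤ k * 3 ^ k * θ := by
  have h0 : 0 ≤ θ := (abs_nonneg s).trans hs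
  obtain ⟨s1, s2⟩ := abs_le.1 hs
  have hus : |u + s| ≤ 3 := by rw [abs_le]; constructor <;> linarith
  have hu3 : |u| ≤ 3 := by rw [abs_le]; constructor <;> linarith
  induction k with
  | zero => simp
  | succ k ih =>
    have e : (u + s) ^ (k + 1) - u ^ (k + 1) = ((u + s) ^ k - u ^ k) * (u + s) + u ^ k * s := by ring
    rw [e]
    refine (abs_add_le _ _).trans ?_
    rw [abs_mul, abs_mul, abs_pow]
    have h1 : |(u + s) ^ k - u ^ k| * |u + s| ≤ k * 3 ^ k * θ * 3 := mul_le_mul ih hus (abs_nonneg _) (by positivity)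
    have h2 : |u| ^ k * |s| ≤ 3 ^ k * θ := mul_le_mul (pow_le_pow_left₀ (abs_nonneg _) hu3 k) hs (abs_nonneg _) (by positivity)
    push_cast
    have h3 : (3 : ℝ) ^ k * θ ≤ 3 ^ (k + 1) * θ := by
      apply mul_le_mul_of_nonneg_right _ h0
      exact pow_le_pow_right₀ (by norm_num) (by omega)
    have h4 : ((k : ℝ) + 1) * 3 ^ (k + 1) * θ = k * 3 ^ k * θ * 3 + 3 ^ (k + 1) * θ := by ring
    rw [h4]
    linarith

/-- **the basic relation** -/
lemma rel (k : ℕ) (l : List ℕ) : ∃ B : ℝ, 0 ≤ B ∧ ∀ a : ℕ → ℝ, (∀ p, 0 ≤ a p) →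
    IsK a B (fun P => M a ((k + 1) :: l) P + ∑ j ∈ range (k + 1), (k.choose j : ℝ) * M a (j :: (k - j) :: l) P) := by
  obtain ⟨E, hE⟩ : ∃ E : ℕ, E = l.length + l.sum := ⟨_, rfl⟩
  obtain ⟨D, hD⟩ : ∃ D : ℝ, D = (k * 3 ^ k) * 3 * 2 + 2 * 3 ^ k * 2 + 1 := ⟨_, rfl⟩
  have hD0 : 0 ≤ D := by rw [hD]; positivity
  refine ⟨D * 2 ^ (E + 2) * 3, by positivity, fun a ha => ?_⟩
  refine ⟨fun A => M a l A * (1 - ∑ p ∈ A, a p) ^ k, fun T hT => ?_, fun θ h0 hθ P hP => ?_⟩
  · -- size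
    have h1 : ∀ A ∈ T.powerset, |M a l A * (1 - ∑ p ∈ A, a p) ^ k| ≤ M a l A := by
      intro A hA
      have h2 : ∑ p ∈ A, a p ≤ ∑ p ∈ T, a p := sum_le_sum_of_subset_of_nonneg (mem_powerset.1 hA) fun q _ _ => ha q
      have h3 : 0 ≤ ∑ p ∈ A, a p := sum_nonneg fun p _ => ha p
      have h4 : |(1 - ∑ p ∈ A, a p) ^ k| ≤ 1 := by
        rw [abs_pow]
        apply pow_le_one₀ (abs_nonneg _)
        rw [abs_le]
        constructor <;> linarith
      rw [abs_mul, abs_of_nonneg (M_nonneg ha l A)]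
      calc M a l A * |(1 - ∑ p ∈ A, a p) ^ k| ≤ M a l A * 1 := mul_le_mul_of_nonneg_left h4 (M_nonneg ha l A)
        _ = _ := mul_one _
    refine (sum_le_sum h1).trans ((sum_M_le ha l T hT).trans ?_)
    rw [← hE]
    have h5 : (1 : ℝ) ≤ D := by rw [hD]; have : (0 : ℝ) ≤ (k * 3 ^ k) * 3 * 2 + 2 * 3 ^ k * 2 := by positivity
                                linarith
    have h6 : (2 : ℝ) ^ E ≤ 2 ^ (E + 2) := pow_le_pow_right₀ (by norm_num) (by omega)
    calc (2 : ℝ) ^ E ≤ 2 ^ (E + 2) := h6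
      _ = 1 * 2 ^ (E + 2) * 1 := by ring
      _ ≤ D * 2 ^ (E + 2) * 3 := by gcongr; norm_num
  · -- the identity
    obtain ⟨S, hS⟩ : ∃ S : ℝ, S = ∑ q ∈ P, a q := ⟨_, rfl⟩
    obtain ⟨s, hs⟩ : ∃ s : ℝ, s = 1 - S := ⟨_, rfl⟩
    rw [← hS] at hP
    have hsθ : |s| ≤ θ := by rw [hs, abs_sub_comm]; exact hP
    have hS2 : S ≤ 2 := by linarith [(abs_le.1 hP).2]
    have hS0 : 0 ≤ S := by rw [hS]; exact sum_nonneg fun p _ => ha p
    obtain ⟨s1, s2⟩ := abs_le.1 hsθ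
    have hMl : ∀ Q ⊆ P, 0 ≤ M a l Q ∧ M a l Q ≤ 2 ^ E := by
      intro Q hQ
      refine ⟨M_nonneg ha l Q, ?_⟩
      rw [hE]
      apply M_le ha l Q
      have : ∑ q ∈ Q, a q ≤ ∑ q ∈ P, a q := sum_le_sum_of_subset_of_nonneg hQ fun q _ _ => ha q
      linarith
    have eM : M a ((k + 1) :: l) P = ∑ q ∈ P, a q ^ (k + 1 + 1) * M a l (P.erase q) := rfl
    show |M a ((k + 1) :: l) P + ∑ j ∈ range (k + 1), (k.choose j : ℝ) * M a (j :: (k - j) :: l) P - WH a _ P| ≤ _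
    rw [WH_eq, eM, ← hS]
    -- the second part
    have hsec : ∑ j ∈ range (k + 1), (k.choose j : ℝ) * M a (j :: (k - j) :: l) P =
        ∑ p ∈ P, ∑ q ∈ P.erase p, a p * a q * (a p + a q) ^ k * M a l ((P.erase p).erase q) := by
      have h1 : ∀ j ∈ range (k + 1), (k.choose j : ℝ) * M a (j :: (k - j) :: l) P =
          ∑ p ∈ P, ∑ q ∈ P.erase p, (a p * a q * M a l ((P.erase p).erase q)) * (a p ^ j * a q ^ (k - j) * k.choose j) := by
        intro j _
        rw [M_two, mul_sum]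
        refine sum_congr rfl fun p _ => ?_
        rw [mul_sum]
        refine sum_congr rfl fun q _ => ?_
        ring
      rw [sum_congr rfl h1, sum_comm]
      refine sum_congr rfl fun p _ => ?_
      rw [sum_comm]
      refine sum_congr rfl fun q _ => ?_
      rw [← mul_sum, ← add_pow]
      ring
    rw [hsec]
    have hT1 : |M a l P * (1 - S) ^ k * (1 - S) ^ 2| ≤ 2 ^ E * θ := by
      obtain ⟨m1, m2⟩ := hMl P (subset_refl _)
      rw [← hs, mul_assoc, ← pow_add, abs_mul, abs_pow, abs_of_nonneg m1]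
      have h1 : |s| ^ (k + 2) ≤ θ := by
        calc |s| ^ (k + 2) ≤ θ ^ (k + 2) := pow_le_pow_left₀ (abs_nonneg _) hsθ _
          _ ≤ θ := by
              have := pow_le_pow_of_le_one h0 hθ (show 1 ≤ k + 2 by omega)
              rwa [pow_one] at this
      exact mul_le_mul m2 h1 (by positivity) (by positivity)
    have hT2 : |∑ q ∈ P, a q ^ (k + 1 + 1) * M a l (P.erase q) -
        ∑ q ∈ P, M a l (P.erase q) * (1 - ∑ p ∈ P.erase q, a p) ^ k * (2 * a q * (1 - ∑ p ∈ P.erase q, a p) - a q ^ 2)| ≤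
        (k * 3 ^ k * 3 * 2 + 2 * 3 ^ k * 2) * 2 ^ (E + 1) * θ := by
      rw [← sum_sub_distrib]
      have h1 : ∀ q ∈ P, |a q ^ (k + 1 + 1) * M a l (P.erase q) -
          M a l (P.erase q) * (1 - ∑ p ∈ P.erase q, a p) ^ k * (2 * a q * (1 - ∑ p ∈ P.erase q, a p) - a q ^ 2)| ≤
          a q * ((k * 3 ^ k * 3 * 2 + 2 * 3 ^ k * 2) * 2 ^ E * θ) := by
        intro q hq
        obtain ⟨m1, m2⟩ := hMl (P.erase q) (erase_subset _ _)
        have e1 : 1 - ∑ p ∈ P.erase q, a p = a q + s := by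
          have := add_sum_erase P a hq
          rw [hs, hS]
          linarith
        have haq : 0 ≤ a q := ha q
        have haq2 : a q ≤ 2 := (a_le ha hq).trans (by linarith)
        have hpp := pow_pert k haq haq2 hsθ hθ
        rw [e1]
        have e2 : a q ^ (k + 1 + 1) * M a l (P.erase q) - M a l (P.erase q) * (a q + s) ^ k * (2 * a q * (a q + s) - a q ^ 2) =
            a q * (M a l (P.erase q) * (-(((a q + s) ^ k - a q ^ k) * a q) - 2 * (a q + s) ^ k * s)) := by ring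
        rw [e2, abs_mul, abs_of_nonneg haq]
        apply mul_le_mul_of_nonneg_left _ haq
        rw [abs_mul, abs_of_nonneg m1]
        have h2 : |-(((a q + s) ^ k - a q ^ k) * a q) - 2 * (a q + s) ^ k * s| ≤ (k * 3 ^ k * 3 * 2 + 2 * 3 ^ k * 2) * θ := by
          refine (abs_sub _ _).trans ?_
          rw [abs_neg, abs_mul, abs_of_nonneg haq, abs_mul, abs_mul, abs_of_pos (show (0 : ℝ) < 2 by norm_num), abs_pow]
          have h3 : |(a q + s) ^ k - a q ^ k| * a q ≤ k * 3 ^ k * θ * 2 := mul_le_mul hpp haq2 haq (by positivity)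
          have h4 : |a q + s| ≤ 3 := by rw [abs_le]; constructor <;> linarith
          have h5 : 2 * |a q + s| ^ k * |s| ≤ 2 * 3 ^ k * θ := by
            apply mul_le_mul _ hsθ (abs_nonneg _) (by positivity)
            apply mul_le_mul_of_nonneg_left _ (by norm_num)
            exact pow_le_pow_left₀ (abs_nonneg _) h4 k
          have h6 : 0 ≤ (k : ℝ) * 3 ^ k * θ := by positivity
          have h7 : 0 ≤ (3 : ℝ) ^ k * θ := by positivity
          nlinarith
        calc M a l (P.erase q) * |-(((a q + s) ^ k - a q ^ k) * a q) - 2 * (a q + s) ^ k * s| ≤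
              2 ^ E * ((k * 3 ^ k * 3 * 2 + 2 * 3 ^ k * 2) * θ) := mul_le_mul m2 h2 (abs_nonneg _) (by positivity)
          _ = _ := by ring
      refine (abs_sum_le_sum_abs _ _).trans ((sum_le_sum h1).trans ?_)
      rw [← sum_mul, ← hS]
      calc S * ((k * 3 ^ k * 3 * 2 + 2 * 3 ^ k * 2) * 2 ^ E * θ) ≤ 2 * ((k * 3 ^ k * 3 * 2 + 2 * 3 ^ k * 2) * 2 ^ E * θ) :=
            mul_le_mul_of_nonneg_right hS2 (by positivity)
        _ = _ := by ring
    have hT3 : |∑ p ∈ P, ∑ q ∈ P.erase p, a p * a q * (a p + a q) ^ k * M a l ((P.erase p).erase q) -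
        ∑ p ∈ P, ∑ q ∈ P.erase p, M a l ((P.erase p).erase q) * (1 - ∑ r ∈ (P.erase p).erase q, a r) ^ k * (a p * a q)| ≤
        k * 3 ^ k * 2 ^ (E + 2) * θ := by
      rw [← sum_sub_distrib]
      have h1 : ∀ p ∈ P, |∑ q ∈ P.erase p, a p * a q * (a p + a q) ^ k * M a l ((P.erase p).erase q) -
          ∑ q ∈ P.erase p, M a l ((P.erase p).erase q) * (1 - ∑ r ∈ (P.erase p).erase q, a r) ^ k * (a p * a q)| ≤
          a p * (k * 3 ^ k * 2 ^ (E + 1) * θ) := by
        intro p hp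
        rw [← sum_sub_distrib]
        have h2 : ∀ q ∈ P.erase p, |a p * a q * (a p + a q) ^ k * M a l ((P.erase p).erase q) -
            M a l ((P.erase p).erase q) * (1 - ∑ r ∈ (P.erase p).erase q, a r) ^ k * (a p * a q)| ≤
            a q * (a p * (k * 3 ^ k * 2 ^ E * θ)) := by
          intro q hq
          obtain ⟨m1, m2⟩ := hMl ((P.erase p).erase q) ((erase_subset _ _).trans (erase_subset _ _))
          have e1 : 1 - ∑ r ∈ (P.erase p).erase q, a r = (a p + a q) + s := by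
            have h3 := add_sum_erase P a hp
            have h4 := add_sum_erase (P.erase p) a hq
            rw [hs, hS]
            linarith
          have hpq2 : a p + a q ≤ 2 := by
            have h3 := add_sum_erase P a hp
            have h4 := a_le ha hq
            linarith
          have hpp := pow_pert k (add_nonneg (ha p) (ha q)) hpq2 hsθ hθ
          rw [e1]
          have e2 : a p * a q * (a p + a q) ^ k * M a l ((P.erase p).erase q) -
              M a l ((P.erase p).erase q) * (a p + a q + s) ^ k * (a p * a q) =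
              a q * (a p * (M a l ((P.erase p).erase q) * (-((a p + a q + s) ^ k - (a p + a q) ^ k)))) := by ring
          rw [e2, abs_mul, abs_of_nonneg (ha q), abs_mul, abs_of_nonneg (ha p)]
          apply mul_le_mul_of_nonneg_left _ (ha q)
          apply mul_le_mul_of_nonneg_left _ (ha p)
          rw [abs_mul, abs_of_nonneg m1, abs_neg]
          calc M a l ((P.erase p).erase q) * |(a p + a q + s) ^ k - (a p + a q) ^ k| ≤ 2 ^ E * (k * 3 ^ k * θ) :=
                mul_le_mul m2 hpp (abs_nonneg _) (by positivity)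
            _ = _ := by ring
        refine (abs_sum_le_sum_abs _ _).trans ((sum_le_sum h2).trans ?_)
        rw [← sum_mul]
        have h3 : ∑ q ∈ P.erase p, a q ≤ 2 := (sum_erase_le ha P p).trans (by linarith)
        have h4 : 0 ≤ a p * (k * 3 ^ k * 2 ^ E * θ) := mul_nonneg (ha p) (by positivity)
        calc (∑ q ∈ P.erase p, a q) * (a p * (k * 3 ^ k * 2 ^ E * θ)) ≤ 2 * (a p * (k * 3 ^ k * 2 ^ E * θ)) :=
              mul_le_mul_of_nonneg_right h3 h4
          _ = _ := by ring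
      refine (abs_sum_le_sum_abs _ _).trans ((sum_le_sum h1).trans ?_)
      rw [← sum_mul, ← hS]
      calc S * (k * 3 ^ k * 2 ^ (E + 1) * θ) ≤ 2 * (k * 3 ^ k * 2 ^ (E + 1) * θ) :=
            mul_le_mul_of_nonneg_right hS2 (by positivity)
        _ = _ := by ring
    obtain ⟨a1, a2⟩ := abs_le.1 hT1
    obtain ⟨a3, a4⟩ := abs_le.1 hT2
    obtain ⟨a5, a6⟩ := abs_le.1 hT3
    have hfin : 2 ^ E * θ + (k * 3 ^ k * 3 * 2 + 2 * 3 ^ k * 2) * 2 ^ (E + 1) * θ + k * 3 ^ k * 2 ^ (E + 2) * θ ≤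
        D * 2 ^ (E + 2) * 3 * θ := by
      have e1 : (2 : ℝ) ^ (E + 1) = 2 * 2 ^ E := by rw [pow_succ]; ring
      have e2 : (2 : ℝ) ^ (E + 2) = 4 * 2 ^ E := by rw [pow_succ, pow_succ]; ring
      rw [e1, e2, hD]
      obtain ⟨Y, hY⟩ : ∃ Y : ℝ, Y = 2 ^ E * θ := ⟨_, rfl⟩
      have hY0 : 0 ≤ Y := by rw [hY]; positivity
      obtain ⟨K, hK⟩ : ∃ K : ℝ, K = (k : ℝ) * 3 ^ k := ⟨_, rfl⟩
      have hK0 : 0 ≤ K := by rw [hK]; positivity
      obtain ⟨J, hJ⟩ : ∃ J : ℝ, J = (3 : ℝ) ^ k := ⟨_, rfl⟩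
      have hJ0 : 0 ≤ J := by rw [hJ]; positivity
      rw [← hK, ← hJ]
      have e3 : 2 ^ E * θ + (K * 3 * 2 + 2 * J * 2) * (2 * 2 ^ E) * θ + K * (4 * 2 ^ E) * θ =
        Y + (K * 3 * 2 + 2 * J * 2) * 2 * Y + K * 4 * Y := by rw [hY]; ring
      have e4 : (K * 3 * 2 + 2 * J * 2 + 1) * (4 * 2 ^ E) * 3 * θ = (K * 3 * 2 + 2 * J * 2 + 1) * 12 * Y := by rw [hY]; ring
      rw [e3, e4]
      have g1 : 0 ≤ K * Y := mul_nonneg hK0 hY0
      have g2 : 0 ≤ J * Y := mul_nonneg hJ0 hY0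
      nlinarith
    refine le_trans ?_ hfin
    rw [abs_le]
    constructor <;> linarith

end Pool.Agent.H528.Mo
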