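import Mathlib
import Pool.Agent.H528.MoB

/-! The algebra of the moments: all moments are multiples of the indicator of the primes. -/

set_option autoImplicit false

namespace Pool.Agent.H528.Mo

open Finset
open Pool.Agent.H528.Gam (SS SS_empty SS_insert SS_one SS_two SS_three)

/-- the product of the factorials -/
def fct (l : List ℕ) : ℕ := (l.map Nat.factorial).prod

lemma fct_cons (k : ℕ) (l : List ℕ) : fct (k :: l) = k.factorial * fct l := by
  unfold fct
  rw [List.map_cons, List.prod_cons]

lemma fct_perm {l l' : List ℕ} (h : l.Perm l') : fct l = fct l' := (h.map _).prod_eq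

lemma zeros_of_sum {l : List ℕ} (h : l.sum = 0) : l = List.replicate l.length 0 := by
  rw [List.eq_replicate_iff]
  refine ⟨rfl, fun x hx => ?_⟩
  have := List.le_sum_of_mem hx
  omega

lemma fct_zeros (n : ℕ) : fct (List.replicate n 0) = 1 := by
  unfold fct
  rw [List.map_replicate, List.prod_replicate]
  simp

/-- **reduction to the exponents zero** -/
lemma red (E : ℕ) : ∀ l : List ℕ, l.sum = E → ∃ B : ℝ, 0 ≤ B ∧ ∀ a : ℕ → ℝ, (∀ p, 0 ≤ a p) →
    IsK a B (fun P => M a l P - (-1) ^ E * fct l * M a (List.replicate (l.length + E) 0) P) := by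
  induction E with
  | zero =>
    intro l hl
    refine ⟨0, le_rfl, fun a _ => ?_⟩
    have h1 : (fun P => M a l P - (-1) ^ 0 * fct l * M a (List.replicate (l.length + 0) 0) P) = fun _ => 0 := by
      funext P
      have h2 := zeros_of_sum hl
      have h3 : fct l = 1 := by rw [h2, fct_zeros]
      rw [h3, add_zero, ← h2]
      push_cast
      ring
    rw [h1]
    exact IsK_zero a
  | succ E ih =>
    intro l hl
    obtain ⟨k, hk, hk1⟩ : ∃ k ∈ l, 1 ≤ k := by
      by_contra hcon
      push Not at hcon
      have : l.sum = 0 := by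
        rw [List.sum_eq_zero_iff]
        intro x hx
        have := hcon x hx
        omega
      omega
    obtain ⟨j, rfl⟩ : ∃ j, k = j + 1 := ⟨k - 1, by omega⟩
    obtain ⟨l', hl'⟩ : ∃ l', l' = l.erase (j + 1) := ⟨_, rfl⟩
    have hperm : l.Perm ((j + 1) :: l') := by rw [hl']; exact List.perm_cons_erase hk
    have hlen : l.length = l'.length + 1 := by rw [hperm.length_eq, List.length_cons]
    have hsum : (j + 1) + l'.sum = E + 1 := by rw [← hl, hperm.sum_eq, List.sum_cons]
    have hf : fct l = (j + 1).factorial * fct l' := by rw [fct_perm hperm, fct_cons]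
    obtain ⟨B0, hB0, hrel⟩ := rel j l'
    have hih : ∀ i : ℕ, i ∈ range (j + 1) → ∃ B : ℝ, 0 ≤ B ∧ ∀ a : ℕ → ℝ, (∀ p, 0 ≤ a p) →
        IsK a B (fun P => M a (i :: (j - i) :: l') P -
          (-1) ^ E * (i.factorial * ((j - i).factorial * fct l') : ℕ) * M a (List.replicate (l.length + (E + 1)) 0) P) := by
      intro i hi
      rw [mem_range] at hi
      obtain ⟨B, hB, h⟩ := ih (i :: (j - i) :: l') (by rw [List.sum_cons, List.sum_cons]; omega)
      refine ⟨B, hB, fun a ha => ?_⟩
      have h1 := h a ha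
      have e1 : (i :: (j - i) :: l').length + E = l.length + (E + 1) := by
        rw [List.length_cons, List.length_cons, hlen]; omega
      rw [e1, fct_cons, fct_cons] at h1
      exact h1
    choose! B hB hBK using hih
    refine ⟨B0 + ∑ i ∈ range (j + 1), |(-(j.choose i : ℝ))| * B i,
      add_nonneg hB0 (sum_nonneg fun i hi => mul_nonneg (abs_nonneg _) (hB i hi)), fun a ha => ?_⟩
    have h1 := hrel a ha
    have h2 := IsK_sum (a := a) (range (j + 1)) (fun i hi => IsK_smul (-(j.choose i : ℝ)) (hBK i hi a ha))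
    have h3 := IsK_add h1 h2
    have e : (fun P => M a l P - (-1) ^ (E + 1) * fct l * M a (List.replicate (l.length + (E + 1)) 0) P) =
        (fun P => (M a ((j + 1) :: l') P + ∑ i ∈ range (j + 1), (j.choose i : ℝ) * M a (i :: (j - i) :: l') P) +
          ∑ i ∈ range (j + 1), (-(j.choose i : ℝ)) * (M a (i :: (j - i) :: l') P -
          (-1) ^ E * (i.factorial * ((j - i).factorial * fct l') : ℕ) * M a (List.replicate (l.length + (E + 1)) 0) P)) := by
      funext P
      rw [M_perm a hperm P, hf]
      obtain ⟨X, hX⟩ : ∃ X : ℝ, X = M a (List.replicate (l.length + (E + 1)) 0) P := ⟨_, rfl⟩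
      rw [← hX]
      have h4 : ∀ i ∈ range (j + 1), (-(j.choose i : ℝ)) * (M a (i :: (j - i) :: l') P -
          (-1) ^ E * (i.factorial * ((j - i).factorial * fct l') : ℕ) * X) =
          -((j.choose i : ℝ) * M a (i :: (j - i) :: l') P) + (-1) ^ E * (j.factorial * fct l' : ℕ) * X := by
        intro i hi
        rw [mem_range] at hi
        have h5 : (j.choose i * i.factorial * (j - i).factorial : ℕ) = j.factorial :=
          Nat.choose_mul_factorial_mul_factorial (by omega)
        have h6 : (j.choose i : ℝ) * i.factorial * (j - i).factorial = j.factorial := by exact_mod_cast h5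
        push_cast
        calc _ = -((j.choose i : ℝ) * M a (i :: (j - i) :: l') P) +
              (-1) ^ E * (((j.choose i : ℝ) * i.factorial * (j - i).factorial) * fct l') * X := by ring
          _ = _ := by rw [h6]
      rw [sum_congr rfl h4, sum_add_distrib, sum_neg_distrib, sum_const, card_range, nsmul_eq_mul]
      push_cast [Nat.factorial_succ]
      ring
    rw [e]
    exact h3

lemma deriv (a : ℕ → ℝ) (n : ℕ) : ∀ P : Finset ℕ,
    (∑ q ∈ P, a q) * M a (List.replicate (n + 1) 0) P = (n + 1) * M a (1 :: List.replicate n 0) P := by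
  induction n with
  | zero =>
    intro P
    rw [List.replicate_succ, List.replicate_zero]
    simp only [M, mul_sum]
    refine sum_congr rfl fun p hp => ?_
    split_ifs with h
    · have h1 := add_sum_erase P a hp
      rw [h, sum_empty, add_zero] at h1
      rw [← h1]
      push_cast
      ring
    · ring
  | succ n ih =>
    intro P
    have e1 : M a (List.replicate (n + 1 + 1) 0) P = ∑ p ∈ P, a p ^ (0 + 1) * M a (List.replicate (n + 1) 0) (P.erase p) := by
      rw [List.replicate_succ]
      rfl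
    have e2 : M a (1 :: List.replicate (n + 1) 0) P = ∑ p ∈ P, a p ^ (1 + 1) * M a (List.replicate (n + 1) 0) (P.erase p) := rfl
    have e3 : M a (0 :: 1 :: List.replicate n 0) P = ∑ p ∈ P, a p ^ (0 + 1) * M a (1 :: List.replicate n 0) (P.erase p) := rfl
    have e4 : M a (1 :: List.replicate (n + 1) 0) P = M a (0 :: 1 :: List.replicate n 0) P := by
      rw [List.replicate_succ, M_swap]
    have h1 : (∑ q ∈ P, a q) * M a (List.replicate (n + 1 + 1) 0) P =
        M a (1 :: List.replicate (n + 1) 0) P + (n + 1) * M a (0 :: 1 :: List.replicate n 0) P := by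
      rw [e1, e2, e3, mul_sum, mul_sum, ← sum_add_distrib]
      refine sum_congr rfl fun p hp => ?_
      have h2 := add_sum_erase P a hp
      have h3 := ih (P.erase p)
      rw [← h2]
      calc (a p + ∑ q ∈ P.erase p, a q) * (a p ^ (0 + 1) * M a (List.replicate (n + 1) 0) (P.erase p)) =
            a p ^ (1 + 1) * M a (List.replicate (n + 1) 0) (P.erase p) +
            a p ^ (0 + 1) * ((∑ q ∈ P.erase p, a q) * M a (List.replicate (n + 1) 0) (P.erase p)) := by ring
        _ = _ := by rw [h3]; ring
    rw [h1, e4]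
    push_cast
    ring

/-- **the exponents zero** -/
lemma zer (n : ℕ) : ∃ B : ℝ, 0 ≤ B ∧ ∀ a : ℕ → ℝ, (∀ p, 0 ≤ a p) →
    IsK a B (fun P => M a (List.replicate (n + 1) 0) P - (-1) ^ n / n.factorial * M a [0] P) := by
  induction n with
  | zero =>
    refine ⟨0, le_rfl, fun a _ => ?_⟩
    have h1 : (fun P => M a (List.replicate (0 + 1) 0) P - (-1) ^ 0 / (0 : ℕ).factorial * M a [0] P) = fun _ => 0 := by
      funext P
      rw [List.replicate_succ, List.replicate_zero]
      simp
    rw [h1]
    exact IsK_zero a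
  | succ n ih =>
    obtain ⟨B1, hB1, h1⟩ := ih
    obtain ⟨B0, hB0, h0⟩ := rel 0 (List.replicate n 0)
    refine ⟨B0 + |(-(1 / ((n : ℝ) + 1)))| * B1 + 2 ^ (n + 1), by positivity, fun a ha => ?_⟩
    have h2 := IsK_add (h0 a ha) (IsK_smul (-(1 / ((n : ℝ) + 1))) (h1 a ha))
    refine IsK_small h2 (by positivity) fun θ hθ0 hθ1 P hP => ?_
    have hd := deriv a n P
    have hn1 : (0 : ℝ) < n + 1 := by positivity
    obtain ⟨S, hS⟩ : ∃ S : ℝ, S = ∑ q ∈ P, a q := ⟨_, rfl⟩
    rw [← hS] at hP hd
    have hS2 : S ≤ 2 := by linarith [(abs_le.1 hP).2]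
    have hM1 : M a (1 :: List.replicate n 0) P = S * M a (List.replicate (n + 1) 0) P / (n + 1) := by
      rw [hd]
      field_simp
    have hMb := M_le ha (List.replicate (n + 1) 0) P (by rw [← hS]; exact hS2)
    have hM0 := M_nonneg ha (List.replicate (n + 1) 0) P
    have e0 : (List.replicate (n + 1) 0).length + (List.replicate (n + 1) 0).sum = n + 1 := by simp
    rw [e0] at hMb
    have e1 : ∑ j ∈ range (0 + 1), ((0 : ℕ).choose j : ℝ) * M a (j :: (0 - j) :: List.replicate n 0) P =
        M a (List.replicate (n + 1 + 1) 0) P := by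
      rw [zero_add, sum_range_one, List.replicate_succ, List.replicate_succ]
      simp
    obtain ⟨Y, hY⟩ : ∃ Y : ℝ, Y = M a (List.replicate (n + 1) 0) P := ⟨_, rfl⟩
    have e2 : M a (List.replicate (n + 1 + 1) 0) P - (-1) ^ (n + 1) / (n + 1).factorial * M a [0] P -
        ((M a ((0 + 1) :: List.replicate n 0) P +
          ∑ j ∈ range (0 + 1), ((0 : ℕ).choose j : ℝ) * M a (j :: (0 - j) :: List.replicate n 0) P) +
          (-(1 / ((n : ℝ) + 1))) * (M a (List.replicate (n + 1) 0) P - (-1) ^ n / n.factorial * M a [0] P)) =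
        (1 - S) * (Y / (n + 1)) := by
      rw [e1, zero_add, hM1, ← hY, Nat.factorial_succ]
      push_cast
      have hf : (n.factorial : ℝ) ≠ 0 := by exact_mod_cast n.factorial_ne_zero
      field_simp
      ring
    show |M a (List.replicate (n + 1 + 1) 0) P - (-1) ^ (n + 1) / (n + 1).factorial * M a [0] P -
        ((M a ((0 + 1) :: List.replicate n 0) P +
          ∑ j ∈ range (0 + 1), ((0 : ℕ).choose j : ℝ) * M a (j :: (0 - j) :: List.replicate n 0) P) +
          (-(1 / ((n : ℝ) + 1))) * (M a (List.replicate (n + 1) 0) P - (-1) ^ n / n.factorial * M a [0] P))| ≤ _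
    rw [e2, abs_mul]
    rw [← hY] at hMb hM0
    have h3 : |1 - S| ≤ θ := by rw [abs_sub_comm]; exact hP
    have h4 : |Y / (n + 1)| ≤ 2 ^ (n + 1) := by
      rw [abs_of_nonneg (by positivity)]
      exact (div_le_self hM0 (by linarith)).trans hMb
    calc |1 - S| * |Y / (n + 1)| ≤ θ * 2 ^ (n + 1) := mul_le_mul h3 h4 (abs_nonneg _) hθ0
      _ = _ := mul_comm _ _

/-- the constants -/
noncomputable def cl (k : ℕ) (l : List ℕ) : ℝ :=
  (-1) ^ l.length * (fct (k :: l) : ℝ) / (l.length + (k :: l).sum).factorial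

/-- **all moments** -/
theorem mom (k : ℕ) (l : List ℕ) : ∃ B : ℝ, 0 ≤ B ∧ ∀ a : ℕ → ℝ, (∀ p, 0 ≤ a p) →
    IsK a B (fun P => M a (k :: l) P - cl k l * M a [0] P) := by
  obtain ⟨E, hE⟩ : ∃ E : ℕ, E = (k :: l).sum := ⟨_, rfl⟩
  obtain ⟨B1, hB1, h1⟩ := red E (k :: l) hE.symm
  obtain ⟨B2, hB2, h2⟩ := zer (l.length + E)
  refine ⟨B1 + |(-1) ^ E * (fct (k :: l) : ℝ)| * B2, by positivity, fun a ha => ?_⟩
  have h3 := IsK_add (h1 a ha) (IsK_smul ((-1) ^ E * (fct (k :: l) : ℝ)) (h2 a ha))
  have e : (fun P => M a (k :: l) P - cl k l * M a [0] P) = (fun P =>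
      (M a (k :: l) P - (-1) ^ E * fct (k :: l) * M a (List.replicate ((k :: l).length + E) 0) P) +
      (-1) ^ E * (fct (k :: l) : ℝ) * (M a (List.replicate (l.length + E + 1) 0) P -
        (-1) ^ (l.length + E) / (l.length + E).factorial * M a [0] P)) := by
    funext P
    have e1 : (k :: l).length + E = l.length + E + 1 := by rw [List.length_cons]; omega
    rw [e1]
    unfold cl
    rw [← hE]
    have e2 : ((-1 : ℝ)) ^ E * (-1) ^ (l.length + E) = (-1) ^ l.length := by
      rw [← pow_add, show E + (l.length + E) = l.length + 2 * E by ring, pow_add, pow_mul]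
      norm_num
    rw [← e2]
    ring
  rw [e]
  exact h3

end Pool.Agent.H528.Mo
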