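import Mathlib
import Pool.Agent.H528.StA

/-! The asymptotic sieve, uniformly for all coefficients: the truncation. -/

set_option autoImplicit false

namespace Pool.Agent.H528.UG

open Finset Filter Topology
open Pool.Agent.Y822
open Pool.Agent.Y822.Q (VP_PP VP_bd Vz_pos Vz_up EE_le)
open Pool.Agent.Y822.V (EV foV)
open Pool.Agent.Y822.Par3 Pool.Agent.Y822.QF
open Pool.Agent.H373R2.T7 (pz Vz mem_pz)
open Pool.Agent.H387R2.Uni (nuT Adm locT CT)
open Pool.Agent.H528.Stp Pool.Agent.H528.Gam Pool.Agent.H528.Avg Pool.Agent.H528.Cst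

/-- the divisor sum -/
noncomputable def DS (c : ℕ → ℝ) (m : ℕ) : ℝ := ∑ d ∈ m.divisors.filter Squarefree, c d

/-- the condition on the coefficients -/
def Cf (N : ℕ) (c : ℕ → ℝ) : Prop := ∀ d : ℕ, 1 ≤ d → d ≤ 2 * N → |c d| ≤ (1 - Real.log d / Real.log N) ^ 2

lemma Cf_one {N : ℕ} (hN : 2 ≤ N) {c : ℕ → ℝ} (hc : Cf N c) (d : ℕ) (h1 : 1 ≤ d) (h2 : d ≤ 2 * N) : |c d| ≤ 1 := by
  refine (hc d h1 h2).trans ?_
  have hL : 0 < Real.log N := Real.log_pos (by exact_mod_cast (by omega : 1 < N))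
  have h3 : 0 ≤ Real.log d := Real.log_natCast_nonneg d
  have h4 : Real.log d ≤ 2 * Real.log N := by
    have h5 : Real.log d ≤ Real.log ((N : ℝ) ^ 2) := by
      apply Real.log_le_log (by exact_mod_cast h1)
      have : (d : ℝ) ≤ 2 * N := by exact_mod_cast h2
      have hN2 : (2 : ℝ) ≤ N := by exact_mod_cast hN
      nlinarith
    rw [Real.log_pow] at h5
    push_cast at h5
    exact h5
  have h5 : Real.log d / Real.log N ≤ 2 := by rw [div_le_iff₀ hL]; exact h4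
  have h6 : 0 ≤ Real.log d / Real.log N := div_nonneg h3 hL.le
  nlinarith

/-- **the truncation** -/
lemma tailU {N z m : ℕ} {η : ℝ} {c : ℕ → ℝ} (hc : Cf N c) (hN : 2 ≤ N) (hm1 : 1 ≤ m) (hm : m ≤ 2 * N) (hsq : Squarefree m) (hro : Ro z m)
    (hη0 : 0 < η) (_hη1 : η ≤ 1) (hlog2 : Real.log 2 ≤ η * Real.log N) (h2 : 2 ≤ (N : ℝ) ^ η) :
    |DS c m - thK (SD z ⌊(N : ℝ) ^ (1 - η)⌋₊) c m| ≤ η ^ 2 * thK (SD z ⌊(N : ℝ) ^ (2 * η)⌋₊) (fun _ => 1) m := by
  classical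
  have hN1 : (1 : ℝ) < N := by exact_mod_cast (by omega : 1 < N)
  have hN0 : (0 : ℝ) < N := by linarith
  have hL : 0 < Real.log N := Real.log_pos hN1
  obtain ⟨Z, hZ⟩ : ∃ Z : ℕ, Z = ⌊(N : ℝ) ^ (1 - η)⌋₊ := ⟨_, rfl⟩
  rw [← hZ]
  have hZN : Z ≤ N := by
    rw [hZ]
    apply Nat.floor_le_of_le
    calc (N : ℝ) ^ (1 - η) ≤ (N : ℝ) ^ (1 : ℝ) := Real.rpow_le_rpow_of_exponent_le hN1.le (by linarith)
      _ = N := Real.rpow_one _
  have e1 : thK (SD z Z) c m = ∑ d ∈ m.divisors.filter (fun d => d ≤ Z), c d := by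
    have h3 : thK (SD z Z) c m = ∑ d ∈ (SD z Z).filter (fun d => d ∣ m), c d := by
      unfold thK
      rw [sum_filter]
      exact sum_congr rfl fun d _ => by split_ifs <;> simp
    rw [h3]
    have h4 : (SD z Z).filter (fun d => d ∣ m) = m.divisors.filter (fun d => d ≤ Z) := by
      ext d
      rw [mem_filter, mem_filter, mem_SD, Nat.mem_divisors]
      constructor
      · rintro ⟨⟨⟨a1, a2⟩, a3, a4⟩, a5⟩
        exact ⟨⟨a5, by omega⟩, a2⟩
      · rintro ⟨⟨a1, a2⟩, a3⟩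
        exact ⟨⟨⟨Nat.pos_of_dvd_of_pos a1 hm1, a3⟩, hsq.squarefree_of_dvd a1,
          fun p hp hpz hpd => hro p hp hpz (hpd.trans a1)⟩, a1⟩
    rw [h4]
  have e2 : DS c m - thK (SD z Z) c m = ∑ d ∈ m.divisors.filter (fun d => ¬ d ≤ Z), c d := by
    rw [e1, sub_eq_iff_eq_add']
    unfold DS
    have h5 : m.divisors.filter Squarefree = m.divisors := by
      apply filter_true_of_mem
      intro d hd
      exact hsq.squarefree_of_dvd (Nat.mem_divisors.1 hd).1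
    rw [h5, sum_filter_add_sum_filter_not]
  rw [e2]
  have hbig : ∀ d ∈ m.divisors.filter (fun d => ¬ d ≤ Z), (N : ℝ) ^ (1 - η) < d := by
    intro d hd
    rw [mem_filter] at hd
    have h3 := hd.2
    rw [hZ] at h3
    push Not at h3
    exact Nat.lt_of_floor_lt h3
  have hterm : ∀ d ∈ m.divisors.filter (fun d => ¬ d ≤ Z),
      |c d| ≤ η ^ 2 := by
    intro d hd
    have h3 := hbig d hd
    rw [mem_filter, Nat.mem_divisors] at hd
    have hd0 : 0 < d := Nat.pos_of_dvd_of_pos hd.1.1 hm1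
    have hd0' : (0 : ℝ) < d := by exact_mod_cast hd0
    have h4 : (1 - Real.log d / Real.log N) ^ 2 ≤ η ^ 2 := by
      apply sq_le_sq'
      · have h5 : Real.log d ≤ Real.log (2 * N) := by
          apply Real.log_le_log hd0'
          exact_mod_cast (Nat.le_of_dvd hm1 hd.1.1).trans hm
        rw [Real.log_mul (by norm_num) hN0.ne'] at h5
        have h6 : Real.log d / Real.log N ≤ 1 + η := by
          rw [div_le_iff₀ hL]
          linarith
        linarith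
      · have h5 : (1 - η) * Real.log N ≤ Real.log d := by
          rw [← Real.log_rpow hN0]
          exact Real.log_le_log (by positivity) h3.le
        have h6 : 1 - η ≤ Real.log d / Real.log N := by
          rw [le_div_iff₀ hL]
          exact h5
        linarith
    exact (hc d hd0 ((Nat.le_of_dvd hm1 hd.1.1).trans hm)).trans h4
  refine (abs_sum_le_sum_abs _ _).trans ((sum_le_sum hterm).trans ?_)
  rw [sum_const, nsmul_eq_mul, mul_comm, thK_one]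
  apply mul_le_mul_of_nonneg_left _ (sq_nonneg _)
  have hcard : (m.divisors.filter (fun d => ¬ d ≤ Z)).card ≤
      ((SD z ⌊(N : ℝ) ^ (2 * η)⌋₊).filter (fun d => d ∣ m)).card := by
    refine card_le_card_of_injOn (fun d => m / d) ?_ ?_
    · intro d hd
      rw [mem_coe] at hd
      have h3 := hbig d hd
      rw [mem_filter, Nat.mem_divisors] at hd
      have hdm := hd.1.1
      have hd0 : 0 < d := Nat.pos_of_dvd_of_pos hdm hm1
      have hd0' : (0 : ℝ) < d := by exact_mod_cast hd0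
      have hdvd : m / d ∣ m := Nat.div_dvd_of_dvd hdm
      rw [mem_coe, mem_filter, mem_SD]
      refine ⟨⟨⟨Nat.div_pos (Nat.le_of_dvd hm1 hdm) hd0, ?_⟩, hsq.squarefree_of_dvd hdvd,
        fun p hp hpz hpd => hro p hp hpz (hpd.trans hdvd)⟩, hdvd⟩
      apply Nat.le_floor
      rw [Nat.cast_div hdm hd0'.ne', div_le_iff₀ hd0']
      have h4 : (m : ℝ) ≤ 2 * N := by exact_mod_cast hm
      have h5 : (N : ℝ) = (N : ℝ) ^ η * (N : ℝ) ^ (1 - η) := by
        rw [← Real.rpow_add hN0]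
        simp
      have h6 : (N : ℝ) ^ (2 * η) = (N : ℝ) ^ η * (N : ℝ) ^ η := by
        rw [← Real.rpow_add hN0]
        congr 1
        ring
      have h7 : 0 < (N : ℝ) ^ η := by positivity
      calc (m : ℝ) ≤ 2 * N := h4
        _ = 2 * ((N : ℝ) ^ η * (N : ℝ) ^ (1 - η)) := by rw [← h5]
        _ ≤ (N : ℝ) ^ η * ((N : ℝ) ^ η * (N : ℝ) ^ (1 - η)) :=
            mul_le_mul_of_nonneg_right h2 (by positivity)
        _ ≤ (N : ℝ) ^ η * ((N : ℝ) ^ η * d) := by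
            apply mul_le_mul_of_nonneg_left _ h7.le
            exact mul_le_mul_of_nonneg_left h3.le h7.le
        _ = (N : ℝ) ^ (2 * η) * d := by rw [h6]; ring
    · intro d hd d' hd' h
      rw [mem_coe, mem_filter, Nat.mem_divisors] at hd hd'
      simp only at h
      have e3 := Nat.div_mul_cancel hd.1.1
      have e4 := Nat.div_mul_cancel hd'.1.1
      rw [← h] at e4
      have hpos : 0 < m / d := Nat.div_pos (Nat.le_of_dvd hm1 hd.1.1) (Nat.pos_of_dvd_of_pos hd.1.1 hm1)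
      exact Nat.eq_of_mul_eq_mul_left hpos (e3.trans e4.symm)
  exact_mod_cast hcard


lemma DS_le {N z m M : ℕ} {c : ℕ → ℝ} (hN : 2 ≤ N) (hc : Cf N c) (hM : ((2 * N : ℕ) : ℝ) < (z : ℝ) ^ (M + 1))
    (hm1 : 1 ≤ m) (hm : m ≤ 2 * N) (hro : Ro z m) : |DS c m| ≤ 2 ^ M := by
  classical
  unfold DS
  have h0 : ∀ d ∈ m.divisors.filter Squarefree, |c d| ≤ 1 := by
    intro d hd
    rw [mem_filter, Nat.mem_divisors] at hd
    exact Cf_one hN hc d (Nat.pos_of_dvd_of_pos hd.1.1 hm1) ((Nat.le_of_dvd hm1 hd.1.1).trans hm)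
  refine (abs_sum_le_sum_abs _ _).trans ((sum_le_sum h0).trans ?_)
  rw [sum_const, nsmul_eq_mul, mul_one]
  have h3 : (m.divisors.filter Squarefree).card ≤ m.primeFactors.powerset.card := by
    refine card_le_card_of_injOn Nat.primeFactors ?_ ?_
    · intro d hd
      rw [mem_coe, mem_filter, Nat.mem_divisors] at hd
      rw [mem_coe, mem_powerset]
      exact Nat.primeFactors_mono hd.1.1 (by omega)
    · intro d hd d' hd' h
      rw [mem_coe, mem_filter] at hd hd'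
      have e1 := Nat.prod_primeFactors_of_squarefree hd.2
      have e2 := Nat.prod_primeFactors_of_squarefree hd'.2
      rw [← e1, ← e2, h]
  rw [card_powerset] at h3
  have h4 := card_le_of_rough hM hm1 hm hro
  calc ((m.divisors.filter Squarefree).card : ℝ) ≤ ((2 ^ m.primeFactors.card : ℕ) : ℝ) := by exact_mod_cast h3
    _ ≤ 2 ^ M := by
        push_cast
        exact pow_le_pow_right₀ (by norm_num) h4

/-- the weight -/
noncomputable def wU (z : ℕ) (c : ℕ → ℝ) (m : ℕ) : ℝ := ro z m * DS c m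

lemma wU_le {N z m M : ℕ} {c : ℕ → ℝ} (hN : 2 ≤ N) (hc : Cf N c) (hM : ((2 * N : ℕ) : ℝ) < (z : ℝ) ^ (M + 1))
    (hm1 : 1 ≤ m) (hm : m ≤ 2 * N) : |wU z c m| ≤ 2 ^ M := by
  unfold wU
  by_cases hro : Ro z m
  · rw [ro_of hro, one_mul]
    exact DS_le hN hc hM hm1 hm hro
  · have h3 : ro z m = 0 := by unfold ro; rw [if_neg hro]
    rw [h3, zero_mul, abs_zero]
    positivity

open Classical in
lemma tailW {N z m M : ℕ} {η : ℝ} {c : ℕ → ℝ} (hc : Cf N c) (hN : 2 ≤ N) (hm1 : 1 ≤ m) (hm : m ≤ 2 * N)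
    (hM : ((2 * N : ℕ) : ℝ) < (z : ℝ) ^ (M + 1))
    (hη0 : 0 < η) (hη1 : η ≤ 1) (hlog2 : Real.log 2 ≤ η * Real.log N) (h2 : 2 ≤ (N : ℝ) ^ η) :
    |wU z c m - ro z m * thK (SD z ⌊(N : ℝ) ^ (1 - η)⌋₊) c m| ≤
      η ^ 2 * (ro z m * thK (SD z ⌊(N : ℝ) ^ (2 * η)⌋₊) (fun _ => 1) m) +
        2 * 2 ^ M * (if Ro z m ∧ ¬ Squarefree m then 1 else 0) := by
  unfold wU
  by_cases hro : Ro z m
  · rw [ro_of hro, one_mul, one_mul, one_mul]
    by_cases hsq : Squarefree m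
    · rw [if_neg (fun h => h.2 hsq), mul_zero, add_zero]
      exact tailU hc hN hm1 hm hsq hro hη0 hη1 hlog2 h2
    · rw [if_pos ⟨hro, hsq⟩, mul_one]
      have g1 := DS_le hN hc hM hm1 hm hro
      have hZN : ⌊(N : ℝ) ^ (1 - η)⌋₊ ≤ N := by
        apply Nat.floor_le_of_le
        calc (N : ℝ) ^ (1 - η) ≤ (N : ℝ) ^ (1 : ℝ) :=
              Real.rpow_le_rpow_of_exponent_le (by exact_mod_cast (by omega : 1 ≤ N)) (by linarith)
          _ = N := Real.rpow_one _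
      have g3 : |thK (SD z ⌊(N : ℝ) ^ (1 - η)⌋₊) c m| ≤ 2 ^ M := by
        have e1 : thK (SD z ⌊(N : ℝ) ^ (1 - η)⌋₊) c m =
            thK (SD z ⌊(N : ℝ) ^ (1 - η)⌋₊) (fun d => if 1 ≤ d ∧ d ≤ 2 * N then c d else 0) m := by
          unfold thK
          refine sum_congr rfl fun d hd => ?_
          rw [mem_SD] at hd
          have h5 : 1 ≤ d ∧ d ≤ 2 * N := ⟨hd.1.1, by omega⟩
          show c d * _ = (if 1 ≤ d ∧ d ≤ 2 * N then c d else 0) * _
          rw [if_pos h5]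
        rw [e1]
        refine thK_le_pow hm1 (card_le_of_rough hM hm1 hm hro) _ (Z := ⌊(N : ℝ) ^ (1 - η)⌋₊) (fun _ h => h) _ fun d => ?_
        split_ifs with h
        · exact Cf_one hN hc d h.1 h.2
        · rw [abs_zero]; exact zero_le_one
      have g4 : |DS c m - thK (SD z ⌊(N : ℝ) ^ (1 - η)⌋₊) c m| ≤ 2 ^ M + 2 ^ M :=
        (abs_sub _ _).trans (add_le_add g1 g3)
      have g5 : 0 ≤ η ^ 2 * thK (SD z ⌊(N : ℝ) ^ (2 * η)⌋₊) (fun _ => 1) m :=
        mul_nonneg (by positivity) (thK_one_nonneg _ _)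
      linarith
  · have h3 : ro z m = 0 := by unfold ro; rw [if_neg hro]
    rw [h3, if_neg (fun h => hro h.1)]
    simp

/-- the truncation in sums -/
lemma sumW {N z M : ℕ} {η : ℝ} {c : ℕ → ℝ} (hc : Cf N c) (hN : 2 ≤ N) (hz : 1 ≤ z)
    (hM : ((2 * N : ℕ) : ℝ) < (z : ℝ) ^ (M + 1))
    (hη0 : 0 < η) (hη1 : η ≤ 1) (hlog2 : Real.log 2 ≤ η * Real.log N) (h2 : 2 ≤ (N : ℝ) ^ η)
    (f : ℕ → ℝ) (hf : ∀ n, 0 ≤ f n ∧ f n ≤ 1) (t : ℕ) (ht : t ≤ N) :
    |∑ n ∈ Icc 1 N, f n * wU z c (n + t) -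
      ∑ n ∈ Icc 1 N, f n * (ro z (n + t) * thK (SD z ⌊(N : ℝ) ^ (1 - η)⌋₊) c (n + t))| ≤
      η ^ 2 * (∑ n ∈ Icc 1 N, f n * (ro z (n + t) * thK (SD z ⌊(N : ℝ) ^ (2 * η)⌋₊) (fun _ => 1) (n + t))) +
        2 * 2 ^ M * (3 * N / z) := by
  classical
  rw [← sum_sub_distrib]
  have h3 : ∀ n ∈ Icc 1 N, |f n * wU z c (n + t) -
      f n * (ro z (n + t) * thK (SD z ⌊(N : ℝ) ^ (1 - η)⌋₊) c (n + t))| ≤
      η ^ 2 * (f n * (ro z (n + t) * thK (SD z ⌊(N : ℝ) ^ (2 * η)⌋₊) (fun _ => 1) (n + t))) +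
      2 * 2 ^ M * (if Ro z (n + t) ∧ ¬ Squarefree (n + t) then 1 else 0) := by
    intro n hn
    rw [mem_Icc] at hn
    have h4 := tailW (z := z) (m := n + t) hc hN (by omega) (by omega) hM hη0 hη1 hlog2 h2
    have e1 : f n * wU z c (n + t) - f n * (ro z (n + t) * thK (SD z ⌊(N : ℝ) ^ (1 - η)⌋₊) c (n + t)) =
        f n * (wU z c (n + t) - ro z (n + t) * thK (SD z ⌊(N : ℝ) ^ (1 - η)⌋₊) c (n + t)) := by ring
    rw [e1, abs_mul, abs_of_nonneg (hf n).1]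
    refine (mul_le_mul_of_nonneg_left h4 (hf n).1).trans ?_
    rw [mul_add]
    have h5 : (0 : ℝ) ≤ 2 * 2 ^ M * (if Ro z (n + t) ∧ ¬ Squarefree (n + t) then 1 else 0) := by
      split_ifs <;> positivity
    have h6 : f n * (2 * 2 ^ M * (if Ro z (n + t) ∧ ¬ Squarefree (n + t) then 1 else 0)) ≤
      1 * (2 * 2 ^ M * (if Ro z (n + t) ∧ ¬ Squarefree (n + t) then 1 else 0)) :=
      mul_le_mul_of_nonneg_right (hf n).2 h5
    rw [one_mul] at h6
    have e2 : f n * (η ^ 2 * (ro z (n + t) * thK (SD z ⌊(N : ℝ) ^ (2 * η)⌋₊) (fun _ => 1) (n + t))) =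
      η ^ 2 * (f n * (ro z (n + t) * thK (SD z ⌊(N : ℝ) ^ (2 * η)⌋₊) (fun _ => 1) (n + t))) := by ring
    rw [e2]
    linarith
  refine (abs_sum_le_sum_abs _ _).trans ((sum_le_sum h3).trans ?_)
  rw [sum_add_distrib, ← mul_sum, ← mul_sum]
  have h4 : ∑ n ∈ Icc 1 N, (if Ro z (n + t) ∧ ¬ Squarefree (n + t) then (1 : ℝ) else 0) ≤ 3 * N / z := by
    rw [← sum_filter, sum_const, nsmul_eq_mul, mul_one]
    exact cnt_nsq hz ht
  have h5 := mul_le_mul_of_nonneg_left h4 (show (0 : ℝ) ≤ 2 * 2 ^ M by positivity)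
  linarith

/-- shifting a bounded sum -/
lemma shift_bd {g : ℕ → ℝ} {N t : ℕ} {D : ℝ} (hg : ∀ m, 1 ≤ m → m ≤ 2 * N → |g m| ≤ D) (ht : t ≤ N) :
    |∑ n ∈ Icc 1 N, g (n + t) - ∑ n ∈ Icc 1 N, g n| ≤ 2 * t * D := by
  have h1 : ∑ n ∈ Icc 1 N, g (n + t) = ∑ n ∈ Ioc t (N + t), g n := by
    have h2 : Ioc t (N + t) = (Icc 1 N).image (fun n => n + t) := by
      ext m
      rw [mem_Ioc, mem_image]
      constructor
      · rintro ⟨a, b⟩
        exact ⟨m - t, by rw [mem_Icc]; omega, by omega⟩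
      · rintro ⟨n, hn, rfl⟩
        rw [mem_Icc] at hn
        omega
    rw [h2, sum_image (fun a _ b _ h => by simpa using h)]
  have h3 : ∑ n ∈ Ioc 0 (N + t), g n = ∑ n ∈ Icc 1 N, g n + ∑ n ∈ Ioc N (N + t), g n := by
    rw [← Finset.sum_Ioc_consecutive g (Nat.zero_le N) (by omega : N ≤ N + t)]
    rfl
  have h4 : ∑ n ∈ Ioc 0 (N + t), g n = ∑ n ∈ Ioc 0 t, g n + ∑ n ∈ Ioc t (N + t), g n := by
    rw [← Finset.sum_Ioc_consecutive g (Nat.zero_le t) (by omega : t ≤ N + t)]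
  have hD : 0 ≤ D ∨ N = 0 := by
    rcases Nat.eq_zero_or_pos N with h | h
    · right; exact h
    · left; exact (abs_nonneg _).trans (hg 1 le_rfl (by omega))
  have h5 : |∑ n ∈ Ioc N (N + t), g n| ≤ t * D := by
    refine (abs_sum_le_sum_abs _ _).trans ?_
    calc ∑ n ∈ Ioc N (N + t), |g n| ≤ ∑ n ∈ Ioc N (N + t), D := sum_le_sum fun n hn => by
          rw [mem_Ioc] at hn
          exact hg n (by omega) (by omega)
      _ = t * D := by rw [sum_const, Nat.card_Ioc, nsmul_eq_mul]; push_cast; simp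
  have h6 : |∑ n ∈ Ioc 0 t, g n| ≤ t * D := by
    refine (abs_sum_le_sum_abs _ _).trans ?_
    calc ∑ n ∈ Ioc 0 t, |g n| ≤ ∑ n ∈ Ioc 0 t, D := sum_le_sum fun n hn => by
          rw [mem_Ioc] at hn
          exact hg n (by omega) (by omega)
      _ = t * D := by rw [sum_const, Nat.card_Ioc, nsmul_eq_mul]; simp
  obtain ⟨a1, a2⟩ := abs_le.1 h5
  obtain ⟨a3, a4⟩ := abs_le.1 h6
  rw [h1, abs_le]
  constructor <;> linarith

end Pool.Agent.H528.UG
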