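import Mathlib
import Pool.Agent.H528.UG

/-! The asymptotic sieve, uniformly for all coefficients. -/

set_option autoImplicit false

namespace Pool.Agent.H528.UG

open Finset Filter Topology
open Pool.Agent.Y822
open Pool.Agent.Y822.Q (VP_PP VP_bd Vz_pos Vz_up EE_le)
open Pool.Agent.Y822.V (EV foV)
open Pool.Agent.Y822.Par3 Pool.Agent.Y822.QF
open Pool.Agent.H373R2.T7 (pz Vz mem_pz)
open Pool.Agent.H387R2.Uni (nuT Adm locT CT)
open Pool.Agent.H528.Stp Pool.Agent.H528.Gam Pool.Agent.H528.Avg Pool.Agent.H528.Cst Pool.Agent.H528.StA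

/-- the coefficients of the constant function `1` -/
noncomputable def c1 (d : ℕ) : ℝ := if d = 1 then 1 else 0

lemma Cf_c1 (N : ℕ) : Cf N c1 := by
  intro d _ _
  unfold c1
  split_ifs with h
  · rw [h]; simp
  · rw [abs_zero]; positivity

lemma DS_c1 {m : ℕ} (hm : 1 ≤ m) : DS c1 m = 1 := by
  unfold DS c1
  rw [sum_ite_eq', if_pos]
  rw [mem_filter, Nat.mem_divisors]
  exact ⟨⟨one_dvd m, by omega⟩, squarefree_one⟩

lemma wU_c1 (z m : ℕ) (hm : 1 ≤ m) : wU z c1 m = ro z m := by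
  unfold wU
  rw [DS_c1 hm, mul_one]

lemma calcU {X1 X2 X3 A VW S' c E ns η : ℝ} (hη0 : 0 < η) (hη1 : η ≤ 1) (hc : 0 ≤ c) (hE : 0 ≤ E) (hVW : 0 ≤ VW)
    (h1 : |X1 - X2| ≤ η ^ 2 * X3 + ns) (h2 : |X2 - A * VW| ≤ c * VW + E)
    (h3 : X3 ≤ S' * VW + (c * VW + E)) :
    |X1 - A * VW| ≤ 2 * (c + η ^ 2 / 2 * S') * VW + 2 * E + ns := by
  have h0 : 0 ≤ c * VW + E := by positivity
  have hη2 : η ^ 2 ≤ 1 := pow_le_one₀ hη0.le hη1
  have h4 : η ^ 2 * X3 ≤ η ^ 2 * (S' * VW + (c * VW + E)) := mul_le_mul_of_nonneg_left h3 (by positivity)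
  have h5 : η ^ 2 * (c * VW + E) ≤ 1 * (c * VW + E) := mul_le_mul_of_nonneg_right (by linarith) h0
  have h6 : |X1 - A * VW| ≤ |X1 - X2| + |X2 - A * VW| := by
    have e : X1 - A * VW = (X1 - X2) + (X2 - A * VW) := by ring
    rw [e]
    exact abs_add_le _ _
  have h7 : η ^ 2 * (S' * VW + (c * VW + E)) = η ^ 2 * S' * VW + η ^ 2 * (c * VW + E) := by ring
  have h8 : 2 * (c + η ^ 2 / 2 * S') * VW = 2 * (c * VW) + η ^ 2 * S' * VW := by ring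
  rw [h8]
  rw [h7] at h4
  linarith

/-- the last step -/
lemma fin_ug {A V Vy w n X W' S L x ρ D e T0 : ℝ} (hx : 0 < x) (hx1 : x ≤ 1 / 8) (hL : 0 < L) (hn : 0 < n) (hVy : 0 < Vy)
    (_hV : 0 ≤ V) (hD : 0 < D) (hW' : 0 ≤ W') (hρ0 : 0 ≤ ρ) (hw : |w - 1| ≤ x / (8 * D)) (hw1 : |w - 1| ≤ x)
    (hA : |A| * (V * Vy) * L ≤ D) (hρ : ρ * (V * Vy) * L ≤ x / 4) (hX : |X - A * (V * (w * (n * Vy)))| ≤
      ρ * (V * (w * (n * Vy))) + e + T0) (he0 : 0 ≤ e) (he : (e + T0) * L ≤ x / 4 * n)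
    (hS : |S - A * (V * W')| ≤ ρ * (V * W') + e) :
    |S - X / (n * Vy) * W'| ≤ x / (L * Vy) * W' + e := by
  obtain ⟨w1, w2⟩ := abs_le.1 hw1
  -- the difference of the constants
  have h1 : |A * V - X / (n * Vy)| * (L * Vy) ≤ 3 / 4 * x := by
    have e1 : (A * V - X / (n * Vy)) * (L * Vy) = -(A * (V * Vy) * L) * (w - 1) -
        (X - A * (V * (w * (n * Vy)))) * L / n := by
      field_simp
      ring
    have e2 : |A * V - X / (n * Vy)| * (L * Vy) = |(A * V - X / (n * Vy)) * (L * Vy)| := by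
      rw [abs_mul, abs_of_pos (show 0 < L * Vy by positivity)]
    rw [e2, e1]
    refine (abs_sub _ _).trans ?_
    have h2 : |-(A * (V * Vy) * L) * (w - 1)| ≤ x / 8 := by
      rw [abs_mul, abs_neg, abs_mul, abs_mul, abs_of_pos hL, abs_of_nonneg (show 0 ≤ V * Vy by positivity)]
      calc |A| * (V * Vy) * L * |w - 1| ≤ D * (x / (8 * D)) := mul_le_mul hA hw (abs_nonneg _) hD.le
        _ = x / 8 := by field_simp
    have h3 : |(X - A * (V * (w * (n * Vy)))) * L / n| ≤ 9 / 32 * x + x / 4 := by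
      rw [abs_div, abs_mul, abs_of_pos hL, abs_of_pos hn, div_le_iff₀ hn]
      calc |X - A * (V * (w * (n * Vy)))| * L ≤ (ρ * (V * (w * (n * Vy))) + e + T0) * L :=
            mul_le_mul_of_nonneg_right hX hL.le
        _ = (ρ * (V * Vy) * L) * (w * n) + (e + T0) * L := by ring
        _ ≤ (x / 4) * (9 / 8 * n) + x / 4 * n := by
            apply add_le_add _ he
            have : w * n ≤ 9 / 8 * n := mul_le_mul_of_nonneg_right (by linarith) hn.le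
            have h0 : 0 ≤ w * n := mul_nonneg (by linarith) hn.le
            exact mul_le_mul hρ this h0 (by positivity)
        _ = (9 / 32 * x + x / 4) * n := by ring
    linarith
  have h2 : |A * V - X / (n * Vy)| ≤ 3 / 4 * x / (L * Vy) := by
    rw [le_div_iff₀ (by positivity)]
    exact h1
  have h3 : ρ * (V * W') ≤ x / 4 / (L * Vy) * W' := by
    have h4 : ρ * V ≤ x / 4 / (L * Vy) := by
      rw [le_div_iff₀ (by positivity)]
      calc ρ * V * (L * Vy) = ρ * (V * Vy) * L := by ring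
        _ ≤ x / 4 := hρ
    calc ρ * (V * W') = ρ * V * W' := by ring
      _ ≤ _ := mul_le_mul_of_nonneg_right h4 hW'
  have e3 : S - X / (n * Vy) * W' = (S - A * (V * W')) + (A * V - X / (n * Vy)) * W' := by ring
  rw [e3]
  refine (abs_add_le _ _).trans ?_
  rw [abs_mul, abs_of_nonneg hW']
  have h4 : |A * V - X / (n * Vy)| * W' ≤ 3 / 4 * x / (L * Vy) * W' := mul_le_mul_of_nonneg_right h2 hW'
  have e4 : x / (L * Vy) * W' = 3 / 4 * x / (L * Vy) * W' + x / 4 / (L * Vy) * W' := by field_simp; ring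
  rw [e4]
  linarith

/-- **the asymptotic sieve, uniformly for all coefficients** -/
theorem ug (x : ℝ) (hx : 0 < x) (hx8 : x ≤ 1 / 8) (U : ℕ) (hU : 2 ≤ U) : ∃ δ : ℝ, 1 / 2 ≤ δ ∧ δ < 1 ∧
    ∃ ε₁ : ℝ, 0 < ε₁ ∧ ε₁ ≤ x ∧ ∃ κ : ℝ, 0 < κ ∧ κ ≤ 1 ∧ ∃ C : ℕ, ∀ᶠ N : ℕ in atTop,
    ∃ Z : (ℕ → ℝ) → ℕ → ℝ, 3 ≤ yN κ N ∧ (N : ℝ) ^ (ε₁ / 2) ≤ zN ε₁ N ∧ zN ε₁ N ≤ N ∧
      ((2 * N : ℕ) : ℝ) < (zN ε₁ N : ℝ) ^ (⌈4 / ε₁⌉₊ + 1) ∧
      (∀ f : ℕ → ℝ, (∀ n, 0 ≤ f n ∧ f n ≤ 1) → ∀ t ≤ N, Z f t ≤ N / Real.log N ^ U →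
        (∑ n ∈ Icc 1 N, f n * ro (zN ε₁ N) (n + t) ≤
          (3 / ε₁) / (Real.log N * Vz (yN κ N)) * ∑ n ∈ Icc 1 N, f n * ro (yN κ N) (n + t) + N / Real.log N ^ U) ∧
        ∀ c : ℕ → ℝ, Cf N c →
          |∑ n ∈ Icc 1 N, f n * wU (zN ε₁ N) c (n + t) -
            (∑ m ∈ Icc 1 N, wU (zN ε₁ N) c m) / (N * Vz (yN κ N)) * ∑ n ∈ Icc 1 N, f n * ro (yN κ N) (n + t)| ≤
          x / (Real.log N * Vz (yN κ N)) * ∑ n ∈ Icc 1 N, f n * ro (yN κ N) (n + t) + N / Real.log N ^ U) ∧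
      (∀ f : ℕ → ℝ, (∀ n, |f n| ≤ 1) → ∀ S : Finset ℕ, (∀ a ∈ S, a ≤ N ∧ N / Real.log N ^ U < Z f a) →
        (S.card : ℝ) ≤ (N : ℝ) ^ δ * Real.log N ^ C) := by
  classical
  obtain ⟨C0, hC0, cz, hcz, hcz1, VZ, COM⟩ := ComB.comB
  obtain ⟨b, hb1, hb2, hbx⟩ := choose_bb C0 hC0 cz x hcz hx
  obtain ⟨R, hR⟩ : ∃ R : ℝ, R = 64 * C0 * b := ⟨_, rfl⟩
  have hC0r : (1 : ℝ) ≤ C0 := by exact_mod_cast hC0
  have hbr : (1 : ℝ) ≤ b := by exact_mod_cast hb2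
  have hCb : (1 : ℝ) ≤ C0 * b := one_le_mul_of_one_le_of_one_le hC0r hbr
  have hR64 : 64 ≤ R := by rw [hR, mul_assoc]; linarith
  have hR0 : 0 < R := by linarith
  obtain ⟨η, hη⟩ : ∃ η : ℝ, η = x * cz ^ 3 / (1024 * R ^ 4) := ⟨_, rfl⟩
  have hη0 : 0 < η := by rw [hη]; positivity
  have hηx : η ≤ x / 1024 := by
    rw [hη, div_le_div_iff₀ (by positivity) (by norm_num)]
    have h1 : cz ^ 3 ≤ 1 := pow_le_one₀ hcz.le hcz1
    have h2 : 1 ≤ R ^ 4 := one_le_pow₀ (by linarith)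
    have h3 : cz ^ 3 ≤ R ^ 4 := h1.trans h2
    calc x * cz ^ 3 * 1024 ≤ x * R ^ 4 * 1024 := by gcongr
      _ = x * (1024 * R ^ 4) := by ring
  obtain ⟨ε₁, hε₁⟩ : ∃ ε₁ : ℝ, ε₁ = η / R := ⟨_, rfl⟩
  have hε₁0 : 0 < ε₁ := by rw [hε₁]; positivity
  have hε₁η : ε₁ ≤ η := by rw [hε₁]; exact div_le_self hη0.le (by linarith)
  obtain ⟨CE, hCE⟩ : ∃ CE : ℝ, CE = (2 / (cz * ε₁)) ^ 3 := ⟨_, rfl⟩
  have hCE0 : 0 < CE := by rw [hCE]; positivity
  obtain ⟨δ', hδ'⟩ : ∃ δ' : ℝ, δ' = η / 32 := ⟨_, rfl⟩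
  have hε₁δ' : ε₁ * (2 * C0 * b) = δ' := by rw [hε₁, hδ', hR]; field_simp; norm_num
  have hη1 : η ≤ 1 / 8 := by linarith
  obtain ⟨ρ₀, hρ₀⟩ : ∃ ρ₀ : ℝ, ρ₀ = (1 / 2) ^ b * CE + η ^ 2 / 2 * (4 * R / cz) ^ 3 := ⟨_, rfl⟩
  have hρ₀0 : 0 ≤ ρ₀ := by rw [hρ₀]; positivity
  have hρ₀x : ρ₀ * (2 / ε₁) ≤ x / 8 := by
    rw [hρ₀]
    exact num_rho hcz hx hR hR0 hη hε₁ hCE hbx
  obtain ⟨ρ, hρ⟩ : ∃ ρ : ℝ, ρ = 2 * ρ₀ := ⟨_, rfl⟩
  have hρ0 : 0 ≤ ρ := by rw [hρ]; positivity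
  have hρx : ρ * (2 / ε₁) ≤ x / 4 := by rw [hρ]; linarith
  obtain ⟨D, hD⟩ : ∃ D : ℝ, D = CE * (2 / ε₁) := ⟨_, rfl⟩
  have hD0 : 0 < D := by rw [hD]; positivity
  obtain ⟨x', hx'⟩ : ∃ x' : ℝ, x' = min (x / (8 * D)) x / 2 := ⟨_, rfl⟩
  have hx'0 : 0 < x' := by rw [hx']; positivity
  have hx'1 : 2 * x' ≤ x / (8 * D) := by rw [hx']; have := min_le_left (x / (8 * D)) x; linarith
  have hx'2 : 2 * x' ≤ x := by rw [hx']; have := min_le_right (x / (8 * D)) x; linarith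
  obtain ⟨κ, hκ, hκ1, C, FEW⟩ := FewL.fewL (1 - η) (1 - η) (by linarith) (by linarith) (by linarith) δ'
    (by rw [hδ']; positivity) (by
      rw [hδ', min_eq_left (by linarith)]
      apply le_of_eq
      ring) ε₁ hε₁0 (by linarith) (U + 1) (16 * (1 + CE)) (by positivity)
  have COM := COM b hb1 hb2 δ' ε₁ CE (1 - η) (by rw [hδ']; positivity) (by rw [hδ']; linarith) hε₁δ' hCE (by linarith)
    (by linarith) κ hκ hκ1
  have INT := Pool.Agent.Y822.Q.int0 0 κ x' 3 hκ hκ1 hx'0 (by linarith)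
  obtain ⟨m₀, hm₀⟩ : ∃ m₀ : ℕ, m₀ = ⌈4 / ε₁⌉₊ := ⟨_, rfl⟩
  refine ⟨1 - η, by linarith, by linarith, ε₁, hε₁0, by linarith, κ, hκ, hκ1, C, ?_⟩
  have e1 := ev_logN (eventually_ge_atTop (max (max (Real.log 2 / η) (8 / x)) (max 1 (1 / (x' * cz)))))
  have e2 := ev_logN (ev_pow_exp U (ε₁ / 2) (6 * (2 * 2 ^ m₀)) (by positivity))
  have e3 := ev_logN (ev_pow_exp (C + 1) η (64 * 2 ^ m₀ / x) hη0)
  filter_upwards [FEW, COM, INT, e1, e2, e3, eventually_ge_atTop 3, yN_facts κ hκ hκ1 3 8] with N FEW COM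
    INT f1 f2 f3 hN3 hyf
  obtain ⟨w1, w2, w3, w4, w5, w6, w7, w8⟩ := COM
  obtain ⟨y1, y2, y3, y4, y5⟩ := hyf
  rw [← hm₀] at w6
  obtain ⟨L, hL⟩ : ∃ L : ℝ, L = Real.log N := ⟨_, rfl⟩
  obtain ⟨y, hy⟩ : ∃ y : ℕ, y = yN κ N := ⟨_, rfl⟩
  obtain ⟨z₀, hz₀⟩ : ∃ z₀ : ℕ, z₀ = zN ε₁ N := ⟨_, rfl⟩
  rw [← hy] at w1 w2 w8 y1 y2 y3 y4 y5 FEW INT ⊢
  rw [← hz₀] at w1 w3 w4 w5 w6 w7 w8 ⊢
  rw [← hL] at w4 w5 w8 f1 f2 f3 FEW INT y1 ⊢
  have hN0 : (0 : ℝ) < N := by positivity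
  have hL1 : 1 ≤ L := (le_max_left _ _).trans ((le_max_right _ _).trans f1)
  have hL0 : 0 < L := by linarith
  have hLη : Real.log 2 / η ≤ L := (le_max_left _ _).trans ((le_max_left _ _).trans f1)
  have hLx : 8 / x ≤ L := (le_max_right _ _).trans ((le_max_left _ _).trans f1)
  have hLc : 1 / (x' * cz) ≤ L := (le_max_right _ _).trans ((le_max_right _ _).trans f1)
  have hNe : (N : ℝ) = Real.exp L := by rw [hL, Real.exp_log hN0]
  have hNpow : ∀ s : ℝ, (N : ℝ) ^ s = Real.exp (s * L) := by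
    intro s
    rw [Real.rpow_def_of_pos hN0, ← hL, mul_comm]
  have hlog2 : Real.log 2 ≤ η * L := by
    rw [div_le_iff₀ hη0] at hLη
    linarith
  have h2N : 2 ≤ (N : ℝ) ^ η := by
    rw [hNpow]
    rw [← Real.log_le_iff_le_exp (by norm_num)]
    exact hlog2
  -- the sets of moduli
  obtain ⟨K, hK⟩ : ∃ K : Finset ℕ, K = SD z₀ ⌊(N : ℝ) ^ (1 - η)⌋₊ := ⟨_, rfl⟩
  obtain ⟨K', hK'⟩ : ∃ K' : Finset ℕ, K' = SD z₀ ⌊(N : ℝ) ^ (2 * η)⌋₊ := ⟨_, rfl⟩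
  have hKK : K' ⊆ K := by
    intro d hd
    rw [hK', mem_SD] at hd
    rw [hK, mem_SD]
    refine ⟨⟨hd.1.1, hd.1.2.trans ?_⟩, hd.2⟩
    apply Nat.floor_le_floor
    apply Real.rpow_le_rpow_of_exponent_le (by exact_mod_cast (by omega : 1 ≤ N))
    linarith
  obtain ⟨V, hV⟩ : ∃ V : ℝ, V = VP (PP y z₀) := ⟨_, rfl⟩
  obtain ⟨S', hS'⟩ : ∃ S' : ℝ, S' = ∑ d ∈ K', 1 / (d : ℝ) := ⟨_, rfl⟩
  have hV0 : 0 ≤ V := by rw [hV]; exact (VP_bd y z₀).1
  have hVV : V * Vz y = Vz z₀ := by rw [hV]; exact VP_PP w1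
  have hVy : 0 < Vz y := Vz_pos y
  have hz₀3 : 3 ≤ z₀ := w2.trans w1
  have hVz₀ : Vz z₀ ≤ 2 / ε₁ / L := by
    have g1 := Vz_up z₀ (by omega)
    have g2 : 0 < ε₁ / 2 * L := by positivity
    have g3 : Vz z₀ * (ε₁ / 2 * L) ≤ 1 := by
      calc Vz z₀ * (ε₁ / 2 * L) ≤ Vz z₀ * Real.log z₀ := mul_le_mul_of_nonneg_left w4 (Vz_pos z₀).le
        _ ≤ 1 := by linarith
    calc Vz z₀ ≤ 1 / (ε₁ / 2 * L) := by rw [le_div_iff₀ g2]; exact g3
      _ = 2 / ε₁ / L := by field_simp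
  have hρV : ρ * (V * Vz y) * L ≤ x / 4 := by
    rw [hVV]
    calc ρ * Vz z₀ * L ≤ ρ * (2 / ε₁ / L) * L := by
          apply mul_le_mul_of_nonneg_right _ hL0.le
          exact mul_le_mul_of_nonneg_left hVz₀ hρ0
      _ = ρ * (2 / ε₁) := by field_simp
      _ ≤ x / 4 := hρx
  -- the sum over `K'`
  have hS'le : S' ≤ (4 * R / cz) ^ 3 := by
    obtain ⟨Z', hZ'⟩ : ∃ Z' : ℕ, Z' = ⌊(N : ℝ) ^ (2 * η)⌋₊ := ⟨_, rfl⟩
    have hzZ : z₀ ≤ Z' := by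
      rw [hZ']
      apply Nat.le_floor
      rw [hz₀]
      refine (zN_lt (by omega)).le.trans ?_
      apply Real.rpow_le_rpow_of_exponent_le (by exact_mod_cast (by omega : 1 ≤ N))
      linarith
    have hZ'0 : (0 : ℝ) < Z' := by exact_mod_cast (by omega : 0 < Z')
    have hlZ : Real.log Z' ≤ 2 * η * L := by
      rw [Real.log_le_iff_le_exp hZ'0, ← hNpow, hZ']
      exact Nat.floor_le (by positivity)
    have hlZ0 : 0 < Real.log Z' := Real.log_pos (by exact_mod_cast (by omega : 1 < Z'))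
    have h1 : S' ≤ EE z₀ Z' := by
      rw [hS', hK', ← hZ']
      refine le_trans ?_ (sum_div_le z₀ Z')
      exact sum_le_sum fun d _ => div_le_div_of_nonneg_right (one_le_pow₀ (by norm_num)) (Nat.cast_nonneg d)
    refine h1.trans ((EE_le z₀ Z' hzZ).trans ?_)
    refine pow_le_pow_left₀ (div_nonneg (Vz_pos z₀).le (Vz_pos Z').le) ?_ 3
    have h2 : cz / (2 * η * L) ≤ Vz Z' :=
      (div_le_div_of_nonneg_left hcz.le hlZ0 hlZ).trans (VZ Z' (by omega))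
    calc Vz z₀ / Vz Z' ≤ (2 / ε₁ / L) / (cz / (2 * η * L)) := div_le_div₀ (by positivity) hVz₀ (by positivity) h2
      _ = 4 * R / cz := by
          rw [hε₁]
          field_simp
          norm_num
  -- the error functional
  obtain ⟨Z, hZ⟩ : ∃ Z : (ℕ → ℝ) → ℕ → ℝ, Z = fun f t => 16 * L * ((1 + CE) * EV y N ε₁ δ' (K.erase 1) f t) := ⟨_, rfl⟩
  have hns : 2 * 2 ^ m₀ * (3 * N / z₀) ≤ 1 / 2 * (N / L ^ U) := by
    have hz₀0 : (0 : ℝ) < z₀ := by exact_mod_cast (by omega : 0 < z₀)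
    have h1 : 6 * (2 * 2 ^ m₀) * L ^ U ≤ z₀ := by
      refine f2.trans ?_
      rw [← hNpow]
      exact w7
    rw [← mul_div_assoc, ← mul_div_assoc, div_le_div_iff₀ hz₀0 (by positivity)]
    calc 2 * 2 ^ m₀ * (3 * (N : ℝ)) * L ^ U = 1 / 2 * N * (6 * (2 * 2 ^ m₀) * L ^ U) := by ring
      _ ≤ 1 / 2 * N * z₀ := mul_le_mul_of_nonneg_left h1 (by positivity)
  have KEY : ∀ c : ℕ → ℝ, Cf N c → ∀ f : ℕ → ℝ, (∀ n, 0 ≤ f n ∧ f n ≤ 1) → ∀ t ≤ N, Z f t ≤ N / L ^ U →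
      |∑ n ∈ Icc 1 N, f n * wU z₀ c (n + t) - (∑ d ∈ K, c d / d) * (V * ∑ n ∈ Icc 1 N, f n * ro y (n + t))| ≤
        ρ * (V * ∑ n ∈ Icc 1 N, f n * ro y (n + t)) + N / L ^ U := by
    intro c hc f hf t ht hZt
    have hW0 : 0 ≤ ∑ n ∈ Icc 1 N, f n * ro y (n + t) := sum_nonneg fun n _ => mul_nonneg (hf n).1 (ro_nonneg _ _)
    have hVW : 0 ≤ V * ∑ n ∈ Icc 1 N, f n * ro y (n + t) := mul_nonneg hV0 hW0
    have g1 := sumW (z := z₀) (M := m₀) hc (by omega) (by omega) w6 hη0 (by linarith) (by rw [← hL]; exact hlog2) h2N f hf t ht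
    obtain ⟨_, g2⟩ := w8 K (by rw [hK])
    obtain ⟨_, g3⟩ := w8 K' (by rw [hK] at hKK; exact hKK)
    obtain ⟨c', hc'⟩ : ∃ c' : ℕ → ℝ, c' = fun d => if 1 ≤ d ∧ d ≤ 2 * N then c d else 0 := ⟨_, rfl⟩
    have hc'1 : ∀ d, |c' d| ≤ 1 := by
      intro d
      rw [hc']
      dsimp only
      split_ifs with h
      · exact Cf_one (by omega) hc d h.1 h.2
      · rw [abs_zero]; exact zero_le_one
    have hKN : ∀ d ∈ K, c' d = c d := by
      intro d hd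
      have hZN : ⌊(N : ℝ) ^ (1 - η)⌋₊ ≤ N := by
        apply Nat.floor_le_of_le
        calc (N : ℝ) ^ (1 - η) ≤ (N : ℝ) ^ (1 : ℝ) :=
              Real.rpow_le_rpow_of_exponent_le (by exact_mod_cast (by omega : 1 ≤ N)) (by linarith)
          _ = N := Real.rpow_one _
      rw [hK, mem_SD] at hd
      rw [hc']
      dsimp only
      rw [if_pos ⟨hd.1.1, by omega⟩]
    have g2 := g2 c' hc'1 f hf t
    have g3 := g3 (fun _ => 1) (fun _ => by rw [abs_one]) f hf t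
    rw [← hK, ← hK'] at g1
    have ec1 : ∑ d ∈ K, c' d / d = ∑ d ∈ K, c d / d := sum_congr rfl fun d hd => by rw [hKN d hd]
    have ec2 : ∀ m, thK K c' m = thK K c m := by
      intro m
      unfold thK
      exact sum_congr rfl fun d hd => by rw [hKN d hd]
    simp only [ec2] at g2
    rw [ec1, ← hV] at g2
    rw [← hS', ← hV] at g3
    have hE0 : 0 ≤ 4 * L * ((1 + CE) * EV y N ε₁ δ' (K.erase 1) f t) := by
      have := EV_nonneg' (y := y) (N := N) (ε₁ := ε₁) (δ' := δ') (T := K.erase 1) f t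
      positivity
    have g4 : 4 * L * ((1 + CE) * EV y N ε₁ δ' (K'.erase 1) f t) ≤ 4 * L * ((1 + CE) * EV y N ε₁ δ' (K.erase 1) f t) := by
      apply mul_le_mul_of_nonneg_left _ (by positivity)
      apply mul_le_mul_of_nonneg_left _ (by positivity)
      exact EV_mono (erase_subset_erase 1 hKK) f t
    have g5 := calcU (c := (1 / 2) ^ b * CE) (E := 4 * L * ((1 + CE) * EV y N ε₁ δ' (K.erase 1) f t)) (S' := S')
      (VW := V * ∑ n ∈ Icc 1 N, f n * ro y (n + t)) hη0 (by linarith) (by positivity) hE0 hVW g1 g2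
      (by linarith [(abs_le.1 g3).2])
    refine g5.trans ?_
    have g6 : 2 * ((1 / 2) ^ b * CE + η ^ 2 / 2 * S') * (V * ∑ n ∈ Icc 1 N, f n * ro y (n + t)) ≤
        ρ * (V * ∑ n ∈ Icc 1 N, f n * ro y (n + t)) := by
      apply mul_le_mul_of_nonneg_right _ hVW
      rw [hρ, hρ₀]
      have := mul_le_mul_of_nonneg_left hS'le (show 0 ≤ η ^ 2 / 2 by positivity)
      linarith
    have g7 : 2 * (4 * L * ((1 + CE) * EV y N ε₁ δ' (K.erase 1) f t)) ≤ 1 / 2 * (N / L ^ U) := by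
      rw [hZ] at hZt
      simp only at hZt
      linarith
    linarith
  have hTT : ∀ e ∈ K.erase 1, (e : ℝ) ≤ (N : ℝ) ^ (1 - η) ∧ 1 < e ∧ Squarefree e ∧ Ro (zN ε₁ N) e := by
    intro e he
    rw [mem_erase, hK, mem_SD, hz₀] at he
    refine ⟨?_, by omega, he.2.2.1, he.2.2.2⟩
    have h1 : (e : ℝ) ≤ ⌊(N : ℝ) ^ (1 - η)⌋₊ := by exact_mod_cast he.2.1.2
    exact h1.trans (Nat.floor_le (by positivity))
  have hfew : ∀ f : ℕ → ℝ, (∀ n, |f n| ≤ 1) → ∀ S : Finset ℕ, (∀ a ∈ S, a ≤ N ∧ (N : ℝ) / L ^ U < Z f a) →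
      (S.card : ℝ) ≤ (N : ℝ) ^ (1 - η) * L ^ C := by
    intro f hf S hS
    refine FEW (K.erase 1) hTT f hf S fun a ha => ⟨(hS a ha).1, ?_⟩
    have g1 := (hS a ha).2
    rw [hZ] at g1
    simp only at g1
    have e5 : (N : ℝ) / L ^ (U + 1) = N / L ^ U / L := by
      rw [pow_succ L U, div_div]
    rw [e5, div_lt_iff₀ hL0]
    calc (N : ℝ) / L ^ U < 16 * L * ((1 + CE) * EV y N ε₁ δ' (K.erase 1) f a) := g1
      _ = 16 * (1 + CE) * EV y N ε₁ δ' (K.erase 1) f a * L := by ring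
  -- a good shift
  have hNδ : ((N : ℝ) ^ (1 - η) * L ^ C + 1) * (2 * 2 ^ m₀ * L) ≤ x / 16 * N := by
    have h1 : (N : ℝ) ^ (1 - η) * (64 * 2 ^ m₀ / x * L ^ (C + 1)) ≤ N := by
      calc (N : ℝ) ^ (1 - η) * (64 * 2 ^ m₀ / x * L ^ (C + 1)) ≤ (N : ℝ) ^ (1 - η) * Real.exp (η * L) :=
            mul_le_mul_of_nonneg_left f3 (by positivity)
        _ = N := by
            rw [← hNpow, ← Real.rpow_add hN0]
            simp
    have h2 : 1 ≤ (N : ℝ) ^ (1 - η) * L ^ C := by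
      apply one_le_mul_of_one_le_of_one_le
      · exact Real.one_le_rpow (by exact_mod_cast (by omega : 1 ≤ N)) (by linarith)
      · exact one_le_pow₀ hL1
    have e6 : (N : ℝ) ^ (1 - η) * (64 * 2 ^ m₀ / x * L ^ (C + 1)) =
        ((N : ℝ) ^ (1 - η) * L ^ C * 2) * (2 * 2 ^ m₀ * L) * 16 / x := by
      rw [pow_succ]; ring
    rw [e6, div_le_iff₀ hx] at h1
    have h3 : ((N : ℝ) ^ (1 - η) * L ^ C + 1) * (2 * 2 ^ m₀ * L) ≤
        ((N : ℝ) ^ (1 - η) * L ^ C * 2) * (2 * 2 ^ m₀ * L) :=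
      mul_le_mul_of_nonneg_right (by linarith) (by positivity)
    linarith
  obtain ⟨t₀, ht₀1, ht₀2⟩ : ∃ t₀ : ℕ, (t₀ : ℝ) ≤ (N : ℝ) ^ (1 - η) * L ^ C + 1 ∧ (t₀ ≤ N → Z (fun _ => 1) t₀ ≤ N / L ^ U) := by
    by_contra hcon
    push Not at hcon
    obtain ⟨F, hF⟩ : ∃ F : ℕ, F = ⌊(N : ℝ) ^ (1 - η) * L ^ C⌋₊ + 1 := ⟨_, rfl⟩
    have h1 : ∀ a ∈ Icc 1 F, a ≤ N ∧ (N : ℝ) / L ^ U < Z (fun _ => 1) a := by
      intro a ha
      rw [mem_Icc] at ha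
      apply hcon a
      have h2 : (a : ℝ) ≤ F := by exact_mod_cast ha.2
      rw [hF] at h2
      push_cast at h2
      have h3 := Nat.floor_le (show 0 ≤ (N : ℝ) ^ (1 - η) * L ^ C by positivity)
      linarith
    have h2 := hfew (fun _ => 1) (fun _ => by rw [abs_one]) (Icc 1 F) h1
    rw [Nat.card_Icc, Nat.add_sub_cancel, hF] at h2
    push_cast at h2
    have h3 := Nat.lt_floor_add_one ((N : ℝ) ^ (1 - η) * L ^ C)
    linarith
  have ht₀3 : (2 * t₀ * 2 ^ m₀) * L ≤ x / 16 * N := by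
    refine le_trans ?_ hNδ
    calc (2 * (t₀ : ℝ) * 2 ^ m₀) * L = t₀ * (2 * 2 ^ m₀ * L) := by ring
      _ ≤ _ := mul_le_mul_of_nonneg_right ht₀1 (by positivity)
  have ht₀N : t₀ ≤ N := by
    have h1 : (t₀ : ℝ) ≤ N := by
      have h2 : (1 : ℝ) ≤ 2 ^ m₀ := one_le_pow₀ (by norm_num)
      have h3 : (t₀ : ℝ) * 1 ≤ (2 * t₀ * 2 ^ m₀) * L := by
        calc (t₀ : ℝ) * 1 ≤ t₀ * (2 * 2 ^ m₀ * L) := by
              apply mul_le_mul_of_nonneg_left _ (Nat.cast_nonneg _)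
              nlinarith
          _ = _ := by ring
      have h4 : x / 16 * N ≤ 1 * N := mul_le_mul_of_nonneg_right (by linarith) hN0.le
      linarith
    exact_mod_cast h1
  obtain ⟨W, hW⟩ : ∃ W : ℝ, W = ∑ n ∈ Icc 1 N, ro y (n + t₀) := ⟨_, rfl⟩
  have hWint : |W - N * Vz y| ≤ 2 * x' * (N * Vz y) := by
    have h1 := INT {t₀} (card_singleton t₀)
    rw [PT_single, one_mul, pow_one] at h1
    have h2 : (((Icc 1 N).filter (fun n => ∀ t ∈ ({t₀} : Finset ℕ), Ro y (n + t))).card : ℝ) = W := by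
      rw [hW, card_filter]
      push_cast
      refine sum_congr rfl fun n _ => ?_
      unfold ro
      simp only [mem_singleton, forall_eq]
    rw [h2] at h1
    refine h1.trans ?_
    have h3 : cz / L ≤ Vz y := by
      have hy0 : (0 : ℝ) < y := by exact_mod_cast (by omega : 0 < y)
      have hyN : Real.log y ≤ L := by
        rw [hL]
        exact Real.log_le_log hy0 (by exact_mod_cast w1.trans w3)
      have hly : 0 < Real.log y := Real.log_pos (by exact_mod_cast (by omega : 1 < y))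
      exact (div_le_div_of_nonneg_left hcz.le hly hyN).trans (VZ y w2)
    have h4 : (N : ℝ) / L ^ 3 ≤ x' * (N * Vz y) := by
      have h5 : x' * (N * (cz / L)) ≤ x' * (N * Vz y) := by gcongr
      refine le_trans ?_ h5
      rw [div_le_iff₀ (by positivity)]
      have h6 : x' * (N * (cz / L)) * L ^ 3 = N * (x' * cz * L * L) := by
        field_simp
      rw [h6]
      rw [div_le_iff₀ (by positivity)] at hLc
      have h7 : 1 ≤ x' * cz * L := by linarith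
      have h8 : 1 ≤ x' * cz * L * L := one_le_mul_of_one_le_of_one_le h7 hL1
      calc (N : ℝ) = N * 1 := (mul_one _).symm
        _ ≤ _ := mul_le_mul_of_nonneg_left h8 hN0.le
    have h5 : 2 * x' * (N * Vz y) = x' * (N * Vz y) + x' * (N * Vz y) := by ring
    rw [h5]
    linarith
  obtain ⟨w, hw⟩ : ∃ w : ℝ, w = W / (N * Vz y) := ⟨_, rfl⟩
  have hNV : 0 < N * Vz y := by positivity
  have hWw : W = w * (N * Vz y) := by rw [hw]; field_simp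
  have hw1 : |w - 1| ≤ 2 * x' := by
    have e7 : W - N * Vz y = (w - 1) * (N * Vz y) := by rw [hWw]; ring
    rw [e7, abs_mul, abs_of_pos hNV] at hWint
    exact le_of_mul_le_mul_right hWint hNV
  refine ⟨Z, w2, w7, w3, by rw [← hm₀]; exact w6, ?_, hfew⟩
  intro f hf t ht hZt
  have hW0 : 0 ≤ ∑ n ∈ Icc 1 N, f n * ro y (n + t) := sum_nonneg fun n _ => mul_nonneg (hf n).1 (ro_nonneg _ _)
  refine ⟨?_, fun c hc => ?_⟩
  · -- rough numbers
    have h1 := KEY c1 (Cf_c1 N) f hf t ht hZt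
    have h2 : ∑ n ∈ Icc 1 N, f n * wU z₀ c1 (n + t) = ∑ n ∈ Icc 1 N, f n * ro z₀ (n + t) := by
      refine sum_congr rfl fun n hn => ?_
      rw [mem_Icc] at hn
      rw [wU_c1 z₀ (n + t) (by omega)]
    have h3 : ∑ d ∈ K, c1 d / d = 1 := by
      unfold c1
      rw [sum_eq_single 1]
      · simp
      · intro d _ hd
        rw [if_neg hd, zero_div]
      · intro h
        exfalso
        apply h
        rw [hK, mem_SD]
        refine ⟨⟨le_rfl, ?_⟩, squarefree_one, fun p hp _ hpd => hp.one_lt.ne' (Nat.dvd_one.1 hpd)⟩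
        apply Nat.le_floor
        rw [Nat.cast_one]
        exact Real.one_le_rpow (by exact_mod_cast (by omega : 1 ≤ N)) (by linarith)
    rw [h2, h3, one_mul] at h1
    have h4 : V ≤ 2 / ε₁ / (L * Vz y) := by
      rw [le_div_iff₀ (by positivity)]
      calc V * (L * Vz y) = (V * Vz y) * L := by ring
        _ = Vz z₀ * L := by rw [hVV]
        _ ≤ 2 / ε₁ / L * L := mul_le_mul_of_nonneg_right hVz₀ hL0.le
        _ = 2 / ε₁ := by field_simp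
    have h5 : ρ ≤ 1 / 2 := by
      have h6 : ρ * 1 ≤ ρ * (2 / ε₁) := by
        apply mul_le_mul_of_nonneg_left _ hρ0
        rw [le_div_iff₀ hε₁0]
        linarith
      linarith
    have h6 : (V * ∑ n ∈ Icc 1 N, f n * ro y (n + t)) ≤ 2 / ε₁ / (L * Vz y) * ∑ n ∈ Icc 1 N, f n * ro y (n + t) :=
      mul_le_mul_of_nonneg_right h4 hW0
    have h7 : 0 ≤ V * ∑ n ∈ Icc 1 N, f n * ro y (n + t) := mul_nonneg hV0 hW0
    have h8 : ρ * (V * ∑ n ∈ Icc 1 N, f n * ro y (n + t)) ≤ 1 / 2 * (V * ∑ n ∈ Icc 1 N, f n * ro y (n + t)) :=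
      mul_le_mul_of_nonneg_right h5 h7
    have h9 : 3 / ε₁ / (L * Vz y) * ∑ n ∈ Icc 1 N, f n * ro y (n + t) =
        3 / 2 * (2 / ε₁ / (L * Vz y) * ∑ n ∈ Icc 1 N, f n * ro y (n + t)) := by
      field_simp
    rw [h9]
    linarith [(abs_le.1 h1).2]
  · -- all coefficients
    have hkey0 := KEY c hc (fun _ => 1) (fun _ => ⟨zero_le_one, le_rfl⟩) t₀ ht₀N (ht₀2 ht₀N)
    simp only [one_mul] at hkey0
    rw [← hW] at hkey0
    have hsh := shift_bd (g := wU z₀ c) (N := N) (t := t₀) (D := 2 ^ m₀)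
      (fun m h1 h2 => wU_le (by omega) hc w6 h1 h2) ht₀N
    have hX : |∑ n ∈ Icc 1 N, wU z₀ c n - (∑ d ∈ K, c d / d) * (V * (w * (N * Vz y)))| ≤
        ρ * (V * (w * (N * Vz y))) + N / L ^ U + 2 * t₀ * 2 ^ m₀ := by
      rw [← hWw]
      obtain ⟨a1, a2⟩ := abs_le.1 hkey0
      obtain ⟨a3, a4⟩ := abs_le.1 hsh
      rw [abs_le]
      constructor <;> linarith
    have hAK : |∑ d ∈ K, c d / d| ≤ CE := by
      obtain ⟨g1, _⟩ := w8 K (by rw [hK])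
      refine le_trans ?_ g1
      refine (abs_sum_le_sum_abs _ _).trans (sum_le_sum fun d hd => ?_)
      rw [hK, mem_SD] at hd
      have hZN : ⌊(N : ℝ) ^ (1 - η)⌋₊ ≤ N := by
        apply Nat.floor_le_of_le
        calc (N : ℝ) ^ (1 - η) ≤ (N : ℝ) ^ (1 : ℝ) :=
              Real.rpow_le_rpow_of_exponent_le (by exact_mod_cast (by omega : 1 ≤ N)) (by linarith)
          _ = N := Real.rpow_one _
      rw [abs_div, abs_of_nonneg (show (0 : ℝ) ≤ d from Nat.cast_nonneg d)]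
      apply div_le_div_of_nonneg_right _ (Nat.cast_nonneg d)
      exact Cf_one (by omega) hc d hd.1.1 (by omega)
    refine fin_ug (D := D) (ρ := ρ) (T0 := 2 * t₀ * 2 ^ m₀) hx hx8 hL0 hN0 hVy hV0 hD0 hW0 hρ0 (hw1.trans hx'1)
      (hw1.trans hx'2) ?_ hρV hX (by positivity) ?_ (KEY c hc f hf t ht hZt)
    · rw [hVV, hD]
      calc |∑ d ∈ K, c d / d| * Vz z₀ * L ≤ CE * (2 / ε₁ / L) * L := by
            apply mul_le_mul_of_nonneg_right _ hL0.le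
            exact mul_le_mul hAK hVz₀ (Vz_pos z₀).le hCE0.le
        _ = CE * (2 / ε₁) := by field_simp
    · have h1 : (N : ℝ) / L ^ U * L ≤ x / 8 * N := by
        obtain ⟨j, rfl⟩ : ∃ j, U = j + 2 := ⟨U - 2, by omega⟩
        rw [div_mul_eq_mul_div, div_le_iff₀ (by positivity)]
        rw [div_le_iff₀ hx] at hLx
        have h2 : (1 : ℝ) ≤ L ^ j := one_le_pow₀ hL1
        have h3 : 1 ≤ x / 8 * L := by linarith
        calc (N : ℝ) * L = N * L * 1 * 1 := by ring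
          _ ≤ N * L * (x / 8 * L) * L ^ j := by gcongr
          _ = x / 8 * N * L ^ (j + 2) := by ring
      rw [add_mul]
      have h4 : x / 16 * (N : ℝ) ≤ x / 8 * N := mul_le_mul_of_nonneg_right (by linarith) hN0.le
      linarith

end Pool.Agent.H528.UG
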