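import Mathlib
import Pool.Agent.H528.UGB
import Pool.Agent.H528.MoC

/-! From the ideal to the coefficients. -/

set_option autoImplicit false

namespace Pool.Agent.H528.UG

open Finset Filter Topology
open Pool.Agent.Y822
open Pool.Agent.Y822.Q (VP_PP VP_bd Vz_pos Vz_up EE_le)
open Pool.Agent.Y822.V (EV foV)
open Pool.Agent.Y822.Par3 Pool.Agent.Y822.QF
open Pool.Agent.H373R2.T7 (pz Vz mem_pz)
open Pool.Agent.H387R2.Uni (nuT Adm locT CT)
open Pool.Agent.H528.Stp Pool.Agent.H528.Gam Pool.Agent.H528.Avg Pool.Agent.H528.Cst Pool.Agent.H528.Mo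

/-- the normalised logarithm -/
noncomputable def lg (N p : ℕ) : ℝ := Real.log p / Real.log N

lemma lg_nonneg (N p : ℕ) : 0 ≤ lg N p := div_nonneg (Real.log_natCast_nonneg p) (Real.log_natCast_nonneg N)

/-- the coefficients of an element of the ideal -/
noncomputable def cH (N : ℕ) (H : Finset ℕ → ℝ) (d : ℕ) : ℝ :=
  (∑ A ∈ d.primeFactors.powerset, H A * (-1) ^ (d.primeFactors \ A).card) * (1 - Real.log d / Real.log N) ^ 2

lemma log_prod_primes {T : Finset ℕ} (hT : ∀ p ∈ T, p.Prime) : Real.log ((∏ p ∈ T, p : ℕ) : ℝ) = ∑ p ∈ T, Real.log p := by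
  push_cast
  exact Real.log_prod fun p hp => by exact_mod_cast (hT p hp).ne_zero

lemma sum_lg_le {N d : ℕ} (hd : 1 ≤ d) : ∑ p ∈ d.primeFactors, lg N p ≤ Real.log d / Real.log N := by
  unfold lg
  rw [← sum_div]
  apply div_le_div_of_nonneg_right _ (Real.log_natCast_nonneg N)
  rw [← log_prod_primes fun p hp => Nat.prime_of_mem_primeFactors hp]
  have h1 : ∏ p ∈ d.primeFactors, p ∣ d := Nat.prod_primeFactors_dvd d
  have h2 : 0 < ∏ p ∈ d.primeFactors, p := Nat.pos_of_dvd_of_pos h1 hd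
  apply Real.log_le_log (by exact_mod_cast h2)
  exact_mod_cast Nat.le_of_dvd hd h1

lemma sum_lg_eq {N d : ℕ} (hd : Squarefree d) : ∑ p ∈ d.primeFactors, lg N p = Real.log d / Real.log N := by
  unfold lg
  rw [← sum_div, ← log_prod_primes fun p hp => Nat.prime_of_mem_primeFactors hp,
    Nat.prod_primeFactors_of_squarefree hd]

lemma log_le_two {N d : ℕ} (hN : 2 ≤ N) (hd1 : 1 ≤ d) (hd : d ≤ 2 * N) : Real.log d / Real.log N ≤ 2 := by
  have hL : 0 < Real.log N := Real.log_pos (by exact_mod_cast (by omega : 1 < N))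
  rw [div_le_iff₀ hL]
  have h5 : Real.log d ≤ Real.log ((N : ℝ) ^ 2) := by
    apply Real.log_le_log (by exact_mod_cast hd1)
    have h1 : (d : ℝ) ≤ 2 * N := by exact_mod_cast hd
    have h2 : (2 : ℝ) ≤ N := by exact_mod_cast hN
    nlinarith
  rw [Real.log_pow] at h5
  push_cast at h5
  exact h5

lemma Cf_cH {N : ℕ} (hN : 2 ≤ N) {H : Finset ℕ → ℝ} {B : ℝ} (hB : 0 < B)
    (h : ∀ T : Finset ℕ, ∑ q ∈ T, lg N q ≤ 2 → ∑ A ∈ T.powerset, |H A| ≤ B) : Cf N (fun d => 1 / B * cH N H d) := by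
  intro d hd1 hd2
  show |1 / B * cH N H d| ≤ _
  unfold cH
  have h1 := h d.primeFactors ((sum_lg_le hd1).trans (log_le_two hN hd1 hd2))
  have h2 : |∑ A ∈ d.primeFactors.powerset, H A * (-1) ^ (d.primeFactors \ A).card| ≤ B := by
    refine (abs_sum_le_sum_abs _ _).trans (le_trans (le_of_eq ?_) h1)
    refine sum_congr rfl fun A _ => ?_
    rw [abs_mul, abs_pow, abs_neg, abs_one, one_pow, mul_one]
  rw [abs_mul, abs_mul, abs_of_nonneg (show (0 : ℝ) ≤ 1 / B by positivity),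
    abs_of_nonneg (sq_nonneg (1 - Real.log d / Real.log N))]
  calc 1 / B * (|∑ A ∈ d.primeFactors.powerset, H A * (-1) ^ (d.primeFactors \ A).card| * (1 - Real.log d / Real.log N) ^ 2) ≤
        1 / B * (B * (1 - Real.log d / Real.log N) ^ 2) := by gcongr
    _ = _ := by field_simp

/-- sums over pairs of subsets -/
lemma pairs (P : Finset ℕ) (g : Finset ℕ → Finset ℕ → ℝ) :
    ∑ T ∈ P.powerset, ∑ A ∈ T.powerset, g A (T \ A) = ∑ A ∈ P.powerset, ∑ B ∈ (P \ A).powerset, g A B := by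
  rw [sum_sigma', sum_sigma']
  apply sum_nbij' (fun x => ⟨x.2, x.1 \ x.2⟩) (fun x => ⟨x.1 ∪ x.2, x.1⟩)
  · rintro ⟨T, A⟩ h
    rw [mem_sigma, mem_powerset, mem_powerset] at h ⊢
    exact ⟨h.2.trans h.1, Finset.sdiff_subset_sdiff h.1 (subset_refl _)⟩
  · rintro ⟨A, B⟩ h
    rw [mem_sigma, mem_powerset, mem_powerset] at h ⊢
    exact ⟨union_subset h.1 (h.2.trans Finset.sdiff_subset), subset_union_left⟩
  · rintro ⟨T, A⟩ h
    rw [mem_sigma, mem_powerset, mem_powerset] at h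
    simp only [Finset.union_sdiff_of_subset h.2]
  · rintro ⟨A, B⟩ h
    rw [mem_sigma, mem_powerset, mem_powerset] at h
    have h1 : Disjoint A B := by
      rw [disjoint_left]
      intro p hp hq
      exact (Finset.mem_sdiff.1 (h.2 hq)).2 hp
    have h2 : (A ∪ B) \ A = B := by
      rw [Finset.union_sdiff_left]
      exact Finset.sdiff_eq_self_of_disjoint h1.symm
    simp only [h2]
  · rintro ⟨T, A⟩ _
    rfl

lemma DS_cH {N m : ℕ} (hm : 1 ≤ m) (H : Finset ℕ → ℝ) : DS (cH N H) m = Mo.WH (lg N) H m.primeFactors := by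
  classical
  have h2 : (UniqueFactorizationMonoid.normalizedFactors m).toFinset = m.primeFactors := by
    rw [Nat.factors_eq]
    rfl
  unfold DS Mo.WH
  rw [Nat.sum_divisors_filter_squarefree (by omega : m ≠ 0), h2]
  have h3 : ∀ T ∈ m.primeFactors.powerset, cH N H (T.val.prod) =
      ∑ A ∈ T.powerset, H A * (-1) ^ (T \ A).card * (1 - ∑ p ∈ A, lg N p - ∑ p ∈ T \ A, lg N p) ^ 2 := by
    intro T hT
    have hTp : ∀ p ∈ T, p.Prime := fun p hp => Nat.prime_of_mem_primeFactors (mem_powerset.1 hT hp)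
    have e1 : T.val.prod = ∏ p ∈ T, p := by rw [Finset.prod_eq_multiset_prod, Multiset.map_id']
    have e2 : (∏ p ∈ T, p).primeFactors = T := Nat.primeFactors_prod hTp
    unfold cH
    rw [e1, e2, sum_mul]
    refine sum_congr rfl fun A hA => ?_
    rw [mem_powerset] at hA
    congr 2
    rw [log_prod_primes hTp, sum_div]
    have h4 : ∑ p ∈ T \ A, Real.log p / Real.log N + ∑ p ∈ A, Real.log p / Real.log N = ∑ p ∈ T, Real.log p / Real.log N :=
      Finset.sum_sdiff hA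
    unfold lg
    linarith
  rw [sum_congr rfl h3, pairs m.primeFactors (fun A B => H A * (-1) ^ B.card * (1 - ∑ p ∈ A, lg N p - ∑ p ∈ B, lg N p) ^ 2)]
  refine sum_congr rfl fun A _ => ?_
  unfold SS
  rw [mul_sum]
  exact sum_congr rfl fun B _ => by ring

open Classical in
/-- the weights of the products of `r` primes -/
noncomputable def wM (N z : ℕ) (l : List ℕ) (m : ℕ) : ℝ :=
  ro z m * (if Squarefree m then M (lg N) l m.primeFactors else 0)

lemma ro_le_one (z m : ℕ) : ro z m ≤ 1 := by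
  unfold ro
  split_ifs
  · exact le_rfl
  · exact zero_le_one

lemma wM_bd {N z m : ℕ} (hN : 2 ≤ N) (hm1 : 1 ≤ m) (hm : m ≤ 2 * N) (l : List ℕ) :
    0 ≤ wM N z l m ∧ wM N z l m ≤ 2 ^ (l.length + l.sum) := by
  unfold wM
  have h1 := M_le (lg_nonneg N) l m.primeFactors ((sum_lg_le hm1).trans (log_le_two hN hm1 hm))
  have h2 := M_nonneg (lg_nonneg N) l m.primeFactors
  split_ifs with h
  · refine ⟨mul_nonneg (ro_nonneg z m) h2, ?_⟩
    calc ro z m * M (lg N) l m.primeFactors ≤ 1 * 2 ^ (l.length + l.sum) :=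
          mul_le_mul (ro_le_one z m) h1 h2 zero_le_one
      _ = _ := one_mul _
  · rw [mul_zero]
    exact ⟨le_rfl, by positivity⟩

/-- the constant in the comparison -/
noncomputable def KK (B c : ℝ) (E M : ℕ) : ℝ := 2 ^ E + |c| * 2 ^ 1 + B * 2 ^ M + 1

open Classical in
/-- **the comparison at a point** -/
lemma cmp_pt {N z m M' : ℕ} {θ B : ℝ} (hN : 2 ≤ N) (hm1 : 1 ≤ m) (hm : m ≤ 2 * N) (hB : 0 < B)
    (hM : ((2 * N : ℕ) : ℝ) < (z : ℝ) ^ (M' + 1)) (hθ0 : 0 ≤ θ) (h2N : (2 : ℝ) ≤ (N : ℝ) ^ θ)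
    {k : ℕ} {l : List ℕ} {H : Finset ℕ → ℝ}
    (h1 : ∀ T : Finset ℕ, ∑ q ∈ T, lg N q ≤ 2 → ∑ A ∈ T.powerset, |H A| ≤ B)
    (h2 : ∀ P : Finset ℕ, |∑ q ∈ P, lg N q - 1| ≤ θ →
      |M (lg N) (k :: l) P - cl k l * M (lg N) [0] P - Mo.WH (lg N) H P| ≤ B * θ) :
    |wM N z (k :: l) m - cl k l * wM N z [0] m - B * wU z (fun d => 1 / B * cH N H d) m| ≤
      B * θ * ro z m + KK B (cl k l) ((k :: l).length + (k :: l).sum) M' *
        ((if Ro z m ∧ ¬ Squarefree m then 1 else 0) + (if (m : ℝ) ≤ (N : ℝ) ^ (1 - θ) then 1 else 0)) := by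
  have hN1 : (1 : ℝ) < N := by exact_mod_cast (by omega : 1 < N)
  have hN0 : (0 : ℝ) < N := by linarith
  have hL : 0 < Real.log N := Real.log_pos hN1
  have hCf := Cf_cH hN hB h1
  have hU := wU_le (z := z) (M := M') hN hCf hM hm1 hm
  have hK0 : 0 ≤ KK B (cl k l) ((k :: l).length + (k :: l).sum) M' := by unfold KK; positivity
  have hro0 := ro_nonneg z m
  have hBθ : 0 ≤ B * θ * ro z m := by positivity
  -- trivial bound
  have htriv : |wM N z (k :: l) m - cl k l * wM N z [0] m - B * wU z (fun d => 1 / B * cH N H d) m| ≤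
      KK B (cl k l) ((k :: l).length + (k :: l).sum) M' := by
    obtain ⟨a1, a2⟩ := wM_bd (z := z) hN hm1 hm (k :: l)
    obtain ⟨a3, a4⟩ := wM_bd (z := z) hN hm1 hm [0]
    have e : ([0] : List ℕ).length + ([0] : List ℕ).sum = 1 := by simp
    rw [e] at a4
    have h3 : |cl k l * wM N z [0] m| ≤ |cl k l| * 2 ^ 1 := by
      rw [abs_mul, abs_of_nonneg a3]
      exact mul_le_mul_of_nonneg_left a4 (abs_nonneg _)
    have h4 : |B * wU z (fun d => 1 / B * cH N H d) m| ≤ B * 2 ^ M' := by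
      rw [abs_mul, abs_of_pos hB]
      exact mul_le_mul_of_nonneg_left hU hB.le
    refine (abs_sub _ _).trans ?_
    have h5 := abs_sub (wM N z (k :: l) m) (cl k l * wM N z [0] m)
    rw [abs_of_nonneg a1] at h5
    unfold KK
    linarith
  by_cases hro : Ro z m
  swap
  · have h3 : ro z m = 0 := by unfold ro; rw [if_neg hro]
    unfold wM wU
    rw [h3]
    simp only [zero_mul, mul_zero, sub_zero, abs_zero, zero_add]
    apply mul_nonneg hK0
    split_ifs <;> norm_num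
  by_cases hsq : Squarefree m
  swap
  · rw [if_pos ⟨hro, hsq⟩]
    refine htriv.trans ?_
    have h3 : (0 : ℝ) ≤ if (m : ℝ) ≤ (N : ℝ) ^ (1 - θ) then (1 : ℝ) else 0 := by split_ifs <;> norm_num
    nlinarith
  by_cases hsm : (m : ℝ) ≤ (N : ℝ) ^ (1 - θ)
  · rw [if_pos hsm]
    refine htriv.trans ?_
    have h3 : (0 : ℝ) ≤ if Ro z m ∧ ¬ Squarefree m then (1 : ℝ) else 0 := by split_ifs <;> norm_num
    nlinarith
  · rw [if_neg hsm, if_neg (fun h => h.2 hsq), add_zero, mul_zero, add_zero]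
    unfold wM wU
    rw [if_pos hsq, if_pos hsq, ro_of hro, one_mul, one_mul, one_mul, mul_one]
    have e1 : DS (fun d => 1 / B * cH N H d) m = 1 / B * Mo.WH (lg N) H m.primeFactors := by
      rw [← DS_cH hm1]
      unfold DS
      rw [mul_sum]
    have e2 : B * (1 / B * Mo.WH (lg N) H m.primeFactors) = Mo.WH (lg N) H m.primeFactors := by field_simp
    rw [e1, e2]
    apply h2
    rw [sum_lg_eq hsq]
    push Not at hsm
    have hm0 : (0 : ℝ) < m := by exact_mod_cast hm1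
    rw [abs_le]
    constructor
    · have h3 : (1 - θ) * Real.log N ≤ Real.log m := by
        rw [← Real.log_rpow hN0]
        exact Real.log_le_log (by positivity) hsm.le
      have h4 : 1 - θ ≤ Real.log m / Real.log N := by rw [le_div_iff₀ hL]; exact h3
      linarith
    · have h3 : Real.log m ≤ (1 + θ) * Real.log N := by
        rw [← Real.log_rpow hN0]
        apply Real.log_le_log hm0
        rw [Real.rpow_add hN0, Real.rpow_one]
        have h5 : (m : ℝ) ≤ 2 * N := by exact_mod_cast hm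
        calc (m : ℝ) ≤ N * 2 := by linarith
          _ ≤ N * (N : ℝ) ^ θ := mul_le_mul_of_nonneg_left h2N hN0.le
      have h4 : Real.log m / Real.log N ≤ 1 + θ := by rw [div_le_iff₀ hL]; exact h3
      linarith

open Classical in
/-- **the comparison in sums** -/
lemma cmp_sum {N z M' : ℕ} {θ B : ℝ} (hN : 2 ≤ N) (hz : 1 ≤ z) (hB : 0 < B)
    (hM : ((2 * N : ℕ) : ℝ) < (z : ℝ) ^ (M' + 1)) (hθ0 : 0 ≤ θ) (h2N : (2 : ℝ) ≤ (N : ℝ) ^ θ)
    {k : ℕ} {l : List ℕ} {H : Finset ℕ → ℝ}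
    (h1 : ∀ T : Finset ℕ, ∑ q ∈ T, lg N q ≤ 2 → ∑ A ∈ T.powerset, |H A| ≤ B)
    (h2 : ∀ P : Finset ℕ, |∑ q ∈ P, lg N q - 1| ≤ θ →
      |M (lg N) (k :: l) P - cl k l * M (lg N) [0] P - Mo.WH (lg N) H P| ≤ B * θ)
    (f : ℕ → ℝ) (hf : ∀ n, 0 ≤ f n ∧ f n ≤ 1) (t : ℕ) (ht : t ≤ N) :
    |∑ n ∈ Icc 1 N, f n * wM N z (k :: l) (n + t) - cl k l * ∑ n ∈ Icc 1 N, f n * wM N z [0] (n + t) -
      B * ∑ n ∈ Icc 1 N, f n * wU z (fun d => 1 / B * cH N H d) (n + t)| ≤
      B * θ * ∑ n ∈ Icc 1 N, f n * ro z (n + t) +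
        KK B (cl k l) ((k :: l).length + (k :: l).sum) M' * (3 * N / z + (N : ℝ) ^ (1 - θ)) := by
  obtain ⟨K, hK⟩ : ∃ K : ℝ, K = KK B (cl k l) ((k :: l).length + (k :: l).sum) M' := ⟨_, rfl⟩
  have hK0 : 0 ≤ K := by rw [hK]; unfold KK; positivity
  rw [← hK]
  rw [mul_sum, mul_sum, ← sum_sub_distrib, ← sum_sub_distrib]
  have h3 : ∀ n ∈ Icc 1 N, |f n * wM N z (k :: l) (n + t) - cl k l * (f n * wM N z [0] (n + t)) -
      B * (f n * wU z (fun d => 1 / B * cH N H d) (n + t))| ≤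
      B * θ * (f n * ro z (n + t)) + K * ((if Ro z (n + t) ∧ ¬ Squarefree (n + t) then 1 else 0) +
        (if ((n + t : ℕ) : ℝ) ≤ (N : ℝ) ^ (1 - θ) then 1 else 0)) := by
    intro n hn
    rw [mem_Icc] at hn
    have h4 := cmp_pt (z := z) (m := n + t) hN (by omega) (by omega) hB hM hθ0 h2N h1 h2
    rw [← hK] at h4
    have e1 : f n * wM N z (k :: l) (n + t) - cl k l * (f n * wM N z [0] (n + t)) -
      B * (f n * wU z (fun d => 1 / B * cH N H d) (n + t)) =
      f n * (wM N z (k :: l) (n + t) - cl k l * wM N z [0] (n + t) - B * wU z (fun d => 1 / B * cH N H d) (n + t)) := by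
      ring
    rw [e1, abs_mul, abs_of_nonneg (hf n).1]
    refine (mul_le_mul_of_nonneg_left h4 (hf n).1).trans ?_
    rw [mul_add]
    have h5 : 0 ≤ K * ((if Ro z (n + t) ∧ ¬ Squarefree (n + t) then (1 : ℝ) else 0) +
        (if ((n + t : ℕ) : ℝ) ≤ (N : ℝ) ^ (1 - θ) then (1 : ℝ) else 0)) := by
      apply mul_nonneg hK0
      split_ifs <;> norm_num
    have h6 := mul_le_mul_of_nonneg_right (hf n).2 h5
    rw [one_mul] at h6
    have e2 : f n * (B * θ * ro z (n + t)) = B * θ * (f n * ro z (n + t)) := by ring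
    rw [e2]
    linarith
  refine (abs_sum_le_sum_abs _ _).trans ((sum_le_sum h3).trans ?_)
  rw [sum_add_distrib, ← mul_sum, ← mul_sum, sum_add_distrib]
  apply add_le_add le_rfl
  apply mul_le_mul_of_nonneg_left _ hK0
  apply add_le_add
  · rw [← sum_filter, sum_const, nsmul_eq_mul, mul_one]
    exact cnt_nsq hz ht
  · rw [← sum_filter, sum_const, nsmul_eq_mul, mul_one]
    have h4 : ((Icc 1 N).filter (fun n : ℕ => ((n + t : ℕ) : ℝ) ≤ (N : ℝ) ^ (1 - θ))).card ≤ ⌊(N : ℝ) ^ (1 - θ)⌋₊ := by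
      have h5 : (Icc 1 N).filter (fun n : ℕ => ((n + t : ℕ) : ℝ) ≤ (N : ℝ) ^ (1 - θ)) ⊆ Icc 1 ⌊(N : ℝ) ^ (1 - θ)⌋₊ := by
        intro n hn
        rw [mem_filter, mem_Icc] at hn
        rw [mem_Icc]
        refine ⟨hn.1.1, Nat.le_floor ?_⟩
        refine le_trans ?_ hn.2
        push_cast
        linarith [Nat.cast_nonneg (α := ℝ) t]
      have h6 := card_le_card h5
      rwa [Nat.card_Icc, Nat.add_sub_cancel] at h6
    have h7 : ((⌊(N : ℝ) ^ (1 - θ)⌋₊ : ℕ) : ℝ) ≤ (N : ℝ) ^ (1 - θ) := Nat.floor_le (by positivity)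
    exact le_trans (by exact_mod_cast h4) h7

end Pool.Agent.H528.UG
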