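import Mathlib
import Pool.Agent.H528.UGC
import Pool.Agent.H528.MeB

/-! The means of the weights of the products of `r` primes: the recursion and the upper bound. -/

set_option autoImplicit false

namespace Pool.Agent.H528.Mn

open Finset Filter
open Pool.Agent.Y822
open Pool.Agent.Y822.Par3
open Pool.Agent.H528.Avg (PR mem_PR th th_eq th_le th_nonneg sum_PR_sub ro_of)
open Pool.Agent.H528.Mo
open Pool.Agent.H528.UG (wM lg lg_nonneg wM_bd)

lemma pow_diff (k : ℕ) {a b : ℝ} (ha : 0 ≤ a) (hab : a ≤ b) : b * (b ^ k - a ^ k) ≤ k * b ^ k * (b - a) := by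
  have hb : 0 ≤ b := ha.trans hab
  induction k with
  | zero => simp
  | succ k ih =>
    have h1 : a ^ k ≤ b ^ k := pow_le_pow_left₀ ha hab k
    have e : b * (b ^ (k + 1) - a ^ (k + 1)) = b * (b * (b ^ k - a ^ k)) + b * (a ^ k * (b - a)) := by ring
    rw [e]
    have h2 : b * (b * (b ^ k - a ^ k)) ≤ b * (k * b ^ k * (b - a)) := mul_le_mul_of_nonneg_left ih hb
    have h3 : b * (a ^ k * (b - a)) ≤ b * (b ^ k * (b - a)) :=
      mul_le_mul_of_nonneg_left (mul_le_mul_of_nonneg_right h1 (by linarith)) hb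
    have e2 : ((k + 1 : ℕ) : ℝ) * b ^ (k + 1) * (b - a) = b * (k * b ^ k * (b - a)) + b * (b ^ k * (b - a)) := by
      push_cast; ring
    rw [e2]
    linarith

lemma pow_diff1 (n : ℕ) {a b : ℝ} (ha : 0 ≤ a) (hab : a ≤ b) (hb1 : b ≤ 1) : b ^ n - a ^ n ≤ n * (b - a) := by
  induction n with
  | zero => simp
  | succ n ih =>
    have e : b ^ (n + 1) - a ^ (n + 1) = b * (b ^ n - a ^ n) + a ^ n * (b - a) := by ring
    have hb : 0 ≤ b := ha.trans hab
    have h1 : a ^ n ≤ b ^ n := pow_le_pow_left₀ ha hab n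
    have h2 : b * (b ^ n - a ^ n) ≤ 1 * (b ^ n - a ^ n) := mul_le_mul_of_nonneg_right hb1 (by linarith)
    have h3 : a ^ n * (b - a) ≤ 1 * (b - a) :=
      mul_le_mul_of_nonneg_right (pow_le_one₀ ha (hab.trans hb1)) (by linarith)
    rw [e]
    push_cast
    linarith

/-- Chebyshev's logarithmic sum -/
lemma cheb (X : ℕ) (hX : 1 ≤ X) : ∑ p ∈ PR 0 X, Real.log p * (Real.log X - Real.log p) ≤ 2 * X := by
  obtain ⟨w, hw⟩ : ∃ w : ℕ → ℝ, w = fun n => if n.Prime then Real.log n else 0 := ⟨_, rfl⟩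
  have hW : ∀ n : ℕ, ∑ m ∈ Icc 1 n, w m = th n := by
    intro n
    rw [hw]
    unfold th
    rw [sum_PR_eq]
  have h1 : ∑ p ∈ PR 0 X, Real.log p * (Real.log X - Real.log p) =
      (∑ n ∈ Icc 1 X, w n) * Real.log X - ∑ n ∈ Icc 1 X, w n * Real.log n := by
    rw [sum_PR_eq, sum_mul, ← sum_sub_distrib]
    refine sum_congr rfl fun n _ => ?_
    rw [hw]
    dsimp only
    split_ifs <;> ring
  rw [h1, abel w (fun n => Real.log n) X hX]
  have h2 : ∑ n ∈ Ico 1 X, (Real.log (n + 1 : ℕ) - Real.log n) * ∑ m ∈ Icc 1 n, w m ≤ ∑ n ∈ Ico 1 X, (2 : ℝ) := by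
    refine sum_le_sum fun n hn => ?_
    rw [mem_Ico] at hn
    obtain ⟨g1, g2⟩ := log_step n hn.1
    rw [hW]
    have hn0 : (0 : ℝ) < n := by exact_mod_cast hn.1
    calc (Real.log (n + 1 : ℕ) - Real.log n) * th n ≤ 1 / n * (2 * n) :=
          mul_le_mul g2 (th_le n) (th_nonneg n) (by positivity)
      _ = 2 := by field_simp
  rw [sum_const, Nat.card_Ico, nsmul_eq_mul] at h2
  have h3 : ((X - 1 : ℕ) : ℝ) ≤ X := by exact_mod_cast Nat.sub_le X 1
  linarith

/-- the powers of the logarithm over the primes -/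
lemma theta_k (k : ℕ) : ∃ C : ℝ, 0 ≤ C ∧ ∀ X : ℕ, 2 ≤ X →
    |∑ p ∈ PR 0 X, Real.log p ^ (k + 1) - X * Real.log X ^ k| ≤ C * (X * Real.log X ^ k / Real.log X) := by
  obtain ⟨C, hC, h⟩ := Pool.Agent.H442R2.EHI.PntErrAux.thetaU 1
  refine ⟨C + 2 * k, by positivity, fun X hX => ?_⟩
  have h1 := h X hX
  rw [← th_eq, pow_one] at h1
  have hlX : 0 < Real.log X := Real.log_pos (by exact_mod_cast (by omega : 1 < X))
  have hX0 : (0 : ℝ) < X := by exact_mod_cast (by omega : 0 < X)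
  have h2 : |Real.log X ^ k * th X - ∑ p ∈ PR 0 X, Real.log p ^ (k + 1)| ≤ k * Real.log X ^ k / Real.log X * (2 * X) := by
    have h3 : ∀ p ∈ PR 0 X, 0 ≤ Real.log X ^ k * Real.log p - Real.log p ^ (k + 1) ∧
        Real.log X ^ k * Real.log p - Real.log p ^ (k + 1) ≤
          k * Real.log X ^ k / Real.log X * (Real.log p * (Real.log X - Real.log p)) := by
      intro p hp
      rw [mem_PR] at hp
      have hp0 : (0 : ℝ) < p := by exact_mod_cast hp.2.pos
      have hlp : 0 ≤ Real.log p := Real.log_natCast_nonneg p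
      have hlpX : Real.log p ≤ Real.log X := Real.log_le_log hp0 (by exact_mod_cast hp.1.2)
      have e : Real.log X ^ k * Real.log p - Real.log p ^ (k + 1) = Real.log p * (Real.log X ^ k - Real.log p ^ k) := by
        rw [pow_succ]; ring
      rw [e]
      constructor
      · exact mul_nonneg hlp (sub_nonneg.2 (pow_le_pow_left₀ hlp hlpX k))
      · have g := pow_diff k hlp hlpX
        have g2 : Real.log X ^ k - Real.log p ^ k ≤ k * Real.log X ^ k / Real.log X * (Real.log X - Real.log p) := by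
          rw [div_mul_eq_mul_div, le_div_iff₀ hlX]
          linarith
        calc Real.log p * (Real.log X ^ k - Real.log p ^ k) ≤
              Real.log p * (k * Real.log X ^ k / Real.log X * (Real.log X - Real.log p)) := mul_le_mul_of_nonneg_left g2 hlp
          _ = _ := by ring
    have e : Real.log X ^ k * th X - ∑ p ∈ PR 0 X, Real.log p ^ (k + 1) =
        ∑ p ∈ PR 0 X, (Real.log X ^ k * Real.log p - Real.log p ^ (k + 1)) := by
      unfold th
      rw [mul_sum, sum_sub_distrib]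
    rw [e, abs_of_nonneg (sum_nonneg fun p hp => (h3 p hp).1)]
    refine (sum_le_sum fun p hp => (h3 p hp).2).trans ?_
    rw [← mul_sum]
    exact mul_le_mul_of_nonneg_left (cheb X (by omega)) (by positivity)
  have h3 : |Real.log X ^ k * th X - X * Real.log X ^ k| ≤ Real.log X ^ k * (C * (X / Real.log X)) := by
    have e : Real.log X ^ k * th X - X * Real.log X ^ k = Real.log X ^ k * (th X - X) := by ring
    rw [e, abs_mul, abs_of_nonneg (show 0 ≤ Real.log X ^ k by positivity)]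
    exact mul_le_mul_of_nonneg_left h1 (by positivity)
  obtain ⟨a1, a2⟩ := abs_le.1 h2
  obtain ⟨a3, a4⟩ := abs_le.1 h3
  have e1 : (C + 2 * k) * (X * Real.log X ^ k / Real.log X) =
      Real.log X ^ k * (C * (X / Real.log X)) + k * Real.log X ^ k / Real.log X * (2 * X) := by ring
  rw [e1, abs_le]
  constructor <;> linarith

/-- the sums of the weights -/
noncomputable def FF (N z : ℕ) (l : List ℕ) (X : ℕ) : ℝ := ∑ m ∈ Icc 1 X, wM N z l m

lemma pf_erase {p m : ℕ} (hp : p.Prime) (hm : 1 ≤ m) (hpm : ¬ p ∣ m) : (p * m).primeFactors.erase p = m.primeFactors := by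
  rw [Nat.primeFactors_mul hp.ne_zero (by omega), hp.primeFactors]
  have h1 : ({p} : Finset ℕ) ∪ m.primeFactors = insert p m.primeFactors := rfl
  rw [h1, erase_insert]
  intro h
  exact hpm (Nat.dvd_of_mem_primeFactors h)

open Classical in
/-- **the recursion** -/
lemma F_rec (N z X k : ℕ) (l : List ℕ) : FF N z (k :: l) X =
    ∑ p ∈ PR z X, lg N p ^ (k + 1) * ∑ m ∈ (Icc 1 (X / p)).filter (fun m => ¬ p ∣ m), wM N z l m := by
  have h1 : FF N z (k :: l) X = ∑ m ∈ (Icc 1 X).filter (fun m => Squarefree m ∧ Ro z m),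
      ∑ p ∈ m.primeFactors, lg N p ^ (k + 1) * M (lg N) l (m.primeFactors.erase p) := by
    unfold FF
    rw [sum_filter]
    refine sum_congr rfl fun m _ => ?_
    unfold wM
    by_cases hro : Ro z m
    · by_cases hsq : Squarefree m
      · rw [if_pos (show Squarefree m ∧ Ro z m from ⟨hsq, hro⟩), if_pos hsq, ro_of hro, one_mul]
        rfl
      · rw [if_neg (show ¬ (Squarefree m ∧ Ro z m) from fun h => hsq h.1), if_neg hsq, mul_zero]
    · rw [if_neg (show ¬ (Squarefree m ∧ Ro z m) from fun h => hro h.2)]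
      have : ro z m = 0 := by unfold ro; rw [if_neg hro]
      rw [this, zero_mul]
  have h2 : ∀ p ∈ PR z X, lg N p ^ (k + 1) * ∑ m ∈ (Icc 1 (X / p)).filter (fun m => ¬ p ∣ m), wM N z l m =
      ∑ m ∈ (Icc 1 (X / p)).filter (fun m => ¬ p ∣ m ∧ Squarefree m ∧ Ro z m), lg N p ^ (k + 1) * M (lg N) l m.primeFactors := by
    intro p _
    rw [mul_sum, sum_filter, sum_filter]
    refine sum_congr rfl fun m _ => ?_
    unfold wM
    by_cases hpm : p ∣ m
    · rw [if_neg (show ¬ ¬ p ∣ m from fun h => h hpm), if_neg (show ¬ (¬ p ∣ m ∧ Squarefree m ∧ Ro z m) from fun h => h.1 hpm)]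
    · rw [if_pos hpm]
      by_cases hro : Ro z m
      · by_cases hsq : Squarefree m
        · rw [if_pos (show ¬ p ∣ m ∧ Squarefree m ∧ Ro z m from ⟨hpm, hsq, hro⟩), if_pos hsq, ro_of hro, one_mul]
        · rw [if_neg (show ¬ (¬ p ∣ m ∧ Squarefree m ∧ Ro z m) from fun h => hsq h.2.1), if_neg hsq, mul_zero, mul_zero]
      · rw [if_neg (show ¬ (¬ p ∣ m ∧ Squarefree m ∧ Ro z m) from fun h => hro h.2.2)]
        have : ro z m = 0 := by unfold ro; rw [if_neg hro]
        rw [this, zero_mul, mul_zero]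
  rw [h1, sum_congr rfl h2, sum_sigma', sum_sigma']
  apply sum_bij' (fun x _ => (⟨x.2, x.1 / x.2⟩ : Σ _ : ℕ, ℕ)) (fun x _ => (⟨x.1 * x.2, x.1⟩ : Σ _ : ℕ, ℕ))
  · rintro ⟨m, p⟩ h
    rw [mem_sigma, mem_filter, mem_Icc] at h
    obtain ⟨⟨⟨m1, m2⟩, hsq, hro⟩, hp⟩ := h
    dsimp only at m1 m2 hsq hro hp ⊢
    have hpp := Nat.prime_of_mem_primeFactors hp
    have hpm := Nat.dvd_of_mem_primeFactors hp
    have hple := Nat.le_of_dvd m1 hpm
    have hdvd : m / p ∣ m := Nat.div_dvd_of_dvd hpm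
    have hmp : p * (m / p) = m := Nat.mul_div_cancel' hpm
    rw [mem_sigma, mem_PR, mem_filter, mem_Icc]
    dsimp only
    refine ⟨⟨⟨?_, by omega⟩, hpp⟩, ⟨Nat.div_pos hple hpp.pos, Nat.div_le_div_right m2⟩, ?_, hsq.squarefree_of_dvd hdvd,
      fun q hq hqz hqd => hro q hq hqz (hqd.trans hdvd)⟩
    · by_contra hcon
      exact hro p hpp (by omega) hpm
    · intro h3
      have h4 : p * p ∣ m := by
        rw [← hmp]
        exact Nat.mul_dvd_mul_left p h3
      have h5 := hsq p h4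
      rw [Nat.isUnit_iff] at h5
      exact hpp.one_lt.ne' h5
  · rintro ⟨p, m⟩ h
    rw [mem_sigma, mem_PR, mem_filter, mem_Icc] at h
    obtain ⟨⟨⟨p1, p2⟩, hpp⟩, ⟨m1, m2⟩, hpm, hsq, hro⟩ := h
    dsimp only at p1 p2 hpp m1 m2 hpm hsq hro ⊢
    have hpX : p * m ≤ X := by
      rw [Nat.le_div_iff_mul_le hpp.pos] at m2
      rw [mul_comm]; exact m2
    have hcop : Nat.Coprime p m := (Nat.Prime.coprime_iff_not_dvd hpp).2 hpm
    rw [mem_sigma, mem_filter, mem_Icc]
    dsimp only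
    refine ⟨⟨⟨Nat.mul_pos hpp.pos m1, hpX⟩, ?_, ?_⟩, ?_⟩
    · rw [Nat.squarefree_mul hcop]
      exact ⟨hpp.prime.squarefree, hsq⟩
    · intro q hq hqz hqd
      rcases (Nat.Prime.dvd_mul hq).1 hqd with h3 | h3
      · have := (Nat.prime_dvd_prime_iff_eq hq hpp).1 h3
        omega
      · exact hro q hq hqz h3
    · rw [Nat.mem_primeFactors]
      exact ⟨hpp, Nat.dvd_mul_right p m, (Nat.mul_pos hpp.pos m1).ne'⟩
  · rintro ⟨m, p⟩ h
    rw [mem_sigma, mem_filter, mem_Icc] at h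
    obtain ⟨_, hp⟩ := h
    dsimp only at hp ⊢
    have hpm := Nat.dvd_of_mem_primeFactors hp
    rw [Nat.mul_div_cancel' hpm]
  · rintro ⟨p, m⟩ h
    rw [mem_sigma, mem_PR] at h
    obtain ⟨⟨_, hpp⟩, _⟩ := h
    dsimp only at hpp ⊢
    rw [Nat.mul_div_cancel_left m hpp.pos]
  · rintro ⟨m, p⟩ h
    rw [mem_sigma, mem_filter, mem_Icc] at h
    obtain ⟨⟨⟨m1, m2⟩, hsq, hro⟩, hp⟩ := h
    dsimp only at m1 m2 hsq hro hp ⊢
    have hpp := Nat.prime_of_mem_primeFactors hp
    have hpm := Nat.dvd_of_mem_primeFactors hp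
    have hple := Nat.le_of_dvd m1 hpm
    have hmp : p * (m / p) = m := Nat.mul_div_cancel' hpm
    have h3 : ¬ p ∣ m / p := by
      intro h3
      have h4 : p * p ∣ m := by
        rw [← hmp]
        exact Nat.mul_dvd_mul_left p h3
      have h5 := hsq p h4
      rw [Nat.isUnit_iff] at h5
      exact hpp.one_lt.ne' h5
    have h4 := pf_erase hpp (Nat.div_pos hple hpp.pos) h3
    rw [hmp] at h4
    rw [h4]

lemma FF_nonneg {N z X : ℕ} (hN : 2 ≤ N) (hX : X ≤ 2 * N) (l : List ℕ) : 0 ≤ FF N z l X := by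
  unfold FF
  refine sum_nonneg fun m hm => ?_
  rw [mem_Icc] at hm
  exact (wM_bd hN hm.1 (by omega) l).1

lemma lg_le_one {N p : ℕ} (hN : 2 ≤ N) (hp : 1 ≤ p) (hpN : p ≤ N) : lg N p ≤ 1 := by
  unfold lg
  have hL : 0 < Real.log N := Real.log_pos (by exact_mod_cast (by omega : 1 < N))
  rw [div_le_one hL]
  exact Real.log_le_log (by exact_mod_cast hp) (by exact_mod_cast hpN)

lemma lg_pow_le {N p : ℕ} (hN : 2 ≤ N) (hp : 1 ≤ p) (hpN : p ≤ N) (k : ℕ) : lg N p ^ (k + 1) ≤ lg N p := by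
  rw [pow_succ]
  calc lg N p ^ k * lg N p ≤ 1 * lg N p :=
        mul_le_mul_of_nonneg_right (pow_le_one₀ (lg_nonneg N p) (lg_le_one hN hp hpN)) (lg_nonneg N p)
    _ = lg N p := one_mul _

/-- the sum of the first powers -/
lemma sum_lg_le' {N X : ℕ} (_hN : 2 ≤ N) : ∑ p ∈ PR 0 X, lg N p ≤ 2 * X / Real.log N := by
  unfold lg
  rw [← sum_div]
  apply div_le_div_of_nonneg_right (th_le X) (Real.log_natCast_nonneg N)

lemma FF_one {N z X k : ℕ} : FF N z [k] X = ∑ p ∈ PR z X, lg N p ^ (k + 1) := by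
  classical
  rw [F_rec]
  refine sum_congr rfl fun p hp => ?_
  rw [mem_PR] at hp
  have h1 : ∑ m ∈ (Icc 1 (X / p)).filter (fun m => ¬ p ∣ m), wM N z [] m = 1 := by
    rw [sum_eq_single 1]
    · unfold wM
      have hro : Ro z 1 := fun q hq _ hqd => hq.one_lt.ne' (Nat.dvd_one.1 hqd)
      rw [ro_of hro, if_pos squarefree_one, Nat.primeFactors_one]
      simp [M]
    · intro m hm hm1
      rw [mem_filter, mem_Icc] at hm
      unfold wM
      have h2 : M (lg N) [] m.primeFactors = 0 := by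
        unfold M
        rw [if_neg]
        rw [Nat.primeFactors_eq_empty]
        omega
      rw [h2, ite_self, mul_zero]
    · intro h
      exfalso
      apply h
      rw [mem_filter, mem_Icc]
      refine ⟨⟨le_rfl, Nat.div_pos hp.1.2 hp.2.pos⟩, fun h2 => hp.2.one_lt.ne' (Nat.dvd_one.1 h2)⟩
  rw [h1, mul_one]

lemma sum_PR_mono {z X : ℕ} (F : ℕ → ℝ) (hF : ∀ p, 0 ≤ F p) : ∑ p ∈ PR z X, F p ≤ ∑ p ∈ PR 0 X, F p := by
  apply sum_le_sum_of_subset_of_nonneg
  · intro p hp
    rw [mem_PR] at hp ⊢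
    exact ⟨⟨by omega, hp.1.2⟩, hp.2⟩
  · intro p _ _
    exact hF p

/-- Mertens' theorem -/
lemma mert0 : ∃ C : ℝ, 0 ≤ C ∧ ∀ X : ℕ, 1 ≤ X → |∑ p ∈ PR 0 X, Real.log p / p - Real.log X| ≤ C := by
  obtain ⟨C, hC, h⟩ := mert_j 0
  refine ⟨C, hC, fun X hX => ?_⟩
  have h1 := h X hX
  simpa using h1

/-- **the upper bound** -/
lemma FF_up (l : List ℕ) : ∀ k : ℕ, ∃ C : ℝ, 0 ≤ C ∧ ∀ N z X : ℕ, 3 ≤ N → X ≤ N →
    FF N z (k :: l) X ≤ C * (X / Real.log N) := by
  classical
  obtain ⟨CM, hCM, hM⟩ := mert0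
  induction l with
  | nil =>
    intro k
    refine ⟨2, by norm_num, fun N z X hN hX => ?_⟩
    rw [FF_one]
    have h1 : ∑ p ∈ PR z X, lg N p ^ (k + 1) ≤ ∑ p ∈ PR 0 X, lg N p := by
      refine (sum_PR_mono (fun p => lg N p ^ (k + 1)) (fun p => pow_nonneg (lg_nonneg N p) _)).trans ?_
      refine sum_le_sum fun p hp => ?_
      rw [mem_PR] at hp
      exact lg_pow_le (by omega) hp.2.one_lt.le (by omega) k
    refine h1.trans ((sum_lg_le' (by omega)).trans (le_of_eq ?_))
    ring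
  | cons j l ih =>
    intro k
    obtain ⟨C, hC, h⟩ := ih j
    refine ⟨C * (1 + CM), by positivity, fun N z X hN hX => ?_⟩
    rcases Nat.eq_zero_or_pos X with rfl | hX0
    · have : FF N z (k :: j :: l) 0 = 0 := by
        unfold FF
        rw [show Icc 1 0 = (∅ : Finset ℕ) by rfl, sum_empty]
      rw [this]; simp
    have hN1 : (3 : ℝ) ≤ N := by exact_mod_cast hN
    have hL1 : 1 ≤ Real.log N := by
      rw [Real.le_log_iff_exp_le (by linarith)]
      have := Real.exp_one_lt_d9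
      linarith
    have hL0 : 0 < Real.log N := by linarith
    rw [F_rec]
    have h1 : ∀ p ∈ PR z X, lg N p ^ (k + 1) * ∑ m ∈ (Icc 1 (X / p)).filter (fun m => ¬ p ∣ m), wM N z (j :: l) m ≤
        C * (X / Real.log N) / Real.log N * (Real.log p / p) := by
      intro p hp
      rw [mem_PR] at hp
      have hp0 : (0 : ℝ) < p := by exact_mod_cast hp.2.pos
      have hXp : X / p ≤ X := Nat.div_le_self X p
      have h2 : ∑ m ∈ (Icc 1 (X / p)).filter (fun m => ¬ p ∣ m), wM N z (j :: l) m ≤ FF N z (j :: l) (X / p) := by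
        unfold FF
        apply sum_le_sum_of_subset_of_nonneg (filter_subset _ _)
        intro m hm _
        rw [mem_Icc] at hm
        exact (wM_bd (by omega) hm.1 (by omega) _).1
      have h3 := h2.trans (h N z (X / p) hN (hXp.trans hX))
      have h4 : C * (((X / p : ℕ) : ℝ) / Real.log N) ≤ C * ((X / p) / Real.log N) := by
        apply mul_le_mul_of_nonneg_left _ hC
        apply div_le_div_of_nonneg_right _ hL0.le
        exact Nat.cast_div_le
      have h5 : 0 ≤ C * ((X / p : ℝ) / Real.log N) := by positivity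
      calc lg N p ^ (k + 1) * ∑ m ∈ (Icc 1 (X / p)).filter (fun m => ¬ p ∣ m), wM N z (j :: l) m ≤
            lg N p ^ (k + 1) * (C * ((X / p) / Real.log N)) :=
              mul_le_mul_of_nonneg_left (h3.trans h4) (pow_nonneg (lg_nonneg N p) _)
        _ ≤ lg N p * (C * ((X / p) / Real.log N)) :=
              mul_le_mul_of_nonneg_right (lg_pow_le (by omega) hp.2.one_lt.le (by omega) k) h5
        _ = _ := by unfold lg; field_simp
    refine (sum_le_sum h1).trans ?_
    rw [← mul_sum]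
    have h6 : ∑ p ∈ PR z X, Real.log p / p ≤ (1 + CM) * Real.log N := by
      refine (sum_PR_mono (fun p => Real.log p / p) (fun p => div_nonneg (Real.log_natCast_nonneg p) (Nat.cast_nonneg p))).trans ?_
      have h7 := (abs_le.1 (hM X hX0)).2
      have h8 : Real.log X ≤ Real.log N := Real.log_le_log (by exact_mod_cast hX0) (by exact_mod_cast hX)
      nlinarith
    calc C * (X / Real.log N) / Real.log N * ∑ p ∈ PR z X, Real.log p / p ≤
          C * (X / Real.log N) / Real.log N * ((1 + CM) * Real.log N) :=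
            mul_le_mul_of_nonneg_left h6 (by positivity)
      _ = _ := by field_simp

end Pool.Agent.H528.Mn
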