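import Mathlib
import Pool.Agent.H528.Mn

/-! The means of the weights of the products of `r` primes: asymptotics. -/

set_option autoImplicit false

namespace Pool.Agent.H528.Mn

open Finset Filter
open Pool.Agent.Y822
open Pool.Agent.Y822.Par3
open Pool.Agent.H528.Avg (PR mem_PR th th_eq th_le th_nonneg sum_PR_sub ro_of)
open Pool.Agent.H528.Mo
open Pool.Agent.H528.UG (wM lg lg_nonneg wM_bd)

/-- the exponent -/
def nn (k : ℕ) (l : List ℕ) : ℕ := l.length + (k :: l).sum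

/-- the constants: the Dirichlet integrals -/
noncomputable def ac (k : ℕ) (l : List ℕ) : ℝ := (fct (k :: l) : ℝ) / (nn k l).factorial

lemma ac_nonneg (k : ℕ) (l : List ℕ) : 0 ≤ ac k l := by unfold ac; positivity

lemma nn_cons (j k : ℕ) (l : List ℕ) : nn j (k :: l) = j + nn k l + 1 := by
  unfold nn
  rw [List.length_cons, List.sum_cons (a := j)]
  omega

lemma ac_cons (j k : ℕ) (l : List ℕ) : ac j (k :: l) =
    ac k l * ((j.factorial * (nn k l).factorial : ℝ) / (j + nn k l + 1).factorial) := by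
  unfold ac
  rw [nn_cons, fct_cons j]
  have h1 : ((nn k l).factorial : ℝ) ≠ 0 := by exact_mod_cast (nn k l).factorial_ne_zero
  push_cast
  field_simp

lemma ac_nil (k : ℕ) : ac k [] = 1 := by
  unfold ac nn fct
  simp only [List.map_cons, List.map_nil, List.prod_cons, List.prod_nil, mul_one, List.length_nil, List.sum_cons,
    List.sum_nil, add_zero, zero_add]
  have h1 : (k.factorial : ℝ) ≠ 0 := by exact_mod_cast k.factorial_ne_zero
  field_simp

lemma sumD {z X : ℕ} (hz : 1 ≤ z) : ∑ p ∈ PR z X, (1 : ℝ) / (p : ℝ) ^ 2 ≤ 1 / z := by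
  have hz0 : (0 : ℝ) < z := by exact_mod_cast hz
  rcases Nat.lt_or_ge X z with h | h
  · have : PR z X = ∅ := by
      rw [eq_empty_iff_forall_notMem]
      intro p hp
      rw [mem_PR] at hp
      omega
    rw [this, sum_empty]
    positivity
  · have h1 := sum_Ioc_inv_sq_le_sub (α := ℝ) (by omega : z ≠ 0) h
    have h2 : ∑ p ∈ PR z X, (1 : ℝ) / (p : ℝ) ^ 2 ≤ ∑ i ∈ Ioc z X, ((i : ℝ) ^ 2)⁻¹ := by
      refine le_trans (sum_le_sum_of_subset_of_nonneg (t := Ioc z X) (filter_subset _ _) fun i _ _ => by positivity) ?_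
      exact le_of_eq (sum_congr rfl fun i _ => one_div _)
    have h3 : (0 : ℝ) ≤ (X : ℝ)⁻¹ := by positivity
    rw [one_div]
    linarith

lemma sum_tail {CM : ℝ} (hM : ∀ X : ℕ, 1 ≤ X → |∑ p ∈ PR 0 X, Real.log p / p - Real.log X| ≤ CM) {X : ℕ} (hX : 1 ≤ X)
    {Y : ℝ} (hY : 1 ≤ Y) : ∑ p ∈ (PR 0 X).filter (fun p : ℕ => (X : ℝ) / p ≤ Y), Real.log p / p ≤
      Real.log Y + Real.log 2 + 2 * CM := by
  have hX0 : (0 : ℝ) < X := by exact_mod_cast hX
  have hY0 : 0 < Y := by linarith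
  have hCM : 0 ≤ CM := (abs_nonneg _).trans (hM 1 le_rfl)
  have hlog2 : 0 ≤ Real.log 2 := Real.log_nonneg (by norm_num)
  have hnn : ∀ p : ℕ, 0 ≤ Real.log p / p := fun p => div_nonneg (Real.log_natCast_nonneg p) (Nat.cast_nonneg p)
  obtain ⟨w, hw⟩ : ∃ w : ℕ, w = ⌈(X : ℝ) / Y⌉₊ - 1 := ⟨_, rfl⟩
  have hceil : 1 ≤ ⌈(X : ℝ) / Y⌉₊ := Nat.one_le_iff_ne_zero.2 (Nat.ceil_pos.2 (by positivity)).ne'
  have h1 : (PR 0 X).filter (fun p : ℕ => (X : ℝ) / p ≤ Y) ⊆ PR w X := by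
    intro p hp
    rw [mem_filter, mem_PR] at hp
    rw [mem_PR]
    refine ⟨⟨?_, hp.1.1.2⟩, hp.1.2⟩
    have hp0 : (0 : ℝ) < p := by exact_mod_cast hp.1.1.1
    have h2 : (X : ℝ) / Y ≤ p := by
      have h3 := hp.2
      rw [div_le_iff₀ hp0] at h3
      rw [div_le_iff₀ hY0]
      linarith
    have h3 : ⌈(X : ℝ) / Y⌉₊ ≤ p := Nat.ceil_le.2 h2
    omega
  refine (sum_le_sum_of_subset_of_nonneg h1 fun p _ _ => hnn p).trans ?_
  have hwX : w ≤ X := by
    have : ⌈(X : ℝ) / Y⌉₊ ≤ X := Nat.ceil_le.2 (div_le_self hX0.le hY)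
    omega
  have hMX := (abs_le.1 (hM X hX)).2
  rcases Nat.eq_zero_or_pos w with h | h
  · rw [h]
    have h2 : ⌈(X : ℝ) / Y⌉₊ = 1 := by omega
    have h3 : (X : ℝ) / Y ≤ 1 := by
      have := Nat.le_ceil ((X : ℝ) / Y)
      rw [h2] at this
      exact_mod_cast this
    rw [div_le_one hY0] at h3
    have h4 := Real.log_le_log hX0 h3
    linarith
  · rw [sum_PR_sub hwX]
    have h2 := (abs_le.1 (hM w h)).1
    have hw0 : (0 : ℝ) < w := by exact_mod_cast h
    have h3 : (X : ℝ) / Y ≤ 2 * w := by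
      have h4 := Nat.le_ceil ((X : ℝ) / Y)
      have h5 : ((⌈(X : ℝ) / Y⌉₊ : ℕ) : ℝ) = w + 1 := by
        have : ⌈(X : ℝ) / Y⌉₊ = w + 1 := by omega
        rw [this]
        push_cast
        rfl
      rw [h5] at h4
      have : (1 : ℝ) ≤ w := by exact_mod_cast h
      linarith
    have h4 : Real.log X - Real.log Y ≤ Real.log 2 + Real.log w := by
      rw [← Real.log_div hX0.ne' hY0.ne', ← Real.log_mul (by norm_num) hw0.ne']
      exact Real.log_le_log (by positivity) h3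
    linarith

lemma Gp_bd {N z X p : ℕ} (hN : 3 ≤ N) (hX : X ≤ N) (hp : p.Prime) (l : List ℕ) :
    |∑ m ∈ (Icc 1 (X / p)).filter (fun m => ¬ p ∣ m), wM N z l m - FF N z l (X / p)| ≤
      2 ^ (l.length + l.sum) * X * (1 / (p : ℝ) ^ 2) := by
  have hp0 : (0 : ℝ) < p := by exact_mod_cast hp.pos
  have hu : X / p ≤ X := Nat.div_le_self X p
  have e : FF N z l (X / p) = ∑ m ∈ (Icc 1 (X / p)).filter (fun m => p ∣ m), wM N z l m +
      ∑ m ∈ (Icc 1 (X / p)).filter (fun m => ¬ p ∣ m), wM N z l m := by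
    unfold FF
    rw [sum_filter_add_sum_filter_not]
  have h1 : 0 ≤ ∑ m ∈ (Icc 1 (X / p)).filter (fun m => p ∣ m), wM N z l m := by
    refine sum_nonneg fun m hm => ?_
    rw [mem_filter, mem_Icc] at hm
    exact (wM_bd (by omega) hm.1.1 (by omega) l).1
  have h2 : ∑ m ∈ (Icc 1 (X / p)).filter (fun m => p ∣ m), wM N z l m ≤ ((X / p / p : ℕ) : ℝ) * 2 ^ (l.length + l.sum) := by
    have h3 : ((Icc 1 (X / p)).filter (fun m => p ∣ m)).card = X / p / p := Nat.Ioc_filter_dvd_card_eq_div (X / p) p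
    rw [← h3, ← nsmul_eq_mul]
    apply sum_le_card_nsmul
    intro m hm
    rw [mem_filter, mem_Icc] at hm
    exact (wM_bd (by omega) hm.1.1 (by omega) l).2
  have h3 : ((X / p / p : ℕ) : ℝ) ≤ X * (1 / (p : ℝ) ^ 2) := by
    rw [Nat.div_div_eq_div_mul]
    refine Nat.cast_div_le.trans (le_of_eq ?_)
    push_cast
    field_simp
  rw [e, show ∀ a b : ℝ, a - (b + a) = -b by intro a b; ring, abs_neg, abs_of_nonneg h1]
  refine h2.trans ?_
  calc ((X / p / p : ℕ) : ℝ) * 2 ^ (l.length + l.sum) ≤ X * (1 / (p : ℝ) ^ 2) * 2 ^ (l.length + l.sum) :=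
        mul_le_mul_of_nonneg_right h3 (by positivity)
    _ = _ := by ring

lemma phi_diff {L v c : ℝ} {u n : ℕ} (hu : 1 ≤ u) (huv : (u : ℝ) ≤ v) (hv : v ≤ u + 1) (hvL : Real.log v ≤ L) (hL : 1 ≤ L)
    (hc : 0 ≤ c) : |u / L * (c * (Real.log u / L) ^ n) - v / L * (c * (Real.log v / L) ^ n)| ≤ c * (1 + n) / L := by
  have hu0 : (0 : ℝ) < u := by exact_mod_cast hu
  have hv0 : 0 < v := by linarith
  have hL0 : 0 < L := by linarith
  obtain ⟨a, ha⟩ : ∃ a : ℝ, a = Real.log u / L := ⟨_, rfl⟩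
  obtain ⟨b, hb⟩ : ∃ b : ℝ, b = Real.log v / L := ⟨_, rfl⟩
  have ha0 : 0 ≤ a := by rw [ha]; exact div_nonneg (Real.log_natCast_nonneg u) hL0.le
  have hab : a ≤ b := by rw [ha, hb]; exact div_le_div_of_nonneg_right (Real.log_le_log hu0 huv) hL0.le
  have hb1 : b ≤ 1 := by rw [hb, div_le_one hL0]; exact hvL
  rw [← ha, ← hb]
  have h1 := pow_diff1 n ha0 hab hb1
  have h2 : b - a ≤ 1 / u := by
    have h3 : Real.log v - Real.log u ≤ 1 / u := by
      rw [← Real.log_div hv0.ne' hu0.ne']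
      have h4 := Real.log_le_sub_one_of_pos (show 0 < v / u by positivity)
      have h5 : v / u ≤ 1 + 1 / u := by
        rw [div_le_iff₀ hu0]
        have : (1 + 1 / (u : ℝ)) * u = u + 1 := by field_simp
        rw [this]; exact hv
      linarith
    have h4 : b - a = (Real.log v - Real.log u) / L := by rw [ha, hb]; ring
    rw [h4]
    calc (Real.log v - Real.log u) / L ≤ 1 / u / L := div_le_div_of_nonneg_right h3 hL0.le
      _ ≤ 1 / u := div_le_self (by positivity) hL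
  have hbn : b ^ n ≤ 1 := pow_le_one₀ (ha0.trans hab) hb1
  have hban : a ^ n ≤ b ^ n := pow_le_pow_left₀ ha0 hab n
  have h3 : 0 ≤ v * b ^ n - u * a ^ n ∧ v * b ^ n - u * a ^ n ≤ 1 + n := by
    have e : v * b ^ n - u * a ^ n = (v - u) * b ^ n + u * (b ^ n - a ^ n) := by ring
    rw [e]
    constructor
    · have : 0 ≤ b ^ n := pow_nonneg (ha0.trans hab) n
      have h5 := mul_nonneg (sub_nonneg.2 huv) this
      have h6 := mul_nonneg hu0.le (sub_nonneg.2 hban)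
      linarith
    · have h5 : (v - u) * b ^ n ≤ 1 * 1 := mul_le_mul (by linarith) hbn (pow_nonneg (ha0.trans hab) n) zero_le_one
      have h6 : (u : ℝ) * (b ^ n - a ^ n) ≤ u * (n * (1 / u)) := by
        apply mul_le_mul_of_nonneg_left _ hu0.le
        exact h1.trans (mul_le_mul_of_nonneg_left h2 (Nat.cast_nonneg n))
      have e2 : (u : ℝ) * (n * (1 / u)) = n := by field_simp
      rw [e2] at h6
      linarith
  have e : u / L * (c * a ^ n) - v / L * (c * b ^ n) = -(c / L * (v * b ^ n - u * a ^ n)) := by ring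
  rw [e, abs_neg, abs_of_nonneg (mul_nonneg (by positivity) h3.1)]
  calc c / L * (v * b ^ n - u * a ^ n) ≤ c / L * (1 + n) := mul_le_mul_of_nonneg_left h3.2 (by positivity)
    _ = _ := by ring

open Classical in
/-- the base case -/
lemma asy_base (k : ℕ) : ∃ C : ℝ, 0 ≤ C ∧ ∀ ξ : ℝ, 0 < ξ → ξ ≤ 1 / 8 → ∀ᶠ N : ℕ in atTop, ∀ X : ℕ, 1 ≤ X → X ≤ N →
    |FF N (zN ξ N) [k] X - X / Real.log N * (ac k [] * (Real.log X / Real.log N) ^ (nn k []))| ≤
      C * (X / Real.log N) * (ξ + if (X : ℝ) ≤ (N : ℝ) ^ (2 * ξ) then 1 else 0) := by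
  obtain ⟨CU, hCU, hU⟩ := FF_up [] k
  obtain ⟨Cθ, hCθ, hθ⟩ := theta_k k
  refine ⟨CU + 2, by positivity, fun ξ hξ hξ8 => ?_⟩
  have e1 := ev_logN (eventually_ge_atTop (max 1 (Cθ / (2 * ξ ^ 2))))
  have e2 := ev_logN (ev_pow_exp 0 ξ (2 / ξ) hξ)
  filter_upwards [e1, e2, eventually_ge_atTop 3] with N f1 f2 hN X hX hXN
  rw [pow_zero, mul_one] at f2
  obtain ⟨L, hL⟩ : ∃ L : ℝ, L = Real.log N := ⟨_, rfl⟩
  rw [← hL] at f1 f2 ⊢
  have hL1 : 1 ≤ L := (le_max_left _ _).trans f1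
  have hL0 : 0 < L := by linarith
  have hLθ : Cθ / (2 * ξ ^ 2) ≤ L := (le_max_right _ _).trans f1
  have hN0 : (0 : ℝ) < N := by exact_mod_cast (by omega : 0 < N)
  have hX0 : (0 : ℝ) < X := by exact_mod_cast hX
  have hNpow : ∀ s : ℝ, (N : ℝ) ^ s = Real.exp (s * L) := by
    intro s
    rw [Real.rpow_def_of_pos hN0, ← hL, mul_comm]
  have hlXL : Real.log X ≤ L := by rw [hL]; exact Real.log_le_log hX0 (by exact_mod_cast hXN)
  have hlX0 : 0 ≤ Real.log X := Real.log_natCast_nonneg X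
  have hr0 : 0 ≤ Real.log X / L := by positivity
  have hr1 : Real.log X / L ≤ 1 := by rw [div_le_one hL0]; exact hlXL
  have hnn : nn k [] = k := by unfold nn; simp
  rw [ac_nil, one_mul, hnn]
  split_ifs with hc
  · have h1 := hU N (zN ξ N) X hN hXN
    rw [← hL] at h1
    have h2 := FF_nonneg (z := zN ξ N) (by omega : 2 ≤ N) (by omega : X ≤ 2 * N) [k]
    have h3 : X / L * (Real.log X / L) ^ k ≤ X / L * 1 :=
      mul_le_mul_of_nonneg_left (pow_le_one₀ hr0 hr1) (by positivity)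
    have h4 : 0 ≤ X / L * (Real.log X / L) ^ k := by positivity
    have h5 : 0 < X / L := by positivity
    rw [abs_le]
    constructor <;> nlinarith
  · push Not at hc
    rw [add_zero]
    have hX2 : 2 ≤ X := by
      by_contra h
      have : X = 1 := by omega
      rw [this] at hc
      have h3 : (1 : ℝ) ≤ (N : ℝ) ^ (2 * ξ) := Real.one_le_rpow (by exact_mod_cast (by omega : 1 ≤ N)) (by positivity)
      push_cast at hc
      linarith
    have hzlt := zN_lt (ε₁ := ξ) (N := N) (by omega)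
    have hNξ : 2 / ξ ≤ (N : ℝ) ^ ξ := by rw [hNpow]; exact f2
    have hsq : (N : ℝ) ^ (2 * ξ) = (N : ℝ) ^ ξ * (N : ℝ) ^ ξ := by
      rw [← Real.rpow_add hN0]
      congr 1
      ring
    have hNξ0 : 0 < (N : ℝ) ^ ξ := by positivity
    have hz1 : 2 * (zN ξ N : ℝ) ≤ ξ * X := by
      rw [div_le_iff₀ hξ] at hNξ
      calc 2 * (zN ξ N : ℝ) ≤ 2 * (N : ℝ) ^ ξ := by linarith
        _ ≤ ((N : ℝ) ^ ξ * ξ) * (N : ℝ) ^ ξ := mul_le_mul_of_nonneg_right hNξ hNξ0.le
        _ = ξ * (N : ℝ) ^ (2 * ξ) := by rw [hsq]; ring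
        _ ≤ ξ * X := mul_le_mul_of_nonneg_left hc.le hξ.le
    have hzX : zN ξ N ≤ X := by
      have h3 : (zN ξ N : ℝ) ≤ X := by
        have : ξ * X ≤ 1 * X := mul_le_mul_of_nonneg_right (by linarith) hX0.le
        have := Nat.cast_nonneg (α := ℝ) (zN ξ N)
        linarith
      exact_mod_cast h3
    rw [FF_one, sum_PR_sub hzX]
    have h3 : ∑ p ∈ PR 0 (zN ξ N), lg N p ^ (k + 1) ≤ ξ * X / L := by
      calc ∑ p ∈ PR 0 (zN ξ N), lg N p ^ (k + 1) ≤ ∑ p ∈ PR 0 (zN ξ N), lg N p := by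
            refine sum_le_sum fun p hp => ?_
            rw [mem_PR] at hp
            exact lg_pow_le (by omega) hp.2.one_lt.le (by omega) k
        _ ≤ 2 * (zN ξ N) / L := by rw [hL]; exact sum_lg_le' (by omega)
        _ ≤ ξ * X / L := div_le_div_of_nonneg_right hz1 hL0.le
    have h3' : 0 ≤ ∑ p ∈ PR 0 (zN ξ N), lg N p ^ (k + 1) := sum_nonneg fun p _ => pow_nonneg (lg_nonneg N p) _
    have h4 := hθ X hX2
    have hlX : 2 * ξ * L ≤ Real.log X := by
      rw [Real.le_log_iff_exp_le hX0, ← hNpow]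
      exact hc.le
    have hlXp : 0 < Real.log X := lt_of_lt_of_le (by positivity) hlX
    have e3 : ∑ p ∈ PR 0 X, lg N p ^ (k + 1) = (∑ p ∈ PR 0 X, Real.log p ^ (k + 1)) / L ^ (k + 1) := by
      rw [sum_div]
      refine sum_congr rfl fun p _ => ?_
      unfold lg
      rw [div_pow, hL]
    have h5 : |∑ p ∈ PR 0 X, lg N p ^ (k + 1) - X / L * (Real.log X / L) ^ k| ≤ ξ * X / L := by
      have e4 : ∑ p ∈ PR 0 X, lg N p ^ (k + 1) - X / L * (Real.log X / L) ^ k =
          (∑ p ∈ PR 0 X, Real.log p ^ (k + 1) - X * Real.log X ^ k) / L ^ (k + 1) := by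
        rw [e3, pow_succ, div_pow]
        field_simp
      rw [e4, abs_div, abs_of_pos (show 0 < L ^ (k + 1) by positivity), div_le_iff₀ (by positivity)]
      refine h4.trans ?_
      have h6 : Cθ * (X * Real.log X ^ k / Real.log X) ≤ Cθ * (X * L ^ k / (2 * ξ * L)) := by
        gcongr
      refine h6.trans ?_
      have h7 : Cθ ≤ L * (2 * ξ ^ 2) := by rw [div_le_iff₀ (by positivity)] at hLθ; exact hLθ
      calc Cθ * (X * L ^ k / (2 * ξ * L)) ≤ L * (2 * ξ ^ 2) * (X * L ^ k / (2 * ξ * L)) :=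
            mul_le_mul_of_nonneg_right h7 (by positivity)
        _ = ξ * X / L * L ^ (k + 1) := by
            field_simp
            ring
    obtain ⟨a1, a2⟩ := abs_le.1 h5
    have h8 : 0 ≤ CU * (X / L) * ξ := by positivity
    have h9 : (CU + 2) * (X / L) * ξ = CU * (X / L) * ξ + ξ * X / L + ξ * X / L := by ring
    rw [h9, abs_le]
    have h10 : 0 ≤ ξ * X / L := by positivity
    constructor <;> linarith

end Pool.Agent.H528.Mn
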