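import Mathlib
import Pool.Agent.H528.MnB

/-! The means of the weights of the products of `r` primes: the induction. -/

set_option autoImplicit false

namespace Pool.Agent.H528.Mn

open Finset Filter
open Pool.Agent.Y822
open Pool.Agent.Y822.Par3
open Pool.Agent.H528.Avg (PR mem_PR th th_eq th_le th_nonneg sum_PR_sub ro_of)
open Pool.Agent.H528.Mo
open Pool.Agent.H528.UG (wM lg lg_nonneg wM_bd)

/-- the expected value for the cofactor of `p` -/
noncomputable def PP' (L : ℝ) (X n : ℕ) (c : ℝ) (p : ℕ) : ℝ := (X / p) / L * (c * ((Real.log X - Real.log p) / L) ^ n)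

/-- the main terms -/
lemma main_sum {L c Cb : ℝ} {X N n j : ℕ} (hL1 : 1 ≤ L) (hLN : L = Real.log N) (hX : 1 ≤ X) (hc : 0 ≤ c) (hlX : Real.log X ≤ L)
    (hb : |∑ p ∈ PR 0 X, Real.log p ^ (j + 1) / p * (Real.log X - Real.log p) ^ n -
      (j.factorial * n.factorial : ℝ) / (j + n + 1).factorial * Real.log X ^ (j + n + 1)| ≤ Cb * (1 + Real.log X) ^ (j + n))
    (hCb : 0 ≤ Cb) :
    |∑ p ∈ PR 0 X, lg N p ^ (j + 1) * PP' L X n c p -
      X / L * (c * ((j.factorial * n.factorial : ℝ) / (j + n + 1).factorial) * (Real.log X / L) ^ (j + n + 1))| ≤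
      (c * Cb * 2 ^ (j + n) / L) * (X / L) := by
  have hL0 : 0 < L := by linarith
  have hlX0 : 0 ≤ Real.log X := Real.log_natCast_nonneg X
  have e1 : ∑ p ∈ PR 0 X, lg N p ^ (j + 1) * PP' L X n c p =
      X / L * c / L ^ (j + n + 1) * ∑ p ∈ PR 0 X, Real.log p ^ (j + 1) / p * (Real.log X - Real.log p) ^ n := by
    rw [mul_sum]
    refine sum_congr rfl fun p _ => ?_
    unfold lg PP'
    rw [← hLN, div_pow, div_pow, show j + n + 1 = (j + 1) + n by omega, pow_add]
    field_simp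
    ring
  have e2 : X / L * (c * ((j.factorial * n.factorial : ℝ) / (j + n + 1).factorial) * (Real.log X / L) ^ (j + n + 1)) =
      X / L * c / L ^ (j + n + 1) * ((j.factorial * n.factorial : ℝ) / (j + n + 1).factorial * Real.log X ^ (j + n + 1)) := by
    rw [div_pow]
    field_simp
  rw [e1, e2, ← mul_sub, abs_mul, abs_of_nonneg (show 0 ≤ X / L * c / L ^ (j + n + 1) by positivity)]
  have h1 : (1 + Real.log X) ^ (j + n) ≤ (2 * L) ^ (j + n) := pow_le_pow_left₀ (by linarith) (by linarith) _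
  calc X / L * c / L ^ (j + n + 1) * |∑ p ∈ PR 0 X, Real.log p ^ (j + 1) / p * (Real.log X - Real.log p) ^ n -
      (j.factorial * n.factorial : ℝ) / (j + n + 1).factorial * Real.log X ^ (j + n + 1)| ≤
        X / L * c / L ^ (j + n + 1) * (Cb * (2 * L) ^ (j + n)) := by
          apply mul_le_mul_of_nonneg_left _ (by positivity)
          exact hb.trans (mul_le_mul_of_nonneg_left h1 hCb)
    _ = (c * Cb * 2 ^ (j + n) / L) * (X / L) := by
        rw [mul_pow, pow_succ]
        field_simp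

/-- the small primes -/
lemma small_sum {L c CM : ℝ} {X N z n j : ℕ} (hN : 3 ≤ N) (hL1 : 1 ≤ L) (hLN : L = Real.log N) (hzX : z ≤ X) (hz : 1 ≤ z) (hc : 0 ≤ c)
    (hlX : Real.log X ≤ L) (hX : X ≤ N)
    (hM : ∀ X : ℕ, 1 ≤ X → |∑ p ∈ PR 0 X, Real.log p / p - Real.log X| ≤ CM) :
    0 ≤ ∑ p ∈ PR 0 z, lg N p ^ (j + 1) * PP' L X n c p ∧
    ∑ p ∈ PR 0 z, lg N p ^ (j + 1) * PP' L X n c p ≤ c * ((Real.log z + CM) / L) * (X / L) := by
  have hL0 : 0 < L := by linarith
  have h1 : ∀ p ∈ PR 0 z, 0 ≤ lg N p ^ (j + 1) * PP' L X n c p ∧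
      lg N p ^ (j + 1) * PP' L X n c p ≤ c * (X / L) / L * (Real.log p / p) := by
    intro p hp
    rw [mem_PR] at hp
    have hp0 : (0 : ℝ) < p := by exact_mod_cast hp.1.1
    have hlp : 0 ≤ Real.log p := Real.log_natCast_nonneg p
    have hlpX : Real.log p ≤ Real.log X := Real.log_le_log hp0 (by exact_mod_cast hp.1.2.trans hzX)
    have hr0 : 0 ≤ (Real.log X - Real.log p) / L := div_nonneg (by linarith) hL0.le
    have hr1 : (Real.log X - Real.log p) / L ≤ 1 := by rw [div_le_one hL0]; linarith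
    have hP0 : 0 ≤ PP' L X n c p := by unfold PP'; positivity
    refine ⟨mul_nonneg (pow_nonneg (lg_nonneg N p) _) hP0, ?_⟩
    have hP1 : PP' L X n c p ≤ (X / p) / L * c := by
      unfold PP'
      apply mul_le_mul_of_nonneg_left _ (by positivity)
      calc c * ((Real.log X - Real.log p) / L) ^ n ≤ c * 1 := mul_le_mul_of_nonneg_left (pow_le_one₀ hr0 hr1) hc
        _ = c := mul_one c
    calc lg N p ^ (j + 1) * PP' L X n c p ≤ lg N p * ((X / p) / L * c) :=
          mul_le_mul (lg_pow_le (by omega) hp.2.one_lt.le (by omega) j) hP1 hP0 (lg_nonneg N p)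
      _ = _ := by unfold lg; rw [← hLN]; field_simp
  refine ⟨sum_nonneg fun p hp => (h1 p hp).1, (sum_le_sum fun p hp => (h1 p hp).2).trans ?_⟩
  rw [← mul_sum]
  have h2 := (abs_le.1 (hM z hz)).2
  calc c * (X / L) / L * ∑ p ∈ PR 0 z, Real.log p / p ≤ c * (X / L) / L * (Real.log z + CM) :=
        mul_le_mul_of_nonneg_left (by linarith) (by positivity)
    _ = _ := by ring

open Classical in
/-- the error for one prime -/
lemma one_err {L c C ξ : ℝ} {X N z n p k j : ℕ} {l : List ℕ} (hN : 3 ≤ N) (hL1 : 1 ≤ L) (hLN : L = Real.log N) (hX : X ≤ N)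
    (hlX : Real.log X ≤ L) (hc : 0 ≤ c) (hC : 0 ≤ C) (hξ : 0 < ξ) (hp : p.Prime) (hpX : p ≤ X)
    (hIH : ∀ u : ℕ, 1 ≤ u → u ≤ N → |FF N z (k :: l) u - u / L * (c * (Real.log u / L) ^ n)| ≤
      C * (u / L) * (ξ + if (u : ℝ) ≤ (N : ℝ) ^ (2 * ξ) then 1 else 0)) :
    lg N p ^ (j + 1) * |∑ m ∈ (Icc 1 (X / p)).filter (fun m => ¬ p ∣ m), wM N z (k :: l) m - PP' L X n c p| ≤
      2 ^ ((k :: l).length + (k :: l).sum) * X * (1 / (p : ℝ) ^ 2) +
      (C * (X / L) / L * (ξ * (Real.log p / p) + (if (X : ℝ) / p ≤ 2 * (N : ℝ) ^ (2 * ξ) then Real.log p / p else 0)) +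
        c * (1 + n) / L * lg N p) := by
  have hL0 : 0 < L := by linarith
  have hp0 : (0 : ℝ) < p := by exact_mod_cast hp.pos
  have hX0 : (0 : ℝ) < X := by exact_mod_cast (hp.pos.trans_le hpX)
  have hN0 : (0 : ℝ) < N := by exact_mod_cast (by omega : 0 < N)
  obtain ⟨u, hu⟩ : ∃ u : ℕ, u = X / p := ⟨_, rfl⟩
  have hu1 : 1 ≤ u := by rw [hu]; exact Nat.div_pos hpX hp.pos
  have huX : u ≤ X := by rw [hu]; exact Nat.div_le_self X p
  have huv : (u : ℝ) ≤ X / p := by rw [hu]; exact Nat.cast_div_le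
  have hvu : (X : ℝ) / p ≤ u + 1 := by
    have h1 : X < p * (u + 1) := by rw [hu]; exact Nat.lt_mul_div_succ X hp.pos
    rw [div_le_iff₀ hp0]
    have h2 : (X : ℝ) < p * (u + 1) := by exact_mod_cast h1
    linarith
  have elog : Real.log ((X : ℝ) / p) = Real.log X - Real.log p := Real.log_div hX0.ne' hp0.ne'
  have hlp : 0 ≤ Real.log p := Real.log_natCast_nonneg p
  have h1 := Gp_bd (z := z) hN hX hp (k :: l)
  rw [← hu] at h1 ⊢
  have h2 := hIH u hu1 (huX.trans hX)
  have h3 := phi_diff (n := n) hu1 huv hvu (by rw [elog]; linarith) hL1 hc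
  rw [elog] at h3
  have hPP : PP' L X n c p = X / p / L * (c * ((Real.log X - Real.log p) / L) ^ n) := rfl
  rw [← hPP] at h3
  obtain ⟨G, hG⟩ : ∃ G : ℝ, G = ∑ m ∈ (Icc 1 u).filter (fun m => ¬ p ∣ m), wM N z (k :: l) m := ⟨_, rfl⟩
  rw [← hG] at h1 ⊢
  obtain ⟨Fu, hFu⟩ : ∃ Fu : ℝ, Fu = FF N z (k :: l) u := ⟨_, rfl⟩
  rw [← hFu] at h1 h2
  obtain ⟨Q, hQ⟩ : ∃ Q : ℝ, Q = u / L * (c * (Real.log u / L) ^ n) := ⟨_, rfl⟩
  rw [← hQ] at h2 h3
  have h4 : |G - PP' L X n c p| ≤ 2 ^ ((k :: l).length + (k :: l).sum) * X * (1 / (p : ℝ) ^ 2) +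
      C * (u / L) * (ξ + if (u : ℝ) ≤ (N : ℝ) ^ (2 * ξ) then 1 else 0) + c * (1 + n) / L := by
    have e : G - PP' L X n c p = (G - Fu) + (Fu - Q) + (Q - PP' L X n c p) := by ring
    rw [e]
    have := abs_add_le ((G - Fu) + (Fu - Q)) (Q - PP' L X n c p)
    have := abs_add_le (G - Fu) (Fu - Q)
    linarith
  have hlg0 := lg_nonneg N p
  have hlg1 : lg N p ^ (j + 1) ≤ lg N p := lg_pow_le (by omega) hp.one_lt.le (by omega) j
  have hlg2 : lg N p ≤ 1 := lg_le_one (by omega) hp.one_lt.le (by omega)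
  have h5 : lg N p ^ (j + 1) * |G - PP' L X n c p| ≤ lg N p * (2 ^ ((k :: l).length + (k :: l).sum) * X * (1 / (p : ℝ) ^ 2) +
      C * (u / L) * (ξ + if (u : ℝ) ≤ (N : ℝ) ^ (2 * ξ) then 1 else 0) + c * (1 + n) / L) :=
    mul_le_mul hlg1 h4 (abs_nonneg _) hlg0
  refine h5.trans ?_
  have h6 : lg N p * (2 ^ ((k :: l).length + (k :: l).sum) * X * (1 / (p : ℝ) ^ 2)) ≤
      1 * (2 ^ ((k :: l).length + (k :: l).sum) * X * (1 / (p : ℝ) ^ 2)) := mul_le_mul_of_nonneg_right hlg2 (by positivity)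
  have h7 : lg N p * (C * (u / L) * (ξ + if (u : ℝ) ≤ (N : ℝ) ^ (2 * ξ) then 1 else 0)) ≤
      C * (X / L) / L * (ξ * (Real.log p / p) + (if (X : ℝ) / p ≤ 2 * (N : ℝ) ^ (2 * ξ) then Real.log p / p else 0)) := by
    have h8 : (if (u : ℝ) ≤ (N : ℝ) ^ (2 * ξ) then (1 : ℝ) else 0) ≤ if (X : ℝ) / p ≤ 2 * (N : ℝ) ^ (2 * ξ) then (1 : ℝ) else 0 := by
      split_ifs with h9 h10
      · exact le_rfl
      · exfalso
        apply h10
        have : (1 : ℝ) ≤ (N : ℝ) ^ (2 * ξ) := Real.one_le_rpow (by exact_mod_cast (by omega : 1 ≤ N)) (by positivity)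
        linarith
      · exact zero_le_one
      · exact le_rfl
    have h9 : C * (u / L) ≤ C * ((X / p) / L) := by gcongr
    have h10 : (0 : ℝ) ≤ if (u : ℝ) ≤ (N : ℝ) ^ (2 * ξ) then (1 : ℝ) else 0 := by split_ifs <;> norm_num
    calc lg N p * (C * (u / L) * (ξ + if (u : ℝ) ≤ (N : ℝ) ^ (2 * ξ) then 1 else 0)) ≤
          lg N p * (C * ((X / p) / L) * (ξ + if (X : ℝ) / p ≤ 2 * (N : ℝ) ^ (2 * ξ) then (1 : ℝ) else 0)) := by
            apply mul_le_mul_of_nonneg_left _ hlg0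
            exact mul_le_mul h9 (by linarith) (by linarith) (by positivity)
      _ = _ := by
            unfold lg
            rw [← hLN]
            (split_ifs <;> field_simp) <;> ring
  have e3 : lg N p * (c * (1 + n) / L) = c * (1 + n) / L * lg N p := mul_comm _ _
  rw [mul_add, mul_add, e3]
  linarith

open Classical in
/-- **asymptotics of the means** -/
theorem FF_asy (l : List ℕ) : ∀ k : ℕ, ∃ C : ℝ, 0 ≤ C ∧ ∀ ξ : ℝ, 0 < ξ → ξ ≤ 1 / 8 → ∀ᶠ N : ℕ in atTop, ∀ X : ℕ, 1 ≤ X → X ≤ N →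
    |FF N (zN ξ N) (k :: l) X - X / Real.log N * (ac k l * (Real.log X / Real.log N) ^ (nn k l))| ≤
      C * (X / Real.log N) * (ξ + if (X : ℝ) ≤ (N : ℝ) ^ (2 * ξ) then 1 else 0) := by
  induction l with
  | nil => exact fun k => asy_base k
  | cons k l ih =>
    intro j
    obtain ⟨C, hC, h⟩ := ih k
    obtain ⟨CU, hCU, hU⟩ := FF_up (k :: l) j
    obtain ⟨CM, hCM, hM⟩ := mert0
    obtain ⟨Cb, hCb, hb⟩ := mert_beta (nn k l) j
    obtain ⟨c, hc⟩ : ∃ c : ℝ, c = ac k l := ⟨_, rfl⟩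
    obtain ⟨n, hn⟩ : ∃ n : ℕ, n = nn k l := ⟨_, rfl⟩
    rw [← hn] at hb
    have hc0 : 0 ≤ c := by rw [hc]; exact ac_nonneg k l
    obtain ⟨E, hE⟩ : ∃ E : ℕ, E = (k :: l).length + (k :: l).sum := ⟨_, rfl⟩
    have hac0 : 0 ≤ ac j (k :: l) := ac_nonneg _ _
    refine ⟨CU + ac j (k :: l) + (1 + 5 * C + 1 + 1 + 2 * c), by positivity, fun ξ hξ hξ8 => ?_⟩
    have e1 := ev_logN (eventually_ge_atTop (max (max 1 CM) (max ((Real.log 2 + Real.log 2 + 2 * CM) / ξ)
      (max (2 * (c * (1 + n)) / ξ) (max (c * Cb * 2 ^ (j + n) / ξ) (CM / ξ))))))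
    have e2 := ev_logN (ev_pow_exp 1 (ξ / 2) (2 ^ E / ξ) (by positivity))
    filter_upwards [h ξ hξ hξ8, e1, e2, eventually_ge_atTop 3, zN_facts ξ hξ (by linarith) 1] with N h f1 f2 hN hzf X hX hXN
    rw [pow_one] at f2
    obtain ⟨L, hL⟩ : ∃ L : ℝ, L = Real.log N := ⟨_, rfl⟩
    obtain ⟨z, hz⟩ : ∃ z : ℕ, z = zN ξ N := ⟨_, rfl⟩
    rw [← hL, ← hz, ← hn, ← hc] at h
    rw [← hL] at f1 f2 ⊢
    rw [← hz] at hzf ⊢
    have hL1 : 1 ≤ L := (le_max_left _ _).trans ((le_max_left _ _).trans f1)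
    have hLM : CM ≤ L := (le_max_right _ _).trans ((le_max_left _ _).trans f1)
    have f3 := (le_max_right _ _).trans f1
    have hL3 : (Real.log 2 + Real.log 2 + 2 * CM) / ξ ≤ L := (le_max_left _ _).trans f3
    have f4 := (le_max_right _ _).trans f3
    have hL4 : 2 * (c * (1 + n)) / ξ ≤ L := (le_max_left _ _).trans f4
    have f5 := (le_max_right _ _).trans f4
    have hL5 : c * Cb * 2 ^ (j + n) / ξ ≤ L := (le_max_left _ _).trans f5
    have hL6 : CM / ξ ≤ L := (le_max_right _ _).trans f5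
    have hL0 : 0 < L := by linarith
    have hN0 : (0 : ℝ) < N := by exact_mod_cast (by omega : 0 < N)
    have hX0 : (0 : ℝ) < X := by exact_mod_cast hX
    have hNpow : ∀ s : ℝ, (N : ℝ) ^ s = Real.exp (s * L) := by
      intro s
      rw [Real.rpow_def_of_pos hN0, ← hL, mul_comm]
    have hlXL : Real.log X ≤ L := by rw [hL]; exact Real.log_le_log hX0 (by exact_mod_cast hXN)
    have hlX0 : 0 ≤ Real.log X := Real.log_natCast_nonneg X
    have hr0 : 0 ≤ Real.log X / L := by positivity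
    have hr1 : Real.log X / L ≤ 1 := by rw [div_le_one hL0]; exact hlXL
    have hY0 : 0 < X / L := by positivity
    split_ifs with hcut
    · have h1 := hU N z X hN hXN
      rw [← hL] at h1
      have h2 := FF_nonneg (z := z) (by omega : 2 ≤ N) (by omega : X ≤ 2 * N) (j :: k :: l)
      have h3 : X / L * (ac j (k :: l) * (Real.log X / L) ^ nn j (k :: l)) ≤ X / L * (ac j (k :: l) * 1) :=
        mul_le_mul_of_nonneg_left (mul_le_mul_of_nonneg_left (pow_le_one₀ hr0 hr1) hac0) (by positivity)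
      have h4 : 0 ≤ X / L * (ac j (k :: l) * (Real.log X / L) ^ nn j (k :: l)) := by positivity
      have h5 : (CU + ac j (k :: l)) * (X / L) * 1 ≤
          (CU + ac j (k :: l) + (1 + 5 * C + 1 + 1 + 2 * c)) * (X / L) * (ξ + 1) := by
        have : 0 ≤ 1 + 5 * C + 1 + 1 + 2 * c := by positivity
        exact mul_le_mul (mul_le_mul_of_nonneg_right (by linarith) hY0.le) (by linarith) zero_le_one (by positivity)
      rw [abs_le]
      constructor <;> nlinarith
    · push Not at hcut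
      rw [add_zero]
      obtain ⟨z1, z2, z3, z4, z5⟩ := hzf
      have hzlt := zN_lt (ε₁ := ξ) (N := N) (by omega)
      rw [← hz] at hzlt
      have hzX : z ≤ X := by
        have h1 : (N : ℝ) ^ ξ ≤ (N : ℝ) ^ (2 * ξ) :=
          Real.rpow_le_rpow_of_exponent_le (by exact_mod_cast (by omega : 1 ≤ N)) (by linarith)
        have h2 : (z : ℝ) ≤ X := by linarith
        exact_mod_cast h2
      have hz0 : (0 : ℝ) < z := by exact_mod_cast z2
      have hlz : Real.log z ≤ ξ * L := by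
        rw [Real.log_le_iff_le_exp hz0, ← hNpow]
        exact hzlt.le
      have hz7 : 2 ^ E / ξ * L ≤ z := by
        refine f2.trans ?_
        rw [← hNpow]
        refine le_trans ?_ z3
        apply Real.rpow_le_rpow hN0.le _ (by positivity)
        push_cast
        linarith
      rw [F_rec]
      -- the error terms
      have hrep : |∑ p ∈ PR z X, lg N p ^ (j + 1) * ∑ m ∈ (Icc 1 (X / p)).filter (fun m => ¬ p ∣ m), wM N z (k :: l) m -
          ∑ p ∈ PR z X, lg N p ^ (j + 1) * PP' L X n c p| ≤ (1 + 5 * C + 1) * (X / L) * ξ := by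
        rw [← sum_sub_distrib]
        have h1 : ∀ p ∈ PR z X, |lg N p ^ (j + 1) * ∑ m ∈ (Icc 1 (X / p)).filter (fun m => ¬ p ∣ m), wM N z (k :: l) m -
            lg N p ^ (j + 1) * PP' L X n c p| ≤ 2 ^ E * X * (1 / (p : ℝ) ^ 2) +
            (C * (X / L) / L * (ξ * (Real.log p / p) + (if (X : ℝ) / p ≤ 2 * (N : ℝ) ^ (2 * ξ) then Real.log p / p else 0)) +
              c * (1 + n) / L * lg N p) := by
          intro p hp
          rw [mem_PR] at hp
          rw [← mul_sub, abs_mul, abs_of_nonneg (pow_nonneg (lg_nonneg N p) _), hE]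
          exact one_err hN hL1 hL hXN hlXL hc0 hC hξ hp.2 hp.1.2 h
        refine (abs_sum_le_sum_abs _ _).trans ((sum_le_sum h1).trans ?_)
        rw [sum_add_distrib, sum_add_distrib, ← mul_sum, ← mul_sum, ← mul_sum, sum_add_distrib, ← mul_sum]
        have g1 : 2 ^ E * X * ∑ p ∈ PR z X, (1 : ℝ) / (p : ℝ) ^ 2 ≤ 1 * (X / L) * ξ := by
          calc 2 ^ E * X * ∑ p ∈ PR z X, (1 : ℝ) / (p : ℝ) ^ 2 ≤ 2 ^ E * X * (1 / z) :=
                mul_le_mul_of_nonneg_left (sumD z2) (by positivity)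
            _ ≤ 2 ^ E * X * (1 / (2 ^ E / ξ * L)) := by
                apply mul_le_mul_of_nonneg_left _ (by positivity)
                exact one_div_le_one_div_of_le (by positivity) hz7
            _ = _ := by field_simp
        have hnn' : ∀ p : ℕ, 0 ≤ Real.log p / p := fun p => div_nonneg (Real.log_natCast_nonneg p) (Nat.cast_nonneg p)
        have g2 : ∑ p ∈ PR z X, Real.log p / p ≤ 2 * L := by
          refine (sum_PR_mono (fun p => Real.log p / p) hnn').trans ?_
          have := (abs_le.1 (hM X hX)).2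
          linarith
        have g3 : ∑ p ∈ PR z X, (if (X : ℝ) / p ≤ 2 * (N : ℝ) ^ (2 * ξ) then Real.log p / p else 0) ≤ 3 * ξ * L := by
          refine (sum_PR_mono (fun p => if (X : ℝ) / p ≤ 2 * (N : ℝ) ^ (2 * ξ) then Real.log p / p else 0) fun p => ?_).trans ?_
          · split_ifs
            · exact hnn' p
            · exact le_rfl
          · rw [← sum_filter]
            have h6 : (1 : ℝ) ≤ (N : ℝ) ^ (2 * ξ) := Real.one_le_rpow (by exact_mod_cast (by omega : 1 ≤ N)) (by positivity)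
            refine (sum_tail hM hX (by linarith)).trans ?_
            rw [Real.log_mul (by norm_num) (by positivity), Real.log_rpow hN0, ← hL]
            rw [div_le_iff₀ hξ] at hL3
            linarith
        have g4 : ∑ p ∈ PR z X, lg N p ≤ 2 * X / L := by
          refine (sum_PR_mono (fun p => lg N p) (fun p => lg_nonneg N p)).trans ?_
          rw [hL]
          exact sum_lg_le' (by omega)
        have g5 : C * (X / L) / L * (ξ * ∑ p ∈ PR z X, Real.log p / p +
            ∑ p ∈ PR z X, (if (X : ℝ) / p ≤ 2 * (N : ℝ) ^ (2 * ξ) then Real.log p / p else 0)) ≤ 5 * C * (X / L) * ξ := by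
          calc C * (X / L) / L * (ξ * ∑ p ∈ PR z X, Real.log p / p +
            ∑ p ∈ PR z X, (if (X : ℝ) / p ≤ 2 * (N : ℝ) ^ (2 * ξ) then Real.log p / p else 0)) ≤
              C * (X / L) / L * (ξ * (2 * L) + 3 * ξ * L) := by
                apply mul_le_mul_of_nonneg_left _ (by positivity)
                exact add_le_add (mul_le_mul_of_nonneg_left g2 hξ.le) g3
            _ = _ := by field_simp; ring
        have g6 : c * (1 + n) / L * ∑ p ∈ PR z X, lg N p ≤ 1 * (X / L) * ξ := by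
          have h7 : 2 * (c * (1 + n)) / L ≤ ξ := by
            rw [div_le_iff₀ hξ] at hL4
            rw [div_le_iff₀ hL0]
            linarith
          calc c * (1 + n) / L * ∑ p ∈ PR z X, lg N p ≤ c * (1 + n) / L * (2 * X / L) :=
                mul_le_mul_of_nonneg_left g4 (by positivity)
            _ = 2 * (c * (1 + n)) / L * (X / L) := by ring
            _ ≤ ξ * (X / L) := mul_le_mul_of_nonneg_right h7 hY0.le
            _ = _ := by ring
        have e9 : (1 + 5 * C + 1) * (X / L) * ξ = 1 * (X / L) * ξ + (5 * C * (X / L) * ξ + 1 * (X / L) * ξ) := by ring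
        rw [e9]
        exact add_le_add g1 (add_le_add g5 g6)
      -- the main terms
      have hmain := main_sum (N := N) (n := n) (j := j) (c := c) hL1 hL hX hc0 hlXL (hb X hX) hCb
      obtain ⟨s1, s2⟩ := small_sum (X := X) (n := n) (j := j) (c := c) hN hL1 hL hzX z2 hc0 hlXL hXN hM
      have hsub := sum_PR_sub hzX (fun p => lg N p ^ (j + 1) * PP' L X n c p)
      have hm1 : c * Cb * 2 ^ (j + n) / L * (X / L) ≤ 1 * (X / L) * ξ := by
        have h7 : c * Cb * 2 ^ (j + n) / L ≤ ξ := by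
          rw [div_le_iff₀ hξ] at hL5
          rw [div_le_iff₀ hL0]
          linarith
        calc c * Cb * 2 ^ (j + n) / L * (X / L) ≤ ξ * (X / L) := mul_le_mul_of_nonneg_right h7 hY0.le
          _ = _ := by ring
      have hm2 : c * ((Real.log z + CM) / L) * (X / L) ≤ 2 * c * (X / L) * ξ := by
        have h7 : (Real.log z + CM) / L ≤ 2 * ξ := by
          rw [div_le_iff₀ hξ] at hL6
          rw [div_le_iff₀ hL0]
          linarith
        calc c * ((Real.log z + CM) / L) * (X / L) ≤ c * (2 * ξ) * (X / L) := by gcongr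
          _ = _ := by ring
      have eac : ac j (k :: l) = c * ((j.factorial * n.factorial : ℝ) / (j + n + 1).factorial) := by
        rw [hc, hn]
        exact ac_cons j k l
      have enn : nn j (k :: l) = j + n + 1 := by rw [hn]; exact nn_cons j k l
      rw [enn]
      rw [← eac] at hmain
      obtain ⟨S, hS⟩ : ∃ S : ℝ, S = ∑ p ∈ PR z X, lg N p ^ (j + 1) * ∑ m ∈ (Icc 1 (X / p)).filter (fun m => ¬ p ∣ m), wM N z (k :: l) m :=
        ⟨_, rfl⟩
      rw [← hS] at hrep ⊢
      rw [hsub] at hrep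
      obtain ⟨a1, a2⟩ := abs_le.1 hrep
      obtain ⟨a3, a4⟩ := abs_le.1 hmain
      have hfin : (CU + ac j (k :: l) + (1 + 5 * C + 1 + 1 + 2 * c)) * (X / L) * ξ =
        (CU + ac j (k :: l)) * (X / L) * ξ + (1 + 5 * C + 1) * (X / L) * ξ + 1 * (X / L) * ξ + 2 * c * (X / L) * ξ := by ring
      have hfin0 : 0 ≤ (CU + ac j (k :: l)) * (X / L) * ξ := by positivity
      rw [hfin, abs_le]
      constructor <;> linarith

end Pool.Agent.H528.Mn
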