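import Mathlib
import Pool.Agent.H528.UGC

/-! The parity law. -/

set_option autoImplicit false

namespace Pool.Agent.H528.UG

open Finset Filter Topology
open Pool.Agent.Y822
open Pool.Agent.Y822.Q (VP_PP VP_bd Vz_pos Vz_up EE_le)
open Pool.Agent.Y822.V (EV foV)
open Pool.Agent.Y822.Par3 Pool.Agent.Y822.QF
open Pool.Agent.H373R2.T7 (pz Vz mem_pz)
open Pool.Agent.H387R2.Uni (nuT Adm locT CT)
open Pool.Agent.H528.Stp Pool.Agent.H528.Gam Pool.Agent.H528.Avg Pool.Agent.H528.Cst Pool.Agent.H528.Mo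

/-- the deviation of the mass of the products of `r` primes from the expected value -/
noncomputable def dv (N z y : ℕ) (f : ℕ → ℝ) (t : ℕ) (l : List ℕ) : ℝ :=
  ∑ n ∈ Icc 1 N, f n * wM N z l (n + t) -
    (∑ m ∈ Icc 1 N, wM N z l m) / (N * Vz y) * ∑ n ∈ Icc 1 N, f n * ro y (n + t)

lemma IsK_mono {a : ℕ → ℝ} {B B' : ℝ} {F : Finset ℕ → ℝ} (h : IsK a B F) (hB : B ≤ B') : IsK a B' F := by
  obtain ⟨H, h1, h2⟩ := h
  refine ⟨H, fun T hT => (h1 T hT).trans hB, fun θ h0 hθ P hP => (h2 θ h0 hθ P hP).trans ?_⟩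
  exact mul_le_mul_of_nonneg_right hB h0

lemma uni_B (𝓛 : Finset (ℕ × List ℕ)) : ∃ B : ℝ, 1 ≤ B ∧ ∀ q ∈ 𝓛, ∀ a : ℕ → ℝ, (∀ p, 0 ≤ a p) →
    IsK a B (fun P => M a (q.1 :: q.2) P - cl q.1 q.2 * M a [0] P) := by
  classical
  induction 𝓛 using Finset.induction_on with
  | empty => exact ⟨1, le_rfl, fun q hq => absurd hq (notMem_empty q)⟩
  | insert q s _ ih =>
    obtain ⟨B, hB, h⟩ := ih
    obtain ⟨B', hB', h'⟩ := mom q.1 q.2
    refine ⟨B + B', by linarith, fun q' hq' a ha => ?_⟩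
    rcases mem_insert.1 hq' with rfl | h1
    · exact IsK_mono (h' a ha) (by linarith)
    · exact IsK_mono (h q' h1 a ha) (by linarith)

lemma uni_K (𝓛 : Finset (ℕ × List ℕ)) (B : ℝ) (M : ℕ) (hB : 0 ≤ B) : ∃ K : ℝ, 1 ≤ K ∧ ∀ q ∈ 𝓛,
    KK B (cl q.1 q.2) ((q.1 :: q.2).length + (q.1 :: q.2).sum) M ≤ K := by
  classical
  induction 𝓛 using Finset.induction_on with
  | empty => exact ⟨1, le_rfl, fun q hq => absurd hq (notMem_empty q)⟩
  | insert q s _ ih =>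
    obtain ⟨K, hK, h⟩ := ih
    have h0 : 0 ≤ KK B (cl q.1 q.2) ((q.1 :: q.2).length + (q.1 :: q.2).sum) M := by unfold KK; positivity
    refine ⟨K + KK B (cl q.1 q.2) ((q.1 :: q.2).length + (q.1 :: q.2).sum) M, by linarith, fun q' hq' => ?_⟩
    rcases mem_insert.1 hq' with rfl | h1
    · linarith
    · exact (h q' h1).trans (by linarith)

/-- the calculation -/
lemma calcL {A A' c B P Q X Y v s θ R R' e x ε T1 T2 T3 D : ℝ} (hA : |A - c * P - B * X| ≤ B * θ * R + e)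
    (hA' : |A' - c * Q - B * Y| ≤ B * θ * R' + e) (hX : |X - Y * v| ≤ x * s + D)
    (hR : R ≤ T1 * s + D) (hR' : R' * v ≤ R + x * s + D) (hv : 0 ≤ v) (hB : 0 ≤ B) (hθ : 0 ≤ θ)
    (hs : 0 ≤ s) (h1 : B * θ * (2 * T1 + x) + B * x ≤ ε) (h2 : B * θ * 3 * D + B * D + e * (1 + v) ≤ T2)
    (hT : T3 = T2) : |(A - A' * v) - c * (P - Q * v)| ≤ ε * s + T3 := by
  have e1 : (A - A' * v) - c * (P - Q * v) = (A - c * P - B * X) - (A' - c * Q - B * Y) * v + B * (X - Y * v) := by ring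
  rw [e1, hT]
  have h3 := abs_add_le ((A - c * P - B * X) - (A' - c * Q - B * Y) * v) (B * (X - Y * v))
  have h4 := abs_sub (A - c * P - B * X) ((A' - c * Q - B * Y) * v)
  rw [abs_mul, abs_of_nonneg hB] at h3
  rw [abs_mul, abs_of_nonneg hv] at h4
  have hBθ : 0 ≤ B * θ := mul_nonneg hB hθ
  have h5 : |A' - c * Q - B * Y| * v ≤ B * θ * (R' * v) + e * v := by
    calc |A' - c * Q - B * Y| * v ≤ (B * θ * R' + e) * v := mul_le_mul_of_nonneg_right hA' hv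
      _ = _ := by ring
  have h6 : B * |X - Y * v| ≤ B * x * s + B * D := by
    calc B * |X - Y * v| ≤ B * (x * s + D) := mul_le_mul_of_nonneg_left hX hB
      _ = _ := by ring
  have h7 : B * θ * (R' * v) ≤ B * θ * R + B * θ * x * s + B * θ * D := by
    calc B * θ * (R' * v) ≤ B * θ * (R + x * s + D) := mul_le_mul_of_nonneg_left hR' hBθ
      _ = _ := by ring
  have h8 : B * θ * R ≤ B * θ * T1 * s + B * θ * D := by
    calc B * θ * R ≤ B * θ * (T1 * s + D) := mul_le_mul_of_nonneg_left hR hBθ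
      _ = _ := by ring
  have h9 : 2 * (B * θ * T1 * s) + B * θ * x * s + B * x * s ≤ ε * s := by
    calc 2 * (B * θ * T1 * s) + B * θ * x * s + B * x * s = (B * θ * (2 * T1 + x) + B * x) * s := by ring
      _ ≤ ε * s := mul_le_mul_of_nonneg_right h1 hs
  have h10 : 3 * (B * θ * D) + B * D + (e + e * v) ≤ T2 := by
    calc 3 * (B * θ * D) + B * D + (e + e * v) = B * θ * 3 * D + B * D + e * (1 + v) := by ring
      _ ≤ T2 := h2
  generalize B * θ * (R' * v) = a1 at *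
  generalize B * θ * T1 * s = a2 at *
  generalize B * θ * x * s = a3 at *
  generalize B * θ * R = a4 at *
  generalize B * θ * D = a5 at *
  generalize B * x * s = a6 at *
  generalize B * D = a7 at *
  generalize e * v = a8 at *
  generalize B * |X - Y * v| = a9 at *
  generalize |A' - c * Q - B * Y| * v = a10 at *
  generalize |A - c * P - B * X - (A' - c * Q - B * Y) * v| = a11 at *
  generalize |A - c * P - B * X - (A' - c * Q - B * Y) * v + B * (X - Y * v)| = a12 at *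
  generalize |A - c * P - B * X| = a13 at *
  linarith

/-- **the parity law** -/
theorem law (𝓛 : Finset (ℕ × List ℕ)) (ε : ℝ) (hε : 0 < ε) (U : ℕ) : ∃ δ : ℝ, 1 / 2 ≤ δ ∧ δ < 1 ∧
    ∃ ε₁ : ℝ, 0 < ε₁ ∧ ε₁ ≤ 1 / 8 ∧ ε₁ ≤ ε ∧ ∃ κ : ℝ, 0 < κ ∧ κ ≤ 1 ∧ ∃ C : ℕ, ∀ᶠ N : ℕ in atTop,
    ∀ f : ℕ → ℝ, (∀ n, 0 ≤ f n ∧ f n ≤ 1) → ∀ S : Finset ℕ, (∀ a ∈ S, a ≤ N ∧
      ¬ (∑ n ∈ Icc 1 N, f n * ro (zN ε₁ N) (n + a) ≤
          (3 / ε₁) / (Real.log N * Vz (yN κ N)) * ∑ n ∈ Icc 1 N, f n * ro (yN κ N) (n + a) + N / Real.log N ^ U ∧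
        ∀ q ∈ 𝓛, |dv N (zN ε₁ N) (yN κ N) f a (q.1 :: q.2) - cl q.1 q.2 * dv N (zN ε₁ N) (yN κ N) f a [0]| ≤
        ε / (Real.log N * Vz (yN κ N)) * ∑ n ∈ Icc 1 N, f n * ro (yN κ N) (n + a) + N / Real.log N ^ U)) →
      (S.card : ℝ) ≤ (N : ℝ) ^ δ * Real.log N ^ C := by
  classical
  obtain ⟨_, _, cz, hcz, hcz1, VZ, _⟩ := ComB.comB
  obtain ⟨B, hB1, hBK⟩ := uni_B 𝓛
  have hB0 : 0 < B := by linarith
  obtain ⟨x, hx⟩ : ∃ x : ℝ, x = min (1 / 8) (ε / (4 * B)) := ⟨_, rfl⟩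
  have hx0 : 0 < x := by rw [hx]; positivity
  have hx8 : x ≤ 1 / 8 := by rw [hx]; exact min_le_left _ _
  have hxε : B * x ≤ ε / 4 := by
    have h1 : x ≤ ε / (4 * B) := by rw [hx]; exact min_le_right _ _
    calc B * x ≤ B * (ε / (4 * B)) := mul_le_mul_of_nonneg_left h1 hB0.le
      _ = ε / 4 := by field_simp
  have hxε' : x ≤ ε := by
    have : 1 * x ≤ B * x := mul_le_mul_of_nonneg_right hB1 hx0.le
    linarith
  obtain ⟨δ, hδ1, hδ2, ε₁, hε₁0, hε₁x, κ, hκ, hκ1, C, UG⟩ := ug x hx0 hx8 (U + 2) (by omega)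
  obtain ⟨θ, hθ⟩ : ∃ θ : ℝ, θ = min 1 (ε * ε₁ / (14 * B)) := ⟨_, rfl⟩
  have hθ0 : 0 < θ := by rw [hθ]; positivity
  have hθ1 : θ ≤ 1 := by rw [hθ]; exact min_le_left _ _
  have hθε : B * θ * (7 / ε₁) ≤ ε / 2 := by
    have h1 : θ ≤ ε * ε₁ / (14 * B) := by rw [hθ]; exact min_le_right _ _
    calc B * θ * (7 / ε₁) ≤ B * (ε * ε₁ / (14 * B)) * (7 / ε₁) := by gcongr
      _ = ε / 2 := by field_simp; norm_num
  obtain ⟨m₀, hm₀⟩ : ∃ m₀ : ℕ, m₀ = ⌈4 / ε₁⌉₊ := ⟨_, rfl⟩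
  obtain ⟨K, hK1, hKK⟩ := uni_K 𝓛 B m₀ hB0.le
  refine ⟨δ, hδ1, hδ2, ε₁, hε₁0, by linarith, by linarith, κ, hκ, hκ1, C, ?_⟩
  have e1 := ev_logN (eventually_ge_atTop (max (max (Real.log 2 / θ) (16 * B)) 1))
  have e2 := ev_logN (ev_pow_exp (U + 1) (ε₁ / 2) (K * 4 * (3 * (1 + 1 / cz))) (by positivity))
  have e3 := ev_logN (ev_pow_exp (U + 1) θ (K * 4 * (1 + 1 / cz)) hθ0)
  filter_upwards [UG, e1, e2, e3, eventually_ge_atTop 3, yN_facts κ hκ hκ1 3 1] with N UG f1 f2 f3 hN3 hyf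
    f hf S hS
  obtain ⟨Z, u1, u2, u3, u4, u5, u6⟩ := UG
  obtain ⟨y1, y2, y3, y4, y5⟩ := hyf
  rw [pow_one] at y4
  apply u6 f (fun n => by rw [abs_of_nonneg (hf n).1]; exact (hf n).2) S
  intro t htS
  obtain ⟨ht, hbad⟩ := hS t htS
  refine ⟨ht, ?_⟩
  by_contra hZ
  push Not at hZ
  apply hbad
  obtain ⟨v1, v2⟩ := u5 f hf t ht hZ
  rw [← hm₀] at u4
  obtain ⟨L, hL⟩ : ∃ L : ℝ, L = Real.log N := ⟨_, rfl⟩
  obtain ⟨y, hy⟩ : ∃ y : ℕ, y = yN κ N := ⟨_, rfl⟩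
  obtain ⟨z, hz⟩ : ∃ z : ℕ, z = zN ε₁ N := ⟨_, rfl⟩
  rw [← hy] at u1 v1 v2 y4 ⊢
  rw [← hz] at u2 u3 u4 v1 v2 ⊢
  rw [← hL] at v1 v2 f1 f2 f3 ⊢
  have hN0 : (0 : ℝ) < N := by positivity
  have hL1 : 1 ≤ L := (le_max_right _ _).trans f1
  have hL0 : 0 < L := by linarith
  have hLθ : Real.log 2 / θ ≤ L := (le_max_left _ _).trans ((le_max_left _ _).trans f1)
  have hLB : 16 * B ≤ L := (le_max_right _ _).trans ((le_max_left _ _).trans f1)
  have hNpow : ∀ s : ℝ, (N : ℝ) ^ s = Real.exp (s * L) := by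
    intro s
    rw [Real.rpow_def_of_pos hN0, ← hL, mul_comm]
  have h2N : 2 ≤ (N : ℝ) ^ θ := by
    rw [hNpow, ← Real.log_le_iff_le_exp (by norm_num)]
    rw [div_le_iff₀ hθ0] at hLθ
    linarith
  have hVy : 0 < Vz y := Vz_pos y
  have hVlow : cz / L ≤ Vz y := by
    have hy0 : (0 : ℝ) < y := by exact_mod_cast (by omega : 0 < y)
    have hyN : Real.log y ≤ L := by
      rw [hL]
      exact Real.log_le_log hy0 (by exact_mod_cast y4)
    have hly : 0 < Real.log y := Real.log_pos (by exact_mod_cast (by omega : 1 < y))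
    exact (div_le_div_of_nonneg_left hcz.le hly hyN).trans (VZ y u1)
  have hz1 : 1 ≤ z := by
    by_contra h
    have : z = 0 := by omega
    rw [this] at u2
    have : 0 < (N : ℝ) ^ (ε₁ / 2) := by positivity
    push_cast at u2
    linarith
  obtain ⟨Y, hY⟩ : ∃ Y : ℝ, Y = ∑ n ∈ Icc 1 N, f n * ro y (n + t) := ⟨_, rfl⟩
  have hY0 : 0 ≤ Y := by rw [hY]; exact sum_nonneg fun n _ => mul_nonneg (hf n).1 (ro_nonneg _ _)
  have hYN : Y ≤ N := by
    rw [hY]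
    calc ∑ n ∈ Icc 1 N, f n * ro y (n + t) ≤ ∑ n ∈ Icc 1 N, (1 : ℝ) := sum_le_sum fun n _ => by
          calc f n * ro y (n + t) ≤ 1 * 1 := mul_le_mul (hf n).2 (ro_le_one _ _) (ro_nonneg _ _) zero_le_one
            _ = 1 := one_mul 1
      _ = N := by rw [sum_const, Nat.card_Icc, Nat.add_sub_cancel, nsmul_eq_mul, mul_one]
  obtain ⟨v, hv⟩ : ∃ v : ℝ, v = Y / (N * Vz y) := ⟨_, rfl⟩
  have hv0 : 0 ≤ v := by rw [hv]; positivity
  have hvL : v ≤ L / cz := by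
    rw [hv, div_le_div_iff₀ (by positivity) hcz]
    calc Y * cz ≤ N * cz := mul_le_mul_of_nonneg_right hYN hcz.le
      _ ≤ N * (Vz y * L) := by
          apply mul_le_mul_of_nonneg_left _ hN0.le
          rw [div_le_iff₀ hL0] at hVlow
          exact hVlow
      _ = L * (N * Vz y) := by ring
  rw [← hY] at v1 ⊢
  simp only [← hY] at v2
  refine ⟨v1.trans (add_le_add le_rfl (div_le_div_of_nonneg_left hN0.le (by positivity)
    (pow_le_pow_right₀ hL1 (by omega)))), ?_⟩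
  intro q hq
  obtain ⟨H, h1, h2⟩ := hBK q hq (lg N) (lg_nonneg N)
  have g1 := cmp_sum (z := z) (by omega : 2 ≤ N) hz1 hB0 u4 hθ0.le h2N (k := q.1) (l := q.2) h1 (h2 θ hθ0.le hθ1) f hf t ht
  have g2 := cmp_sum (z := z) (by omega : 2 ≤ N) hz1 hB0 u4 hθ0.le h2N (k := q.1) (l := q.2) h1 (h2 θ hθ0.le hθ1)
    (fun _ => 1) (fun _ => ⟨zero_le_one, le_rfl⟩) 0 (Nat.zero_le N)
  simp only [one_mul, add_zero] at g2
  have g3 := v2 _ (Cf_cH (by omega : 2 ≤ N) hB0 h1)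
  have g4 := v2 c1 (Cf_c1 N)
  have e5 : ∑ n ∈ Icc 1 N, f n * wU z c1 (n + t) = ∑ n ∈ Icc 1 N, f n * ro z (n + t) :=
    sum_congr rfl fun n hn => by
      rw [mem_Icc] at hn
      rw [wU_c1 z (n + t) (by omega)]
  have e6 : ∑ m ∈ Icc 1 N, wU z c1 m = ∑ m ∈ Icc 1 N, ro z m :=
    sum_congr rfl fun n hn => by
      rw [mem_Icc] at hn
      rw [wU_c1 z n (by omega)]
  rw [e5, e6] at g4
  have hKq := hKK q hq
  obtain ⟨er, her⟩ : ∃ er : ℝ, er = K * (3 * N / z + (N : ℝ) ^ (1 - θ)) := ⟨_, rfl⟩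
  have her0 : 0 ≤ 3 * N / z + (N : ℝ) ^ (1 - θ) := by positivity
  have g1' := g1.trans (add_le_add le_rfl (mul_le_mul_of_nonneg_right hKq her0))
  have g2' := g2.trans (add_le_add le_rfl (mul_le_mul_of_nonneg_right hKq her0))
  rw [← her] at g1' g2'
  unfold dv
  simp only [← hY]
  have e7 : ∀ A : ℝ, A / (N * Vz y) * Y = A * v := fun A => by rw [hv]; ring
  simp only [e7] at g3 g4 ⊢
  have e8 : ∀ A : ℝ, A / (L * Vz y) * Y = A * (Y / (L * Vz y)) := fun A => by ring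
  simp only [e8] at g3 g4 v1 ⊢
  have hs0 : 0 ≤ Y / (L * Vz y) := by positivity
  refine calcL (D := N / L ^ (U + 2)) (T1 := 3 / ε₁) (e := er) (T2 := N / L ^ U) g1' g2' g3 v1 ?_ hv0 hB0.le hθ0.le hs0 ?_ ?_ rfl
  · obtain ⟨a1, a2⟩ := abs_le.1 g4
    linarith
  · have h3 : 2 * (3 / ε₁) + x ≤ 7 / ε₁ := by
      have h4 : x ≤ 1 / ε₁ := by
        rw [le_div_iff₀ hε₁0]
        calc x * ε₁ ≤ 1 * 1 := mul_le_mul (by linarith) (by linarith) hε₁0.le zero_le_one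
          _ = 1 := one_mul 1
      have h5 : 2 * (3 / ε₁) + 1 / ε₁ = 7 / ε₁ := by ring
      linarith
    have h4 : B * θ * (2 * (3 / ε₁) + x) ≤ B * θ * (7 / ε₁) := mul_le_mul_of_nonneg_left h3 (by positivity)
    linarith
  · have hD0 : 0 < (N : ℝ) / L ^ U := by positivity
    have e9 : (N : ℝ) / L ^ (U + 2) = N / L ^ U / (L * L) := by
      rw [pow_add, pow_two, div_div]
    have h3 : B * θ * 3 * (N / L ^ (U + 2)) + B * (N / L ^ (U + 2)) ≤ 1 / 4 * (N / L ^ U) := by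
      rw [e9]
      have h4 : B * θ * 3 + B ≤ 1 / 4 * (L * L) := by
        have h6 : B * θ ≤ B * 1 := mul_le_mul_of_nonneg_left hθ1 hB0.le
        have h7 : L * 1 ≤ L * L := mul_le_mul_of_nonneg_left hL1 hL0.le
        linarith
      have h5 : (B * θ * 3 + B) * (N / L ^ U / (L * L)) ≤ 1 / 4 * (L * L) * (N / L ^ U / (L * L)) :=
        mul_le_mul_of_nonneg_right h4 (by positivity)
      have e10 : 1 / 4 * (L * L) * ((N : ℝ) / L ^ U / (L * L)) = 1 / 4 * (N / L ^ U) := by field_simp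
      rw [e10] at h5
      linarith
    have h1v : 1 + v ≤ (1 + 1 / cz) * L := by
      have h6 : L / cz = 1 / cz * L := by ring
      rw [h6] at hvL
      have h7 : (1 + 1 / cz) * L = L + 1 / cz * L := by ring
      rw [h7]
      linarith
    have h4 : er * (1 + v) ≤ 1 / 2 * (N / L ^ U) := by
      rw [her]
      have hz0 : (0 : ℝ) < z := by exact_mod_cast hz1
      have ha : K * (3 * N / z) * ((1 + 1 / cz) * L) ≤ 1 / 4 * (N / L ^ U) := by
        have h5 : K * 4 * (3 * (1 + 1 / cz)) * L ^ (U + 1) ≤ z := by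
          refine f2.trans ?_
          rw [← hNpow]
          exact u2
        rw [show K * (3 * (N : ℝ) / z) * ((1 + 1 / cz) * L) = K * (3 * (1 + 1 / cz)) * L * N / z by ring,
          show 1 / 4 * ((N : ℝ) / L ^ U) = N / (4 * L ^ U) by field_simp,
          div_le_div_iff₀ hz0 (by positivity)]
        calc K * (3 * (1 + 1 / cz)) * L * N * (4 * L ^ U) = N * (K * 4 * (3 * (1 + 1 / cz)) * L ^ (U + 1)) := by ring
          _ ≤ N * z := mul_le_mul_of_nonneg_left h5 hN0.le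
      have hb : K * ((N : ℝ) ^ (1 - θ)) * ((1 + 1 / cz) * L) ≤ 1 / 4 * (N / L ^ U) := by
        rw [show 1 / 4 * ((N : ℝ) / L ^ U) = N / (4 * L ^ U) by field_simp, le_div_iff₀ (by positivity)]
        have h5 : (N : ℝ) ^ (1 - θ) * Real.exp (θ * L) = N := by
          rw [← hNpow, ← Real.rpow_add hN0]
          simp
        calc K * ((N : ℝ) ^ (1 - θ)) * ((1 + 1 / cz) * L) * (4 * L ^ U) =
              (N : ℝ) ^ (1 - θ) * (K * 4 * (1 + 1 / cz) * L ^ (U + 1)) := by ring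
          _ ≤ (N : ℝ) ^ (1 - θ) * Real.exp (θ * L) := mul_le_mul_of_nonneg_left f3 (by positivity)
          _ = N := h5
      have hc : K * (3 * N / z + (N : ℝ) ^ (1 - θ)) * (1 + v) ≤ K * (3 * N / z + (N : ℝ) ^ (1 - θ)) * ((1 + 1 / cz) * L) :=
        mul_le_mul_of_nonneg_left h1v (by positivity)
      have e11 : K * (3 * N / z + (N : ℝ) ^ (1 - θ)) * ((1 + 1 / cz) * L) =
        K * (3 * N / z) * ((1 + 1 / cz) * L) + K * ((N : ℝ) ^ (1 - θ)) * ((1 + 1 / cz) * L) := by ring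
      linarith
    linarith

end Pool.Agent.H528.UG
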