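import Mathlib
import Pool.Agent.H528.UGD
import Pool.Agent.H528.MnC

/-! The parity law, explicitly. -/

set_option autoImplicit false

namespace Pool.Agent.H528.UG

open Finset Filter Topology
open Pool.Agent.Y822
open Pool.Agent.Y822.Q (VP_PP VP_bd Vz_pos Vz_up EE_le)
open Pool.Agent.Y822.Par3
open Pool.Agent.H373R2.T7 (pz Vz mem_pz)
open Pool.Agent.H528.Stp Pool.Agent.H528.Gam Pool.Agent.H528.Avg Pool.Agent.H528.Cst Pool.Agent.H528.Mo
open Pool.Agent.H528.Mn (ac nn FF FF_asy ac_nonneg ac_nil)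

open Classical in
/-- the number of the primes in the translate -/
noncomputable def pif (N : ℕ) (f : ℕ → ℝ) (t : ℕ) : ℝ := ∑ n ∈ Icc 1 N, f n * (if (n + t).Prime then 1 else 0)

lemma wM0_of_not_prime {N z m : ℕ} (hm : 1 ≤ m) (h : ¬ m.Prime) : wM N z [0] m = 0 := by
  unfold wM
  split_ifs with hsq
  · have h1 : M (lg N) [0] m.primeFactors = 0 := by
      unfold M
      refine sum_eq_zero fun p hp => ?_
      have h2 : M (lg N) [] (m.primeFactors.erase p) = 0 := by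
        unfold M
        rw [if_neg]
        intro h3
        apply h
        have h4 : m.primeFactors = {p} := by
          rw [← insert_erase hp, h3]
          rfl
        have h5 := Nat.prod_primeFactors_of_squarefree hsq
        rw [h4, prod_singleton] at h5
        rw [← h5]
        exact Nat.prime_of_mem_primeFactors hp
      rw [h2, mul_zero]
    rw [h1, mul_zero]
  · rw [mul_zero]

lemma wM0_of_prime {N z m : ℕ} (h : m.Prime) : wM N z [0] m = ro z m * lg N m := by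
  unfold wM
  rw [if_pos h.prime.squarefree, h.primeFactors]
  congr 1
  unfold M
  rw [sum_singleton]
  unfold M
  simp

open Classical in
/-- the primes and the weight -/
lemma w0_pt {N z m : ℕ} {θ : ℝ} (hN : 2 ≤ N) (hm1 : 1 ≤ m) (hm : m ≤ 2 * N) (hθ0 : 0 ≤ θ)
    (h2N : (2 : ℝ) ≤ (N : ℝ) ^ θ) (hz : (z : ℝ) ≤ (N : ℝ) ^ (1 - θ)) :
    |wM N z [0] m - (if m.Prime then 1 else 0)| ≤ θ * ro z m + (if (m : ℝ) ≤ (N : ℝ) ^ (1 - θ) then 1 else 0) := by
  have hN1 : (1 : ℝ) < N := by exact_mod_cast (by omega : 1 < N)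
  have hN0 : (0 : ℝ) < N := by linarith
  have hL : 0 < Real.log N := Real.log_pos hN1
  have hro0 := ro_nonneg z m
  have hm0 : (0 : ℝ) < m := by exact_mod_cast hm1
  by_cases hp : m.Prime
  swap
  · rw [wM0_of_not_prime hm1 hp, if_neg hp, sub_zero, abs_zero]
    apply add_nonneg (mul_nonneg hθ0 hro0)
    split_ifs <;> norm_num
  rw [if_pos hp, wM0_of_prime hp]
  by_cases hro : Ro z m
  · rw [ro_of hro, one_mul, mul_one]
    split_ifs with hs
    · have h1 : 0 ≤ lg N m := lg_nonneg N m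
      have h2 : lg N m ≤ 1 := by
        unfold lg
        rw [div_le_one hL]
        apply Real.log_le_log hm0
        refine hs.trans ?_
        calc (N : ℝ) ^ (1 - θ) ≤ (N : ℝ) ^ (1 : ℝ) := Real.rpow_le_rpow_of_exponent_le hN1.le (by linarith)
          _ = N := Real.rpow_one _
      rw [abs_le]
      constructor <;> linarith
    · push Not at hs
      rw [add_zero]
      unfold lg
      rw [abs_le]
      constructor
      · have h3 : (1 - θ) * Real.log N ≤ Real.log m := by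
          rw [← Real.log_rpow hN0]
          exact Real.log_le_log (by positivity) hs.le
        have h4 : 1 - θ ≤ Real.log m / Real.log N := by rw [le_div_iff₀ hL]; exact h3
        linarith
      · have h3 : Real.log m ≤ (1 + θ) * Real.log N := by
          rw [← Real.log_rpow hN0]
          apply Real.log_le_log hm0
          rw [Real.rpow_add hN0, Real.rpow_one]
          have h5 : (m : ℝ) ≤ 2 * N := by exact_mod_cast hm
          calc (m : ℝ) ≤ N * 2 := by linarith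
            _ ≤ N * (N : ℝ) ^ θ := mul_le_mul_of_nonneg_left h2N hN0.le
        have h4 : Real.log m / Real.log N ≤ 1 + θ := by rw [div_le_iff₀ hL]; exact h3
        linarith
  · have h3 : ro z m = 0 := by unfold ro; rw [if_neg hro]
    have h4 : (m : ℝ) ≤ (N : ℝ) ^ (1 - θ) := by
      refine le_trans ?_ hz
      have h5 : m ≤ z := by
        by_contra h6
        push Not at h6
        apply hro
        intro p hpp hpz hpd
        have := (Nat.prime_dvd_prime_iff_eq hpp hp).1 hpd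
        omega
      exact_mod_cast h5
    rw [h3, if_pos h4]
    norm_num

open Classical in
lemma w0_sum {N z : ℕ} {θ : ℝ} (hN : 2 ≤ N) (hθ0 : 0 ≤ θ)
    (h2N : (2 : ℝ) ≤ (N : ℝ) ^ θ) (hz : (z : ℝ) ≤ (N : ℝ) ^ (1 - θ)) (f : ℕ → ℝ) (hf : ∀ n, 0 ≤ f n ∧ f n ≤ 1)
    (t : ℕ) (ht : t ≤ N) :
    |∑ n ∈ Icc 1 N, f n * wM N z [0] (n + t) - pif N f t| ≤ θ * ∑ n ∈ Icc 1 N, f n * ro z (n + t) + (N : ℝ) ^ (1 - θ) := by
  unfold pif
  rw [← sum_sub_distrib]
  have h3 : ∀ n ∈ Icc 1 N, |f n * wM N z [0] (n + t) - f n * (if (n + t).Prime then 1 else 0)| ≤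
      θ * (f n * ro z (n + t)) + (if ((n + t : ℕ) : ℝ) ≤ (N : ℝ) ^ (1 - θ) then 1 else 0) := by
    intro n hn
    rw [mem_Icc] at hn
    have h4 := w0_pt (z := z) (m := n + t) hN (by omega) (by omega) hθ0 h2N hz
    rw [← mul_sub, abs_mul, abs_of_nonneg (hf n).1]
    refine (mul_le_mul_of_nonneg_left h4 (hf n).1).trans ?_
    rw [mul_add]
    have h5 : (0 : ℝ) ≤ (if ((n + t : ℕ) : ℝ) ≤ (N : ℝ) ^ (1 - θ) then (1 : ℝ) else 0) := by
      split_ifs <;> norm_num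
    have h6 := mul_le_mul_of_nonneg_right (hf n).2 h5
    rw [one_mul] at h6
    have e2 : f n * (θ * ro z (n + t)) = θ * (f n * ro z (n + t)) := by ring
    rw [e2]
    linarith
  refine (abs_sum_le_sum_abs _ _).trans ((sum_le_sum h3).trans ?_)
  rw [sum_add_distrib, ← mul_sum]
  apply add_le_add le_rfl
  rw [← sum_filter, sum_const, nsmul_eq_mul, mul_one]
  have h4 : ((Icc 1 N).filter (fun n : ℕ => ((n + t : ℕ) : ℝ) ≤ (N : ℝ) ^ (1 - θ))).card ≤ ⌊(N : ℝ) ^ (1 - θ)⌋₊ := by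
    have h5 : (Icc 1 N).filter (fun n : ℕ => ((n + t : ℕ) : ℝ) ≤ (N : ℝ) ^ (1 - θ)) ⊆ Icc 1 ⌊(N : ℝ) ^ (1 - θ)⌋₊ := by
      intro n hn
      rw [mem_filter, mem_Icc] at hn
      rw [mem_Icc]
      refine ⟨hn.1.1, Nat.le_floor ?_⟩
      refine le_trans ?_ hn.2
      push_cast
      linarith [Nat.cast_nonneg (α := ℝ) t]
    have h6 := card_le_card h5
    rwa [Nat.card_Icc, Nat.add_sub_cancel] at h6
  have h7 : ((⌊(N : ℝ) ^ (1 - θ)⌋₊ : ℕ) : ℝ) ≤ (N : ℝ) ^ (1 - θ) := Nat.floor_le (by positivity)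
  exact le_trans (by exact_mod_cast h4) h7

/-- the calculation -/
lemma calcE {Tl T0 Fl F0 a c p s e1 e2 D D2 η A ε W : ℝ} (h1 : |(Tl - Fl * s) - c * (T0 - F0 * s)| ≤ e1 * s + D)
    (hF : |Fl - a| ≤ η) (hF0 : |F0 - 1| ≤ η) (hT : |T0 - p| ≤ e2 * s + D2) (hs : 0 ≤ s) (ha0 : 0 ≤ a) (ha : a ≤ A)
    (hA0 : 0 ≤ A) (hε : e1 + A * e2 + (1 + A) * η ≤ ε) (hW : D + A * D2 ≤ W) (hb : 0 ≤ e2 * s + D2) :
    (c = a → |Tl - a * p| ≤ ε * s + W) ∧ (c = -a → |Tl - a * (2 * s - p)| ≤ ε * s + W) := by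
  have hη : 0 ≤ η := (abs_nonneg _).trans hF
  have g1 : a * |T0 - p| ≤ A * (e2 * s + D2) := mul_le_mul ha hT (abs_nonneg _) hA0
  have g2 : |Fl - a| * s ≤ η * s := mul_le_mul_of_nonneg_right hF hs
  have g3 : a * |F0 - 1| * s ≤ A * η * s := mul_le_mul_of_nonneg_right (mul_le_mul ha hF0 (abs_nonneg _) hA0) hs
  have g4 : (e1 + A * e2 + (1 + A) * η) * s ≤ ε * s := mul_le_mul_of_nonneg_right hε hs
  have e5 : (e1 + A * e2 + (1 + A) * η) * s = e1 * s + A * (e2 * s) + η * s + A * η * s := by ring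
  have e6 : A * (e2 * s + D2) = A * (e2 * s) + A * D2 := by ring
  rw [e5] at g4
  rw [e6] at g1
  constructor
  · rintro rfl
    have e : Tl - c * p = ((Tl - Fl * s) - c * (T0 - F0 * s)) + c * (T0 - p) + (Fl - c) * s + -(c * (F0 - 1) * s) := by ring
    rw [e]
    have i1 := abs_add_le (((Tl - Fl * s) - c * (T0 - F0 * s)) + c * (T0 - p) + (Fl - c) * s) (-(c * (F0 - 1) * s))
    have i2 := abs_add_le (((Tl - Fl * s) - c * (T0 - F0 * s)) + c * (T0 - p)) ((Fl - c) * s)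
    have i3 := abs_add_le ((Tl - Fl * s) - c * (T0 - F0 * s)) (c * (T0 - p))
    rw [abs_neg, abs_mul (c * (F0 - 1)) s, abs_mul c (F0 - 1), abs_of_nonneg ha0, abs_of_nonneg hs] at i1
    rw [abs_mul (Fl - c) s, abs_of_nonneg hs] at i2
    rw [abs_mul c (T0 - p), abs_of_nonneg ha0] at i3
    linarith
  · rintro rfl
    have e : Tl - a * (2 * s - p) = ((Tl - Fl * s) - -a * (T0 - F0 * s)) + -(a * (T0 - p)) + (Fl - a) * s + a * (F0 - 1) * s := by ring
    rw [e]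
    have i1 := abs_add_le (((Tl - Fl * s) - -a * (T0 - F0 * s)) + -(a * (T0 - p)) + (Fl - a) * s) (a * (F0 - 1) * s)
    have i2 := abs_add_le (((Tl - Fl * s) - -a * (T0 - F0 * s)) + -(a * (T0 - p))) ((Fl - a) * s)
    have i3 := abs_add_le ((Tl - Fl * s) - -a * (T0 - F0 * s)) (-(a * (T0 - p)))
    rw [abs_mul (a * (F0 - 1)) s, abs_mul a (F0 - 1), abs_of_nonneg ha0, abs_of_nonneg hs] at i1
    rw [abs_mul (Fl - a) s, abs_of_nonneg hs] at i2
    rw [abs_neg, abs_mul a (T0 - p), abs_of_nonneg ha0] at i3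
    linarith

lemma uni_A (𝓛 : Finset (ℕ × List ℕ)) : ∃ A : ℝ, 1 ≤ A ∧ ∀ q ∈ 𝓛, ac q.1 q.2 ≤ A := by
  classical
  induction 𝓛 using Finset.induction_on with
  | empty => exact ⟨1, le_rfl, fun q hq => absurd hq (notMem_empty q)⟩
  | insert q s _ ih =>
    obtain ⟨A, hA, h⟩ := ih
    have h0 := ac_nonneg q.1 q.2
    refine ⟨A + ac q.1 q.2, by linarith, fun q' hq' => ?_⟩
    rcases mem_insert.1 hq' with rfl | h1
    · linarith
    · exact (h q' h1).trans (by linarith)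

/-- the means at `N`, uniformly -/
lemma uni_FF (𝓛 : Finset (ℕ × List ℕ)) : ∃ C : ℝ, 1 ≤ C ∧ ∀ ξ : ℝ, 0 < ξ → ξ ≤ 1 / 8 → ∀ᶠ N : ℕ in atTop, ∀ q ∈ 𝓛,
    |FF N (zN ξ N) (q.1 :: q.2) N * (Real.log N / N) - ac q.1 q.2| ≤ C * ξ := by
  classical
  induction 𝓛 using Finset.induction_on with
  | empty => exact ⟨1, le_rfl, fun _ _ _ => Eventually.of_forall fun N q hq => absurd hq (notMem_empty q)⟩
  | insert q s _ ih =>
    obtain ⟨C, hC, h⟩ := ih
    obtain ⟨C', hC', h'⟩ := FF_asy q.2 q.1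
    refine ⟨C + C', by linarith, fun ξ hξ hξ8 => ?_⟩
    filter_upwards [h ξ hξ hξ8, h' ξ hξ hξ8, eventually_ge_atTop 3] with N g1 g2 hN q' hq'
    have hN1 : (1 : ℝ) < N := by exact_mod_cast (by omega : 1 < N)
    have hN0 : (0 : ℝ) < N := by linarith
    have hL : 0 < Real.log N := Real.log_pos hN1
    rcases mem_insert.1 hq' with rfl | h1
    · have g3 := g2 N (by omega) le_rfl
      rw [if_neg, add_zero, div_self hL.ne', one_pow, mul_one] at g3
      · have e : FF N (zN ξ N) (q'.1 :: q'.2) N * (Real.log N / N) - ac q'.1 q'.2 =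
            (FF N (zN ξ N) (q'.1 :: q'.2) N - N / Real.log N * ac q'.1 q'.2) * (Real.log N / N) := by
          field_simp
        rw [e, abs_mul, abs_of_pos (show 0 < Real.log N / N by positivity)]
        calc |FF N (zN ξ N) (q'.1 :: q'.2) N - N / Real.log N * ac q'.1 q'.2| * (Real.log N / N) ≤
              C' * (N / Real.log N) * ξ * (Real.log N / N) := mul_le_mul_of_nonneg_right g3 (by positivity)
          _ = C' * ξ := by field_simp
          _ ≤ (C + C') * ξ := mul_le_mul_of_nonneg_right (by linarith) hξ.le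
      · push Not
        calc (N : ℝ) ^ (2 * ξ) < (N : ℝ) ^ (1 : ℝ) := Real.rpow_lt_rpow_of_exponent_lt hN1 (by linarith)
          _ = N := Real.rpow_one _
    · exact (g1 q' h1).trans (mul_le_mul_of_nonneg_right (by linarith) hξ.le)

/-- **the parity law, explicitly** -/
theorem law2 (𝓛 : Finset (ℕ × List ℕ)) (ε : ℝ) (hε : 0 < ε) (U : ℕ) : ∃ δ : ℝ, 1 / 2 ≤ δ ∧ δ < 1 ∧
    ∃ ε₁ : ℝ, 0 < ε₁ ∧ ε₁ ≤ 1 / 8 ∧ ε₁ ≤ ε ∧ ∃ κ : ℝ, 0 < κ ∧ κ ≤ 1 ∧ ∃ C : ℕ, ∀ᶠ N : ℕ in atTop,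
    ∀ f : ℕ → ℝ, (∀ n, 0 ≤ f n ∧ f n ≤ 1) → ∀ S : Finset ℕ, (∀ a ∈ S, a ≤ N ∧
      ¬ ∀ q ∈ 𝓛, |∑ n ∈ Icc 1 N, f n * wM N (zN ε₁ N) (q.1 :: q.2) (n + a) -
          ac q.1 q.2 * (if Even q.2.length then pif N f a else
            2 * ((∑ n ∈ Icc 1 N, f n * ro (yN κ N) (n + a)) / (Real.log N * Vz (yN κ N))) - pif N f a)| ≤
        ε * ((∑ n ∈ Icc 1 N, f n * ro (yN κ N) (n + a)) / (Real.log N * Vz (yN κ N))) + N / Real.log N ^ U) →
      (S.card : ℝ) ≤ (N : ℝ) ^ δ * Real.log N ^ C := by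
  classical
  obtain ⟨A, hA1, hA⟩ := uni_A 𝓛
  obtain ⟨C1, hC1, hFF⟩ := uni_FF (insert (0, []) 𝓛)
  obtain ⟨ε', hε'⟩ : ∃ ε' : ℝ, ε' = min ε (ε / (4 * C1 * (1 + A))) := ⟨_, rfl⟩
  have hA0 : 0 < A := by linarith
  have hε'0 : 0 < ε' := by rw [hε']; positivity
  have hε'ε : ε' ≤ ε := by rw [hε']; exact min_le_left _ _
  have hε'2 : C1 * (1 + A) * ε' ≤ ε / 4 := by
    have h1 : ε' ≤ ε / (4 * C1 * (1 + A)) := by rw [hε']; exact min_le_right _ _
    calc C1 * (1 + A) * ε' ≤ C1 * (1 + A) * (ε / (4 * C1 * (1 + A))) := mul_le_mul_of_nonneg_left h1 (by positivity)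
      _ = ε / 4 := by field_simp
  have hε'3 : ε' ≤ ε / 4 := by
    have h1 : 1 ≤ C1 * (1 + A) := one_le_mul_of_one_le_of_one_le hC1 (by linarith)
    have h2 : 1 * ε' ≤ C1 * (1 + A) * ε' := mul_le_mul_of_nonneg_right h1 hε'0.le
    linarith
  obtain ⟨δ, hδ1, hδ2, ε₁, hε₁0, hε₁8, hε₁ε, κ, hκ, hκ1, C, LAW⟩ := law 𝓛 ε' hε'0 (U + 1)
  obtain ⟨θ, hθ⟩ : ∃ θ : ℝ, θ = min (1 / 2) (ε * ε₁ / (12 * A)) := ⟨_, rfl⟩
  have hθ0 : 0 < θ := by rw [hθ]; positivity
  have hθ2 : θ ≤ 1 / 2 := by rw [hθ]; exact min_le_left _ _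
  have hθε : A * (θ * (3 / ε₁)) ≤ ε / 4 := by
    have h1 : θ ≤ ε * ε₁ / (12 * A) := by rw [hθ]; exact min_le_right _ _
    calc A * (θ * (3 / ε₁)) ≤ A * (ε * ε₁ / (12 * A) * (3 / ε₁)) := by gcongr
      _ = ε / 4 := by field_simp; norm_num
  refine ⟨δ, hδ1, hδ2, ε₁, hε₁0, hε₁8, hε₁ε.trans hε'ε, κ, hκ, hκ1, C, ?_⟩
  have e1 := ev_logN (eventually_ge_atTop (max (max (Real.log 2 / θ) (2 * (1 + A))) 1))
  have e3 := ev_logN (ev_pow_exp U θ (2 * A) hθ0)
  filter_upwards [LAW, hFF ε₁ hε₁0 hε₁8, e1, e3, eventually_ge_atTop 3] with N LAW hFF f1 f3 hN3 f hf S hS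
  apply LAW f hf S
  intro t htS
  obtain ⟨ht, hbad⟩ := hS t htS
  refine ⟨ht, fun hgood => hbad fun q hq => ?_⟩
  obtain ⟨hR, hdv⟩ := hgood
  have hdv := hdv q hq
  have hF := hFF q (mem_insert_of_mem hq)
  have hF0 := hFF (0, []) (mem_insert_self _ _)
  rw [ac_nil] at hF0
  obtain ⟨L, hL⟩ : ∃ L : ℝ, L = Real.log N := ⟨_, rfl⟩
  obtain ⟨y, hy⟩ : ∃ y : ℕ, y = yN κ N := ⟨_, rfl⟩
  obtain ⟨z, hz⟩ : ∃ z : ℕ, z = zN ε₁ N := ⟨_, rfl⟩
  rw [← hy, ← hz] at hR hdv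
  rw [← hz] at hF hF0
  rw [← hy, ← hz]
  rw [← hL] at hR hdv hF hF0 f1 f3 ⊢
  have hN0 : (0 : ℝ) < N := by positivity
  have hL1 : 1 ≤ L := (le_max_right _ _).trans f1
  have hL0 : 0 < L := by linarith
  have hLθ : Real.log 2 / θ ≤ L := (le_max_left _ _).trans ((le_max_left _ _).trans f1)
  have hLA : 2 * (1 + A) ≤ L := (le_max_right _ _).trans ((le_max_left _ _).trans f1)
  have hNpow : ∀ s : ℝ, (N : ℝ) ^ s = Real.exp (s * L) := by
    intro s
    rw [Real.rpow_def_of_pos hN0, ← hL, mul_comm]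
  have h2N : 2 ≤ (N : ℝ) ^ θ := by
    rw [hNpow, ← Real.log_le_iff_le_exp (by norm_num)]
    rw [div_le_iff₀ hθ0] at hLθ
    linarith
  have hVy : 0 < Vz y := Vz_pos y
  have hzN : (z : ℝ) ≤ (N : ℝ) ^ (1 - θ) := by
    rw [hz]
    refine (zN_lt (by omega)).le.trans ?_
    apply Real.rpow_le_rpow_of_exponent_le (by exact_mod_cast (by omega : 1 ≤ N))
    linarith
  have g0 := w0_sum (z := z) (by omega : 2 ≤ N) hθ0.le h2N hzN f hf t ht
  obtain ⟨Y, hY⟩ : ∃ Y : ℝ, Y = ∑ n ∈ Icc 1 N, f n * ro y (n + t) := ⟨_, rfl⟩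
  have hY0 : 0 ≤ Y := by rw [hY]; exact sum_nonneg fun n _ => mul_nonneg (hf n).1 (ro_nonneg _ _)
  unfold dv at hdv
  simp only [← hY] at hdv hR ⊢
  have hs0 : 0 ≤ Y / (L * Vz y) := by positivity
  have e7 : ∀ B : ℝ, B / (N * Vz y) * Y = (B * (L / N)) * (Y / (L * Vz y)) := fun B => by field_simp
  have e8 : ∀ B : ℝ, B / (L * Vz y) * Y = B * (Y / (L * Vz y)) := fun B => by ring
  rw [e7, e7, e8] at hdv
  rw [e8] at hR
  have eF : ∀ l : List ℕ, ∑ m ∈ Icc 1 N, wM N z l m = FF N z l N := fun l => rfl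
  rw [eF, eF] at hdv
  have hη : ∀ x : ℝ, |x| ≤ C1 * ε₁ → |x| ≤ C1 * ε' := fun x hx => hx.trans (mul_le_mul_of_nonneg_left hε₁ε (by linarith))
  have hg0 : |∑ n ∈ Icc 1 N, f n * wM N z [0] (n + t) - pif N f t| ≤
      θ * (3 / ε₁) * (Y / (L * Vz y)) + (θ * (N / L ^ (U + 1)) + (N : ℝ) ^ (1 - θ)) := by
    refine g0.trans ?_
    have := mul_le_mul_of_nonneg_left hR hθ0.le
    have e9 : θ * (3 / ε₁ * (Y / (L * Vz y)) + N / L ^ (U + 1)) = θ * (3 / ε₁) * (Y / (L * Vz y)) + θ * (N / L ^ (U + 1)) := by ring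
    rw [e9] at this
    linarith
  have hcalc := calcE (A := A) (W := N / L ^ U) (ε := ε) hdv (hη _ hF) (hη _ hF0) hg0 hs0 (ac_nonneg q.1 q.2) (hA q hq) hA0.le (by
      have : (1 + A) * (C1 * ε') = C1 * (1 + A) * ε' := by ring
      rw [this]
      linarith) (by
      have e9 : (N : ℝ) / L ^ (U + 1) = N / L ^ U / L := by rw [pow_succ]; field_simp
      obtain ⟨W, hW⟩ : ∃ W : ℝ, W = (N : ℝ) / L ^ U := ⟨_, rfl⟩
      have hW0 : 0 ≤ W := by rw [hW]; positivity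
      rw [e9, ← hW]
      have i1 : A * (N : ℝ) ^ (1 - θ) ≤ W / 2 := by
        rw [hW, div_div, le_div_iff₀ (by positivity)]
        have h5 : (N : ℝ) ^ (1 - θ) * Real.exp (θ * L) = N := by
          rw [← hNpow, ← Real.rpow_add hN0]
          simp
        calc A * (N : ℝ) ^ (1 - θ) * (L ^ U * 2) = (N : ℝ) ^ (1 - θ) * (2 * A * L ^ U) := by ring
          _ ≤ (N : ℝ) ^ (1 - θ) * Real.exp (θ * L) := mul_le_mul_of_nonneg_left f3 (by positivity)
          _ = N := h5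
      have i2 : W / L + A * (θ * (W / L)) ≤ W / 2 := by
        have i3 : W / L + A * (θ * (W / L)) = (1 + A * θ) / L * W := by ring
        rw [i3]
        have i4 : (1 + A * θ) / L ≤ 1 / 2 := by
          rw [div_le_iff₀ hL0]
          have : A * θ ≤ A * 1 := mul_le_mul_of_nonneg_left (by linarith) hA0.le
          linarith
        calc (1 + A * θ) / L * W ≤ 1 / 2 * W := mul_le_mul_of_nonneg_right i4 hW0
          _ = W / 2 := by ring
      have i5 : A * (θ * (W / L) + (N : ℝ) ^ (1 - θ)) = A * (θ * (W / L)) + A * (N : ℝ) ^ (1 - θ) := by ring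
      rw [i5]
      linarith) ((abs_nonneg _).trans hg0)
  have hcl : cl q.1 q.2 = (-1) ^ q.2.length * ac q.1 q.2 := by
    unfold cl ac nn
    rw [mul_div_assoc]
  split_ifs with hev
  · exact hcalc.1 (by rw [hcl, hev.neg_one_pow, one_mul])
  · exact hcalc.2 (by
      rw [Nat.not_even_iff_odd] at hev
      rw [hcl, hev.neg_one_pow, neg_one_mul])

end Pool.Agent.H528.UG
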