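import Mathlib
import Pool.Agent.H528.ApC
import Pool.Agent.H528.UGE
import Pool.Agent.H528.Mass

/-! The parity law for prime pairs in arithmetic progressions. -/

set_option autoImplicit false

namespace Pool.Agent.H528.Ap

open Finset Filter
open Pool.Agent.Y822
open Pool.Agent.Y822.Q (Vz_pos)
open Pool.Agent.Y822.Par3
open Pool.Agent.H373R2.T7 (pz Vz mem_pz)
open Pool.Agent.H387R2.Uni (nuT Adm locT CT)
open Pool.Agent.H528.Avg (ro_of)
open Pool.Agent.H528.UG (wM lg pif law2 uni_A)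
open Pool.Agent.H528.Mn (ac nn ac_nonneg)

/-- the number of the classes `α mod q` such that `α` and `α + t` are prime to `q` -/
noncomputable def phiT (t q : ℕ) : ℝ := q * ∏ p ∈ q.primeFactors, (1 - (if p ∣ t then 1 else 2) / (p : ℝ))

lemma nuT_pair {t p : ℕ} (_hp : p.Prime) : (nuT {0, t} p : ℝ) = if p ∣ t then 1 else 2 := by
  unfold nuT
  have h1 : ({0, t} : Finset ℕ).image (· % p) = {0, t % p} := by
    rw [image_insert, image_singleton, Nat.zero_mod]
  rw [h1]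
  split_ifs with h
  · rw [Nat.mod_eq_zero_of_dvd h]
    simp
  · rw [card_pair]
    · norm_num
    · intro h2
      exact h (Nat.dvd_of_mod_eq_zero h2.symm)

lemma loc_id {t p : ℕ} (ht : 1 ≤ t) (hp : p.Prime) : 1 - gp t p = locT {0, t} p * (1 - 1 / (p : ℝ)) := by
  unfold locT
  rw [nuT_pair hp, card_pair (by omega : 0 ≠ t)]
  have hp2 : (2 : ℝ) ≤ p := by exact_mod_cast hp.two_le
  have h1 : (p : ℝ) - 1 ≠ 0 := by linarith
  have h2 : (p : ℝ) ≠ 0 := by linarith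
  have h3 : 1 - 1 / (p : ℝ) = (p - 1) / p := by field_simp
  unfold gp
  rw [h3]
  split_ifs with h
  · field_simp
    ring
  · field_simp
    ring

lemma pz_split {q y : ℕ} (hq : 1 ≤ q) (hqy : q ≤ y) : pz y = pq q y ∪ q.primeFactors ∧ Disjoint (pq q y) q.primeFactors := by
  constructor
  · ext p
    rw [mem_union, mem_pq, mem_pz, Nat.mem_primeFactors]
    constructor
    · rintro ⟨h1, h2⟩
      by_cases h : p ∣ q
      · exact Or.inr ⟨h2, h, by omega⟩
      · exact Or.inl ⟨⟨h1, h2⟩, h⟩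
    · rintro (⟨h1, _⟩ | ⟨h1, h2, _⟩)
      · exact h1
      · exact ⟨(Nat.le_of_dvd hq h2).trans hqy, h1⟩
  · rw [disjoint_left]
    intro p hp hp'
    rw [mem_pq] at hp
    exact hp.2 (Nat.dvd_of_mem_primeFactors hp')

lemma fac_pos {t q a p : ℕ} (hp : p ∈ q.primeFactors) (ha : Nat.Coprime a q) (hat : Nat.Coprime (a + t) q) :
    0 < 1 - (if p ∣ t then 1 else 2) / (p : ℝ) := by
  have hpp := Nat.prime_of_mem_primeFactors hp
  have hpq := Nat.dvd_of_mem_primeFactors hp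
  have hp2 : (2 : ℝ) ≤ p := by exact_mod_cast hpp.two_le
  have hp0 : (0 : ℝ) < p := by linarith
  rw [sub_pos, div_lt_one hp0]
  split_ifs with h
  · linarith
  · rcases lt_or_eq_of_le hpp.two_le with h2 | h2
    · exact_mod_cast h2
    · exfalso
      subst h2
      have h3 : ¬ 2 ∣ a := fun h3 => by
        have := Nat.dvd_gcd h3 hpq
        rw [ha] at this
        omega
      have h4 : ¬ 2 ∣ a + t := fun h3 => by
        have := Nat.dvd_gcd h3 hpq
        rw [hat] at this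
        omega
      omega

lemma phiT_bd {t q a : ℕ} (hq : 1 ≤ q) (ha : Nat.Coprime a q) (hat : Nat.Coprime (a + t) q) :
    0 < phiT t q ∧ phiT t q ≤ q := by
  have hq0 : (0 : ℝ) < q := by exact_mod_cast hq
  unfold phiT
  constructor
  · apply mul_pos hq0
    exact prod_pos fun p hp => fac_pos hp ha hat
  · calc (q : ℝ) * ∏ p ∈ q.primeFactors, (1 - (if p ∣ t then 1 else 2) / (p : ℝ)) ≤ q * 1 := by
          apply mul_le_mul_of_nonneg_left _ hq0.le
          refine prod_le_one (fun p hp => (fac_pos hp ha hat).le) fun p hp => ?_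
          have : (0 : ℝ) ≤ (if p ∣ t then 1 else 2) / (p : ℝ) := by split_ifs <;> positivity
          linarith
      _ = q := mul_one _

/-- the identity of the constants -/
lemma const_id {t q a y : ℕ} (ht : 1 ≤ t) (hq : 1 ≤ q) (hqy : q ≤ y) (ha : Nat.Coprime a q) (hat : Nat.Coprime (a + t) q) :
    (∏ p ∈ pq q y, (1 - gp t p)) / ((Nat.totient q : ℝ) * Vz y) = PT {0, t} y / phiT t q := by
  obtain ⟨h1, h2⟩ := pz_split hq hqy
  have hq0 : (0 : ℝ) < q := by exact_mod_cast hq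
  have hpr : ∀ p ∈ pq q y, p.Prime := fun p hp => (mem_pq.1 hp).1.2
  have hpf : ∀ p ∈ q.primeFactors, p.Prime := fun p hp => Nat.prime_of_mem_primeFactors hp
  have hV : Vz y = (∏ p ∈ pq q y, (1 - 1 / (p : ℝ))) * ∏ p ∈ q.primeFactors, (1 - 1 / (p : ℝ)) := by
    unfold Vz
    rw [h1, prod_union h2]
  have hP : PT {0, t} y = (∏ p ∈ pq q y, locT {0, t} p) * ∏ p ∈ q.primeFactors, locT {0, t} p := by
    unfold PT
    rw [h1, prod_union h2]
  have hφ : (Nat.totient q : ℝ) = q * ∏ p ∈ q.primeFactors, (1 - 1 / (p : ℝ)) := by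
    have h3 := Nat.totient_eq_mul_prod_factors q
    have h4 : ((Nat.totient q : ℚ) : ℝ) = ((q * ∏ p ∈ q.primeFactors, (1 - (p : ℚ)⁻¹) : ℚ) : ℝ) := by rw [h3]
    push_cast at h4
    rw [h4]
    congr 1
    exact prod_congr rfl fun p _ => by rw [one_div]
  have hnum : ∏ p ∈ pq q y, (1 - gp t p) = (∏ p ∈ pq q y, locT {0, t} p) * ∏ p ∈ pq q y, (1 - 1 / (p : ℝ)) := by
    rw [← prod_mul_distrib]
    exact prod_congr rfl fun p hp => loc_id ht (hpr p hp)
  have hloc : (∏ p ∈ q.primeFactors, locT {0, t} p) * (∏ p ∈ q.primeFactors, (1 - 1 / (p : ℝ))) ^ 2 =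
      ∏ p ∈ q.primeFactors, (1 - (if p ∣ t then 1 else 2) / (p : ℝ)) := by
    rw [← prod_pow, ← prod_mul_distrib]
    refine prod_congr rfl fun p hp => ?_
    unfold locT
    rw [nuT_pair (hpf p hp), card_pair (by omega : 0 ≠ t)]
    have hp2 : (2 : ℝ) ≤ p := by exact_mod_cast (hpf p hp).two_le
    have h5 : 0 < 1 - 1 / (p : ℝ) := by
      rw [sub_pos, div_lt_one (by linarith)]
      linarith
    exact div_mul_cancel₀ _ (pow_ne_zero 2 h5.ne')
  have hpos1 : 0 < ∏ p ∈ pq q y, (1 - 1 / (p : ℝ)) := prod_pos fun p hp => by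
    have hp2 : (2 : ℝ) ≤ p := by exact_mod_cast (hpr p hp).two_le
    rw [sub_pos, div_lt_one (by linarith)]
    linarith
  have hpos2 : 0 < ∏ p ∈ q.primeFactors, (1 - 1 / (p : ℝ)) := prod_pos fun p hp => by
    have hp2 : (2 : ℝ) ≤ p := by exact_mod_cast (hpf p hp).two_le
    rw [sub_pos, div_lt_one (by linarith)]
    linarith
  have hpos3 : 0 < ∏ p ∈ q.primeFactors, (1 - (if p ∣ t then 1 else 2) / (p : ℝ)) := prod_pos fun p hp => fac_pos hp ha hat
  unfold phiT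
  rw [hnum, hφ, hV, hP]
  obtain ⟨u1, hu1⟩ : ∃ u1 : ℝ, u1 = ∏ p ∈ pq q y, (1 - 1 / (p : ℝ)) := ⟨_, rfl⟩
  obtain ⟨u2, hu2⟩ : ∃ u2 : ℝ, u2 = ∏ p ∈ q.primeFactors, (1 - 1 / (p : ℝ)) := ⟨_, rfl⟩
  obtain ⟨u3, hu3⟩ : ∃ u3 : ℝ, u3 = ∏ p ∈ q.primeFactors, (1 - (if p ∣ t then 1 else 2) / (p : ℝ)) := ⟨_, rfl⟩
  obtain ⟨u4, hu4⟩ : ∃ u4 : ℝ, u4 = ∏ p ∈ q.primeFactors, locT {0, t} p := ⟨_, rfl⟩
  obtain ⟨u5, hu5⟩ : ∃ u5 : ℝ, u5 = ∏ p ∈ pq q y, locT {0, t} p := ⟨_, rfl⟩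
  rw [← hu1] at hpos1 ⊢
  rw [← hu2] at hpos2 hloc ⊢
  rw [← hu3] at hpos3 hloc ⊢
  rw [← hu4] at hloc ⊢
  rw [← hu5]
  rw [← hloc, div_eq_div_iff (by positivity) (by rw [hloc]; positivity)]
  ring

open Classical in
/-- the indicator of the primes in the class -/
noncomputable def fA (q a n : ℕ) : ℝ := if n.Prime ∧ n ≡ a [MOD q] then 1 else 0

lemma fA_bd (q a n : ℕ) : 0 ≤ fA q a n ∧ fA q a n ≤ 1 := by
  unfold fA; split_ifs <;> norm_num

lemma fA_mod (q a : ℕ) : fA q (a % q) = fA q a := by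
  funext n
  unfold fA
  have h : n ≡ a % q [MOD q] ↔ n ≡ a [MOD q] :=
    ⟨fun h => h.trans (Nat.mod_modEq a q), fun h => h.trans (Nat.mod_modEq a q).symm⟩
  simp only [h]

open Classical in
lemma Y_eq {N q a t y : ℕ} (hat : Nat.Coprime (a + t) q) :
    ∑ n ∈ Icc 1 N, fA q a n * ro y (n + t) =
      (((Icc 1 N).filter (fun n => n.Prime ∧ (n ≡ a [MOD q] ∧ ∀ p ∈ pq q y, ¬ p ∣ n + t))).card : ℝ) := by
  rw [card_eq_sum_ones, Nat.cast_sum, sum_filter]
  refine sum_congr rfl fun n _ => ?_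
  unfold fA
  by_cases h1 : n.Prime ∧ n ≡ a [MOD q]
  · rw [if_pos h1, one_mul]
    have h2 : Ro y (n + t) ↔ ∀ p ∈ pq q y, ¬ p ∣ n + t := by
      constructor
      · intro h p hp
        rw [mem_pq] at hp
        exact h p hp.1.2 hp.1.1
      · intro h p hp hpy hpd
        by_cases hpq : p ∣ q
        · have h3 : n + t ≡ a + t [MOD p] := (Nat.ModEq.add_right t h1.2).of_dvd hpq
          have h4 : p ∣ a + t := (Nat.modEq_zero_iff_dvd).1 (h3.symm.trans ((Nat.modEq_zero_iff_dvd).2 hpd))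
          have h5 := Nat.dvd_gcd h4 hpq
          rw [hat] at h5
          exact hp.one_lt.ne' (Nat.dvd_one.1 h5)
        · exact h p (mem_pq.2 ⟨⟨hpy, hp⟩, hpq⟩) hpd
    by_cases h3 : Ro y (n + t)
    · rw [ro_of h3, if_pos ⟨h1.1, h1.2, h2.1 h3⟩, Nat.cast_one]
    · have h4 : ro y (n + t) = 0 := by unfold ro; rw [if_neg h3]
      rw [h4, if_neg (fun h => h3 (h2.2 h.2.2))]
  · rw [if_neg h1, zero_mul, if_neg (fun h => h1 ⟨h.1, h.2.1⟩)]

/-- the calculation -/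
lemma calcAp {s E Ey Y K x1 x D cz : ℝ} (_hx1 : 0 < x1) (hx11 : x1 ≤ 1) (hxx : 8 * x1 = x) (hs : s = Y / K)
    (hK : 0 < K) (_hEy0 : 0 ≤ Ey) (hE0 : 0 ≤ E) (hY : |Y - Ey * K| ≤ x1 * (Ey * K) + D) (hKc : cz ≤ K) (hcz : 0 < cz) (hD : 0 ≤ D)
    (h1 : Ey ≤ (1 + x1) * E) (h2 : E ≤ (1 + x1) * Ey) (h3 : D / cz ≤ x / 2 * E) : |s - E| ≤ x * E := by
  have h4 : |s - Ey| ≤ x1 * Ey + D / cz := by
    have e : s - Ey = (Y - Ey * K) / K := by rw [hs]; field_simp
    rw [e, abs_div, abs_of_pos hK, div_le_iff₀ hK]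
    refine hY.trans ?_
    have h5 : D ≤ D / cz * K := by
      rw [div_mul_eq_mul_div, le_div_iff₀ hcz]
      exact mul_le_mul_of_nonneg_left hKc hD
    calc x1 * (Ey * K) + D ≤ x1 * (Ey * K) + D / cz * K := by linarith
      _ = (x1 * Ey + D / cz) * K := by ring
  have h5 : |Ey - E| ≤ 2 * x1 * E := by
    rw [abs_le]
    constructor
    · have : x1 * Ey ≤ x1 * ((1 + x1) * E) := mul_le_mul_of_nonneg_left h1 (by linarith)
      have h7 : x1 * ((1 + x1) * E) ≤ x1 * (2 * E) := by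
        apply mul_le_mul_of_nonneg_left _ (by linarith)
        exact mul_le_mul_of_nonneg_right (by linarith) hE0
      linarith
    · have : 0 ≤ x1 * E := by positivity
      linarith
  have h6 : x1 * Ey ≤ 2 * x1 * E := by
    calc x1 * Ey ≤ x1 * ((1 + x1) * E) := mul_le_mul_of_nonneg_left h1 (by linarith)
      _ ≤ x1 * (2 * E) := by
          apply mul_le_mul_of_nonneg_left _ (by linarith)
          exact mul_le_mul_of_nonneg_right (by linarith) hE0
      _ = _ := by ring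
  have e : s - E = (s - Ey) + (Ey - E) := by ring
  rw [e]
  refine (abs_add_le _ _).trans ?_
  have h7 : x / 2 * E + 4 * x1 * E = x * E := by rw [← hxx]; ring
  linarith

/-- the second calculation -/
lemma calcAp2 {T c p s E e2 W x A ε : ℝ} (hx0 : 0 ≤ x) (hx1 : x ≤ 1) (hs : |s - E| ≤ x * E) (hE0 : 0 ≤ E) (hW : W ≤ x * E)
    (hc0 : 0 ≤ c) (hc : c ≤ A) (he2 : 0 ≤ e2) (hε : 2 * e2 + x * (1 + 2 * A) ≤ ε) :
    (|T - c * p| ≤ e2 * s + W → |T - c * p| ≤ ε * E) ∧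
    (|T - c * (2 * s - p)| ≤ e2 * s + W → |T - c * (2 * E - p)| ≤ ε * E) := by
  obtain ⟨s1, s2⟩ := abs_le.1 hs
  have hA0 : 0 ≤ A := hc0.trans hc
  have h1 : e2 * s ≤ 2 * e2 * E := by
    have h2 : s ≤ 2 * E := by
      have := mul_le_mul_of_nonneg_right hx1 hE0
      linarith
    calc e2 * s ≤ e2 * (2 * E) := mul_le_mul_of_nonneg_left h2 he2
      _ = _ := by ring
  have h3 : (2 * e2 + x * (1 + 2 * A)) * E ≤ ε * E := mul_le_mul_of_nonneg_right hε hE0
  have h4 : (2 * e2 + x * (1 + 2 * A)) * E = 2 * e2 * E + x * E + 2 * A * x * E := by ring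
  have h5 : 0 ≤ 2 * A * x * E := by positivity
  rw [h4] at h3
  refine ⟨fun h => by linarith, fun h => ?_⟩
  have e : T - c * (2 * E - p) = (T - c * (2 * s - p)) + 2 * c * (s - E) := by ring
  rw [e]
  refine (abs_add_le _ _).trans ?_
  have h6 : |2 * c * (s - E)| ≤ 2 * A * x * E := by
    rw [abs_mul, abs_of_nonneg (by positivity : 0 ≤ 2 * c)]
    calc 2 * c * |s - E| ≤ 2 * A * (x * E) := mul_le_mul (by linarith) hs (abs_nonneg _) (by positivity)
      _ = _ := by ring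
  linarith

end Pool.Agent.H528.Ap
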