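import Mathlib
import Pool.Agent.H528.ApD

/-! The parity law for prime pairs in arithmetic progressions: the theorem. -/

set_option autoImplicit false

namespace Pool.Agent.H528.Ap

open Finset Filter
open Pool.Agent.Y822
open Pool.Agent.Y822.Q (Vz_pos)
open Pool.Agent.Y822.Par3
open Pool.Agent.H373R2.T7 (pz Vz mem_pz)
open Pool.Agent.H387R2.Uni (nuT Adm locT CT)
open Pool.Agent.H528.Avg (ro_of)
open Pool.Agent.H528.UG (wM lg pif law2 uni_A)
open Pool.Agent.H528.Mn (ac nn ac_nonneg)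

lemma adm_pair {t : ℕ} (ht : Even t) : Adm {0, t} := by
  intro p hp
  have h1 := nuT_pair (t := t) hp
  by_cases h : p ∣ t
  · rw [if_pos h] at h1
    have h2 : nuT {0, t} p = 1 := by exact_mod_cast h1
    rw [h2]
    exact hp.one_lt
  · rw [if_neg h] at h1
    have h2 : nuT {0, t} p = 2 := by exact_mod_cast h1
    rw [h2]
    rcases lt_or_eq_of_le hp.two_le with h3 | h3
    · exact h3
    · exfalso
      apply h
      rw [← h3]
      exact ht.two_dvd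

/-- the expected number of the prime pairs -/
noncomputable def EA (N t q : ℕ) : ℝ := CT {0, t} / phiT t q * (N / Real.log N ^ 2)

/-- **the expected number** -/
theorem exp_num (κ : ℝ) (hκ : 0 < κ) (hκ1 : κ ≤ 1) (B : ℕ) (x : ℝ) (hx : 0 < x) (hx1 : x ≤ 1) : ∀ᶠ N : ℕ in atTop,
    ∀ q a t : ℕ, 1 ≤ q → (q : ℝ) ≤ Real.log N ^ B → Nat.Coprime a q → Nat.Coprime (a + t) q → 1 ≤ t → t ≤ N → Even t →
      |(∑ n ∈ Icc 1 N, fA q a n * ro (yN κ N) (n + t)) / (Real.log N * Vz (yN κ N)) - EA N t q| ≤ x * EA N t q ∧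
      N / Real.log N ^ (B + 3) ≤ x * EA N t q ∧ 0 ≤ EA N t q := by
  classical
  obtain ⟨_, _, cz, hcz, hcz1, VZ, _⟩ := ComB.comB
  obtain ⟨c0, hc0, LOW⟩ := PT_low 1
  obtain ⟨x1, hx1'⟩ : ∃ x1 : ℝ, x1 = x / 8 := ⟨_, rfl⟩
  have hx10 : 0 < x1 := by rw [hx1']; positivity
  have hx11 : x1 ≤ 1 := by rw [hx1']; linarith
  have e1 := ev_logN (eventually_ge_atTop (max 1 (2 / (cz * x * c0))))
  filter_upwards [ap_cnt κ hκ hκ1 B (B + 3) x1 hx10 hx11, Mass.PT_CT 1 κ hκ hκ1 x1 hx10 hx11, e1, eventually_ge_atTop 3,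
    yN_facts κ hκ hκ1 (max B 3) 1] with N CNT PTCT f1 hN hyf q a t hq hqB ha hat ht1 htN hev
  obtain ⟨y1, y2, y3, y4, y5⟩ := hyf
  rw [pow_one] at y4
  obtain ⟨y, hyd⟩ : ∃ y : ℕ, y = yN κ N := ⟨_, rfl⟩
  rw [← hyd] at y3 y4 y5 CNT PTCT ⊢
  obtain ⟨L, hL⟩ : ∃ L : ℝ, L = Real.log N := ⟨_, rfl⟩
  have CNT := CNT q hq hqB a t ha
  rw [← hL] at f1 y3 hqB CNT ⊢
  have hL1 : 1 ≤ L := (le_max_left _ _).trans f1
  have hL2 : 2 / (cz * x * c0) ≤ L := (le_max_right _ _).trans f1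
  have hL0 : 0 < L := by linarith
  have hN0 : (0 : ℝ) < N := by positivity
  have hy3 : 3 ≤ y := (le_max_right B 3).trans y5
  have hqy : q ≤ y := by
    have h1 : (q : ℝ) ≤ y := hqB.trans ((pow_le_pow_right₀ hL1 (le_max_left B 3)).trans y3)
    exact_mod_cast h1
  have hVy : 0 < Vz y := Vz_pos y
  have hVlow : cz ≤ L * Vz y := by
    have hy0 : (0 : ℝ) < y := by exact_mod_cast (by omega : 0 < y)
    have hyN : Real.log y ≤ L := by
      rw [hL]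
      exact Real.log_le_log hy0 (by exact_mod_cast y4)
    have hly : 0 < Real.log y := Real.log_pos (by exact_mod_cast (by omega : 1 < y))
    have h1 := (div_le_div_of_nonneg_left hcz.le hly hyN).trans (VZ y hy3)
    rw [div_le_iff₀ hL0] at h1
    linarith
  obtain ⟨hφ0, hφq⟩ := phiT_bd (t := t) hq ha hat
  have hcard : ({0, t} : Finset ℕ).card = 1 + 1 := by rw [card_pair (by omega : 0 ≠ t)]
  obtain ⟨p1, p2⟩ := PTCT {0, t} hcard (by
    intro h hh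
    rw [mem_insert, mem_singleton] at hh
    rcases hh with rfl | rfl
    · exact Nat.zero_le N
    · exact htN)
  have hCT := (LOW {0, t} hcard (adm_pair hev)).2
  have hCT0 : 0 < CT {0, t} := lt_of_lt_of_le hc0 hCT
  have hE0 : 0 ≤ EA N t q := by unfold EA; positivity
  have hElow : c0 * (N / L ^ (B + 2)) ≤ EA N t q := by
    unfold EA
    rw [← hL]
    have h1 : phiT t q ≤ L ^ B := hφq.trans hqB
    calc c0 * (N / L ^ (B + 2)) = c0 / L ^ B * (N / L ^ 2) := by rw [pow_add]; field_simp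
      _ ≤ CT {0, t} / phiT t q * (N / L ^ 2) := by
          apply mul_le_mul_of_nonneg_right _ (by positivity)
          exact div_le_div₀ hCT0.le hCT hφ0 h1
  have e9 : (N : ℝ) / L ^ (B + 3) = N / L ^ (B + 2) / L := by rw [pow_succ L (B + 2)]; field_simp
  have hsm : (N : ℝ) / L ^ (B + 3) / cz ≤ x / 2 * EA N t q := by
    have h1 : x / 2 * (c0 * (N / L ^ (B + 2))) ≤ x / 2 * EA N t q := mul_le_mul_of_nonneg_left hElow (by positivity)
    refine le_trans ?_ h1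
    rw [e9]
    have h2 : 1 / (L * cz) ≤ x / 2 * c0 := by
      rw [div_le_iff₀ (by positivity)] at hL2 ⊢
      linarith
    calc (N : ℝ) / L ^ (B + 2) / L / cz = 1 / (L * cz) * (N / L ^ (B + 2)) := by field_simp
      _ ≤ x / 2 * c0 * (N / L ^ (B + 2)) := mul_le_mul_of_nonneg_right h2 (by positivity)
      _ = _ := by ring
  refine ⟨?_, ?_, hE0⟩
  · have hid := const_id ht1 hq hqy ha hat
    have hφq0 : (0 : ℝ) < (Nat.totient q : ℝ) := by exact_mod_cast Nat.totient_pos.2 hq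
    obtain ⟨Ey, hEy⟩ : ∃ Ey : ℝ, Ey = PT {0, t} y / phiT t q * (N / L ^ 2) := ⟨_, rfl⟩
    have hEyK : Ey * (L * Vz y) = N / (Nat.totient q : ℝ) * (∏ p ∈ pq q y, (1 - gp t p)) / L := by
      rw [hEy, ← hid]
      field_simp
    rw [Y_eq hat]
    rw [← hEyK] at CNT
    have hEy0 : 0 ≤ Ey := by
      rw [hEy]
      have := PT_nonneg {0, t} y
      positivity
    refine calcAp (s := _) (x1 := x1) (Ey := Ey) (D := N / L ^ (B + 3)) (cz := cz) hx10 hx11 (by rw [hx1']; ring) rfl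
      (by positivity) hEy0 hE0 CNT hVlow hcz (by positivity) ?_ ?_ hsm
    · rw [hEy]
      unfold EA
      rw [← hL]
      calc PT {0, t} y / phiT t q * (N / L ^ 2) ≤ ((1 + x1) * CT {0, t}) / phiT t q * (N / L ^ 2) := by
            apply mul_le_mul_of_nonneg_right _ (by positivity)
            exact div_le_div_of_nonneg_right p1 hφ0.le
        _ = _ := by ring
    · rw [hEy]
      unfold EA
      rw [← hL]
      calc CT {0, t} / phiT t q * (N / L ^ 2) ≤ ((1 + x1) * PT {0, t} y) / phiT t q * (N / L ^ 2) := by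
            apply mul_le_mul_of_nonneg_right _ (by positivity)
            exact div_le_div_of_nonneg_right p2 hφ0.le
        _ = _ := by ring
  · have h1 : (N : ℝ) / L ^ (B + 3) ≤ N / L ^ (B + 3) / cz := by
      rw [le_div_iff₀ hcz]
      exact mul_le_of_le_one_right (by positivity) hcz1
    have h2 : x / 2 * EA N t q ≤ x * EA N t q := mul_le_mul_of_nonneg_right (by linarith) hE0
    linarith

/-- the mass -/
noncomputable def TA (N z q a t : ℕ) (l : List ℕ) : ℝ := ∑ n ∈ Icc 1 N, fA q a n * wM N z l (n + t)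

/-- **the parity law in progressions** -/
theorem ap_law (𝓛 : Finset (ℕ × List ℕ)) (ε : ℝ) (hε : 0 < ε) (B : ℕ) : ∃ δ : ℝ, 1 / 2 ≤ δ ∧ δ < 1 ∧
    ∃ ε₁ : ℝ, 0 < ε₁ ∧ ε₁ ≤ 1 / 8 ∧ ε₁ ≤ ε ∧ ∃ C : ℕ, ∀ᶠ N : ℕ in atTop,
    ∀ S : Finset ℕ, (∀ t ∈ S, (1 ≤ t ∧ t ≤ N ∧ Even t) ∧ ∃ q a : ℕ, 1 ≤ q ∧ (q : ℝ) ≤ Real.log N ^ B ∧
      Nat.Coprime a q ∧ Nat.Coprime (a + t) q ∧
      ¬ ∀ l ∈ 𝓛, |TA N (zN ε₁ N) q a t (l.1 :: l.2) -
          ac l.1 l.2 * (if Even l.2.length then pif N (fA q a) t else 2 * EA N t q - pif N (fA q a) t)| ≤ ε * EA N t q) →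
      (S.card : ℝ) ≤ (N : ℝ) ^ δ * Real.log N ^ C := by
  classical
  obtain ⟨A, hA1, hA⟩ := uni_A 𝓛
  have hA0 : 0 < A := by linarith
  obtain ⟨δ, hδ1, hδ2, ε₁, hε₁0, hε₁8, hε₁ε, κ, hκ, hκ1, C, LAW⟩ := law2 𝓛 (ε / 4) (by positivity) (B + 3)
  obtain ⟨x, hx⟩ : ∃ x : ℝ, x = min 1 (ε / (2 * (1 + 2 * A))) := ⟨_, rfl⟩
  have hx0 : 0 < x := by rw [hx]; positivity
  have hx1 : x ≤ 1 := by rw [hx]; exact min_le_left _ _
  have hxε : x * (1 + 2 * A) ≤ ε / 2 := by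
    have h1 : x ≤ ε / (2 * (1 + 2 * A)) := by rw [hx]; exact min_le_right _ _
    calc x * (1 + 2 * A) ≤ ε / (2 * (1 + 2 * A)) * (1 + 2 * A) := mul_le_mul_of_nonneg_right h1 (by positivity)
      _ = ε / 2 := by field_simp
  refine ⟨δ, hδ1, hδ2, ε₁, hε₁0, hε₁8, by linarith, C + 2 * B, ?_⟩
  filter_upwards [LAW, exp_num κ hκ hκ1 B x hx0 hx1, ev_logN (eventually_ge_atTop (1 : ℝ)), eventually_ge_atTop 3]
    with N LAW EXP hL1 hN S hS
  have hN0 : (0 : ℝ) < N := by positivity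
  have hLB0 : 0 ≤ Real.log N ^ B := by positivity
  obtain ⟨Q, hQ⟩ : ∃ Q : ℕ, Q = ⌊Real.log N ^ B⌋₊ := ⟨_, rfl⟩
  have hQL : (Q : ℝ) ≤ Real.log N ^ B := by rw [hQ]; exact Nat.floor_le hLB0
  obtain ⟨bad, hbad⟩ : ∃ bad : ℕ × ℕ → ℕ → Prop, bad = fun i t => t ≤ N ∧ ¬ ∀ l ∈ 𝓛,
      |∑ n ∈ Icc 1 N, fA i.1 i.2 n * wM N (zN ε₁ N) (l.1 :: l.2) (n + t) -
          ac l.1 l.2 * (if Even l.2.length then pif N (fA i.1 i.2) t else
            2 * ((∑ n ∈ Icc 1 N, fA i.1 i.2 n * ro (yN κ N) (n + t)) / (Real.log N * Vz (yN κ N))) - pif N (fA i.1 i.2) t)| ≤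
        ε / 4 * ((∑ n ∈ Icc 1 N, fA i.1 i.2 n * ro (yN κ N) (n + t)) / (Real.log N * Vz (yN κ N))) +
          N / Real.log N ^ (B + 3) := ⟨_, rfl⟩
  have hsub : S ⊆ ((Icc 1 Q) ×ˢ (range Q)).biUnion (fun i => S.filter (bad i)) := by
    intro t htS
    obtain ⟨⟨ht1, htN, hev⟩, q, a, hq, hqB, ha, hat, hnot⟩ := hS t htS
    rw [mem_biUnion]
    have hqQ : q ≤ Q := by rw [hQ]; exact Nat.le_floor hqB
    refine ⟨(q, a % q), ?_, ?_⟩
    · rw [mem_product, mem_Icc, mem_range]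
      exact ⟨⟨hq, hqQ⟩, (Nat.mod_lt a hq).trans_le hqQ⟩
    · rw [mem_filter]
      refine ⟨htS, ?_⟩
      rw [hbad]
      refine ⟨htN, fun hgood => hnot fun l hl => ?_⟩
      have g1 := hgood l hl
      simp only [fA_mod] at g1
      obtain ⟨g2, g3, g4⟩ := EXP q a t hq hqB ha hat ht1 htN hev
      obtain ⟨c1, c2⟩ := calcAp2 (T := TA N (zN ε₁ N) q a t (l.1 :: l.2)) (c := ac l.1 l.2) (p := pif N (fA q a) t)
        (e2 := ε / 4) (ε := ε) hx0.le hx1 g2 g4 g3 (ac_nonneg l.1 l.2) (hA l hl) (by positivity) (by linarith)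
      split_ifs at g1 ⊢ with hl2
      · exact c1 g1
      · exact c2 g1
  have h1 : (S.card : ℝ) ≤ ∑ i ∈ (Icc 1 Q) ×ˢ (range Q), ((S.filter (bad i)).card : ℝ) := by
    have h2 := (card_le_card hsub).trans card_biUnion_le
    exact_mod_cast h2
  refine h1.trans ?_
  have h3 : ∀ i ∈ (Icc 1 Q) ×ˢ (range Q), ((S.filter (bad i)).card : ℝ) ≤ (N : ℝ) ^ δ * Real.log N ^ C := by
    intro i _
    apply LAW (fA i.1 i.2) (fA_bd i.1 i.2)
    intro t ht
    rw [mem_filter, hbad] at ht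
    exact ht.2
  refine (sum_le_sum h3).trans ?_
  rw [sum_const, card_product, Nat.card_Icc, card_range, Nat.add_sub_cancel, nsmul_eq_mul]
  push_cast
  have h4 : (Q : ℝ) * Q ≤ Real.log N ^ B * Real.log N ^ B := mul_le_mul hQL hQL (Nat.cast_nonneg _) hLB0
  calc (Q : ℝ) * Q * ((N : ℝ) ^ δ * Real.log N ^ C) ≤ Real.log N ^ B * Real.log N ^ B * ((N : ℝ) ^ δ * Real.log N ^ C) :=
        mul_le_mul_of_nonneg_right h4 (by positivity)
    _ = (N : ℝ) ^ δ * Real.log N ^ (C + 2 * B) := by rw [pow_add, two_mul, pow_add]; ring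

end Pool.Agent.H528.Ap
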