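import Mathlib
import Pool.Agent.H528.ApE

/-! Primes `p` in an arithmetic progression with `c p + h` rough. -/

set_option autoImplicit false

namespace Pool.Agent.H528.Ap

open Finset Filter
open H343E (Fam psiAP psi1)
open Pool.Agent.Y822
open Pool.Agent.H373R2.T7 (pz Vz mem_pz JJ JJ_lt JJ_le natlog_le pnt_lam lam1)

open Classical in
/-- **primes `p ≡ a mod q` with `p + t` rough**, any sifting level -/
theorem ap_cnt_y (B U : ℕ) (ε : ℝ) (hε : 0 < ε) (hε1 : ε ≤ 1) : ∃ M K : ℕ, 1 ≤ K ∧ ∀ᶠ N : ℕ in atTop,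
    ∀ y : ℕ, Real.log N ^ M ≤ y → y ^ K ≤ N → M ≤ y →
    ∀ q : ℕ, 1 ≤ q → (q : ℝ) ≤ Real.log N ^ B → ∀ a t : ℕ, Nat.Coprime a q →
      |(((Icc 1 N).filter (fun n => n.Prime ∧ (n ≡ a [MOD q] ∧ ∀ p ∈ pq q y, ¬ p ∣ n + t))).card : ℝ) -
        N / (Nat.totient q : ℝ) * (∏ p ∈ pq q y, (1 - gp t p)) / Real.log N| ≤
      ε * (N / (Nat.totient q : ℝ) * (∏ p ∈ pq q y, (1 - gp t p)) / Real.log N) + N / Real.log N ^ U := by
  obtain ⟨C0, hC0, CORE⟩ := wa_core
  obtain ⟨b1, hb1⟩ := exists_pow_lt_of_lt_one (show 0 < ε / 8 by positivity) (show (1 / 2 : ℝ) < 1 by norm_num)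
  obtain ⟨b, hbC, hbε⟩ : ∃ b, C0 ≤ b ∧ (1 / 2 : ℝ) ^ b ≤ ε / 8 := ⟨max C0 b1, le_max_left _ _,
    (pow_le_pow_of_le_one (by norm_num) (by norm_num) (le_max_right _ _)).trans hb1.le⟩
  obtain ⟨K0, hK0⟩ : ∃ K0, K0 = ∏ p ∈ pz C0, p := ⟨_, rfl⟩
  obtain ⟨BB, X0, hBV⟩ := H343E.unsmoothed (U + 4)
  obtain ⟨C, N1, hC, hpnt⟩ := pnt_lam (U + 2)
  have e1 := ev_logN (eventually_ge_atTop (max (max 1 (8 * C)) (max (40 * 2 ^ C0) 16)))
  have e2 := ev_logN (ev_pow_exp (BB + U + 8) (1 / 4) 16 (by norm_num))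
  refine ⟨max B (C0 + K0 + 3), 4 * (2 * (C0 * b) + 2), by omega, ?_⟩
  filter_upwards [cnt_of_lam U ε hε hε1, e1, e2, eventually_ge_atTop (max (max ⌈X0⌉₊ N1) 3)]
    with N hcnt f1 f2 hN y y3 y4 y5 q hq hqB a t haq
  obtain ⟨L, hL⟩ : ∃ L : ℝ, L = Real.log N := ⟨_, rfl⟩
  rw [← hL] at f1 f2 y3 hqB
  have hL1 : 1 ≤ L := (le_max_left _ _).trans ((le_max_left _ _).trans f1)
  have hLC : 8 * C ≤ L := (le_max_right _ _).trans ((le_max_left _ _).trans f1)
  have hLC0 : 40 * 2 ^ C0 ≤ L := (le_max_left _ _).trans ((le_max_right _ _).trans f1)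
  have hL16 : 16 ≤ L := (le_max_right _ _).trans ((le_max_right _ _).trans f1)
  have hL0 : 0 < L := by linarith
  have hN3 : 3 ≤ N := (le_max_right _ _).trans hN
  have hNX0 : X0 ≤ (N : ℝ) := (Nat.le_ceil _).trans (by exact_mod_cast (le_max_left _ _).trans ((le_max_left _ _).trans hN))
  have hNN1 : N1 ≤ N := (le_max_right _ _).trans ((le_max_left _ _).trans hN)
  have hN0 : (0 : ℝ) < N := by positivity
  have hNe : (N : ℝ) = Real.exp L := by rw [hL, Real.exp_log hN0]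
  have hyC0 : C0 ≤ y := by have := le_max_right B (C0 + K0 + 3); omega
  have hyK0 : K0 ≤ y := by have := le_max_right B (C0 + K0 + 3); omega
  have hy3 : 3 ≤ y := by have := le_max_right B (C0 + K0 + 3); omega
  have hqy : q ≤ y := by
    have h1 : (q : ℝ) ≤ y := by
      refine hqB.trans ((pow_le_pow_right₀ hL1 (le_max_left B (C0 + K0 + 3))).trans y3)
    exact_mod_cast h1
  have hCb : 1 ≤ C0 * b := Nat.mul_pos hC0 (by omega)
  obtain ⟨DD, hDD⟩ : ∃ DD, DD = K0 * (2 ^ 2 ^ JJ y) ^ (C0 * b) := ⟨_, rfl⟩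
  have hDDy : DD ≤ y ^ (2 * (C0 * b) + 1) := by
    rw [hDD, pow_succ, mul_comm]
    apply Nat.mul_le_mul _ hyK0
    calc (2 ^ 2 ^ JJ y) ^ (C0 * b) ≤ (y ^ 2) ^ (C0 * b) := Nat.pow_le_pow_left (JJ_le y (by omega)) _
      _ = _ := by rw [← pow_mul]
  have hqD4 : (q * DD) ^ 4 ≤ N := by
    calc (q * DD) ^ 4 ≤ (y * y ^ (2 * (C0 * b) + 1)) ^ 4 := Nat.pow_le_pow_left (Nat.mul_le_mul hqy hDDy) 4
      _ = y ^ (4 * (2 * (C0 * b) + 2)) := by rw [← pow_succ', ← pow_mul]; congr 1; ring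
      _ ≤ N := y4
  have hqD4r : ((q * DD : ℕ) : ℝ) ^ 4 ≤ N := by exact_mod_cast hqD4
  -- the fourth root
  obtain ⟨s, hs⟩ : ∃ s : ℝ, s = Real.exp (L / 4) := ⟨_, rfl⟩
  have hs4 : s ^ 4 = N := by
    rw [hs, ← Real.exp_nat_mul, hNe]
    congr 1
    push_cast; ring
  have hs0 : 0 < s := by rw [hs]; exact Real.exp_pos _
  have hqDs : ((q * DD : ℕ) : ℝ) ≤ s := by
    by_contra h
    push Not at h
    have := pow_lt_pow_left₀ h hs0.le (show (4 : ℕ) ≠ 0 by norm_num)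
    rw [hs4] at this
    linarith
  have f2' : 16 * L ^ (BB + U + 8) ≤ s := by
    rw [hs]
    have : (1 : ℝ) / 4 * L = L / 4 := by ring
    rw [← this]; exact f2
  have hspow : ∀ j, j ≤ BB + U + 8 → 16 * L ^ j ≤ s := fun j hj =>
    le_trans (mul_le_mul_of_nonneg_left (pow_le_pow_right₀ hL1 hj) (by norm_num)) f2'
  have hs1 : 1 ≤ s := by have := hspow 0 (by omega); rw [pow_zero] at this; linarith
  have hD1 : ((q * DD : ℕ) : ℝ) ≤ N / L ^ BB := by
    rw [le_div_iff₀ (by positivity)]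
    calc ((q * DD : ℕ) : ℝ) * L ^ BB ≤ s * s := by
          apply mul_le_mul hqDs _ (by positivity) hs0.le
          have := hspow BB (by omega)
          have h5 : 0 ≤ L ^ BB := by positivity
          linarith
      _ = s ^ 2 := by ring
      _ ≤ s ^ 4 := pow_le_pow_right₀ hs1 (by norm_num)
      _ = N := hs4
  have hD2 : ((q * DD : ℕ) : ℝ) ^ 2 ≤ 1 * N / L ^ BB := by
    rw [one_mul, le_div_iff₀ (by positivity)]
    calc ((q * DD : ℕ) : ℝ) ^ 2 * L ^ BB ≤ s ^ 2 * s := by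
          apply mul_le_mul (pow_le_pow_left₀ (by positivity) hqDs 2) _ (by positivity) (by positivity)
          have := hspow BB (by omega)
          have h5 : 0 ≤ L ^ BB := by positivity
          linarith
      _ = s ^ 3 := by ring
      _ ≤ s ^ 4 := pow_le_pow_right₀ hs1 (by norm_num)
      _ = N := hs4
  have hbv := hBV N hNX0 1 le_rfl (q * DD) (by rw [← hL]; exact hD1) (by rw [← hL]; exact hD2) (LL q a t) (LL_fam hq haq)
  rw [one_mul, ← hL] at hbv
  have hsum := sum_eA (X := N) (a := a) (t := t) (D := DD) hq hbv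
  have hnl := natlog_le N (by omega)
  rw [← hL] at hnl hsum
  have hDDs : (DD : ℝ) ≤ s := by
    refine le_trans ?_ hqDs
    exact_mod_cast Nat.le_mul_of_pos_left DD hq
  have hsmall : (DD : ℝ) * ((Nat.log 2 N + 1 : ℝ) * L) ≤ N / L ^ (U + 4) := by
    rw [le_div_iff₀ (by positivity)]
    calc (DD : ℝ) * ((Nat.log 2 N + 1 : ℝ) * L) * L ^ (U + 4) ≤ s * ((2 * L + L) * L) * L ^ (U + 4) := by gcongr
      _ = s * (3 * L ^ (U + 6)) := by ring
      _ ≤ s * s := by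
          apply mul_le_mul_of_nonneg_left _ hs0.le
          have := hspow (U + 6) (by omega)
          have h5 : 0 ≤ L ^ (U + 6) := by positivity
          linarith
      _ = s ^ 2 := by ring
      _ ≤ s ^ 4 := pow_le_pow_right₀ hs1 (by norm_num)
      _ = N := hs4
  have hcore := CORE b hbC N y q a t hq hyC0
  rw [← hK0, ← hDD] at hcore
  have hJ : (JJ y : ℝ) + 2 ≤ 5 * L := by
    have h5 : JJ y ≤ Nat.log 2 N + 1 := by
      unfold JJ
      have := Nat.log_le_self 2 (Nat.log 2 y)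
      have hyN : y ≤ N := by
        calc y = y ^ 1 := (pow_one y).symm
          _ ≤ y ^ (4 * (2 * (C0 * b) + 2)) := Nat.pow_le_pow_right (by omega) (by omega)
          _ ≤ N := y4
      have h6 : Nat.log 2 y ≤ Nat.log 2 N := Nat.log_mono_right hyN
      omega
    have h6 : (JJ y : ℝ) ≤ Nat.log 2 N + 1 := by exact_mod_cast h5
    linarith
  obtain ⟨Pq, hPq⟩ : ∃ Pq : ℝ, Pq = ∏ p ∈ pq q y, (1 - gp t p) := ⟨_, rfl⟩
  have hP01 : ∀ p ∈ pq q y, 0 ≤ 1 - gp t p ∧ 1 - gp t p ≤ 1 := by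
    intro p hp
    rw [mem_pq] at hp
    have h1 := gp_bd (t := t) hp.1.2
    have h2 := gp_le_one (t := t) hp.1.2
    constructor <;> linarith
  have hP0 : 0 ≤ Pq := by rw [hPq]; exact prod_nonneg fun p hp => (hP01 p hp).1
  have hP1 : Pq ≤ 1 := by rw [hPq]; exact prod_le_one (fun p hp => (hP01 p hp).1) (fun p hp => (hP01 p hp).2)
  rw [← hPq] at hcore
  have hφ : (1 : ℝ) ≤ (Nat.totient q : ℝ) := by exact_mod_cast Nat.totient_pos.2 hq
  have hpn := hpnt N hNN1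
  rw [← hL] at hpn
  have elam : lam1 N = psi1 (N : ℝ) := by
    unfold lam1 psi1
    rw [Nat.floor_natCast]
  rw [elam] at hpn
  have hNL : ∀ j, j ≤ BB + U + 8 → 16 ≤ (N : ℝ) / L ^ j := by
    intro j hj
    rw [le_div_iff₀ (by positivity)]
    refine (hspow j hj).trans ?_
    calc s = s ^ 1 := (pow_one s).symm
      _ ≤ s ^ 4 := pow_le_pow_right₀ hs1 (by norm_num)
      _ = N := hs4
  have hmain := num_ap (ε' := ε / 4) (Er := N / L ^ (U + 1)) hφ hP0 hP1 (by positivity : (0 : ℝ) ≤ (1 / 2) ^ b) (by linarith)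
    (by linarith) hpn (hcore.trans (add_le_add le_rfl (mul_le_mul hJ (mul_le_mul_of_nonneg_left (hsum.trans
      (add_le_add le_rfl hsmall)) (by positivity)) (by
        apply mul_nonneg (by positivity)
        exact sum_nonneg fun d _ => eA_nonneg N q a t d) (by positivity)))) (by
      have g1 : (N : ℝ) / L ^ (U + 2) = N / L ^ (U + 1) / L := by rw [pow_succ L (U + 1)]; field_simp
      have g2 : (N : ℝ) / L ^ (U + 4) = N / L ^ (U + 1) / L / L / L := by
        rw [show U + 4 = (U + 1) + 3 by ring, pow_add]; field_simp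
      obtain ⟨Z, hZ⟩ : ∃ Z : ℝ, Z = (N : ℝ) / L ^ (U + 1) := ⟨_, rfl⟩
      have hZ16 : 16 ≤ Z := by rw [hZ]; exact hNL (U + 1) (by omega)
      rw [g1, g2, ← hZ]
      have g3 : 2 * (C * (Z / L) + 2) ≤ Z / 2 := by
        have g4 : C * (Z / L) ≤ Z / 8 := by
          rw [← mul_div_assoc, div_le_div_iff₀ hL0 (by norm_num)]
          nlinarith
        linarith
      have g5 : 5 * L * (2 ^ C0 * (Z / L / L / L + Z / L / L / L)) ≤ Z / 2 := by
        have g6 : 5 * L * (2 ^ C0 * (Z / L / L / L + Z / L / L / L)) = 10 * 2 ^ C0 / L * (Z / L) := by field_simp; ring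
        have g7 : 10 * 2 ^ C0 / L ≤ 1 / 4 := by
          rw [div_le_iff₀ hL0]
          linarith
        have g8 : Z / L ≤ Z := div_le_self (by linarith) hL1
        rw [g6]
        calc 10 * 2 ^ C0 / L * (Z / L) ≤ 1 / 4 * Z := mul_le_mul g7 g8 (by positivity) (by norm_num)
          _ ≤ Z / 2 := by linarith
      linarith) hN0.le
  have hfin := hcnt (fun n => n ≡ a [MOD q] ∧ ∀ p ∈ pq q y, ¬ p ∣ n + t) (N / (Nat.totient q : ℝ) * Pq) (by positivity) (by
    rw [← hL]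
    unfold WA at hmain
    convert hmain)
  rw [← hPq]
  convert hfin

end Pool.Agent.H528.Ap
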