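import Mathlib
import Pool.Agent.H528.ApF

/-! Primes `p` in an arithmetic progression with `c p + h` rough: the count. -/

set_option autoImplicit false

namespace Pool.Agent.H528.Ap

open Finset Filter
open Pool.Agent.Y822
open Pool.Agent.Y822.Q (Vz_pos)
open Pool.Agent.Y822.Par3
open Pool.Agent.H373R2.T7 (pz Vz mem_pz)

/-- the adapted shift -/
lemma adapted (y c h : ℕ) : ∃ t : ℕ, ∀ l : ℕ, l.Prime → l ≤ y →
    (l ∣ c → l ∣ t) ∧ (¬ l ∣ c → ∀ n : ℕ, (l ∣ n + t ↔ l ∣ c * n + h)) := by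
  classical
  obtain ⟨M, hM⟩ : ∃ M : ℕ, M = ∏ l ∈ (pz y).filter (fun l => ¬ l ∣ c), l := ⟨_, rfl⟩
  have hcM : Nat.Coprime (c ^ 2) M := by
    apply Nat.Coprime.pow_left
    rw [hM]
    apply Nat.Coprime.prod_right
    intro l hl
    rw [mem_filter, mem_pz] at hl
    exact ((Nat.Prime.coprime_iff_not_dvd hl.1.2).2 hl.2).symm
  obtain ⟨t0, h1, h2⟩ : ∃ t0 : ℕ, t0 ≡ 0 [MOD c ^ 2] ∧ t0 ≡ h [MOD M] :=
    ⟨_, (Nat.chineseRemainder hcM 0 h).2⟩
  obtain ⟨u, hu⟩ := (Nat.modEq_zero_iff_dvd).1 h1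
  refine ⟨c * u, fun l hl hly => ⟨fun hlc => hlc.mul_right u, fun hlc n => ?_⟩⟩
  have hlM : l ∣ M := by
    rw [hM]
    exact dvd_prod_of_mem _ (mem_filter.2 ⟨mem_pz.2 ⟨hly, hl⟩, hlc⟩)
  have h3 : t0 ≡ h [MOD l] := h2.of_dvd hlM
  have h4 : c * (n + c * u) = c * n + t0 := by rw [hu]; ring
  have h5 : l ∣ n + c * u ↔ l ∣ c * (n + c * u) := by
    constructor
    · intro h; exact h.mul_left c
    · intro h
      rcases (Nat.Prime.dvd_mul hl).1 h with h6 | h6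
      · exact absurd h6 hlc
      · exact h6
  rw [h5, h4, ← Nat.modEq_zero_iff_dvd, ← Nat.modEq_zero_iff_dvd]
  have h6 : c * n + t0 ≡ c * n + h [MOD l] := Nat.ModEq.add_left _ h3
  exact ⟨fun h => h6.symm.trans h, fun h => h6.trans h⟩

open Classical in
lemma sl_sets {X y q c a h t : ℕ} (hc : 1 ≤ c)
    (hT : ∀ l : ℕ, l.Prime → l ≤ y → (l ∣ c → l ∣ t) ∧ (¬ l ∣ c → ∀ n : ℕ, (l ∣ n + t ↔ l ∣ c * n + h)))
    (hch : ∀ l : ℕ, l.Prime → l ≤ y → l ∣ c → ¬ l ∣ h) (hq : ∀ l : ℕ, l.Prime → l ≤ y → l ∣ q → ¬ l ∣ c * a + h) :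
    ((Icc 1 X).filter (fun n => n.Prime ∧ (n ≡ a [MOD q] ∧ ∀ p ∈ pq q y, ¬ p ∣ n + t))).card ≤
      ((Icc 1 X).filter (fun n => n.Prime ∧ (n ≡ a [MOD q] ∧ Ro y (c * n + h)))).card ∧
    ((Icc 1 X).filter (fun n => n.Prime ∧ (n ≡ a [MOD q] ∧ Ro y (c * n + h)))).card ≤
      ((Icc 1 X).filter (fun n => n.Prime ∧ (n ≡ a [MOD q] ∧ ∀ p ∈ pq q y, ¬ p ∣ n + t))).card + c := by
  constructor
  · apply card_le_card
    intro n hn
    rw [mem_filter] at hn ⊢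
    refine ⟨hn.1, hn.2.1, hn.2.2.1, fun l hl hly hd => ?_⟩
    by_cases h1 : l ∣ q
    · apply hq l hl hly h1
      have h2 : c * n + h ≡ c * a + h [MOD l] := Nat.ModEq.add_right h ((hn.2.2.1.of_dvd h1).mul_left c)
      exact (Nat.modEq_zero_iff_dvd).1 (h2.symm.trans ((Nat.modEq_zero_iff_dvd).2 hd))
    · by_cases h2 : l ∣ c
      · apply hch l hl hly h2
        exact (Nat.dvd_add_right (h2.mul_right n)).1 hd
      · exact hn.2.2.2 l (mem_pq.2 ⟨⟨hly, hl⟩, h1⟩) (((hT l hl hly).2 h2 n).2 hd)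
  · have h1 : (Icc 1 X).filter (fun n => n.Prime ∧ (n ≡ a [MOD q] ∧ Ro y (c * n + h))) ⊆
        (Icc 1 X).filter (fun n => n.Prime ∧ (n ≡ a [MOD q] ∧ ∀ p ∈ pq q y, ¬ p ∣ n + t)) ∪ Icc 1 c := by
      intro n hn
      rw [mem_filter] at hn
      rw [mem_union, mem_filter]
      by_cases h2 : ∀ p ∈ pq q y, ¬ p ∣ n + t
      · exact Or.inl ⟨hn.1, hn.2.1, hn.2.2.1, h2⟩
      · right
        push Not at h2
        obtain ⟨p, hp, hpd⟩ := h2
        rw [mem_pq] at hp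
        have hpc : p ∣ c := by
          by_contra h3
          exact hn.2.2.2 p hp.1.2 hp.1.1 (((hT p hp.1.2 hp.1.1).2 h3 n).1 hpd)
        have hpt := (hT p hp.1.2 hp.1.1).1 hpc
        have hpn : p ∣ n := (Nat.dvd_add_left hpt).1 hpd
        have e : p = n := (Nat.prime_dvd_prime_iff_eq hp.1.2 hn.2.1).1 hpn
        rw [← e]
        exact mem_Icc.2 ⟨hp.1.2.one_lt.le, Nat.le_of_dvd hc hpc⟩
    refine (card_le_card h1).trans ((card_union_le _ _).trans ?_)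
    rw [Nat.card_Icc, Nat.add_sub_cancel]

lemma sl_prod {y q c h g t : ℕ}
    (hT : ∀ l : ℕ, l.Prime → l ≤ y → (l ∣ c → l ∣ t) ∧ (¬ l ∣ c → ∀ n : ℕ, (l ∣ n + t ↔ l ∣ c * n + h)))
    (hgh : ∀ l : ℕ, l.Prime → l ≤ y → (l ∣ h ↔ l ∣ g)) :
    ∏ p ∈ pq q y, (1 - gp t p) = ∏ p ∈ pq q y, (1 - gp (c * g) p) := by
  refine prod_congr rfl fun p hp => ?_
  rw [mem_pq] at hp
  have h1 : p ∣ t ↔ p ∣ c * g := by
    by_cases h2 : p ∣ c
    · exact ⟨fun _ => h2.mul_right g, fun _ => (hT p hp.1.2 hp.1.1).1 h2⟩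
    · have h3 := (hT p hp.1.2 hp.1.1).2 h2 0
      rw [zero_add, mul_zero, zero_add] at h3
      rw [h3, hgh p hp.1.2 hp.1.1, Nat.Prime.dvd_mul hp.1.2]
      exact ⟨fun h => Or.inr h, fun h => h.resolve_left h2⟩
  unfold gp
  simp only [h1]

/-- numbers -/
lemma sl_num {A T M1 M0 W c ε : ℝ} (hε : 0 ≤ ε) (hε1 : ε ≤ 1) (h1 : T ≤ A) (h2 : A ≤ T + c) (h3 : |T - M1| ≤ ε / 4 * M1 + W / 4)
    (h4 : M1 ≤ (1 + ε / 4) * M0) (h5 : M0 - 1 ≤ M1) (hM0 : 0 ≤ M0) (h6 : 1 + c ≤ W / 4) : |A - M0| ≤ ε * M0 + W := by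
  obtain ⟨a1, a2⟩ := abs_le.1 h3
  have h7 : ε / 4 * M1 ≤ ε / 4 * ((1 + ε / 4) * M0) := mul_le_mul_of_nonneg_left h4 (by linarith)
  have h8 : ε / 4 * ((1 + ε / 4) * M0) ≤ ε / 4 * (2 * M0) := by
    apply mul_le_mul_of_nonneg_left _ (by linarith)
    exact mul_le_mul_of_nonneg_right (by linarith) hM0
  have h9 : 0 ≤ ε * M0 := mul_nonneg hε hM0
  rw [abs_le]
  constructor
  · nlinarith
  · nlinarith

open Classical in
/-- **the count for slopes** -/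
theorem sl_cnt (κ : ℝ) (hκ : 0 < κ) (hκ1 : κ ≤ 1) (B U : ℕ) (ε : ℝ) (hε : 0 < ε) (hε1 : ε ≤ 1) : ∀ᶠ N : ℕ in atTop,
    ∀ c q : ℕ, 1 ≤ c → (c : ℝ) ≤ Real.log N ^ B → 1 ≤ q → (q : ℝ) ≤ Real.log N ^ B → ∀ a h g : ℕ, Nat.Coprime a q →
      (∀ l : ℕ, l.Prime → l ≤ yN κ N → (l ∣ h ↔ l ∣ g)) → (∀ l : ℕ, l.Prime → l ≤ yN κ N → l ∣ c → ¬ l ∣ h) →
      (∀ l : ℕ, l.Prime → l ≤ yN κ N → l ∣ q → ¬ l ∣ c * a + h) →
      |(((Icc 1 (N / c)).filter (fun n => n.Prime ∧ (n ≡ a [MOD q] ∧ Ro (yN κ N) (c * n + h)))).card : ℝ) -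
        N / c / (Nat.totient q : ℝ) * (∏ p ∈ pq q (yN κ N), (1 - gp (c * g) p)) / Real.log N| ≤
      ε * (N / c / (Nat.totient q : ℝ) * (∏ p ∈ pq q (yN κ N), (1 - gp (c * g) p)) / Real.log N) + N / Real.log N ^ U := by
  obtain ⟨M, K, hK1, CNT⟩ := ap_cnt_y (B + 1) (U + 1) (ε / 4) (by positivity) (by linarith)
  obtain ⟨N0, hN0'⟩ := eventually_atTop.1 CNT
  have e1 := ev_logN (ev_log_pow 1 ((B + 1) * 8 / ε))
  have e2 := ev_logN (eventually_ge_atTop (max 2 (max (2 ^ (B + 1)) (2 ^ (U + 3)))))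
  have e3 := ev_logN (ev_pow_exp B 1 (N0 + 2) (by norm_num))
  have e4 := ev_logN (ev_pow_exp (B + U) 1 8 (by norm_num))
  filter_upwards [e1, e2, e3, e4, eventually_ge_atTop 3, yN_facts κ hκ hκ1 (max M (B + 1)) (K + 1)]
    with N f1 f2 f3 f4 hN hyf c q hc hcB hq hqB a h g haq hgh hch hqh
  obtain ⟨y1, y2, y3, y4, y5⟩ := hyf
  obtain ⟨y, hyd⟩ : ∃ y : ℕ, y = yN κ N := ⟨_, rfl⟩
  rw [← hyd] at y3 y4 y5 hgh hch hqh ⊢
  obtain ⟨L, hL⟩ : ∃ L : ℝ, L = Real.log N := ⟨_, rfl⟩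
  rw [← hL] at f1 f2 f3 f4 y3 hcB hqB ⊢
  rw [pow_one] at f1
  have hL2 : 2 ≤ L := (le_max_left _ _).trans f2
  have hLB : 2 ^ (B + 1) ≤ L := (le_max_left _ _).trans ((le_max_right _ _).trans f2)
  have hLU : 2 ^ (U + 3) ≤ L := (le_max_right _ _).trans ((le_max_right _ _).trans f2)
  have hL0 : 0 < L := by linarith
  have hL1 : 1 ≤ L := by linarith
  have hN0 : (0 : ℝ) < N := by positivity
  have hNe : (N : ℝ) = Real.exp L := by rw [hL, Real.exp_log hN0]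
  rw [one_mul, ← hNe] at f3 f4
  have hc0 : (0 : ℝ) < c := by exact_mod_cast hc
  obtain ⟨X, hX⟩ : ∃ X : ℕ, X = N / c := ⟨_, rfl⟩
  rw [← hX]
  have hXle : (X : ℝ) ≤ N / c := by rw [hX]; exact Nat.cast_div_le
  have hXge : (N : ℝ) / c - 1 ≤ X := by
    have h1 : N < c * (N / c + 1) := Nat.lt_mul_div_succ N hc
    rw [← hX] at h1
    have h2 : (N : ℝ) ≤ c * (X + 1) := by exact_mod_cast h1.le
    have h3 : (N : ℝ) / c ≤ X + 1 := by
      rw [div_le_iff₀ hc0]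
      linarith
    linarith
  have hNc : (N0 : ℝ) + 2 ≤ N / c := by
    rw [le_div_iff₀ hc0]
    have h1 : ((N0 : ℝ) + 2) * c ≤ (N0 + 2) * L ^ B := mul_le_mul_of_nonneg_left hcB (by positivity)
    linarith
  have hXN0 : N0 ≤ X := by
    have h1 : (N0 : ℝ) ≤ X := by linarith
    exact_mod_cast h1
  have hX1 : (1 : ℝ) ≤ X := by
    have : (0 : ℝ) ≤ N0 := Nat.cast_nonneg _
    linarith
  have hXhalf : (N : ℝ) / (2 * c) ≤ X := by
    have h1 : (2 : ℝ) ≤ N / c := by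
      have : (0 : ℝ) ≤ N0 := Nat.cast_nonneg _
      linarith
    have h2 : (N : ℝ) / (2 * c) = N / c / 2 := by field_simp
    rw [h2]
    linarith
  have hXN : (X : ℝ) ≤ N := hXle.trans (div_le_self hN0.le (by exact_mod_cast hc))
  obtain ⟨LX, hLX⟩ : ∃ LX : ℝ, LX = Real.log X := ⟨_, rfl⟩
  have hLXL : LX ≤ L := by
    rw [hLX, hL]
    exact Real.log_le_log (by linarith) hXN
  have hlog2 : Real.log 2 ≤ Real.log L := Real.log_le_log (by norm_num) hL2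
  have hLXge : (1 - ε / 8) * L ≤ LX := by
    have h1 : Real.log ((N : ℝ) / (2 * c)) ≤ LX := by
      rw [hLX]
      exact Real.log_le_log (by positivity) hXhalf
    have h2 : Real.log ((N : ℝ) / (2 * c)) = L - (Real.log 2 + Real.log c) := by
      rw [Real.log_div hN0.ne' (by positivity), Real.log_mul (by norm_num) hc0.ne', ← hL]
    have h3 : Real.log c ≤ B * Real.log L := by
      have h4 := Real.log_le_log hc0 hcB
      rwa [Real.log_pow] at h4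
    have h5 : ((B : ℝ) + 1) * Real.log L ≤ ε / 8 * L := by
      have h6 : (B + 1) * 8 / ε * Real.log L * (ε / 8) ≤ L * (ε / 8) :=
        mul_le_mul_of_nonneg_right f1 (by positivity)
      have h7 : (B + 1) * 8 / ε * Real.log L * (ε / 8) = ((B : ℝ) + 1) * Real.log L := by field_simp
      rw [h7] at h6
      linarith
    rw [h2] at h1
    nlinarith
  have hLXhalf : L / 2 ≤ LX := by
    have : ε / 8 * L ≤ 1 / 2 * L := mul_le_mul_of_nonneg_right (by linarith) hL0.le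
    linarith
  have hLX0 : 0 < LX := by linarith
  obtain ⟨t, ht⟩ := adapted y c h
  obtain ⟨s1, s2⟩ := sl_sets (X := X) (q := q) (a := a) hc ht hch hqh
  have hpr := sl_prod (q := q) ht hgh
  have hmain := hN0' X hXN0 y (by
      rw [← hLX]
      refine le_trans ?_ y3
      refine (pow_le_pow_left₀ hLX0.le hLXL M).trans (pow_le_pow_right₀ hL1 (le_max_left _ _))) (by
      rw [hX, Nat.le_div_iff_mul_le hc]
      have h1 : c ≤ y := by
        have h2 : (c : ℝ) ≤ y := by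
          refine hcB.trans (le_trans (pow_le_pow_right₀ hL1 ?_) y3)
          exact (Nat.le_succ B).trans (le_max_right _ _)
        exact_mod_cast h2
      calc y ^ K * c ≤ y ^ K * y := Nat.mul_le_mul_left _ h1
        _ = y ^ (K + 1) := (pow_succ y K).symm
        _ ≤ N := y4) ((le_max_left _ _).trans y5) q hq (by
      rw [← hLX]
      refine hqB.trans ?_
      have h1 : (L / 2) ^ (B + 1) ≤ LX ^ (B + 1) := pow_le_pow_left₀ (by positivity) hLXhalf _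
      refine le_trans ?_ h1
      rw [div_pow, le_div_iff₀ (by positivity), pow_succ L B]
      exact mul_le_mul_of_nonneg_left hLB (by positivity)) a t haq
  rw [hpr, ← hLX] at hmain
  obtain ⟨Pq, hPq⟩ : ∃ Pq : ℝ, Pq = ∏ p ∈ pq q y, (1 - gp (c * g) p) := ⟨_, rfl⟩
  have hP01 : ∀ p ∈ pq q y, 0 ≤ 1 - gp (c * g) p ∧ 1 - gp (c * g) p ≤ 1 := by
    intro p hp
    rw [mem_pq] at hp
    have h1 := gp_bd (t := c * g) hp.1.2
    have h2 := gp_le_one (t := c * g) hp.1.2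
    constructor <;> linarith
  have hP0 : 0 ≤ Pq := by rw [hPq]; exact prod_nonneg fun p hp => (hP01 p hp).1
  have hP1 : Pq ≤ 1 := by rw [hPq]; exact prod_le_one (fun p hp => (hP01 p hp).1) (fun p hp => (hP01 p hp).2)
  rw [← hPq] at hmain ⊢
  have hφ : (1 : ℝ) ≤ (Nat.totient q : ℝ) := by exact_mod_cast Nat.totient_pos.2 hq
  obtain ⟨φ, hφd⟩ : ∃ φ : ℝ, φ = (Nat.totient q : ℝ) := ⟨_, rfl⟩
  rw [← hφd] at hmain hφ ⊢
  have hφ0 : 0 < φ := by linarith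
  have s1' : (((Icc 1 X).filter (fun n => n.Prime ∧ (n ≡ a [MOD q] ∧ ∀ p ∈ pq q y, ¬ p ∣ n + t))).card : ℝ) ≤
      (((Icc 1 X).filter (fun n => n.Prime ∧ (n ≡ a [MOD q] ∧ Ro y (c * n + h)))).card : ℝ) := by exact_mod_cast s1
  have s2' : (((Icc 1 X).filter (fun n => n.Prime ∧ (n ≡ a [MOD q] ∧ Ro y (c * n + h)))).card : ℝ) ≤
      (((Icc 1 X).filter (fun n => n.Prime ∧ (n ≡ a [MOD q] ∧ ∀ p ∈ pq q y, ¬ p ∣ n + t))).card : ℝ) + c := by exact_mod_cast s2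
  refine sl_num (M1 := X / φ * Pq / LX) (W := N / L ^ U) (c := c) hε.le hε1 s1' s2' (hmain.trans (add_le_add le_rfl ?_)) ?_ ?_
    (by positivity) ?_
  · -- the error
    have h1 : (L / 2) ^ (U + 1) ≤ LX ^ (U + 1) := pow_le_pow_left₀ (by positivity) hLXhalf _
    calc (X : ℝ) / LX ^ (U + 1) ≤ N / (L / 2) ^ (U + 1) := div_le_div₀ hN0.le hXN (by positivity) h1
      _ = 2 ^ (U + 1) / L * (N / L ^ U) := by rw [div_pow, pow_succ L U]; field_simp
      _ ≤ 1 / 4 * (N / L ^ U) := by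
          apply mul_le_mul_of_nonneg_right _ (by positivity)
          rw [div_le_iff₀ hL0]
          have : (2 : ℝ) ^ (U + 3) = 4 * 2 ^ (U + 1) := by ring
          linarith
      _ = _ := by ring
  · have h1 : X / φ * Pq / LX ≤ (N / c) / φ * Pq / ((1 - ε / 8) * L) := by
      apply div_le_div₀ (by positivity) _ (by
        apply mul_pos _ hL0
        linarith) hLXge
      apply mul_le_mul_of_nonneg_right _ hP0
      exact div_le_div_of_nonneg_right hXle hφ0.le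
    refine h1.trans ?_
    have h2 : (N / c) / φ * Pq / ((1 - ε / 8) * L) = 1 / (1 - ε / 8) * (N / c / φ * Pq / L) := by
      have : (1 - ε / 8) ≠ 0 := by
        have : 0 < 1 - ε / 8 := by linarith
        exact this.ne'
      field_simp
    rw [h2]
    apply mul_le_mul_of_nonneg_right _ (by positivity)
    rw [div_le_iff₀ (by linarith)]
    nlinarith
  · have h1 : (N / c - 1) / φ * Pq / L ≤ X / φ * Pq / LX := by
      apply div_le_div₀ (by positivity) _ hLX0 hLXL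
      apply mul_le_mul_of_nonneg_right _ hP0
      exact div_le_div_of_nonneg_right hXge hφ0.le
    refine le_trans ?_ h1
    have h2 : (N / c - 1) / φ * Pq / L = N / c / φ * Pq / L - Pq / (φ * L) := by field_simp
    rw [h2]
    have h3 : Pq / (φ * L) ≤ 1 := by
      rw [div_le_one (by positivity)]
      calc Pq ≤ 1 := hP1
        _ ≤ φ * L := one_le_mul_of_one_le_of_one_le hφ hL1
    linarith
  · have h1 : 8 * (L ^ B * L ^ U) ≤ N := by rw [← pow_add]; exact f4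
    have h2 : 1 ≤ L ^ B := one_le_pow₀ hL1
    have h3 : 2 * L ^ B ≤ N / L ^ U / 4 := by
      rw [le_div_iff₀ (by norm_num), le_div_iff₀ (by positivity)]
      linarith
    linarith

end Pool.Agent.H528.Ap
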