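import Mathlib
import Pool.Agent.H528.ApG

/-! Primes `p` in an arithmetic progression with `c p + h` rough: the expected number. -/

set_option autoImplicit false

namespace Pool.Agent.H528.Ap

open Finset Filter
open Pool.Agent.Y822
open Pool.Agent.Y822.Q (Vz_pos)
open Pool.Agent.Y822.Par3
open Pool.Agent.H373R2.T7 (pz Vz mem_pz)
open Pool.Agent.H387R2.Uni (nuT Adm locT CT)
open Pool.Agent.H528.Avg (ro_of)
open Pool.Agent.H528.UG (wM lg pif law2 uni_A)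
open Pool.Agent.H528.Mn (ac nn ac_nonneg)

/-- the singular series for the elements up to `N ^ 2` -/
theorem PT_CT2 (k : ℕ) (κ : ℝ) (hκ : 0 < κ) (hκ1 : κ ≤ 1) (x : ℝ) (hx : 0 < x) (hx1 : x ≤ 1) : ∀ᶠ N : ℕ in atTop,
    ∀ H : Finset ℕ, H.card = k + 1 → (∀ h ∈ H, h ≤ N ^ 2) →
      PT H (yN κ N) ≤ (1 + x) * CT H ∧ CT H ≤ (1 + x) * PT H (yN κ N) := by
  obtain ⟨M, hM⟩ : ∃ M : ℕ, M = 3 + ⌈((k : ℝ) + 1) ^ 2 * (2 / x)⌉₊ := ⟨_, rfl⟩
  have e1 := ev_logN (eventually_ge_atTop (max 2 (8 * ((k : ℝ) + 1) ^ 3 / Real.log (1 + x))))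
  filter_upwards [yN_facts κ hκ hκ1 M 1, e1, eventually_ge_atTop 3] with N hyf f1 hN H hH hHN
  obtain ⟨y1, y2, y3, y4, y5⟩ := hyf
  obtain ⟨L, hL⟩ : ∃ L : ℝ, L = Real.log N := ⟨_, rfl⟩
  rw [← hL] at f1 y3
  obtain ⟨y, hyd⟩ : ∃ y : ℕ, y = yN κ N := ⟨_, rfl⟩
  rw [← hyd] at y1 y2 y3 y4 y5 ⊢
  have hL2 : 2 ≤ L := (le_max_left _ _).trans f1
  have hLx : 8 * ((k : ℝ) + 1) ^ 3 / Real.log (1 + x) ≤ L := (le_max_right _ _).trans f1
  have hlx : 0 < Real.log (1 + x) := Real.log_pos (by linarith)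
  rw [div_le_iff₀ hlx] at hLx
  have hy3 : 3 ≤ y := by omega
  have hM2 : 2 ≤ M := by omega
  have hHr : (H.card : ℝ) = (k : ℝ) + 1 := by rw [hH]; push_cast; ring
  constructor
  · refine PT_le_CT H x hx hx1 y ?_ (by omega)
    rw [hHr]
    have h1 : ((k : ℝ) + 1) ^ 2 * (2 / x) ≤ M := by
      rw [hM]
      push_cast
      have := Nat.le_ceil (((k : ℝ) + 1) ^ 2 * (2 / x))
      linarith
    have h2 : (M : ℝ) ≤ y := by exact_mod_cast y5
    linarith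
  · refine (CT_up H (N ^ 2) y hHN (by omega)).trans (mul_le_mul_of_nonneg_right ?_ (PT_nonneg H y))
    rw [hHr]
    have h1 : Real.exp (Real.log (1 + x)) = 1 + x := Real.exp_log (by linarith)
    rw [← h1]
    apply Real.exp_le_exp.2
    have hy0 : (0 : ℝ) < y := by exact_mod_cast (by omega : 0 < y)
    rw [div_le_iff₀ hy0]
    have h2 : (Nat.log y (N ^ 2) : ℝ) ≤ 4 * L := by
      have h3 : y ^ Nat.log y (N ^ 2) ≤ N ^ 2 := Nat.pow_log_le_self y (by positivity)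
      have h4 : Real.log ((y : ℝ) ^ Nat.log y (N ^ 2)) ≤ Real.log ((N : ℝ) ^ 2) := by
        apply Real.log_le_log (by positivity)
        exact_mod_cast h3
      rw [Real.log_pow, Real.log_pow, ← hL] at h4
      have h5 : (1 : ℝ) / 2 ≤ Real.log y := by
        have h6 : Real.log 2 ≤ Real.log y := Real.log_le_log (by norm_num) (by exact_mod_cast (by omega : 2 ≤ y))
        have := Real.log_two_gt_d9
        linarith
      have h7 : (Nat.log y (N ^ 2) : ℝ) * (1 / 2) ≤ Nat.log y (N ^ 2) * Real.log y :=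
        mul_le_mul_of_nonneg_left h5 (Nat.cast_nonneg _)
      push_cast at h4
      linarith
    have h3 : L * L ≤ y := by
      refine le_trans ?_ y3
      calc L * L = L ^ 2 := by ring
        _ ≤ L ^ M := pow_le_pow_right₀ (by linarith) hM2
    calc 2 * ((k : ℝ) + 1) ^ 3 * Nat.log y (N ^ 2) ≤ 2 * ((k : ℝ) + 1) ^ 3 * (4 * L) :=
          mul_le_mul_of_nonneg_left h2 (by positivity)
      _ = (8 * ((k : ℝ) + 1) ^ 3) * L := by ring
      _ ≤ L * Real.log (1 + x) * L := mul_le_mul_of_nonneg_right hLx (by linarith)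
      _ = Real.log (1 + x) * (L * L) := by ring
      _ ≤ Real.log (1 + x) * y := mul_le_mul_of_nonneg_left h3 hlx.le

lemma fac_pos_even {t q p : ℕ} (ht : Even t) (hp : p ∈ q.primeFactors) :
    0 < 1 - (if p ∣ t then 1 else 2) / (p : ℝ) := by
  have hpp := Nat.prime_of_mem_primeFactors hp
  have hp2 : (2 : ℝ) ≤ p := by exact_mod_cast hpp.two_le
  have hp0 : (0 : ℝ) < p := by linarith
  rw [sub_pos, div_lt_one hp0]
  split_ifs with h
  · linarith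
  · rcases lt_or_eq_of_le hpp.two_le with h2 | h2
    · exact_mod_cast h2
    · exact absurd (h2 ▸ ht.two_dvd) h

lemma phiT_bd_even {t q : ℕ} (hq : 1 ≤ q) (ht : Even t) : 0 < phiT t q ∧ phiT t q ≤ q := by
  have hq0 : (0 : ℝ) < q := by exact_mod_cast hq
  unfold phiT
  constructor
  · apply mul_pos hq0
    exact prod_pos fun p hp => fac_pos_even ht hp
  · calc (q : ℝ) * ∏ p ∈ q.primeFactors, (1 - (if p ∣ t then 1 else 2) / (p : ℝ)) ≤ q * 1 := by
          apply mul_le_mul_of_nonneg_left _ hq0.le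
          refine prod_le_one (fun p hp => (fac_pos_even ht hp).le) fun p hp => ?_
          have : (0 : ℝ) ≤ (if p ∣ t then 1 else 2) / (p : ℝ) := by split_ifs <;> positivity
          linarith
      _ = q := mul_one _

/-- the identity of the constants -/
lemma const_even {t q y : ℕ} (ht : 1 ≤ t) (hq : 1 ≤ q) (hqy : q ≤ y) (hte : Even t) :
    (∏ p ∈ pq q y, (1 - gp t p)) / ((Nat.totient q : ℝ) * Vz y) = PT {0, t} y / phiT t q := by
  obtain ⟨h1, h2⟩ := pz_split hq hqy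
  have hq0 : (0 : ℝ) < q := by exact_mod_cast hq
  have hpr : ∀ p ∈ pq q y, p.Prime := fun p hp => (mem_pq.1 hp).1.2
  have hpf : ∀ p ∈ q.primeFactors, p.Prime := fun p hp => Nat.prime_of_mem_primeFactors hp
  have hV : Vz y = (∏ p ∈ pq q y, (1 - 1 / (p : ℝ))) * ∏ p ∈ q.primeFactors, (1 - 1 / (p : ℝ)) := by
    unfold Vz
    rw [h1, prod_union h2]
  have hP : PT {0, t} y = (∏ p ∈ pq q y, locT {0, t} p) * ∏ p ∈ q.primeFactors, locT {0, t} p := by
    unfold PT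
    rw [h1, prod_union h2]
  have hφ : (Nat.totient q : ℝ) = q * ∏ p ∈ q.primeFactors, (1 - 1 / (p : ℝ)) := by
    have h3 := Nat.totient_eq_mul_prod_factors q
    have h4 : ((Nat.totient q : ℚ) : ℝ) = ((q * ∏ p ∈ q.primeFactors, (1 - (p : ℚ)⁻¹) : ℚ) : ℝ) := by rw [h3]
    push_cast at h4
    rw [h4]
    congr 1
    exact prod_congr rfl fun p _ => by rw [one_div]
  have hnum : ∏ p ∈ pq q y, (1 - gp t p) = (∏ p ∈ pq q y, locT {0, t} p) * ∏ p ∈ pq q y, (1 - 1 / (p : ℝ)) := by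
    rw [← prod_mul_distrib]
    exact prod_congr rfl fun p hp => loc_id ht (hpr p hp)
  have hloc : (∏ p ∈ q.primeFactors, locT {0, t} p) * (∏ p ∈ q.primeFactors, (1 - 1 / (p : ℝ))) ^ 2 =
      ∏ p ∈ q.primeFactors, (1 - (if p ∣ t then 1 else 2) / (p : ℝ)) := by
    rw [← prod_pow, ← prod_mul_distrib]
    refine prod_congr rfl fun p hp => ?_
    unfold locT
    rw [nuT_pair (hpf p hp), card_pair (by omega : 0 ≠ t)]
    have hp2 : (2 : ℝ) ≤ p := by exact_mod_cast (hpf p hp).two_le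
    have h5 : 0 < 1 - 1 / (p : ℝ) := by
      rw [sub_pos, div_lt_one (by linarith)]
      linarith
    exact div_mul_cancel₀ _ (pow_ne_zero 2 h5.ne')
  have hpos1 : 0 < ∏ p ∈ pq q y, (1 - 1 / (p : ℝ)) := prod_pos fun p hp => by
    have hp2 : (2 : ℝ) ≤ p := by exact_mod_cast (hpr p hp).two_le
    rw [sub_pos, div_lt_one (by linarith)]
    linarith
  have hpos2 : 0 < ∏ p ∈ q.primeFactors, (1 - 1 / (p : ℝ)) := prod_pos fun p hp => by
    have hp2 : (2 : ℝ) ≤ p := by exact_mod_cast (hpf p hp).two_le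
    rw [sub_pos, div_lt_one (by linarith)]
    linarith
  have hpos3 : 0 < ∏ p ∈ q.primeFactors, (1 - (if p ∣ t then 1 else 2) / (p : ℝ)) := prod_pos fun p hp => fac_pos_even hte hp
  unfold phiT
  rw [hnum, hφ, hV, hP]
  obtain ⟨u1, hu1⟩ : ∃ u1 : ℝ, u1 = ∏ p ∈ pq q y, (1 - 1 / (p : ℝ)) := ⟨_, rfl⟩
  obtain ⟨u2, hu2⟩ : ∃ u2 : ℝ, u2 = ∏ p ∈ q.primeFactors, (1 - 1 / (p : ℝ)) := ⟨_, rfl⟩
  obtain ⟨u3, hu3⟩ : ∃ u3 : ℝ, u3 = ∏ p ∈ q.primeFactors, (1 - (if p ∣ t then 1 else 2) / (p : ℝ)) := ⟨_, rfl⟩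
  obtain ⟨u4, hu4⟩ : ∃ u4 : ℝ, u4 = ∏ p ∈ q.primeFactors, locT {0, t} p := ⟨_, rfl⟩
  obtain ⟨u5, hu5⟩ : ∃ u5 : ℝ, u5 = ∏ p ∈ pq q y, locT {0, t} p := ⟨_, rfl⟩
  rw [← hu1] at hpos1 ⊢
  rw [← hu2] at hpos2 hloc ⊢
  rw [← hu3] at hpos3 hloc ⊢
  rw [← hu4] at hloc ⊢
  rw [← hu5]
  rw [← hloc, div_eq_div_iff (by positivity) (by rw [hloc]; positivity)]
  ring


end Pool.Agent.H528.Ap
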