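import Mathlib
import Pool.Agent.H528.ApH

/-! Primes `p` in an arithmetic progression with `c p + h` rough: the expected number. -/

set_option autoImplicit false

namespace Pool.Agent.H528.Ap

open Finset Filter
open Pool.Agent.Y822
open Pool.Agent.Y822.Q (Vz_pos)
open Pool.Agent.Y822.Par3
open Pool.Agent.H373R2.T7 (pz Vz mem_pz)
open Pool.Agent.H387R2.Uni (nuT Adm locT CT)
open Pool.Agent.H528.Avg (ro_of)
open Pool.Agent.H528.UG (wM lg pif law2 uni_A)
open Pool.Agent.H528.Mn (ac nn ac_nonneg)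

/-- the expected number of the pairs -/
noncomputable def EB (N c g q : ℕ) : ℝ := CT {0, c * g} / phiT (c * g) q * (N / c / Real.log N ^ 2)

open Classical in
/-- **the expected number** -/
theorem sl_exp (κ : ℝ) (hκ : 0 < κ) (hκ1 : κ ≤ 1) (B : ℕ) (x : ℝ) (hx : 0 < x) (hx1 : x ≤ 1) : ∀ᶠ N : ℕ in atTop,
    ∀ c q : ℕ, 1 ≤ c → (c : ℝ) ≤ Real.log N ^ B → 1 ≤ q → (q : ℝ) ≤ Real.log N ^ B → ∀ a h g : ℕ, Nat.Coprime a q →
      (∀ l : ℕ, l.Prime → l ≤ yN κ N → (l ∣ h ↔ l ∣ g)) → (∀ l : ℕ, l.Prime → l ≤ yN κ N → l ∣ c → ¬ l ∣ h) →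
      (∀ l : ℕ, l.Prime → l ≤ yN κ N → l ∣ q → ¬ l ∣ c * a + h) → 1 ≤ g → g ≤ 2 * N → Even (c * g) →
      |(((Icc 1 (N / c)).filter (fun n => n.Prime ∧ (n ≡ a [MOD q] ∧ Ro (yN κ N) (c * n + h)))).card : ℝ) /
          (Real.log N * Vz (yN κ N)) - EB N c g q| ≤ x * EB N c g q ∧
      N / Real.log N ^ (2 * B + 3) ≤ x * EB N c g q ∧ 0 ≤ EB N c g q := by
  classical
  obtain ⟨_, _, cz, hcz, hcz1, VZ, _⟩ := ComB.comB
  obtain ⟨c0, hc0, LOW⟩ := PT_low 1
  obtain ⟨x1, hx1'⟩ : ∃ x1 : ℝ, x1 = x / 8 := ⟨_, rfl⟩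
  have hx10 : 0 < x1 := by rw [hx1']; positivity
  have hx11 : x1 ≤ 1 := by rw [hx1']; linarith
  have e1 := ev_logN (eventually_ge_atTop (max 1 (2 / (cz * x * c0))))
  have e2 := ev_logN (ev_pow_exp B 1 2 (by norm_num))
  filter_upwards [sl_cnt κ hκ hκ1 B (2 * B + 3) x1 hx10 hx11, PT_CT2 1 κ hκ hκ1 x1 hx10 hx11, e1, e2, eventually_ge_atTop 3,
    yN_facts κ hκ hκ1 (max B 3) 1] with N CNT PTCT f1 f2 hN hyf c q hc hcB hq hqB a h g ha hgh hch hqh hg1 hgN hev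
  obtain ⟨y1, y2, y3, y4, y5⟩ := hyf
  rw [pow_one] at y4
  have CNT := CNT c q hc hcB hq hqB a h g ha hgh hch hqh
  obtain ⟨y, hyd⟩ : ∃ y : ℕ, y = yN κ N := ⟨_, rfl⟩
  rw [← hyd] at y3 y4 y5 CNT PTCT ⊢
  obtain ⟨L, hL⟩ : ∃ L : ℝ, L = Real.log N := ⟨_, rfl⟩
  rw [← hL] at f1 f2 y3 hqB hcB CNT ⊢
  have hL1 : 1 ≤ L := (le_max_left _ _).trans f1
  have hL2 : 2 / (cz * x * c0) ≤ L := (le_max_right _ _).trans f1
  have hL0 : 0 < L := by linarith
  have hN0 : (0 : ℝ) < N := by positivity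
  have hNe : (N : ℝ) = Real.exp L := by rw [hL, Real.exp_log hN0]
  rw [one_mul, ← hNe] at f2
  have hc0' : (0 : ℝ) < c := by exact_mod_cast hc
  have hcg : c * g ≤ N ^ 2 := by
    have h1 : 2 * c ≤ N := by
      have h2 : (2 : ℝ) * c ≤ N := by linarith
      exact_mod_cast h2
    calc c * g ≤ c * (2 * N) := Nat.mul_le_mul_left c hgN
      _ = (2 * c) * N := by ring
      _ ≤ N * N := Nat.mul_le_mul_right N h1
      _ = N ^ 2 := by ring
  have hcg1 : 1 ≤ c * g := Nat.mul_pos hc hg1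
  have hy3 : 3 ≤ y := (le_max_right B 3).trans y5
  have hqy : q ≤ y := by
    have h1 : (q : ℝ) ≤ y := hqB.trans ((pow_le_pow_right₀ hL1 (le_max_left B 3)).trans y3)
    exact_mod_cast h1
  have hVy : 0 < Vz y := Vz_pos y
  have hVlow : cz ≤ L * Vz y := by
    have hy0 : (0 : ℝ) < y := by exact_mod_cast (by omega : 0 < y)
    have hyN : Real.log y ≤ L := by
      rw [hL]
      exact Real.log_le_log hy0 (by exact_mod_cast y4)
    have hly : 0 < Real.log y := Real.log_pos (by exact_mod_cast (by omega : 1 < y))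
    have h1 := (div_le_div_of_nonneg_left hcz.le hly hyN).trans (VZ y hy3)
    rw [div_le_iff₀ hL0] at h1
    linarith
  obtain ⟨hφ0, hφq⟩ := phiT_bd_even (t := c * g) hq hev
  have hcard : ({0, c * g} : Finset ℕ).card = 1 + 1 := by rw [card_pair (by omega : 0 ≠ c * g)]
  obtain ⟨p1, p2⟩ := PTCT {0, c * g} hcard (by
    intro h hh
    rw [mem_insert, mem_singleton] at hh
    rcases hh with rfl | rfl
    · exact Nat.zero_le _
    · exact hcg)
  have hCT := (LOW {0, c * g} hcard (adm_pair hev)).2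
  have hCT0 : 0 < CT {0, c * g} := lt_of_lt_of_le hc0 hCT
  have hE0 : 0 ≤ EB N c g q := by unfold EB; positivity
  have hElow : c0 * (N / L ^ (2 * B + 2)) ≤ EB N c g q := by
    unfold EB
    rw [← hL]
    have h1 : phiT (c * g) q ≤ L ^ B := hφq.trans hqB
    calc c0 * (N / L ^ (2 * B + 2)) = c0 / L ^ B * (N / L ^ B / L ^ 2) := by
          rw [show 2 * B + 2 = B + B + 2 by ring, pow_add, pow_add]; field_simp
      _ ≤ CT {0, c * g} / phiT (c * g) q * (N / c / L ^ 2) := by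
          apply mul_le_mul (div_le_div₀ hCT0.le hCT hφ0 h1) _ (by positivity) (by positivity)
          apply div_le_div_of_nonneg_right _ (by positivity)
          exact div_le_div_of_nonneg_left hN0.le hc0' hcB
  have e9 : (N : ℝ) / L ^ (2 * B + 3) = N / L ^ (2 * B + 2) / L := by rw [pow_succ L (2 * B + 2)]; field_simp
  have hsm : (N : ℝ) / L ^ (2 * B + 3) / cz ≤ x / 2 * EB N c g q := by
    have h1 : x / 2 * (c0 * (N / L ^ (2 * B + 2))) ≤ x / 2 * EB N c g q := mul_le_mul_of_nonneg_left hElow (by positivity)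
    refine le_trans ?_ h1
    rw [e9]
    have h2 : 1 / (L * cz) ≤ x / 2 * c0 := by
      rw [div_le_iff₀ (by positivity)] at hL2 ⊢
      linarith
    calc (N : ℝ) / L ^ (2 * B + 2) / L / cz = 1 / (L * cz) * (N / L ^ (2 * B + 2)) := by field_simp
      _ ≤ x / 2 * c0 * (N / L ^ (2 * B + 2)) := mul_le_mul_of_nonneg_right h2 (by positivity)
      _ = _ := by ring
  refine ⟨?_, ?_, hE0⟩
  · have hid := const_even hcg1 hq hqy hev
    have hφq0 : (0 : ℝ) < (Nat.totient q : ℝ) := by exact_mod_cast Nat.totient_pos.2 hq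
    obtain ⟨Ey, hEy⟩ : ∃ Ey : ℝ, Ey = PT {0, c * g} y / phiT (c * g) q * (N / c / L ^ 2) := ⟨_, rfl⟩
    have hEyK : Ey * (L * Vz y) = N / c / (Nat.totient q : ℝ) * (∏ p ∈ pq q y, (1 - gp (c * g) p)) / L := by
      rw [hEy, ← hid]
      field_simp
    rw [← hEyK] at CNT
    have hEy0 : 0 ≤ Ey := by
      rw [hEy]
      have := PT_nonneg {0, c * g} y
      positivity
    refine calcAp (s := _) (x1 := x1) (Ey := Ey) (D := N / L ^ (2 * B + 3)) (cz := cz) hx10 hx11 (by rw [hx1']; ring) rfl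
      (by positivity) hEy0 hE0 CNT hVlow hcz (by positivity) ?_ ?_ hsm
    · rw [hEy]
      unfold EB
      rw [← hL]
      calc PT {0, c * g} y / phiT (c * g) q * (N / c / L ^ 2) ≤
          ((1 + x1) * CT {0, c * g}) / phiT (c * g) q * (N / c / L ^ 2) := by
            apply mul_le_mul_of_nonneg_right _ (by positivity)
            exact div_le_div_of_nonneg_right p1 hφ0.le
        _ = _ := by ring
    · rw [hEy]
      unfold EB
      rw [← hL]
      calc CT {0, c * g} / phiT (c * g) q * (N / c / L ^ 2) ≤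
          ((1 + x1) * PT {0, c * g} y) / phiT (c * g) q * (N / c / L ^ 2) := by
            apply mul_le_mul_of_nonneg_right _ (by positivity)
            exact div_le_div_of_nonneg_right p2 hφ0.le
        _ = _ := by ring
  · have h1 : (N : ℝ) / L ^ (2 * B + 3) ≤ N / L ^ (2 * B + 3) / cz := by
      rw [le_div_iff₀ hcz]
      exact mul_le_of_le_one_right (by positivity) hcz1
    have h2 : x / 2 * EB N c g q ≤ x * EB N c g q := mul_le_mul_of_nonneg_right (by linarith) hE0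
    linarith

open Classical in
/-- the indicator of the multiples `c p` of the primes `p` in the class -/
noncomputable def fB (c q a x : ℕ) : ℝ := if ∃ p : ℕ, (p.Prime ∧ p ≡ a [MOD q]) ∧ x = c * p then 1 else 0

lemma fB_bd (c q a n : ℕ) : 0 ≤ fB c q a n ∧ fB c q a n ≤ 1 := by
  unfold fB; split_ifs <;> norm_num

open Classical in
lemma fB_mod (c q a : ℕ) : fB c q (a % q) = fB c q a := by
  funext n
  unfold fB
  have h : ∀ p : ℕ, p ≡ a % q [MOD q] ↔ p ≡ a [MOD q] := fun p =>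
    ⟨fun h => h.trans (Nat.mod_modEq a q), fun h => h.trans (Nat.mod_modEq a q).symm⟩
  refine if_congr ?_ rfl rfl
  exact ⟨fun ⟨p, h1, h2⟩ => ⟨p, ⟨h1.1, (h p).1 h1.2⟩, h2⟩, fun ⟨p, h1, h2⟩ => ⟨p, ⟨h1.1, (h p).2 h1.2⟩, h2⟩⟩

open Classical in
lemma sum_fB {N c q a : ℕ} (hc : 1 ≤ c) (F : ℕ → ℝ) :
    ∑ x ∈ Icc 1 N, fB c q a x * F x = ∑ n ∈ (Icc 1 (N / c)).filter (fun n => n.Prime ∧ n ≡ a [MOD q]), F (c * n) := by
  have h1 : ∑ x ∈ Icc 1 N, fB c q a x * F x =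
      ∑ x ∈ ((Icc 1 (N / c)).filter (fun n => n.Prime ∧ n ≡ a [MOD q])).image (fun n => c * n), F x := by
    unfold fB
    simp only [ite_mul, one_mul, zero_mul]
    rw [← sum_filter]
    congr 1
    ext x
    rw [mem_filter, mem_image, mem_Icc]
    constructor
    · rintro ⟨⟨h2, h3⟩, p, hp, rfl⟩
      refine ⟨p, mem_filter.2 ⟨mem_Icc.2 ⟨hp.1.one_lt.le, ?_⟩, hp⟩, rfl⟩
      rw [Nat.le_div_iff_mul_le hc, mul_comm]
      exact h3
    · rintro ⟨p, hp, rfl⟩
      rw [mem_filter, mem_Icc, Nat.le_div_iff_mul_le hc, mul_comm p c] at hp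
      exact ⟨⟨Nat.mul_pos hc hp.1.1, hp.1.2⟩, p, hp.2, rfl⟩
  rw [h1, sum_image]
  intro n _ m _ h
  exact Nat.eq_of_mul_eq_mul_left hc h

open Classical in
lemma YB_eq {N c q a y : ℕ} (hc : 1 ≤ c) (G : ℕ → ℕ) (h : ℕ) (hG : ∀ n : ℕ, n ≤ N / c → (Ro y (G (c * n)) ↔ Ro y (c * n + h))) :
    ∑ x ∈ Icc 1 N, fB c q a x * ro y (G x) =
      (((Icc 1 (N / c)).filter (fun n => n.Prime ∧ (n ≡ a [MOD q] ∧ Ro y (c * n + h)))).card : ℝ) := by
  rw [sum_fB hc (fun x => ro y (G x)), card_eq_sum_ones, Nat.cast_sum, sum_filter, sum_filter]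
  refine sum_congr rfl fun n hn => ?_
  rw [mem_Icc] at hn
  have h1 := hG n hn.2
  by_cases h2 : n.Prime ∧ n ≡ a [MOD q]
  · rw [if_pos h2]
    by_cases h3 : Ro y (G (c * n))
    · rw [ro_of h3, if_pos ⟨h2.1, h2.2, h1.1 h3⟩, Nat.cast_one]
    · have h4 : ro y (G (c * n)) = 0 := by unfold ro; rw [if_neg h3]
      rw [h4, if_neg (fun h => h3 (h1.2 h.2.2))]
  · rw [if_neg h2, if_neg (fun h => h2 ⟨h.1, h.2.1⟩)]

end Pool.Agent.H528.Ap
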