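import Mathlib
import Pool.Agent.H528.ApI

/-! The parity law for `c p + h` and `m - c p`. -/

set_option autoImplicit false

namespace Pool.Agent.H528.Ap

open Finset Filter
open Pool.Agent.Y822
open Pool.Agent.Y822.Q (Vz_pos)
open Pool.Agent.Y822.Par3
open Pool.Agent.H373R2.T7 (pz Vz mem_pz)
open Pool.Agent.H387R2.Uni (nuT Adm locT CT)
open Pool.Agent.H528.Avg (ro_of)
open Pool.Agent.H528.UG (wM lg pif law2 uni_A)
open Pool.Agent.H528.Mn (ac nn ac_nonneg)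

/-- the mass of the `c p + t` -/
noncomputable def TB (N z c q a t : ℕ) (l : List ℕ) : ℝ := ∑ n ∈ Icc 1 N, fB c q a n * wM N z l (n + t)

lemma no_common {c t l : ℕ} (h : Nat.Coprime c t) (hl : l.Prime) (h1 : l ∣ c) : ¬ l ∣ t := by
  intro h2
  have h3 := Nat.dvd_gcd h1 h2
  rw [h] at h3
  exact hl.one_lt.ne' (Nat.dvd_one.1 h3)

/-- **the parity law for slopes** -/
theorem sl_law (𝓛 : Finset (ℕ × List ℕ)) (ε : ℝ) (hε : 0 < ε) (B : ℕ) : ∃ δ : ℝ, 1 / 2 ≤ δ ∧ δ < 1 ∧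
    ∃ ε₁ : ℝ, 0 < ε₁ ∧ ε₁ ≤ 1 / 8 ∧ ε₁ ≤ ε ∧ ∃ C : ℕ, ∀ᶠ N : ℕ in atTop,
    ∀ S : Finset ℕ, (∀ t ∈ S, (1 ≤ t ∧ t ≤ N) ∧ ∃ c q a : ℕ, (1 ≤ c ∧ (c : ℝ) ≤ Real.log N ^ B) ∧
      (1 ≤ q ∧ (q : ℝ) ≤ Real.log N ^ B) ∧
      Nat.Coprime a q ∧ Nat.Coprime c t ∧ Nat.Coprime q (c * a + t) ∧ Even (c * t) ∧
      ¬ ∀ l ∈ 𝓛, |TB N (zN ε₁ N) c q a t (l.1 :: l.2) -
          ac l.1 l.2 * (if Even l.2.length then pif N (fB c q a) t else 2 * EB N c t q - pif N (fB c q a) t)| ≤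
            ε * EB N c t q) →
      (S.card : ℝ) ≤ (N : ℝ) ^ δ * Real.log N ^ C := by
  classical
  obtain ⟨A, hA1, hA⟩ := uni_A 𝓛
  have hA0 : 0 < A := by linarith
  obtain ⟨δ, hδ1, hδ2, ε₁, hε₁0, hε₁8, hε₁ε, κ, hκ, hκ1, C, LAW⟩ := law2 𝓛 (ε / 4) (by positivity) (2 * B + 3)
  obtain ⟨x, hx⟩ : ∃ x : ℝ, x = min 1 (ε / (2 * (1 + 2 * A))) := ⟨_, rfl⟩
  have hx0 : 0 < x := by rw [hx]; positivity
  have hx1 : x ≤ 1 := by rw [hx]; exact min_le_left _ _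
  have hxε : x * (1 + 2 * A) ≤ ε / 2 := by
    have h1 : x ≤ ε / (2 * (1 + 2 * A)) := by rw [hx]; exact min_le_right _ _
    calc x * (1 + 2 * A) ≤ ε / (2 * (1 + 2 * A)) * (1 + 2 * A) := mul_le_mul_of_nonneg_right h1 (by positivity)
      _ = ε / 2 := by field_simp
  refine ⟨δ, hδ1, hδ2, ε₁, hε₁0, hε₁8, by linarith, C + 3 * B, ?_⟩
  filter_upwards [LAW, sl_exp κ hκ hκ1 B x hx0 hx1, ev_logN (eventually_ge_atTop (1 : ℝ)), eventually_ge_atTop 3]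
    with N LAW EXP hL1 hN S hS
  have hN0 : (0 : ℝ) < N := by positivity
  have hLB0 : 0 ≤ Real.log N ^ B := by positivity
  obtain ⟨Q, hQ⟩ : ∃ Q : ℕ, Q = ⌊Real.log N ^ B⌋₊ := ⟨_, rfl⟩
  have hQL : (Q : ℝ) ≤ Real.log N ^ B := by rw [hQ]; exact Nat.floor_le hLB0
  obtain ⟨bad, hbad⟩ : ∃ bad : ℕ × ℕ × ℕ → ℕ → Prop, bad = fun i t => t ≤ N ∧ ¬ ∀ l ∈ 𝓛,
      |∑ n ∈ Icc 1 N, fB i.1 i.2.1 i.2.2 n * wM N (zN ε₁ N) (l.1 :: l.2) (n + t) -
          ac l.1 l.2 * (if Even l.2.length then pif N (fB i.1 i.2.1 i.2.2) t else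
            2 * ((∑ n ∈ Icc 1 N, fB i.1 i.2.1 i.2.2 n * ro (yN κ N) (n + t)) / (Real.log N * Vz (yN κ N))) -
              pif N (fB i.1 i.2.1 i.2.2) t)| ≤
        ε / 4 * ((∑ n ∈ Icc 1 N, fB i.1 i.2.1 i.2.2 n * ro (yN κ N) (n + t)) / (Real.log N * Vz (yN κ N))) +
          N / Real.log N ^ (2 * B + 3) := ⟨_, rfl⟩
  have hsub : S ⊆ ((Icc 1 Q) ×ˢ (Icc 1 Q) ×ˢ (range Q)).biUnion (fun i => S.filter (bad i)) := by
    intro t htS
    obtain ⟨⟨ht1, htN⟩, c, q, a, ⟨hc, hcB⟩, ⟨hq, hqB⟩, ha, hct, hat, hev, hnot⟩ := hS t htS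
    rw [mem_biUnion]
    have hcQ : c ≤ Q := by rw [hQ]; exact Nat.le_floor hcB
    have hqQ : q ≤ Q := by rw [hQ]; exact Nat.le_floor hqB
    refine ⟨(c, q, a % q), ?_, ?_⟩
    · rw [mem_product, mem_product, mem_Icc, mem_Icc, mem_range]
      exact ⟨⟨hc, hcQ⟩, ⟨hq, hqQ⟩, (Nat.mod_lt a hq).trans_le hqQ⟩
    · rw [mem_filter]
      refine ⟨htS, ?_⟩
      rw [hbad]
      refine ⟨htN, fun hgood => hnot fun l hl => ?_⟩
      have g1 := hgood l hl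
      simp only [fB_mod] at g1
      obtain ⟨g2, g3, g4⟩ := EXP c q hc hcB hq hqB a t t ha (fun _ _ _ => Iff.rfl)
        (fun l hl _ h1 => no_common hct hl h1) (fun l hl _ h1 => no_common hat hl h1) ht1 (by omega) hev
      have hY : ∑ n ∈ Icc 1 N, fB c q a n * ro (yN κ N) (n + t) =
          (((Icc 1 (N / c)).filter (fun n => n.Prime ∧ (n ≡ a [MOD q] ∧ Ro (yN κ N) (c * n + t)))).card : ℝ) :=
        YB_eq hc (fun x => x + t) t (fun n _ => Iff.rfl)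
      rw [← hY] at g2
      obtain ⟨c1, c2⟩ := calcAp2 (T := TB N (zN ε₁ N) c q a t (l.1 :: l.2)) (c := ac l.1 l.2) (p := pif N (fB c q a) t)
        (e2 := ε / 4) (ε := ε) hx0.le hx1 g2 g4 g3 (ac_nonneg l.1 l.2) (hA l hl) (by positivity) (by linarith)
      split_ifs at g1 ⊢ with hl2
      · exact c1 g1
      · exact c2 g1
  have h1 : (S.card : ℝ) ≤ ∑ i ∈ (Icc 1 Q) ×ˢ (Icc 1 Q) ×ˢ (range Q), ((S.filter (bad i)).card : ℝ) := by
    have h2 := (card_le_card hsub).trans card_biUnion_le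
    exact_mod_cast h2
  refine h1.trans ?_
  have h3 : ∀ i ∈ (Icc 1 Q) ×ˢ (Icc 1 Q) ×ˢ (range Q), ((S.filter (bad i)).card : ℝ) ≤ (N : ℝ) ^ δ * Real.log N ^ C := by
    intro i _
    apply LAW (fB i.1 i.2.1 i.2.2) (fB_bd i.1 i.2.1 i.2.2)
    intro t ht
    rw [mem_filter, hbad] at ht
    exact ht.2
  refine (sum_le_sum h3).trans ?_
  rw [sum_const, card_product, card_product, Nat.card_Icc, card_range, Nat.add_sub_cancel, nsmul_eq_mul]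
  push_cast
  have h4 : (Q : ℝ) * (Q * Q) ≤ Real.log N ^ B * (Real.log N ^ B * Real.log N ^ B) := by gcongr
  calc (Q : ℝ) * (Q * Q) * ((N : ℝ) ^ δ * Real.log N ^ C) ≤
        Real.log N ^ B * (Real.log N ^ B * Real.log N ^ B) * ((N : ℝ) ^ δ * Real.log N ^ C) :=
        mul_le_mul_of_nonneg_right h4 (by positivity)
    _ = (N : ℝ) ^ δ * Real.log N ^ (C + 3 * B) := by
        rw [show C + 3 * B = C + (B + (B + B)) by ring, pow_add, pow_add, pow_add]; ring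

/-! ### the reflection -/

lemma refl_sum {N m : ℕ} (hm : N + 1 ≤ m) (f F : ℕ → ℝ) :
    ∑ x ∈ Icc 1 N, f (N + 1 - x) * F (x + (m - (N + 1))) = ∑ x ∈ Icc 1 N, f x * F (m - x) := by
  refine sum_nbij' (fun x => N + 1 - x) (fun x => N + 1 - x) ?_ ?_ ?_ ?_ ?_
  · intro x hx
    rw [mem_Icc] at hx ⊢
    omega
  · intro x hx
    rw [mem_Icc] at hx ⊢
    omega
  · intro x hx
    rw [mem_Icc] at hx
    omega
  · intro x hx
    rw [mem_Icc] at hx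
    omega
  · intro x hx
    rw [mem_Icc] at hx
    have e : m - (N + 1 - x) = x + (m - (N + 1)) := by omega
    rw [e]

/-- the mass of the `m - c p` -/
noncomputable def TG (N z c q a m : ℕ) (l : List ℕ) : ℝ := ∑ n ∈ Icc 1 N, fB c q a n * wM N z l (m - n)

/-- the number of the primes `m - c p` -/
noncomputable def pig (N c q a m : ℕ) : ℝ := ∑ n ∈ Icc 1 N, fB c q a n * (if (m - n).Prime then 1 else 0)

lemma refl_div {y m l : ℕ} (hl : l.Prime) (hly : l ≤ y) :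
    (l ∣ m * (∏ p ∈ pz y, p - 1) ↔ l ∣ m) ∧ l ∣ m + m * (∏ p ∈ pz y, p - 1) := by
  obtain ⟨M, hM⟩ : ∃ M : ℕ, M = ∏ p ∈ pz y, p := ⟨_, rfl⟩
  rw [← hM]
  have hlM : l ∣ M := by rw [hM]; exact dvd_prod_of_mem _ (mem_pz.2 ⟨hly, hl⟩)
  have hM1 : 1 ≤ M := by
    rw [hM]
    exact Nat.pos_of_ne_zero (prod_ne_zero_iff.2 fun p hp => (mem_pz.1 hp).2.ne_zero)
  obtain ⟨M', rfl⟩ : ∃ M', M = M' + 1 := ⟨M - 1, by omega⟩
  rw [Nat.add_sub_cancel]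
  have e : m + m * M' = m * (M' + 1) := by ring
  refine ⟨⟨fun h => ?_, fun h => h.mul_right M'⟩, by rw [e]; exact hlM.mul_left m⟩
  rcases (Nat.Prime.dvd_mul hl).1 h with h1 | h1
  · exact h1
  · have h2 := (Nat.dvd_add_right h1).1 hlM
    exact absurd (Nat.dvd_one.1 h2) hl.one_lt.ne'

lemma refl_ro {y m v : ℕ} (hv : v ≤ m) : Ro y (m - v) ↔ Ro y (v + m * (∏ p ∈ pz y, p - 1)) := by
  have h1 : ∀ l : ℕ, l.Prime → l ≤ y → (l ∣ m - v ↔ l ∣ v + m * (∏ p ∈ pz y, p - 1)) := by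
    intro l hl hly
    have h2 := (refl_div (m := m) hl hly).2
    have e : m + m * (∏ p ∈ pz y, p - 1) = (m - v) + (v + m * (∏ p ∈ pz y, p - 1)) := by omega
    rw [e] at h2
    exact ⟨fun h => (Nat.dvd_add_right h).1 h2, fun h => (Nat.dvd_add_left h).1 h2⟩
  exact ⟨fun h l hl hly hd => h l hl hly ((h1 l hl hly).2 hd), fun h l hl hly hd => h l hl hly ((h1 l hl hly).1 hd)⟩

/-- **the parity law for Goldbach's problem with slopes** -/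
theorem gb_law (𝓛 : Finset (ℕ × List ℕ)) (ε : ℝ) (hε : 0 < ε) (B : ℕ) : ∃ δ : ℝ, 1 / 2 ≤ δ ∧ δ < 1 ∧
    ∃ ε₁ : ℝ, 0 < ε₁ ∧ ε₁ ≤ 1 / 8 ∧ ε₁ ≤ ε ∧ ∃ C : ℕ, ∀ᶠ N : ℕ in atTop,
    ∀ S : Finset ℕ, (∀ m ∈ S, (N + 1 ≤ m ∧ m ≤ 2 * N) ∧ ∃ c q a : ℕ, (1 ≤ c ∧ (c : ℝ) ≤ Real.log N ^ B) ∧
      (1 ≤ q ∧ (q : ℝ) ≤ Real.log N ^ B) ∧
      Nat.Coprime a q ∧ Nat.Coprime c m ∧ Int.gcd ((m : ℤ) - c * a) q = 1 ∧ Even (c * m) ∧
      ¬ ∀ l ∈ 𝓛, |TG N (zN ε₁ N) c q a m (l.1 :: l.2) -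
          ac l.1 l.2 * (if Even l.2.length then pig N c q a m else 2 * EB N c m q - pig N c q a m)| ≤
            ε * EB N c m q) →
      (S.card : ℝ) ≤ (N : ℝ) ^ δ * Real.log N ^ C := by
  classical
  obtain ⟨A, hA1, hA⟩ := uni_A 𝓛
  have hA0 : 0 < A := by linarith
  obtain ⟨δ, hδ1, hδ2, ε₁, hε₁0, hε₁8, hε₁ε, κ, hκ, hκ1, C, LAW⟩ := law2 𝓛 (ε / 4) (by positivity) (2 * B + 3)
  obtain ⟨x, hx⟩ : ∃ x : ℝ, x = min 1 (ε / (2 * (1 + 2 * A))) := ⟨_, rfl⟩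
  have hx0 : 0 < x := by rw [hx]; positivity
  have hx1 : x ≤ 1 := by rw [hx]; exact min_le_left _ _
  have hxε : x * (1 + 2 * A) ≤ ε / 2 := by
    have h1 : x ≤ ε / (2 * (1 + 2 * A)) := by rw [hx]; exact min_le_right _ _
    calc x * (1 + 2 * A) ≤ ε / (2 * (1 + 2 * A)) * (1 + 2 * A) := mul_le_mul_of_nonneg_right h1 (by positivity)
      _ = ε / 2 := by field_simp
  refine ⟨δ, hδ1, hδ2, ε₁, hε₁0, hε₁8, by linarith, C + 3 * B, ?_⟩
  filter_upwards [LAW, sl_exp κ hκ hκ1 B x hx0 hx1, ev_logN (eventually_ge_atTop (1 : ℝ)), eventually_ge_atTop 3]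
    with N LAW EXP hL1 hN S hS
  have hN0 : (0 : ℝ) < N := by positivity
  have hLB0 : 0 ≤ Real.log N ^ B := by positivity
  obtain ⟨Q, hQ⟩ : ∃ Q : ℕ, Q = ⌊Real.log N ^ B⌋₊ := ⟨_, rfl⟩
  have hQL : (Q : ℝ) ≤ Real.log N ^ B := by rw [hQ]; exact Nat.floor_le hLB0
  obtain ⟨ff, hff⟩ : ∃ ff : ℕ × ℕ × ℕ → ℕ → ℝ, ff = fun i x => fB i.1 i.2.1 i.2.2 (N + 1 - x) := ⟨_, rfl⟩
  obtain ⟨bad, hbad⟩ : ∃ bad : ℕ × ℕ × ℕ → ℕ → Prop, bad = fun i t => t ≤ N ∧ ¬ ∀ l ∈ 𝓛,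
      |∑ n ∈ Icc 1 N, ff i n * wM N (zN ε₁ N) (l.1 :: l.2) (n + t) -
          ac l.1 l.2 * (if Even l.2.length then pif N (ff i) t else
            2 * ((∑ n ∈ Icc 1 N, ff i n * ro (yN κ N) (n + t)) / (Real.log N * Vz (yN κ N))) - pif N (ff i) t)| ≤
        ε / 4 * ((∑ n ∈ Icc 1 N, ff i n * ro (yN κ N) (n + t)) / (Real.log N * Vz (yN κ N))) +
          N / Real.log N ^ (2 * B + 3) := ⟨_, rfl⟩
  obtain ⟨S', hS'⟩ : ∃ S' : Finset ℕ, S' = S.image (fun m => m - (N + 1)) := ⟨_, rfl⟩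
  have hcardS : S'.card = S.card := by
    rw [hS']
    apply card_image_of_injOn
    intro m hm m' hm' h
    have h1 := (hS m hm).1
    have h2 := (hS m' hm').1
    have h3 : m - (N + 1) = m' - (N + 1) := h
    omega
  rw [← hcardS]
  have hsub : S' ⊆ ((Icc 1 Q) ×ˢ (Icc 1 Q) ×ˢ (range Q)).biUnion (fun i => S'.filter (bad i)) := by
    intro t htS'
    have htS := htS'
    rw [hS', mem_image] at htS
    obtain ⟨m, hmS, rfl⟩ := htS
    obtain ⟨⟨hm1, hmN⟩, c, q, a, ⟨hc, hcB⟩, ⟨hq, hqB⟩, ha, hct, hat, hev, hnot⟩ := hS m hmS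
    rw [mem_biUnion]
    have hcQ : c ≤ Q := by rw [hQ]; exact Nat.le_floor hcB
    have hqQ : q ≤ Q := by rw [hQ]; exact Nat.le_floor hqB
    refine ⟨(c, q, a % q), ?_, ?_⟩
    · rw [mem_product, mem_product, mem_Icc, mem_Icc, mem_range]
      exact ⟨⟨hc, hcQ⟩, ⟨hq, hqQ⟩, (Nat.mod_lt a hq).trans_le hqQ⟩
    · rw [mem_filter]
      refine ⟨htS', ?_⟩
      rw [hbad]
      refine ⟨by omega, fun hgood => hnot fun l hl => ?_⟩
      have g1 := hgood l hl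
      obtain ⟨h, hh⟩ : ∃ h : ℕ, h = m * (∏ p ∈ pz (yN κ N), p - 1) := ⟨_, rfl⟩
      obtain ⟨g2, g3, g4⟩ := EXP c q hc hcB hq hqB a h m ha (fun l hl hly => by rw [hh]; exact (refl_div hl hly).1)
        (fun l hl hly h1 => by rw [hh, (refl_div hl hly).1]; exact no_common hct hl h1) (fun l hl hly h1 h2 => by
          have h3 := (refl_div (m := m) hl hly).2
          rw [← hh] at h3
          have h4 : (l : ℤ) ∣ (m : ℤ) - c * a := by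
            have h5 : (l : ℤ) ∣ ((m + h : ℕ) : ℤ) - ((c * a + h : ℕ) : ℤ) :=
              dvd_sub (Int.natCast_dvd_natCast.2 h3) (Int.natCast_dvd_natCast.2 h2)
            have e : ((m + h : ℕ) : ℤ) - ((c * a + h : ℕ) : ℤ) = (m : ℤ) - c * a := by push_cast; ring
            rwa [e] at h5
          have h6 := Int.dvd_gcd h4 (Int.natCast_dvd_natCast.2 h1)
          rw [hat] at h6
          exact hl.one_lt.ne' (Nat.dvd_one.1 (by exact_mod_cast h6))) (by omega) hmN hev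
      have hY : ∑ n ∈ Icc 1 N, fB c q a n * ro (yN κ N) (m - n) =
          (((Icc 1 (N / c)).filter (fun n => n.Prime ∧ (n ≡ a [MOD q] ∧ Ro (yN κ N) (c * n + h)))).card : ℝ) := by
        refine YB_eq hc (fun x => m - x) h (fun n hn => ?_)
        rw [hh]
        apply refl_ro
        rw [Nat.le_div_iff_mul_le hc, mul_comm] at hn
        omega
      rw [← hY] at g2
      have r1 : ∀ F : ℕ → ℝ, ∑ n ∈ Icc 1 N, ff (c, q, a % q) n * F (n + (m - (N + 1))) =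
          ∑ n ∈ Icc 1 N, fB c q a n * F (m - n) := by
        intro F
        rw [← refl_sum hm1 (fB c q a) F]
        refine sum_congr rfl fun n _ => ?_
        rw [hff]
        simp only [fB_mod]
      have r2 : pif N (ff (c, q, a % q)) (m - (N + 1)) = pig N c q a m := by
        unfold pif pig
        exact r1 (fun v => if v.Prime then 1 else 0)
      rw [r1, r1, r2] at g1
      obtain ⟨c1, c2⟩ := calcAp2 (T := TG N (zN ε₁ N) c q a m (l.1 :: l.2)) (c := ac l.1 l.2) (p := pig N c q a m)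
        (e2 := ε / 4) (ε := ε) hx0.le hx1 g2 g4 g3 (ac_nonneg l.1 l.2) (hA l hl) (by positivity) (by linarith)
      split_ifs at g1 ⊢ with hl2
      · exact c1 g1
      · exact c2 g1
  have h1 : (S'.card : ℝ) ≤ ∑ i ∈ (Icc 1 Q) ×ˢ (Icc 1 Q) ×ˢ (range Q), ((S'.filter (bad i)).card : ℝ) := by
    have h2 := (card_le_card hsub).trans card_biUnion_le
    exact_mod_cast h2
  refine h1.trans ?_
  have h3 : ∀ i ∈ (Icc 1 Q) ×ˢ (Icc 1 Q) ×ˢ (range Q), ((S'.filter (bad i)).card : ℝ) ≤ (N : ℝ) ^ δ * Real.log N ^ C := by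
    intro i _
    apply LAW (ff i) (fun n => by rw [hff]; exact fB_bd i.1 i.2.1 i.2.2 _)
    intro t ht
    rw [mem_filter, hbad] at ht
    exact ht.2
  refine (sum_le_sum h3).trans ?_
  rw [sum_const, card_product, card_product, Nat.card_Icc, card_range, Nat.add_sub_cancel, nsmul_eq_mul]
  push_cast
  have h4 : (Q : ℝ) * (Q * Q) ≤ Real.log N ^ B * (Real.log N ^ B * Real.log N ^ B) := by gcongr
  calc (Q : ℝ) * (Q * Q) * ((N : ℝ) ^ δ * Real.log N ^ C) ≤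
        Real.log N ^ B * (Real.log N ^ B * Real.log N ^ B) * ((N : ℝ) ^ δ * Real.log N ^ C) :=
        mul_le_mul_of_nonneg_right h4 (by positivity)
    _ = (N : ℝ) ^ δ * Real.log N ^ (C + 3 * B) := by
        rw [show C + 3 * B = C + (B + (B + B)) by ring, pow_add, pow_add, pow_add]; ring

end Pool.Agent.H528.Ap
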