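import Mathlib
import Pool.Agent.H528.ApJ

/-! Primes `p ≡ n mod m` with `(n - p) / m` rough. -/

set_option autoImplicit false

namespace Pool.Agent.H528.Ap

open Finset Filter
open Pool.Agent.Y822
open Pool.Agent.Y822.Q (Vz_pos)
open Pool.Agent.Y822.Par3
open Pool.Agent.H373R2.T7 (pz Vz mem_pz)
open Pool.Agent.H387R2.Uni (nuT Adm locT CT)
open Pool.Agent.H528.Avg (ro_of)
open Pool.Agent.H528.UG (wM lg pif law2 uni_A)
open Pool.Agent.H528.Mn (ac nn ac_nonneg)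

/-- **the expected number**, from the count of the numbers without small factors -/
theorem exp_of_cnt (κ : ℝ) (hκ : 0 < κ) (hκ1 : κ ≤ 1) (B : ℕ) (x : ℝ) (hx : 0 < x) (hx1 : x ≤ 1) : ∃ x1 : ℝ, 0 < x1 ∧ x1 ≤ 1 ∧
    ∀ᶠ N : ℕ in atTop,
    ∀ c q g : ℕ, 1 ≤ c → (c : ℝ) ≤ Real.log N ^ B → 1 ≤ q → (q : ℝ) ≤ Real.log N ^ B →
      1 ≤ g → g ≤ 2 * N → Even (c * g) → ∀ Y : ℝ,
      |Y - N / c / (Nat.totient q : ℝ) * (∏ p ∈ pq q (yN κ N), (1 - gp (c * g) p)) / Real.log N| ≤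
        x1 * (N / c / (Nat.totient q : ℝ) * (∏ p ∈ pq q (yN κ N), (1 - gp (c * g) p)) / Real.log N) +
          N / Real.log N ^ (2 * B + 3) →
      |Y / (Real.log N * Vz (yN κ N)) - EB N c g q| ≤ x * EB N c g q ∧
      N / Real.log N ^ (2 * B + 3) ≤ x * EB N c g q ∧ 0 ≤ EB N c g q := by
  classical
  obtain ⟨_, _, cz, hcz, hcz1, VZ, _⟩ := ComB.comB
  obtain ⟨c0, hc0, LOW⟩ := PT_low 1
  obtain ⟨x1, hx1'⟩ : ∃ x1 : ℝ, x1 = x / 8 := ⟨_, rfl⟩
  have hx10 : 0 < x1 := by rw [hx1']; positivity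
  have hx11 : x1 ≤ 1 := by rw [hx1']; linarith
  have e1 := ev_logN (eventually_ge_atTop (max 1 (2 / (cz * x * c0))))
  have e2 := ev_logN (ev_pow_exp B 1 2 (by norm_num))
  refine ⟨x1, hx10, hx11, ?_⟩
  filter_upwards [PT_CT2 1 κ hκ hκ1 x1 hx10 hx11, e1, e2, eventually_ge_atTop 3,
    yN_facts κ hκ hκ1 (max B 3) 1] with N PTCT f1 f2 hN hyf c q g hc hcB hq hqB hg1 hgN hev Y CNT
  obtain ⟨y1, y2, y3, y4, y5⟩ := hyf
  rw [pow_one] at y4
  obtain ⟨y, hyd⟩ : ∃ y : ℕ, y = yN κ N := ⟨_, rfl⟩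
  rw [← hyd] at y3 y4 y5 CNT PTCT ⊢
  obtain ⟨L, hL⟩ : ∃ L : ℝ, L = Real.log N := ⟨_, rfl⟩
  rw [← hL] at f1 f2 y3 hqB hcB CNT ⊢
  have hL1 : 1 ≤ L := (le_max_left _ _).trans f1
  have hL2 : 2 / (cz * x * c0) ≤ L := (le_max_right _ _).trans f1
  have hL0 : 0 < L := by linarith
  have hN0 : (0 : ℝ) < N := by positivity
  have hNe : (N : ℝ) = Real.exp L := by rw [hL, Real.exp_log hN0]
  rw [one_mul, ← hNe] at f2
  have hc0' : (0 : ℝ) < c := by exact_mod_cast hc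
  have hcg : c * g ≤ N ^ 2 := by
    have h1 : 2 * c ≤ N := by
      have h2 : (2 : ℝ) * c ≤ N := by linarith
      exact_mod_cast h2
    calc c * g ≤ c * (2 * N) := Nat.mul_le_mul_left c hgN
      _ = (2 * c) * N := by ring
      _ ≤ N * N := Nat.mul_le_mul_right N h1
      _ = N ^ 2 := by ring
  have hcg1 : 1 ≤ c * g := Nat.mul_pos hc hg1
  have hy3 : 3 ≤ y := (le_max_right B 3).trans y5
  have hqy : q ≤ y := by
    have h1 : (q : ℝ) ≤ y := hqB.trans ((pow_le_pow_right₀ hL1 (le_max_left B 3)).trans y3)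
    exact_mod_cast h1
  have hVy : 0 < Vz y := Vz_pos y
  have hVlow : cz ≤ L * Vz y := by
    have hy0 : (0 : ℝ) < y := by exact_mod_cast (by omega : 0 < y)
    have hyN : Real.log y ≤ L := by
      rw [hL]
      exact Real.log_le_log hy0 (by exact_mod_cast y4)
    have hly : 0 < Real.log y := Real.log_pos (by exact_mod_cast (by omega : 1 < y))
    have h1 := (div_le_div_of_nonneg_left hcz.le hly hyN).trans (VZ y hy3)
    rw [div_le_iff₀ hL0] at h1
    linarith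
  obtain ⟨hφ0, hφq⟩ := phiT_bd_even (t := c * g) hq hev
  have hcard : ({0, c * g} : Finset ℕ).card = 1 + 1 := by rw [card_pair (by omega : 0 ≠ c * g)]
  obtain ⟨p1, p2⟩ := PTCT {0, c * g} hcard (by
    intro h hh
    rw [mem_insert, mem_singleton] at hh
    rcases hh with rfl | rfl
    · exact Nat.zero_le _
    · exact hcg)
  have hCT := (LOW {0, c * g} hcard (adm_pair hev)).2
  have hCT0 : 0 < CT {0, c * g} := lt_of_lt_of_le hc0 hCT
  have hE0 : 0 ≤ EB N c g q := by unfold EB; positivity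
  have hElow : c0 * (N / L ^ (2 * B + 2)) ≤ EB N c g q := by
    unfold EB
    rw [← hL]
    have h1 : phiT (c * g) q ≤ L ^ B := hφq.trans hqB
    calc c0 * (N / L ^ (2 * B + 2)) = c0 / L ^ B * (N / L ^ B / L ^ 2) := by
          rw [show 2 * B + 2 = B + B + 2 by ring, pow_add, pow_add]; field_simp
      _ ≤ CT {0, c * g} / phiT (c * g) q * (N / c / L ^ 2) := by
          apply mul_le_mul (div_le_div₀ hCT0.le hCT hφ0 h1) _ (by positivity) (by positivity)
          apply div_le_div_of_nonneg_right _ (by positivity)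
          exact div_le_div_of_nonneg_left hN0.le hc0' hcB
  have e9 : (N : ℝ) / L ^ (2 * B + 3) = N / L ^ (2 * B + 2) / L := by rw [pow_succ L (2 * B + 2)]; field_simp
  have hsm : (N : ℝ) / L ^ (2 * B + 3) / cz ≤ x / 2 * EB N c g q := by
    have h1 : x / 2 * (c0 * (N / L ^ (2 * B + 2))) ≤ x / 2 * EB N c g q := mul_le_mul_of_nonneg_left hElow (by positivity)
    refine le_trans ?_ h1
    rw [e9]
    have h2 : 1 / (L * cz) ≤ x / 2 * c0 := by
      rw [div_le_iff₀ (by positivity)] at hL2 ⊢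
      linarith
    calc (N : ℝ) / L ^ (2 * B + 2) / L / cz = 1 / (L * cz) * (N / L ^ (2 * B + 2)) := by field_simp
      _ ≤ x / 2 * c0 * (N / L ^ (2 * B + 2)) := mul_le_mul_of_nonneg_right h2 (by positivity)
      _ = _ := by ring
  refine ⟨?_, ?_, hE0⟩
  · have hid := const_even hcg1 hq hqy hev
    have hφq0 : (0 : ℝ) < (Nat.totient q : ℝ) := by exact_mod_cast Nat.totient_pos.2 hq
    obtain ⟨Ey, hEy⟩ : ∃ Ey : ℝ, Ey = PT {0, c * g} y / phiT (c * g) q * (N / c / L ^ 2) := ⟨_, rfl⟩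
    have hEyK : Ey * (L * Vz y) = N / c / (Nat.totient q : ℝ) * (∏ p ∈ pq q y, (1 - gp (c * g) p)) / L := by
      rw [hEy, ← hid]
      field_simp
    rw [← hEyK] at CNT
    have hEy0 : 0 ≤ Ey := by
      rw [hEy]
      have := PT_nonneg {0, c * g} y
      positivity
    refine calcAp (s := _) (x1 := x1) (Ey := Ey) (D := N / L ^ (2 * B + 3)) (cz := cz) hx10 hx11 (by rw [hx1']; ring) rfl
      (by positivity) hEy0 hE0 CNT hVlow hcz (by positivity) ?_ ?_ hsm
    · rw [hEy]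
      unfold EB
      rw [← hL]
      calc PT {0, c * g} y / phiT (c * g) q * (N / c / L ^ 2) ≤
          ((1 + x1) * CT {0, c * g}) / phiT (c * g) q * (N / c / L ^ 2) := by
            apply mul_le_mul_of_nonneg_right _ (by positivity)
            exact div_le_div_of_nonneg_right p1 hφ0.le
        _ = _ := by ring
    · rw [hEy]
      unfold EB
      rw [← hL]
      calc CT {0, c * g} / phiT (c * g) q * (N / c / L ^ 2) ≤
          ((1 + x1) * PT {0, c * g} y) / phiT (c * g) q * (N / c / L ^ 2) := by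
            apply mul_le_mul_of_nonneg_right _ (by positivity)
            exact div_le_div_of_nonneg_right p2 hφ0.le
        _ = _ := by ring
  · have h1 : (N : ℝ) / L ^ (2 * B + 3) ≤ N / L ^ (2 * B + 3) / cz := by
      rw [le_div_iff₀ hcz]
      exact mul_le_of_le_one_right (by positivity) hcz1
    have h2 : x / 2 * EB N c g q ≤ x * EB N c g q := mul_le_mul_of_nonneg_right (by linarith) hE0
    linarith


lemma fl_iff {N m n v0 y p : ℕ} (hm : 1 ≤ m) (hmN : m * m ≤ N) (hn : N < n) (hv : v0 < m) (hvm : Nat.Coprime v0 m) (hmy : m ≤ y)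
    (hp : p ≤ N) :
    ((p ≡ n [MOD m] ∧ Ro y ((n - p) / m)) ∧ (n - p) / m % m = v0) ↔
      (p ≡ n - m * v0 [MOD m * m] ∧ ∀ l ∈ pq (m * m) y, ¬ l ∣ p + n * (∏ p ∈ pz y, p - 1)) := by
  have hmv : m * v0 ≤ n := by
    calc m * v0 ≤ m * m := Nat.mul_le_mul_left m hv.le
      _ ≤ n := by omega
  have hpn : p ≤ n := by omega
  have hl : ∀ l : ℕ, l.Prime → l ≤ y → (l ∣ n - p ↔ l ∣ p + n * (∏ p ∈ pz y, p - 1)) := by
    intro l hl hly
    have h2 := (refl_div (m := n) hl hly).2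
    have e : n + n * (∏ p ∈ pz y, p - 1) = (n - p) + (p + n * (∏ p ∈ pz y, p - 1)) := by omega
    rw [e] at h2
    exact ⟨fun h => (Nat.dvd_add_right h).1 h2, fun h => (Nat.dvd_add_left h).1 h2⟩
  constructor
  · rintro ⟨⟨h1, h2⟩, h3⟩
    have h4 : m ∣ n - p := (Nat.modEq_iff_dvd' hpn).1 h1
    obtain ⟨v, hvv⟩ := h4
    rw [hvv, Nat.mul_div_cancel_left v hm] at h2 h3
    refine ⟨?_, fun l hlq hd => ?_⟩
    · have h5 : v ≡ v0 [MOD m] := by
        unfold Nat.ModEq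
        rw [h3, Nat.mod_eq_of_lt hv]
      have h6 : m * v ≡ m * v0 [MOD m * m] := Nat.ModEq.mul_left' m h5
      have h7 : p + m * v0 ≡ (n - m * v0) + m * v0 [MOD m * m] := by
        have e1 : (n - m * v0) + m * v0 = p + m * v := by omega
        rw [e1]
        exact (Nat.ModEq.add_left p h6).symm
      exact Nat.ModEq.add_right_cancel' _ h7
    · rw [mem_pq] at hlq
      have h5 := (hl l hlq.1.2 hlq.1.1).2 hd
      rw [hvv] at h5
      rcases (Nat.Prime.dvd_mul hlq.1.2).1 h5 with h6 | h6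
      · exact hlq.2 (h6.mul_right m)
      · exact h2 l hlq.1.2 hlq.1.1 h6
  · rintro ⟨h1, h2⟩
    have h3 : p ≡ n [MOD m] := by
      have h4 : p ≡ n - m * v0 [MOD m] := h1.of_dvd (Nat.dvd_mul_left m m)
      have h5 : n - m * v0 ≡ n [MOD m] := by
        refine (Nat.modEq_iff_dvd' (by omega)).2 ?_
        have e : n - (n - m * v0) = m * v0 := by omega
        rw [e]
        exact Nat.dvd_mul_right m v0
      exact h4.trans h5
    have h4 : m ∣ n - p := (Nat.modEq_iff_dvd' hpn).1 h3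
    obtain ⟨v, hvv⟩ := h4
    rw [hvv, Nat.mul_div_cancel_left v hm]
    have h5 : m * v ≡ m * v0 [MOD m * m] := by
      have h6 : p + m * v0 ≡ p + m * v [MOD m * m] := by
        have e1 : p + m * v = (n - m * v0) + m * v0 := by omega
        rw [e1]
        exact Nat.ModEq.add_right _ h1
      exact (Nat.ModEq.add_left_cancel' p h6).symm
    have h6 : v ≡ v0 [MOD m] := Nat.ModEq.mul_left_cancel' (by omega) h5
    refine ⟨⟨h3, fun l hlp hly hd => ?_⟩, ?_⟩
    · by_cases h7 : l ∣ m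
      · have h8 : l ∣ v0 := (Nat.modEq_zero_iff_dvd).1 ((h6.of_dvd h7).symm.trans ((Nat.modEq_zero_iff_dvd).2 hd))
        exact no_common hvm hlp h8 h7
      · have h8 : ¬ l ∣ m * m := fun h => by
          rcases (Nat.Prime.dvd_mul hlp).1 h with h | h <;> exact h7 h
        apply h2 l (mem_pq.2 ⟨⟨hly, hlp⟩, h8⟩)
        rw [← hl l hlp hly, hvv]
        exact hd.mul_left m
    · have h7 : v % m = v0 % m := h6
      rw [h7, Nat.mod_eq_of_lt hv]

open Classical in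
lemma fl_card {N m n y : ℕ} (hm : 1 ≤ m) (hmN : m * m ≤ N) (hn : N < n) (hmy : m ≤ y) :
    (((Icc 1 N).filter (fun p => p.Prime ∧ (p ≡ n [MOD m] ∧ Ro y ((n - p) / m)))).card : ℕ) =
      ∑ v0 ∈ (range m).filter (fun v => Nat.Coprime v m), ((Icc 1 N).filter (fun p => p.Prime ∧
        (p ≡ n - m * v0 [MOD m * m] ∧ ∀ l ∈ pq (m * m) y, ¬ l ∣ p + n * (∏ p ∈ pz y, p - 1)))).card := by
  have H : ∀ p ∈ (Icc 1 N).filter (fun p => p.Prime ∧ (p ≡ n [MOD m] ∧ Ro y ((n - p) / m))),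
      (n - p) / m % m ∈ (range m).filter (fun v => Nat.Coprime v m) := by
    intro p hp
    rw [mem_filter] at hp
    rw [mem_filter, mem_range]
    refine ⟨Nat.mod_lt _ hm, ?_⟩
    by_contra h
    obtain ⟨l, hl, h1, h2⟩ := Nat.Prime.not_coprime_iff_dvd.1 h
    refine hp.2.2.2 l hl ((Nat.le_of_dvd hm h2).trans hmy) ?_
    exact (Nat.dvd_mod_iff h2).1 h1
  rw [card_eq_sum_card_fiberwise H]
  refine sum_congr rfl fun v0 hv0 => ?_
  rw [mem_filter, mem_range] at hv0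
  congr 1
  ext p
  rw [mem_filter, mem_filter, mem_filter, mem_Icc]
  constructor
  · rintro ⟨⟨h1, h2, h3⟩, h4⟩
    exact ⟨h1, h2, (fl_iff hm hmN hn hv0.1 hv0.2 hmy h1.2).1 ⟨h3, h4⟩⟩
  · rintro ⟨h1, h2, h3⟩
    obtain ⟨h4, h5⟩ := (fl_iff hm hmN hn hv0.1 hv0.2 hmy h1.2).2 h3
    exact ⟨⟨h1, h2, h4⟩, h5⟩

lemma fl_prod {m n y : ℕ} :
    ∏ p ∈ pq (m * m) y, (1 - gp (n * (∏ p ∈ pz y, p - 1)) p) = ∏ p ∈ pq 1 y, (1 - gp (m * n) p) := by
  have h1 : ∏ p ∈ pq (m * m) y, (1 - gp (n * (∏ p ∈ pz y, p - 1)) p) = ∏ p ∈ pq (m * m) y, (1 - gp (m * n) p) := by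
    refine prod_congr rfl fun p hp => ?_
    rw [mem_pq] at hp
    have h2 : p ∣ n * (∏ p ∈ pz y, p - 1) ↔ p ∣ m * n := by
      rw [(refl_div hp.1.2 hp.1.1).1, Nat.Prime.dvd_mul hp.1.2]
      exact ⟨fun h => Or.inr h, fun h => h.resolve_left fun h3 => hp.2 (h3.mul_right m)⟩
    unfold gp
    simp only [h2]
  rw [h1]
  apply prod_subset
  · intro p hp
    rw [mem_pq] at hp ⊢
    exact ⟨hp.1, fun h => hp.1.2.one_lt.ne' (Nat.dvd_one.1 h)⟩
  · intro p hp hp'
    rw [mem_pq] at hp hp'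
    have h2 : p ∣ m * m := by
      by_contra h3
      exact hp' ⟨hp.1, h3⟩
    have h3 : p ∣ m * n := by
      rcases (Nat.Prime.dvd_mul hp.1.2).1 h2 with h | h <;> exact h.mul_right n
    unfold gp
    rw [if_pos h3, sub_zero]

open Classical in
/-- **the count** -/
theorem fl_cnt (κ : ℝ) (hκ : 0 < κ) (hκ1 : κ ≤ 1) (B U : ℕ) (ε : ℝ) (hε : 0 < ε) (hε1 : ε ≤ 1) : ∀ᶠ N : ℕ in atTop,
    ∀ m : ℕ, 1 ≤ m → (m : ℝ) ≤ Real.log N ^ B → ∀ n : ℕ, N < n → Nat.Coprime n m →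
      |(((Icc 1 N).filter (fun p => p.Prime ∧ (p ≡ n [MOD m] ∧ Ro (yN κ N) ((n - p) / m)))).card : ℝ) -
        N / m / (Nat.totient 1 : ℝ) * (∏ p ∈ pq 1 (yN κ N), (1 - gp (m * n) p)) / Real.log N| ≤
      ε * (N / m / (Nat.totient 1 : ℝ) * (∏ p ∈ pq 1 (yN κ N), (1 - gp (m * n) p)) / Real.log N) + N / Real.log N ^ U := by
  have e2 := ev_logN (ev_pow_exp (2 * B) 1 1 (by norm_num))
  filter_upwards [ap_cnt κ hκ hκ1 (2 * B) (U + B) ε hε hε1, e2, ev_logN (eventually_ge_atTop (1 : ℝ)), eventually_ge_atTop 3,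
    yN_facts κ hκ hκ1 B 1] with N CNT f2 hL1 hN hyf m hm hmB n hn hnm
  obtain ⟨y1, y2, y3, y4, y5⟩ := hyf
  obtain ⟨y, hyd⟩ : ∃ y : ℕ, y = yN κ N := ⟨_, rfl⟩
  rw [← hyd] at y3 CNT ⊢
  obtain ⟨L, hL⟩ : ∃ L : ℝ, L = Real.log N := ⟨_, rfl⟩
  rw [← hL] at f2 y3 hmB hL1 CNT ⊢
  have hL0 : 0 < L := by linarith
  have hN0 : (0 : ℝ) < N := by positivity
  have hNe : (N : ℝ) = Real.exp L := by rw [hL, Real.exp_log hN0]
  rw [one_mul, one_mul, ← hNe] at f2
  have hmm : (m : ℝ) * m ≤ L ^ (2 * B) := by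
    rw [two_mul, pow_add]
    exact mul_le_mul hmB hmB (Nat.cast_nonneg _) (by positivity)
  have hmN : m * m ≤ N := by exact_mod_cast hmm.trans f2
  have hmy : m ≤ y := by exact_mod_cast hmB.trans y3
  rw [fl_card hm hmN hn hmy]
  push_cast
  have hm0 : (0 : ℝ) < m := by exact_mod_cast hm
  have hφ : 0 < (Nat.totient m : ℝ) := by exact_mod_cast Nat.totient_pos.2 hm
  have hφm : (Nat.totient m : ℝ) ≤ L ^ B := by
    refine le_trans ?_ hmB
    exact_mod_cast Nat.totient_le m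
  have hφ2 : (Nat.totient (m * m) : ℝ) = m * Nat.totient m := by
    have h1 := Nat.totient_gcd_mul_totient_mul m m
    rw [Nat.gcd_self, mul_assoc] at h1
    have h2 := Nat.eq_of_mul_eq_mul_left (Nat.totient_pos.2 hm) h1
    rw [h2]
    push_cast
    ring
  obtain ⟨P, hP⟩ : ∃ P : ℝ, P = ∏ p ∈ pq 1 y, (1 - gp (m * n) p) := ⟨_, rfl⟩
  have hP0 : 0 ≤ P := by
    rw [hP]
    refine prod_nonneg fun p hp => ?_
    rw [mem_pq] at hp
    have := gp_le_one (t := m * n) hp.1.2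
    linarith
  have hcard : ((range m).filter (fun v => Nat.Coprime v m)).card = Nat.totient m := by
    rw [Nat.totient]
    congr 1
    exact filter_congr fun v _ => Nat.coprime_comm
  have hterm : ∀ v0 ∈ (range m).filter (fun v => Nat.Coprime v m),
      |(((Icc 1 N).filter (fun p => p.Prime ∧
        (p ≡ n - m * v0 [MOD m * m] ∧ ∀ l ∈ pq (m * m) y, ¬ l ∣ p + n * (∏ p ∈ pz y, p - 1)))).card : ℝ) -
          N / (m * Nat.totient m) * P / L| ≤ ε * (N / (m * Nat.totient m) * P / L) + N / L ^ (U + B) := by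
    intro v0 hv0
    rw [mem_filter, mem_range] at hv0
    have hmv : m * v0 ≤ n := by
      calc m * v0 ≤ m * m := Nat.mul_le_mul_left m hv0.1.le
        _ ≤ n := by omega
    have hcop : Nat.Coprime (n - m * v0) (m * m) := by
      rw [Nat.coprime_mul_iff_right]
      have h1 : Nat.Coprime (n - m * v0) m := by
        have h2 : n = (n - m * v0) + m * v0 := by omega
        rw [h2] at hnm
        rwa [Nat.coprime_add_mul_left_left] at hnm
      exact ⟨h1, h1⟩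
    have h1 := CNT (m * m) (Nat.mul_pos hm hm) (by push_cast; exact hmm) (n - m * v0) (n * (∏ p ∈ pz y, p - 1)) hcop
    rw [fl_prod (m := m) (n := n), ← hP, hφ2] at h1
    exact h1
  rw [← hP, Nat.totient_one, Nat.cast_one, div_one]
  have hsum : (N : ℝ) / m * P / L = ∑ _v0 ∈ (range m).filter (fun v => Nat.Coprime v m), N / (m * Nat.totient m) * P / L := by
    rw [sum_const, hcard, nsmul_eq_mul]
    field_simp
  rw [hsum, ← sum_sub_distrib]
  refine (abs_sum_le_sum_abs _ _).trans ((sum_le_sum hterm).trans ?_)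
  rw [sum_add_distrib, ← mul_sum]
  apply add_le_add le_rfl
  rw [sum_const, hcard, nsmul_eq_mul]
  calc (Nat.totient m : ℝ) * (N / L ^ (U + B)) ≤ L ^ B * (N / L ^ (U + B)) := mul_le_mul_of_nonneg_right hφm (by positivity)
    _ = N / L ^ U := by rw [pow_add]; field_simp

end Pool.Agent.H528.Ap
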