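import Mathlib
import Pool.Agent.H528.ApK

/-! The parity law for `(n - p) / m`. -/

set_option autoImplicit false

namespace Pool.Agent.H528.Ap

open Finset Filter
open Pool.Agent.Y822
open Pool.Agent.Y822.Q (Vz_pos)
open Pool.Agent.Y822.Par3
open Pool.Agent.H373R2.T7 (pz Vz mem_pz)
open Pool.Agent.H387R2.Uni (nuT Adm locT CT)
open Pool.Agent.H528.Avg (ro_of)
open Pool.Agent.H528.UG (wM lg pif law2 uni_A)
open Pool.Agent.H528.Mn (ac nn ac_nonneg)

open Classical in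
/-- the primes `p ≤ N`, `p ≡ n mod m` -/
noncomputable def PF (N m n : ℕ) : Finset ℕ := (Icc 1 N).filter (fun p => p.Prime ∧ p ≡ n [MOD m])

/-- the mass of the `(n - p) / m` -/
noncomputable def TF (N z m n : ℕ) (l : List ℕ) : ℝ := ∑ p ∈ PF N m n, wM N z l ((n - p) / m)

/-- the number of the primes `(n - p) / m` -/
noncomputable def piF (N m n : ℕ) : ℝ := ∑ p ∈ PF N m n, (if ((n - p) / m).Prime then 1 else 0)

open Classical in
/-- the indicator -/
noncomputable def fF (N m s x : ℕ) : ℝ :=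
  if x ≤ N / m + 1 ∧ (m * (N / m + 1 - x) + s).Prime ∧ m * (N / m + 1 - x) + s ≤ N then 1 else 0

lemma fF_bd (N m s n : ℕ) : 0 ≤ fF N m s n ∧ fF N m s n ≤ 1 := by
  unfold fF; split_ifs <;> norm_num

lemma refl_fF {N m n : ℕ} (hm : 2 ≤ m) (hN : 2 ≤ N) (hn : N / m + 1 ≤ n / m) (F : ℕ → ℝ) :
    ∑ x ∈ Icc 1 N, fF N m (n % m) x * F (x + (n / m - (N / m + 1))) = ∑ p ∈ PF N m n, F ((n - p) / m) := by
  classical
  have hm0 : 0 < m := by omega
  have hK : N / m + 1 ≤ N := by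
    have h1 : N / m ≤ N / 2 := Nat.div_le_div_left hm (by norm_num)
    omega
  have hnm := Nat.div_add_mod n m
  have hs : n % m < m := Nat.mod_lt n hm0
  obtain ⟨K, hKd⟩ : ∃ K : ℕ, K = N / m := ⟨_, rfl⟩
  obtain ⟨T, hT⟩ : ∃ T : ℕ, T = n / m := ⟨_, rfl⟩
  obtain ⟨s, hsd⟩ : ∃ s : ℕ, s = n % m := ⟨_, rfl⟩
  unfold fF PF
  rw [← hKd] at hK hn ⊢
  rw [← hT] at hn hnm ⊢
  rw [← hsd] at hnm hs ⊢
  simp only [ite_mul, one_mul, zero_mul]
  rw [← sum_filter]
  refine sum_nbij' (fun x => m * (K + 1 - x) + s) (fun p => K + 1 - p / m) ?_ ?_ ?_ ?_ ?_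
  · intro x hx
    rw [mem_filter, mem_Icc] at hx
    obtain ⟨⟨h1, h2⟩, h3, h4, h5⟩ := hx
    rw [mem_filter, mem_Icc]
    refine ⟨⟨h4.one_lt.le, h5⟩, h4, ?_⟩
    unfold Nat.ModEq
    rw [Nat.mul_add_mod, ← hsd, Nat.mod_eq_of_lt hs]
  · intro p hp
    rw [mem_filter, mem_Icc] at hp
    obtain ⟨⟨h1, h2⟩, h3, h4⟩ := hp
    have h5 : p / m ≤ K := by rw [hKd]; exact Nat.div_le_div_right h2
    have h6 : m * (p / m) + s = p := by
      have h7 : p % m = n % m := h4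
      have h8 := Nat.div_add_mod p m
      rw [hsd, ← h7]
      exact h8
    have h7 : K + 1 - (K + 1 - p / m) = p / m := Nat.sub_sub_self (h5.trans (Nat.le_succ K))
    rw [mem_filter, mem_Icc, h7, h6]
    exact ⟨⟨by omega, by omega⟩, by omega, h3, h2⟩
  · intro x hx
    rw [mem_filter, mem_Icc] at hx
    obtain ⟨⟨h1, h2⟩, h3, h4, h5⟩ := hx
    have h6 : (m * (K + 1 - x) + s) / m = K + 1 - x := by
      rw [Nat.mul_add_div hm0, Nat.div_eq_of_lt hs, add_zero]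
    show K + 1 - (m * (K + 1 - x) + s) / m = x
    rw [h6]
    omega
  · intro p hp
    rw [mem_filter, mem_Icc] at hp
    obtain ⟨⟨h1, h2⟩, h3, h4⟩ := hp
    have h5 : p / m ≤ K := by rw [hKd]; exact Nat.div_le_div_right h2
    have h6 : m * (p / m) + s = p := by
      have h7 : p % m = n % m := h4
      have h8 := Nat.div_add_mod p m
      rw [hsd, ← h7]
      exact h8
    have h7 : K + 1 - (K + 1 - p / m) = p / m := Nat.sub_sub_self (h5.trans (Nat.le_succ K))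
    show m * (K + 1 - (K + 1 - p / m)) + s = p
    rw [h7, h6]
  · intro x hx
    rw [mem_filter, mem_Icc] at hx
    obtain ⟨⟨h1, h2⟩, h3, h4, h5⟩ := hx
    show F (x + (T - (K + 1))) = F ((n - (m * (K + 1 - x) + s)) / m)
    congr 1
    obtain ⟨j, hj⟩ : ∃ j, j = K + 1 - x := ⟨_, rfl⟩
    rw [← hj]
    have h6 : n - (m * j + s) = m * (T - j) := by
      rw [Nat.mul_sub]
      omega
    rw [h6, Nat.mul_div_cancel_left _ hm0]
    omega

/-- **the parity law for `(n - p) / m`** -/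
theorem fl_law (𝓛 : Finset (ℕ × List ℕ)) (ε : ℝ) (hε : 0 < ε) (B : ℕ) : ∃ δ : ℝ, 1 / 2 ≤ δ ∧ δ < 1 ∧
    ∃ ε₁ : ℝ, 0 < ε₁ ∧ ε₁ ≤ 1 / 8 ∧ ε₁ ≤ ε ∧ ∃ C : ℕ, ∀ᶠ N : ℕ in atTop,
    ∀ S : Finset ℕ, (∀ n ∈ S, (N + 1 ≤ n ∧ n ≤ 2 * N) ∧ ∃ m : ℕ, (2 ≤ m ∧ (m : ℝ) ≤ Real.log N ^ B) ∧
      Nat.Coprime n m ∧ Even (m * n) ∧
      ¬ ∀ l ∈ 𝓛, |TF N (zN ε₁ N) m n (l.1 :: l.2) -
          ac l.1 l.2 * (if Even l.2.length then piF N m n else 2 * EB N m n 1 - piF N m n)| ≤ ε * EB N m n 1) →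
      (S.card : ℝ) ≤ (N : ℝ) ^ δ * Real.log N ^ C := by
  classical
  obtain ⟨A, hA1, hA⟩ := uni_A 𝓛
  have hA0 : 0 < A := by linarith
  obtain ⟨δ, hδ1, hδ2, ε₁, hε₁0, hε₁8, hε₁ε, κ, hκ, hκ1, C, LAW⟩ := law2 𝓛 (ε / 4) (by positivity) (2 * B + 3)
  obtain ⟨x, hx⟩ : ∃ x : ℝ, x = min 1 (ε / (2 * (1 + 2 * A))) := ⟨_, rfl⟩
  have hx0 : 0 < x := by rw [hx]; positivity
  have hx1 : x ≤ 1 := by rw [hx]; exact min_le_left _ _
  have hxε : x * (1 + 2 * A) ≤ ε / 2 := by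
    have h1 : x ≤ ε / (2 * (1 + 2 * A)) := by rw [hx]; exact min_le_right _ _
    calc x * (1 + 2 * A) ≤ ε / (2 * (1 + 2 * A)) * (1 + 2 * A) := mul_le_mul_of_nonneg_right h1 (by positivity)
      _ = ε / 2 := by field_simp
  obtain ⟨x1, hx10, hx11, EXP⟩ := exp_of_cnt κ hκ hκ1 B x hx0 hx1
  refine ⟨δ, hδ1, hδ2, ε₁, hε₁0, hε₁8, by linarith, C + 3 * B + 1, ?_⟩
  filter_upwards [LAW, EXP, fl_cnt κ hκ hκ1 B (2 * B + 3) x1 hx10 hx11, ev_logN (eventually_ge_atTop (3 : ℝ)),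
    eventually_ge_atTop 3] with N LAW EXP CNT hL3 hN S hS
  have hL1 : 1 ≤ Real.log N := by linarith
  have hN0 : (0 : ℝ) < N := by positivity
  have hLB0 : 0 ≤ Real.log N ^ B := by positivity
  have hLB1 : 1 ≤ Real.log N ^ B := one_le_pow₀ hL1
  obtain ⟨Q, hQ⟩ : ∃ Q : ℕ, Q = ⌊Real.log N ^ B⌋₊ := ⟨_, rfl⟩
  have hQL : (Q : ℝ) ≤ Real.log N ^ B := by rw [hQ]; exact Nat.floor_le hLB0
  obtain ⟨bad, hbad⟩ : ∃ bad : ℕ × ℕ → ℕ → Prop, bad = fun i t => t ≤ N ∧ ¬ ∀ l ∈ 𝓛,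
      |∑ n ∈ Icc 1 N, fF N i.1 i.2 n * wM N (zN ε₁ N) (l.1 :: l.2) (n + t) -
          ac l.1 l.2 * (if Even l.2.length then pif N (fF N i.1 i.2) t else
            2 * ((∑ n ∈ Icc 1 N, fF N i.1 i.2 n * ro (yN κ N) (n + t)) / (Real.log N * Vz (yN κ N))) -
              pif N (fF N i.1 i.2) t)| ≤
        ε / 4 * ((∑ n ∈ Icc 1 N, fF N i.1 i.2 n * ro (yN κ N) (n + t)) / (Real.log N * Vz (yN κ N))) +
          N / Real.log N ^ (2 * B + 3) := ⟨_, rfl⟩
  -- the small part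
  obtain ⟨S1, hS1⟩ : ∃ S1 : Finset ℕ, S1 = S.filter (fun n => N + Q ≤ n) := ⟨_, rfl⟩
  have hsplit : S.card ≤ S1.card + Q := by
    have h1 : S ⊆ S1 ∪ Icc (N + 1) (N + Q) := by
      intro n hn
      rw [mem_union, hS1, mem_filter, mem_Icc]
      have h2 := (hS n hn).1
      by_cases h3 : N + Q ≤ n
      · exact Or.inl ⟨hn, h3⟩
      · exact Or.inr ⟨h2.1, by omega⟩
    refine (card_le_card h1).trans ((card_union_le _ _).trans ?_)
    rw [Nat.card_Icc]
    omega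
  -- the bad sets
  obtain ⟨W, hW⟩ : ∃ W : ℕ × ℕ → Finset ℕ, W = fun i => (S1.filter (fun n => n % i.1 = i.2 ∧ 2 ≤ i.1 ∧ i.1 ≤ Q ∧
      bad i (n / i.1 - (N / i.1 + 1)))) := ⟨_, rfl⟩
  have hsub : S1 ⊆ ((Icc 1 Q) ×ˢ (range Q)).biUnion W := by
    intro n hn
    have hn' := hn
    rw [hS1, mem_filter] at hn'
    obtain ⟨hnS, hnQ⟩ := hn'
    obtain ⟨⟨hn1, hn2⟩, m, ⟨hm, hmB⟩, hcop, hev, hnot⟩ := hS n hnS
    rw [mem_biUnion]
    have hmQ : m ≤ Q := by rw [hQ]; exact Nat.le_floor hmB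
    have hdiv : N / m + 1 ≤ n / m := by
      rw [← Nat.add_div_right N (by omega : 0 < m)]
      exact Nat.div_le_div_right (by omega)
    refine ⟨(m, n % m), ?_, ?_⟩
    · rw [mem_product, mem_Icc, mem_range]
      exact ⟨⟨by omega, hmQ⟩, (Nat.mod_lt n (by omega)).trans_le hmQ⟩
    · rw [hW]
      show n ∈ S1.filter (fun n' => n' % m = n % m ∧ 2 ≤ m ∧ m ≤ Q ∧ bad (m, n % m) (n' / m - (N / m + 1)))
      rw [mem_filter]
      refine ⟨hn, rfl, hm, hmQ, ?_⟩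
      rw [hbad]
      refine ⟨?_, fun hgood => hnot fun l hl => ?_⟩
      · show n / m - (N / m + 1) ≤ N
        have h1 : n / m ≤ n / 2 := Nat.div_le_div_left hm (by norm_num)
        exact (Nat.sub_le _ _).trans (h1.trans (by omega))
      · have g1 := hgood l hl
        have r1 := fun F : ℕ → ℝ => refl_fF (N := N) (m := m) (n := n) hm (by omega) hdiv F
        have r2 : pif N (fF N m (n % m)) (n / m - (N / m + 1)) = piF N m n := by
          unfold pif piF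
          exact r1 (fun v => if v.Prime then 1 else 0)
        have g1' : |TF N (zN ε₁ N) m n (l.1 :: l.2) -
            ac l.1 l.2 * (if Even l.2.length then piF N m n else
              2 * ((∑ p ∈ PF N m n, ro (yN κ N) ((n - p) / m)) / (Real.log N * Vz (yN κ N))) - piF N m n)| ≤
            ε / 4 * ((∑ p ∈ PF N m n, ro (yN κ N) ((n - p) / m)) / (Real.log N * Vz (yN κ N))) +
              N / Real.log N ^ (2 * B + 3) := by
          have h1 : TF N (zN ε₁ N) m n (l.1 :: l.2) = ∑ x ∈ Icc 1 N, fF N m (n % m) x *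
              wM N (zN ε₁ N) (l.1 :: l.2) (x + (n / m - (N / m + 1))) := (r1 (fun v => wM N (zN ε₁ N) (l.1 :: l.2) v)).symm
          have h2 : ∑ p ∈ PF N m n, ro (yN κ N) ((n - p) / m) = ∑ x ∈ Icc 1 N, fF N m (n % m) x *
              ro (yN κ N) (x + (n / m - (N / m + 1))) := (r1 (fun v => ro (yN κ N) v)).symm
          rw [h1, h2, ← r2]
          exact g1
        obtain ⟨Y, hY⟩ : ∃ Y : ℝ, Y = ∑ p ∈ PF N m n, ro (yN κ N) ((n - p) / m) := ⟨_, rfl⟩
        have hYc : Y = (((Icc 1 N).filter (fun p => p.Prime ∧ (p ≡ n [MOD m] ∧ Ro (yN κ N) ((n - p) / m)))).card : ℝ) := by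
          rw [hY]
          unfold PF
          rw [card_eq_sum_ones, Nat.cast_sum, sum_filter, sum_filter]
          refine sum_congr rfl fun p _ => ?_
          by_cases h2 : p.Prime ∧ p ≡ n [MOD m]
          · rw [if_pos h2]
            by_cases h3 : Ro (yN κ N) ((n - p) / m)
            · rw [ro_of h3, if_pos ⟨h2.1, h2.2, h3⟩, Nat.cast_one]
            · have h4 : ro (yN κ N) ((n - p) / m) = 0 := by unfold ro; rw [if_neg h3]
              rw [h4, if_neg (fun h => h3 h.2.2)]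
          · rw [if_neg h2, if_neg (fun h => h2 ⟨h.1, h.2.1⟩)]
        rw [← hY] at g1'
        have hcnt := CNT m (by omega) hmB n (by omega) hcop
        have hcnt' : |Y - N / m / (Nat.totient 1 : ℝ) * (∏ p ∈ pq 1 (yN κ N), (1 - gp (m * n) p)) / Real.log N| ≤
            x1 * (N / m / (Nat.totient 1 : ℝ) * (∏ p ∈ pq 1 (yN κ N), (1 - gp (m * n) p)) / Real.log N) +
              N / Real.log N ^ (2 * B + 3) := by
          rw [hYc]
          convert hcnt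
        obtain ⟨g2, g3, g4⟩ := EXP m 1 n (by omega) hmB le_rfl (by rw [Nat.cast_one]; exact hLB1) (by omega) hn2 hev Y hcnt'
        obtain ⟨c1, c2⟩ := calcAp2 (T := TF N (zN ε₁ N) m n (l.1 :: l.2)) (c := ac l.1 l.2) (p := piF N m n)
          (e2 := ε / 4) (ε := ε) hx0.le hx1 g2 g4 g3 (ac_nonneg l.1 l.2) (hA l hl) (by positivity) (by linarith)
        split_ifs at g1' ⊢ with hl2
        · exact c1 g1'
        · exact c2 g1'
  have h1 : (S1.card : ℝ) ≤ ∑ i ∈ (Icc 1 Q) ×ˢ (range Q), ((W i).card : ℝ) := by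
    have h2 := (card_le_card hsub).trans card_biUnion_le
    exact_mod_cast h2
  have h3 : ∀ i ∈ (Icc 1 Q) ×ˢ (range Q), ((W i).card : ℝ) ≤ (N : ℝ) ^ δ * Real.log N ^ C := by
    intro i _
    have h4 : (W i).card = ((W i).image (fun n => n / i.1 - (N / i.1 + 1))).card := by
      rw [card_image_of_injOn]
      intro n hn n' hn' h
      rw [hW] at hn hn'
      have e1 := (mem_filter.1 hn)
      have e2 := (mem_filter.1 hn')
      obtain ⟨b1, b2, b3, b4, _⟩ := e1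
      obtain ⟨d1, d2, d3, d4, _⟩ := e2
      rw [hS1, mem_filter] at b1 d1
      have k1 : N / i.1 + 1 ≤ n / i.1 := by
        rw [← Nat.add_div_right N (by omega : 0 < i.1)]
        exact Nat.div_le_div_right (by omega)
      have k2 : N / i.1 + 1 ≤ n' / i.1 := by
        rw [← Nat.add_div_right N (by omega : 0 < i.1)]
        exact Nat.div_le_div_right (by omega)
      have k3 : n / i.1 - (N / i.1 + 1) = n' / i.1 - (N / i.1 + 1) := h
      have k4 : n / i.1 = n' / i.1 := by omega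
      have k5 := Nat.div_add_mod n i.1
      have k6 := Nat.div_add_mod n' i.1
      rw [b2, k4] at k5
      rw [d2] at k6
      exact k5.symm.trans k6
    rw [h4]
    apply LAW (fF N i.1 i.2) (fF_bd N i.1 i.2)
    intro t ht
    rw [mem_image] at ht
    obtain ⟨n, hn, rfl⟩ := ht
    rw [hW] at hn
    have e1 := (mem_filter.1 hn).2.2.2.2
    rw [hbad] at e1
    exact e1
  have h5 : (S1.card : ℝ) ≤ (Q : ℝ) * Q * ((N : ℝ) ^ δ * Real.log N ^ C) := by
    refine h1.trans ((sum_le_sum h3).trans ?_)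
    rw [sum_const, card_product, Nat.card_Icc, card_range, Nat.add_sub_cancel, nsmul_eq_mul]
    push_cast
    exact le_rfl
  have h6 : (S.card : ℝ) ≤ S1.card + Q := by exact_mod_cast hsplit
  have hNδ : 1 ≤ (N : ℝ) ^ δ := Real.one_le_rpow (by exact_mod_cast (by omega : 1 ≤ N)) (by linarith)
  obtain ⟨D, hD⟩ : ∃ D : ℝ, D = (N : ℝ) ^ δ * Real.log N ^ C := ⟨_, rfl⟩
  have hD1 : 1 ≤ D := by
    rw [hD]
    exact one_le_mul_of_one_le_of_one_le hNδ (one_le_pow₀ hL1)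
  rw [← hD] at h5
  have h7 : (Q : ℝ) * Q * D ≤ Real.log N ^ B * Real.log N ^ B * D := by gcongr
  have h8 : (Q : ℝ) ≤ Real.log N ^ B * Real.log N ^ B * D := by
    calc (Q : ℝ) ≤ Real.log N ^ B * 1 * 1 := by linarith
      _ ≤ Real.log N ^ B * Real.log N ^ B * D := by gcongr
  have h9 : (S.card : ℝ) ≤ 2 * (Real.log N ^ B * Real.log N ^ B * D) := by linarith
  refine h9.trans ?_
  rw [hD]
  have e : (N : ℝ) ^ δ * Real.log N ^ (C + 3 * B + 1) =
      (Real.log N ^ B * Real.log N) * (Real.log N ^ B * Real.log N ^ B * ((N : ℝ) ^ δ * Real.log N ^ C)) := by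
    rw [show C + 3 * B + 1 = C + (B + B) + B + 1 by ring, pow_succ, pow_add, pow_add, pow_add]
    ring
  rw [e]
  apply mul_le_mul_of_nonneg_right _ (by positivity)
  calc (2 : ℝ) ≤ 1 * Real.log N := by linarith
    _ ≤ Real.log N ^ B * Real.log N := by gcongr

end Pool.Agent.H528.Ap
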