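import Mathlib
import Pool.Agent.H528.TupE

/-! Prime tuples in one colour class of an arbitrary set of primes, with shifts from arbitrary sparse sets. -/

set_option autoImplicit false

namespace Pool.Agent.H528.Tup

open Finset Filter Topology
open Pool.Agent.Y822 Pool.Agent.Y822.Par3
open Pool.Agent.H373R2.T7 (pz Vz mem_pz Vz_pos)
open Pool.Agent.H387R2.Uni (nuT Adm locT CT)
open Pool.Agent.H528.UpLo Pool.Agent.H528.Lam
open Pool.Agent.H528.AsyL Pool.Agent.H528.Gen Pool.Agent.H528.PCnt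

open Classical in
/-- number of the `n ≤ N` with all `n + h` in `Q` and of one colour -/
noncomputable def cC (N r : ℕ) (Q : Finset ℕ) (col : ℕ → ℕ) (H : Finset ℕ) : ℕ :=
  ∑ j ∈ range r, ((Icc 1 N).filter (fun n => ∀ h ∈ H, n + h ∈ Q ∧ col (n + h) = j)).card

open Classical in
lemma cC_le {N r : ℕ} {Q : Finset ℕ} {col : ℕ → ℕ} (hQ : ∀ q ∈ Q, q.Prime) {H : Finset ℕ} (hH : H.Nonempty) :
    (cC N r Q col H : ℝ) ≤ cP N H := by
  obtain ⟨h0, hh0⟩ := hH
  have h1 : cC N r Q col H ≤ cP N H := by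
    unfold cC cP
    have h2 : ∀ j ∈ range r, ((Icc 1 N).filter (fun n => ∀ h ∈ H, n + h ∈ Q ∧ col (n + h) = j)).card =
        ∑ n ∈ Icc 1 N, if (∀ h ∈ H, n + h ∈ Q ∧ col (n + h) = j) then 1 else 0 := by
      intro j _
      rw [card_eq_sum_ones, sum_filter]
    rw [sum_congr rfl h2, sum_comm, card_eq_sum_ones, sum_filter]
    refine sum_le_sum fun n _ => ?_
    by_cases hp : ∀ h ∈ H, (n + h).Prime
    · rw [if_pos hp]
      by_cases hj : col (n + h0) ∈ range r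
      · rw [sum_eq_single (col (n + h0))]
        · split_ifs <;> omega
        · intro j _ hj'
          rw [if_neg]
          intro h3
          exact hj' (h3 h0 hh0).2.symm
        · intro h3
          exact absurd hj h3
      · rw [sum_eq_zero]
        · omega
        · intro j hj'
          rw [if_neg]
          intro h3
          rw [(h3 h0 hh0).2] at hj
          exact hj hj'
    · rw [if_neg hp, sum_eq_zero]
      intro j _
      rw [if_neg]
      intro h3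
      exact hp fun h hh => hQ _ (h3 h hh).1
  exact_mod_cast h1

open Classical in
/-- the lower bound, by convexity -/
lemma col_low (k N r : ℕ) (Q : Finset ℕ) (col : ℕ → ℕ) (A : Finset ℕ) (hcol : ∀ q ∈ Q, col q < r) (c : ℝ) (hc : 0 ≤ c)
    (hS : c * (r * N) ≤ ∑ n ∈ Icc 1 N, ((A.filter (fun a => n + a ∈ Q)).card : ℝ)) :
    c ^ (k + 2) * (r * N) - ((k : ℝ) + 2) ^ 2 * (A.card : ℝ) ^ (k + 1) * (r * N) ≤
      ((k + 2).factorial : ℝ) * ∑ H ∈ A.powersetCard (k + 2), (cC N r Q col H : ℝ) := by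
  have h1 : ∑ H ∈ A.powersetCard (k + 2), (cC N r Q col H : ℝ) =
      ∑ j ∈ range r, ∑ n ∈ Icc 1 N, (((A.filter (fun a => n + a ∈ Q ∧ col (n + a) = j)).card.choose (k + 2) : ℕ) : ℝ) := by
    have h2 : ∑ H ∈ A.powersetCard (k + 2), cC N r Q col H =
        ∑ j ∈ range r, ∑ n ∈ Icc 1 N, (A.filter (fun a => n + a ∈ Q ∧ col (n + a) = j)).card.choose (k + 2) := by
      unfold cC
      rw [sum_comm]
      refine sum_congr rfl fun j _ => ?_
      have h3 := dc A N (k + 2) (fun x => x ∈ Q ∧ col x = j)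
      refine Eq.trans ?_ (h3.trans ?_)
      · refine sum_congr rfl fun H _ => ?_
        congr 1
        ext n
        simp only [mem_filter]
      · refine sum_congr rfl fun n _ => ?_
        congr 2
        ext a
        simp only [mem_filter]
    exact_mod_cast h2
  rw [h1, mul_sum]
  have h4 : ∀ j ∈ range r, ∀ n ∈ Icc 1 N, ((k : ℝ) + 2) * c ^ (k + 1) * ((A.filter (fun a => n + a ∈ Q ∧ col (n + a) = j)).card : ℝ) -
      ((k : ℝ) + 1) * c ^ (k + 2) - ((k : ℝ) + 2) ^ 2 * (A.card : ℝ) ^ (k + 1) ≤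
      ((k + 2).factorial : ℝ) * (((A.filter (fun a => n + a ∈ Q ∧ col (n + a) = j)).card.choose (k + 2) : ℕ) : ℝ) := by
    intro j _ n _
    set S := (A.filter (fun a => n + a ∈ Q ∧ col (n + a) = j)).card with hSd
    have hSm : (S : ℝ) ≤ A.card := by exact_mod_cast card_filter_le _ _
    have g1 := desc_low S (k + 1)
    have g2 := bern (k + 1) (x := S) (c := c) (Nat.cast_nonneg _) hc
    have g3 : (S : ℝ) ^ (k + 1) ≤ (A.card : ℝ) ^ (k + 1) := pow_le_pow_left₀ (Nat.cast_nonneg _) hSm _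
    push_cast at g1 g2
    have g4 : ((k : ℝ) + 2) ^ 2 * (S : ℝ) ^ (k + 1) ≤ ((k : ℝ) + 2) ^ 2 * (A.card : ℝ) ^ (k + 1) :=
      mul_le_mul_of_nonneg_left g3 (by positivity)
    have e1 : ((k : ℝ) + 1 + 1) = (k : ℝ) + 2 := by ring
    rw [e1] at g1 g2
    have e2 : k + 1 + 1 = k + 2 := rfl
    rw [e2] at g1 g2
    linarith
  have h5 : ∑ j ∈ range r, ∑ n ∈ Icc 1 N, (((k : ℝ) + 2) * c ^ (k + 1) * ((A.filter (fun a => n + a ∈ Q ∧ col (n + a) = j)).card : ℝ) -
      ((k : ℝ) + 1) * c ^ (k + 2) - ((k : ℝ) + 2) ^ 2 * (A.card : ℝ) ^ (k + 1)) ≤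
      ∑ j ∈ range r, ((k + 2).factorial : ℝ) * ∑ n ∈ Icc 1 N, (((A.filter (fun a => n + a ∈ Q ∧ col (n + a) = j)).card.choose (k + 2) : ℕ) : ℝ) := by
    refine sum_le_sum fun j hj => ?_
    rw [mul_sum]
    exact sum_le_sum fun n hn => h4 j hj n hn
  refine le_trans ?_ h5
  have h6 : ∑ j ∈ range r, ∑ n ∈ Icc 1 N, ((A.filter (fun a => n + a ∈ Q ∧ col (n + a) = j)).card : ℝ) =
      ∑ n ∈ Icc 1 N, ((A.filter (fun a => n + a ∈ Q)).card : ℝ) := by
    rw [sum_comm]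
    refine sum_congr rfl fun n _ => ?_
    have h7 : (A.filter (fun a => n + a ∈ Q)).card =
        ∑ j ∈ range r, ((A.filter (fun a => n + a ∈ Q)).filter (fun a => col (n + a) = j)).card := by
      apply card_eq_sum_card_fiberwise
      intro a ha
      rw [mem_coe, mem_filter] at ha
      exact mem_coe.2 (mem_range.2 (hcol _ ha.2))
    rw [h7, Nat.cast_sum]
    refine sum_congr rfl fun j _ => ?_
    rw [filter_filter]
  have h8 : ∑ j ∈ range r, ∑ n ∈ Icc 1 N, (((k : ℝ) + 2) * c ^ (k + 1) * ((A.filter (fun a => n + a ∈ Q ∧ col (n + a) = j)).card : ℝ) -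
      ((k : ℝ) + 1) * c ^ (k + 2) - ((k : ℝ) + 2) ^ 2 * (A.card : ℝ) ^ (k + 1)) =
      ((k : ℝ) + 2) * c ^ (k + 1) * (∑ n ∈ Icc 1 N, ((A.filter (fun a => n + a ∈ Q)).card : ℝ)) -
        (r * N) * (((k : ℝ) + 1) * c ^ (k + 2) + ((k : ℝ) + 2) ^ 2 * (A.card : ℝ) ^ (k + 1)) := by
    rw [← h6, mul_sum]
    have h9 : ∀ j ∈ range r, ∑ n ∈ Icc 1 N, (((k : ℝ) + 2) * c ^ (k + 1) * ((A.filter (fun a => n + a ∈ Q ∧ col (n + a) = j)).card : ℝ) -
      ((k : ℝ) + 1) * c ^ (k + 2) - ((k : ℝ) + 2) ^ 2 * (A.card : ℝ) ^ (k + 1)) =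
      ((k : ℝ) + 2) * c ^ (k + 1) * (∑ n ∈ Icc 1 N, ((A.filter (fun a => n + a ∈ Q ∧ col (n + a) = j)).card : ℝ)) -
        N * (((k : ℝ) + 1) * c ^ (k + 2) + ((k : ℝ) + 2) ^ 2 * (A.card : ℝ) ^ (k + 1)) := by
      intro j _
      rw [sum_sub_distrib, sum_sub_distrib, ← mul_sum, sum_const, sum_const, Nat.card_Icc, Nat.add_sub_cancel, nsmul_eq_mul,
        nsmul_eq_mul]
      ring
    rw [sum_congr rfl h9, sum_sub_distrib, sum_const, card_range, nsmul_eq_mul]
    ring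
  rw [h8]
  have h10 : ((k : ℝ) + 2) * c ^ (k + 1) * (c * (r * N)) ≤
      ((k : ℝ) + 2) * c ^ (k + 1) * (∑ n ∈ Icc 1 N, ((A.filter (fun a => n + a ∈ Q)).card : ℝ)) :=
    mul_le_mul_of_nonneg_left hS (by positivity)
  have e3 : ((k : ℝ) + 2) * c ^ (k + 1) * (c * (r * N)) = ((k : ℝ) + 2) * c ^ (k + 2) * (r * N) := by ring
  rw [e3] at h10
  linarith

lemma ex_small7 (k r : ℕ) (hr : 1 ≤ r) (α c q η : ℝ) (hα : 0 < α) (hc1 : c < 1) (hq : 1 ≤ q) (hη : 0 < η) :
    ∃ t : ℝ, 0 < t ∧ t ≤ 1 / 8 ∧ t ≤ α / 2 ∧ 0 ≤ (α - t) ^ (k + 2) / r ^ (k + 1) - 3 * t - c * (α ^ (k + 2) / r ^ (k + 1)) ∧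
      α ^ (k + 2) / r ^ (k + 1) * (1 - c) / q - η ≤
        ((α - t) ^ (k + 2) / r ^ (k + 1) - 3 * t - c * (α ^ (k + 2) / r ^ (k + 1))) / ((1 + t) ^ 2 * q) := by
  have hr0 : (0 : ℝ) < r := by exact_mod_cast hr
  have hcd : ContinuousAt (fun t : ℝ => (α - t) ^ (k + 2) / r ^ (k + 1) - 3 * t - c * (α ^ (k + 2) / r ^ (k + 1))) 0 := by
    fun_prop
  have hcc : ContinuousAt (fun t : ℝ => ((α - t) ^ (k + 2) / r ^ (k + 1) - 3 * t - c * (α ^ (k + 2) / r ^ (k + 1))) / ((1 + t) ^ 2 * q)) 0 := by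
    apply ContinuousAt.div hcd
    · fun_prop
    · norm_num
      linarith
  have h1 : ∀ᶠ t in 𝓝 (0 : ℝ), α ^ (k + 2) / r ^ (k + 1) * (1 - c) / q - η <
      ((α - t) ^ (k + 2) / r ^ (k + 1) - 3 * t - c * (α ^ (k + 2) / r ^ (k + 1))) / ((1 + t) ^ 2 * q) := by
    refine continuousAt_const.eventually_lt hcc ?_
    simp only [mul_zero, sub_zero, add_zero, one_pow, one_mul]
    have : (α ^ (k + 2) / r ^ (k + 1) - c * (α ^ (k + 2) / r ^ (k + 1))) / q = α ^ (k + 2) / r ^ (k + 1) * (1 - c) / q := by ring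
    rw [this]
    linarith
  have h2 : ∀ᶠ t in 𝓝 (0 : ℝ), 0 < (α - t) ^ (k + 2) / r ^ (k + 1) - 3 * t - c * (α ^ (k + 2) / r ^ (k + 1)) := by
    refine continuousAt_const.eventually_lt hcd ?_
    simp only [mul_zero, sub_zero]
    have h3 : 0 < α ^ (k + 2) / (r : ℝ) ^ (k + 1) := by positivity
    have h4 : c * (α ^ (k + 2) / (r : ℝ) ^ (k + 1)) < 1 * (α ^ (k + 2) / (r : ℝ) ^ (k + 1)) := mul_lt_mul_of_pos_right hc1 h3
    linarith
  obtain ⟨d, hd, h4⟩ := Metric.eventually_nhds_iff.1 (h1.and h2)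
  refine ⟨min (d / 2) (min (1 / 8) (α / 2)), by positivity, (min_le_right _ _).trans (min_le_left _ _),
    (min_le_right _ _).trans (min_le_right _ _), ?_⟩
  have h5 := h4 (y := min (d / 2) (min (1 / 8) (α / 2))) (by
    rw [Real.dist_eq, sub_zero, abs_of_pos (by positivity)]
    exact (min_le_left _ _).trans_lt (by linarith))
  exact ⟨h5.2.le, h5.1.le⟩

open Classical in
/-- **prime tuples of one colour** -/
theorem col_fin (k r : ℕ) (hr : 1 ≤ r) (α η c : ℝ) (hα : 0 < α) (hη : 0 < η) (hc0 : 0 ≤ c) (hc1 : c < 1) :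
    ∃ δ : ℝ, 0 < δ ∧ δ < 1 ∧ ∀ᶠ N : ℕ in atTop, ∀ Q : Finset ℕ, (∀ q ∈ Q, q.Prime ∧ q ≤ N) → α * (N / Real.log N) ≤ Q.card →
      ∀ col : ℕ → ℕ, (∀ q ∈ Q, col q < r) → ∀ A : Finset ℕ, (∀ a ∈ A, 1 ≤ a ∧ (a : ℝ) ≤ N / Real.log N ^ 2) →
      (N : ℝ) ^ δ ≤ A.card →
      (α ^ (k + 2) / r ^ (k + 1) * (1 - c) / 2 ^ (k + 1) - η) * A.card.choose (k + 2) ≤
        ∑ H ∈ (A.powersetCard (k + 2)).filter
          (fun H => c * (α ^ (k + 2) / r ^ (k + 1) * (N / Real.log N ^ (k + 2))) ≤ cC N r Q col H), CT H := by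
  have hr0 : (0 : ℝ) < r := by exact_mod_cast hr
  have hq : (1 : ℝ) ≤ 2 ^ (k + 1) := one_le_pow₀ (by norm_num)
  obtain ⟨t, ht, ht8, htα, ht2, ht3⟩ := ex_small7 k r hr α c (2 ^ (k + 1)) η hα hc1 hq hη
  obtain ⟨β, hβ⟩ : ∃ β : ℝ, β = α ^ (k + 2) / (r : ℝ) ^ (k + 1) := ⟨_, rfl⟩
  rw [← hβ] at ht2 ht3 ⊢
  have hβ0 : 0 < β := by rw [hβ]; positivity
  have hk0 : (0 : ℝ) ≤ k := Nat.cast_nonneg _
  have hf0 : (1 : ℝ) ≤ (k + 2).factorial := by exact_mod_cast Nat.one_le_iff_ne_zero.2 (Nat.factorial_ne_zero _)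
  obtain ⟨δ, hδ1, hδ2, κ, hκ, hκ1, B, HU⟩ := tup_up k t ht
  refine ⟨(1 + δ) / 2, by linarith, by linarith, ?_⟩
  obtain ⟨M, hM⟩ : ∃ M : ℕ, M = max 3 ⌈((k : ℝ) + 2) ^ 2 * (2 / t)⌉₊ := ⟨_, rfl⟩
  obtain ⟨W, hW⟩ : ∃ W : ℝ, W = max ((k + 2).factorial : ℝ) (((k : ℝ) + 2) ^ 2 * r) := ⟨_, rfl⟩
  have hW0 : 0 < W := by rw [hW]; exact lt_of_lt_of_le (by linarith) (le_max_left _ _)
  have e1 := ev_logN (eventually_ge_atTop (max 2 (1 / t)))
  have e2 := ev_logN (ev_pow_exp (B + k + 3) ((1 - δ) / 2) (W / t) (by linarith))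
  filter_upwards [HU, yN_facts κ hκ hκ1 M 1, e1, e2, eventually_ge_atTop 3] with N hU hyf f1 f2 hN Q hQ hQc col hcol A hA hAδ
  obtain ⟨y1, y2, y3, y4, y5⟩ := hyf
  obtain ⟨L, hLd⟩ : ∃ L : ℝ, L = Real.log N := ⟨_, rfl⟩
  rw [← hLd] at f1 f2 hU y3 hQc hA ⊢
  obtain ⟨y, hyd⟩ : ∃ y : ℕ, y = yN κ N := ⟨_, rfl⟩
  rw [← hyd] at y1 y2 y3 y4 y5 hU
  have hL2 : 2 ≤ L := (le_max_left _ _).trans f1
  have hL1 : 1 ≤ L := by linarith
  have hL0 : 0 < L := by linarith
  have hLt : 1 / t ≤ L := (le_max_right _ _).trans f1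
  rw [div_le_iff₀ ht] at hLt
  have hN0 : (0 : ℝ) < N := by exact_mod_cast (by omega : 0 < N)
  have hAN : ∀ a ∈ A, 1 ≤ a ∧ a ≤ N := by
    intro a ha
    refine ⟨(hA a ha).1, ?_⟩
    have h1 : (a : ℝ) ≤ N := (hA a ha).2.trans (div_le_self hN0.le (one_le_pow₀ hL1))
    exact_mod_cast h1
  obtain ⟨m, hm⟩ : ∃ m : ℝ, m = A.card := ⟨_, rfl⟩
  have hm0 : 0 < m := by
    rw [hm]
    exact lt_of_lt_of_le (Real.rpow_pos_of_pos hN0 _) hAδ
  rw [← hm] at hAδ
  have hNδ : W * ((N : ℝ) ^ δ * L ^ (B + k + 3)) ≤ t * m := by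
    have h1 : W * L ^ (B + k + 3) ≤ t * Real.exp ((1 - δ) / 2 * L) := by
      have : W * L ^ (B + k + 3) = t * (W / t * L ^ (B + k + 3)) := by field_simp
      rw [this]
      exact mul_le_mul_of_nonneg_left f2 ht.le
    have e3 : (N : ℝ) ^ ((1 + δ) / 2) = (N : ℝ) ^ δ * Real.exp ((1 - δ) / 2 * L) := by
      rw [hLd, mul_comm ((1 - δ) / 2), ← Real.rpow_def_of_pos hN0, ← Real.rpow_add hN0]
      congr 1
      ring
    calc W * ((N : ℝ) ^ δ * L ^ (B + k + 3)) = (N : ℝ) ^ δ * (W * L ^ (B + k + 3)) := by ring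
      _ ≤ (N : ℝ) ^ δ * (t * Real.exp ((1 - δ) / 2 * L)) := mul_le_mul_of_nonneg_left h1 (by positivity)
      _ = t * (N : ℝ) ^ ((1 + δ) / 2) := by rw [e3]; ring
      _ ≤ t * m := mul_le_mul_of_nonneg_left hAδ ht.le
  obtain ⟨D, hD⟩ : ∃ D : ℝ, D = N / L ^ (k + 2) := ⟨_, rfl⟩
  have hD0 : 0 < D := by rw [hD]; positivity
  rw [← hD] at hU ⊢
  have hNδ1 : (1 : ℝ) ≤ (N : ℝ) ^ δ := Real.one_le_rpow (by exact_mod_cast (by omega : 1 ≤ N)) (by linarith)
  -- the exceptional tuples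
  set P := A.powersetCard (k + 2) with hP
  set Bad := P.filter (fun H => (1 + t) * (2 ^ (k + 1) * (PT H y * D)) + t * D < cP N H) with hBad
  have hb := hU A hAN Bad fun H hH => by
    rw [hBad, mem_filter] at hH
    exact hH
  rw [← hm] at hb
  have hfac : ((k + 2).factorial : ℝ) * (Bad.card * N) ≤ t * (D * m ^ (k + 2)) := by
    have h2 : ((A.card.choose k : ℕ) : ℝ) ≤ m ^ k := by
      rw [hm]
      exact_mod_cast Nat.choose_le_pow A.card k
    have h3 : (Bad.card : ℝ) ≤ m ^ (k + 1) * ((N : ℝ) ^ δ * L ^ B) := by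
      refine hb.trans ?_
      have : m * (((A.card.choose k : ℕ) : ℝ) * ((N : ℝ) ^ δ * L ^ B)) ≤ m * (m ^ k * ((N : ℝ) ^ δ * L ^ B)) := by gcongr
      refine this.trans (le_of_eq ?_)
      rw [pow_succ]
      ring
    have h4 : ((k + 2).factorial : ℝ) * ((N : ℝ) ^ δ * L ^ B * N) ≤ t * (D * m) := by
      rw [hD]
      have h5 : ((k + 2).factorial : ℝ) * ((N : ℝ) ^ δ * L ^ (B + k + 2)) ≤ t * m := by
        refine le_trans ?_ hNδ
        have h6 : ((k + 2).factorial : ℝ) ≤ W := by rw [hW]; exact le_max_left _ _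
        have h7 : L ^ (B + k + 2) ≤ L ^ (B + k + 3) := pow_le_pow_right₀ hL1 (by omega)
        gcongr
      have h6 : (N : ℝ) ^ δ * L ^ B * N = (N : ℝ) ^ δ * L ^ (B + k + 2) * (N / L ^ (k + 2)) := by
        rw [show B + k + 2 = B + (k + 2) by ring, pow_add L B]
        field_simp
      rw [h6]
      calc ((k + 2).factorial : ℝ) * ((N : ℝ) ^ δ * L ^ (B + k + 2) * (N / L ^ (k + 2))) =
            ((k + 2).factorial : ℝ) * ((N : ℝ) ^ δ * L ^ (B + k + 2)) * (N / L ^ (k + 2)) := by ring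
        _ ≤ t * m * (N / L ^ (k + 2)) := mul_le_mul_of_nonneg_right h5 (by positivity)
        _ = _ := by ring
    calc ((k + 2).factorial : ℝ) * (Bad.card * N) ≤ ((k + 2).factorial : ℝ) * (m ^ (k + 1) * ((N : ℝ) ^ δ * L ^ B) * N) := by
          gcongr
      _ = m ^ (k + 1) * (((k + 2).factorial : ℝ) * ((N : ℝ) ^ δ * L ^ B * N)) := by ring
      _ ≤ m ^ (k + 1) * (t * (D * m)) := mul_le_mul_of_nonneg_left h4 (by positivity)
      _ = _ := by rw [pow_succ]; ring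
  set Good := P.filter (fun H => c * (β * D) ≤ cC N r Q col H) with hGood
  have hcardP : ((k + 2).factorial : ℝ) * ((P.card : ℕ) : ℝ) ≤ m ^ (k + 2) := by
    have h1 := Nat.choose_le_pow_div (α := ℝ) (k + 2) A.card
    rw [le_div_iff₀ (by linarith)] at h1
    rw [hP, card_powersetCard, hm, mul_comm]
    exact h1
  have hne : ∀ H ∈ P, H.Nonempty := by
    intro H hH
    rw [hP, mem_powersetCard] at hH
    rw [← card_pos]
    omega
  -- the upper bound
  have hup : ∑ H ∈ P, (cC N r Q col H : ℝ) ≤ Bad.card * N + P.card * (t * D) + P.card * (c * (β * D)) +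
      (1 + t) ^ 2 * 2 ^ (k + 1) * D * ∑ H ∈ Good, CT H := by
    have h1 : ∀ H ∈ P, (cC N r Q col H : ℝ) ≤ (if H ∈ Bad then (N : ℝ) else 0) + t * D + c * (β * D) +
        (if c * (β * D) ≤ cC N r Q col H then (1 + t) ^ 2 * 2 ^ (k + 1) * D * CT H else 0) := by
      intro H hH
      have hct := CT_nonneg' H
      have h2 := cC_le (N := N) (r := r) (col := col) (fun q hq => (hQ q hq).1) (hne H hH)
      have htD : 0 ≤ t * D := by positivity
      have hcD : 0 ≤ c * (β * D) := by positivity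
      have h5 : 0 ≤ (if c * (β * D) ≤ cC N r Q col H then (1 + t) ^ 2 * 2 ^ (k + 1) * D * CT H else 0) := by
        split_ifs <;> positivity
      by_cases hb : H ∈ Bad
      · rw [if_pos hb]
        have h3 := cP_le_N N H
        linarith
      · rw [if_neg hb]
        by_cases hg : c * (β * D) ≤ cC N r Q col H
        · rw [if_pos hg]
          have h3 : ¬ (1 + t) * (2 ^ (k + 1) * (PT H y * D)) + t * D < cP N H := by
            intro h3
            exact hb (by rw [hBad, mem_filter]; exact ⟨hH, h3⟩)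
          push Not at h3
          have hPc : PT H y ≤ (1 + t) * CT H := by
            have hH2 := hH
            rw [hP, mem_powersetCard] at hH2
            refine PT_le_CT H t ht (by linarith) y ?_ (by omega)
            rw [hH2.2]
            have g1 : ((k : ℝ) + 2) ^ 2 * (2 / t) ≤ M := by
              rw [hM]
              push_cast
              exact (Nat.le_ceil _).trans (le_max_right _ _)
            have g2 : (M : ℝ) ≤ y := by exact_mod_cast y5
            have e : (((k + 2 : ℕ) : ℝ)) ^ 2 = ((k : ℝ) + 2) ^ 2 := by push_cast; ring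
            rw [e]
            linarith
          have h4 : (1 + t) * (2 ^ (k + 1) * (PT H y * D)) ≤ (1 + t) * (2 ^ (k + 1) * ((1 + t) * CT H * D)) := by gcongr
          have e4 : (1 + t) * (2 ^ (k + 1) * ((1 + t) * CT H * D)) = (1 + t) ^ 2 * 2 ^ (k + 1) * D * CT H := by ring
          linarith
        · rw [if_neg hg]
          push Not at hg
          linarith
    have hPB : P.filter (fun H => H ∈ Bad) = Bad := by
      ext H
      exact ⟨fun h => (mem_filter.1 h).2, fun h => mem_filter.2 ⟨(mem_filter.1 h).1, h⟩⟩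
    refine (sum_le_sum h1).trans (le_of_eq ?_)
    rw [sum_add_distrib, sum_add_distrib, sum_add_distrib, sum_const, sum_const, nsmul_eq_mul, nsmul_eq_mul, ← sum_filter,
      ← sum_filter, hPB, sum_const, nsmul_eq_mul, ← hGood, mul_sum]
  -- the lower bound
  have hlow : ((α - t) ^ (k + 2) / r ^ (k + 1) - t) * (D * m ^ (k + 2)) ≤
      ((k + 2).factorial : ℝ) * ∑ H ∈ P, (cC N r Q col H : ℝ) := by
    have h1 : (α - t) * m / (r * L) * (r * N) ≤ ∑ n ∈ Icc 1 N, ((A.filter (fun a => n + a ∈ Q)).card : ℝ) := by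
      have h2 : ∑ n ∈ Icc 1 N, ((A.filter (fun a => n + a ∈ Q)).card : ℝ) =
          ∑ a ∈ A, (((Icc 1 N).filter (fun n => n + a ∈ Q)).card : ℝ) := by
        have h3 : ∀ n, ((A.filter (fun a => n + a ∈ Q)).card : ℝ) = ∑ a ∈ A, if n + a ∈ Q then (1 : ℝ) else 0 := by
          intro n
          rw [← sum_filter, sum_const, nsmul_eq_mul, mul_one]
        have h4 : ∀ a, (((Icc 1 N).filter (fun n => n + a ∈ Q)).card : ℝ) = ∑ n ∈ Icc 1 N, if n + a ∈ Q then (1 : ℝ) else 0 := by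
          intro a
          rw [← sum_filter, sum_const, nsmul_eq_mul, mul_one]
        rw [sum_congr rfl fun n _ => h3 n, sum_congr rfl fun a _ => h4 a, sum_comm]
      rw [h2]
      have h5 : ∀ a ∈ A, (α - t) * (N / L) ≤ (((Icc 1 N).filter (fun n => n + a ∈ Q)).card : ℝ) := by
        intro a ha
        have h6 : Q ⊆ ((Icc 1 N).filter (fun n => n + a ∈ Q)).image (fun n => n + a) ∪ Icc 1 a := by
          intro q hq
          obtain ⟨g1, g2⟩ := hQ q hq
          rw [mem_union, mem_image, mem_Icc]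
          by_cases h : q ≤ a
          · exact Or.inr ⟨g1.one_lt.le, h⟩
          · refine Or.inl ⟨q - a, mem_filter.2 ⟨mem_Icc.2 ⟨by omega, by omega⟩, ?_⟩, by omega⟩
            rw [show q - a + a = q by omega]
            exact hq
        have h7 := (card_le_card h6).trans (card_union_le _ _)
        have h8 := (card_image_le (s := (Icc 1 N).filter (fun n => n + a ∈ Q)) (f := fun n => n + a))
        rw [Nat.card_Icc, Nat.add_sub_cancel] at h7
        have h9 : (Q.card : ℝ) ≤ (((Icc 1 N).filter (fun n => n + a ∈ Q)).card : ℝ) + a := by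
          exact_mod_cast h7.trans (by omega)
        have h10 : (a : ℝ) ≤ t * (N / L) := by
          refine (hA a ha).2.trans ?_
          rw [sq, ← div_div, div_le_iff₀ hL0]
          calc (N : ℝ) / L = 1 * (N / L) := by ring
            _ ≤ L * t * (N / L) := mul_le_mul_of_nonneg_right hLt (by positivity)
            _ = _ := by ring
        have e5 : (α - t) * ((N : ℝ) / L) = α * (N / L) - t * (N / L) := by ring
        rw [e5]
        linarith
      have h11 := sum_le_sum h5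
      rw [sum_const, nsmul_eq_mul, ← hm] at h11
      refine le_trans (le_of_eq ?_) h11
      field_simp
    have hαt : 0 < α - t := by linarith
    have h12 := col_low k N r Q col A hcol ((α - t) * m / (r * L)) (by positivity) h1
    rw [← hm, ← hP] at h12
    refine le_trans ?_ h12
    have e6 : ((α - t) * m / (r * L)) ^ (k + 2) * (r * N) = (α - t) ^ (k + 2) / r ^ (k + 1) * (D * m ^ (k + 2)) := by
      rw [hD, div_pow, mul_pow, mul_pow, pow_succ (r : ℝ) (k + 1)]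
      field_simp
    have e7 : ((k : ℝ) + 2) ^ 2 * m ^ (k + 1) * (r * N) ≤ t * (D * m ^ (k + 2)) := by
      rw [hD]
      have h13 : ((k : ℝ) + 2) ^ 2 * r * L ^ (k + 2) ≤ t * m := by
        refine le_trans ?_ hNδ
        have g1 : ((k : ℝ) + 2) ^ 2 * r ≤ W := by rw [hW]; exact le_max_right _ _
        have g2 : L ^ (k + 2) ≤ (N : ℝ) ^ δ * L ^ (B + k + 3) := by
          have g3 : L ^ (k + 2) ≤ L ^ (B + k + 3) := pow_le_pow_right₀ hL1 (by omega)
          have g4 : L ^ (B + k + 3) ≤ (N : ℝ) ^ δ * L ^ (B + k + 3) := le_mul_of_one_le_left (by positivity) hNδ1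
          linarith
        gcongr
      calc ((k : ℝ) + 2) ^ 2 * m ^ (k + 1) * (r * N) = ((k : ℝ) + 2) ^ 2 * r * L ^ (k + 2) * (m ^ (k + 1) * (N / L ^ (k + 2))) := by
            field_simp
        _ ≤ t * m * (m ^ (k + 1) * (N / L ^ (k + 2))) := mul_le_mul_of_nonneg_right h13 (by positivity)
        _ = _ := by rw [pow_succ m (k + 1)]; ring
    rw [e6]
    linarith
  -- conclusion
  obtain ⟨S, hS⟩ : ∃ S : ℝ, S = ∑ H ∈ Good, CT H := ⟨_, rfl⟩
  have hS0 : 0 ≤ S := by rw [hS]; exact sum_nonneg fun H _ => CT_nonneg' H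
  rw [← hS] at hup ⊢
  have hfin : ((α - t) ^ (k + 2) / r ^ (k + 1) - 3 * t - c * β) * m ^ (k + 2) ≤
      ((k + 2).factorial : ℝ) * ((1 + t) ^ 2 * 2 ^ (k + 1) * S) := by
    have h1 := mul_le_mul_of_nonneg_left hup (show (0 : ℝ) ≤ (k + 2).factorial by linarith)
    have h2 : ((k + 2).factorial : ℝ) * (P.card * (t * D)) ≤ t * (D * m ^ (k + 2)) := by
      calc ((k + 2).factorial : ℝ) * (P.card * (t * D)) = ((k + 2).factorial : ℝ) * P.card * (t * D) := by ring
        _ ≤ m ^ (k + 2) * (t * D) := mul_le_mul_of_nonneg_right hcardP (by positivity)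
        _ = _ := by ring
    have h3 : ((k + 2).factorial : ℝ) * (P.card * (c * (β * D))) ≤ c * β * (D * m ^ (k + 2)) := by
      calc ((k + 2).factorial : ℝ) * (P.card * (c * (β * D))) = ((k + 2).factorial : ℝ) * P.card * (c * (β * D)) := by ring
        _ ≤ m ^ (k + 2) * (c * (β * D)) := mul_le_mul_of_nonneg_right hcardP (by positivity)
        _ = _ := by ring
    have h4 : D * (((α - t) ^ (k + 2) / r ^ (k + 1) - 3 * t - c * β) * m ^ (k + 2)) ≤
        D * (((k + 2).factorial : ℝ) * ((1 + t) ^ 2 * 2 ^ (k + 1) * S)) := by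
      have e8 : D * (((α - t) ^ (k + 2) / r ^ (k + 1) - 3 * t - c * β) * m ^ (k + 2)) =
          ((α - t) ^ (k + 2) / r ^ (k + 1) - t) * (D * m ^ (k + 2)) - t * (D * m ^ (k + 2)) - t * (D * m ^ (k + 2)) -
            c * β * (D * m ^ (k + 2)) := by ring
      have e9 : ((k + 2).factorial : ℝ) * (Bad.card * N + P.card * (t * D) + P.card * (c * (β * D)) +
          (1 + t) ^ 2 * 2 ^ (k + 1) * D * S) = ((k + 2).factorial : ℝ) * (Bad.card * N) +
          ((k + 2).factorial : ℝ) * (P.card * (t * D)) + ((k + 2).factorial : ℝ) * (P.card * (c * (β * D))) +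
          D * (((k + 2).factorial : ℝ) * ((1 + t) ^ 2 * 2 ^ (k + 1) * S)) := by ring
      rw [e9] at h1
      rw [e8]
      linarith
    exact le_of_mul_le_mul_left h4 hD0
  obtain ⟨num, hnum⟩ : ∃ num : ℝ, num = (α - t) ^ (k + 2) / (r : ℝ) ^ (k + 1) - 3 * t - c * β := ⟨_, rfl⟩
  rw [← hnum] at hfin ht2 ht3
  have hq0 : (0 : ℝ) < (1 + t) ^ 2 * 2 ^ (k + 1) := by positivity
  have h1 : num * (A.card.choose (k + 2) : ℕ) ≤ (1 + t) ^ 2 * 2 ^ (k + 1) * S := by
    have h2 : ((k + 2).factorial : ℝ) * (num * (A.card.choose (k + 2) : ℕ)) ≤ ((k + 2).factorial : ℝ) * ((1 + t) ^ 2 * 2 ^ (k + 1) * S) := by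
      rw [hP, card_powersetCard] at hcardP
      calc ((k + 2).factorial : ℝ) * (num * (A.card.choose (k + 2) : ℕ)) = num * (((k + 2).factorial : ℝ) * (A.card.choose (k + 2) : ℕ)) := by ring
        _ ≤ num * m ^ (k + 2) := mul_le_mul_of_nonneg_left hcardP ht2
        _ ≤ _ := hfin
    exact le_of_mul_le_mul_left h2 (by linarith)
  calc (β * (1 - c) / 2 ^ (k + 1) - η) * ((A.card.choose (k + 2) : ℕ) : ℝ) ≤
        num / ((1 + t) ^ 2 * 2 ^ (k + 1)) * ((A.card.choose (k + 2) : ℕ) : ℝ) :=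
        mul_le_mul_of_nonneg_right ht3 (Nat.cast_nonneg _)
    _ = num * (A.card.choose (k + 2) : ℕ) / ((1 + t) ^ 2 * 2 ^ (k + 1)) := by ring
    _ ≤ S := by
        rw [div_le_iff₀ hq0, mul_comm S]
        exact h1

end Pool.Agent.H528.Tup
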