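import Mathlib
import Pool.Agent.H528.UpLo
import Pool.Graph.R_seed8.Y822.Up
import Pool.Graph.R_pool_sql_team_seeded_3997aac3.Q148.FN.Cons

/-! The bounds at the level itself, and for primes. -/

set_option autoImplicit false

namespace Pool.Agent.H528.Fin1

open Finset Filter
open Pool.Agent.Y822
open Pool.Agent.Y822.Par3
open Pool.Agent.H387R2.Uni (nuT Adm locT CT)
open Pool.Agent.W23.DC (SF)
open Pool.Agent.H528.Mod Pool.Agent.H528.UpLo
open Pool.Agent.Q148.FN (SFu ee)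

lemma Th_lt1 {δ : ℝ} (hδ1 : δ < 1) : Th δ < 1 := by
  unfold Th
  exact max_lt (by norm_num) (by linarith)

lemma Th_ge (δ : ℝ) : 5 / 9 ≤ Th δ := le_max_left _ _

open Topology in
/-- **bounds for almost all sets of shifts, at the level** -/
theorem uplo2 (A0 : ℝ) (F f : ℝ → ℝ) (hSF : SF A0 F f) (δ ζ : ℝ) (hδ : 0 ≤ δ) (hδ1 : δ < 1)
    (hζ : 0 < ζ) (hζτ : ζ < Th δ) (k : ℕ) (ε : ℝ) (hε : 0 < ε) :
    ∃ B : ℕ, ∀ᶠ N : ℕ in atTop, ∀ A : Finset ℕ, (∀ a ∈ A, 1 ≤ a ∧ a ≤ N) → ∀ Bad : Finset (Finset ℕ),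
    (∀ H ∈ Bad, H ∈ A.powersetCard (k + 1) ∧ Adm (pat H) ∧
      ¬ ((cS f (Th δ) ζ ^ (k + 1) - ε) * CT (pat H) * (N / Real.log N ^ (k + 2)) ≤ rgh H (zN ζ N) N ∧
        (rgh H (zN ζ N) N : ℝ) ≤ (cS F (Th δ) ζ ^ (k + 1) + ε) * CT (pat H) * (N / Real.log N ^ (k + 2)))) →
    (Bad.card : ℝ) ≤ A.card.choose k * ((N : ℝ) ^ δ * Real.log N ^ B) := by
  have h59 := Th_ge δ
  have hT1 := Th_lt1 hδ1
  have hs : 1 < Th δ / ζ := by rw [one_lt_div hζ]; exact hζτ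
  have hnhds : Set.Ici (1 : ℝ) ∈ 𝓝 (Th δ / ζ) := Ici_mem_nhds hs
  have hcF : ContinuousAt (fun τ : ℝ => cS F τ ζ ^ (k + 1)) (Th δ) := by
    unfold cS
    refine ContinuousAt.pow (ContinuousAt.mul continuousAt_const ?_) _
    exact ContinuousAt.comp (f := fun τ : ℝ => τ / ζ) (hSF.cF.continuousAt hnhds) (by fun_prop)
  have hcf : ContinuousAt (fun τ : ℝ => cS f τ ζ ^ (k + 1)) (Th δ) := by
    unfold cS
    refine ContinuousAt.pow (ContinuousAt.mul continuousAt_const ?_) _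
    exact ContinuousAt.comp (f := fun τ : ℝ => τ / ζ) (hSF.cf.continuousAt hnhds) (by fun_prop)
  have h1 : ∀ᶠ τ in 𝓝 (Th δ), cS F τ ζ ^ (k + 1) < cS F (Th δ) ζ ^ (k + 1) + ε / 2 :=
    hcF.eventually_lt continuousAt_const (by linarith)
  have h2 : ∀ᶠ τ in 𝓝 (Th δ), cS f (Th δ) ζ ^ (k + 1) - ε / 2 < cS f τ ζ ^ (k + 1) :=
    continuousAt_const.eventually_lt hcf (by linarith)
  have h3 : ∀ᶠ τ in 𝓝 (Th δ), max (1 / 2) ζ < τ := lt_mem_nhds (max_lt (by linarith) hζτ)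
  have h4 := (h1.and (h2.and h3)).filter_mono (nhdsWithin_le_nhds (s := Set.Iio (Th δ)))
  have h5 : ∀ᶠ τ : ℝ in 𝓝[<] (Th δ), τ < Th δ := self_mem_nhdsWithin
  obtain ⟨τ, ⟨g1, g2, g3⟩, g4⟩ := (h4.and h5).exists
  obtain ⟨B, hB⟩ := uplo1 A0 F f hSF δ τ ζ hδ hδ1 ((le_max_left _ _).trans g3.le) g4 hζ
    ((le_max_right _ _).trans g3.le) (by linarith) k (ε / 2) (by linarith)
  refine ⟨B, ?_⟩
  filter_upwards [hB, eventually_ge_atTop 2] with N hN hN2 A hA Bad hBad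
  have hN0 : (0 : ℝ) < N := by exact_mod_cast (by omega : 0 < N)
  have hL0 : 0 < Real.log N := Real.log_pos (by exact_mod_cast (by omega : 1 < N))
  refine hN A hA Bad fun H hH => ?_
  obtain ⟨b1, b2, b3⟩ := hBad H hH
  have hCT : 0 ≤ CT (pat H) := by
    rw [← Pool.Agent.H387R2.Uni.CT_en]
    apply le_of_lt
    apply Pool.Agent.H386R2.HL.singularSeries_pos (Pool.Agent.H387R2.Uni.en_inj _)
    intro p hp
    rw [Pool.Agent.H387R2.Uni.nu_en]
    exact b2 p hp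
  have hX : 0 ≤ CT (pat H) * ((N : ℝ) / Real.log N ^ (k + 2)) := by positivity
  rw [not_and_or, not_le, not_le] at b3
  rcases b3 with b3 | b3
  · right
    refine ⟨b1, b2, b3.trans_le ?_⟩
    have g5 : cS f (Th δ) ζ ^ (k + 1) - ε ≤ cS f τ ζ ^ (k + 1) - ε / 2 := by linarith
    rw [mul_assoc, mul_assoc]
    exact mul_le_mul_of_nonneg_right g5 hX
  · left
    refine ⟨b1, b2, lt_of_le_of_lt ?_ b3⟩
    have g5 : cS F τ ζ ^ (k + 1) + ε / 2 ≤ cS F (Th δ) ζ ^ (k + 1) + ε := by linarith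
    rw [mul_assoc, mul_assoc]
    exact mul_le_mul_of_nonneg_right g5 hX

/-- the upper constant for `ζ = Θ / 2` -/
lemma cS_half {F f : ℝ → ℝ} (hSF : SF (2 * Real.exp Real.eulerMascheroniConstant) F f) (Θ : ℝ) (hΘ : 0 < Θ) :
    cS F Θ (Θ / 2) = 2 / Θ := by
  unfold cS
  have hs : Θ / (Θ / 2) = 2 := by field_simp
  rw [hs, hSF.F3 2 (by norm_num) (by norm_num)]
  have := ee
  field_simp
  linarith

/-- the lower constant for `Θ / 4 ≤ ζ ≤ Θ / 2` -/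
lemma cS_low {F f : ℝ → ℝ} (hSF : SF (2 * Real.exp Real.eulerMascheroniConstant) F f) (Θ ζ : ℝ) (hζ : 0 < ζ)
    (h1 : Θ / 4 ≤ ζ) (h2 : ζ ≤ Θ / 2) :
    cS f Θ ζ = 2 / Θ * Real.log (Θ / ζ - 1) := by
  unfold cS
  have hΘ : 0 < Θ := by linarith
  have hs1 : 2 ≤ Θ / ζ := by rw [le_div_iff₀ hζ]; linarith
  have hs2 : Θ / ζ ≤ 4 := by rw [div_le_iff₀ hζ]; linarith
  rw [hSF.f4 _ hs1 hs2]
  have h3 : Real.exp (-Real.eulerMascheroniConstant) / ζ *
      (2 * Real.exp Real.eulerMascheroniConstant * Real.log (Θ / ζ - 1) / (Θ / ζ)) =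
      (Real.exp Real.eulerMascheroniConstant * Real.exp (-Real.eulerMascheroniConstant)) *
        (2 / Θ * Real.log (Θ / ζ - 1)) := by
    field_simp
  rw [h3, ee, one_mul]

/-- **the upper bound for primes** -/
theorem prime2 (δ : ℝ) (hδ : 0 ≤ δ) (hδ1 : δ < 1) (k : ℕ) (ε : ℝ) (hε : 0 < ε) :
    ∃ B : ℕ, ∀ᶠ N : ℕ in atTop, ∀ A : Finset ℕ, (∀ a ∈ A, 1 ≤ a ∧ a ≤ N) → ∀ Bad : Finset (Finset ℕ),
    (∀ H ∈ Bad, H ∈ A.powersetCard (k + 1) ∧ Adm (pat H) ∧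
      ((2 / Th δ) ^ (k + 1) + ε) * CT (pat H) * (N / Real.log N ^ (k + 2)) < piH H N) →
    (Bad.card : ℝ) ≤ A.card.choose k * ((N : ℝ) ^ δ * Real.log N ^ B) := by
  obtain ⟨F, f, hSF⟩ := SFu
  have h59 := Th_ge δ
  have hT1 := Th_lt1 hδ1
  obtain ⟨B, hB⟩ := uplo2 _ F f hSF δ (Th δ / 2) hδ hδ1 (by linarith) (by linarith) k (ε / 2) (by linarith)
  rw [cS_half hSF (Th δ) (by linarith)] at hB
  obtain ⟨c0, hc0, hlow⟩ := PT_low (k + 1)
  have e2 := ev_logN (ev_pow_exp (k + 2) (1 / 2) (2 / (ε * c0)) (by norm_num))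
  refine ⟨B, ?_⟩
  filter_upwards [hB, e2, eventually_ge_atTop 3] with N hN h4 hN3 A hA Bad hBad
  have hN0 : (0 : ℝ) < N := by positivity
  have hN1 : (1 : ℝ) ≤ N := by exact_mod_cast (by omega : 1 ≤ N)
  have hL0 : 0 < Real.log N := Real.log_pos (by exact_mod_cast (by omega : 1 < N))
  refine hN A hA Bad fun H hH => ?_
  obtain ⟨b1, b2, b3⟩ := hBad H hH
  refine ⟨b1, b2, fun hc => ?_⟩
  have b4 := mem_powersetCard.1 b1
  have h0 : 0 ∉ H := fun h => by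
    have := (hA 0 (b4.1 h)).1
    omega
  have hTc : (pat H).card = k + 1 + 1 := by rw [card_pat h0, b4.2]
  obtain ⟨c1, c2⟩ := hlow (pat H) hTc b2
  obtain ⟨z, hz⟩ : ∃ z : ℕ, z = zN (Th δ / 2) N := ⟨_, rfl⟩
  rw [← hz] at hc
  have t1 := piH_le H N z (ro 1)
  rw [sum_rgh] at t1
  have t2 : (z : ℝ) ≤ ε / 2 * CT (pat H) * (N / Real.log N ^ (k + 2)) := by
    have g1 : (z : ℝ) ≤ Real.exp (Real.log N / 2) := by
      have g2 := zN_lt (ε₁ := Th δ / 2) (N := N) (by omega)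
      rw [← hz] at g2
      refine g2.le.trans ?_
      rw [Real.rpow_def_of_pos hN0]
      apply Real.exp_le_exp.2
      have : Real.log N * (Th δ / 2) ≤ Real.log N * (1 / 2) := mul_le_mul_of_nonneg_left (by linarith) hL0.le
      linarith
    refine g1.trans ?_
    have g3 : ε / 2 * c0 * (N / Real.log N ^ (k + 2)) ≤ ε / 2 * CT (pat H) * (N / Real.log N ^ (k + 2)) := by
      apply mul_le_mul_of_nonneg_right _ (by positivity)
      exact mul_le_mul_of_nonneg_left c2 (by positivity)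
    refine le_trans ?_ g3
    rw [mul_div_assoc', le_div_iff₀ (by positivity)]
    have g4 : 2 / (ε * c0) * Real.log N ^ (k + 2) ≤ Real.exp (Real.log N / 2) := by
      refine h4.trans (le_of_eq ?_)
      congr 1
      ring
    have g5 : Real.log N ^ (k + 2) ≤ ε * c0 / 2 * Real.exp (Real.log N / 2) := by
      have h6 : Real.log N ^ (k + 2) = ε * c0 / 2 * (2 / (ε * c0) * Real.log N ^ (k + 2)) := by field_simp
      rw [h6]
      exact mul_le_mul_of_nonneg_left g4 (by positivity)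
    calc Real.exp (Real.log N / 2) * Real.log N ^ (k + 2) ≤
          Real.exp (Real.log N / 2) * (ε * c0 / 2 * Real.exp (Real.log N / 2)) :=
          mul_le_mul_of_nonneg_left g5 (Real.exp_pos _).le
      _ = ε / 2 * c0 * (Real.exp (Real.log N / 2) * Real.exp (Real.log N / 2)) := by ring
      _ = ε / 2 * c0 * N := by
          rw [← Real.exp_add, add_halves, Real.exp_log hN0]
  have t3 : ((2 / Th δ) ^ (k + 1) + ε) * CT (pat H) * (N / Real.log N ^ (k + 2)) =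
      ((2 / Th δ) ^ (k + 1) + ε / 2) * CT (pat H) * (N / Real.log N ^ (k + 2)) +
        ε / 2 * CT (pat H) * (N / Real.log N ^ (k + 2)) := by ring
  linarith [hc.2]

end Pool.Agent.H528.Fin1
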