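import Mathlib
import Pool.Agent.H528.Mass

/-! The total mass of the products of `Λ₂`. -/

set_option autoImplicit false

namespace Pool.Agent.H528.Mass

open Finset Filter Topology
open Pool.Agent.Y822 Pool.Agent.Y822.Par3
open Pool.Agent.Y822.Q (int0)
open Pool.Agent.H373R2.T7 (pz Vz mem_pz Vz_pos)
open Pool.Agent.H387R2.Uni (nuT Adm locT CT)
open Pool.Agent.H528.UpLo Pool.Agent.H528.Lam
open Pool.Agent.H528.AsyL Pool.Agent.H528.Gen Pool.Agent.H528.PCnt Pool.Agent.H528.Tup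

/-- the final computation -/
lemma massT_calc {x M n S W : ℝ} (hx0 : 0 ≤ x) (hx1 : x ≤ 1) (hM : 0 ≤ M) (hn : n ≤ x * M)
    (h1 : |S - W| ≤ x * W + n) (h2 : |W - M| ≤ x * M) : |S - M| ≤ 4 * x * M := by
  obtain ⟨a1, a2⟩ := abs_le.1 h1
  obtain ⟨b1, b2⟩ := abs_le.1 h2
  have h3 : W ≤ 2 * M := by nlinarith
  have h4 : x * W ≤ x * (2 * M) := mul_le_mul_of_nonneg_left h3 hx0
  have h5 : x * (2 * M) = 2 * (x * M) := by ring
  rw [abs_le]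
  constructor <;> nlinarith

/-- **the total mass of the products of `Λ₂`** -/
theorem mass_T (k : ℕ) (ε : ℝ) (hε : 0 < ε) : ∃ δ : ℝ, 1 / 2 ≤ δ ∧ δ < 1 ∧
    ∃ ξ : ℝ, 0 < ξ ∧ ξ ≤ 1 / 8 ∧ ξ ≤ ε ∧ ∃ B : ℕ, ∀ᶠ N : ℕ in atTop,
    ∀ A : Finset ℕ, (∀ a ∈ A, 1 ≤ a ∧ a ≤ N) → ∀ Bad : Finset (Finset ℕ),
    (∀ H ∈ Bad, H ∈ A.powersetCard (k + 1) ∧ Adm H ∧
      ε * CT H * (N * Real.log N ^ (k + 1)) <
        |SE (fun _ => 1) (zN ξ N) N H - 2 ^ (k + 1) * CT H * (N * Real.log N ^ (k + 1))|) →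
    (Bad.card : ℝ) ≤ A.card.choose k * ((N : ℝ) ^ δ * Real.log N ^ B) := by
  obtain ⟨x, hx⟩ : ∃ x : ℝ, x = min (ε / 2 ^ (k + 3)) (1 / 8) := ⟨_, rfl⟩
  have hx0 : 0 < x := by rw [hx]; positivity
  have hx8 : x ≤ 1 / 8 := by rw [hx]; exact min_le_right _ _
  have hxε : x * 2 ^ (k + 3) ≤ ε := by
    have : x ≤ ε / 2 ^ (k + 3) := by rw [hx]; exact min_le_left _ _
    rwa [le_div_iff₀ (by positivity)] at this
  have hxε' : x ≤ ε := by
    have : x * 1 ≤ x * 2 ^ (k + 3) := mul_le_mul_of_nonneg_left (one_le_pow₀ (by norm_num)) hx0.le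
    linarith
  obtain ⟨δ, hδ1, hδ2, ξ, hξ, hξ8, hξx, κ, hκ, hκ1, B, HP⟩ := genL k 0 x hx0
  obtain ⟨c0, hc0, hlow⟩ := PT_low k
  refine ⟨δ, hδ1, hδ2, ξ, hξ, hξ8, hξx.trans hxε', B, ?_⟩
  have e1 := ev_logN (eventually_ge_atTop (max 1 (1 / (x * c0))))
  filter_upwards [HP, mass_one k κ hκ hκ1 x hx0, e1, eventually_ge_atTop 3] with N hP hM f1 hN A hA Bad hBad
  obtain ⟨L, hL⟩ : ∃ L : ℝ, L = Real.log N := ⟨_, rfl⟩
  rw [← hL] at f1 hBad hP hM ⊢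
  have hL1 : 1 ≤ L := (le_max_left _ _).trans f1
  have hL0 : 0 < L := by linarith
  have hLc : 1 / (x * c0) ≤ L := (le_max_right _ _).trans f1
  rw [div_le_iff₀ (by positivity)] at hLc
  have hN0 : (0 : ℝ) < N := by exact_mod_cast (by omega : 0 < N)
  refine hP (fun _ => 1) (fun _ => ⟨zero_le_one, le_rfl⟩) A hA Bad fun H hH => ?_
  obtain ⟨b1, b2, b3⟩ := hBad H hH
  refine ⟨b1, ?_⟩
  by_contra hcon
  push Not at hcon
  apply absurd b3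
  push Not
  rw [mem_powersetCard] at b1
  rw [pow_zero, div_one] at hcon
  have h1 := hM H b1.2 (fun h hh => (hA h (b1.1 hh)).2) b2
  obtain ⟨l1, l2⟩ := hlow H b1.2 b2
  have hCT : 0 < CT H := by linarith
  obtain ⟨M, hMd⟩ : ∃ M : ℝ, M = 2 ^ (k + 1) * CT H * (N * L ^ (k + 1)) := ⟨_, rfl⟩
  rw [← hMd] at h1 ⊢
  have hM0 : 0 ≤ M := by rw [hMd]; positivity
  have hn : (N : ℝ) ≤ x * M := by
    have g1 : c0 * (N * L) ≤ M := by
      rw [hMd]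
      have g2 : L ≤ L ^ (k + 1) := le_self_pow₀ hL1 (by omega)
      have g3 : (1 : ℝ) ≤ 2 ^ (k + 1) := one_le_pow₀ (by norm_num)
      calc c0 * (N * L) = 1 * c0 * (N * L) := by ring
        _ ≤ 2 ^ (k + 1) * CT H * (N * L ^ (k + 1)) := by gcongr
    calc (N : ℝ) = 1 * N := by ring
      _ ≤ L * (x * c0) * N := mul_le_mul_of_nonneg_right hLc hN0.le
      _ = x * (c0 * (N * L)) := by ring
      _ ≤ x * M := mul_le_mul_of_nonneg_left g1 hx0.le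
  refine (massT_calc hx0.le (by linarith) hM0 hn hcon h1).trans ?_
  rw [hMd]
  have e2 : 4 * x * (2 ^ (k + 1) * CT H * (N * L ^ (k + 1))) = x * 2 ^ (k + 3) * (CT H * (N * L ^ (k + 1))) := by
    have : (2 : ℝ) ^ (k + 3) = 2 ^ (k + 1) * 4 := by rw [pow_add, pow_add]; norm_num; ring
    rw [this]
    ring
  rw [e2]
  have e3 : ε * CT H * (N * L ^ (k + 1)) = ε * (CT H * (N * L ^ (k + 1))) := by ring
  rw [e3]
  exact mul_le_mul_of_nonneg_right hxε (by positivity)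

end Pool.Agent.H528.Mass
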