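import Mathlib
import Pool.Agent.H528.MassT

/-! The asymptotic sieve, one form after the other. -/

set_option autoImplicit false

namespace Pool.Agent.H528.It

open Finset Filter Topology
open Pool.Agent.Y822 Pool.Agent.Y822.Par3
open Pool.Agent.H373R2.T7 (pz Vz mem_pz Vz_pos Vz_le_one)
open Pool.Agent.H387R2.Uni (nuT Adm locT CT)
open Pool.Agent.H528.Gam Pool.Agent.H528.UpLo Pool.Agent.H528.Lam
open Pool.Agent.H528.AsyL Pool.Agent.H528.Gen Pool.Agent.H528.PCnt Pool.Agent.H528.Tup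

/-- the main weight -/
noncomputable def lw (z m : ℕ) : ℝ := ro z m * L2 m

/-- the mixed sums -/
noncomputable def MX (f : ℕ → ℝ) (z y N : ℕ) (P J R : Finset ℕ) : ℝ :=
  ∑ n ∈ Icc 1 N, f n * ((∏ t ∈ P, eP (n + t)) * (∏ t ∈ J, lw z (n + t)) * ∏ t ∈ R, ro y (n + t))

lemma lw_bd {z N m : ℕ} (hN : 2 ≤ N) (h1 : 1 ≤ m) (hm : m ≤ 2 * N) : 0 ≤ lw z m ∧ lw z m ≤ 4 * Real.log N ^ 2 := by
  obtain ⟨g4, g5⟩ := L2_bd (m := m) h1
  have g6 := ro_nonneg z m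
  have g7 := ro_le_one z m
  refine ⟨mul_nonneg g6 g4, ?_⟩
  have hNr : (2 : ℝ) ≤ N := by exact_mod_cast hN
  have g8 : Real.log (m : ℝ) ≤ 2 * Real.log N := by
    have h2 : Real.log (m : ℝ) ≤ Real.log ((N : ℝ) ^ 2) := by
      apply Real.log_le_log (by exact_mod_cast h1)
      have : (m : ℝ) ≤ 2 * N := by exact_mod_cast hm
      nlinarith
    rw [Real.log_pow] at h2
    push_cast at h2
    exact h2
  have g9 : Real.log (m : ℝ) ^ 2 ≤ (2 * Real.log N) ^ 2 := pow_le_pow_left₀ (log_nn _) g8 2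
  unfold lw
  calc ro z m * L2 m ≤ 1 * L2 m := mul_le_mul_of_nonneg_right g7 g4
    _ ≤ 4 * Real.log N ^ 2 := by rw [one_mul]; linarith

lemma MX_nonneg {f : ℕ → ℝ} (hf : ∀ n, 0 ≤ f n) {z y N : ℕ} (hN : 2 ≤ N) (P J R : Finset ℕ) (hJ : ∀ t ∈ J, t ≤ N) :
    0 ≤ MX f z y N P J R := by
  refine sum_nonneg fun n hn => mul_nonneg (hf n) (mul_nonneg (mul_nonneg (prod_nonneg fun t _ => (eP_bd _).1)
    (prod_nonneg fun t ht => ?_)) (prod_nonneg fun t _ => ro_nonneg _ _))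
  rw [mem_Icc] at hn
  have := hJ t ht
  exact (lw_bd hN (by omega) (by omega)).1

/-- one shift -/
theorem one (U : ℕ) (ε : ℝ) (hε : 0 < ε) : ∃ δ : ℝ, 1 / 2 ≤ δ ∧ δ < 1 ∧
    ∃ ξ : ℝ, 0 < ξ ∧ ξ ≤ 1 / 8 ∧ ξ ≤ ε ∧ ∃ κ : ℝ, 0 < κ ∧ κ ≤ 1 ∧ ∃ B : ℕ, ∀ᶠ N : ℕ in atTop,
    ∀ e : ℕ → ℝ, (∀ n, 0 ≤ e n ∧ e n ≤ 1) → ∀ Bd : Finset ℕ,
    (∀ a ∈ Bd, (1 ≤ a ∧ a ≤ N) ∧
      ε * (2 * Real.log N / Vz (yN κ N) * ∑ n ∈ Icc 1 N, e n * ro (yN κ N) (n + a)) + N / Real.log N ^ U <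
        |∑ n ∈ Icc 1 N, e n * lw (zN ξ N) (n + a) -
          2 * Real.log N / Vz (yN κ N) * ∑ n ∈ Icc 1 N, e n * ro (yN κ N) (n + a)|) →
    (Bd.card : ℝ) ≤ (N : ℝ) ^ δ * Real.log N ^ B := by
  obtain ⟨δ, hδ1, hδ2, ξ, hξ, hξ8, hξx, κ, hκ, hκ1, B, HP⟩ := genL 0 U ε hε
  refine ⟨δ, hδ1, hδ2, ξ, hξ, hξ8, hξx, κ, hκ, hκ1, B, ?_⟩
  filter_upwards [HP] with N hP e he Bd hBd
  have h1 := hP e he Bd (fun a ha => (hBd a ha).1) (Bd.image fun a => {a}) fun H hH => by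
    rw [mem_image] at hH
    obtain ⟨a, ha, rfl⟩ := hH
    refine ⟨by rw [mem_powersetCard]; exact ⟨singleton_subset_iff.2 ha, by simp⟩, ?_⟩
    have h2 := (hBd a ha).2
    unfold SE RE
    simp only [zero_add, pow_one, prod_singleton]
    exact h2
  rw [card_image_of_injective _ (fun a b h => singleton_injective h), Nat.choose_zero_right, Nat.cast_one, one_mul] at h1
  exact h1

open Classical in
/-- **the steps** -/
theorem steps (k U : ℕ) (ε : ℝ) (hε : 0 < ε) : ∃ δ : ℝ, 1 / 2 ≤ δ ∧ δ < 1 ∧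
    ∃ ξ : ℝ, 0 < ξ ∧ ξ ≤ 1 / 8 ∧ ξ ≤ ε ∧ ∃ κ : ℝ, 0 < κ ∧ κ ≤ 1 ∧ ∃ B : ℕ, ∀ᶠ N : ℕ in atTop,
    ∀ f : ℕ → ℝ, (∀ n, 0 ≤ f n ∧ f n ≤ 1) →
    ∀ A : Finset ℕ, (∀ a ∈ A, 1 ≤ a ∧ a ≤ N) → ∀ Bad : Finset (Finset ℕ),
    (∀ H ∈ Bad, H ∈ A.powersetCard (k + 1) ∧ ∃ h ∈ H, ∃ P ⊆ H.erase h, ∃ J ⊆ H.erase h,
      ε * (2 * Real.log N / Vz (yN κ N) * MX f (zN ξ N) (yN κ N) N P J (insert h ((H.erase h \ P) \ J))) +
        (4 * Real.log N ^ 2) ^ k * (N / Real.log N ^ U) <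
        |MX f (zN ξ N) (yN κ N) N P (insert h J) ((H.erase h \ P) \ J) -
          2 * Real.log N / Vz (yN κ N) * MX f (zN ξ N) (yN κ N) N P J (insert h ((H.erase h \ P) \ J))|) →
    (Bad.card : ℝ) ≤ A.card.choose k * (4 ^ k * ((N : ℝ) ^ δ * Real.log N ^ B)) := by
  obtain ⟨δ, hδ1, hδ2, ξ, hξ, hξ8, hξx, κ, hκ, hκ1, B, HP⟩ := one U ε hε
  refine ⟨δ, hδ1, hδ2, ξ, hξ, hξ8, hξx, κ, hκ, hκ1, B, ?_⟩
  filter_upwards [HP, ev_logN (eventually_ge_atTop (1 : ℝ)), eventually_ge_atTop 2] with N hP hL1 hN f hf A hA Bad hBad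
  obtain ⟨L, hL⟩ : ∃ L : ℝ, L = Real.log N := ⟨_, rfl⟩
  have hbd := fun (z m : ℕ) (h1 : 1 ≤ m) (hm : m ≤ 2 * N) => lw_bd (z := z) hN h1 hm
  rw [← hL] at hL1 hBad hP ⊢
  simp only [← hL] at hbd
  obtain ⟨z, hz⟩ : ∃ z : ℕ, z = zN ξ N := ⟨_, rfl⟩
  obtain ⟨y, hy⟩ : ∃ y : ℕ, y = yN κ N := ⟨_, rfl⟩
  rw [← hz, ← hy] at hBad hP
  obtain ⟨W, hW⟩ : ∃ W : ℝ, W = 2 * L / Vz y := ⟨_, rfl⟩
  rw [← hW] at hBad hP
  have hL0 : 0 < L := by linarith
  obtain ⟨C, hC⟩ : ∃ C : ℝ, C = 4 * L ^ 2 := ⟨_, rfl⟩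
  rw [← hC] at hbd
  have hC0 : 0 < C := by rw [hC]; positivity
  have hC1 : 1 ≤ C := by rw [hC]; nlinarith
  have hN0 : (0 : ℝ) < N := by exact_mod_cast (by omega : 0 < N)
  -- the bad shifts for a given configuration
  set BS : Finset ℕ → Finset ℕ → Finset ℕ → Finset ℕ := fun T P J =>
    A.filter (fun h => h ∉ T ∧ ε * (W * MX f z y N P J (insert h ((T \ P) \ J))) + C ^ k * (N / L ^ U) <
      |MX f z y N P (insert h J) ((T \ P) \ J) - W * MX f z y N P J (insert h ((T \ P) \ J))|) with hBS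
  have hone : ∀ T ∈ A.powersetCard k, ∀ P ∈ T.powerset, ∀ J ∈ T.powerset, ((BS T P J).card : ℝ) ≤ (N : ℝ) ^ δ * L ^ B := by
    intro T hT P hP' J hJ
    rw [mem_powersetCard] at hT
    rw [mem_powerset] at hP' hJ
    have hTN : ∀ t ∈ T, 1 ≤ t ∧ t ≤ N := fun t ht => hA t (hT.1 ht)
    set e : ℕ → ℝ := fun n => if n ≤ N then f n * ((∏ t ∈ P, eP (n + t)) * (∏ t ∈ J, (lw z (n + t) / C)) *
      ∏ t ∈ (T \ P) \ J, ro y (n + t)) else 0 with he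
    have hlw : ∀ n, n ≤ N → ∀ t ∈ T, 0 ≤ lw z (n + t) / C ∧ lw z (n + t) / C ≤ 1 := by
      intro n hn t ht
      obtain ⟨h1, h2⟩ := hTN t ht
      obtain ⟨g1, g2⟩ := hbd z (n + t) (by omega) (by omega)
      exact ⟨div_nonneg g1 hC0.le, (div_le_one hC0).2 g2⟩
    have he01 : ∀ n, 0 ≤ e n ∧ e n ≤ 1 := by
      intro n
      rw [he]
      dsimp only
      split_ifs with hn
      · have q1 : 0 ≤ ∏ t ∈ P, eP (n + t) := prod_nonneg fun t _ => (eP_bd _).1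
        have q2 : ∏ t ∈ P, eP (n + t) ≤ 1 := prod_le_one (fun t _ => (eP_bd _).1) fun t _ => (eP_bd _).2
        have q3 : 0 ≤ ∏ t ∈ J, (lw z (n + t) / C) := prod_nonneg fun t ht => (hlw n hn t (hJ ht)).1
        have q4 : ∏ t ∈ J, (lw z (n + t) / C) ≤ 1 :=
          prod_le_one (fun t ht => (hlw n hn t (hJ ht)).1) fun t ht => (hlw n hn t (hJ ht)).2
        have q5 : 0 ≤ ∏ t ∈ (T \ P) \ J, ro y (n + t) := prod_nonneg fun t _ => ro_nonneg _ _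
        have q6 : ∏ t ∈ (T \ P) \ J, ro y (n + t) ≤ 1 := prod_le_one (fun t _ => ro_nonneg _ _) fun t _ => ro_le_one _ _
        refine ⟨mul_nonneg (hf n).1 (mul_nonneg (mul_nonneg q1 q3) q5), ?_⟩
        exact mul_le_one₀ (hf n).2 (mul_nonneg (mul_nonneg q1 q3) q5)
          (mul_le_one₀ (mul_le_one₀ q2 q3 q4) q5 q6)
      · exact ⟨le_rfl, zero_le_one⟩
    refine hP e he01 (BS T P J) fun h hh => ?_
    rw [hBS] at hh
    rw [mem_filter] at hh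
    obtain ⟨h1, h2, h3⟩ := hh
    refine ⟨hA h h1, ?_⟩
    have hhJ : h ∉ J := fun hx => h2 (hJ hx)
    have hhR : h ∉ (T \ P) \ J := fun hx => h2 (Finset.mem_sdiff.1 (Finset.mem_sdiff.1 hx).1).1
    obtain ⟨D, hD⟩ : ∃ D : ℝ, D = C ^ J.card := ⟨_, rfl⟩
    have hD0 : 0 < D := by rw [hD]; positivity
    have s1 : ∑ n ∈ Icc 1 N, e n * lw z (n + h) = MX f z y N P (insert h J) ((T \ P) \ J) / D := by
      unfold MX
      rw [sum_div]
      refine sum_congr rfl fun n hn => ?_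
      rw [mem_Icc] at hn
      rw [he]
      dsimp only
      rw [if_pos hn.2, prod_insert hhJ, prod_div_distrib, prod_const, ← hD]
      field_simp
    have s2 : ∑ n ∈ Icc 1 N, e n * ro y (n + h) = MX f z y N P J (insert h ((T \ P) \ J)) / D := by
      unfold MX
      rw [sum_div]
      refine sum_congr rfl fun n hn => ?_
      rw [mem_Icc] at hn
      rw [he]
      dsimp only
      rw [if_pos hn.2, prod_insert hhR, prod_div_distrib, prod_const, ← hD]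
      field_simp
    rw [s1, s2]
    obtain ⟨X, hX⟩ : ∃ X : ℝ, X = MX f z y N P (insert h J) ((T \ P) \ J) := ⟨_, rfl⟩
    obtain ⟨Y, hY⟩ : ∃ Y : ℝ, Y = MX f z y N P J (insert h ((T \ P) \ J)) := ⟨_, rfl⟩
    rw [← hX, ← hY] at h3 ⊢
    have e1 : X / D - W * (Y / D) = (X - W * Y) / D := by ring
    rw [e1, abs_div, abs_of_pos hD0, lt_div_iff₀ hD0]
    refine lt_of_le_of_lt ?_ h3
    have hDC : D ≤ C ^ k := by
      rw [hD]
      exact pow_le_pow_right₀ hC1 ((card_le_card hJ).trans hT.2.le)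
    have e2 : (ε * (W * (Y / D)) + N / L ^ U) * D = ε * (W * Y) + D * (N / L ^ U) := by
      field_simp
    rw [e2]
    have e3 : D * (N / L ^ U) ≤ C ^ k * (N / L ^ U) := mul_le_mul_of_nonneg_right hDC (by positivity)
    linarith
  have hsub : Bad ⊆ (A.powersetCard k).biUnion fun T => T.powerset.biUnion fun P => T.powerset.biUnion fun J =>
      (BS T P J).image fun h => insert h T := by
    intro H hH
    obtain ⟨b1, h, hh, P, hP', J, hJ, b2⟩ := hBad H hH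
    rw [mem_powersetCard] at b1
    rw [mem_biUnion]
    refine ⟨H.erase h, ?_, ?_⟩
    · rw [mem_powersetCard]
      exact ⟨(erase_subset _ _).trans b1.1, by rw [card_erase_of_mem hh, b1.2, Nat.add_sub_cancel]⟩
    · rw [mem_biUnion]
      refine ⟨P, mem_powerset.2 hP', ?_⟩
      rw [mem_biUnion]
      refine ⟨J, mem_powerset.2 hJ, ?_⟩
      rw [mem_image]
      refine ⟨h, ?_, insert_erase hh⟩
      rw [hBS, mem_filter]
      refine ⟨b1.1 hh, notMem_erase h H, ?_⟩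
      rw [← hC] at b2
      exact b2
  obtain ⟨M, hM⟩ : ∃ M : ℝ, M = (N : ℝ) ^ δ * L ^ B := ⟨_, rfl⟩
  rw [← hM] at hone ⊢
  have h1 : (Bad.card : ℝ) ≤ ∑ T ∈ A.powersetCard k, ∑ P ∈ T.powerset, ∑ J ∈ T.powerset, ((BS T P J).card : ℝ) := by
    have h2 := card_le_card hsub
    have h3 := h2.trans (card_biUnion_le.trans (sum_le_sum fun T _ => card_biUnion_le.trans (sum_le_sum fun P _ =>
      card_biUnion_le.trans (sum_le_sum fun J _ => card_image_le))))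
    exact_mod_cast h3
  refine h1.trans ?_
  calc ∑ T ∈ A.powersetCard k, ∑ P ∈ T.powerset, ∑ J ∈ T.powerset, ((BS T P J).card : ℝ)
      ≤ ∑ _T ∈ A.powersetCard k, 4 ^ k * M := by
        refine sum_le_sum fun T hT => ?_
        have hTc := (mem_powersetCard.1 hT).2
        calc ∑ P ∈ T.powerset, ∑ J ∈ T.powerset, ((BS T P J).card : ℝ)
            ≤ ∑ _P ∈ T.powerset, ∑ _J ∈ T.powerset, M :=
              sum_le_sum fun P hP' => sum_le_sum fun J hJ => hone T hT P hP' J hJ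
          _ = 4 ^ k * M := by
              rw [sum_const, sum_const, card_powerset, hTc, nsmul_eq_mul, nsmul_eq_mul]
              push_cast
              rw [← mul_assoc, ← mul_pow]
              norm_num
    _ = _ := by rw [sum_const, card_powersetCard, nsmul_eq_mul]

end Pool.Agent.H528.It
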