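import Mathlib
import Pool.Agent.H528.It

/-! The asymptotic sieve, one form after the other: the iteration. -/

set_option autoImplicit false

namespace Pool.Agent.H528.It

open Finset Filter Topology
open Pool.Agent.Y822 Pool.Agent.Y822.Par3
open Pool.Agent.H373R2.T7 (pz Vz mem_pz Vz_pos Vz_le_one)
open Pool.Agent.H387R2.Uni (nuT Adm locT CT)
open Pool.Agent.H528.Gam Pool.Agent.H528.UpLo Pool.Agent.H528.Lam
open Pool.Agent.H528.AsyL Pool.Agent.H528.Gen Pool.Agent.H528.PCnt Pool.Agent.H528.Tup Pool.Agent.H528.Mass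

/-- the iteration -/
lemma iter {f : ℕ → ℝ} {z y N : ℕ} {H : Finset ℕ} {W x E : ℝ} (hW : 1 ≤ W) (hx : 0 ≤ x) (hx1 : x ≤ 1) (hE : 0 ≤ E)
    (hg : ∀ h ∈ H, ∀ P ⊆ H.erase h, ∀ J ⊆ H.erase h,
      |MX f z y N P (insert h J) ((H.erase h \ P) \ J) - W * MX f z y N P J (insert h ((H.erase h \ P) \ J))| ≤
        x * (W * MX f z y N P J (insert h ((H.erase h \ P) \ J))) + E)
    (P : Finset ℕ) (hP : P ⊆ H) : ∀ J : Finset ℕ, J ⊆ H \ P →
      MX f z y N P J ((H \ P) \ J) ≤ ((1 + x) * W) ^ J.card * MX f z y N P ∅ (H \ P) + J.card * (2 * W) ^ J.card * E ∧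
      ((1 - x) * W) ^ J.card * MX f z y N P ∅ (H \ P) - J.card * (2 * W) ^ J.card * E ≤ MX f z y N P J ((H \ P) \ J) := by
  intro J
  induction J using Finset.induction_on with
  | empty =>
    intro _
    rw [sdiff_empty]
    simp
  | insert h J' hhJ ih =>
    intro hJ
    have hJ' : J' ⊆ H \ P := (subset_insert _ _).trans hJ
    obtain ⟨i1, i2⟩ := ih hJ'
    have hh := hJ (mem_insert_self h J')
    rw [Finset.mem_sdiff] at hh
    have hP1 : P ⊆ H.erase h := fun t ht => mem_erase.2 ⟨fun e => hh.2 (e ▸ ht), hP ht⟩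
    have hJ1 : J' ⊆ H.erase h := fun t ht =>
      mem_erase.2 ⟨fun e => hhJ (e ▸ ht), (Finset.mem_sdiff.1 (hJ' ht)).1⟩
    have h1 := hg h hh.1 P hP1 J' hJ1
    have e1 : (H.erase h \ P) \ J' = (H \ P) \ (insert h J') := by
      ext t
      simp only [Finset.mem_sdiff, mem_erase, mem_insert]
      tauto
    have e2 : insert h ((H.erase h \ P) \ J') = (H \ P) \ J' := by
      ext t
      simp only [Finset.mem_sdiff, mem_erase, mem_insert]
      constructor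
      · rintro (rfl | ht)
        · exact ⟨hh, hhJ⟩
        · exact ⟨⟨ht.1.1.2, ht.1.2⟩, ht.2⟩
      · rintro ⟨⟨ht1, ht2⟩, ht3⟩
        by_cases hth : t = h
        · exact Or.inl hth
        · exact Or.inr ⟨⟨⟨hth, ht1⟩, ht2⟩, ht3⟩
    rw [e2, e1] at h1
    obtain ⟨X, hX⟩ : ∃ X : ℝ, X = MX f z y N P (insert h J') ((H \ P) \ (insert h J')) := ⟨_, rfl⟩
    obtain ⟨Y, hY⟩ : ∃ Y : ℝ, Y = MX f z y N P J' ((H \ P) \ J') := ⟨_, rfl⟩
    obtain ⟨M0, hM0⟩ : ∃ M0 : ℝ, M0 = MX f z y N P ∅ (H \ P) := ⟨_, rfl⟩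
    rw [← hX, ← hY] at h1
    rw [← hY, ← hM0] at i1 i2
    rw [← hX, ← hM0, card_insert_of_notMem hhJ]
    obtain ⟨j, hj⟩ : ∃ j : ℕ, j = J'.card := ⟨_, rfl⟩
    rw [← hj] at i1 i2 ⊢
    obtain ⟨a1, a2⟩ := abs_le.1 h1
    have hW0 : 0 < W := by linarith
    have hup : 0 ≤ (1 + x) * W := by positivity
    have hlo : 0 ≤ (1 - x) * W := mul_nonneg (by linarith) hW0.le
    have hpw : 1 ≤ (2 * W) ^ (j + 1) := one_le_pow₀ (by linarith)
    have hE2 : E ≤ (2 * W) ^ (j + 1) * E := le_mul_of_one_le_left hE hpw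
    have hjE : 0 ≤ (j : ℝ) * (2 * W) ^ j * E := by positivity
    push_cast
    constructor
    · have g1 : X ≤ (1 + x) * W * Y + E := by nlinarith
      have g2 : (1 + x) * W * Y ≤ (1 + x) * W * (((1 + x) * W) ^ j * M0 + j * (2 * W) ^ j * E) :=
        mul_le_mul_of_nonneg_left i1 hup
      have g3 : (1 + x) * W * (j * (2 * W) ^ j * E) ≤ 2 * W * (j * (2 * W) ^ j * E) := by
        apply mul_le_mul_of_nonneg_right _ hjE
        apply mul_le_mul_of_nonneg_right _ hW0.le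
        linarith
      have g4 : (1 + x) * W * (((1 + x) * W) ^ j * M0 + j * (2 * W) ^ j * E) =
        ((1 + x) * W) ^ (j + 1) * M0 + (1 + x) * W * (j * (2 * W) ^ j * E) := by ring
      have g5 : ((j : ℝ) + 1) * (2 * W) ^ (j + 1) * E = 2 * W * (j * (2 * W) ^ j * E) + (2 * W) ^ (j + 1) * E := by ring
      linarith
    · have g1 : (1 - x) * W * Y - E ≤ X := by nlinarith
      have g2 : (1 - x) * W * (((1 - x) * W) ^ j * M0 - j * (2 * W) ^ j * E) ≤ (1 - x) * W * Y :=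
        mul_le_mul_of_nonneg_left i2 hlo
      have g3 : (1 - x) * W * (j * (2 * W) ^ j * E) ≤ 2 * W * (j * (2 * W) ^ j * E) := by
        apply mul_le_mul_of_nonneg_right _ hjE
        apply mul_le_mul_of_nonneg_right _ hW0.le
        linarith
      have g4 : (1 - x) * W * (((1 - x) * W) ^ j * M0 - j * (2 * W) ^ j * E) =
        ((1 - x) * W) ^ (j + 1) * M0 - (1 - x) * W * (j * (2 * W) ^ j * E) := by ring
      have g5 : ((j : ℝ) + 1) * (2 * W) ^ (j + 1) * E = 2 * W * (j * (2 * W) ^ j * E) + (2 * W) ^ (j + 1) * E := by ring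
      linarith

/-- small parameters -/
lemma ex_small7 (m : ℕ) (ε : ℝ) (hε : 0 < ε) : ∃ x : ℝ, 0 < x ∧ x ≤ 1 / 8 ∧ x ≤ ε ∧
    ∀ j ≤ m, (1 + x) ^ j * (1 + x) + x ≤ 1 + ε ∧ 1 - ε ≤ (1 - x) ^ j * (1 - x) - x := by
  have hc : ContinuousAt (fun x : ℝ => (1 + x) ^ m * (1 + x) + x) 0 := by fun_prop
  have hcc : ContinuousAt (fun x : ℝ => (1 - x) ^ m * (1 - x) - x) 0 := by fun_prop
  have h1 : ∀ᶠ x in 𝓝 (0 : ℝ), (1 + x) ^ m * (1 + x) + x < 1 + ε := by
    refine hc.eventually_lt continuousAt_const ?_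
    simp only [add_zero, one_pow, mul_one]
    linarith
  have h2 : ∀ᶠ x in 𝓝 (0 : ℝ), 1 - ε < (1 - x) ^ m * (1 - x) - x := by
    refine continuousAt_const.eventually_lt hcc ?_
    simp only [sub_zero, one_pow, mul_one]
    linarith
  obtain ⟨d, hd, h3⟩ := Metric.eventually_nhds_iff.1 (h1.and h2)
  obtain ⟨x, hx⟩ : ∃ x : ℝ, x = min (d / 2) (min (1 / 8) ε) := ⟨_, rfl⟩
  have hx0 : 0 < x := by rw [hx]; positivity
  have hx8 : x ≤ 1 / 8 := by rw [hx]; exact (min_le_right _ _).trans (min_le_left _ _)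
  refine ⟨x, hx0, hx8, by rw [hx]; exact (min_le_right _ _).trans (min_le_right _ _), fun j hj => ?_⟩
  have h4 := h3 (y := x) (by
    rw [Real.dist_eq, sub_zero, abs_of_pos hx0, hx]
    exact (min_le_left _ _).trans_lt (by linarith))
  have h5 : (1 + x) ^ j ≤ (1 + x) ^ m := pow_le_pow_right₀ (by linarith) hj
  have h6 : (1 - x) ^ m ≤ (1 - x) ^ j := pow_le_pow_of_le_one (by linarith) (by linarith) hj
  constructor
  · have : (1 + x) ^ j * (1 + x) ≤ (1 + x) ^ m * (1 + x) := mul_le_mul_of_nonneg_right h5 (by linarith)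
    linarith [h4.1]
  · have : (1 - x) ^ m * (1 - x) ≤ (1 - x) ^ j * (1 - x) := mul_le_mul_of_nonneg_right h6 (by linarith)
    linarith [h4.2]

/-- the final computation -/
lemma fin_it {j : ℕ} {x η W M0 M S Er : ℝ} (hx : 0 ≤ x) (hx8 : x ≤ 1 / 8) (hM : 0 ≤ M)
    (hx1 : (1 + x) ^ j * (1 + x) + x ≤ 1 + η) (hx2 : 1 - η ≤ (1 - x) ^ j * (1 - x) - x)
    (h1 : S ≤ ((1 + x) * W) ^ j * M0 + Er) (h2 : ((1 - x) * W) ^ j * M0 - Er ≤ S)
    (h3 : |W ^ j * M0 - M| ≤ x * M) (h4 : Er ≤ x * M) : |S - M| ≤ η * M := by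
  obtain ⟨a1, a2⟩ := abs_le.1 h3
  have g1 : (1 + x) ^ j * (W ^ j * M0) ≤ (1 + x) ^ j * ((1 + x) * M) :=
    mul_le_mul_of_nonneg_left (by linarith) (by positivity)
  have h1x : 0 ≤ 1 - x := by linarith
  have g2 : (1 - x) ^ j * ((1 - x) * M) ≤ (1 - x) ^ j * (W ^ j * M0) :=
    mul_le_mul_of_nonneg_left (by linarith) (by positivity)
  have e1 : ((1 + x) * W) ^ j * M0 = (1 + x) ^ j * (W ^ j * M0) := by rw [mul_pow]; ring
  have e2 : ((1 - x) * W) ^ j * M0 = (1 - x) ^ j * (W ^ j * M0) := by rw [mul_pow]; ring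
  rw [e1] at h1
  rw [e2] at h2
  have g3 := mul_le_mul_of_nonneg_right hx1 hM
  have g4 := mul_le_mul_of_nonneg_right hx2 hM
  rw [abs_le]
  constructor <;> nlinarith

/-- **one prime: the main term** -/
theorem mass_prime (k : ℕ) (κ : ℝ) (hκ : 0 < κ) (hκ1 : κ ≤ 1) (ε : ℝ) (hε : 0 < ε) : ∀ᶠ N : ℕ in atTop,
    ∀ i : ℕ, i ≤ N → ∀ T : Finset ℕ, (insert i T).card = k + 1 → (∀ h ∈ T, h ≤ N) → Adm (insert i T) →
      |(2 * Real.log N / Vz (yN κ N)) ^ k * (cM (yN κ N) N i T : ℝ) -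
        2 ^ k * CT (insert i T) * (N / Real.log N * Real.log N ^ k)| ≤
          ε * (2 ^ k * CT (insert i T) * (N / Real.log N * Real.log N ^ k)) := by
  obtain ⟨x, hx⟩ : ∃ x : ℝ, x = min (ε / 6) 1 := ⟨_, rfl⟩
  have hx0 : 0 < x := by rw [hx]; positivity
  have hx1 : x ≤ 1 := by rw [hx]; exact min_le_right _ _
  have hxε : 6 * x ≤ ε := by
    have : x ≤ ε / 6 := by rw [hx]; exact min_le_left _ _
    linarith
  obtain ⟨cz, hcz, hV⟩ := Vz_sharp
  obtain ⟨c0, hc0, hlow⟩ := PT_low k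
  have e1 := ev_logN (eventually_ge_atTop (max 1 ((2 / cz) ^ k / (x * c0))))
  filter_upwards [cM_main κ hκ hκ1 (k + 1) (2 * k + 1 + 1) x hx0 hx1, PT_CT k κ hκ hκ1 x hx0 hx1,
    yN_facts κ hκ hκ1 3 1, e1, eventually_ge_atTop 3] with N hR hP hyf f1 hN i hi T hT hTN hA
  obtain ⟨y1, y2, y3, y4, y5⟩ := hyf
  obtain ⟨L, hL⟩ : ∃ L : ℝ, L = Real.log N := ⟨_, rfl⟩
  rw [← hL] at f1 hR ⊢
  have hL1 : 1 ≤ L := (le_max_left _ _).trans f1
  have hL0 : 0 < L := by linarith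
  have hLb : (2 / cz) ^ k / (x * c0) ≤ L := (le_max_right _ _).trans f1
  have hN0 : (0 : ℝ) < N := by exact_mod_cast (by omega : 0 < N)
  have hyN : yN κ N ≤ N := by rw [pow_one] at y4; exact y4
  have hVlow : cz / L ≤ Vz (yN κ N) := by
    refine le_trans ?_ (hV _ y5)
    apply div_le_div_of_nonneg_left hcz.le
    · exact Real.log_pos (by exact_mod_cast (by omega : 1 < yN κ N))
    · rw [hL]
      exact Real.log_le_log (by exact_mod_cast (by omega : 0 < yN κ N)) (by exact_mod_cast hyN)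
  have hTN' : ∀ h ∈ insert i T, h ≤ N := by
    intro h hh
    rw [mem_insert] at hh
    rcases hh with rfl | hh
    · exact hi
    · exact hTN h hh
  obtain ⟨p1, p2⟩ := hP (insert i T) hT hTN'
  obtain ⟨l1, l2⟩ := hlow (insert i T) hT hA
  have h1 := hR k (by omega) i hi T hT
  have h2 : |(cM (yN κ N) N i T : ℝ) - N / L * (PT (insert i T) (yN κ N) * Vz (yN κ N) ^ k)| ≤
      x * (N / L * (PT (insert i T) (yN κ N) * Vz (yN κ N) ^ k)) + N / L / L ^ (2 * k + 1) := by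
    have e3 : (N : ℝ) / L / L ^ (2 * k + 1) = N / L ^ (2 * k + 1 + 1) := by
      rw [pow_succ L (2 * k + 1), div_div, mul_comm L]
    rw [e3]
    exact h1
  refine (mass_calc hx0 hx1 hL1 (Vz_pos _) (by positivity) hcz hc0 hVlow (PT_nonneg _ _) l2 p1 p2 hLb h2).trans ?_
  have hCT : 0 < CT (insert i T) := by linarith
  exact mul_le_mul_of_nonneg_right hxε (by positivity)

end Pool.Agent.H528.It
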