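import Mathlib
import Pool.Agent.H528.ItB

/-! The asymptotic sieve, one form after the other: the mass on the primes. -/

set_option autoImplicit false

namespace Pool.Agent.H528.It

open Finset Filter Topology
open Pool.Agent.Y822 Pool.Agent.Y822.Par3
open Pool.Agent.H373R2.T7 (pz Vz mem_pz Vz_pos Vz_le_one)
open Pool.Agent.H387R2.Uni (nuT Adm locT CT)
open Pool.Agent.H528.Gam Pool.Agent.H528.UpLo Pool.Agent.H528.Lam
open Pool.Agent.H528.AsyL Pool.Agent.H528.Gen Pool.Agent.H528.PCnt Pool.Agent.H528.Tup Pool.Agent.H528.Mass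

/-- the mass -/
noncomputable def TM (f : ℕ → ℝ) (z N : ℕ) (H : Finset ℕ) : ℝ := ∑ n ∈ Icc 1 N, f n * ∏ h ∈ H, lw z (n + h)

/-- the mass on the primes at a position -/
noncomputable def PM (f : ℕ → ℝ) (z N i : ℕ) (H : Finset ℕ) : ℝ :=
  ∑ n ∈ Icc 1 N, f n * (eP (n + i) * ∏ h ∈ H, lw z (n + h))

lemma TM_eq (f : ℕ → ℝ) (z y N : ℕ) (H : Finset ℕ) : TM f z N H = MX f z y N ∅ H ∅ := by
  unfold TM MX
  refine sum_congr rfl fun n _ => ?_
  rw [prod_empty, prod_empty, one_mul, mul_one]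

lemma lw_prime {z p : ℕ} (hp : p.Prime) (hz : z < p) : lw z p = Real.log p ^ 2 := by
  unfold lw
  have h1 : ro z p = 1 := by
    apply Pool.Agent.H528.Avg.ro_of
    intro q hq hqz hqd
    have := (Nat.prime_dvd_prime_iff_eq hq hp).1 hqd
    omega
  rw [h1, one_mul, L2_one_pf hp.one_lt.le hp.primeFactors]
  ring

/-- the comparison -/
lemma prime_cmp {f : ℕ → ℝ} {z y N c i : ℕ} {θ L : ℝ} (hf : ∀ n, 0 ≤ f n ∧ f n ≤ 1) (hN : 2 ≤ N) (hL : L = Real.log N)
    (hL1 : 1 ≤ L) (hθ0 : 0 < θ) (hθ : θ ≤ 1 / 8) (hc : c * Real.log L ≤ θ * L) (hl2 : Real.log 2 ≤ θ * L)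
    (hz : (z : ℝ) ≤ N / L ^ c) (H : Finset ℕ) (hH : ∀ h ∈ H, 1 ≤ h ∧ h ≤ N) (hi : i ∈ H) :
    |PM f z N i H - L ^ 2 * MX f z y N {i} (H.erase i) ∅| ≤
      3 * θ * (L ^ 2 * MX f z y N {i} (H.erase i) ∅) + (4 * L ^ 2) ^ H.card * (N / L ^ c) := by
  classical
  have hN0 : (0 : ℝ) < N := by exact_mod_cast (by omega : 0 < N)
  have hL0 : 0 < L := by linarith
  have hcnt : ∑ n ∈ Icc 1 N, (if (n : ℝ) ≤ N / L ^ c then (1 : ℝ) else 0) ≤ N / L ^ c := by
    rw [← sum_filter, sum_const, nsmul_eq_mul, mul_one]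
    have h1 : (Icc 1 N).filter (fun n : ℕ => (n : ℝ) ≤ N / L ^ c) ⊆ Icc 1 ⌊(N : ℝ) / L ^ c⌋₊ := by
      intro n hn
      rw [mem_filter, mem_Icc] at hn
      rw [mem_Icc]
      exact ⟨hn.1.1, Nat.le_floor hn.2⟩
    have h2 := card_le_card h1
    rw [Nat.card_Icc, Nat.add_sub_cancel] at h2
    have h3 : (((Icc 1 N).filter (fun n : ℕ => (n : ℝ) ≤ N / L ^ c)).card : ℝ) ≤ ⌊(N : ℝ) / L ^ c⌋₊ := by exact_mod_cast h2
    exact h3.trans (Nat.floor_le (by positivity))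
  have hbd : ∀ n ∈ Icc 1 N, ∀ h ∈ H, 0 ≤ lw z (n + h) ∧ lw z (n + h) ≤ 4 * L ^ 2 := by
    intro n hn h hh
    rw [mem_Icc] at hn
    obtain ⟨h1, h2⟩ := hH h hh
    have := lw_bd (z := z) hN (m := n + h) (by omega) (by omega)
    rw [← hL] at this
    exact this
  have hpt : ∀ n ∈ Icc 1 N, |f n * (eP (n + i) * ∏ h ∈ H, lw z (n + h)) -
      L ^ 2 * (f n * ((∏ t ∈ {i}, eP (n + t)) * (∏ t ∈ H.erase i, lw z (n + t)) * ∏ t ∈ (∅ : Finset ℕ), ro y (n + t)))| ≤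
      3 * θ * (L ^ 2 * (f n * ((∏ t ∈ {i}, eP (n + t)) * (∏ t ∈ H.erase i, lw z (n + t)) *
        ∏ t ∈ (∅ : Finset ℕ), ro y (n + t)))) + (4 * L ^ 2) ^ H.card * (if (n : ℝ) ≤ N / L ^ c then (1 : ℝ) else 0) := by
    intro n hn
    rw [prod_singleton, prod_empty, mul_one, ← mul_prod_erase H _ hi]
    obtain ⟨Q, hQ⟩ : ∃ Q : ℝ, Q = ∏ t ∈ H.erase i, lw z (n + t) := ⟨_, rfl⟩
    have hQ0 : 0 ≤ Q := by rw [hQ]; exact prod_nonneg fun h hh => (hbd n hn h (mem_of_mem_erase hh)).1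
    have hQ1 : Q ≤ (4 * L ^ 2) ^ (H.card - 1) := by
      rw [hQ, ← card_erase_of_mem hi, ← prod_const]
      exact prod_le_prod (fun h hh => (hbd n hn h (mem_of_mem_erase hh)).1) fun h hh => (hbd n hn h (mem_of_mem_erase hh)).2
    rw [← hQ]
    obtain ⟨f0, f1⟩ := hf n
    obtain ⟨w0, w1⟩ := hbd n hn i hi
    have hcard : 1 ≤ H.card := card_pos.2 ⟨i, hi⟩
    have epw : (4 * L ^ 2) * (4 * L ^ 2) ^ (H.card - 1) = (4 * L ^ 2) ^ H.card := by
      rw [← pow_succ']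
      congr 1
      omega
    unfold eP
    by_cases hp : (n + i).Prime
    · rw [if_pos hp, one_mul, one_mul]
      have e1 : f n * (lw z (n + i) * Q) - L ^ 2 * (f n * Q) = (f n * Q) * (lw z (n + i) - L ^ 2) := by ring
      rw [e1, abs_mul, abs_of_nonneg (mul_nonneg f0 hQ0)]
      split_ifs with hnb
      · have g1 : |lw z (n + i) - L ^ 2| ≤ 4 * L ^ 2 := by
          rw [abs_le]
          constructor <;> nlinarith
        have g2 : f n * Q ≤ 1 * (4 * L ^ 2) ^ (H.card - 1) := mul_le_mul f1 hQ1 hQ0 zero_le_one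
        have g3 : f n * Q * |lw z (n + i) - L ^ 2| ≤ 1 * (4 * L ^ 2) ^ (H.card - 1) * (4 * L ^ 2) :=
          mul_le_mul g2 g1 (abs_nonneg _) (by positivity)
        have g4 : 0 ≤ 3 * θ * (L ^ 2 * (f n * Q)) := by positivity
        rw [mul_one]
        calc _ ≤ _ := g3
          _ = (4 * L ^ 2) * (4 * L ^ 2) ^ (H.card - 1) := by ring
          _ = (4 * L ^ 2) ^ H.card := epw
          _ ≤ _ := by linarith
      · rw [mul_zero, add_zero]
        push Not at hnb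
        rw [mem_Icc] at hn
        obtain ⟨h1, h2⟩ := hH i hi
        have hzp : z < n + i := by
          have : (z : ℝ) < n := lt_of_le_of_lt hz hnb
          have : z < n := by exact_mod_cast this
          omega
        rw [lw_prime hp hzp]
        have hup : Real.log ((n + i : ℕ) : ℝ) ≤ (1 + θ) * L := by
          have h3 : Real.log ((n + i : ℕ) : ℝ) ≤ Real.log (2 * N) := by
            apply Real.log_le_log (by exact_mod_cast (by omega : 0 < n + i))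
            exact_mod_cast (by omega : n + i ≤ 2 * N)
          rw [Real.log_mul (by norm_num) hN0.ne', ← hL] at h3
          linarith
        have hlo : (1 - θ) * L ≤ Real.log ((n + i : ℕ) : ℝ) := by
          have h3 : Real.log ((N : ℝ) / L ^ c) ≤ Real.log ((n + i : ℕ) : ℝ) := by
            apply Real.log_le_log (by positivity)
            push_cast
            have : (0 : ℝ) ≤ i := Nat.cast_nonneg i
            linarith
          rw [Real.log_div hN0.ne' (by positivity), Real.log_pow, ← hL] at h3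
          linarith
        have g1 : |Real.log ((n + i : ℕ) : ℝ) ^ 2 - L ^ 2| ≤ 3 * θ * L ^ 2 := by
          have s1 : Real.log ((n + i : ℕ) : ℝ) ^ 2 ≤ ((1 + θ) * L) ^ 2 := pow_le_pow_left₀ (log_nn _) hup 2
          have s2 : ((1 - θ) * L) ^ 2 ≤ Real.log ((n + i : ℕ) : ℝ) ^ 2 :=
            pow_le_pow_left₀ (mul_nonneg (by linarith) hL0.le) hlo 2
          have s3 : 0 ≤ L ^ 2 := sq_nonneg _
          have s4 : ((1 + θ) * L) ^ 2 = L ^ 2 + (2 * θ + θ ^ 2) * L ^ 2 := by ring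
          have s5 : ((1 - θ) * L) ^ 2 = L ^ 2 - (2 * θ - θ ^ 2) * L ^ 2 := by ring
          have s6 : (2 * θ + θ ^ 2) * L ^ 2 ≤ 3 * θ * L ^ 2 := by
            apply mul_le_mul_of_nonneg_right _ s3
            nlinarith
          have s7 : (2 * θ - θ ^ 2) * L ^ 2 ≤ 3 * θ * L ^ 2 := by
            apply mul_le_mul_of_nonneg_right _ s3
            nlinarith
          rw [abs_le]
          constructor <;> linarith
        calc f n * Q * |Real.log ((n + i : ℕ) : ℝ) ^ 2 - L ^ 2| ≤ f n * Q * (3 * θ * L ^ 2) :=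
              mul_le_mul_of_nonneg_left g1 (mul_nonneg f0 hQ0)
          _ = _ := by ring
    · rw [if_neg hp]
      simp only [zero_mul, mul_zero, sub_zero, abs_zero]
      have : 0 ≤ (4 * L ^ 2) ^ H.card * (if (n : ℝ) ≤ N / L ^ c then (1 : ℝ) else 0) := by
        split_ifs <;> positivity
      linarith
  have hLM : L ^ 2 * MX f z y N {i} (H.erase i) ∅ = ∑ n ∈ Icc 1 N, L ^ 2 * (f n * ((∏ t ∈ {i}, eP (n + t)) *
      (∏ t ∈ H.erase i, lw z (n + t)) * ∏ t ∈ (∅ : Finset ℕ), ro y (n + t))) := by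
    unfold MX
    rw [mul_sum]
  have h3 := mul_le_mul_of_nonneg_left hcnt (show 0 ≤ (4 * L ^ 2) ^ H.card by positivity)
  have h4 : ∑ n ∈ Icc 1 N, (3 * θ * (L ^ 2 * (f n * ((∏ t ∈ {i}, eP (n + t)) * (∏ t ∈ H.erase i, lw z (n + t)) *
        ∏ t ∈ (∅ : Finset ℕ), ro y (n + t)))) + (4 * L ^ 2) ^ H.card * (if (n : ℝ) ≤ N / L ^ c then (1 : ℝ) else 0)) =
      3 * θ * (L ^ 2 * MX f z y N {i} (H.erase i) ∅) +
        (4 * L ^ 2) ^ H.card * ∑ n ∈ Icc 1 N, (if (n : ℝ) ≤ N / L ^ c then (1 : ℝ) else 0) := by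
    rw [sum_add_distrib, hLM, mul_sum, mul_sum]
  have h5 : PM f z N i H - L ^ 2 * MX f z y N {i} (H.erase i) ∅ = ∑ n ∈ Icc 1 N, (f n * (eP (n + i) * ∏ h ∈ H, lw z (n + h)) -
      L ^ 2 * (f n * ((∏ t ∈ {i}, eP (n + t)) * (∏ t ∈ H.erase i, lw z (n + t)) *
        ∏ t ∈ (∅ : Finset ℕ), ro y (n + t)))) := by
    rw [hLM, sum_sub_distrib]
    rfl
  rw [h5]
  refine (abs_sum_le_sum_abs _ _).trans ((sum_le_sum hpt).trans ?_)
  rw [h4]
  linarith

lemma MX_one (z y N : ℕ) (H : Finset ℕ) : MX (fun _ => 1) z y N ∅ ∅ H = (cR y N H : ℝ) := by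
  rw [← RE_one_cR]
  unfold MX RE
  refine sum_congr rfl fun n _ => ?_
  rw [prod_empty, prod_empty, one_mul, one_mul]

lemma MX_prime (z y N i : ℕ) (T : Finset ℕ) : MX (fun _ => 1) z y N {i} ∅ T = (cM y N i T : ℝ) := by
  rw [← RE_eA]
  unfold MX RE
  refine sum_congr rfl fun n _ => ?_
  rw [prod_singleton, prod_empty, one_mul, mul_one]

end Pool.Agent.H528.It
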