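import Mathlib
import Pool.Agent.H528.ItC

/-! The asymptotic sieve, one form after the other: the marginals. -/

set_option autoImplicit false

namespace Pool.Agent.H528.It

open Finset Filter Topology
open Pool.Agent.Y822 Pool.Agent.Y822.Par3
open Pool.Agent.H373R2.T7 (pz Vz mem_pz Vz_pos Vz_le_one)
open Pool.Agent.H387R2.Uni (nuT Adm locT CT)
open Pool.Agent.H528.Gam Pool.Agent.H528.UpLo Pool.Agent.H528.Lam
open Pool.Agent.H528.AsyL Pool.Agent.H528.Gen Pool.Agent.H528.PCnt Pool.Agent.H528.Tup Pool.Agent.H528.Mass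

/-- the final computation -/
lemma fin_pm {x η M A S Er : ℝ} (hx : 0 ≤ x) (hxη : x ≤ η) (hη : η ≤ 1) (hM : 0 ≤ M)
    (h1 : |A - M| ≤ η * M) (h2 : |S - A| ≤ 3 * x * A + Er) (h3 : Er ≤ x * M) : |S - M| ≤ 8 * η * M := by
  obtain ⟨a1, a2⟩ := abs_le.1 h1
  obtain ⟨b1, b2⟩ := abs_le.1 h2
  have h4 : A ≤ 2 * M := by nlinarith
  have h5 : 3 * x * A ≤ 3 * x * (2 * M) := mul_le_mul_of_nonneg_left h4 (by positivity)
  have h6 : x * M ≤ η * M := mul_le_mul_of_nonneg_right hxη hM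
  rw [abs_le]
  constructor <;> nlinarith

/-- **the marginals of the distribution given by `Λ₂`** -/
theorem marg (k : ℕ) (ε : ℝ) (hε : 0 < ε) : ∃ δ : ℝ, 1 / 2 ≤ δ ∧ δ < 1 ∧
    ∃ ξ : ℝ, 0 < ξ ∧ ξ ≤ 1 / 8 ∧ ξ ≤ ε ∧ ∃ B : ℕ, ∀ᶠ N : ℕ in atTop,
    ∀ A : Finset ℕ, (∀ a ∈ A, 1 ≤ a ∧ a ≤ N) → ∀ Bad : Finset (Finset ℕ),
    (∀ H ∈ Bad, H ∈ A.powersetCard (k + 1) ∧ Adm H ∧
      (ε * CT H * (N * Real.log N ^ (k + 1)) <
        |TM (fun _ => 1) (zN ξ N) N H - 2 ^ (k + 1) * CT H * (N * Real.log N ^ (k + 1))| ∨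
      ∃ i ∈ H, ε * CT H * (N * Real.log N ^ (k + 1)) <
        |PM (fun _ => 1) (zN ξ N) N i H - 2 ^ k * CT H * (N * Real.log N ^ (k + 1))|)) →
    (Bad.card : ℝ) ≤ A.card.choose k * (4 ^ k * ((N : ℝ) ^ δ * Real.log N ^ B)) := by
  obtain ⟨η, hη⟩ : ∃ η : ℝ, η = min (ε / 2 ^ (k + 4)) 1 := ⟨_, rfl⟩
  have hη0 : 0 < η := by rw [hη]; positivity
  have hη1 : η ≤ 1 := by rw [hη]; exact min_le_right _ _
  have hηε : η * 2 ^ (k + 4) ≤ ε := by
    have : η ≤ ε / 2 ^ (k + 4) := by rw [hη]; exact min_le_left _ _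
    rwa [le_div_iff₀ (by positivity)] at this
  obtain ⟨x, hx, hx8, hxη, hxx⟩ := ex_small7 (k + 1) η hη0
  have hxε' : x ≤ ε := by
    have : η * 1 ≤ η * 2 ^ (k + 4) := mul_le_mul_of_nonneg_left (one_le_pow₀ (by norm_num)) hη0.le
    linarith
  obtain ⟨δ, hδ1, hδ2, ξ, hξ, hξ8, hξx, κ, hκ, hκ1, B, HP⟩ := steps k (4 * k + 4) x hx
  obtain ⟨cz, hcz, hV⟩ := Vz_sharp
  obtain ⟨c0, hc0, hlow⟩ := PT_low k
  obtain ⟨Ck, hCk⟩ : ∃ Ck : ℝ, Ck = ((k : ℝ) + 1) * (4 / cz) ^ (k + 1) * 4 ^ k + 4 ^ (k + 1) := ⟨_, rfl⟩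
  have hCk0 : 0 < Ck := by rw [hCk]; positivity
  refine ⟨δ, hδ1, hδ2, ξ, hξ, hξ8, hξx.trans hxε', B, ?_⟩
  have e1 := ev_logN (eventually_ge_atTop (max (max 1 (Real.log 2 / x)) (Ck / (x * c0))))
  have e2 : ∀ᶠ N : ℕ in atTop, ((2 * (k + 1) : ℕ) : ℝ) * Real.log (Real.log N) ≤ x * Real.log N := by
    apply ev_logN (P := fun L => ((2 * (k + 1) : ℕ) : ℝ) * Real.log L ≤ x * L)
    have hpos : (0 : ℝ) < ((2 * (k + 1) : ℕ) : ℝ) := by positivity
    have h1 := (Real.isLittleO_log_id_atTop).def (c := x / ((2 * (k + 1) : ℕ) : ℝ)) (by positivity)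
    filter_upwards [h1, eventually_ge_atTop 1] with L hL hL1
    rw [Real.norm_of_nonneg (Real.log_nonneg hL1), Real.norm_of_nonneg (show 0 ≤ id L by simpa using by linarith)] at hL
    simp only [id] at hL
    rw [div_mul_eq_mul_div, le_div_iff₀ (by positivity)] at hL
    linarith
  filter_upwards [HP, mass_one k κ hκ hκ1 x hx, mass_prime k κ hκ hκ1 x hx, yN_facts κ hκ hκ1 3 1, e1, e2,
    eventually_ge_atTop 3] with N hP hM1 hMp hyf f1 f2 hN A hA Bad hBad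
  obtain ⟨y1, y2, y3, y4, y5⟩ := hyf
  obtain ⟨L, hL⟩ : ∃ L : ℝ, L = Real.log N := ⟨_, rfl⟩
  rw [← hL] at f1 f2 hBad hP hM1 hMp ⊢
  have hL1 : 1 ≤ L := (le_max_left _ _).trans ((le_max_left _ _).trans f1)
  have hL0 : 0 < L := by linarith
  have hl2 : Real.log 2 / x ≤ L := (le_max_right _ _).trans ((le_max_left _ _).trans f1)
  rw [div_le_iff₀ hx, mul_comm] at hl2
  have hLc : Ck / (x * c0) ≤ L := (le_max_right _ _).trans f1
  rw [div_le_iff₀ (by positivity)] at hLc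
  have hN0 : (0 : ℝ) < N := by exact_mod_cast (by omega : 0 < N)
  have hN2 : 2 ≤ N := by omega
  obtain ⟨z, hz⟩ : ∃ z : ℕ, z = zN ξ N := ⟨_, rfl⟩
  obtain ⟨y, hy⟩ : ∃ y : ℕ, y = yN κ N := ⟨_, rfl⟩
  rw [← hz] at hBad
  rw [← hz, ← hy] at hP
  rw [← hy] at hM1 hMp y4 y5
  have hzc : (z : ℝ) ≤ N / L ^ (2 * (k + 1)) := by
    have h1 : (z : ℝ) < (N : ℝ) ^ ξ := by rw [hz]; exact zN_lt (by omega)
    have h2 : (N : ℝ) ^ ξ = Real.exp (ξ * L) := by
      rw [Real.rpow_def_of_pos hN0, ← hL, mul_comm]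
    have h3 : Real.exp (Real.log ((N : ℝ) / L ^ (2 * (k + 1)))) = N / L ^ (2 * (k + 1)) :=
      Real.exp_log (by positivity)
    rw [← h3]
    refine h1.le.trans ?_
    rw [h2]
    apply Real.exp_le_exp.2
    rw [Real.log_div hN0.ne' (by positivity), Real.log_pow, ← hL]
    nlinarith
  have hVy : 0 < Vz y := Vz_pos y
  obtain ⟨W, hW⟩ : ∃ W : ℝ, W = 2 * L / Vz y := ⟨_, rfl⟩
  rw [← hW] at hP hM1 hMp
  have hW1 : 1 ≤ W := by
    rw [hW, le_div_iff₀ hVy]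
    have := Vz_le_one y
    linarith
  have hW0 : 0 < W := by linarith
  have hyN : y ≤ N := by rw [pow_one] at y4; exact y4
  have hVlow : cz / L ≤ Vz y := by
    refine le_trans ?_ (hV _ y5)
    apply div_le_div_of_nonneg_left hcz.le
    · exact Real.log_pos (by exact_mod_cast (by omega : 1 < y))
    · rw [hL]
      exact Real.log_le_log (by exact_mod_cast (by omega : 0 < y)) (by exact_mod_cast hyN)
  have hWu : 2 * W ≤ 4 / cz * L ^ 2 := by
    have h1 : W ≤ 2 / cz * L ^ 2 := by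
      rw [hW, div_le_iff₀ hVy]
      have h1 : 2 / cz * L ^ 2 * (cz / L) ≤ 2 / cz * L ^ 2 * Vz y := mul_le_mul_of_nonneg_left hVlow (by positivity)
      have h2 : 2 / cz * L ^ 2 * (cz / L) = 2 * L := by field_simp
      linarith
    have e : 4 / cz * L ^ 2 = 2 * (2 / cz * L ^ 2) := by ring
    rw [e]
    linarith
  obtain ⟨E, hE⟩ : ∃ E : ℝ, E = (4 * L ^ 2) ^ k * (N / L ^ (4 * k + 4)) := ⟨_, rfl⟩
  have hE0 : 0 ≤ E := by rw [hE]; positivity
  rw [← hE] at hP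
  obtain ⟨Er, hEr⟩ : ∃ Er : ℝ, Er = ((k : ℝ) + 1) * (2 * W) ^ (k + 1) * E := ⟨_, rfl⟩
  have hErj : ∀ j : ℕ, j ≤ k + 1 → (j : ℝ) * (2 * W) ^ j * E ≤ Er := by
    intro j hj
    rw [hEr]
    apply mul_le_mul_of_nonneg_right _ hE0
    apply mul_le_mul (by exact_mod_cast hj) (pow_le_pow_right₀ (by linarith) hj) (by positivity) (by positivity)
  have hEr2 : L ^ 2 * Er ≤ ((k : ℝ) + 1) * (4 / cz) ^ (k + 1) * 4 ^ k * N := by
    have h1 : (2 * W) ^ (k + 1) ≤ (4 / cz) ^ (k + 1) * L ^ (2 * (k + 1)) := by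
      calc (2 * W) ^ (k + 1) ≤ (4 / cz * L ^ 2) ^ (k + 1) := pow_le_pow_left₀ (by positivity) hWu _
        _ = _ := by rw [mul_pow, ← pow_mul]
    have h2 : L ^ 2 * Er ≤ L ^ 2 * (((k : ℝ) + 1) * ((4 / cz) ^ (k + 1) * L ^ (2 * (k + 1))) * E) := by
      rw [hEr]
      gcongr
    refine h2.trans (le_of_eq ?_)
    rw [hE, mul_pow, ← pow_mul]
    have h3 : L ^ (4 * k + 4) = L ^ 2 * L ^ (2 * (k + 1)) * L ^ (2 * k) := by
      rw [← pow_add, ← pow_add]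
      congr 1
      ring
    rw [h3]
    field_simp
  have hEr3 : Er ≤ L ^ 2 * Er := by
    have h0 : 0 ≤ Er := by rw [hEr]; positivity
    exact le_mul_of_one_le_left h0 (one_le_pow₀ hL1)
  refine hP (fun _ => 1) (fun _ => ⟨zero_le_one, le_rfl⟩) A hA Bad fun H hH => ?_
  obtain ⟨b1, b2, b3⟩ := hBad H hH
  refine ⟨b1, ?_⟩
  by_contra hcon
  push Not at hcon
  rw [mem_powersetCard] at b1
  have hHN : ∀ h ∈ H, 1 ≤ h ∧ h ≤ N := fun h hh => hA h (b1.1 hh)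
  have hit := iter (f := fun _ => (1 : ℝ)) (z := z) (y := y) (N := N) (H := H) hW1 hx.le (by linarith) hE0 hcon
  obtain ⟨l1, l2⟩ := hlow H b1.2 b2
  have hCT : 0 < CT H := by linarith
  obtain ⟨M, hMd⟩ : ∃ M : ℝ, M = 2 ^ k * CT H * (N * L ^ (k + 1)) := ⟨_, rfl⟩
  have hM0 : 0 < M := by rw [hMd]; positivity
  have hcM' : c0 * (N * L) ≤ M := by
    rw [hMd]
    have g2 : L ≤ L ^ (k + 1) := le_self_pow₀ hL1 (by omega)
    have g3 : (1 : ℝ) ≤ 2 ^ k := one_le_pow₀ (by norm_num)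
    calc c0 * (N * L) = 1 * c0 * (N * L) := by ring
      _ ≤ 2 ^ k * CT H * (N * L ^ (k + 1)) := by gcongr
  have hsm : Ck * N ≤ x * M := by
    calc Ck * N ≤ L * (x * c0) * N := mul_le_mul_of_nonneg_right hLc hN0.le
      _ = x * (c0 * (N * L)) := by ring
      _ ≤ x * M := mul_le_mul_of_nonneg_left hcM' hx.le
  have hsm1 : L ^ 2 * Er ≤ x * M := by
    refine hEr2.trans (le_trans ?_ hsm)
    apply mul_le_mul_of_nonneg_right _ hN0.le
    rw [hCk]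
    have : (0 : ℝ) ≤ 4 ^ (k + 1) := by positivity
    linarith
  have hsm2 : 4 ^ (k + 1) * (N : ℝ) ≤ x * M := by
    refine le_trans ?_ hsm
    apply mul_le_mul_of_nonneg_right _ hN0.le
    rw [hCk]
    have : (0 : ℝ) ≤ ((k : ℝ) + 1) * (4 / cz) ^ (k + 1) * 4 ^ k := by positivity
    linarith
  -- the total mass
  have hTM : |TM (fun _ => 1) z N H - 2 ^ (k + 1) * CT H * (N * L ^ (k + 1))| ≤ η * (2 ^ (k + 1) * CT H * (N * L ^ (k + 1))) := by
    obtain ⟨i1, i2⟩ := hit ∅ (empty_subset _) H (by rw [sdiff_empty])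
    rw [sdiff_empty, Finset.sdiff_self, ← TM_eq, MX_one, b1.2] at i1 i2
    obtain ⟨q1, q2⟩ := hxx (k + 1) le_rfl
    have h1 := hM1 H b1.2 (fun h hh => (hHN h hh).2) b2
    rw [RE_one_cR] at h1
    have h2 := hErj (k + 1) le_rfl
    have e3 : 2 ^ (k + 1) * CT H * (N * L ^ (k + 1)) = 2 * M := by rw [hMd, pow_succ]; ring
    rw [e3] at h1 ⊢
    have hEr5 : Er ≤ x * (2 * M) := by
      have : 0 ≤ x * M := by positivity
      linarith
    exact fin_it (Er := Er) hx.le hx8 (by linarith) q1 q2 (i1.trans (by linarith)) (le_trans (by linarith) i2) h1 hEr5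
  have hPM : ∀ i ∈ H, |PM (fun _ => 1) z N i H - M| ≤ 8 * η * M := by
    intro i hi
    have hsub : ({i} : Finset ℕ) ⊆ H := singleton_subset_iff.2 hi
    have hse : H \ {i} = H.erase i := sdiff_singleton_eq_erase i H
    obtain ⟨i1, i2⟩ := hit {i} hsub (H \ {i}) (subset_refl _)
    rw [Finset.sdiff_self, hse, MX_prime, card_erase_of_mem hi, b1.2, Nat.add_sub_cancel] at i1 i2
    obtain ⟨q1, q2⟩ := hxx k (by omega)
    have hins : insert i (H.erase i) = H := insert_erase hi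
    have h1 := hMp i (hHN i hi).2 (H.erase i) (by rw [hins, b1.2]) (fun h hh => (hHN h (mem_of_mem_erase hh)).2)
      (by rw [hins]; exact b2)
    rw [hins] at h1
    have h2 := hErj k (by omega)
    obtain ⟨M1, hM1'⟩ : ∃ M1 : ℝ, M1 = 2 ^ k * CT H * (N / L * L ^ k) := ⟨_, rfl⟩
    rw [← hM1'] at h1
    have hLM : L ^ 2 * M1 = M := by
      have e6 : L ^ (k + 1) = L * L ^ k := by ring
      rw [hM1', hMd, e6]
      field_simp
    have hM10 : 0 ≤ M1 := by rw [hM1']; positivity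
    have hEr4 : Er ≤ x * M1 := by
      have h3 : L ^ 2 * Er ≤ L ^ 2 * (x * M1) := by
        calc L ^ 2 * Er ≤ x * M := hsm1
          _ = L ^ 2 * (x * M1) := by rw [← hLM]; ring
      exact le_of_mul_le_mul_left h3 (by positivity)
    have h3 := fin_it hx.le hx8 hM10 q1 q2 (i1.trans (by linarith)) (le_trans (by linarith) i2) h1 hEr4
    have h4 : |L ^ 2 * MX (fun _ => 1) z y N {i} (H.erase i) ∅ - M| ≤ η * M := by
      rw [← hLM]
      have e4 : L ^ 2 * MX (fun _ => 1) z y N {i} (H.erase i) ∅ - L ^ 2 * M1 =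
        L ^ 2 * (MX (fun _ => 1) z y N {i} (H.erase i) ∅ - M1) := by ring
      rw [e4, abs_mul, abs_of_nonneg (sq_nonneg L)]
      calc L ^ 2 * |MX (fun _ => 1) z y N {i} (H.erase i) ∅ - M1| ≤ L ^ 2 * (η * M1) :=
            mul_le_mul_of_nonneg_left h3 (sq_nonneg L)
        _ = _ := by ring
    have h5 := prime_cmp (f := fun _ => (1 : ℝ)) (z := z) (y := y) (c := 2 * (k + 1)) (fun _ => ⟨zero_le_one, le_rfl⟩) hN2 hL hL1
      hx hx8 f2 hl2 hzc H hHN hi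
    rw [b1.2] at h5
    refine fin_pm hx.le hxη hη1 hM0.le h4 h5 ?_
    have e5 : (4 * L ^ 2) ^ (k + 1) * ((N : ℝ) / L ^ (2 * (k + 1))) = 4 ^ (k + 1) * N := by
      rw [mul_pow, ← pow_mul]
      field_simp
    rw [e5]
    exact hsm2
  -- the contradiction
  have hfin1 : η * (2 ^ (k + 1) * CT H * (N * L ^ (k + 1))) ≤ ε * CT H * (N * L ^ (k + 1)) := by
    have h1 : η * 2 ^ (k + 1) ≤ ε := by
      refine le_trans (mul_le_mul_of_nonneg_left ?_ hη0.le) hηε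
      exact pow_le_pow_right₀ (by norm_num) (by omega)
    calc η * (2 ^ (k + 1) * CT H * (N * L ^ (k + 1))) = (η * 2 ^ (k + 1)) * (CT H * (N * L ^ (k + 1))) := by ring
      _ ≤ ε * (CT H * (N * L ^ (k + 1))) := mul_le_mul_of_nonneg_right h1 (by positivity)
      _ = _ := by ring
  have hfin2 : 8 * η * M ≤ ε * CT H * (N * L ^ (k + 1)) := by
    rw [hMd]
    have h1 : η * (8 * 2 ^ k) ≤ ε := by
      refine le_trans (mul_le_mul_of_nonneg_left ?_ hη0.le) hηε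
      have : (2 : ℝ) ^ (k + 4) = 2 ^ k * 16 := by rw [pow_add]; norm_num
      rw [this]
      have : (0 : ℝ) < 2 ^ k := by positivity
      linarith
    calc 8 * η * (2 ^ k * CT H * (N * L ^ (k + 1))) = (η * (8 * 2 ^ k)) * (CT H * (N * L ^ (k + 1))) := by ring
      _ ≤ ε * (CT H * (N * L ^ (k + 1))) := mul_le_mul_of_nonneg_right h1 (by positivity)
      _ = _ := by ring
  rcases b3 with b3 | ⟨i, hi, b3⟩
  · linarith
  · have h1 := hPM i hi
    rw [hMd] at h1 hfin2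
    linarith

end Pool.Agent.H528.It
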