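import Mathlib
import Pool.Agent.H528.ItD

/-! The parity law for pairs. -/

set_option autoImplicit false

namespace Pool.Agent.H528.It

open Finset Filter Topology
open Pool.Agent.Y822 Pool.Agent.Y822.Par3
open Pool.Agent.H373R2.T7 (pz Vz mem_pz Vz_pos Vz_le_one)
open Pool.Agent.H387R2.Uni (nuT Adm locT CT)
open Pool.Agent.H528.Gam Pool.Agent.H528.UpLo Pool.Agent.H528.Lam
open Pool.Agent.H528.AsyL Pool.Agent.H528.Gen Pool.Agent.H528.PCnt Pool.Agent.H528.Tup Pool.Agent.H528.Mass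

open Classical in
/-- the mass on a pattern of primes -/
noncomputable def pm (z N : ℕ) (H S : Finset ℕ) : ℝ :=
  ∑ n ∈ Icc 1 N, (if ∀ h ∈ H, ((n + h).Prime ↔ h ∈ S) then (1 : ℝ) else 0) * ∏ h ∈ H, lw z (n + h)

open Classical in
/-- the mass and the number of prime pairs -/
lemma pp_cmp {z N c : ℕ} {θ L : ℝ} (hN : 2 ≤ N) (hL : L = Real.log N)
    (hL1 : 1 ≤ L) (hθ0 : 0 < θ) (hθ : θ ≤ 1 / 8) (hc : c * Real.log L ≤ θ * L) (hl2 : Real.log 2 ≤ θ * L)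
    (hz : (z : ℝ) ≤ N / L ^ c) (H : Finset ℕ) (hH : ∀ h ∈ H, 1 ≤ h ∧ h ≤ N) (hH2 : H.card = 2) :
    |pm z N H H - L ^ 4 * cP N H| ≤ 5 * θ * (L ^ 4 * cP N H) + (4 * L ^ 2) ^ 2 * (N / L ^ c) := by
  have hN0 : (0 : ℝ) < N := by exact_mod_cast (by omega : 0 < N)
  have hL0 : 0 < L := by linarith
  have hcnt : ∑ n ∈ Icc 1 N, (if (n : ℝ) ≤ N / L ^ c then (1 : ℝ) else 0) ≤ N / L ^ c := by
    rw [← sum_filter, sum_const, nsmul_eq_mul, mul_one]
    have h1 : (Icc 1 N).filter (fun n : ℕ => (n : ℝ) ≤ N / L ^ c) ⊆ Icc 1 ⌊(N : ℝ) / L ^ c⌋₊ := by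
      intro n hn
      rw [mem_filter, mem_Icc] at hn
      rw [mem_Icc]
      exact ⟨hn.1.1, Nat.le_floor hn.2⟩
    have h2 := card_le_card h1
    rw [Nat.card_Icc, Nat.add_sub_cancel] at h2
    have h3 : (((Icc 1 N).filter (fun n : ℕ => (n : ℝ) ≤ N / L ^ c)).card : ℝ) ≤ ⌊(N : ℝ) / L ^ c⌋₊ := by exact_mod_cast h2
    exact h3.trans (Nat.floor_le (by positivity))
  have hcP : (cP N H : ℝ) = ∑ n ∈ Icc 1 N, (if ∀ h ∈ H, (n + h).Prime then (1 : ℝ) else 0) := by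
    unfold cP
    rw [← sum_filter, sum_const, nsmul_eq_mul, mul_one]
  have hbd : ∀ n ∈ Icc 1 N, ∀ h ∈ H, 0 ≤ lw z (n + h) ∧ lw z (n + h) ≤ 4 * L ^ 2 := by
    intro n hn h hh
    rw [mem_Icc] at hn
    obtain ⟨h1, h2⟩ := hH h hh
    have := lw_bd (z := z) hN (m := n + h) (by omega) (by omega)
    rw [← hL] at this
    exact this
  have hpt : ∀ n ∈ Icc 1 N, |(if ∀ h ∈ H, ((n + h).Prime ↔ h ∈ H) then (1 : ℝ) else 0) * ∏ h ∈ H, lw z (n + h) -
      L ^ 4 * (if ∀ h ∈ H, (n + h).Prime then (1 : ℝ) else 0)| ≤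
      5 * θ * (L ^ 4 * (if ∀ h ∈ H, (n + h).Prime then (1 : ℝ) else 0)) +
        (4 * L ^ 2) ^ 2 * (if (n : ℝ) ≤ N / L ^ c then (1 : ℝ) else 0) := by
    intro n hn
    have hiff : (∀ h ∈ H, ((n + h).Prime ↔ h ∈ H)) ↔ ∀ h ∈ H, (n + h).Prime :=
      forall₂_congr fun h hh => ⟨fun hx => hx.2 hh, fun hx => ⟨fun _ => hh, fun _ => hx⟩⟩
    by_cases hp : ∀ h ∈ H, (n + h).Prime
    · rw [if_pos (hiff.2 hp), if_pos hp, one_mul, mul_one]
      obtain ⟨Q, hQ⟩ : ∃ Q : ℝ, Q = ∏ h ∈ H, lw z (n + h) := ⟨_, rfl⟩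
      have hQ0 : 0 ≤ Q := by rw [hQ]; exact prod_nonneg fun h hh => (hbd n hn h hh).1
      have hQ1 : Q ≤ (4 * L ^ 2) ^ 2 := by
        have e0 : (4 * L ^ 2) ^ 2 = ∏ _h ∈ H, (4 * L ^ 2) := by rw [prod_const, hH2]
        rw [hQ, e0]
        exact prod_le_prod (fun h hh => (hbd n hn h hh).1) fun h hh => (hbd n hn h hh).2
      rw [← hQ]
      split_ifs with hnb
      · rw [mul_one]
        have g1 : 0 ≤ 5 * θ * L ^ 4 := by positivity
        have g2 : L ^ 4 ≤ (4 * L ^ 2) ^ 2 := by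
          have : 0 ≤ L ^ 4 := by positivity
          nlinarith
        have g3 : 0 ≤ L ^ 4 := by positivity
        rw [abs_le]
        constructor <;> nlinarith
      · rw [mul_zero, add_zero]
        push Not at hnb
        rw [mem_Icc] at hn
        have hup : ∀ h ∈ H, Real.log ((n + h : ℕ) : ℝ) ≤ (1 + θ) * L := by
          intro h hh
          obtain ⟨h1, h2⟩ := hH h hh
          have h3 : Real.log ((n + h : ℕ) : ℝ) ≤ Real.log (2 * N) := by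
            apply Real.log_le_log (by exact_mod_cast (by omega : 0 < n + h))
            exact_mod_cast (by omega : n + h ≤ 2 * N)
          rw [Real.log_mul (by norm_num) hN0.ne', ← hL] at h3
          linarith
        have hlo : ∀ h ∈ H, (1 - θ) * L ≤ Real.log ((n + h : ℕ) : ℝ) := by
          intro h hh
          have h3 : Real.log ((N : ℝ) / L ^ c) ≤ Real.log ((n + h : ℕ) : ℝ) := by
            apply Real.log_le_log (by positivity)
            push_cast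
            have : (0 : ℝ) ≤ h := Nat.cast_nonneg h
            linarith
          rw [Real.log_div hN0.ne' (by positivity), Real.log_pow, ← hL] at h3
          linarith
        have hzp : ∀ h ∈ H, z < n + h := by
          intro h hh
          have h1 : (z : ℝ) < n := lt_of_le_of_lt hz hnb
          have h2 : z < n := by exact_mod_cast h1
          omega
        have hQe : Q = ∏ h ∈ H, Real.log ((n + h : ℕ) : ℝ) ^ 2 := by
          rw [hQ]
          exact prod_congr rfl fun h hh => lw_prime (hp h hh) (hzp h hh)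
        have s1 : Q ≤ (((1 + θ) * L) ^ 2) ^ 2 := by
          have e0 : (((1 + θ) * L) ^ 2) ^ 2 = ∏ _h ∈ H, ((1 + θ) * L) ^ 2 := by rw [prod_const, hH2]
          rw [hQe, e0]
          exact prod_le_prod (fun h _ => sq_nonneg _) fun h hh => pow_le_pow_left₀ (log_nn _) (hup h hh) 2
        have s2 : (((1 - θ) * L) ^ 2) ^ 2 ≤ Q := by
          have e0 : (((1 - θ) * L) ^ 2) ^ 2 = ∏ _h ∈ H, ((1 - θ) * L) ^ 2 := by rw [prod_const, hH2]
          rw [hQe, e0]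
          exact prod_le_prod (fun h _ => sq_nonneg _) fun h hh =>
            pow_le_pow_left₀ (mul_nonneg (by linarith) hL0.le) (hlo h hh) 2
        have s3 : 0 ≤ L ^ 4 := by positivity
        have s4 : (((1 + θ) * L) ^ 2) ^ 2 = (1 + θ) ^ 4 * L ^ 4 := by ring
        have s5 : (((1 - θ) * L) ^ 2) ^ 2 = (1 - θ) ^ 4 * L ^ 4 := by ring
        have s6 : (1 + θ) ^ 4 ≤ 1 + 5 * θ := by
          have h2 : (1 + θ) ^ 2 ≤ 1 + 17 / 8 * θ := by nlinarith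
          have h3 : (1 + θ) ^ 4 = (1 + θ) ^ 2 * (1 + θ) ^ 2 := by ring
          have h4 : (1 + θ) ^ 2 * (1 + θ) ^ 2 ≤ (1 + 17 / 8 * θ) * (1 + 17 / 8 * θ) :=
            mul_le_mul h2 h2 (by positivity) (by positivity)
          nlinarith
        have s7 : 1 - 5 * θ ≤ (1 - θ) ^ 4 := by
          have h2 : 1 - 2 * θ ≤ (1 - θ) ^ 2 := by nlinarith
          have h3 : (1 - θ) ^ 4 = (1 - θ) ^ 2 * (1 - θ) ^ 2 := by ring
          have h4 : (1 - 2 * θ) * (1 - 2 * θ) ≤ (1 - θ) ^ 2 * (1 - θ) ^ 2 :=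
            mul_le_mul h2 h2 (by linarith) (by positivity)
          nlinarith
        have s8 : (1 + θ) ^ 4 * L ^ 4 ≤ (1 + 5 * θ) * L ^ 4 := mul_le_mul_of_nonneg_right s6 s3
        have s9 : (1 - 5 * θ) * L ^ 4 ≤ (1 - θ) ^ 4 * L ^ 4 := mul_le_mul_of_nonneg_right s7 s3
        rw [abs_le]
        constructor <;> linarith
    · rw [if_neg (fun hx => hp (hiff.1 hx)), if_neg hp, zero_mul, mul_zero, sub_zero, abs_zero, mul_zero, zero_add]
      split_ifs <;> positivity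
  have h4 : ∑ n ∈ Icc 1 N, (5 * θ * (L ^ 4 * (if ∀ h ∈ H, (n + h).Prime then (1 : ℝ) else 0)) +
        (4 * L ^ 2) ^ 2 * (if (n : ℝ) ≤ N / L ^ c then (1 : ℝ) else 0)) =
      5 * θ * (L ^ 4 * cP N H) + (4 * L ^ 2) ^ 2 * ∑ n ∈ Icc 1 N, (if (n : ℝ) ≤ N / L ^ c then (1 : ℝ) else 0) := by
    rw [sum_add_distrib, hcP, mul_sum, mul_sum, mul_sum]
  have h5 : pm z N H H - L ^ 4 * cP N H = ∑ n ∈ Icc 1 N,
      ((if ∀ h ∈ H, ((n + h).Prime ↔ h ∈ H) then (1 : ℝ) else 0) * ∏ h ∈ H, lw z (n + h) -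
      L ^ 4 * (if ∀ h ∈ H, (n + h).Prime then (1 : ℝ) else 0)) := by
    rw [sum_sub_distrib, hcP, mul_sum]
    rfl
  rw [h5]
  refine (abs_sum_le_sum_abs _ _).trans ((sum_le_sum hpt).trans ?_)
  rw [h4]
  have h3 := mul_le_mul_of_nonneg_left hcnt (show 0 ≤ (4 * L ^ 2) ^ 2 by positivity)
  linarith

open Classical in
/-- splitting according to the patterns -/
lemma pm_split {z N i j : ℕ} (hij : i ≠ j) :
    TM (fun _ => 1) z N {i, j} = pm z N {i, j} ∅ + pm z N {i, j} {i} + pm z N {i, j} {j} + pm z N {i, j} {i, j} ∧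
    PM (fun _ => 1) z N i {i, j} = pm z N {i, j} {i} + pm z N {i, j} {i, j} ∧
    PM (fun _ => 1) z N j {i, j} = pm z N {i, j} {j} + pm z N {i, j} {i, j} := by
  unfold TM PM pm
  rw [← sum_add_distrib, ← sum_add_distrib, ← sum_add_distrib, ← sum_add_distrib, ← sum_add_distrib]
  have key : ∀ n : ℕ, ∀ X : ℝ,
      (1 * X = (if ∀ h ∈ ({i, j} : Finset ℕ), ((n + h).Prime ↔ h ∈ (∅ : Finset ℕ)) then (1 : ℝ) else 0) * X +
        (if ∀ h ∈ ({i, j} : Finset ℕ), ((n + h).Prime ↔ h ∈ ({i} : Finset ℕ)) then (1 : ℝ) else 0) * X +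
        (if ∀ h ∈ ({i, j} : Finset ℕ), ((n + h).Prime ↔ h ∈ ({j} : Finset ℕ)) then (1 : ℝ) else 0) * X +
        (if ∀ h ∈ ({i, j} : Finset ℕ), ((n + h).Prime ↔ h ∈ ({i, j} : Finset ℕ)) then (1 : ℝ) else 0) * X) ∧
      (1 * (eP (n + i) * X) =
        (if ∀ h ∈ ({i, j} : Finset ℕ), ((n + h).Prime ↔ h ∈ ({i} : Finset ℕ)) then (1 : ℝ) else 0) * X +
        (if ∀ h ∈ ({i, j} : Finset ℕ), ((n + h).Prime ↔ h ∈ ({i, j} : Finset ℕ)) then (1 : ℝ) else 0) * X) ∧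
      (1 * (eP (n + j) * X) =
        (if ∀ h ∈ ({i, j} : Finset ℕ), ((n + h).Prime ↔ h ∈ ({j} : Finset ℕ)) then (1 : ℝ) else 0) * X +
        (if ∀ h ∈ ({i, j} : Finset ℕ), ((n + h).Prime ↔ h ∈ ({i, j} : Finset ℕ)) then (1 : ℝ) else 0) * X) := by
    intro n X
    unfold eP
    have hji : j ≠ i := hij.symm
    by_cases h1 : (n + i).Prime <;> by_cases h2 : (n + j).Prime <;> simp [h1, h2, hij, hji]
  exact ⟨sum_congr rfl fun n _ => (key n _).1, sum_congr rfl fun n _ => (key n _).2.1,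
    sum_congr rfl fun n _ => (key n _).2.2⟩

/-- the final computation -/
lemma fin_pair {x S n T Pi Pj p0 pi pj p2 c : ℝ} (hx : 0 < x) (hx8 : x ≤ 1 / 64) (hS : 0 < S) (hn : 16 * n ≤ x * S)
    (hc0 : 0 ≤ c) (h1 : |T - 4 * S| ≤ x * S) (h2 : |Pi - 2 * S| ≤ x * S) (h3 : |Pj - 2 * S| ≤ x * S)
    (e1 : T = p0 + pi + pj + p2) (e2 : Pi = pi + p2) (e3 : Pj = pj + p2) (hpi : 0 ≤ pi)
    (h4 : |p2 - c| ≤ 5 * x * c + 16 * n) :
    |p0 - c| ≤ 32 * x * S ∧ |p2 - c| ≤ 32 * x * S ∧ |pi - (2 * S - c)| ≤ 32 * x * S ∧ |pj - (2 * S - c)| ≤ 32 * x * S := by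
  obtain ⟨a1, a2⟩ := abs_le.1 h1
  obtain ⟨b1, b2⟩ := abs_le.1 h2
  obtain ⟨c1, c2⟩ := abs_le.1 h3
  obtain ⟨d1, d2⟩ := abs_le.1 h4
  have hxS : 0 < x * S := by positivity
  have f1 : p2 ≤ 2 * S + x * S := by linarith
  have f2 : c ≤ 4 * S := by nlinarith
  have f3 : 5 * x * c ≤ 5 * x * (4 * S) := mul_le_mul_of_nonneg_left f2 (by positivity)
  refine ⟨?_, ?_, ?_, ?_⟩ <;> rw [abs_le] <;> constructor <;> nlinarith

lemma pm_nonneg {z N : ℕ} (hN : 2 ≤ N) {H : Finset ℕ} (hH : ∀ h ∈ H, 1 ≤ h ∧ h ≤ N) (S : Finset ℕ) : 0 ≤ pm z N H S := by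
  classical
  unfold pm
  refine sum_nonneg fun n hn => mul_nonneg (by split_ifs <;> norm_num) (prod_nonneg fun h hh => ?_)
  rw [mem_Icc] at hn
  obtain ⟨h1, h2⟩ := hH h hh
  exact (lw_bd hN (by omega) (by omega)).1

/-- **the parity law for pairs** -/
theorem pair_law (ε : ℝ) (hε : 0 < ε) : ∃ δ : ℝ, 1 / 2 ≤ δ ∧ δ < 1 ∧
    ∃ ξ : ℝ, 0 < ξ ∧ ξ ≤ 1 / 8 ∧ ξ ≤ ε ∧ ∃ B : ℕ, ∀ᶠ N : ℕ in atTop,
    ∀ A : Finset ℕ, (∀ a ∈ A, 1 ≤ a ∧ a ≤ N) → ∀ Bad : Finset (Finset ℕ),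
    (∀ H ∈ Bad, H ∈ A.powersetCard 2 ∧ Adm H ∧
      (ε * CT H * (N * Real.log N ^ 2) < |pm (zN ξ N) N H ∅ - Real.log N ^ 4 * cP N H| ∨
      ε * CT H * (N * Real.log N ^ 2) < |pm (zN ξ N) N H H - Real.log N ^ 4 * cP N H| ∨
      ∃ i ∈ H, ε * CT H * (N * Real.log N ^ 2) <
        |pm (zN ξ N) N H {i} - (2 * CT H * (N * Real.log N ^ 2) - Real.log N ^ 4 * cP N H)|)) →
    (Bad.card : ℝ) ≤ A.card * (4 * ((N : ℝ) ^ δ * Real.log N ^ B)) := by
  classical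
  obtain ⟨x, hx⟩ : ∃ x : ℝ, x = min (ε / 32) (1 / 64) := ⟨_, rfl⟩
  have hx0 : 0 < x := by rw [hx]; positivity
  have hx8 : x ≤ 1 / 64 := by rw [hx]; exact min_le_right _ _
  have hxε : 32 * x ≤ ε := by
    have : x ≤ ε / 32 := by rw [hx]; exact min_le_left _ _
    linarith
  obtain ⟨δ, hδ1, hδ2, ξ, hξ, hξ8, hξx, B, HP⟩ := marg 1 x hx0
  obtain ⟨c0, hc0, hlow⟩ := PT_low 1
  refine ⟨δ, hδ1, hδ2, ξ, hξ, hξ8, hξx.trans (by linarith), B, ?_⟩
  have e1 := ev_logN (eventually_ge_atTop (max (max 1 (Real.log 2 / x)) (16 / (x * c0))))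
  have e2 : ∀ᶠ N : ℕ in atTop, ((4 : ℕ) : ℝ) * Real.log (Real.log N) ≤ x * Real.log N := by
    apply ev_logN (P := fun L => ((4 : ℕ) : ℝ) * Real.log L ≤ x * L)
    have h1 := (Real.isLittleO_log_id_atTop).def (c := x / 4) (by positivity)
    filter_upwards [h1, eventually_ge_atTop 1] with L hL hL1
    rw [Real.norm_of_nonneg (Real.log_nonneg hL1), Real.norm_of_nonneg (show 0 ≤ id L by simpa using by linarith)] at hL
    simp only [id] at hL
    rw [div_mul_eq_mul_div, le_div_iff₀ (by positivity)] at hL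
    push_cast
    linarith
  filter_upwards [HP, e1, e2, eventually_ge_atTop 3] with N hP f1 f2 hN A hA Bad hBad
  obtain ⟨L, hL⟩ : ∃ L : ℝ, L = Real.log N := ⟨_, rfl⟩
  rw [← hL] at f1 f2 hBad hP ⊢
  have hL1 : 1 ≤ L := (le_max_left _ _).trans ((le_max_left _ _).trans f1)
  have hL0 : 0 < L := by linarith
  have hl2 : Real.log 2 / x ≤ L := (le_max_right _ _).trans ((le_max_left _ _).trans f1)
  rw [div_le_iff₀ hx0, mul_comm] at hl2
  have hLc : 16 / (x * c0) ≤ L := (le_max_right _ _).trans f1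
  rw [div_le_iff₀ (by positivity)] at hLc
  have hN0 : (0 : ℝ) < N := by exact_mod_cast (by omega : 0 < N)
  have hN2 : 2 ≤ N := by omega
  obtain ⟨z, hz⟩ : ∃ z : ℕ, z = zN ξ N := ⟨_, rfl⟩
  rw [← hz] at hBad hP
  have hzc : (z : ℝ) ≤ N / L ^ 4 := by
    have h1 : (z : ℝ) < (N : ℝ) ^ ξ := by rw [hz]; exact zN_lt (by omega)
    have h2 : (N : ℝ) ^ ξ = Real.exp (ξ * L) := by
      rw [Real.rpow_def_of_pos hN0, ← hL, mul_comm]
    have h3 : Real.exp (Real.log ((N : ℝ) / L ^ 4)) = N / L ^ 4 :=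
      Real.exp_log (by positivity)
    rw [← h3]
    refine h1.le.trans ?_
    rw [h2]
    apply Real.exp_le_exp.2
    rw [Real.log_div hN0.ne' (by positivity), Real.log_pow, ← hL]
    nlinarith
  have hmain := hP A hA Bad fun H hH => by
    obtain ⟨b1, b2, b3⟩ := hBad H hH
    refine ⟨b1, b2, ?_⟩
    by_contra hcon
    push Not at hcon
    obtain ⟨hT, hPi⟩ := hcon
    rw [mem_powersetCard] at b1
    have hHN : ∀ h ∈ H, 1 ≤ h ∧ h ≤ N := fun h hh => hA h (b1.1 hh)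
    obtain ⟨l1, l2⟩ := hlow H b1.2 b2
    have hCT : 0 < CT H := by linarith
    obtain ⟨S, hS⟩ : ∃ S : ℝ, S = CT H * (N * L ^ 2) := ⟨_, rfl⟩
    have hS0 : 0 < S := by rw [hS]; positivity
    have eS1 : x * CT H * (N * L ^ (1 + 1)) = x * S := by rw [hS]; ring
    have eS2 : 2 ^ (1 + 1) * CT H * (N * L ^ (1 + 1)) = 4 * S := by rw [hS]; ring
    have eS3 : 2 ^ 1 * CT H * (N * L ^ (1 + 1)) = 2 * S := by rw [hS]; ring
    have eS4 : ε * CT H * (N * L ^ 2) = ε * S := by rw [hS]; ring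
    have eS5 : 2 * CT H * (N * L ^ 2) = 2 * S := by rw [hS]; ring
    rw [eS1, eS2] at hT
    simp only [eS1, eS3] at hPi
    simp only [eS4, eS5] at b3
    have hnS : 16 * (N : ℝ) ≤ x * S := by
      have g1 : c0 * (N * L) ≤ S := by
        rw [hS]
        have : L ≤ L ^ 2 := le_self_pow₀ hL1 (by norm_num)
        gcongr
      calc 16 * (N : ℝ) ≤ L * (x * c0) * N := mul_le_mul_of_nonneg_right hLc hN0.le
        _ = x * (c0 * (N * L)) := by ring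
        _ ≤ x * S := mul_le_mul_of_nonneg_left g1 hx0.le
    have h4 := pp_cmp (z := z) (c := 4) hN2 hL hL1 hx0 (by linarith) f2 hl2 hzc H hHN b1.2
    have e5 : (4 * L ^ 2) ^ 2 * ((N : ℝ) / L ^ 4) = 16 * N := by
      field_simp
      ring
    rw [e5] at h4
    have hc0' : 0 ≤ L ^ 4 * (cP N H : ℝ) := by positivity
    obtain ⟨i, j, hij, hHe⟩ := card_eq_two.1 b1.2
    subst hHe
    have hi : i ∈ ({i, j} : Finset ℕ) := mem_insert_self _ _
    have hj : j ∈ ({i, j} : Finset ℕ) := mem_insert_of_mem (mem_singleton_self _)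
    obtain ⟨q1, q2, q3⟩ := pm_split (z := z) (N := N) hij
    obtain ⟨r1, r0, r2, r3⟩ := fin_pair hx0 hx8 hS0 hnS hc0' hT (hPi i hi) (hPi j hj) q1 q2 q3 (pm_nonneg hN2 hHN _) h4
    have hfin : 32 * x * S ≤ ε * S := mul_le_mul_of_nonneg_right hxε hS0.le
    rcases b3 with b3 | b3 | ⟨t, ht, b3⟩
    · linarith
    · linarith
    · rw [mem_insert, mem_singleton] at ht
      rcases ht with rfl | rfl <;> linarith
  rw [Nat.choose_one_right, pow_one] at hmain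
  exact hmain

end Pool.Agent.H528.It
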