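import Mathlib
import Pool.Agent.H528.ItE
import Pool.Agent.H530.HwC

/-! The parity law for Goldbach's problem: the engine for all targets. -/

set_option autoImplicit false

namespace Pool.Agent.H528.Gp

open Finset Filter Topology
open Pool.Agent.Y822 Pool.Agent.Y822.Par3
open Pool.Agent.H373R2.T7 (pz Vz mem_pz Vz_pos Vz_le_one)
open Pool.Agent.H387R2.Uni (nuT Adm locT CT)
open Pool.Agent.H528.Gam Pool.Agent.H528.UpLo Pool.Agent.H528.Lam Pool.Agent.H528.It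
open Pool.Agent.H528.AsyL Pool.Agent.H528.Gen Pool.Agent.H528.PCnt Pool.Agent.H528.Tup Pool.Agent.H528.Mass

/-- the additive convolution -/
noncomputable def G (u v : ℕ → ℝ) (m : ℕ) : ℝ := ∑ n ∈ Ico 1 m, u n * v (m - n)

lemma G_comm (u v : ℕ → ℝ) (m : ℕ) : G u v m = G v u m := by
  unfold G
  apply sum_nbij' (fun n => m - n) (fun n => m - n)
  · intro n hn
    rw [mem_Ico] at hn ⊢
    omega
  · intro n hn
    rw [mem_Ico] at hn ⊢
    omega
  · intro n hn
    rw [mem_Ico] at hn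
    omega
  · intro n hn
    rw [mem_Ico] at hn
    omega
  · intro n hn
    rw [mem_Ico] at hn
    have e : m - (m - n) = n := by omega
    rw [e, mul_comm]

lemma G_nonneg {u v : ℕ → ℝ} {m : ℕ} (hu : ∀ n ∈ Ico 1 m, 0 ≤ u n) (hv : ∀ n ∈ Ico 1 m, 0 ≤ v n) : 0 ≤ G u v m := by
  refine sum_nonneg fun n hn => mul_nonneg (hu n hn) (hv _ ?_)
  rw [mem_Ico] at hn ⊢
  omega

open Classical in
/-- **the step for all targets** -/
theorem gstep (U : ℕ) (ε : ℝ) (hε : 0 < ε) : ∃ δ : ℝ, 1 / 2 ≤ δ ∧ δ < 1 ∧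
    ∃ ξ : ℝ, 0 < ξ ∧ ξ ≤ 1 / 8 ∧ ξ ≤ ε ∧ ∃ κ : ℝ, 0 < κ ∧ κ ≤ 1 ∧ ∃ B : ℕ, ∀ᶠ N : ℕ in atTop,
    ∀ u : ℕ → ℝ, (∀ n, 0 ≤ u n ∧ u n ≤ 1) → ∀ Bd : Finset ℕ,
    (∀ m ∈ Bd, (1 ≤ m ∧ m ≤ N) ∧
      ε * (2 * Real.log N / Vz (yN κ N) * G u (ro (yN κ N)) m) + N / Real.log N ^ U <
        |G u (lw (zN ξ N)) m - 2 * Real.log N / Vz (yN κ N) * G u (ro (yN κ N)) m|) →
    (Bd.card : ℝ) ≤ (N : ℝ) ^ δ * Real.log N ^ B := by
  obtain ⟨δ, hδ1, hδ2, ξ, hξ, hξ8, hξx, κ, hκ, hκ1, B, HP⟩ := one (U + 1) ε hε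
  obtain ⟨cz, hcz, hV⟩ := Vz_sharp
  refine ⟨δ, hδ1, hδ2, ξ, hξ, hξ8, hξx, κ, hκ, hκ1, B + (U + 6), ?_⟩
  have e1 := ev_logN (eventually_ge_atTop (max 4 (2 * (4 + 2 / cz))))
  have e2 := ev_logN (ev_pow_exp (U + 5) 1 1 (by norm_num))
  filter_upwards [HP, e1, e2, yN_facts κ hκ hκ1 3 1, eventually_ge_atTop 3] with N hP f1 f2 hyf hN u hu Bd hBd
  obtain ⟨y1, y2, y3, y4, y5⟩ := hyf
  obtain ⟨L, hL⟩ : ∃ L : ℝ, L = Real.log N := ⟨_, rfl⟩
  have hbd := fun (z m : ℕ) (h1 : 1 ≤ m) (hm : m ≤ 2 * N) => lw_bd (z := z) (show 2 ≤ N by omega) h1 hm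
  rw [← hL] at f1 f2 hBd hP ⊢
  simp only [← hL] at hbd
  obtain ⟨z, hz⟩ : ∃ z : ℕ, z = zN ξ N := ⟨_, rfl⟩
  obtain ⟨y, hy⟩ : ∃ y : ℕ, y = yN κ N := ⟨_, rfl⟩
  rw [← hz, ← hy] at hBd hP
  rw [← hy] at y4 y5
  obtain ⟨W, hW⟩ : ∃ W : ℝ, W = 2 * L / Vz y := ⟨_, rfl⟩
  rw [← hW] at hBd hP
  have hL4 : 4 ≤ L := (le_max_left _ _).trans f1
  have hLc : 2 * (4 + 2 / cz) ≤ L := (le_max_right _ _).trans f1
  have hL0 : 0 < L := by linarith
  have hL1 : 1 ≤ L := by linarith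
  have hN0 : (0 : ℝ) < N := by exact_mod_cast (by omega : 0 < N)
  have hVy : 0 < Vz y := Vz_pos y
  have hW0 : 0 < W := by rw [hW]; positivity
  have hyN : y ≤ N := by rw [pow_one] at y4; exact y4
  have hVlow : cz / L ≤ Vz y := by
    refine le_trans ?_ (hV _ y5)
    apply div_le_div_of_nonneg_left hcz.le
    · exact Real.log_pos (by exact_mod_cast (by omega : 1 < y))
    · rw [hL]
      exact Real.log_le_log (by exact_mod_cast (by omega : 0 < y)) (by exact_mod_cast hyN)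
  have hWu : W ≤ 2 / cz * L ^ 2 := by
    rw [hW, div_le_iff₀ hVy]
    have h1 : 2 / cz * L ^ 2 * (cz / L) ≤ 2 / cz * L ^ 2 * Vz y := mul_le_mul_of_nonneg_left hVlow (by positivity)
    have h2 : 2 / cz * L ^ 2 * (cz / L) = 2 * L := by field_simp
    linarith
  -- the length of the pieces
  obtain ⟨D, hD⟩ : ∃ D : ℕ, D = ⌊(N : ℝ) / L ^ (U + 4)⌋₊ := ⟨_, rfl⟩
  have hNL : L ^ (U + 5) ≤ N := by
    have : (N : ℝ) = Real.exp L := by rw [hL, Real.exp_log hN0]
    rw [this]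
    rw [one_mul, one_mul] at f2
    exact f2
  have hNL2 : 2 ≤ (N : ℝ) / L ^ (U + 4) := by
    rw [le_div_iff₀ (by positivity)]
    calc 2 * L ^ (U + 4) ≤ L * L ^ (U + 4) := by gcongr; linarith
      _ = L ^ (U + 5) := by ring
      _ ≤ N := hNL
  have hDu : (D : ℝ) ≤ N / L ^ (U + 4) := by rw [hD]; exact Nat.floor_le (by positivity)
  have hDl : (N : ℝ) / L ^ (U + 4) / 2 ≤ D := by
    have h1 : (N : ℝ) / L ^ (U + 4) < D + 1 := by rw [hD]; exact Nat.lt_floor_add_one _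
    linarith
  have hD0 : 0 < D := by
    have : (0 : ℝ) < D := by linarith
    exact_mod_cast this
  have hDN : D ≤ N := by
    have h1 : (N : ℝ) / L ^ (U + 4) ≤ N := div_le_self hN0.le (one_le_pow₀ hL1)
    exact_mod_cast hDu.trans h1
  -- one piece
  have hpiece : ∀ q : ℕ, (((Bd.filter (fun m => (m - 1) / D = q)).card : ℕ) : ℝ) ≤ (N : ℝ) ^ δ * L ^ B := by
    intro q
    obtain ⟨M, hM⟩ : ∃ M : ℕ, M = q * D := ⟨_, rfl⟩
    set e : ℕ → ℝ := fun n => if n < M then u (M - n) else 0 with he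
    have he01 : ∀ n, 0 ≤ e n ∧ e n ≤ 1 := by
      intro n
      rw [he]
      dsimp only
      split_ifs
      · exact hu _
      · exact ⟨le_rfl, zero_le_one⟩
    have hinj : Set.InjOn (fun m => m - M) ((Bd.filter (fun m => (m - 1) / D = q) : Finset ℕ) : Set ℕ) := by
      intro m hm m' hm' he
      rw [mem_coe, mem_filter] at hm hm'
      have h1 := (hBd m hm.1).1.1
      have h1' := (hBd m' hm'.1).1.1
      have h2 : M ≤ m - 1 := by rw [hM, ← hm.2]; exact Nat.div_mul_le_self _ _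
      have h2' : M ≤ m' - 1 := by rw [hM, ← hm'.2]; exact Nat.div_mul_le_self _ _
      have he' : m - M = m' - M := he
      omega
    rw [← card_image_of_injOn hinj]
    refine hP e he01 _ fun h hh => ?_
    rw [mem_image] at hh
    obtain ⟨m, hm, rfl⟩ := hh
    rw [mem_filter] at hm
    obtain ⟨⟨hm1, hmN⟩, hbad⟩ := hBd m hm.1
    have h2 : M ≤ m - 1 := by rw [hM, ← hm.2]; exact Nat.div_mul_le_self _ _
    have h3 : m - 1 < M + D := by
      have := Nat.lt_div_mul_add (a := m - 1) hD0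
      rw [hm.2, ← hM] at this
      exact this
    refine ⟨⟨by omega, by omega⟩, ?_⟩
    have hsum : ∀ v : ℕ → ℝ, ∑ n ∈ Icc 1 N, e n * v (n + (m - M)) = ∑ n ∈ Ico 1 M, u n * v (m - n) := by
      intro v
      have s1 : ∑ n ∈ Icc 1 N, e n * v (n + (m - M)) = ∑ n ∈ Ico 1 M, u (M - n) * v (n + (m - M)) := by
        have hsub : Ico 1 M ⊆ Icc 1 N := by
          intro n hn
          rw [mem_Ico] at hn
          rw [mem_Icc]
          omega
        rw [← sum_subset hsub]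
        · refine sum_congr rfl fun n hn => ?_
          rw [mem_Ico] at hn
          rw [he]
          dsimp only
          rw [if_pos hn.2]
        · intro n hn hn'
          rw [mem_Icc] at hn
          rw [mem_Ico] at hn'
          rw [he]
          dsimp only
          rw [if_neg (by omega), zero_mul]
      rw [s1]
      apply sum_nbij' (fun n => M - n) (fun n => M - n)
      · intro n hn
        rw [mem_Ico] at hn ⊢
        omega
      · intro n hn
        rw [mem_Ico] at hn ⊢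
        omega
      · intro n hn
        rw [mem_Ico] at hn
        omega
      · intro n hn
        rw [mem_Ico] at hn
        omega
      · intro n hn
        rw [mem_Ico] at hn
        have e : m - (M - n) = n + (m - M) := by omega
        rw [e]
    have htail : ∀ v : ℕ → ℝ, ∀ K : ℝ, 0 ≤ K → (∀ n ∈ Icc 1 N, 0 ≤ v n ∧ v n ≤ K) →
        0 ≤ G u v m - ∑ n ∈ Ico 1 M, u n * v (m - n) ∧ G u v m - ∑ n ∈ Ico 1 M, u n * v (m - n) ≤ D * K := by
      intro v K hK hv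
      have hsub : Ico 1 M ⊆ Ico 1 m := by
        intro n hn
        rw [mem_Ico] at hn ⊢
        omega
      have s1 : G u v m - ∑ n ∈ Ico 1 M, u n * v (m - n) = ∑ n ∈ Ico 1 m \ Ico 1 M, u n * v (m - n) := by
        unfold G
        rw [← sum_sdiff hsub]
        ring
      rw [s1]
      have hb : ∀ n ∈ Ico 1 m \ Ico 1 M, 0 ≤ u n * v (m - n) ∧ u n * v (m - n) ≤ K := by
        intro n hn
        rw [Finset.mem_sdiff, mem_Ico, mem_Ico] at hn
        obtain ⟨v0, v1⟩ := hv (m - n) (by rw [mem_Icc]; omega)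
        obtain ⟨u0, u1⟩ := hu n
        refine ⟨mul_nonneg u0 v0, ?_⟩
        calc u n * v (m - n) ≤ 1 * K := mul_le_mul u1 v1 v0 zero_le_one
          _ = K := one_mul K
      refine ⟨sum_nonneg fun n hn => (hb n hn).1, ?_⟩
      refine (sum_le_sum fun n hn => (hb n hn).2).trans ?_
      rw [sum_const, nsmul_eq_mul]
      apply mul_le_mul_of_nonneg_right _ hK
      have h4 : Ico 1 m \ Ico 1 M ⊆ Ico M m := by
        intro n hn
        rw [Finset.mem_sdiff, mem_Ico, mem_Ico] at hn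
        rw [mem_Ico]
        omega
      have h5 := card_le_card h4
      rw [Nat.card_Ico] at h5
      exact_mod_cast h5.trans (by omega)
    obtain ⟨t1, t2⟩ := htail (ro y) 1 zero_le_one fun n _ => ⟨ro_nonneg _ _, ro_le_one _ _⟩
    obtain ⟨t3, t4⟩ := htail (lw z) (4 * L ^ 2) (by positivity) fun n hn => by
      rw [mem_Icc] at hn
      exact hbd z n hn.1 (by omega)
    rw [hsum (ro y), hsum (lw z)]
    obtain ⟨S', hS'⟩ : ∃ S' : ℝ, S' = ∑ n ∈ Ico 1 M, u n * lw z (m - n) := ⟨_, rfl⟩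
    obtain ⟨R', hR'⟩ : ∃ R' : ℝ, R' = ∑ n ∈ Ico 1 M, u n * ro y (m - n) := ⟨_, rfl⟩
    rw [← hS'] at t3 t4 ⊢
    rw [← hR'] at t1 t2 ⊢
    by_contra hcon
    push Not at hcon
    apply absurd hbad
    push Not
    obtain ⟨a1, a2⟩ := abs_le.1 hcon
    have hWD : W * D ≤ 2 / cz * (N / L ^ (U + 2)) := by
      calc W * D ≤ 2 / cz * L ^ 2 * (N / L ^ (U + 4)) := mul_le_mul hWu hDu (Nat.cast_nonneg _) (by positivity)
        _ = _ := by
            rw [show U + 4 = U + 2 + 2 by ring, pow_add L (U + 2) 2]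
            field_simp
    have hLD : D * (4 * L ^ 2) ≤ 4 * (N / L ^ (U + 2)) := by
      calc D * (4 * L ^ 2) ≤ N / L ^ (U + 4) * (4 * L ^ 2) := mul_le_mul_of_nonneg_right hDu (by positivity)
        _ = _ := by
            rw [show U + 4 = U + 2 + 2 by ring, pow_add L (U + 2) 2]
            field_simp
    have hsm1 : (4 + 2 / cz) * (N / L ^ (U + 2)) ≤ N / L ^ U / 4 := by
      have h4 : (N : ℝ) / L ^ (U + 2) = N / L ^ U / L / L := by
        rw [pow_add, pow_two, ← div_div, ← div_div]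
      rw [h4]
      obtain ⟨t, ht⟩ : ∃ t : ℝ, t = (N : ℝ) / L ^ U := ⟨_, rfl⟩
      rw [← ht]
      have ht0 : 0 ≤ t := by rw [ht]; positivity
      have h5 : (4 + 2 / cz) * (t / L / L) ≤ L / 2 * (t / L / L) := mul_le_mul_of_nonneg_right (by linarith) (by positivity)
      have h6 : L / 2 * (t / L / L) = t / L / 2 := by field_simp
      have h7 : t / L ≤ t / 2 := div_le_div_of_nonneg_left ht0 (by norm_num) (by linarith)
      linarith
    have hsm2 : (N : ℝ) / L ^ (U + 1) ≤ N / L ^ U / 4 := by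
      rw [pow_succ, ← div_div]
      exact div_le_div_of_nonneg_left (by positivity) (by norm_num) hL4
    have hWt : W * (G u (ro y) m - R') ≤ W * (D * 1) := mul_le_mul_of_nonneg_left t2 hW0.le
    have hWt0 : 0 ≤ W * (G u (ro y) m - R') := mul_nonneg hW0.le t1
    have hεW : ε * (W * R') ≤ ε * (W * G u (ro y) m) := by
      apply mul_le_mul_of_nonneg_left _ hε.le
      apply mul_le_mul_of_nonneg_left _ hW0.le
      linarith
    have hpos : 0 ≤ (N : ℝ) / L ^ U := by positivity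
    have e5 : (4 + 2 / cz) * (N / L ^ (U + 2)) = 4 * (N / L ^ (U + 2)) + 2 / cz * (N / L ^ (U + 2)) := by ring
    rw [abs_le]
    constructor <;> nlinarith
  -- all pieces
  have hmaps : ∀ m ∈ Bd, (m - 1) / D ∈ range (⌊2 * L ^ (U + 4)⌋₊ + 1) := by
    intro m hm
    obtain ⟨⟨hm1, hmN⟩, _⟩ := hBd m hm
    rw [mem_range, Nat.lt_succ_iff]
    apply Nat.le_floor
    have h1 : (((m - 1) / D : ℕ) : ℝ) ≤ ((m - 1 : ℕ) : ℝ) / D := Nat.cast_div_le
    refine h1.trans ?_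
    have hDr : (0 : ℝ) < D := by exact_mod_cast hD0
    rw [div_le_iff₀ hDr]
    have h2 : ((m - 1 : ℕ) : ℝ) ≤ N := by exact_mod_cast (by omega : m - 1 ≤ N)
    refine h2.trans ?_
    calc (N : ℝ) = 2 * L ^ (U + 4) * (N / L ^ (U + 4) / 2) := by field_simp
      _ ≤ 2 * L ^ (U + 4) * D := mul_le_mul_of_nonneg_left hDl (by positivity)
  have h1 := card_eq_sum_card_fiberwise hmaps
  have h2 : (Bd.card : ℝ) = ∑ q ∈ range (⌊2 * L ^ (U + 4)⌋₊ + 1), (((Bd.filter (fun m => (m - 1) / D = q)).card : ℕ) : ℝ) := by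
    rw [h1]
    push_cast
    rfl
  rw [h2]
  refine (sum_le_sum fun q _ => hpiece q).trans ?_
  rw [sum_const, card_range, nsmul_eq_mul]
  have h3 : ((⌊2 * L ^ (U + 4)⌋₊ + 1 : ℕ) : ℝ) ≤ L ^ (U + 6) := by
    push_cast
    have h4 := Nat.floor_le (show 0 ≤ 2 * L ^ (U + 4) by positivity)
    have h5 : (1 : ℝ) ≤ L ^ (U + 4) := one_le_pow₀ hL1
    have h6 : L ^ (U + 6) = L ^ (U + 4) * (L * L) := by ring
    have h7 : (16 : ℝ) ≤ L * L := by nlinarith
    rw [h6]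
    nlinarith
  calc ((⌊2 * L ^ (U + 4)⌋₊ + 1 : ℕ) : ℝ) * ((N : ℝ) ^ δ * L ^ B) ≤ L ^ (U + 6) * ((N : ℝ) ^ δ * L ^ B) :=
        mul_le_mul_of_nonneg_right h3 (by positivity)
    _ = _ := by rw [pow_add]; ring

end Pool.Agent.H528.Gp
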