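import Mathlib
import Pool.Agent.H528.Gp

/-! The parity law for Goldbach's problem: main terms. -/

set_option autoImplicit false

namespace Pool.Agent.H528.Gp

open Finset Filter Topology
open Pool.Agent.Y822 Pool.Agent.Y822.Par3
open Pool.Agent.H373R2.T7 (pz Vz mem_pz Vz_pos Vz_le_one nuB rhoA PerA)
open Pool.Agent.H387R2.Uni (nuT Adm locT CT)
open Pool.Agent.H528.Gam Pool.Agent.H528.UpLo Pool.Agent.H528.Lam Pool.Agent.H528.It
open Pool.Agent.H528.AsyL Pool.Agent.H528.Gen Pool.Agent.H528.PCnt Pool.Agent.H528.Tup Pool.Agent.H528.Mass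
open Pool.Agent.H530.Ha (Sv RQ all_F)

/-- the sieve conditions -/
def QG (m p n : ℕ) : Prop := ∃ t ∈ insert m ({0} : Finset ℕ), n + t ≡ m [MOD p]

lemma QG_iff (m p n : ℕ) : QG m p n ↔ p ∣ n ∨ n ≡ m [MOD p] := by
  unfold QG
  constructor
  · rintro ⟨t, ht, h⟩
    rw [mem_insert, mem_singleton] at ht
    rcases ht with rfl | rfl
    · left
      have h2 : n + t ≡ 0 + t [MOD p] := by rw [zero_add]; exact h
      exact (Nat.modEq_zero_iff_dvd).1 (Nat.ModEq.add_right_cancel' t h2)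
    · right
      exact h
  · rintro (h | h)
    · refine ⟨m, mem_insert_self _ _, ?_⟩
      have := Nat.ModEq.add_right m ((Nat.modEq_zero_iff_dvd).2 h)
      rwa [zero_add] at this
    · exact ⟨0, by simp, h⟩

lemma nuB_QG (m p : ℕ) (hp : p.Prime) : nuB (QG m) p = nuT (insert m {0}) p := by
  classical
  have h0 := Pool.Agent.Y978.QL.card_R (insert m {0}) m p hp
  rw [← h0]
  unfold nuB QG
  apply congrArg
  ext r
  simp only [mem_filter]

lemma card_H {m : ℕ} (hm : 1 ≤ m) : (insert m ({0} : Finset ℕ)).card = 2 := by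
  rw [card_insert_of_notMem (by simp; omega), card_singleton]

lemma adm_H {m : ℕ} (hm : Even m) : Adm (insert m {0}) := by
  intro p hp
  rcases hp.eq_two_or_odd' with rfl | hodd
  · have h1 : nuT (insert m {0}) 2 ≤ 1 := by
      unfold nuT
      rw [card_le_one]
      intro a ha b hb
      rw [mem_image] at ha hb
      obtain ⟨s, hs, rfl⟩ := ha
      obtain ⟨t, ht, rfl⟩ := hb
      have h0 : ∀ r ∈ insert m ({0} : Finset ℕ), r % 2 = 0 := by
        intro r hr
        rw [mem_insert, mem_singleton] at hr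
        rcases hr with rfl | rfl
        · exact Nat.even_iff.1 hm
        · rfl
      rw [h0 s hs, h0 t ht]
    omega
  · have h1 := nuT_le_card (insert m ({0} : Finset ℕ)) p
    have h2 : (insert m ({0} : Finset ℕ)).card ≤ 2 := (card_insert_le _ _).trans (by simp)
    have h3 : 3 ≤ p := by
      have := hp.two_le
      rcases Nat.lt_or_ge p 3 with h | h
      · have : p = 2 := by omega
        subst this
        exact absurd hodd (by decide)
      · exact h
    omega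

lemma sv_QG {m : ℕ} (hm : Even m) : Sv 2 (QG m) := by
  refine ⟨fun p n => ?_, fun p hp => ?_, fun p hp => ?_⟩
  · rw [QG_iff, QG_iff]
    have h1 : n % p ≡ n [MOD p] := Nat.mod_modEq n p
    constructor
    · rintro (h | h)
      · left
        exact (Nat.dvd_mod_iff (dvd_refl p)).2 h
      · right
        exact h1.trans h
    · rintro (h | h)
      · left
        exact (Nat.dvd_mod_iff (dvd_refl p)).1 h
      · right
        exact h1.symm.trans h
  · rw [nuB_QG m p hp]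
    exact (nuT_le_card _ p).trans ((card_insert_le _ _).trans (by simp))
  · rw [nuB_QG m p hp]
    have := adm_H hm p hp
    omega

open Classical in
lemma G_ro (m y : ℕ) (hm : 1 ≤ m) (hy : 2 ≤ y) : G (ro y) (ro y) m = ((RQ (QG m) m y).card : ℝ) := by
  unfold G RQ
  rw [card_eq_sum_ones, Nat.cast_sum, sum_filter]
  have hsub : Ico 1 m ⊆ Icc 1 m := by
    intro n hn
    rw [mem_Ico] at hn
    rw [mem_Icc]
    omega
  rw [← sum_subset hsub]
  · refine sum_congr rfl fun n hn => ?_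
    rw [mem_Ico] at hn
    have hiff : (∀ p ∈ pz y, ¬ QG m p n) ↔ Ro y n ∧ Ro y (m - n) := by
      constructor
      · intro h
        refine ⟨fun p hp hpy hd => h p (mem_pz.2 ⟨hpy, hp⟩) ((QG_iff m p n).2 (Or.inl hd)), fun p hp hpy hd => ?_⟩
        apply h p (mem_pz.2 ⟨hpy, hp⟩)
        rw [QG_iff]
        right
        exact (Nat.modEq_iff_dvd' hn.2.le).2 hd
      · rintro ⟨h1, h2⟩ p hp hQ
        rw [QG_iff] at hQ
        rcases hQ with h | h
        · exact h1 p (mem_pz.1 hp).2 (mem_pz.1 hp).1 h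
        · exact h2 p (mem_pz.1 hp).2 (mem_pz.1 hp).1 ((Nat.modEq_iff_dvd' hn.2.le).1 h)
    unfold ro
    by_cases h1 : Ro y n
    · by_cases h2 : Ro y (m - n)
      · rw [if_pos h1, if_pos h2, if_pos (hiff.2 ⟨h1, h2⟩)]
        norm_num
      · rw [if_neg h2, if_neg (fun h => h2 (hiff.1 h).2)]
        simp
    · rw [if_neg h1, if_neg (fun h => h1 (hiff.1 h).1)]
      simp
  · intro n hn hn'
    rw [mem_Icc] at hn
    rw [mem_Ico] at hn'
    have hnm : n = m := by omega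
    subst hnm
    rw [if_neg]
    intro h
    apply h 2 (mem_pz.2 ⟨hy, Nat.prime_two⟩)
    rw [QG_iff]
    right
    rfl

open Classical in
lemma G_eP (m y : ℕ) (hm : 1 ≤ m) (hy : 2 ≤ y) :
    G eP (ro y) m = (((Icc 1 m).filter (fun n => n.Prime ∧ BQ (QS m {0}) y n)).card : ℝ) := by
  unfold G
  rw [card_eq_sum_ones, Nat.cast_sum, sum_filter]
  have hsub : Ico 1 m ⊆ Icc 1 m := by
    intro n hn
    rw [mem_Ico] at hn
    rw [mem_Icc]
    omega
  have hQ : ∀ p n : ℕ, QS m {0} p n ↔ n ≡ m [MOD p] := by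
    intro p n
    unfold QS
    simp
  rw [← sum_subset hsub]
  · refine sum_congr rfl fun n hn => ?_
    rw [mem_Ico] at hn
    have hiff : BQ (QS m {0}) y n ↔ Ro y (m - n) := by
      unfold BQ
      constructor
      · intro h p hp hpy hd
        apply h p (mem_pz.2 ⟨hpy, hp⟩)
        rw [hQ]
        exact (Nat.modEq_iff_dvd' hn.2.le).2 hd
      · intro h p hp hq
        rw [hQ] at hq
        exact h p (mem_pz.1 hp).2 (mem_pz.1 hp).1 ((Nat.modEq_iff_dvd' hn.2.le).1 hq)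
    unfold eP ro
    by_cases h1 : n.Prime
    · by_cases h2 : Ro y (m - n)
      · have h3 : n.Prime ∧ BQ (QS m {0}) y n := ⟨h1, hiff.2 h2⟩
        rw [if_pos h1, if_pos h2, if_pos h3]
        norm_num
      · have h3 : ¬ (n.Prime ∧ BQ (QS m {0}) y n) := fun h => h2 (hiff.1 h.2)
        rw [if_neg h2, if_neg h3]
        simp
    · have h3 : ¬ (n.Prime ∧ BQ (QS m {0}) y n) := fun h => h1 h.1
      rw [if_neg h1, if_neg h3]
      simp
  · intro n hn hn'
    rw [mem_Icc] at hn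
    rw [mem_Ico] at hn'
    have hnm : n = m := by omega
    subst hnm
    rw [if_neg]
    rintro ⟨_, h⟩
    apply h 2 (mem_pz.2 ⟨hy, Nat.prime_two⟩)
    rw [hQ]

/-- **two rough numbers** -/
theorem RR_main (κ : ℝ) (hκ : 0 < κ) (hκ1 : κ ≤ 1) (x : ℝ) (hx : 0 < x) (hx1 : x ≤ 1) : ∀ᶠ N : ℕ in atTop,
    ∀ m : ℕ, N < 2 * m → m ≤ N → Even m →
      |G (ro (yN κ N)) (ro (yN κ N)) m - m * (PT (insert m {0}) (yN κ N) * Vz (yN κ N) ^ 2)| ≤
        x * (m * (PT (insert m {0}) (yN κ N) * Vz (yN κ N) ^ 2)) := by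
  classical
  obtain ⟨c, hc, H0⟩ := all_F 2 (by norm_num)
  obtain ⟨K, hK, H0⟩ := H0 (x / 2) (by positivity)
  obtain ⟨X0, y0, H0⟩ := H0 0
  filter_upwards [yN_facts κ hκ hκ1 (y0 + 2) (K + 1), eventually_ge_atTop (2 * X0 + 4)] with N hyf hN m hm1 hm2 hme
  obtain ⟨y1, y2, y3, y4, y5⟩ := hyf
  obtain ⟨y, hy⟩ : ∃ y : ℕ, y = yN κ N := ⟨_, rfl⟩
  rw [← hy] at y4 y5 ⊢
  have hyK : y ^ K ≤ m := by
    have h1 : 2 * y ^ K ≤ y ^ (K + 1) := by
      rw [pow_succ, mul_comm]
      exact Nat.mul_le_mul_left _ (by omega)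
    omega
  obtain ⟨_, h2, _⟩ := H0 (QG m) (sv_QG hme) m y (by omega) (by omega) hyK
  rw [G_ro m y (by omega) (by omega)]
  have hprod : ∏ p ∈ pz y, (1 - (nuB (QG m) p : ℝ) / p) = PT (insert m {0}) y * Vz y ^ 2 := by
    unfold PT Vz
    rw [← prod_pow, ← prod_mul_distrib]
    refine prod_congr rfl fun p hp => ?_
    have hpp := (mem_pz.1 hp).2
    rw [nuB_QG m p hpp]
    unfold locT
    rw [card_H (by omega)]
    have hp2 : (2 : ℝ) ≤ p := by exact_mod_cast hpp.two_le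
    have h3 : 1 - 1 / (p : ℝ) ≠ 0 := by
      have : 1 / (p : ℝ) ≤ 1 / 2 := one_div_le_one_div_of_le (by norm_num) hp2
      linarith
    rw [div_mul_cancel₀ _ (pow_ne_zero 2 h3)]
  rw [hprod] at h2
  obtain ⟨R, hR⟩ : ∃ R : ℝ, R = ((RQ (QG m) m y).card : ℝ) := ⟨_, rfl⟩
  obtain ⟨M, hM⟩ : ∃ M : ℝ, M = m * (PT (insert m {0}) y * Vz y ^ 2) := ⟨_, rfl⟩
  rw [← hR, ← hM] at h2 ⊢
  obtain ⟨a1, a2⟩ := abs_le.1 h2
  have hR0 : 0 ≤ R := by rw [hR]; exact Nat.cast_nonneg _
  have hR2 : R ≤ 2 * M := by nlinarith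
  have hxR : x / 2 * R ≤ x / 2 * (2 * M) := mul_le_mul_of_nonneg_left hR2 (by positivity)
  rw [abs_le]
  constructor <;> linarith

/-- **a prime and a rough number** -/
theorem PR_main (κ : ℝ) (hκ : 0 < κ) (hκ1 : κ ≤ 1) (U : ℕ) (x : ℝ) (hx : 0 < x) (hx1 : x ≤ 1) : ∀ᶠ N : ℕ in atTop,
    ∀ m : ℕ, 1 ≤ m → m ≤ N →
      |G eP (ro (yN κ N)) m - m / Real.log N * (PT (insert m {0}) (yN κ N) * Vz (yN κ N))| ≤
        x * (m / Real.log N * (PT (insert m {0}) (yN κ N) * Vz (yN κ N))) + N / Real.log N ^ U := by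
  classical
  filter_upwards [prime_cnt2 κ hκ hκ1 2 U (by norm_num) x hx hx1, yN_facts κ hκ hκ1 3 1] with N hP hyf m hm1 hm2
  obtain ⟨y1, y2, y3, y4, y5⟩ := hyf
  have h1 := hP (QS m {0}) (perA_QS m {0} 2 (card_H hm1).le) m (by omega)
  rw [prod_QS 1 (card_H hm1), pow_one] at h1
  rw [G_eP m _ hm1 (by omega)]
  exact h1

end Pool.Agent.H528.Gp
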