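import Mathlib
import Pool.Agent.H528.GpB

/-! The parity law for Goldbach's problem: comparisons and the final computation. -/

set_option autoImplicit false

namespace Pool.Agent.H528.Gp

open Finset Filter Topology
open Pool.Agent.Y822 Pool.Agent.Y822.Par3
open Pool.Agent.H373R2.T7 (pz Vz mem_pz Vz_pos Vz_le_one)
open Pool.Agent.H387R2.Uni (nuT Adm locT CT)
open Pool.Agent.H528.Gam Pool.Agent.H528.UpLo Pool.Agent.H528.Lam Pool.Agent.H528.It
open Pool.Agent.H528.AsyL Pool.Agent.H528.Gen Pool.Agent.H528.PCnt Pool.Agent.H528.Tup Pool.Agent.H528.Mass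

/-- the part of the weight on the primes -/
noncomputable def wp (z n : ℕ) : ℝ := eP n * lw z n

/-- the part of the weight on the numbers which are not prime -/
noncomputable def wc (z n : ℕ) : ℝ := (1 - eP n) * lw z n

lemma G_split_left (z : ℕ) (v : ℕ → ℝ) (m : ℕ) : G (lw z) v m = G (wp z) v m + G (wc z) v m := by
  unfold G wp wc
  rw [← sum_add_distrib]
  exact sum_congr rfl fun n _ => by ring

lemma G_split_right (z : ℕ) (v : ℕ → ℝ) (m : ℕ) : G v (lw z) m = G v (wp z) m + G v (wc z) m := by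
  rw [G_comm, G_split_left, G_comm v, G_comm v]

lemma G_split (z m : ℕ) :
    G (lw z) (lw z) m = G (wp z) (wp z) m + 2 * G (wp z) (wc z) m + G (wc z) (wc z) m ∧
    G (wp z) (lw z) m = G (wp z) (wp z) m + G (wp z) (wc z) m := by
  have h1 := G_split_left z (lw z) m
  have h2 := G_split_right z (wp z) m
  have h3 := G_split_right z (wc z) m
  have h4 := G_comm (wc z) (wp z) m
  exact ⟨by linarith, h2⟩

lemma eP_01 (n : ℕ) : eP n = 0 ∨ eP n = 1 := by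
  unfold eP
  split_ifs
  · right; rfl
  · left; rfl

lemma wp_bd {z N n : ℕ} (hN : 2 ≤ N) (h1 : 1 ≤ n) (hn : n ≤ N) : 0 ≤ wp z n ∧ wp z n ≤ 4 * Real.log N ^ 2 := by
  obtain ⟨a, b⟩ := lw_bd (z := z) hN h1 (show n ≤ 2 * N by omega)
  unfold wp
  rcases eP_01 n with h | h <;> rw [h]
  · rw [zero_mul]; exact ⟨le_rfl, by positivity⟩
  · rw [one_mul]; exact ⟨a, b⟩

lemma wc_nonneg {z N n : ℕ} (hN : 2 ≤ N) (h1 : 1 ≤ n) (hn : n ≤ N) : 0 ≤ wc z n := by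
  obtain ⟨a, b⟩ := lw_bd (z := z) hN h1 (show n ≤ 2 * N by omega)
  unfold wc
  rcases eP_01 n with h | h <;> rw [h]
  · rw [sub_zero, one_mul]; exact a
  · rw [sub_self, zero_mul]

/-- comparing weights -/
lemma G_cmp {a b v : ℕ → ℝ} {m : ℕ} {t D K X : ℝ} (hD : 0 ≤ D) (hK : 0 ≤ K) (hX : 0 ≤ X)
    (hv : ∀ n ∈ Ico 1 m, 0 ≤ v n ∧ v n ≤ K)
    (hab : ∀ n ∈ Ico 1 m, |a n - b n| ≤ t * b n + D * (if (n : ℝ) ≤ X then (1 : ℝ) else 0)) :
    |G a v m - G b v m| ≤ t * G b v m + D * K * X := by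
  classical
  have hcnt : ∑ n ∈ Ico 1 m, (if (n : ℝ) ≤ X then (1 : ℝ) else 0) ≤ X := by
    rw [← sum_filter, sum_const, nsmul_eq_mul, mul_one]
    have h1 : (Ico 1 m).filter (fun n : ℕ => (n : ℝ) ≤ X) ⊆ Icc 1 ⌊X⌋₊ := by
      intro n hn
      rw [mem_filter, mem_Ico] at hn
      rw [mem_Icc]
      exact ⟨hn.1.1, Nat.le_floor hn.2⟩
    have h2 := card_le_card h1
    rw [Nat.card_Icc, Nat.add_sub_cancel] at h2
    have h3 : (((Ico 1 m).filter (fun n : ℕ => (n : ℝ) ≤ X)).card : ℝ) ≤ ⌊X⌋₊ := by exact_mod_cast h2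
    exact h3.trans (Nat.floor_le hX)
  have h5 : G a v m - G b v m = ∑ n ∈ Ico 1 m, (a n - b n) * v (m - n) := by
    unfold G
    rw [← sum_sub_distrib]
    exact sum_congr rfl fun n _ => by ring
  rw [h5]
  refine (abs_sum_le_sum_abs _ _).trans ?_
  have hpt : ∀ n ∈ Ico 1 m, |(a n - b n) * v (m - n)| ≤
      t * (b n * v (m - n)) + D * K * (if (n : ℝ) ≤ X then (1 : ℝ) else 0) := by
    intro n hn
    have hn' : m - n ∈ Ico 1 m := by
      rw [mem_Ico] at hn ⊢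
      omega
    obtain ⟨v0, v1⟩ := hv _ hn'
    rw [abs_mul, abs_of_nonneg v0]
    have i0 : (0 : ℝ) ≤ (if (n : ℝ) ≤ X then (1 : ℝ) else 0) := by split_ifs <;> norm_num
    calc |a n - b n| * v (m - n) ≤ (t * b n + D * (if (n : ℝ) ≤ X then (1 : ℝ) else 0)) * v (m - n) :=
          mul_le_mul_of_nonneg_right (hab n hn) v0
      _ = t * (b n * v (m - n)) + D * (if (n : ℝ) ≤ X then (1 : ℝ) else 0) * v (m - n) := by ring
      _ ≤ t * (b n * v (m - n)) + D * (if (n : ℝ) ≤ X then (1 : ℝ) else 0) * K := by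
          have := mul_le_mul_of_nonneg_left v1 (mul_nonneg hD i0)
          linarith
      _ = _ := by ring
  refine (sum_le_sum hpt).trans ?_
  rw [sum_add_distrib, ← mul_sum, ← mul_sum]
  have h6 := mul_le_mul_of_nonneg_left hcnt (mul_nonneg hD hK)
  unfold G
  linarith

/-- the weight at the primes -/
lemma wp_pt {z N c n : ℕ} {θ L : ℝ} (hN : 2 ≤ N) (hL : L = Real.log N)
    (hL1 : 1 ≤ L) (hθ0 : 0 < θ) (hθ : θ ≤ 1 / 8) (hc : c * Real.log L ≤ θ * L)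
    (hz : (z : ℝ) ≤ N / L ^ c) (h1 : 1 ≤ n) (hn : n ≤ N) :
    |wp z n - L ^ 2 * eP n| ≤ 3 * θ * (L ^ 2 * eP n) + 4 * L ^ 2 * (if (n : ℝ) ≤ N / L ^ c then (1 : ℝ) else 0) := by
  have hN0 : (0 : ℝ) < N := by exact_mod_cast (by omega : 0 < N)
  have hL0 : 0 < L := by linarith
  obtain ⟨w0, w1⟩ := lw_bd (z := z) hN h1 (show n ≤ 2 * N by omega)
  rw [← hL] at w1
  unfold wp
  by_cases hp : n.Prime
  · have he : eP n = 1 := by unfold eP; rw [if_pos hp]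
    rw [he, one_mul, mul_one]
    have hup : Real.log (n : ℝ) ≤ L := by
      rw [hL]
      exact Real.log_le_log (by exact_mod_cast h1) (by exact_mod_cast hn)
    split_ifs with hnb
    · rw [mul_one]
      have g1 : 0 ≤ 3 * θ * L ^ 2 := by positivity
      have g2 : 0 ≤ L ^ 2 := sq_nonneg L
      rw [abs_le]
      constructor <;> linarith
    · rw [mul_zero, add_zero]
      push Not at hnb
      have hzp : z < n := by
        have : (z : ℝ) < n := lt_of_le_of_lt hz hnb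
        exact_mod_cast this
      rw [lw_prime hp hzp]
      have hlo : (1 - θ) * L ≤ Real.log (n : ℝ) := by
        have h3 : Real.log ((N : ℝ) / L ^ c) ≤ Real.log (n : ℝ) := Real.log_le_log (by positivity) hnb.le
        rw [Real.log_div hN0.ne' (by positivity), Real.log_pow, ← hL] at h3
        linarith
      have s1 : Real.log (n : ℝ) ^ 2 ≤ L ^ 2 := pow_le_pow_left₀ (log_nn _) hup 2
      have s2 : ((1 - θ) * L) ^ 2 ≤ Real.log (n : ℝ) ^ 2 := pow_le_pow_left₀ (mul_nonneg (by linarith) hL0.le) hlo 2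
      have s3 : 0 ≤ L ^ 2 := sq_nonneg _
      have s5 : ((1 - θ) * L) ^ 2 = L ^ 2 - (2 * θ - θ ^ 2) * L ^ 2 := by ring
      have s7 : (2 * θ - θ ^ 2) * L ^ 2 ≤ 3 * θ * L ^ 2 := by
        apply mul_le_mul_of_nonneg_right _ s3
        nlinarith
      have s8 : 0 ≤ 3 * θ * L ^ 2 := by positivity
      rw [abs_le]
      constructor <;> linarith
  · have he : eP n = 0 := by unfold eP; rw [if_neg hp]
    rw [he]
    simp only [zero_mul, mul_zero, sub_zero, abs_zero, zero_add]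
    split_ifs <;> positivity

lemma G_smul (c : ℝ) (u v : ℕ → ℝ) (m : ℕ) : G (fun n => c * u n) v m = c * G u v m := by
  unfold G
  rw [mul_sum]
  exact sum_congr rfl fun n _ => by ring

/-- both comparisons -/
lemma both_cmp {z N m c : ℕ} {θ L : ℝ} (hN : 2 ≤ N) (hL : L = Real.log N)
    (hL1 : 1 ≤ L) (hθ0 : 0 < θ) (hθ : θ ≤ 1 / 8) (hc : c * Real.log L ≤ θ * L)
    (hz : (z : ℝ) ≤ N / L ^ c) (hm : m ≤ N) :
    |G (wp z) (lw z) m - L ^ 2 * G eP (lw z) m| ≤ 3 * θ * (L ^ 2 * G eP (lw z) m) + 16 * L ^ 4 * (N / L ^ c) ∧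
    |G (wp z) (wp z) m - L ^ 4 * G eP eP m| ≤ 8 * θ * (L ^ 4 * G eP eP m) + 22 * L ^ 4 * (N / L ^ c) := by
  have hN0 : (0 : ℝ) < N := by exact_mod_cast (by omega : 0 < N)
  have hL0 : 0 < L := by linarith
  obtain ⟨X, hX⟩ : ∃ X : ℝ, X = N / L ^ c := ⟨_, rfl⟩
  have hX0 : 0 ≤ X := by rw [hX]; positivity
  have hab : ∀ n ∈ Ico 1 m, |wp z n - L ^ 2 * eP n| ≤
      3 * θ * (L ^ 2 * eP n) + 4 * L ^ 2 * (if (n : ℝ) ≤ X then (1 : ℝ) else 0) := by
    intro n hn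
    rw [mem_Ico] at hn
    rw [hX]
    exact wp_pt hN hL hL1 hθ0 hθ hc hz hn.1 (by omega)
  have h1 := G_cmp (a := wp z) (b := fun n => L ^ 2 * eP n) (v := lw z) (m := m) (t := 3 * θ) (D := 4 * L ^ 2)
    (K := 4 * L ^ 2) (X := X) (by positivity) (by positivity) hX0 (fun n hn => by
      rw [mem_Ico] at hn
      have := lw_bd (z := z) hN hn.1 (show n ≤ 2 * N by omega)
      rwa [← hL] at this) hab
  have h2 := G_cmp (a := wp z) (b := fun n => L ^ 2 * eP n) (v := wp z) (m := m) (t := 3 * θ) (D := 4 * L ^ 2)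
    (K := 4 * L ^ 2) (X := X) (by positivity) (by positivity) hX0 (fun n hn => by
      rw [mem_Ico] at hn
      have := wp_bd (z := z) hN hn.1 (show n ≤ N by omega)
      rwa [← hL] at this) hab
  have h3 := G_cmp (a := wp z) (b := fun n => L ^ 2 * eP n) (v := eP) (m := m) (t := 3 * θ) (D := 4 * L ^ 2)
    (K := 1) (X := X) (by positivity) (by positivity) hX0 (fun n hn => eP_bd n) hab
  rw [G_smul] at h1 h2 h3
  rw [G_comm eP (wp z)] at h2
  rw [← hX]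
  have e1 : 4 * L ^ 2 * (4 * L ^ 2) * X = 16 * L ^ 4 * X := by ring
  rw [e1] at h1 h2
  refine ⟨h1, ?_⟩
  obtain ⟨g, hg⟩ : ∃ g : ℝ, g = G eP eP m := ⟨_, rfl⟩
  obtain ⟨q, hq⟩ : ∃ q : ℝ, q = G (wp z) eP m := ⟨_, rfl⟩
  obtain ⟨r, hr⟩ : ∃ r : ℝ, r = G (wp z) (wp z) m := ⟨_, rfl⟩
  rw [← hq, ← hr] at h2
  rw [← hq, ← hg] at h3
  rw [← hg, ← hr]
  have hg0 : 0 ≤ g := by rw [hg]; exact G_nonneg (fun n _ => (eP_bd n).1) fun n _ => (eP_bd n).1
  have h4 : |L ^ 2 * q - L ^ 4 * g| ≤ 3 * θ * (L ^ 4 * g) + 4 * L ^ 4 * X := by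
    have e2 : L ^ 2 * q - L ^ 4 * g = L ^ 2 * (q - L ^ 2 * g) := by ring
    rw [e2, abs_mul, abs_of_nonneg (sq_nonneg L)]
    calc L ^ 2 * |q - L ^ 2 * g| ≤ L ^ 2 * (3 * θ * (L ^ 2 * g) + 4 * L ^ 2 * 1 * X) :=
          mul_le_mul_of_nonneg_left h3 (sq_nonneg L)
      _ = _ := by ring
  obtain ⟨a1, a2⟩ := abs_le.1 h2
  obtain ⟨b1, b2⟩ := abs_le.1 h4
  obtain ⟨Y, hY⟩ : ∃ Y : ℝ, Y = L ^ 4 * g := ⟨_, rfl⟩
  obtain ⟨Z, hZ⟩ : ∃ Z : ℝ, Z = L ^ 4 * X := ⟨_, rfl⟩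
  have hY0 : 0 ≤ Y := by rw [hY]; positivity
  have hZ0 : 0 ≤ Z := by rw [hZ]; positivity
  have e5 : 16 * L ^ 4 * X = 16 * Z := by rw [hZ]; ring
  have e6 : 22 * L ^ 4 * X = 22 * Z := by rw [hZ]; ring
  have e7 : 4 * L ^ 4 * X = 4 * Z := by rw [hZ]; ring
  rw [e5] at a1 a2
  rw [e7, ← hY] at b1 b2
  rw [e6, ← hY]
  have f1 : 3 * θ * (L ^ 2 * q) ≤ 3 * θ * (Y + (3 * θ * Y + 4 * Z)) :=
    mul_le_mul_of_nonneg_left (by linarith) (by positivity)
  have f2 : θ * θ * Y ≤ 1 / 8 * θ * Y := by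
    have : θ * θ ≤ 1 / 8 * θ := by nlinarith
    exact mul_le_mul_of_nonneg_right this hY0
  have f3 : θ * Z ≤ 1 / 8 * Z := mul_le_mul_of_nonneg_right hθ hZ0
  have f4 : 0 ≤ θ * Y := by positivity
  have f5 : 3 * θ * (Y + (3 * θ * Y + 4 * Z)) = 3 * (θ * Y) + 9 * (θ * θ * Y) + 12 * (θ * Z) := by ring
  rw [abs_le]
  constructor <;> nlinarith

/-- the final computation -/
lemma fin_gp {x S n T Pm pp pe ee c : ℝ} (hx : 0 < x) (hx8 : x ≤ 1 / 64) (hS : 0 < S) (hn : 22 * n ≤ x * S)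
    (hc0 : 0 ≤ c) (h1 : |T - 4 * S| ≤ x * S) (h2 : |Pm - 2 * S| ≤ x * S)
    (e1 : T = pp + 2 * pe + ee) (e2 : Pm = pp + pe) (hpe : 0 ≤ pe)
    (h4 : |pp - c| ≤ 8 * x * c + 22 * n) :
    |ee - c| ≤ 40 * x * S ∧ |pp - c| ≤ 40 * x * S ∧ |pe - (2 * S - c)| ≤ 40 * x * S := by
  obtain ⟨a1, a2⟩ := abs_le.1 h1
  obtain ⟨b1, b2⟩ := abs_le.1 h2
  obtain ⟨d1, d2⟩ := abs_le.1 h4
  have hxS : 0 < x * S := by positivity
  have f1 : pp ≤ 2 * S + x * S := by linarith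
  have f2 : c ≤ 4 * S := by nlinarith
  have f3 : 8 * x * c ≤ 8 * x * (4 * S) := mul_le_mul_of_nonneg_left f2 (by positivity)
  refine ⟨?_, ?_, ?_⟩ <;> rw [abs_le] <;> constructor <;> nlinarith

end Pool.Agent.H528.Gp
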