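import Mathlib
import Pool.Agent.H528.GpC

/-! The parity law for Goldbach's problem. -/

set_option autoImplicit false

namespace Pool.Agent.H528.Gp

open Finset Filter Topology
open Pool.Agent.Y822 Pool.Agent.Y822.Par3
open Pool.Agent.H373R2.T7 (pz Vz mem_pz Vz_pos Vz_le_one)
open Pool.Agent.H387R2.Uni (nuT Adm locT CT)
open Pool.Agent.H528.Gam Pool.Agent.H528.UpLo Pool.Agent.H528.Lam Pool.Agent.H528.It
open Pool.Agent.H528.AsyL Pool.Agent.H528.Gen Pool.Agent.H528.PCnt Pool.Agent.H528.Tup Pool.Agent.H528.Mass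

/-- the claim for one target -/
def Good (ε : ℝ) (z m : ℕ) (S L : ℝ) : Prop :=
  |G (lw z) (lw z) m - 4 * S| ≤ ε * S ∧ |G (wp z) (lw z) m - 2 * S| ≤ ε * S ∧
  |G (wc z) (wc z) m - L ^ 4 * G eP eP m| ≤ ε * S ∧ |G (wp z) (wp z) m - L ^ 4 * G eP eP m| ≤ ε * S ∧
  |G (wp z) (wc z) m - (2 * S - L ^ 4 * G eP eP m)| ≤ ε * S

open Classical in
/-- **the parity law for Goldbach's problem** -/
theorem gp_law (ε : ℝ) (hε : 0 < ε) : ∃ δ : ℝ, 1 / 2 ≤ δ ∧ δ < 1 ∧
    ∃ ξ : ℝ, 0 < ξ ∧ ξ ≤ 1 / 8 ∧ ξ ≤ ε ∧ ∃ B : ℕ, ∀ᶠ N : ℕ in atTop, ∀ Bad : Finset ℕ,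
    (∀ m ∈ Bad, N < 2 * m ∧ m ≤ N ∧ Even m ∧
      ¬ Good ε (zN ξ N) m (CT (insert m {0}) * (m * Real.log N ^ 2)) (Real.log N)) →
    (Bad.card : ℝ) ≤ 3 * ((N : ℝ) ^ δ * Real.log N ^ B) := by
  obtain ⟨x1, hx1⟩ : ∃ x : ℝ, x = min (ε / 40) (1 / 64) := ⟨_, rfl⟩
  have hx10 : 0 < x1 := by rw [hx1]; positivity
  have hx18 : x1 ≤ 1 / 64 := by rw [hx1]; exact min_le_right _ _
  have hx1ε : 40 * x1 ≤ ε := by
    have : x1 ≤ ε / 40 := by rw [hx1]; exact min_le_left _ _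
    linarith
  obtain ⟨η, hη⟩ : ∃ η : ℝ, η = x1 / 16 := ⟨_, rfl⟩
  have hη0 : 0 < η := by rw [hη]; positivity
  have hη1 : η ≤ 1 := by linarith
  obtain ⟨x, hx, hx8, hxη, hxx⟩ := ex_small7 2 η hη0
  have hxx1 : x ≤ x1 := by linarith
  obtain ⟨δ, hδ1, hδ2, ξ, hξ, hξ8, hξx, κ, hκ, hκ1, B, HP⟩ := gstep 1 x hx
  obtain ⟨x6, hx6⟩ : ∃ x6 : ℝ, x6 = x / 6 := ⟨_, rfl⟩
  have hx60 : 0 < x6 := by rw [hx6]; positivity
  have hx61 : x6 ≤ 1 := by linarith
  obtain ⟨cz, hcz, hV⟩ := Vz_sharp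
  obtain ⟨c0, hc0, hlow⟩ := PT_low 1
  obtain ⟨Ck, hCk⟩ : ∃ Ck : ℝ, Ck = (2 / cz) ^ 1 / (x6 * c0) + (2 / cz) ^ 2 / (x6 * c0) +
    (4 / cz + 4) / (x * c0) + 16 / (x * c0) := ⟨_, rfl⟩
  refine ⟨δ, hδ1, hδ2, ξ, hξ, hξ8, by linarith, B, ?_⟩
  have e1 := ev_logN (eventually_ge_atTop (max 2 Ck))
  have e2 : ∀ᶠ N : ℕ in atTop, ((4 : ℕ) : ℝ) * Real.log (Real.log N) ≤ x * Real.log N := by
    apply ev_logN (P := fun L => ((4 : ℕ) : ℝ) * Real.log L ≤ x * L)
    have h1 := (Real.isLittleO_log_id_atTop).def (c := x / 4) (by positivity)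
    filter_upwards [h1, eventually_ge_atTop 1] with L hL hL1
    rw [Real.norm_of_nonneg (Real.log_nonneg hL1), Real.norm_of_nonneg (show 0 ≤ id L by simpa using by linarith)] at hL
    simp only [id] at hL
    rw [div_mul_eq_mul_div, le_div_iff₀ (by positivity)] at hL
    push_cast
    linarith
  filter_upwards [HP, RR_main κ hκ hκ1 x6 hx60 hx61, PR_main κ hκ hκ1 5 x6 hx60 hx61, PT_CT 1 κ hκ hκ1 x6 hx60 hx61,
    yN_facts κ hκ hκ1 3 1, e1, e2, eventually_ge_atTop 3] with N hP hRR hPR hPT hyf f1 f2 hN Bad hBad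
  obtain ⟨y1, y2, y3, y4, y5⟩ := hyf
  obtain ⟨L, hL⟩ : ∃ L : ℝ, L = Real.log N := ⟨_, rfl⟩
  have hbd := fun (z m : ℕ) (h1 : 1 ≤ m) (hm : m ≤ 2 * N) => lw_bd (z := z) (show 2 ≤ N by omega) h1 hm
  rw [← hL] at f1 f2 hP hPR
  simp only [← hL] at hbd hBad ⊢
  have hL2 : 2 ≤ L := (le_max_left _ _).trans f1
  have hL1 : 1 ≤ L := by linarith
  have hL0 : 0 < L := by linarith
  have hLc : Ck ≤ L := (le_max_right _ _).trans f1
  have k1 : (0 : ℝ) ≤ (2 / cz) ^ 1 / (x6 * c0) := by positivity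
  have k2 : (0 : ℝ) ≤ (2 / cz) ^ 2 / (x6 * c0) := by positivity
  have k3 : (0 : ℝ) ≤ (4 / cz + 4) / (x * c0) := by positivity
  have k4 : (0 : ℝ) ≤ 16 / (x * c0) := by positivity
  have hk1 : (2 / cz) ^ 1 / (x6 * c0) ≤ L := by linarith
  have hk2 : (2 / cz) ^ 2 / (x6 * c0) ≤ L := by linarith
  have hk3 : (4 / cz + 4) / (x * c0) ≤ L := by linarith
  have hk4 : 16 / (x * c0) ≤ L := by linarith
  rw [div_le_iff₀ (by positivity)] at hk3 hk4
  have hN0 : (0 : ℝ) < N := by exact_mod_cast (by omega : 0 < N)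
  have hN2 : 2 ≤ N := by omega
  obtain ⟨z, hz⟩ : ∃ z : ℕ, z = zN ξ N := ⟨_, rfl⟩
  obtain ⟨y, hy⟩ : ∃ y : ℕ, y = yN κ N := ⟨_, rfl⟩
  rw [← hz] at hBad
  rw [← hz, ← hy] at hP
  simp only [← hy] at hRR hPR hPT
  rw [← hy] at y4 y5
  have hzc : (z : ℝ) ≤ N / L ^ 4 := by
    have h1 : (z : ℝ) < (N : ℝ) ^ ξ := by rw [hz]; exact zN_lt (by omega)
    have h2 : (N : ℝ) ^ ξ = Real.exp (ξ * L) := by
      rw [Real.rpow_def_of_pos hN0, ← hL, mul_comm]
    have h3 : Real.exp (Real.log ((N : ℝ) / L ^ 4)) = N / L ^ 4 :=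
      Real.exp_log (by positivity)
    rw [← h3]
    refine h1.le.trans ?_
    rw [h2]
    apply Real.exp_le_exp.2
    rw [Real.log_div hN0.ne' (by positivity), Real.log_pow, ← hL]
    nlinarith
  have hVy : 0 < Vz y := Vz_pos y
  obtain ⟨W, hW⟩ : ∃ W : ℝ, W = 2 * L / Vz y := ⟨_, rfl⟩
  rw [← hW] at hP
  have hW0 : 0 < W := by rw [hW]; positivity
  have hyN : y ≤ N := by rw [pow_one] at y4; exact y4
  have hVlow : cz / L ≤ Vz y := by
    refine le_trans ?_ (hV _ y5)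
    apply div_le_div_of_nonneg_left hcz.le
    · exact Real.log_pos (by exact_mod_cast (by omega : 1 < y))
    · rw [hL]
      exact Real.log_le_log (by exact_mod_cast (by omega : 0 < y)) (by exact_mod_cast hyN)
  have hWu : W ≤ 2 / cz * L ^ 2 := by
    rw [hW, div_le_iff₀ hVy]
    have h1 : 2 / cz * L ^ 2 * (cz / L) ≤ 2 / cz * L ^ 2 * Vz y := mul_le_mul_of_nonneg_left hVlow (by positivity)
    have h2 : 2 / cz * L ^ 2 * (cz / L) = 2 * L := by field_simp
    linarith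
  -- the three steps
  set u1 : ℕ → ℝ := ro y with hu1
  set u2 : ℕ → ℝ := fun n => if 1 ≤ n ∧ n ≤ N then lw z n / (4 * L ^ 2) else 0 with hu2
  set u3 : ℕ → ℝ := eP with hu3
  have hu1b : ∀ n, 0 ≤ u1 n ∧ u1 n ≤ 1 := fun n => ⟨ro_nonneg _ _, ro_le_one _ _⟩
  have hu3b : ∀ n, 0 ≤ u3 n ∧ u3 n ≤ 1 := fun n => eP_bd n
  have hu2b : ∀ n, 0 ≤ u2 n ∧ u2 n ≤ 1 := by
    intro n
    rw [hu2]
    dsimp only
    split_ifs with h
    · obtain ⟨a, b⟩ := hbd z n h.1 (by omega)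
      refine ⟨by positivity, ?_⟩
      rw [div_le_one (by positivity)]
      exact b
    · exact ⟨le_rfl, zero_le_one⟩
  obtain ⟨E, hE⟩ : ∃ E : ℝ, E = N / L ^ 1 := ⟨_, rfl⟩
  have hE0 : 0 ≤ E := by rw [hE]; positivity
  rw [← hE] at hP
  have hsub : ∀ u : ℕ → ℝ, (∀ n, 0 ≤ u n ∧ u n ≤ 1) →
      (((Bad.filter (fun m => ¬ (|G u (lw z) m - W * G u (ro y) m| ≤ x * (W * G u (ro y) m) + E))).card : ℕ) : ℝ) ≤
        (N : ℝ) ^ δ * L ^ B := by
    intro u hu
    apply hP u hu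
    intro m hm
    rw [mem_filter, not_le] at hm
    obtain ⟨b1, b2, b3, b4⟩ := hBad m hm.1
    exact ⟨⟨by omega, b2⟩, hm.2⟩
  have hcov : Bad ⊆ (Bad.filter (fun m => ¬ (|G u1 (lw z) m - W * G u1 (ro y) m| ≤ x * (W * G u1 (ro y) m) + E))) ∪
      ((Bad.filter (fun m => ¬ (|G u2 (lw z) m - W * G u2 (ro y) m| ≤ x * (W * G u2 (ro y) m) + E))) ∪
      (Bad.filter (fun m => ¬ (|G u3 (lw z) m - W * G u3 (ro y) m| ≤ x * (W * G u3 (ro y) m) + E)))) := by
    intro m hm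
    by_contra hcon
    rw [mem_union, mem_union, mem_filter, mem_filter, mem_filter] at hcon
    push Not at hcon
    obtain ⟨g1, g2, g3⟩ := hcon
    obtain ⟨b1, b2, b3, b4⟩ := hBad m hm
    have g1 := g1 hm
    have g2 := g2 hm
    have g3 := g3 hm
    apply b4
    have hm1 : 1 ≤ m := by omega
    have hmN : (N : ℝ) ≤ 2 * m := by exact_mod_cast b1.le
    have hm0 : (0 : ℝ) < m := by exact_mod_cast hm1
    have hu2e : ∀ v : ℕ → ℝ, G u2 v m = G (lw z) v m / (4 * L ^ 2) := by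
      intro v
      unfold G
      rw [sum_div]
      refine sum_congr rfl fun n hn => ?_
      rw [mem_Ico] at hn
      rw [hu2]
      dsimp only
      rw [if_pos ⟨hn.1, by omega⟩]
      ring
    rw [hu2e, hu2e, G_comm (lw z) (ro y)] at g2
    rw [hu1] at g1
    rw [hu3] at g3
    obtain ⟨H, hH⟩ : ∃ H : Finset ℕ, H = insert m {0} := ⟨_, rfl⟩
    have hRRm := hRR m b1 b2 b3
    have hPRm := hPR m hm1 b2
    obtain ⟨p1, p2⟩ := hPT (insert m {0}) (card_H hm1) (by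
      intro h hh
      rw [mem_insert, mem_singleton] at hh
      rcases hh with rfl | rfl
      · exact b2
      · exact Nat.zero_le _)
    obtain ⟨l1, l2⟩ := hlow (insert m {0}) (card_H hm1) (adm_H b3)
    rw [← hH] at hRRm hPRm p1 p2 l1 l2 ⊢
    have hCT : 0 < CT H := by linarith
    obtain ⟨S, hS⟩ : ∃ S : ℝ, S = CT H * (m * L ^ 2) := ⟨_, rfl⟩
    have hS0 : 0 < S := by rw [hS]; positivity
    rw [← hS]
    have hcS : c0 * (m * L ^ 2) ≤ S := by
      rw [hS]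
      exact mul_le_mul_of_nonneg_right l2 (by positivity)
    -- the total mass
    have hm5 : (m : ℝ) * (PT H y * Vz y ^ 2) = m * (PT H y * Vz y ^ 2) := rfl
    have hR2 := mass_calc (m := 2) (x := x6) (L := L) (V := Vz y) (n := m) (P := PT H y) (C := CT H) (c0 := c0) (cz := cz)
      (R := G (ro y) (ro y) m) hx60 hx61 hL1 hVy hm0 hcz hc0 hVlow (PT_nonneg _ _) l2 p1 p2 hk2
      (hRRm.trans (le_add_of_nonneg_right (by positivity)))
    rw [← hW] at hR2
    have e3 : (2 : ℝ) ^ 2 * CT H * (m * L ^ 2) = 4 * S := by rw [hS]; ring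
    rw [e3] at hR2
    have hx66 : 6 * x6 = x := by rw [hx6]; ring
    rw [hx66] at hR2
    obtain ⟨T, hT⟩ : ∃ T : ℝ, T = G (lw z) (lw z) m := ⟨_, rfl⟩
    obtain ⟨Q, hQ⟩ : ∃ Q : ℝ, Q = G (ro y) (lw z) m := ⟨_, rfl⟩
    obtain ⟨R, hR⟩ : ∃ R : ℝ, R = G (ro y) (ro y) m := ⟨_, rfl⟩
    rw [← hQ, ← hR] at g1
    rw [← hT, ← hQ] at g2
    rw [← hR] at hR2
    have hR0 : 0 ≤ R := by rw [hR]; exact G_nonneg (fun n _ => ro_nonneg _ _) fun n _ => ro_nonneg _ _
    have h4L : 0 < 4 * L ^ 2 := by positivity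
    have g2' : |T - W * Q| ≤ x * (W * Q) + 4 * L ^ 2 * E := by
      have e4 : T - W * Q = (4 * L ^ 2) * (T / (4 * L ^ 2) - W * (Q / (4 * L ^ 2))) := by
        field_simp
      rw [e4, abs_mul, abs_of_pos h4L]
      calc 4 * L ^ 2 * |T / (4 * L ^ 2) - W * (Q / (4 * L ^ 2))| ≤ 4 * L ^ 2 * (x * (W * (Q / (4 * L ^ 2))) + E) :=
            mul_le_mul_of_nonneg_left g2 h4L.le
        _ = _ := by field_simp
    obtain ⟨a1, a2⟩ := abs_le.1 g1
    obtain ⟨a3, a4⟩ := abs_le.1 g2'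
    obtain ⟨Er, hEr⟩ : ∃ Er : ℝ, Er = 2 * W * E + 4 * L ^ 2 * E := ⟨_, rfl⟩
    have hWE : 0 ≤ W * E := by positivity
    have hT1 : T ≤ ((1 + x) * W) ^ 2 * R + Er := by
      have s1 : (1 + x) * W * Q ≤ (1 + x) * W * ((1 + x) * W * R + E) :=
        mul_le_mul_of_nonneg_left (by linarith) (by positivity)
      have s2 : (1 + x) * (W * E) ≤ 2 * (W * E) := mul_le_mul_of_nonneg_right (by linarith) hWE
      have e5 : (1 + x) * W * ((1 + x) * W * R + E) = ((1 + x) * W) ^ 2 * R + (1 + x) * (W * E) := by ring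
      rw [hEr]
      linarith
    have hT2 : ((1 - x) * W) ^ 2 * R - Er ≤ T := by
      have h1x : 0 ≤ 1 - x := by linarith
      have s1 : (1 - x) * W * ((1 - x) * W * R - E) ≤ (1 - x) * W * Q :=
        mul_le_mul_of_nonneg_left (by linarith) (by positivity)
      have s2 : (1 - x) * (W * E) ≤ 2 * (W * E) := mul_le_mul_of_nonneg_right (by linarith) hWE
      have e5 : (1 - x) * W * ((1 - x) * W * R - E) = ((1 - x) * W) ^ 2 * R - (1 - x) * (W * E) := by ring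
      rw [hEr]
      linarith
    have hEr2 : Er ≤ x * (4 * S) := by
      have s1 : Er ≤ (4 / cz + 4) * (L ^ 2 * E) := by
        have : 2 * W * E ≤ 2 * (2 / cz * L ^ 2) * E := by gcongr
        rw [hEr]
        have e6 : (4 / cz + 4) * (L ^ 2 * E) = 2 * (2 / cz * L ^ 2) * E + 4 * L ^ 2 * E := by ring
        linarith
      have s2 : L ^ 2 * E ≤ 2 * (m * L) := by
        have e7 : L ^ 2 * E = N * L := by rw [hE, pow_one]; field_simp
        rw [e7]
        calc (N : ℝ) * L ≤ 2 * m * L := mul_le_mul_of_nonneg_right hmN hL0.le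
          _ = _ := by ring
      calc Er ≤ (4 / cz + 4) * (L ^ 2 * E) := s1
        _ ≤ (4 / cz + 4) * (2 * (m * L)) := mul_le_mul_of_nonneg_left s2 (by positivity)
        _ ≤ (L * (x * c0)) * (2 * (m * L)) := mul_le_mul_of_nonneg_right hk3 (by positivity)
        _ = 2 * x * (c0 * (m * L ^ 2)) := by ring
        _ ≤ 2 * x * S := mul_le_mul_of_nonneg_left hcS (by positivity)
        _ ≤ x * (4 * S) := by
            have : 0 ≤ x * S := by positivity
            linarith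
    obtain ⟨q1, q2⟩ := hxx 2 le_rfl
    have hTM : |T - 4 * S| ≤ η * (4 * S) := fin_it hx.le hx8 (by positivity) q1 q2 hT1 hT2 hR2 hEr2
    -- the mass on the primes
    obtain ⟨A, hA⟩ : ∃ A : ℝ, A = G eP (lw z) m := ⟨_, rfl⟩
    obtain ⟨A0, hA0⟩ : ∃ A0 : ℝ, A0 = G eP (ro y) m := ⟨_, rfl⟩
    rw [← hA, ← hA0] at g3
    rw [← hA0] at hPRm
    have hmL0 : 0 < (m : ℝ) / L := by positivity
    have hPR2 := mass_calc (m := 1) (x := x6) (L := L) (V := Vz y) (n := m / L) (P := PT H y) (C := CT H) (c0 := c0)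
      (cz := cz) (R := A0) hx60 hx61 hL1 hVy hmL0 hcz hc0 hVlow (PT_nonneg _ _) l2 p1 p2 hk1 (by
        rw [pow_one]
        refine hPRm.trans ?_
        have s1 : (N : ℝ) / L ^ 5 ≤ m / L / L ^ (2 * 1 + 1) := by
          have e8 : (m : ℝ) / L / L ^ (2 * 1 + 1) = m * L / L ^ 5 := by
            rw [show 2 * 1 + 1 = 3 by norm_num]
            field_simp
          rw [e8]
          apply div_le_div_of_nonneg_right _ (by positivity)
          calc (N : ℝ) ≤ 2 * m := hmN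
            _ = m * 2 := by ring
            _ ≤ m * L := mul_le_mul_of_nonneg_left hL2 hm0.le
        linarith)
    rw [← hW, hx66, pow_one, pow_one, pow_one] at hPR2
    have e9 : 2 * CT H * (m / L * L) = 2 * CT H * m := by field_simp
    rw [e9] at hPR2
    have hA00 : 0 ≤ A0 := by rw [hA0]; exact G_nonneg (fun n _ => (eP_bd n).1) fun n _ => ro_nonneg _ _
    have hE2 : E ≤ x * (2 * CT H * m) := by
      have s1 : E * L ≤ x * (2 * CT H * m) * L := by
        have e7 : E * L = N := by rw [hE, pow_one]; field_simp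
        rw [e7]
        have s2 : 1 ≤ L * (x * c0) := by linarith
        calc (N : ℝ) ≤ 2 * m := hmN
          _ = 1 * (2 * m) := by ring
          _ ≤ L * (x * c0) * (2 * m) := mul_le_mul_of_nonneg_right s2 (by positivity)
          _ = x * (2 * c0 * m) * L := by ring
          _ ≤ x * (2 * CT H * m) * L := by gcongr
      exact le_of_mul_le_mul_right s1 hL0
    obtain ⟨a5, a6⟩ := abs_le.1 g3
    obtain ⟨q3, q4⟩ := hxx 1 (by norm_num)
    have hAM : |A - 2 * CT H * m| ≤ η * (2 * CT H * m) := by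
      refine fin_it (j := 1) (W := W) (M0 := A0) (Er := E) hx.le hx8 (by positivity) q3 q4 ?_ ?_ ?_ hE2
      · rw [pow_one]
        linarith
      · rw [pow_one]
        linarith
      · rw [pow_one]
        exact hPR2
    have hAM2 : |L ^ 2 * A - 2 * S| ≤ η * (2 * S) := by
      have e10 : L ^ 2 * A - 2 * S = L ^ 2 * (A - 2 * CT H * m) := by rw [hS]; ring
      rw [e10, abs_mul, abs_of_nonneg (sq_nonneg L)]
      calc L ^ 2 * |A - 2 * CT H * m| ≤ L ^ 2 * (η * (2 * CT H * m)) := mul_le_mul_of_nonneg_left hAM (sq_nonneg L)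
        _ = _ := by rw [hS]; ring
    obtain ⟨c1, c2⟩ := both_cmp (z := z) (m := m) (c := 4) hN2 hL hL1 hx hx8 f2 hzc b2
    have e11 : 16 * L ^ 4 * ((N : ℝ) / L ^ 4) = 16 * N := by field_simp
    have e12 : 22 * L ^ 4 * ((N : ℝ) / L ^ 4) = 22 * N := by field_simp
    rw [e11, ← hA] at c1
    rw [e12] at c2
    have hNS : 22 * (N : ℝ) ≤ x * (2 * S) * 2 := by
      have s1 : 16 * (N : ℝ) ≤ L * (x * c0) * (2 * m) := mul_le_mul hk4 hmN hN0.le (by positivity)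
      have s2 : L * (x * c0) * (2 * m) * 2 ≤ 2 * x * S := by
        have s3 : (L * (x * c0) * (2 * m)) * 2 ≤ (L * (x * c0) * (2 * m)) * L :=
          mul_le_mul_of_nonneg_left hL2 (by positivity)
        have s4 : (L * (x * c0) * (2 * m)) * L = 2 * x * (c0 * (m * L ^ 2)) := by ring
        have s5 : 2 * x * (c0 * (m * L ^ 2)) ≤ 2 * x * S := mul_le_mul_of_nonneg_left hcS (by positivity)
        linarith
      have s6 : 0 ≤ x * S := by positivity
      linarith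
    have hNS2 : 16 * (N : ℝ) ≤ x * (2 * S) := by
      have s1 : 16 * (N : ℝ) ≤ L * (x * c0) * (2 * m) := mul_le_mul hk4 hmN hN0.le (by positivity)
      have s2 : L * (x * c0) * (2 * m) * 2 ≤ 2 * x * S := by
        have s3 : (L * (x * c0) * (2 * m)) * 2 ≤ (L * (x * c0) * (2 * m)) * L :=
          mul_le_mul_of_nonneg_left hL2 (by positivity)
        have s4 : (L * (x * c0) * (2 * m)) * L = 2 * x * (c0 * (m * L ^ 2)) := by ring
        have s5 : 2 * x * (c0 * (m * L ^ 2)) ≤ 2 * x * S := mul_le_mul_of_nonneg_left hcS (by positivity)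
        linarith
      have s6 : 0 ≤ x * S := by positivity
      linarith
    have hPM : |G (wp z) (lw z) m - 2 * S| ≤ 8 * η * (2 * S) :=
      fin_pm hx.le hxη hη1 (by positivity) hAM2 c1 hNS2
    have hx1S : 0 < x1 * S := by positivity
    have hg0 : 0 ≤ G eP eP m := G_nonneg (fun n _ => (eP_bd n).1) fun n _ => (eP_bd n).1
    have hc0' : 0 ≤ L ^ 4 * G eP eP m := by positivity
    have hTM' : |T - 4 * S| ≤ x1 * S := by
      refine hTM.trans ?_
      rw [hη]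
      linarith
    have hPM' : |G (wp z) (lw z) m - 2 * S| ≤ x1 * S := by
      refine hPM.trans ?_
      rw [hη]
      linarith
    obtain ⟨r1, r2⟩ := G_split z m
    rw [← hT] at r1
    have hpe : 0 ≤ G (wp z) (wc z) m := G_nonneg (fun n hn => by
      rw [mem_Ico] at hn
      exact (wp_bd (z := z) hN2 hn.1 (by omega)).1) fun n hn => by
      rw [mem_Ico] at hn
      exact wc_nonneg (z := z) hN2 hn.1 (by omega)
    have hxS1 : x * S ≤ x1 / 16 * S := mul_le_mul_of_nonneg_right (by linarith) hS0.le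
    obtain ⟨t1, t2, t3⟩ := fin_gp (n := (N : ℝ)) hx10 hx18 hS0 (by linarith) hc0' hTM' hPM' r1 r2 hpe (by
      refine c2.trans ?_
      have : 8 * x * (L ^ 4 * G eP eP m) ≤ 8 * x1 * (L ^ 4 * G eP eP m) := by
        apply mul_le_mul_of_nonneg_right _ hc0'
        linarith
      linarith)
    have hfin : 40 * x1 * S ≤ ε * S := mul_le_mul_of_nonneg_right hx1ε hS0.le
    unfold Good
    rw [← hT]
    exact ⟨by linarith, by linarith, by linarith, by linarith, by linarith⟩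
  have h1 := (card_le_card hcov).trans ((card_union_le _ _).trans (Nat.add_le_add_left (card_union_le _ _) _))
  have h4 := hsub u1 hu1b
  have h5 := hsub u2 hu2b
  have h6 := hsub u3 hu3b
  have h7 : (Bad.card : ℝ) ≤ (((Bad.filter (fun m => ¬ (|G u1 (lw z) m - W * G u1 (ro y) m| ≤ x * (W * G u1 (ro y) m) + E))).card : ℕ) : ℝ) +
      ((((Bad.filter (fun m => ¬ (|G u2 (lw z) m - W * G u2 (ro y) m| ≤ x * (W * G u2 (ro y) m) + E))).card : ℕ) : ℝ) +
      (((Bad.filter (fun m => ¬ (|G u3 (lw z) m - W * G u3 (ro y) m| ≤ x * (W * G u3 (ro y) m) + E))).card : ℕ) : ℝ)) := by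
    exact_mod_cast h1
  linarith

end Pool.Agent.H528.Gp
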