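import Mathlib
import Pool.Agent.H528.GpD

/-! The parity law for Goldbach's problem, for the smaller summand. -/

set_option autoImplicit false

namespace Pool.Agent.H528.Gp

open Finset Filter Topology
open Pool.Agent.Y822 Pool.Agent.Y822.Par3
open Pool.Agent.H373R2.T7 (pz Vz mem_pz Vz_pos Vz_le_one)
open Pool.Agent.H387R2.Uni (nuT Adm locT CT)
open Pool.Agent.H528.Gam Pool.Agent.H528.UpLo Pool.Agent.H528.Lam Pool.Agent.H528.It
open Pool.Agent.H528.AsyL Pool.Agent.H528.Gen Pool.Agent.H528.PCnt Pool.Agent.H528.Tup Pool.Agent.H528.Mass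

/-- the smaller summands, larger than the square root -/
def hs (m : ℕ) : Finset ℕ := (Ico 1 m).filter (fun n => m < n ^ 2 ∧ 2 * n ≤ m)

lemma half_sum {φ : ℕ → ℝ} {m : ℕ} {K : ℝ} (hm : 1 ≤ m) (hK : 0 ≤ K) (h0 : ∀ n ∈ Ico 1 m, 0 ≤ φ n ∧ φ n ≤ K)
    (hsy : ∀ n ∈ Ico 1 m, φ (m - n) = φ n) :
    |∑ n ∈ Ico 1 m, φ n - 2 * ∑ n ∈ hs m, φ n| ≤ 2 * K * Real.sqrt m := by
  have h1 := sum_filter_add_sum_filter_not (Ico 1 m) (fun n => 2 * n ≤ m) φ
  have h2 : ∑ n ∈ (Ico 1 m).filter (fun n => ¬ 2 * n ≤ m), φ n = ∑ n ∈ (Ico 1 m).filter (fun n => 2 * n < m), φ n := by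
    apply sum_nbij' (fun n => m - n) (fun n => m - n)
    · intro n hn
      rw [mem_filter, mem_Ico] at hn ⊢
      omega
    · intro n hn
      rw [mem_filter, mem_Ico] at hn ⊢
      omega
    · intro n hn
      rw [mem_filter, mem_Ico] at hn
      omega
    · intro n hn
      rw [mem_filter, mem_Ico] at hn
      omega
    · intro n hn
      rw [mem_filter] at hn
      exact (hsy n hn.1).symm
  have hsub : (Ico 1 m).filter (fun n => 2 * n < m) ⊆ (Ico 1 m).filter (fun n => 2 * n ≤ m) := by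
    intro n hn
    rw [mem_filter] at hn ⊢
    exact ⟨hn.1, hn.2.le⟩
  have h3 := sum_sdiff (f := φ) hsub
  have h4 : 0 ≤ ∑ n ∈ (Ico 1 m).filter (fun n => 2 * n ≤ m) \ (Ico 1 m).filter (fun n => 2 * n < m), φ n :=
    sum_nonneg fun n hn => (h0 n (mem_filter.1 (Finset.mem_sdiff.1 hn).1).1).1
  have h5 : ∑ n ∈ (Ico 1 m).filter (fun n => 2 * n ≤ m) \ (Ico 1 m).filter (fun n => 2 * n < m), φ n ≤ K := by
    refine (sum_le_sum fun n hn => (h0 n (mem_filter.1 (Finset.mem_sdiff.1 hn).1).1).2).trans ?_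
    rw [sum_const, nsmul_eq_mul]
    have hc : ((Ico 1 m).filter (fun n => 2 * n ≤ m) \ (Ico 1 m).filter (fun n => 2 * n < m)).card ≤ 1 := by
      rw [card_le_one]
      intro a ha b hb
      rw [Finset.mem_sdiff, mem_filter, mem_filter, mem_Ico] at ha hb
      omega
    have hc' : (((Ico 1 m).filter (fun n => 2 * n ≤ m) \ (Ico 1 m).filter (fun n => 2 * n < m)).card : ℝ) ≤ 1 := by
      exact_mod_cast hc
    calc _ ≤ 1 * K := mul_le_mul_of_nonneg_right hc' hK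
      _ = K := one_mul K
  have hsub2 : hs m ⊆ (Ico 1 m).filter (fun n => 2 * n ≤ m) := by
    intro n hn
    unfold hs at hn
    rw [mem_filter] at hn ⊢
    exact ⟨hn.1, hn.2.2⟩
  have h6 := sum_sdiff (f := φ) hsub2
  have h7 : 0 ≤ ∑ n ∈ (Ico 1 m).filter (fun n => 2 * n ≤ m) \ hs m, φ n :=
    sum_nonneg fun n hn => (h0 n (mem_filter.1 (Finset.mem_sdiff.1 hn).1).1).1
  have h8 : ∑ n ∈ (Ico 1 m).filter (fun n => 2 * n ≤ m) \ hs m, φ n ≤ Real.sqrt m * K := by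
    refine (sum_le_sum fun n hn => (h0 n (mem_filter.1 (Finset.mem_sdiff.1 hn).1).1).2).trans ?_
    rw [sum_const, nsmul_eq_mul]
    apply mul_le_mul_of_nonneg_right _ hK
    have hc : (Ico 1 m).filter (fun n => 2 * n ≤ m) \ hs m ⊆ Icc 1 (Nat.sqrt m) := by
      intro n hn
      unfold hs at hn
      rw [Finset.mem_sdiff, mem_filter, mem_filter, mem_Ico] at hn
      rw [mem_Icc, Nat.le_sqrt']
      refine ⟨hn.1.1.1, ?_⟩
      by_contra hcon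
      push Not at hcon
      exact hn.2 ⟨hn.1.1, hcon, hn.1.2⟩
    have hc2 := card_le_card hc
    rw [Nat.card_Icc, Nat.add_sub_cancel] at hc2
    have hc3 : (((Ico 1 m).filter (fun n => 2 * n ≤ m) \ hs m).card : ℝ) ≤ (Nat.sqrt m : ℝ) := by exact_mod_cast hc2
    exact hc3.trans Real.nat_sqrt_le_real_sqrt
  have h9 : 1 ≤ Real.sqrt m := by
    rw [Real.one_le_sqrt]
    exact_mod_cast hm
  have h10 : K * 1 ≤ K * Real.sqrt m := mul_le_mul_of_nonneg_left h9 hK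
  rw [abs_le]
  constructor <;> nlinarith

/-- the claim for one target -/
def GoodH (ε : ℝ) (z m : ℕ) (S L : ℝ) : Prop :=
  |∑ n ∈ hs m, lw z n * lw z (m - n) - 4 * S| ≤ ε * S ∧
  |∑ n ∈ hs m, wp z n * wp z (m - n) - L ^ 4 * ∑ n ∈ hs m, eP n * eP (m - n)| ≤ ε * S ∧
  |∑ n ∈ hs m, wc z n * wc z (m - n) - L ^ 4 * ∑ n ∈ hs m, eP n * eP (m - n)| ≤ ε * S ∧
  |∑ n ∈ hs m, (wp z n * wc z (m - n) + wc z n * wp z (m - n)) -
    (4 * S - 2 * (L ^ 4 * ∑ n ∈ hs m, eP n * eP (m - n)))| ≤ ε * S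

lemma wc_le {z N n : ℕ} (hN : 2 ≤ N) (h1 : 1 ≤ n) (hn : n ≤ N) : wc z n ≤ 4 * Real.log N ^ 2 := by
  obtain ⟨a, b⟩ := lw_bd (z := z) hN h1 (show n ≤ 2 * N by omega)
  unfold wc
  rcases eP_01 n with h | h <;> rw [h]
  · rw [sub_zero, one_mul]; exact b
  · rw [sub_self, zero_mul]; positivity

lemma mul_sym {u v : ℕ → ℝ} {m n : ℕ} (hn : n ∈ Ico 1 m) :
    u (m - n) * v (m - (m - n)) = v n * u (m - n) := by
  rw [mem_Ico] at hn
  have e : m - (m - n) = n := by omega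
  rw [e, mul_comm]

/-- **the parity law for Goldbach's problem, for the smaller summand** -/
theorem gp_half (ε : ℝ) (hε : 0 < ε) : ∃ δ : ℝ, 1 / 2 ≤ δ ∧ δ < 1 ∧
    ∃ ξ : ℝ, 0 < ξ ∧ ξ ≤ 1 / 8 ∧ ξ ≤ ε ∧ ∃ B : ℕ, ∀ᶠ N : ℕ in atTop, ∀ Bad : Finset ℕ,
    (∀ m ∈ Bad, N < 2 * m ∧ m ≤ N ∧ Even m ∧
      ¬ GoodH ε (zN ξ N) m (CT (insert m {0}) * (m / 2 * Real.log N ^ 2)) (Real.log N)) →
    (Bad.card : ℝ) ≤ 3 * ((N : ℝ) ^ δ * Real.log N ^ B) := by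
  obtain ⟨δ, hδ1, hδ2, ξ, hξ, hξ8, hξε, B, HP⟩ := gp_law (ε / 4) (by positivity)
  obtain ⟨c0, hc0, hlow⟩ := PT_low 1
  refine ⟨δ, hδ1, hδ2, ξ, hξ, hξ8, by linarith, B, ?_⟩
  have e1 := ev_logN (eventually_ge_atTop (1 : ℝ))
  have e2 := ev_logN (ev_pow_exp 2 (1 / 2) (1024 / (ε * c0)) (by norm_num))
  filter_upwards [HP, e1, e2, eventually_ge_atTop 3] with N hP f1 f2 hN Bad hBad
  apply hP Bad
  intro m hm
  obtain ⟨b1, b2, b3, b4⟩ := hBad m hm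
  refine ⟨b1, b2, b3, fun hG => b4 ?_⟩
  obtain ⟨L, hL⟩ : ∃ L : ℝ, L = Real.log N := ⟨_, rfl⟩
  have hN2 : 2 ≤ N := by omega
  have hN0 : (0 : ℝ) < N := by exact_mod_cast (by omega : 0 < N)
  have hbdl := fun (z n : ℕ) (h1 : 1 ≤ n) (hn : n ≤ N) => lw_bd (z := z) hN2 h1 (show n ≤ 2 * N by omega)
  have hbdp := fun (z n : ℕ) (h1 : 1 ≤ n) (hn : n ≤ N) => wp_bd (z := z) hN2 h1 hn
  have hbdc := fun (z n : ℕ) (h1 : 1 ≤ n) (hn : n ≤ N) => wc_le (z := z) hN2 h1 hn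
  rw [← hL] at f1 f2 hG ⊢
  simp only [← hL] at hbdl hbdp hbdc
  have hL0 : 0 < L := by linarith
  have hm1 : 1 ≤ m := by omega
  have hmN : (N : ℝ) ≤ 2 * m := by exact_mod_cast b1.le
  have hm0 : (0 : ℝ) < m := by exact_mod_cast hm1
  obtain ⟨z, hz⟩ : ∃ z : ℕ, z = zN ξ N := ⟨_, rfl⟩
  rw [← hz] at hG ⊢
  obtain ⟨l1, l2⟩ := hlow (insert m {0}) (card_H hm1) (adm_H b3)
  have hCT : 0 < CT (insert m {0}) := by linarith
  obtain ⟨S, hS⟩ : ∃ S : ℝ, S = CT (insert m {0}) * (m / 2 * L ^ 2) := ⟨_, rfl⟩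
  have eS : CT (insert m {0}) * (m * L ^ 2) = 2 * S := by rw [hS]; ring
  have hS0 : 0 < S := by rw [hS]; positivity
  rw [← hS]
  rw [eS] at hG
  obtain ⟨g1, g2, g3, g4, g5⟩ := hG
  have hsq : Real.sqrt m ≤ Real.sqrt N := Real.sqrt_le_sqrt (by exact_mod_cast b2)
  have hmm : ∀ n ∈ Ico 1 m, m - n ∈ Ico 1 m := by
    intro n hn
    rw [mem_Ico] at hn ⊢
    omega
  have hle : ∀ n ∈ Ico 1 m, 1 ≤ n ∧ n ≤ N := by
    intro n hn
    rw [mem_Ico] at hn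
    omega
  -- the small error
  obtain ⟨Er, hEr⟩ : ∃ Er : ℝ, Er = 2 * (16 * L ^ 4) * Real.sqrt m := ⟨_, rfl⟩
  have hErs : 8 * Er ≤ ε * S := by
    have s1 : Real.exp (1 / 2 * L) = Real.sqrt N := by
      rw [Real.sqrt_eq_rpow, Real.rpow_def_of_pos hN0, ← hL, mul_comm]
    rw [s1] at f2
    rw [div_mul_eq_mul_div, div_le_iff₀ (by positivity)] at f2
    have s2 : Real.sqrt N * Real.sqrt N = N := Real.mul_self_sqrt hN0.le
    have s3 : 8 * Er ≤ 256 * L ^ 4 * Real.sqrt N := by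
      rw [hEr]
      calc 8 * (2 * (16 * L ^ 4) * Real.sqrt m) = 256 * L ^ 4 * Real.sqrt m := by ring
        _ ≤ _ := mul_le_mul_of_nonneg_left hsq (by positivity)
    have hr0 : 0 ≤ Real.sqrt N := Real.sqrt_nonneg _
    have s4 : 1024 * L ^ 2 * Real.sqrt N ≤ Real.sqrt N * (ε * c0) * Real.sqrt N := mul_le_mul_of_nonneg_right f2 hr0
    have s5 : Real.sqrt N * (ε * c0) * Real.sqrt N = ε * c0 * N := by
      calc Real.sqrt N * (ε * c0) * Real.sqrt N = ε * c0 * (Real.sqrt N * Real.sqrt N) := by ring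
        _ = _ := by rw [s2]
    rw [s5] at s4
    have s6 : c0 * (N / 4 * L ^ 2) ≤ S := by
      rw [hS]
      have : (N : ℝ) / 4 ≤ m / 2 := by linarith
      gcongr
    have s7 : 256 * L ^ 4 * Real.sqrt N = L ^ 2 * (1024 * L ^ 2 * Real.sqrt N) / 4 := by ring
    have s8 : L ^ 2 * (1024 * L ^ 2 * Real.sqrt N) ≤ L ^ 2 * (ε * c0 * N) := mul_le_mul_of_nonneg_left s4 (sq_nonneg L)
    have s9 : ε * (c0 * (N / 4 * L ^ 2)) ≤ ε * S := mul_le_mul_of_nonneg_left s6 hε.le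
    have s10 : L ^ 2 * (ε * c0 * N) = 4 * (ε * (c0 * (N / 4 * L ^ 2))) := by ring
    linarith
  have e16 : (4 * L ^ 2) * (4 * L ^ 2) = 16 * L ^ 4 := by ring
  -- the four comparisons
  have hA : |G (lw z) (lw z) m - 2 * ∑ n ∈ hs m, lw z n * lw z (m - n)| ≤ Er := by
    rw [hEr, ← e16]
    refine half_sum hm1 (by positivity) (fun n hn => ?_) fun n hn => ?_
    · obtain ⟨a1, a2⟩ := hbdl z n (hle n hn).1 (hle n hn).2
      obtain ⟨a3, a4⟩ := hbdl z (m - n) (hle _ (hmm n hn)).1 (hle _ (hmm n hn)).2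
      exact ⟨mul_nonneg a1 a3, mul_le_mul a2 a4 a3 (by positivity)⟩
    · exact mul_sym hn
  have hB : |G (wp z) (wp z) m - 2 * ∑ n ∈ hs m, wp z n * wp z (m - n)| ≤ Er := by
    rw [hEr, ← e16]
    refine half_sum hm1 (by positivity) (fun n hn => ?_) fun n hn => ?_
    · obtain ⟨a1, a2⟩ := hbdp z n (hle n hn).1 (hle n hn).2
      obtain ⟨a3, a4⟩ := hbdp z (m - n) (hle _ (hmm n hn)).1 (hle _ (hmm n hn)).2
      exact ⟨mul_nonneg a1 a3, mul_le_mul a2 a4 a3 (by positivity)⟩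
    · exact mul_sym hn
  have hC : |G (wc z) (wc z) m - 2 * ∑ n ∈ hs m, wc z n * wc z (m - n)| ≤ Er := by
    rw [hEr, ← e16]
    refine half_sum hm1 (by positivity) (fun n hn => ?_) fun n hn => ?_
    · have a1 := wc_nonneg (z := z) hN2 (hle n hn).1 (hle n hn).2
      have a2 := hbdc z n (hle n hn).1 (hle n hn).2
      have a3 := wc_nonneg (z := z) hN2 (hle _ (hmm n hn)).1 (hle _ (hmm n hn)).2
      have a4 := hbdc z (m - n) (hle _ (hmm n hn)).1 (hle _ (hmm n hn)).2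
      exact ⟨mul_nonneg a1 a3, mul_le_mul a2 a4 a3 (by positivity)⟩
    · exact mul_sym hn
  have hD : |2 * G (wp z) (wc z) m - 2 * ∑ n ∈ hs m, (wp z n * wc z (m - n) + wc z n * wp z (m - n))| ≤ Er := by
    have h1 : 2 * G (wp z) (wc z) m = ∑ n ∈ Ico 1 m, (wp z n * wc z (m - n) + wc z n * wp z (m - n)) := by
      rw [sum_add_distrib]
      have := G_comm (wp z) (wc z) m
      unfold G at this ⊢
      linarith
    rw [h1, hEr, ← e16]
    refine half_sum hm1 (by positivity) (fun n hn => ?_) fun n hn => ?_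
    · have a1 := wc_nonneg (z := z) hN2 (hle n hn).1 (hle n hn).2
      have a3 := wc_nonneg (z := z) hN2 (hle _ (hmm n hn)).1 (hle _ (hmm n hn)).2
      obtain ⟨a5, a6⟩ := hbdl z n (hle n hn).1 (hle n hn).2
      obtain ⟨a7, a8⟩ := hbdl z (m - n) (hle _ (hmm n hn)).1 (hle _ (hmm n hn)).2
      obtain ⟨a9, a10⟩ := hbdp z n (hle n hn).1 (hle n hn).2
      obtain ⟨a11, a12⟩ := hbdp z (m - n) (hle _ (hmm n hn)).1 (hle _ (hmm n hn)).2
      refine ⟨add_nonneg (mul_nonneg a9 a3) (mul_nonneg a1 a11), ?_⟩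
      have h2 : wp z n * wc z (m - n) + wc z n * wp z (m - n) ≤ lw z n * lw z (m - n) := by
        have e1 : lw z n = wp z n + wc z n := by unfold wp wc; ring
        have e2 : lw z (m - n) = wp z (m - n) + wc z (m - n) := by unfold wp wc; ring
        rw [e1, e2]
        have h3 := mul_nonneg a9 a11
        have h4 := mul_nonneg a1 a3
        nlinarith
      exact h2.trans (mul_le_mul a6 a8 a7 (by positivity))
    · rw [mul_sym hn, mul_sym hn]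
      ring
  have hE : |G eP eP m - 2 * ∑ n ∈ hs m, eP n * eP (m - n)| ≤ 2 * 1 * Real.sqrt m := by
    refine half_sum hm1 zero_le_one (fun n hn => ?_) fun n hn => ?_
    · obtain ⟨a1, a2⟩ := eP_bd n
      obtain ⟨a3, a4⟩ := eP_bd (m - n)
      refine ⟨mul_nonneg a1 a3, ?_⟩
      calc eP n * eP (m - n) ≤ 1 * 1 := mul_le_mul a2 a4 a3 zero_le_one
        _ = 1 := one_mul 1
    · exact mul_sym hn
  have hE2 : |L ^ 4 * G eP eP m - 2 * (L ^ 4 * ∑ n ∈ hs m, eP n * eP (m - n))| ≤ Er := by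
    have e1 : L ^ 4 * G eP eP m - 2 * (L ^ 4 * ∑ n ∈ hs m, eP n * eP (m - n)) =
      L ^ 4 * (G eP eP m - 2 * ∑ n ∈ hs m, eP n * eP (m - n)) := by ring
    rw [e1, abs_mul, abs_of_nonneg (by positivity)]
    calc L ^ 4 * |G eP eP m - 2 * ∑ n ∈ hs m, eP n * eP (m - n)| ≤ L ^ 4 * (2 * 1 * Real.sqrt m) :=
          mul_le_mul_of_nonneg_left hE (by positivity)
      _ ≤ Er := by
          rw [hEr]
          have : 0 ≤ L ^ 4 * Real.sqrt m := by positivity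
          nlinarith
  obtain ⟨i1, i2⟩ := abs_le.1 g1
  obtain ⟨i3, i4⟩ := abs_le.1 g3
  obtain ⟨i5, i6⟩ := abs_le.1 g4
  obtain ⟨i7, i8⟩ := abs_le.1 g5
  obtain ⟨j1, j2⟩ := abs_le.1 hA
  obtain ⟨j3, j4⟩ := abs_le.1 hB
  obtain ⟨j5, j6⟩ := abs_le.1 hC
  obtain ⟨j7, j8⟩ := abs_le.1 hD
  obtain ⟨j9, j10⟩ := abs_le.1 hE2
  have hεS : 0 < ε * S := by positivity
  unfold GoodH
  refine ⟨?_, ?_, ?_, ?_⟩ <;> rw [abs_le] <;> constructor <;> linarith

end Pool.Agent.H528.Gp
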