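import Mathlib
import Pool.Agent.H528.Cst
import Pool.Graph.R_pool_sql_team_seeded_1acbe0a2.Y822.Q.Cmb

/-! Half of the members of a tuple are primes: the combinatorial part. -/

set_option autoImplicit false

namespace Pool.Agent.H528.HCmb

open Finset Filter Topology
open Pool.Agent.Y822
open Pool.Agent.H528.Gam Pool.Agent.H528.Avg Pool.Agent.H528.Cst

/-- a prime or a product of two primes, all larger than `z` -/
def E2 (z m : ℕ) : Prop := Ro z m ∧ (m.Prime ∨ ∃ p q : ℕ, p.Prime ∧ q.Prime ∧ p < q ∧ m = p * q)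

open Classical in
/-- the count -/
noncomputable def cntH (H : Finset ℕ) (z N : ℕ) : ℕ :=
  ((Icc 1 N).filter (fun n => H.card ≤ 2 * (H.filter (fun i => (n + i).Prime)).card ∧ ∀ t ∈ H, E2 z (n + t))).card

lemma Gm_le_one {N m : ℕ} (hL : 2 ≤ Real.log N) (hN : 2 ≤ N) (hm : 1 ≤ m) (hm2 : m ≤ 2 * N) : Gm N m ≤ 1 := by
  have hL0 : 0 < Real.log N := by linarith
  have hlm : Real.log m ≤ Real.log 2 + Real.log N := by
    rw [← Real.log_mul (by norm_num) (by positivity)]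
    exact Real.log_le_log (by exact_mod_cast hm) (by exact_mod_cast hm2)
  have hl2 := Real.log_two_lt_d9
  rcases pf_cases hm with rfl | ⟨p, hp, hpm, h⟩ | ⟨p, q, hpq, hp, hq, hpqm, h⟩ | h
  · rw [Gm_eq hm, Nat.primeFactors_one, SS_empty]
    norm_num
  · rw [Gm_one_pf hm h]
    nlinarith [sq_nonneg (1 - Real.log p / Real.log N)]
  · rw [Gm_two_pf hm hpq h]
    obtain ⟨a, ha⟩ : ∃ a : ℝ, a = Real.log p / Real.log N := ⟨_, rfl⟩
    obtain ⟨b, hb⟩ : ∃ b : ℝ, b = Real.log q / Real.log N := ⟨_, rfl⟩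
    have ha0 : 0 ≤ a := by rw [ha]; exact div_nonneg (log_nn p) hL0.le
    have hb0 : 0 ≤ b := by rw [hb]; exact div_nonneg (log_nn q) hL0.le
    have hab : a + b ≤ 1.4 := by
      rw [ha, hb, ← add_div, div_le_iff₀ hL0]
      have h1 : Real.log p + Real.log q ≤ Real.log m := by
        rw [← Real.log_mul (by exact_mod_cast hp.ne_zero) (by exact_mod_cast hq.ne_zero)]
        apply Real.log_le_log (mul_pos (by exact_mod_cast hp.pos) (by exact_mod_cast hq.pos))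
        exact_mod_cast Nat.le_of_dvd hm hpqm
      linarith
    rw [← ha, ← hb]
    have h2 : (a + b) ^ 2 ≤ 1.4 ^ 2 := pow_le_pow_left₀ (by positivity) hab 2
    nlinarith [sq_nonneg (a - b)]
  · rw [Gm_three_pf hm h]
    norm_num

lemma gG_le_half {z N m : ℕ} (hL : 2 ≤ Real.log N) (hN : 2 ≤ N) : gG z N m ≤ 1 / 2 := by
  unfold gG
  split_ifs with h
  · rcases Nat.eq_zero_or_pos m with rfl | hm
    · have : Gm N 0 = 0 := by unfold Gm; simp
      rw [this]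
      norm_num
    · have g1 := Gm_le_one hL hN hm h
      have g0 := (Gm_bd hN hm h).1
      have g3 := ro_le_one z m
      have g6 : ro z m * Gm N m ≤ 1 * Gm N m := mul_le_mul_of_nonneg_right g3 g0
      linarith
  · norm_num

lemma gG_prime {z N p : ℕ} {x : ℝ} (hN : 2 ≤ N) (hp : p.Prime) (hp2 : p ≤ 2 * N) (hz : z < p) (hx : 0 ≤ x) (hx1 : x ≤ 1)
    (h1 : (1 - x) * Real.log N ≤ Real.log p) (h2 : Real.log p ≤ (1 + x) * Real.log N) : (1 - x) / 2 ≤ gG z N p := by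
  have hN1 : (1 : ℝ) < N := by exact_mod_cast (by omega : 1 < N)
  have hL : 0 < Real.log N := Real.log_pos hN1
  unfold gG
  rw [if_pos hp2, ro_of (Ro_prime hp hz), one_mul, Gm_one_pf hp.one_lt.le hp.primeFactors]
  obtain ⟨a, ha⟩ : ∃ a : ℝ, a = Real.log p / Real.log N := ⟨_, rfl⟩
  have h3 : 1 - x ≤ a := by rw [ha, le_div_iff₀ hL]; exact h1
  have h4 : a ≤ 1 + x := by rw [ha, div_le_iff₀ hL]; exact h2
  rw [← ha]
  have h5 : (1 - a) ^ 2 ≤ x ^ 2 := by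
    apply sq_le_sq'
    · linarith
    · linarith
  have h6 : x ^ 2 ≤ x := by
    rw [sq]
    exact mul_le_of_le_one_left hx hx1
  have h7 : 2 * a - a ^ 2 = 1 - (1 - a) ^ 2 := by ring
  rw [h7]
  linarith

lemma gG_ne {z N m : ℕ} (hm : 2 ≤ m) (h : gG z N m ≠ 0) : Ro z m ∧ (Squarefree m → E2 z m) := by
  have hro : Ro z m := by
    by_contra hcon
    apply h
    unfold gG
    split_ifs
    · have : ro z m = 0 := by unfold ro; rw [if_neg hcon]
      rw [this]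
      simp
    · rfl
  refine ⟨hro, fun hsq => ⟨hro, ?_⟩⟩
  rcases pf_cases (by omega : 1 ≤ m) with rfl | ⟨p, hp, hpm, h1⟩ | ⟨p, q, hpq, hp, hq, hpqm, h1⟩ | h1
  · omega
  · left
    have h2 := Nat.prod_primeFactors_of_squarefree hsq
    rw [h1, prod_singleton] at h2
    rw [← h2]
    exact hp
  · right
    have h2 := Nat.prod_primeFactors_of_squarefree hsq
    rw [h1, prod_pair hpq] at h2
    rcases Nat.lt_or_gt_of_ne hpq with h3 | h3
    · exact ⟨p, q, hp, hq, h3, h2.symm⟩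
    · exact ⟨q, p, hq, hp, h3, by rw [← h2, mul_comm]⟩
  · exfalso
    apply h
    unfold gG
    split_ifs
    · rw [Gm_three_pf (by omega) h1]
      simp
    · rfl

open Classical in
/-- upper bound for the weighted sum -/
lemma T_leH {z N k : ℕ} (hL : 2 ≤ Real.log N) (hN : 2 ≤ N) (hz : 1 ≤ z) (H : Finset ℕ) (hHc : H.card = k + 1)
    (hH : ∀ t ∈ H, 1 ≤ t ∧ t ≤ N) :
    ∑ n ∈ Icc 1 N, (∏ t ∈ H, gG z N (n + t)) * (2 * (∑ i ∈ H, eP (n + i)) - k) ≤
      (1 / 2) ^ (k + 1) * (k + 2) * (cntH H z N + (k + 1) * (3 * N / z)) := by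
  have hgb := gG_bd (z := z) hN
  have hsum : ∀ n : ℕ, ∑ i ∈ H, eP (n + i) = ((H.filter (fun i => (n + i).Prime)).card : ℝ) := by
    intro n
    unfold eP
    rw [← sum_filter, sum_const, nsmul_eq_mul, mul_one]
  have hpt : ∀ n ∈ Icc 1 N, (∏ t ∈ H, gG z N (n + t)) * (2 * (∑ i ∈ H, eP (n + i)) - k) ≤
      (1 / 2) ^ (k + 1) * (k + 2) * ((if (H.card ≤ 2 * (H.filter (fun i => (n + i).Prime)).card ∧
        ∀ t ∈ H, E2 z (n + t)) then (1 : ℝ) else 0) +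
        ∑ t ∈ H, (if Ro z (n + t) ∧ ¬ Squarefree (n + t) then (1 : ℝ) else 0)) := by
    intro n hn
    rw [mem_Icc] at hn
    have hG0 : 0 ≤ ∏ t ∈ H, gG z N (n + t) := prod_nonneg fun t _ => (hgb _).1
    have hG1 : ∏ t ∈ H, gG z N (n + t) ≤ (1 / 2) ^ (k + 1) := by
      rw [← hHc, ← prod_const]
      exact prod_le_prod (fun t _ => (hgb _).1) fun t _ => gG_le_half hL hN
    rw [hsum n]
    obtain ⟨q, hq⟩ : ∃ q : ℕ, q = (H.filter (fun i => (n + i).Prime)).card := ⟨_, rfl⟩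
    rw [← hq]
    have hqH : (q : ℝ) ≤ k + 1 := by
      have : q ≤ H.card := by rw [hq]; exact card_filter_le _ _
      rw [hHc] at this
      exact_mod_cast this
    have hs0 : 0 ≤ ∑ t ∈ H, (if Ro z (n + t) ∧ ¬ Squarefree (n + t) then (1 : ℝ) else 0) :=
      sum_nonneg fun t _ => by split_ifs <;> norm_num
    have hi0 : (0 : ℝ) ≤ (if (H.card ≤ 2 * q ∧ ∀ t ∈ H, E2 z (n + t)) then (1 : ℝ) else 0) := by
      split_ifs <;> norm_num
    by_cases h2 : H.card ≤ 2 * q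
    · by_cases h3 : ∏ t ∈ H, gG z N (n + t) = 0
      · rw [h3, zero_mul]
        positivity
      · have h4 : ∀ t ∈ H, gG z N (n + t) ≠ 0 := fun t ht h0 => h3 (prod_eq_zero ht h0)
        have hle : (∏ t ∈ H, gG z N (n + t)) * (2 * (q : ℝ) - k) ≤ (1 / 2) ^ (k + 1) * (k + 2) := by
          have h5 : 0 ≤ 2 * (q : ℝ) - k := by
            have : ((k + 1 : ℕ) : ℝ) ≤ 2 * q := by rw [← hHc]; exact_mod_cast h2
            push_cast at this
            linarith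
          exact mul_le_mul hG1 (by linarith) h5 (by positivity)
        refine hle.trans ?_
        apply le_mul_of_one_le_right (by positivity)
        by_cases h5 : ∀ t ∈ H, Squarefree (n + t)
        · rw [if_pos ⟨h2, fun t ht => (gG_ne (by have := (hH t ht).1; omega) (h4 t ht)).2 (h5 t ht)⟩]
          linarith
        · push Not at h5
          obtain ⟨t, ht, h6⟩ := h5
          have h7 : (1 : ℝ) ≤ ∑ t ∈ H, (if Ro z (n + t) ∧ ¬ Squarefree (n + t) then (1 : ℝ) else 0) := by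
            calc (1 : ℝ) = (if Ro z (n + t) ∧ ¬ Squarefree (n + t) then (1 : ℝ) else 0) := by
                  rw [if_pos ⟨(gG_ne (by have := (hH t ht).1; omega) (h4 t ht)).1, h6⟩]
              _ ≤ _ := single_le_sum (f := fun t => (if Ro z (n + t) ∧ ¬ Squarefree (n + t) then (1 : ℝ) else 0))
                  (fun t _ => by split_ifs <;> norm_num) ht
          linarith
    · have h3 : 2 * (q : ℝ) - k ≤ 0 := by
        have : 2 * q ≤ k := by omega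
        have : (2 : ℝ) * q ≤ k := by exact_mod_cast this
        linarith
      have h4 : (∏ t ∈ H, gG z N (n + t)) * (2 * (q : ℝ) - k) ≤ 0 := mul_nonpos_of_nonneg_of_nonpos hG0 h3
      refine h4.trans ?_
      positivity
  refine (sum_le_sum hpt).trans ?_
  rw [← mul_sum]
  apply mul_le_mul_of_nonneg_left _ (by positivity)
  rw [sum_add_distrib]
  apply add_le_add
  · rw [← sum_filter, sum_const, nsmul_eq_mul, mul_one]
    exact le_of_eq rfl
  · rw [sum_comm]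
    calc ∑ t ∈ H, ∑ n ∈ Icc 1 N, (if Ro z (n + t) ∧ ¬ Squarefree (n + t) then (1 : ℝ) else 0) ≤
          ∑ t ∈ H, (3 * N / z : ℝ) := by
          refine sum_le_sum fun t ht => ?_
          rw [← sum_filter, sum_const, nsmul_eq_mul, mul_one]
          exact cnt_nsq hz (hH t ht).2
      _ = (k + 1) * (3 * N / z) := by
          rw [sum_const, hHc, nsmul_eq_mul]
          push_cast
          ring

/-- lower bound for the weighted sum -/
lemma T_geH {g : ℕ → ℝ} (hg : ∀ m, 0 ≤ g m ∧ g m ≤ 1) {N k : ℕ} {x E : ℝ} (_hx : 0 ≤ x) (hx1 : x ≤ 1) (hE : 0 ≤ E)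
    (hgP : ∀ m : ℕ, m ≤ 2 * N → m.Prime → E < m → (1 - x) / 2 ≤ g m) (H : Finset ℕ) (hH : ∀ t ∈ H, t ≤ N) :
    ∑ i ∈ H, (1 - x) * (∑ n ∈ Icc 1 N, eP (n + i) * ∏ t ∈ H.erase i, g (n + t) - E) -
      k * ∑ n ∈ Icc 1 N, ∏ t ∈ H, g (n + t) ≤
    ∑ n ∈ Icc 1 N, (∏ t ∈ H, g (n + t)) * (2 * (∑ i ∈ H, eP (n + i)) - k) := by
  have e1 : ∑ n ∈ Icc 1 N, (∏ t ∈ H, g (n + t)) * (2 * (∑ i ∈ H, eP (n + i)) - k) =
      ∑ i ∈ H, 2 * ∑ n ∈ Icc 1 N, (∏ t ∈ H, g (n + t)) * eP (n + i) -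
      k * ∑ n ∈ Icc 1 N, ∏ t ∈ H, g (n + t) := by
    rw [← mul_sum, sum_comm, mul_sum, mul_sum, ← sum_sub_distrib]
    refine sum_congr rfl fun n _ => ?_
    rw [← mul_sum]
    ring
  rw [e1]
  refine sub_le_sub_right (sum_le_sum fun i hi => ?_) _
  have hcard : (((Icc 1 N).filter (fun n : ℕ => ((n + i : ℕ) : ℝ) ≤ E)).card : ℝ) ≤ E := by
    have h1 : (Icc 1 N).filter (fun n : ℕ => ((n + i : ℕ) : ℝ) ≤ E) ⊆ Icc 1 ⌊E⌋₊ := by
      intro n hn
      rw [mem_filter, mem_Icc] at hn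
      rw [mem_Icc]
      refine ⟨hn.1.1, Nat.le_floor ?_⟩
      have := hn.2
      push_cast at this
      have h0 : (0 : ℝ) ≤ i := Nat.cast_nonneg _
      linarith
    have h2 := card_le_card h1
    rw [Nat.card_Icc, Nat.add_sub_cancel] at h2
    have h3 : (((Icc 1 N).filter (fun n : ℕ => ((n + i : ℕ) : ℝ) ≤ E)).card : ℝ) ≤ ⌊E⌋₊ := by exact_mod_cast h2
    exact h3.trans (Nat.floor_le hE)
  have hpt : ∀ n ∈ Icc 1 N, (1 - x) * (eP (n + i) * ∏ t ∈ H.erase i, g (n + t)) -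
      (1 - x) * (if ((n + i : ℕ) : ℝ) ≤ E then (1 : ℝ) else 0) ≤ 2 * ((∏ t ∈ H, g (n + t)) * eP (n + i)) := by
    intro n hn
    rw [mem_Icc] at hn
    have hG0 : 0 ≤ ∏ t ∈ H.erase i, g (n + t) := prod_nonneg fun t _ => (hg _).1
    have hG1 : ∏ t ∈ H.erase i, g (n + t) ≤ 1 := prod_le_one (fun t _ => (hg _).1) fun t _ => (hg _).2
    have hP : ∏ t ∈ H, g (n + t) = g (n + i) * ∏ t ∈ H.erase i, g (n + t) := (mul_prod_erase H _ hi).symm
    obtain ⟨p0, p1⟩ := eP_bd (n + i)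
    obtain ⟨g0, g1⟩ := hg (n + i)
    have hx2 : 0 ≤ 1 - x := by linarith
    split_ifs with h
    · have h1 : eP (n + i) * ∏ t ∈ H.erase i, g (n + t) ≤ 1 := mul_le_one₀ p1 hG0 hG1
      have h2 : (1 - x) * (eP (n + i) * ∏ t ∈ H.erase i, g (n + t)) ≤ (1 - x) * 1 := mul_le_mul_of_nonneg_left h1 hx2
      have h3 : 0 ≤ (∏ t ∈ H, g (n + t)) * eP (n + i) := by
        rw [hP]
        positivity
      linarith
    · rw [mul_zero, sub_zero]
      by_cases hp : (n + i).Prime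
      · have h1 := hgP (n + i) (by have := hH i hi; omega) hp (not_le.1 h)
        rw [hP]
        have h2 : 0 ≤ (∏ t ∈ H.erase i, g (n + t)) * eP (n + i) := mul_nonneg hG0 p0
        have h3 := mul_le_mul_of_nonneg_right h1 h2
        calc (1 - x) * (eP (n + i) * ∏ t ∈ H.erase i, g (n + t)) =
              2 * ((1 - x) / 2 * ((∏ t ∈ H.erase i, g (n + t)) * eP (n + i))) := by ring
          _ ≤ 2 * (g (n + i) * ((∏ t ∈ H.erase i, g (n + t)) * eP (n + i))) := by linarith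
          _ = _ := by ring
      · have : eP (n + i) = 0 := by unfold eP; rw [if_neg hp]
        rw [this]
        simp
  have h1 := sum_le_sum hpt
  rw [sum_sub_distrib, ← mul_sum, ← mul_sum, ← mul_sum, ← sum_filter, sum_const, nsmul_eq_mul, mul_one] at h1
  have h2 : (1 - x) * (((Icc 1 N).filter (fun n : ℕ => ((n + i : ℕ) : ℝ) ≤ E)).card : ℝ) ≤ (1 - x) * E :=
    mul_le_mul_of_nonneg_left hcard (by linarith)
  rw [mul_sub]
  linarith

lemma exists_xH (k : ℕ) (ε : ℝ) (hε : 0 < ε) : ∃ x : ℝ, 0 < x ∧ x ≤ 1 / 8 ∧ x ≤ ε ∧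
    (1 - ε) * (1 + x) ≤ (k + 1) * ((1 - x) * (1 - x) ^ (2 * k + 1)) - k * (1 + x) ^ (2 * k + 3) := by
  have hc : ContinuousAt (fun x : ℝ => (1 - ε) * (1 + x)) 0 := by fun_prop
  have hc' : ContinuousAt (fun x : ℝ => ((k : ℝ) + 1) * ((1 - x) * (1 - x) ^ (2 * k + 1)) - k * (1 + x) ^ (2 * k + 3)) 0 := by
    fun_prop
  have h1 : ∀ᶠ x in 𝓝 (0 : ℝ), (1 - ε) * (1 + x) <
      ((k : ℝ) + 1) * ((1 - x) * (1 - x) ^ (2 * k + 1)) - k * (1 + x) ^ (2 * k + 3) := by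
    refine hc.eventually_lt hc' ?_
    simp only [add_zero, sub_zero, one_pow, mul_one]
    linarith
  obtain ⟨δ, hδ, h2⟩ := Metric.eventually_nhds_iff.1 h1
  refine ⟨min (δ / 2) (min (1 / 8) ε), by positivity, (min_le_right _ _).trans (min_le_left _ _),
    (min_le_right _ _).trans (min_le_right _ _), (h2 ?_).le⟩
  rw [Real.dist_eq, sub_zero, abs_of_pos (by positivity)]
  exact (min_le_left _ _).trans_lt (by linarith)

/-- the final computation, first part -/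
lemma calc1H {k : ℕ} {x ε n L u V PT CTT x₀ S S0 T R P : ℝ} (hx : 0 < x) (hx8 : x ≤ 1 / 8) (hε1 : ε ≤ 1)
    (hI : (1 - ε) * (1 + x) ≤ (k + 1) * ((1 - x) * (1 - x) ^ (2 * k + 1)) - k * (1 + x) ^ (2 * k + 3))
    (hn : 0 < n) (hL : 1 ≤ L) (hu : 0 ≤ u) (hu1 : (1 + x) * u ≤ 1) (hV : 0 ≤ V) (hPT : 0 ≤ PT) (hCT : CTT ≤ (1 + x) * PT)
    (hx0 : 0 ≤ x₀)
    (h1 : (1 - x) / L ≤ u * V) (h2 : u * V ≤ (1 + x) / L)
    (hR : R ≤ (1 + x) * (n * (PT * V ^ (k + 1))) + x₀)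
    (hP : (1 - x) * (n / L * (PT * V ^ k)) - x₀ ≤ P)
    (hS : ((1 - x) * u) ^ k * P - k * x₀ ≤ S)
    (hS0 : S0 ≤ ((1 + x) * u) ^ (k + 1) * R + (k + 1) * x₀)
    (hT : (k + 1) * ((1 - x) * (S - x₀)) - k * S0 ≤ T) :
    (1 - ε) * CTT * (n / L ^ (k + 1)) - 2 * (k + 1) * (k + 2) * x₀ ≤ T := by
  have hL0 : 0 < L := by linarith
  obtain ⟨Y, hY⟩ : ∃ Y : ℝ, Y = PT * (n / L ^ (k + 1)) := ⟨_, rfl⟩
  have hY0 : 0 ≤ Y := by rw [hY]; positivity
  have hk0 : (0 : ℝ) ≤ k := Nat.cast_nonneg _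
  -- lower bound for `S`
  have a1 : (1 - x) ^ (2 * k + 1) * Y - (k + 1) * x₀ ≤ S := by
    have b1 : 0 ≤ ((1 - x) * u) ^ k := pow_nonneg (mul_nonneg (by linarith) hu) _
    have b2 : ((1 - x) * u) ^ k ≤ 1 := by
      apply pow_le_one₀ (mul_nonneg (by linarith) hu)
      refine le_trans ?_ hu1
      exact mul_le_mul_of_nonneg_right (by linarith) hu
    have b3 := mul_le_mul_of_nonneg_left hP b1
    have b4 : ((1 - x) * u) ^ k * ((1 - x) * (n / L * (PT * V ^ k)) - x₀) =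
        (1 - x) * (n / L * PT) * ((1 - x) * (u * V)) ^ k - ((1 - x) * u) ^ k * x₀ := by
      simp only [mul_pow]
      ring
    have b5 : ((1 - x) * u) ^ k * x₀ ≤ 1 * x₀ := mul_le_mul_of_nonneg_right b2 hx0
    have b6 : ((1 - x) * ((1 - x) / L)) ^ k ≤ ((1 - x) * (u * V)) ^ k := by
      apply pow_le_pow_left₀ (mul_nonneg (by linarith) (div_nonneg (by linarith) hL0.le))
      exact mul_le_mul_of_nonneg_left h1 (by linarith)
    have b7 : (1 - x) * (n / L * PT) * ((1 - x) * ((1 - x) / L)) ^ k ≤ (1 - x) * (n / L * PT) * ((1 - x) * (u * V)) ^ k :=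
      mul_le_mul_of_nonneg_left b6 (mul_nonneg (by linarith) (by positivity))
    have b8 : (1 - x) * (n / L * PT) * ((1 - x) * ((1 - x) / L)) ^ k = (1 - x) ^ (2 * k + 1) * Y := by
      rw [hY, pow_succ L k, show 2 * k + 1 = k + k + 1 by ring, pow_succ (1 - x) (k + k), pow_add, mul_pow, div_pow]
      field_simp
    rw [b4] at b3
    rw [b8] at b7
    have b9 : ((k : ℝ) + 1) * x₀ = k * x₀ + x₀ := by ring
    rw [b9]
    linarith
  -- upper bound for `S0`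
  have a2 : S0 ≤ (1 + x) ^ (2 * k + 3) * Y + (k + 2) * x₀ := by
    have b1 : 0 ≤ ((1 + x) * u) ^ (k + 1) := by positivity
    have b2 : ((1 + x) * u) ^ (k + 1) ≤ 1 := pow_le_one₀ (by positivity) hu1
    have b3 := mul_le_mul_of_nonneg_left hR b1
    have b4 : ((1 + x) * u) ^ (k + 1) * ((1 + x) * (n * (PT * V ^ (k + 1))) + x₀) =
        (1 + x) * (n * PT) * ((1 + x) * (u * V)) ^ (k + 1) + ((1 + x) * u) ^ (k + 1) * x₀ := by
      simp only [mul_pow]
      ring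
    have b5 : ((1 + x) * u) ^ (k + 1) * x₀ ≤ 1 * x₀ := mul_le_mul_of_nonneg_right b2 hx0
    have b6 : ((1 + x) * (u * V)) ^ (k + 1) ≤ ((1 + x) * ((1 + x) / L)) ^ (k + 1) := by
      apply pow_le_pow_left₀ (by positivity)
      exact mul_le_mul_of_nonneg_left h2 (by linarith)
    have b7 : (1 + x) * (n * PT) * ((1 + x) * (u * V)) ^ (k + 1) ≤ (1 + x) * (n * PT) * ((1 + x) * ((1 + x) / L)) ^ (k + 1) :=
      mul_le_mul_of_nonneg_left b6 (by positivity)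
    have b8 : (1 + x) * (n * PT) * ((1 + x) * ((1 + x) / L)) ^ (k + 1) = (1 + x) ^ (2 * k + 3) * Y := by
      rw [hY, show 2 * k + 3 = (k + 1) + (k + 1) + 1 by ring, pow_succ (1 + x) (k + 1 + (k + 1)), pow_add (1 + x) (k + 1),
        mul_pow, div_pow]
      field_simp
    rw [b4] at b3
    rw [b8] at b7
    have b9 : ((k : ℝ) + 2) * x₀ = (k + 1) * x₀ + x₀ := by ring
    rw [b9]
    linarith
  have a3 : ((k : ℝ) + 1) * ((1 - x) * ((1 - x) ^ (2 * k + 1) * Y - (k + 2) * x₀)) ≤ (k + 1) * ((1 - x) * (S - x₀)) := by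
    apply mul_le_mul_of_nonneg_left _ (by positivity)
    apply mul_le_mul_of_nonneg_left _ (by linarith)
    have : ((k : ℝ) + 2) * x₀ = (k + 1) * x₀ + x₀ := by ring
    linarith
  have a4 : (k : ℝ) * S0 ≤ k * ((1 + x) ^ (2 * k + 3) * Y + (k + 2) * x₀) := mul_le_mul_of_nonneg_left a2 hk0
  have a5 : (1 - ε) * CTT * (n / L ^ (k + 1)) ≤ (1 - ε) * (1 + x) * Y := by
    have b1 : (1 - ε) * CTT ≤ (1 - ε) * ((1 + x) * PT) := mul_le_mul_of_nonneg_left hCT (by linarith)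
    calc (1 - ε) * CTT * (n / L ^ (k + 1)) ≤ (1 - ε) * ((1 + x) * PT) * (n / L ^ (k + 1)) :=
          mul_le_mul_of_nonneg_right b1 (by positivity)
      _ = _ := by rw [hY]; ring
  have a6 := mul_le_mul_of_nonneg_right hI hY0
  have a7 : (k + 1) * ((1 - x) * (1 - x) ^ (2 * k + 1)) * Y - k * (1 + x) ^ (2 * k + 3) * Y =
    ((k + 1) * ((1 - x) * (1 - x) ^ (2 * k + 1)) - k * (1 + x) ^ (2 * k + 3)) * Y := by ring
  have a8 : ((k : ℝ) + 1) * ((1 - x) * ((k + 2) * x₀)) ≤ (k + 1) * (1 * ((k + 2) * x₀)) := by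
    apply mul_le_mul_of_nonneg_left _ (by positivity)
    exact mul_le_mul_of_nonneg_right (by linarith) (by positivity)
  have a9 : (k : ℝ) * ((k + 2) * x₀) ≤ (k + 1) * ((k + 2) * x₀) := mul_le_mul_of_nonneg_right (by linarith) (by positivity)
  have e1 : ((k : ℝ) + 1) * ((1 - x) * ((1 - x) ^ (2 * k + 1) * Y - (k + 2) * x₀)) =
      (k + 1) * ((1 - x) * (1 - x) ^ (2 * k + 1)) * Y - (k + 1) * ((1 - x) * ((k + 2) * x₀)) := by ring
  have e2 : (k : ℝ) * ((1 + x) ^ (2 * k + 3) * Y + (k + 2) * x₀) = k * (1 + x) ^ (2 * k + 3) * Y + k * ((k + 2) * x₀) := by ring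
  have e3 : 2 * ((k : ℝ) + 1) * (k + 2) * x₀ = (k + 1) * (1 * ((k + 2) * x₀)) + (k + 1) * ((k + 2) * x₀) := by ring
  rw [e1] at a3
  rw [e2] at a4
  rw [e3]
  linarith

/-- the final computation, second part -/
lemma calc2H {k : ℕ} {ε₂ ε D c0 CTT x₀ T Cn ns : ℝ} (hε : 0 < ε) (hε₂ : 0 < ε₂)
    (hD : 0 < D) (hc0 : 0 < c0) (hCT : c0 ≤ CTT)
    (hee : 2 * ε₂ * (2 ^ (k + 1) / (k + 2)) ≤ ε / 2) (hx0 : 2 * (k + 1) * (k + 2) * x₀ ≤ ε₂ * (c0 * D)) (hns : ns ≤ ε / 2 * (c0 * D))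
    (hT : (1 - ε₂) * CTT * D - 2 * (k + 1) * (k + 2) * x₀ ≤ T)
    (hC : T ≤ (1 / 2) ^ (k + 1) * (k + 2) * (Cn + ns)) :
    (2 ^ (k + 1) / (k + 2) - ε) * CTT * D ≤ Cn := by
  have h1 : c0 * D ≤ CTT * D := mul_le_mul_of_nonneg_right hCT hD.le
  have h2 : (1 - 2 * ε₂) * (CTT * D) ≤ T := by
    have : ε₂ * (c0 * D) ≤ ε₂ * (CTT * D) := mul_le_mul_of_nonneg_left h1 hε₂.le
    linarith
  obtain ⟨q, hq⟩ : ∃ q : ℝ, q = 2 ^ (k + 1) / (k + 2) := ⟨_, rfl⟩
  have hq0 : 0 < q := by rw [hq]; positivity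
  have h3 : q * T ≤ Cn + ns := by
    have h4 := mul_le_mul_of_nonneg_left hC hq0.le
    refine h4.trans (le_of_eq ?_)
    rw [hq, one_div, inv_pow]
    field_simp
  have h5 : q * ((1 - 2 * ε₂) * (CTT * D)) ≤ Cn + ns := (mul_le_mul_of_nonneg_left h2 hq0.le).trans h3
  have h6 : ε / 2 * (c0 * D) ≤ ε / 2 * (CTT * D) := mul_le_mul_of_nonneg_left h1 (by positivity)
  have hCD : 0 ≤ CTT * D := by
    have : 0 < CTT := by linarith
    positivity
  rw [← hq] at hee ⊢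
  have h7 : 2 * ε₂ * q * (CTT * D) ≤ ε / 2 * (CTT * D) := mul_le_mul_of_nonneg_right hee hCD
  have e : (q - ε) * CTT * D = q * ((1 - 2 * ε₂) * (CTT * D)) + 2 * ε₂ * q * (CTT * D) - ε * (CTT * D) := by ring
  rw [e]
  linarith

end Pool.Agent.H528.HCmb
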