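import Mathlib
import Pool.Agent.H528.StA
import Pool.Agent.H528.UpLo
import Pool.Agent.H528.HCmb
import Pool.Graph.R_pool_sql_team_seeded_1acbe0a2.Y822.Q.Stm
import Pool.Graph.R_pool_sql_team_seeded_1acbe0a2.Y822.Q.Cmb
import Pool.Graph.R_pool_sql_team_seeded_1acbe0a2.Y822.Q.Main

/-! Half of the members of almost all tuples are primes, the others products of two primes. -/

set_option autoImplicit false

namespace Pool.Agent.H528.Half

open Finset Filter Topology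
open Pool.Agent.Y822
open Pool.Agent.Y822.Q (PrmStm IntStm few_bad2 sum_ro Vz_pos)
open Pool.Agent.Y822.Par3
open Pool.Agent.H373R2.T7 (pz Vz mem_pz)
open Pool.Agent.H387R2.Uni (nuT Adm locT CT)
open Pool.Agent.H528.Gam Pool.Agent.H528.Avg Pool.Agent.H528.Cst Pool.Agent.H528.UpLo Pool.Agent.H528.HCmb

open Classical in
/-- **half of the members are primes** -/
theorem half (PRM : PrmStm) (INT : IntStm) (k : ℕ) (hk : 1 ≤ k) (ε : ℝ) (hε : 0 < ε) : ∃ δ : ℝ, 1 / 2 ≤ δ ∧ δ < 1 ∧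
    ∃ ξ : ℝ, 0 < ξ ∧ ξ ≤ 1 / 8 ∧ ξ ≤ ε ∧ ∃ B : ℕ, ∀ᶠ N : ℕ in atTop,
    ∀ A : Finset ℕ, (∀ a ∈ A, 1 ≤ a ∧ a ≤ N) → ∀ Bad : Finset (Finset ℕ),
    (∀ H ∈ Bad, H ∈ A.powersetCard (k + 1) ∧ Adm H ∧
      (cntH H (zN ξ N) N : ℝ) < (2 ^ (k + 1) / (k + 2) - ε) * CT H * (N / Real.log N ^ (k + 1))) →
    (Bad.card : ℝ) ≤ A.card.choose k * ((N : ℝ) ^ δ * Real.log N ^ B) := by
  obtain ⟨q, hq⟩ : ∃ q : ℝ, q = 2 ^ (k + 1) / (k + 2) := ⟨_, rfl⟩
  have hq0 : 0 < q := by rw [hq]; positivity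
  obtain ⟨ε₂, hε₂⟩ : ∃ ε₂ : ℝ, ε₂ = min (min 1 (ε / (4 * q))) ε := ⟨_, rfl⟩
  have hε₂0 : 0 < ε₂ := by rw [hε₂]; exact lt_min (lt_min one_pos (by positivity)) hε
  have hε₂1 : ε₂ ≤ 1 := by rw [hε₂]; exact (min_le_left _ _).trans (min_le_left _ _)
  have hε₂q : ε₂ ≤ ε / (4 * q) := by rw [hε₂]; exact (min_le_left _ _).trans (min_le_right _ _)
  have hε₂ε : ε₂ ≤ ε := by rw [hε₂]; exact min_le_right _ _
  have hee : 2 * ε₂ * (2 ^ (k + 1) / (k + 2)) ≤ ε / 2 := by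
    rw [← hq]
    rw [le_div_iff₀ (by positivity)] at hε₂q
    linarith
  obtain ⟨x, hx, hx8, hxε, hI⟩ := exists_xH k ε₂ hε₂0
  obtain ⟨δ, hδ1, hδ2, ε₁, hε₁, hε₁x, κ, hκ, hκ1, C, STEP⟩ := StA.stA x hx hx8 (k + 3) (by omega)
  obtain ⟨c0, hc0, hlow⟩ := PT_low k
  have hprm := PRM k κ x (k + 3) hκ hκ1 hx (by linarith)
  have hint := INT k κ x (k + 3) hκ hκ1 hx (by linarith)
  refine ⟨δ, hδ1, hδ2, ε₁, hε₁, by linarith, by linarith, C + 1, ?_⟩
  have e1 := ev_logN (eventually_ge_atTop (max (max 4 ((2 : ℝ) ^ k + k ^ 2 * 2 ^ (k - 1)))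
    (max (max (2 * (k + 1) * (k + 2) / (ε₂ * c0)) (2 / (ε * c0))) (max (4 * ((k : ℝ) + 1) ^ 3 / x) (Real.log 2 / x)))))
  have e2 := ev_logN (ev_pow_exp (k + 3) (ε₁ / 2) (3 * (k + 1)) (by positivity))
  have e3 : ∀ᶠ N : ℕ in atTop, ((k + 3 : ℕ) : ℝ) * Real.log (Real.log N) ≤ x * Real.log N := by
    apply ev_logN (P := fun L => ((k + 3 : ℕ) : ℝ) * Real.log L ≤ x * L)
    have h1 := (Real.isLittleO_log_id_atTop).def (c := x / (k + 3)) (by positivity)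
    filter_upwards [h1, eventually_ge_atTop 1] with L hL hL1
    rw [Real.norm_of_nonneg (Real.log_nonneg hL1), Real.norm_of_nonneg (show 0 ≤ id L by simpa using by linarith)] at hL
    simp only [id] at hL
    rw [div_mul_eq_mul_div, le_div_iff₀ (by positivity)] at hL
    push_cast
    linarith
  have e4 := ev_logN (ev_pow_exp (k + 3) (1 / 2) 1 (by norm_num))
  filter_upwards [STEP, hprm, hint, yN_facts κ hκ hκ1 3 1, e1, e2, e3, e4, eventually_ge_atTop 3]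
    with N hstep hprm hint hyf f1 f2 f3 f4 hN3
  intro A hA Bad hBad
  obtain ⟨u, Z, hu0, hu1, huL, huU, w2, hzb, hst, hfew⟩ := hstep
  obtain ⟨y1, y2, y3, y4, y5⟩ := hyf
  obtain ⟨z₀, hz₀⟩ : ∃ z₀ : ℕ, z₀ = zN ε₁ N := ⟨_, rfl⟩
  rw [← hz₀] at hst hBad hzb
  set y := yN κ N with hy
  set L := Real.log N with hLd
  have hN0 : (0 : ℝ) < N := by positivity
  have hL4 : 4 ≤ L := ((le_max_left _ _).trans (le_max_left _ _)).trans f1
  have hL2k : (2 : ℝ) ^ k + k ^ 2 * 2 ^ (k - 1) ≤ L := ((le_max_right _ _).trans (le_max_left _ _)).trans f1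
  have hLa : 2 * (k + 1) * (k + 2) / (ε₂ * c0) ≤ L :=
    (((le_max_left _ _).trans (le_max_left _ _)).trans (le_max_right _ _)).trans f1
  have hLb : 2 / (ε * c0) ≤ L := (((le_max_right _ _).trans (le_max_left _ _)).trans (le_max_right _ _)).trans f1
  have hLk : 4 * ((k : ℝ) + 1) ^ 3 / x ≤ L :=
    (((le_max_left _ _).trans (le_max_right _ _)).trans (le_max_right _ _)).trans f1
  have hL2x : Real.log 2 / x ≤ L := (((le_max_right _ _).trans (le_max_right _ _)).trans (le_max_right _ _)).trans f1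
  have hL0 : 0 < L := by linarith
  have hL1 : 1 ≤ L := by linarith
  have hlog2 : Real.log 2 ≤ x * L := by
    rw [div_le_iff₀ hx] at hL2x
    linarith
  have hNe : (N : ℝ) = Real.exp L := by rw [hLd, Real.exp_log hN0]
  have hz₀e : Real.exp (ε₁ / 2 * L) ≤ z₀ := by
    have h1 : (N : ℝ) ^ (ε₁ / 2) = Real.exp (ε₁ / 2 * L) := by
      rw [Real.rpow_def_of_pos hN0, ← hLd, mul_comm]
    rw [← h1]
    exact hzb
  have hz₀1 : 1 ≤ z₀ := by
    have h1 : (0 : ℝ) < z₀ := lt_of_lt_of_le (Real.exp_pos _) hz₀e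
    exact_mod_cast h1
  have hz₀0 : (0 : ℝ) < z₀ := by exact_mod_cast hz₀1
  obtain ⟨x₀, hx₀⟩ : ∃ x₀ : ℝ, x₀ = N / L ^ (k + 3) := ⟨_, rfl⟩
  have hx₀0 : 0 ≤ x₀ := by rw [hx₀]; positivity
  rw [← hx₀] at hst hfew hprm hint
  have hz₀E : (z₀ : ℝ) ≤ x₀ := by
    have h1 : (z₀ : ℝ) ≤ Real.exp (1 / 2 * L) := by
      rw [hz₀]
      refine (zN_lt (by omega)).le.trans ?_
      rw [Real.rpow_def_of_pos hN0, ← hLd, mul_comm]
      apply Real.exp_le_exp.2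
      exact mul_le_mul_of_nonneg_right (by linarith) hL0.le
    refine h1.trans ?_
    rw [hx₀, le_div_iff₀ (by positivity)]
    rw [one_mul] at f4
    calc Real.exp (1 / 2 * L) * L ^ (k + 3) ≤ Real.exp (1 / 2 * L) * Real.exp (1 / 2 * L) :=
          mul_le_mul_of_nonneg_left f4 (Real.exp_pos _).le
      _ = N := by rw [← Real.exp_add, hNe]; congr 1; ring
  have hns : ((k : ℝ) + 1) * (3 * N / z₀) ≤ x₀ := by
    rw [hx₀, ← mul_div_assoc, div_le_div_iff₀ hz₀0 (by positivity)]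
    have h1 := f2.trans hz₀e
    calc ((k : ℝ) + 1) * (3 * N) * L ^ (k + 3) = N * (3 * (k + 1) * L ^ (k + 3)) := by ring
      _ ≤ N * z₀ := mul_le_mul_of_nonneg_left h1 hN0.le
  obtain ⟨Z', hZ'⟩ : ∃ Z' : (ℕ → ℝ) → ℕ → ℝ, Z' = fun f t => if t ≤ N then Z f t else x₀ + 1 := ⟨_, rfl⟩
  have hfew' : ∀ f : ℕ → ℝ, (∀ n, |f n| ≤ 1) → ∀ S : Finset ℕ, (∀ a ∈ S, a ≤ N ∧ x₀ < Z' f a) →
      (S.card : ℝ) ≤ (N : ℝ) ^ δ * L ^ C := by
    intro f hf S hS
    refine hfew f hf S fun a ha => ⟨(hS a ha).1, ?_⟩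
    obtain ⟨g1, g2⟩ := hS a ha
    rw [hZ'] at g2
    simp only [if_pos g1] at g2
    exact g2
  have hstepU : ∀ f : ℕ → ℝ, (∀ n, 0 ≤ f n ∧ f n ≤ 1) → ∀ h : ℕ, Z' f h ≤ x₀ →
      ∑ n ∈ Icc 1 N, f n * gG z₀ N (n + h) ≤ ((1 + x) * u) * ∑ n ∈ Icc 1 N, f n * ro y (n + h) + x₀ := by
    intro f hf t hZt
    rw [hZ'] at hZt
    simp only at hZt
    split_ifs at hZt with h3
    · have h4 := (abs_le.1 (hst f hf t h3 hZt)).2
      linarith
    · linarith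
  have hstepL : ∀ f : ℕ → ℝ, (∀ n, 0 ≤ f n ∧ f n ≤ 1) → ∀ h : ℕ, Z' f h ≤ x₀ →
      ((1 - x) * u) * ∑ n ∈ Icc 1 N, f n * ro y (n + h) - x₀ ≤ ∑ n ∈ Icc 1 N, f n * gG z₀ N (n + h) := by
    intro f hf t hZt
    rw [hZ'] at hZt
    simp only at hZt
    split_ifs at hZt with h3
    · have h4 := (abs_le.1 (hst f hf t h3 hZt)).1
      linarith
    · linarith
  have hone : ∀ n : ℕ, (0 : ℝ) ≤ (fun _ : ℕ => (1 : ℝ)) n ∧ (fun _ : ℕ => (1 : ℝ)) n ≤ 1 :=
    fun n => ⟨zero_le_one, le_rfl⟩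
  have heP : ∀ i n : ℕ, 0 ≤ (fun (i n : ℕ) => eP (n + i)) i n ∧ (fun (i n : ℕ) => eP (n + i)) i n ≤ 1 :=
    fun i n => eP_bd _
  have hg : ∀ m, 0 ≤ gG z₀ N m ∧ gG z₀ N m ≤ 1 := gG_bd (by omega)
  -- the weight at the primes
  have hgP : ∀ m : ℕ, m ≤ 2 * N → m.Prime → x₀ < m → (1 - x) / 2 ≤ gG z₀ N m := by
    intro m hm2 hmp hmE
    have hzm : z₀ < m := by
      have : (z₀ : ℝ) < m := lt_of_le_of_lt hz₀E hmE
      exact_mod_cast this
    refine gG_prime (by omega) hmp hm2 hzm hx.le (by linarith) ?_ ?_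
    · have h3 : Real.log x₀ ≤ Real.log m := Real.log_le_log (by rw [hx₀]; positivity) hmE.le
      rw [hx₀, Real.log_div hN0.ne' (by positivity), Real.log_pow, ← hLd] at h3
      linarith
    · have h3 : Real.log m ≤ Real.log (2 * N) := Real.log_le_log (by exact_mod_cast hmp.pos) (by exact_mod_cast hm2)
      rw [Real.log_mul (by norm_num) hN0.ne', ← hLd] at h3
      linarith
  obtain ⟨j, rfl⟩ : ∃ j, k = j + 1 := ⟨k - 1, by omega⟩
  -- bad sets are not good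
  have hbad : ∀ H ∈ Bad, H ∈ A.powersetCard (j + 2) ∧
      ¬ (Good (fun _ => (1 : ℝ)) (gG z₀ N) (ro y) Z' x₀ H ∧
        ∀ i ∈ H, Good ((fun (i n : ℕ) => eP (n + i)) i) (gG z₀ N) (ro y) Z' x₀ (H.erase i)) := by
    intro H hH
    obtain ⟨b1, b2, b3⟩ := hBad H hH
    refine ⟨b1, fun hgood => ?_⟩
    obtain ⟨good0, goodi⟩ := hgood
    rw [mem_powersetCard] at b1
    have hHc : H.card = j + 1 + 1 := b1.2
    have hHN : ∀ h ∈ H, h ≤ N := fun h hh => (hA h (b1.1 hh)).2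
    obtain ⟨c1, c2⟩ := hlow H hHc b2
    have hCP : CT H ≤ (1 + x) * PT H y := by
      refine CT_le1 (k := j + 1) (L := L) hx (by linarith) hLd hL1 w2 y3 hLk hHc hHN
    -- the sum of all the weights
    have hS0 := step_upper (N := N) hx₀0 (mul_nonneg (by linarith) hu0) hu1 hone hg (ro_bd y) hstepU good0 H (subset_refl _)
    have hS0' : ∑ n ∈ Icc 1 N, WH (fun _ => (1 : ℝ)) (gG z₀ N) (ro y) H H n = ∑ n ∈ Icc 1 N, ∏ t ∈ H, gG z₀ N (n + t) := by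
      refine sum_congr rfl fun n _ => ?_
      unfold WH
      rw [Finset.sdiff_self, prod_empty, mul_one, one_mul]
    have hR' : ∑ n ∈ Icc 1 N, WH (fun _ => (1 : ℝ)) (gG z₀ N) (ro y) H ∅ n =
        (((Icc 1 N).filter (fun n => ∀ t ∈ H, Ro y (n + t))).card : ℝ) := by
      have := sum_ro H y N (fun _ => True)
      simp only [if_true, true_and] at this
      rw [← this]
      refine sum_congr rfl fun n _ => ?_
      unfold WH
      rw [prod_empty, one_mul, sdiff_empty]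
    rw [hS0', hR', hHc] at hS0
    -- the sums over primes
    have hSi : ∀ i ∈ H, ((1 - x) * u) ^ (j + 1) *
        (((Icc 1 N).filter (fun n => (n + i).Prime ∧ ∀ t ∈ H.erase i, Ro y (n + t))).card : ℝ) - (j + 1 : ℕ) * x₀ ≤
        ∑ n ∈ Icc 1 N, eP (n + i) * ∏ t ∈ H.erase i, gG z₀ N (n + t) := by
      intro i hi
      have hu1' : (1 - x) * u ≤ 1 := by
        refine le_trans ?_ hu1
        exact mul_le_mul_of_nonneg_right (by linarith) hu0
      have h3 := step_lower (N := N) hx₀0 (mul_nonneg (by linarith) hu0) hu1' (heP i) hg (ro_bd y) hstepL (goodi i hi)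
        (H.erase i) (subset_refl _)
      have h4 : (H.erase i).card = j + 1 := by rw [card_erase_of_mem hi, hHc]; rfl
      rw [h4] at h3
      have h5 : ∑ n ∈ Icc 1 N, WH ((fun (i n : ℕ) => eP (n + i)) i) (gG z₀ N) (ro y) (H.erase i) (H.erase i) n =
          ∑ n ∈ Icc 1 N, eP (n + i) * ∏ t ∈ H.erase i, gG z₀ N (n + t) := by
        refine sum_congr rfl fun n _ => ?_
        unfold WH
        rw [Finset.sdiff_self, prod_empty, mul_one]
      have h6 : ∑ n ∈ Icc 1 N, WH ((fun (i n : ℕ) => eP (n + i)) i) (gG z₀ N) (ro y) (H.erase i) ∅ n =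
          (((Icc 1 N).filter (fun n => (n + i).Prime ∧ ∀ t ∈ H.erase i, Ro y (n + t))).card : ℝ) := by
        refine Eq.trans ?_ ((sum_ro (H.erase i) y N (fun n => (n + i).Prime)).trans (by congr!))
        refine sum_congr rfl fun n _ => ?_
        unfold WH eP
        simp only [prod_empty, one_mul, sdiff_empty]
        by_cases hpn : (n + i).Prime
        · simp [hpn]
        · simp [hpn]
      rw [h5, h6] at h3
      exact h3
    -- the comparison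
    have hTg := T_geH (k := j + 1) (N := N) (x := x) (E := x₀) hg hx.le (by linarith) hx₀0 hgP H hHN
    have hTl := T_leH (z := z₀) (N := N) (k := j + 1) (by linarith) (by omega) hz₀1 H hHc (fun t ht => hA t (b1.1 ht))
    obtain ⟨T, hTd⟩ : ∃ T : ℝ, T = ∑ n ∈ Icc 1 N, (∏ t ∈ H, gG z₀ N (n + t)) *
      (2 * (∑ i ∈ H, eP (n + i)) - ((j + 1 : ℕ) : ℝ)) := ⟨_, rfl⟩
    rw [← hTd] at hTg hTl
    -- all the sums over primes are at least `S`
    obtain ⟨P, hP⟩ : ∃ P : ℝ, P = (1 - x) * (N / L * (PT H y * Vz y ^ (j + 1))) - x₀ := ⟨_, rfl⟩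
    obtain ⟨S, hS⟩ : ∃ S : ℝ, S = ((1 - x) * u) ^ (j + 1) * P - (j + 1 : ℕ) * x₀ := ⟨_, rfl⟩
    have hSle : ∀ i ∈ H, S ≤ ∑ n ∈ Icc 1 N, eP (n + i) * ∏ t ∈ H.erase i, gG z₀ N (n + t) := by
      intro i hi
      refine le_trans ?_ (hSi i hi)
      rw [hS]
      apply sub_le_sub_right
      apply mul_le_mul_of_nonneg_left _ (pow_nonneg (mul_nonneg (by linarith) hu0) _)
      rw [hP]
      exact hprm H hHc hHN i hi
    have hsumS : ((j + 1 : ℕ) + 1 : ℝ) * ((1 - x) * (S - x₀)) ≤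
        ∑ i ∈ H, (1 - x) * (∑ n ∈ Icc 1 N, eP (n + i) * ∏ t ∈ H.erase i, gG z₀ N (n + t) - x₀) := by
      have h3 : ∑ _i ∈ H, (1 - x) * (S - x₀) ≤
          ∑ i ∈ H, (1 - x) * (∑ n ∈ Icc 1 N, eP (n + i) * ∏ t ∈ H.erase i, gG z₀ N (n + t) - x₀) := by
        refine sum_le_sum fun i hi => ?_
        apply mul_le_mul_of_nonneg_left _ (by linarith)
        exact sub_le_sub_right (hSle i hi) _
      rw [sum_const, hHc, nsmul_eq_mul] at h3
      push_cast at h3 ⊢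
      exact h3
    have hRb := (abs_le.1 (hint H hHc)).2
    have key := calc1H (k := j + 1) (x := x) (ε := ε₂) (n := N) (L := L) (u := u) (V := Vz y) (PT := PT H y)
      (CTT := CT H) (x₀ := x₀) (S := S) (S0 := ∑ n ∈ Icc 1 N, ∏ t ∈ H, gG z₀ N (n + t)) (T := T)
      (R := (((Icc 1 N).filter (fun n => ∀ t ∈ H, Ro y (n + t))).card : ℝ)) (P := P)
      hx hx8 hε₂1 hI hN0 hL1 hu0 hu1 (Vz_pos y).le (PT_nonneg _ _) hCP hx₀0 huL huU
      (by linarith) (by rw [hP]) (by rw [hS]) (by push_cast at hS0 ⊢; linarith)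
      (by push_cast at hTg hsumS ⊢; linarith)
    have hD0 : 0 < (N : ℝ) / L ^ (j + 1 + 1) := by positivity
    have hxD : x₀ * L ≤ N / L ^ (j + 1 + 1) := by
      rw [hx₀, show j + 1 + 3 = (j + 1 + 1) + 2 by ring, pow_add L (j + 1 + 1) 2]
      have e : (N : ℝ) / (L ^ (j + 1 + 1) * L ^ 2) * L = N / L ^ (j + 1 + 1) / L := by field_simp
      rw [e]
      exact div_le_self (by positivity) hL1
    have hxa : 2 * (((j + 1 : ℕ) : ℝ) + 1) * (((j + 1 : ℕ) : ℝ) + 2) * x₀ ≤ ε₂ * (c0 * (N / L ^ (j + 1 + 1))) := by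
      rw [div_le_iff₀ (by positivity)] at hLa
      have h3 := mul_le_mul_of_nonneg_right hLa hx₀0
      refine h3.trans ?_
      have h4 : ε₂ * c0 * (x₀ * L) ≤ ε₂ * c0 * (N / L ^ (j + 1 + 1)) := mul_le_mul_of_nonneg_left hxD (by positivity)
      linarith
    have hxb : (((j + 1 : ℕ) : ℝ) + 1) * (3 * N / z₀) ≤ ε / 2 * (c0 * (N / L ^ (j + 1 + 1))) := by
      refine hns.trans ?_
      rw [div_le_iff₀ (by positivity)] at hLb
      have h3 := mul_le_mul_of_nonneg_right hLb hx₀0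
      have h4 : ε * c0 * (x₀ * L) ≤ ε * c0 * (N / L ^ (j + 1 + 1)) := mul_le_mul_of_nonneg_left hxD (by positivity)
      linarith
    have hfin := calc2H (k := j + 1) (ε₂ := ε₂) (ε := ε) (D := N / L ^ (j + 1 + 1)) (c0 := c0) (CTT := CT H) (x₀ := x₀)
      (T := T) (Cn := (cntH H z₀ N : ℝ)) (ns := (((j + 1 : ℕ) : ℝ) + 1) * (3 * N / z₀)) hε hε₂0 hD0 hc0 c2 hee hxa hxb
      key hTl
    linarith
  have hfinal := few_bad2 (N := N) (K := (N : ℝ) ^ δ * L ^ C) (by positivity) heP hg (ro_bd y) hfew' j A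
    (fun a ha => (hA a ha).2) Bad hbad
  refine hfinal.trans (mul_le_mul_of_nonneg_left ?_ (Nat.cast_nonneg _))
  have h3 : (((j + 1 : ℕ) : ℝ)) = (j : ℝ) + 1 := by push_cast; ring
  rw [h3] at hL2k
  calc ((2 : ℝ) ^ (j + 1) + ((j : ℝ) + 1) ^ 2 * 2 ^ j) * ((N : ℝ) ^ δ * L ^ C) ≤ L * ((N : ℝ) ^ δ * L ^ C) :=
        mul_le_mul_of_nonneg_right hL2k (by positivity)
    _ = (N : ℝ) ^ δ * L ^ (C + 1) := by rw [pow_succ]; ring

end Pool.Agent.H528.Half
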