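import Pool.Agent.H530.HyD

/-! The Liouville function with conditions modulo squares on a sifted set (adapted from `Pool.Agent.H530.HyD` of
helper530). -/

set_option autoImplicit false

namespace Pool.Agent.H528.Lio

open Finset Filter Pool.Agent.H530.Ha
open Pool.Agent.H373R2.T7 hiding RQ

open Classical in
/-- the Liouville function with a periodic condition -/
theorem per_lz (k : ℕ) (hk : 1 ≤ k) (M : ℕ) (hM1 : 1 ≤ M) (e : ℝ) (he : 0 < e) : ∃ K : ℕ, 1 ≤ K ∧ ∀ B' : ℕ,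
    ∃ X0 y0 : ℕ, ∀ Q : ℕ → ℕ → Prop, Sv k Q → ∀ X y : ℕ, X0 ≤ X → y0 ≤ y → y ^ K ≤ X →
      ∀ g : ℕ → Prop, (∀ n c : ℕ, n ≡ c [MOD M] → (g n ↔ g c)) →
      ∀ (a : ℕ) (b : ℤ), 1 ≤ a → (a : ℝ) ≤ Real.log X ^ B' → |(b : ℝ)| ≤ X * Real.log X ^ B' →
        |∑ n ∈ RQ Q X y, (if g n then lz (a * n + b) else 0)| ≤
          e * (RQ Q X y).card + X / Real.log X ^ (k + 1) := by
  classical
  obtain ⟨c0, hc0, H0⟩ := all_F k hk
  obtain ⟨K, hK, H0⟩ := H0 e he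
  refine ⟨2 * K, by omega, fun B' => ?_⟩
  obtain ⟨X0, y0, H0⟩ := H0 (2 * B' + 1)
  obtain ⟨X1, hX1⟩ := ev_L' (4 * M + 4)
  obtain ⟨X2, hX2⟩ := ev_log' (k + 1) M
  refine ⟨X0 ^ 2 + X1 + X2 + (4 * M) ^ 2 + 16, y0, ?_⟩
  intro Q hQ X y hX hy hyX g hg a b ha haX hbX
  have hXr : (16 : ℝ) ≤ X := by exact_mod_cast (by omega : 16 ≤ X)
  have hs4 : (4 : ℝ) ≤ √(X : ℝ) := by
    apply Real.le_sqrt_of_sq_le
    linarith
  have hss : √(X : ℝ) * √(X : ℝ) = X := Real.mul_self_sqrt (by linarith)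
  obtain ⟨L, hL⟩ : ∃ L : ℝ, L = Real.log X := ⟨_, rfl⟩
  have hLM := hX1 X (by omega)
  have hlog := hX2 X (by omega)
  rw [← hL] at hLM hlog haX hbX ⊢
  have hMr : (1 : ℝ) ≤ M := by exact_mod_cast hM1
  have hL4 : 4 ≤ L := by linarith
  have hMs : 4 * (M : ℝ) ≤ √(X : ℝ) := by
    apply Real.le_sqrt_of_sq_le
    exact_mod_cast (by omega : (4 * M) ^ 2 ≤ X)
  have hMX : M ≤ X := by
    have h1 : (M : ℝ) ≤ X := by nlinarith
    exact_mod_cast h1
  -- one class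
  have hcls : ∀ c ∈ range M, |∑ n ∈ (RQ Q X y).filter (fun n => n ≡ c [MOD M]),
      (if g n then lz (a * n + b) else 0)| ≤
      e * ((RQ Q X y).filter (fun n => n ≡ c [MOD M])).card + 1 := by
    intro c hc
    rw [mem_range] at hc
    have hiff : ∀ n ∈ (RQ Q X y).filter (fun n => n ≡ c [MOD M]),
        (g n ↔ g c) := by
      intro n hn
      rw [mem_filter] at hn
      exact hg n c hn.2
    by_cases hgood : g c
    · rw [sum_congr rfl (fun n hn => if_pos ((hiff n hn).2 hgood))]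
      apply class_RQ_sum hQ hM1 hc hMX (fun n => lz (a * n + b)) (fun n => lz_abs _) he.le
      obtain ⟨X', hX'⟩ : ∃ X', X' = (X - c) / M := ⟨_, rfl⟩
      rw [← hX']
      have hX'l : √(X : ℝ) ≤ X' := by
        have h2 : X - c < M * (X' + 1) := by
          rw [hX']
          exact Nat.lt_mul_div_succ _ (by omega)
        have h3 : X < M * (X' + 2) := by
          have h4 : M * (X' + 2) = M * (X' + 1) + M := by ring
          omega
        have h5 : (X : ℝ) < M * (X' + 2) := by exact_mod_cast h3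
        by_contra hcon
        push Not at hcon
        have h6 : (M : ℝ) * (X' + 2) ≤ (√(X : ℝ) / 4) * (√(X : ℝ) + 2) := by
          apply mul_le_mul (by linarith) (by linarith) (by positivity) (by positivity)
        nlinarith
      have hX0' : X0 ≤ X' := by
        have h2 : (X0 : ℝ) ≤ √(X : ℝ) := by
          apply Real.le_sqrt_of_sq_le
          exact_mod_cast (by omega : X0 ^ 2 ≤ X)
        exact_mod_cast h2.trans hX'l
      have hyX' : y ^ K ≤ X' := by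
        have h2 : ((y ^ K : ℕ) : ℝ) ≤ √(X : ℝ) := by
          apply Real.le_sqrt_of_sq_le
          have : (y ^ K) ^ 2 ≤ X := by rw [← pow_mul, mul_comm K 2]; exact hyX
          exact_mod_cast this
        exact_mod_cast h2.trans hX'l
      obtain ⟨_, _, h4⟩ := H0 (Qc Q M c) (sv_Qc hQ _ _) X' y hX0' hy hyX'
      -- the logarithms
      have hLL : L ≤ 2 * Real.log X' := by
        have h5 : Real.log (√(X : ℝ)) ≤ Real.log X' := Real.log_le_log (by linarith) hX'l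
        rw [Real.log_sqrt (by linarith)] at h5
        rw [hL]
        linarith
      obtain ⟨L', hL'⟩ : ∃ L', L' = Real.log X' := ⟨_, rfl⟩
      rw [← hL'] at hLL h4
      have hL'M : 2 * (M : ℝ) + 2 ≤ L' := by linarith
      have hL'1 : 2 ≤ L' := by linarith
      have hLB : L ^ B' ≤ L' ^ (2 * B') := by
        calc L ^ B' ≤ (L' ^ 2) ^ B' := by
              apply pow_le_pow_left₀ (by linarith)
              nlinarith
          _ = _ := by rw [← pow_mul]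
      have hLB1 : (1 : ℝ) ≤ L' ^ (2 * B') := one_le_pow₀ (by linarith)
      have h6 := h4 (a * M) ((a : ℤ) * c + b) (Nat.mul_pos ha hM1) (by
        push_cast
        rw [pow_succ]
        exact mul_le_mul (haX.trans hLB) (by linarith) (by linarith) (by positivity)) (by
        push_cast
        refine (abs_add_le _ _).trans ?_
        rw [abs_of_nonneg (by positivity : (0 : ℝ) ≤ a * c)]
        have h7 : (a : ℝ) * c ≤ L' ^ (2 * B') * M := by
          apply mul_le_mul (haX.trans hLB) (by exact_mod_cast hc.le) (Nat.cast_nonneg _) (by positivity)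
        have h8 : (X : ℝ) ≤ M * (X' + 2) := by
          have h2 : X - c < M * (X' + 1) := by
            rw [hX']
            exact Nat.lt_mul_div_succ _ (by omega)
          have h3 : X < M * (X' + 2) := by
            have h4 : M * (X' + 2) = M * (X' + 1) + M := by ring
            omega
          exact_mod_cast h3.le
        have hX'2 : (2 : ℝ) ≤ X' := by linarith
        have h9 : |(b : ℝ)| ≤ M * (X' + 2) * L' ^ (2 * B') :=
          hbX.trans (mul_le_mul h8 hLB (by positivity) (by positivity))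
        have h10 : L' ^ (2 * B') * M + M * (X' + 2) * L' ^ (2 * B') ≤ X' * L' ^ (2 * B' + 1) := by
          rw [pow_succ]
          have h11 : (M : ℝ) * (X' + 3) ≤ X' * L' := by nlinarith
          nlinarith
        linarith)
      refine le_trans (le_of_eq ?_) h6
      congr 1
      apply sum_congr rfl
      intro j _
      congr 1
      push_cast
      ring
    · rw [sum_congr rfl (fun n hn => if_neg (fun h => hgood ((hiff n hn).1 h)))]
      rw [sum_const_zero, abs_zero]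
      positivity
  -- all classes
  have hsplit : ∀ F : ℕ → ℝ, ∑ n ∈ RQ Q X y, F n = ∑ c ∈ range M, ∑ n ∈ (RQ Q X y).filter (fun n => n ≡ c [MOD M]), F n := by
    intro F
    rw [← sum_fiberwise_of_maps_to (g := fun n => n % M) (t := range M)
      (fun n _ => mem_range.2 (Nat.mod_lt _ (by omega)))]
    apply sum_congr rfl
    intro c hc
    apply sum_congr _ (fun _ _ => rfl)
    apply filter_congr
    intro n _
    unfold Nat.ModEq
    rw [Nat.mod_eq_of_lt (mem_range.1 hc)]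
  rw [hsplit]
  refine (abs_sum_le_sum_abs _ _).trans ((sum_le_sum hcls).trans ?_)
  rw [sum_add_distrib, ← mul_sum, sum_const, card_range, nsmul_eq_mul, mul_one]
  have h1 : ∑ c ∈ range M, (((RQ Q X y).filter (fun n => n ≡ c [MOD M])).card : ℝ) = (RQ Q X y).card := by
    have := hsplit (fun _ => 1)
    simp only [sum_const, nsmul_eq_mul, mul_one] at this
    exact this.symm
  rw [h1]
  have h2 : (M : ℝ) ≤ X / L ^ (k + 1) := by
    rw [le_div_iff₀ (by positivity)]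
    have : √(X : ℝ) ≤ X := by nlinarith
    linarith
  linarith


lemma mz_sq (m : ℤ) : mz m ^ 2 = 0 ∨ mz m ^ 2 = 1 := by
  unfold mz
  by_cases h : Squarefree m.natAbs
  · right
    have := ArithmeticFunction.moebius_sq_eq_one_of_squarefree h
    exact_mod_cast this
  · left
    rw [ArithmeticFunction.moebius_eq_zero_of_not_squarefree h]
    norm_num

lemma mz_sq_of {m : ℤ} (h : ∀ p : ℕ, p.Prime → ¬ ((p ^ 2 : ℕ) : ℤ) ∣ m) : mz m ^ 2 = 1 := by
  have hs : Squarefree m.natAbs := by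
    rw [Nat.squarefree_iff_prime_squarefree]
    intro p hp hd
    apply h p hp
    rw [Int.natCast_dvd]
    rw [sq]
    exact hd
  unfold mz
  have := ArithmeticFunction.moebius_sq_eq_one_of_squarefree hs
  exact_mod_cast this

open Classical in
/-- the Liouville function with several squarefree forms, pointwise -/
lemma lz_pt (w : ℕ) (hw : 2 ≤ w) (a n : ℕ) (b : ℤ) (D : Finset ℤ) :
    |lz (a * n + b) * ∏ d ∈ D, mz (a * n + d) ^ 2 -
      (if ∀ p ∈ pz w, ∀ d ∈ D, ¬ ((p ^ 2 : ℕ) : ℤ) ∣ ((a : ℤ) * n + d) then lz (a * n + b) else 0)| ≤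
      ∑ d ∈ D, if ∃ p : ℕ, p.Prime ∧ w < p ∧ ((p ^ 2 : ℕ) : ℤ) ∣ (a : ℤ) * n + d ∧ (a : ℤ) * n + d ≠ 0 then (1 : ℝ) else 0 := by
  classical
  have hnn : 0 ≤ ∑ d ∈ D, if ∃ p : ℕ, p.Prime ∧ w < p ∧ ((p ^ 2 : ℕ) : ℤ) ∣ (a : ℤ) * n + d ∧ (a : ℤ) * n + d ≠ 0 then (1 : ℝ) else 0 := by
    refine sum_nonneg fun d _ => ?_
    split_ifs <;> norm_num
  by_cases hg : ∀ p ∈ pz w, ∀ d ∈ D, ¬ ((p ^ 2 : ℕ) : ℤ) ∣ ((a : ℤ) * n + d)
  · rw [if_pos hg]
    by_cases ht : ∃ d ∈ D, ∃ p : ℕ, p.Prime ∧ w < p ∧ ((p ^ 2 : ℕ) : ℤ) ∣ (a : ℤ) * n + d ∧ (a : ℤ) * n + d ≠ 0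
    · obtain ⟨d, hd, hp⟩ := ht
      have h1 : (1 : ℝ) ≤ ∑ d ∈ D, if ∃ p : ℕ, p.Prime ∧ w < p ∧ ((p ^ 2 : ℕ) : ℤ) ∣ (a : ℤ) * n + d ∧ (a : ℤ) * n + d ≠ 0 then (1 : ℝ) else 0 := by
        refine le_trans ?_ (single_le_sum (f := fun d => if ∃ p : ℕ, p.Prime ∧ w < p ∧ ((p ^ 2 : ℕ) : ℤ) ∣ (a : ℤ) * n + d ∧ (a : ℤ) * n + d ≠ 0 then (1 : ℝ) else 0) (fun d _ => ?_) hd)
        · rw [if_pos hp]
        · split_ifs <;> norm_num
      refine le_trans ?_ h1
      have h2 : ∏ d ∈ D, mz (a * n + d) ^ 2 = 0 ∨ ∏ d ∈ D, mz (a * n + d) ^ 2 = 1 := by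
        by_cases h3 : ∀ d ∈ D, mz ((a : ℤ) * n + d) ^ 2 = 1
        · exact Or.inr (prod_eq_one h3)
        · push Not at h3
          obtain ⟨d', hd', h4⟩ := h3
          exact Or.inl (prod_eq_zero hd' ((mz_sq _).resolve_right h4))
      have h3 := lz_abs ((a : ℤ) * n + b)
      rcases h2 with h2 | h2
      · rw [h2, mul_zero, zero_sub, abs_neg]
        exact h3
      · rw [h2, mul_one, sub_self, abs_zero]
        norm_num
    · push Not at ht
      have h1 : ∏ d ∈ D, mz ((a : ℤ) * n + d) ^ 2 = 1 := by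
        refine prod_eq_one fun d hd => mz_sq_of fun p hp hpd => ?_
        by_cases hpw : p ≤ w
        · exact hg p (mem_pz.2 ⟨hpw, hp⟩) d hd hpd
        · have h2 := ht d hd p hp (by omega) hpd
          apply hg 2 (mem_pz.2 ⟨hw, Nat.prime_two⟩) d hd
          rw [h2]
          exact dvd_zero _
      rw [h1, mul_one, sub_self, abs_zero]
      exact hnn
  · rw [if_neg hg]
    push Not at hg
    obtain ⟨p, hp, d, hd, hpd⟩ := hg
    have h1 : ∏ d ∈ D, mz ((a : ℤ) * n + d) ^ 2 = 0 := by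
      refine prod_eq_zero hd ?_
      rw [mz_eq_zero (mem_pz.1 hp).2 hpd]
      norm_num
    rw [h1, mul_zero, sub_zero, abs_zero]
    exact hnn

open Classical in
/-- **the Liouville function with several squarefree forms on a sifted set** -/
theorem lz_D (k : ℕ) (hk : 1 ≤ k) (s : ℕ) (ε : ℝ) (hε : 0 < ε) : ∃ K : ℕ, 1 ≤ K ∧ ∀ B' : ℕ,
    ∃ X0 y0 : ℕ, ∀ Q : ℕ → ℕ → Prop, Sv k Q → ∀ X y : ℕ, X0 ≤ X → y0 ≤ y → y ^ K ≤ X →
      ∀ (a : ℕ) (b : ℤ), 1 ≤ a → (a : ℝ) ≤ Real.log X ^ B' → |(b : ℝ)| ≤ X * Real.log X ^ B' →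
      ∀ D : Finset ℤ, D.card ≤ s → (∀ d ∈ D, (∀ p : ℕ, p.Prime → p ∣ a → ¬ (p : ℤ) ∣ d) ∧ |(d : ℝ)| ≤ X * Real.log X ^ B') →
        |∑ n ∈ RQ Q X y, lz (a * n + b) * ∏ d ∈ D, mz (a * n + d) ^ 2| ≤ ε * (RQ Q X y).card := by
  obtain ⟨w0, hw0⟩ : ∃ w0 : ℕ, 24 * (s : ℝ) / ε ≤ w0 := exists_nat_ge _
  obtain ⟨w, hw⟩ : ∃ w : ℕ, w = w0 + 2 * k + 2 := ⟨_, rfl⟩
  have hwε : s * (6 / (w : ℝ)) ≤ ε / 4 := by
    have h1 : (w0 : ℝ) ≤ w := by exact_mod_cast (by omega : w0 ≤ w)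
    have h2 : (0 : ℝ) < w := by exact_mod_cast (by omega : 0 < w)
    rw [← mul_div_assoc, div_le_iff₀ h2]
    rw [div_le_iff₀ hε] at hw0
    nlinarith
  obtain ⟨M, hM⟩ : ∃ M : ℕ, M = ∏ p ∈ pz w, p ^ 2 := ⟨_, rfl⟩
  have hM1 : 1 ≤ M := by
    rw [hM]
    exact Nat.pos_of_ne_zero (prod_ne_zero_iff.2 fun p hp => (Nat.pow_pos (mem_pz.1 hp).2.pos).ne')
  have hMd : ∀ p ∈ pz w, p ^ 2 ∣ M := fun p hp => by
    rw [hM]
    exact dvd_prod_of_mem _ hp
  obtain ⟨K1, hK1, H1⟩ := per_lz k hk M hM1 (ε / 4) (by positivity)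
  obtain ⟨K2, hK2, H2⟩ := sq_tail k hk
  obtain ⟨c, hc, H3⟩ := all_F k hk
  obtain ⟨K3, hK3, H3⟩ := H3 1 one_pos
  refine ⟨K1 + K2 + K3, by omega, fun B' => ?_⟩
  obtain ⟨X1, y1, H1⟩ := H1 B'
  obtain ⟨X2, y2, H2⟩ := H2 B'
  obtain ⟨X3, y3, H3⟩ := H3 0
  obtain ⟨X4, hX4⟩ := ev_L' (max 1 (4 * (s + 1) / (c * ε)))
  refine ⟨X1 + X2 + X3 + X4 + 1, y1 + y2 + y3 + 1, ?_⟩
  intro Q hQ X y hX hy hyX a b ha haX hbX D hDs hD
  have h1 := H1 Q hQ X y (by omega) (by omega) ((Nat.pow_le_pow_right (by omega) (by omega)).trans hyX)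
    (fun n => ∀ p ∈ pz w, ∀ d ∈ D, ¬ ((p ^ 2 : ℕ) : ℤ) ∣ ((a : ℤ) * n + d)) (by
      intro n c hnc
      refine forall₂_congr fun p hp => forall₂_congr fun d _ => ?_
      rw [not_iff_not]
      apply form_dvd
      have := hnc.of_dvd (hMd p hp)
      exact Int.natCast_modEq_iff.2 this) a b ha haX hbX
  have h2 : ∀ d ∈ D, _ := fun d hd => H2 Q hQ X y (by omega) (by omega)
    ((Nat.pow_le_pow_right (by omega) (by omega)).trans hyX) w (by omega) (by omega) a d ha (hD d hd).1 haX (hD d hd).2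
  obtain ⟨h3, _, _⟩ := H3 Q hQ X y (by omega) (by omega) ((Nat.pow_le_pow_right (by omega) (by omega)).trans hyX)
  have hl := hX4 X (by omega)
  obtain ⟨L, hL⟩ : ∃ L : ℝ, L = Real.log X := ⟨_, rfl⟩
  obtain ⟨G, hG⟩ : ∃ G : ℝ, G = ((RQ Q X y).card : ℝ) := ⟨_, rfl⟩
  have hG0 : 0 ≤ G := by rw [hG]; exact Nat.cast_nonneg _
  rw [← hL] at h1 h2 h3 hl
  rw [← hG] at h1 h2 h3 ⊢
  have hL1 : 1 ≤ L := (le_max_left _ _).trans hl
  have hLc : 4 * (s + 1) / (c * ε) ≤ L := (le_max_right _ _).trans hl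
  have hXr : (1 : ℝ) ≤ X := by exact_mod_cast (by omega : 1 ≤ X)
  have h4 : ((s : ℝ) + 1) * ((X : ℝ) / L ^ (k + 1)) ≤ ε / 4 * G := by
    rw [div_le_iff₀ (by positivity)] at hLc
    have e1 : ((s : ℝ) + 1) * ((X : ℝ) / L ^ (k + 1)) ≤ ε / 4 * (c * (X / L ^ k)) := by
      have e2 : ε / 4 * (c * (X / L ^ k)) = (L * (c * ε) / 4) * (X / L ^ (k + 1)) := by
        rw [pow_succ]
        field_simp
      rw [e2]
      apply mul_le_mul_of_nonneg_right _ (by positivity)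
      linarith
    refine e1.trans ?_
    apply mul_le_mul_of_nonneg_left h3 (by positivity)
  have h5 : |∑ n ∈ RQ Q X y, lz (a * n + b) * ∏ d ∈ D, mz (a * n + d) ^ 2 -
      ∑ n ∈ RQ Q X y, (if ∀ p ∈ pz w, ∀ d ∈ D, ¬ ((p ^ 2 : ℕ) : ℤ) ∣ ((a : ℤ) * n + d) then lz (a * n + b) else 0)| ≤
      s * (6 / w * G + X / L ^ (k + 1)) := by
    rw [← sum_sub_distrib]
    refine (abs_sum_le_sum_abs _ _).trans ((sum_le_sum fun (n : ℕ) _ => lz_pt w (by omega) a n b D).trans ?_)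
    rw [sum_comm]
    have h6 : ∀ d ∈ D, ∑ n ∈ RQ Q X y, (if ∃ p : ℕ, p.Prime ∧ w < p ∧ ((p ^ 2 : ℕ) : ℤ) ∣ (a : ℤ) * n + d ∧ (a : ℤ) * n + d ≠ 0 then (1 : ℝ) else 0) ≤
        6 / w * G + X / L ^ (k + 1) := by
      intro d hd
      refine le_trans (le_of_eq ?_) (h2 d hd)
      rw [sum_ite, sum_const_zero, add_zero, sum_const, nsmul_eq_mul, mul_one]
    refine (sum_le_sum h6).trans ?_
    rw [sum_const, nsmul_eq_mul]
    apply mul_le_mul_of_nonneg_right _ (by positivity)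
    exact_mod_cast hDs
  have h6 := abs_add_le (∑ n ∈ RQ Q X y, lz (a * n + b) * ∏ d ∈ D, mz (a * n + d) ^ 2 -
      ∑ n ∈ RQ Q X y, (if ∀ p ∈ pz w, ∀ d ∈ D, ¬ ((p ^ 2 : ℕ) : ℤ) ∣ ((a : ℤ) * n + d) then lz (a * n + b) else 0))
      (∑ n ∈ RQ Q X y, (if ∀ p ∈ pz w, ∀ d ∈ D, ¬ ((p ^ 2 : ℕ) : ℤ) ∣ ((a : ℤ) * n + d) then lz (a * n + b) else 0))
  rw [sub_add_cancel] at h6
  have h1' : |∑ n ∈ RQ Q X y, (if ∀ p ∈ pz w, ∀ d ∈ D, ¬ ((p ^ 2 : ℕ) : ℤ) ∣ ((a : ℤ) * n + d) then lz (a * n + b) else 0)| ≤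
      ε / 4 * G + X / L ^ (k + 1) := by
    convert h1
  have h7 : s * (6 / w) * G ≤ ε / 4 * G := mul_le_mul_of_nonneg_right hwε hG0
  have h8 : s * (6 / w * G + X / L ^ (k + 1)) = s * (6 / w) * G + s * (X / L ^ (k + 1)) := by ring
  have h9 : ((s : ℝ) + 1) * ((X : ℝ) / L ^ (k + 1)) = s * (X / L ^ (k + 1)) + X / L ^ (k + 1) := by ring
  rw [h8] at h5
  rw [h9] at h4
  have h10 : 0 ≤ ε / 4 * G := by positivity
  linarith

end Pool.Agent.H528.Lio
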