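import Mathlib
import Pool.Agent.H528.Lio
import Pool.Agent.H528.TupE

/-! The Möbius and Liouville functions and products of `Λ₂`, for almost all sets of shifts. -/

set_option autoImplicit false

namespace Pool.Agent.H528.Lio

open Finset Filter Topology
open Pool.Agent.Y822 Pool.Agent.Y822.Par3
open Pool.Agent.Y822.Q (int0)
open Pool.Agent.H373R2.T7 (pz Vz mem_pz Vz_pos nuB)
open Pool.Agent.H387R2.Uni (nuT Adm locT CT)
open Pool.Agent.H528.UpLo Pool.Agent.H528.Lam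
open Pool.Agent.H528.AsyL Pool.Agent.H528.Gen Pool.Agent.H528.PCnt Pool.Agent.H528.Tup
open Pool.Agent.H530.Ha (Sv RQ lz mz lz_abs mz_abs)

/-- the sieve conditions of a set of shifts -/
def QHH (H : Finset ℕ) (p n : ℕ) : Prop := ∃ h ∈ H, p ∣ n + h

lemma nuB_QHH (H : Finset ℕ) (p : ℕ) (hp : 0 < p) : nuB (QHH H) p ≤ nuT H p := by
  classical
  unfold nuB nuT
  apply card_le_card_of_injOn (fun r => (p - r) % p)
  · intro r hr
    rw [mem_coe, mem_filter, mem_range] at hr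
    obtain ⟨hr1, h, hh, hd⟩ := hr
    rw [mem_coe, mem_image]
    refine ⟨h, hh, ?_⟩
    have h1 : r + h ≡ r + (p - r) [MOD p] := by
      rw [show r + (p - r) = p by omega]
      exact ((Nat.modEq_zero_iff_dvd).2 hd).trans (Nat.modEq_zero_iff_dvd.2 (dvd_refl p)).symm
    exact Nat.ModEq.add_left_cancel' r h1
  · intro r hr s hs hrs
    rw [mem_coe, mem_filter, mem_range] at hr hs
    have h1 : p - r ≡ p - s [MOD p] := hrs
    have h2 := h1.add_right (r + s)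
    have e1 : p - r + (r + s) = p + s := by omega
    have e2 : p - s + (r + s) = p + r := by omega
    rw [e1, e2] at h2
    have h3 := Nat.ModEq.add_left_cancel' p h2
    exact (Nat.ModEq.eq_of_lt_of_lt h3 hs.1 hr.1).symm

lemma sv_QHH {k : ℕ} {H : Finset ℕ} (hH : H.card ≤ k) (hA : Adm H) : Sv k (QHH H) := by
  refine ⟨fun p n => ?_, fun p hp => ?_, fun p hp => ?_⟩
  · unfold QHH
    refine exists_congr fun h => and_congr_right fun _ => ?_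
    have h1 : n + h ≡ n % p + h [MOD p] := ((Nat.mod_modEq n p).symm).add_right h
    rw [← Nat.modEq_zero_iff_dvd, ← Nat.modEq_zero_iff_dvd]
    exact ⟨fun h2 => h1.symm.trans h2, fun h2 => h1.trans h2⟩
  · exact (nuB_QHH H p hp.pos).trans ((nuT_le_card H p).trans hH)
  · have := nuB_QHH H p hp.pos
    have := hA p hp
    omega

lemma RQ_sum (H : Finset ℕ) (N y : ℕ) (f : ℕ → ℝ) :
    ∑ n ∈ RQ (QHH H) N y, f n = ∑ n ∈ Icc 1 N, f n * ∏ h ∈ H, ro y (n + h) := by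
  classical
  unfold RQ
  rw [sum_filter]
  refine sum_congr rfl fun n _ => ?_
  by_cases hr : ∀ h ∈ H, Ro y (n + h)
  · rw [if_pos]
    · rw [prod_eq_one, mul_one]
      intro h hh
      unfold ro
      rw [if_pos (hr h hh)]
    · rintro p hp ⟨h, hh, hd⟩
      exact hr h hh p (mem_pz.1 hp).2 (mem_pz.1 hp).1 hd
  · rw [if_neg]
    · push Not at hr
      obtain ⟨h, hh, h2⟩ := hr
      rw [prod_eq_zero hh, mul_zero]
      unfold ro
      rw [if_neg h2]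
    · intro hc
      apply hr
      intro h hh q hq hqy hqd
      exact hc q (mem_pz.2 ⟨hqy, hq⟩) ⟨h, hh, hqd⟩

/-- linearity -/
lemma SE_split (F : ℕ → ℝ) (z N : ℕ) (H : Finset ℕ) :
    SE F z N H = SE (fun n => (1 + F n) / 2) z N H - SE (fun n => (1 - F n) / 2) z N H := by
  unfold SE
  rw [← sum_sub_distrib]
  refine sum_congr rfl fun n _ => ?_
  ring

lemma RE_split (F : ℕ → ℝ) (y N : ℕ) (H : Finset ℕ) :
    RE F y N H = RE (fun n => (1 + F n) / 2) y N H - RE (fun n => (1 - F n) / 2) y N H := by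
  unfold RE
  rw [← sum_sub_distrib]
  refine sum_congr rfl fun n _ => ?_
  ring

lemma RE_one (F : ℕ → ℝ) (y N : ℕ) (H : Finset ℕ) :
    RE (fun _ => 1) y N H = RE (fun n => (1 + F n) / 2) y N H + RE (fun n => (1 - F n) / 2) y N H := by
  unfold RE
  rw [← sum_add_distrib]
  refine sum_congr rfl fun n _ => ?_
  ring

open Classical in
/-- **the formula for arbitrary real weights** -/
theorem genF (k U : ℕ) (ε : ℝ) (hε : 0 < ε) : ∃ δ : ℝ, 1 / 2 ≤ δ ∧ δ < 1 ∧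
    ∃ ξ : ℝ, 0 < ξ ∧ ξ ≤ 1 / 8 ∧ ξ ≤ ε ∧ ∃ κ : ℝ, 0 < κ ∧ κ ≤ 1 ∧ ∃ B : ℕ, ∀ᶠ N : ℕ in atTop,
    ∀ F : ℕ → ℝ, (∀ n, |F n| ≤ 1) →
    ∀ A : Finset ℕ, (∀ a ∈ A, 1 ≤ a ∧ a ≤ N) → ∀ Bad : Finset (Finset ℕ),
    (∀ H ∈ Bad, H ∈ A.powersetCard (k + 1) ∧
      ε * ((2 * Real.log N / Vz (yN κ N)) ^ (k + 1) * RE (fun _ => 1) (yN κ N) N H) + N / Real.log N ^ U <
        |SE F (zN ξ N) N H - (2 * Real.log N / Vz (yN κ N)) ^ (k + 1) * RE F (yN κ N) N H|) →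
    (Bad.card : ℝ) ≤ 2 * (A.card.choose k * ((N : ℝ) ^ δ * Real.log N ^ B)) := by
  obtain ⟨δ, hδ1, hδ2, ξ, hξ, hξ8, hξx, κ, hκ, hκ1, B, HP⟩ := genL k (U + 1) ε hε
  refine ⟨δ, hδ1, hδ2, ξ, hξ, hξ8, hξx, κ, hκ, hκ1, B, ?_⟩
  filter_upwards [HP, ev_logN (eventually_ge_atTop (2 : ℝ)), eventually_ge_atTop 3] with N hP hL2 hN F hF A hA Bad hBad
  obtain ⟨L, hL⟩ : ∃ L : ℝ, L = Real.log N := ⟨_, rfl⟩
  rw [← hL] at hL2 hBad hP ⊢
  have hL0 : 0 < L := by linarith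
  have hN0 : (0 : ℝ) < N := by exact_mod_cast (by omega : 0 < N)
  have hp : ∀ n, 0 ≤ (1 + F n) / 2 ∧ (1 + F n) / 2 ≤ 1 := by
    intro n
    obtain ⟨h1, h2⟩ := abs_le.1 (hF n)
    constructor <;> linarith
  have hm : ∀ n, 0 ≤ (1 - F n) / 2 ∧ (1 - F n) / 2 ≤ 1 := by
    intro n
    obtain ⟨h1, h2⟩ := abs_le.1 (hF n)
    constructor <;> linarith
  obtain ⟨W, hW⟩ : ∃ W : ℝ, W = (2 * L / Vz (yN κ N)) ^ (k + 1) := ⟨_, rfl⟩
  rw [← hW] at hBad hP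
  set Bp := Bad.filter (fun H => ε * (W * RE (fun n => (1 + F n) / 2) (yN κ N) N H) + N / L ^ (U + 1) <
    |SE (fun n => (1 + F n) / 2) (zN ξ N) N H - W * RE (fun n => (1 + F n) / 2) (yN κ N) N H|) with hBp
  set Bm := Bad.filter (fun H => ε * (W * RE (fun n => (1 - F n) / 2) (yN κ N) N H) + N / L ^ (U + 1) <
    |SE (fun n => (1 - F n) / 2) (zN ξ N) N H - W * RE (fun n => (1 - F n) / 2) (yN κ N) N H|) with hBm
  have h1 := hP (fun n => (1 + F n) / 2) hp A hA Bp fun H hH => by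
    rw [hBp, mem_filter] at hH
    exact ⟨(hBad H hH.1).1, hH.2⟩
  have h2 := hP (fun n => (1 - F n) / 2) hm A hA Bm fun H hH => by
    rw [hBm, mem_filter] at hH
    exact ⟨(hBad H hH.1).1, hH.2⟩
  have h3 : Bad ⊆ Bp ∪ Bm := by
    intro H hH
    rw [mem_union]
    by_contra hcon
    rw [not_or] at hcon
    obtain ⟨c1, c2⟩ := hcon
    have c1' : ¬ (ε * (W * RE (fun n => (1 + F n) / 2) (yN κ N) N H) + N / L ^ (U + 1) <
      |SE (fun n => (1 + F n) / 2) (zN ξ N) N H - W * RE (fun n => (1 + F n) / 2) (yN κ N) N H|) :=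
      fun h => c1 (by rw [hBp, mem_filter]; exact ⟨hH, h⟩)
    have c2' : ¬ (ε * (W * RE (fun n => (1 - F n) / 2) (yN κ N) N H) + N / L ^ (U + 1) <
      |SE (fun n => (1 - F n) / 2) (zN ξ N) N H - W * RE (fun n => (1 - F n) / 2) (yN κ N) N H|) :=
      fun h => c2 (by rw [hBm, mem_filter]; exact ⟨hH, h⟩)
    push Not at c1' c2'
    obtain ⟨_, hlt⟩ := hBad H hH
    apply absurd hlt
    push Not
    rw [SE_split F, RE_split F, RE_one F]
    have e1 : (N : ℝ) / L ^ (U + 1) ≤ N / L ^ U / 2 := by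
      rw [pow_succ, ← div_div]
      exact div_le_div_of_nonneg_left (by positivity) (by norm_num) hL2
    obtain ⟨a1, a2⟩ := abs_le.1 c1'
    obtain ⟨b1, b2⟩ := abs_le.1 c2'
    rw [abs_le]
    constructor <;> nlinarith
  have h4 : (Bad.card : ℝ) ≤ Bp.card + Bm.card := by
    exact_mod_cast (card_le_card h3).trans (card_union_le _ _)
  linarith

open Classical in
/-- **the Möbius function, squarefree forms and products of `Λ₂`** -/
theorem lioT (k s B' : ℕ) (ε : ℝ) (hε : 0 < ε) : ∃ δ : ℝ, 1 / 2 ≤ δ ∧ δ < 1 ∧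
    ∃ ξ : ℝ, 0 < ξ ∧ ξ ≤ 1 / 8 ∧ ξ ≤ ε ∧ ∃ B : ℕ, ∀ᶠ N : ℕ in atTop,
    ∀ (a : ℕ) (b : ℤ), 1 ≤ a → (a : ℝ) ≤ Real.log N ^ B' → |(b : ℝ)| ≤ N * Real.log N ^ B' →
    ∀ D : Finset ℤ, D.card ≤ s → (∀ d ∈ D, (∀ p : ℕ, p.Prime → p ∣ a → ¬ (p : ℤ) ∣ d) ∧ |(d : ℝ)| ≤ N * Real.log N ^ B') →
    ∀ A : Finset ℕ, (∀ a ∈ A, 1 ≤ a ∧ a ≤ N) → ∀ Bad : Finset (Finset ℕ),
    (∀ H ∈ Bad, H ∈ A.powersetCard (k + 1) ∧ Adm H ∧
      ε * CT H * (N * Real.log N ^ (k + 1)) <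
        |SE (fun n => lz (a * n + b) * ∏ d ∈ D, mz (a * n + d) ^ 2) (zN ξ N) N H|) →
    (Bad.card : ℝ) ≤ 2 * (A.card.choose k * ((N : ℝ) ^ δ * Real.log N ^ B)) := by
  obtain ⟨x, hx⟩ : ∃ x : ℝ, x = min (ε / 2 ^ (k + 4)) (1 / 8) := ⟨_, rfl⟩
  have hx0 : 0 < x := by rw [hx]; positivity
  have hx8 : x ≤ 1 / 8 := by rw [hx]; exact min_le_right _ _
  have hxε : x * 2 ^ (k + 4) ≤ ε := by
    have : x ≤ ε / 2 ^ (k + 4) := by rw [hx]; exact min_le_left _ _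
    rwa [le_div_iff₀ (by positivity)] at this
  have hxε' : x ≤ ε := by
    have : x * 1 ≤ x * 2 ^ (k + 4) := mul_le_mul_of_nonneg_left (one_le_pow₀ (by norm_num)) hx0.le
    linarith
  obtain ⟨δ, hδ1, hδ2, ξ, hξ, hξ8, hξx, κ, hκ, hκ1, B, HP⟩ := genF k 0 x hx0
  obtain ⟨cz, hcz, hV⟩ := Vz_sharp
  obtain ⟨c0, hc0, hlow⟩ := PT_low k
  obtain ⟨K, hK, HK⟩ := lz_D (k + 1) (by omega) s x hx0
  obtain ⟨X0, y0, HK⟩ := HK B'
  refine ⟨δ, hδ1, hδ2, ξ, hξ, hξ8, hξx.trans hxε', B, ?_⟩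
  obtain ⟨M, hM⟩ : ∃ M : ℕ, M = max (max 3 y0) ⌈((k : ℝ) + 1) ^ 2 * (2 / x)⌉₊ := ⟨_, rfl⟩
  have hint := int0 k κ x (2 * k + 3) hκ hκ1 hx0 (by linarith)
  have e1 := ev_logN (eventually_ge_atTop (max (max 2 (1 / x)) ((2 * x * (2 / cz) ^ (k + 1) + 1) / (ε / 2 * c0))))
  filter_upwards [HP, hint, yN_facts κ hκ hκ1 M K, e1, eventually_ge_atTop (max 3 X0)] with N hP hR hyf f1 hN a b ha haN hbN D hDs hD A hA Bad hBad
  have hN3 : 3 ≤ N := (le_max_left _ _).trans hN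
  have hNX : X0 ≤ N := (le_max_right _ _).trans hN
  obtain ⟨y1, y2, y3, y4, y5⟩ := hyf
  obtain ⟨L, hL⟩ : ∃ L : ℝ, L = Real.log N := ⟨_, rfl⟩
  have hM3 : 3 ≤ M := by rw [hM]; exact (le_max_left _ _).trans (le_max_left _ _)
  have hMy0 : y0 ≤ M := by rw [hM]; exact (le_max_right _ _).trans (le_max_left _ _)
  have hyy : y0 ≤ yN κ N := hMy0.trans y5
  have hy3 : 3 ≤ yN κ N := hM3.trans y5
  have hsum := HK
  rw [← hL] at f1 hBad hP y3 hR ⊢
  obtain ⟨y, hyd⟩ : ∃ y : ℕ, y = yN κ N := ⟨_, rfl⟩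
  rw [← hyd] at y1 y2 y3 y4 y5 hR hP hyy hy3
  have hL2 : 2 ≤ L := (le_max_left _ _).trans ((le_max_left _ _).trans f1)
  have hL1 : 1 ≤ L := by linarith
  have hL0 : 0 < L := by linarith
  have hLc : (2 * x * (2 / cz) ^ (k + 1) + 1) / (ε / 2 * c0) ≤ L := (le_max_right _ _).trans f1
  rw [div_le_iff₀ (by positivity)] at hLc
  have hN0 : (0 : ℝ) < N := by exact_mod_cast (by omega : 0 < N)
  have hVy : 0 < Vz y := Vz_pos y
  have hyN : y ≤ N := (Nat.le_self_pow (by omega) y).trans y4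
  have hVlow : cz / L ≤ Vz y := by
    refine le_trans ?_ (hV y hy3)
    apply div_le_div_of_nonneg_left hcz.le
    · exact Real.log_pos (by exact_mod_cast (by omega : 1 < y))
    · rw [hL]; exact Real.log_le_log (by positivity) (by exact_mod_cast hyN)
  obtain ⟨F, hF⟩ : ∃ F : ℕ → ℝ, F = fun n : ℕ => lz (a * n + b) * ∏ d ∈ D, mz (a * n + d) ^ 2 := ⟨_, rfl⟩
  rw [← hF] at hBad
  have hF1 : ∀ n, |F n| ≤ 1 := by
    intro n
    rw [hF]
    dsimp only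
    rw [abs_mul]
    have h1 := lz_abs ((a : ℤ) * n + b)
    have h2 : |∏ d ∈ D, mz ((a : ℤ) * n + d) ^ 2| ≤ 1 := by
      rw [abs_prod]
      apply prod_le_one
      · intro d _
        exact abs_nonneg _
      · intro d _
        rw [abs_pow]
        exact pow_le_one₀ (abs_nonneg _) (mz_abs _)
    calc |lz ((a : ℤ) * n + b)| * |∏ d ∈ D, mz ((a : ℤ) * n + d) ^ 2| ≤ 1 * 1 :=
          mul_le_mul h1 h2 (abs_nonneg _) (by norm_num)
      _ = 1 := by norm_num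
  refine hP F hF1 A hA Bad fun H hH => ?_
  obtain ⟨b1, b2, b3⟩ := hBad H hH
  refine ⟨b1, ?_⟩
  by_contra hcon
  push Not at hcon
  apply absurd b3
  push Not
  rw [mem_powersetCard] at b1
  rw [pow_zero, div_one] at hcon
  -- the main term
  have hsv : Sv (k + 1) (QHH H) := sv_QHH b1.2.le b2
  have h1 := hsum (QHH H) hsv N y hNX hyy y4 a b ha haN hbN D hDs hD
  have h2 : RE F y N H = ∑ n ∈ RQ (QHH H) N y, lz (a * n + b) * ∏ d ∈ D, mz (a * n + d) ^ 2 := by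
    rw [RQ_sum]
    unfold RE
    rw [hF]
  have h3 : RE (fun _ => (1 : ℝ)) y N H = ((RQ (QHH H) N y).card : ℝ) := by
    have h4 := RQ_sum H N y (fun _ => 1)
    rw [sum_const, nsmul_eq_mul, mul_one] at h4
    rw [h4]
    rfl
  have h4 : RE (fun _ => (1 : ℝ)) y N H = (cR y N H : ℝ) := by
    unfold RE cR
    rw [card_eq_sum_ones, Nat.cast_sum, sum_filter]
    refine sum_congr rfl fun n _ => ?_
    by_cases hr : ∀ h ∈ H, Ro y (n + h)
    · rw [if_pos hr, Nat.cast_one, one_mul]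
      refine prod_eq_one fun i hi => ?_
      unfold ro
      rw [if_pos (hr _ hi)]
    · rw [if_neg hr]
      push Not at hr
      obtain ⟨t, ht, h2⟩ := hr
      rw [prod_eq_zero ht, mul_zero]
      unfold ro
      rw [if_neg h2]
  rw [← h2, ← h3] at h1
  obtain ⟨R1, hR1⟩ : ∃ R1 : ℝ, R1 = RE (fun _ => (1 : ℝ)) y N H := ⟨_, rfl⟩
  rw [← hR1] at h1 h4 hcon
  obtain ⟨W, hW⟩ : ∃ W : ℝ, W = (2 * L / Vz y) ^ (k + 1) := ⟨_, rfl⟩
  have hW0 : 0 ≤ W := by rw [hW]; positivity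
  rw [← hW] at hcon
  obtain ⟨P1, hP1⟩ : ∃ P1 : ℝ, P1 = PT H y := ⟨_, rfl⟩
  have hP0 : 0 ≤ P1 := by rw [hP1]; exact PT_nonneg _ _
  have h5 : R1 ≤ (1 + x) * (N * (P1 * Vz y ^ (k + 1))) + N / L ^ (2 * k + 3) := by
    have h6 := hR H b1.2
    rw [h4, hP1]
    have h7 := (abs_le.1 h6).2
    have h8 : ((cR y N H : ℕ) : ℝ) - N * (PT H y * Vz y ^ (k + 1)) ≤
      x * (N * (PT H y * Vz y ^ (k + 1))) + N / L ^ (2 * k + 3) := h7
    linarith
  obtain ⟨l1, l2⟩ := hlow H b1.2 b2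
  have hPC : P1 ≤ (1 + x) * CT H := by
    rw [hP1]
    refine PT_le_CT H x hx0 (by linarith) y ?_ (by omega)
    rw [b1.2]
    have g1 : ((k : ℝ) + 1) ^ 2 * (2 / x) ≤ M := by
      rw [hM]
      push_cast
      exact (Nat.le_ceil _).trans (le_max_right _ _)
    have g2 : (M : ℝ) ≤ y := by exact_mod_cast y5
    have e : (((k + 1 : ℕ) : ℝ)) ^ 2 = ((k : ℝ) + 1) ^ 2 := by push_cast; ring
    rw [e]
    linarith
  have hCT : 0 < CT H := by linarith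
  have h6 : W * R1 ≤ (1 + x) ^ 2 * (2 ^ (k + 1) * (CT H * (N * L ^ (k + 1)))) + (2 / cz) ^ (k + 1) * (N / L) := by
    have g1 : 2 * L / Vz y ≤ 2 / cz * L ^ 2 := by
      rw [div_le_iff₀ hVy]
      have h1 : 2 / cz * L ^ 2 * (cz / L) ≤ 2 / cz * L ^ 2 * Vz y := mul_le_mul_of_nonneg_left hVlow (by positivity)
      have h2 : 2 / cz * L ^ 2 * (cz / L) = 2 * L := by field_simp
      linarith
    have g2 : W * (N / L ^ (2 * k + 3)) ≤ (2 / cz) ^ (k + 1) * (N / L) := by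
      calc W * (N / L ^ (2 * k + 3)) ≤ (2 / cz * L ^ 2) ^ (k + 1) * (N / L ^ (2 * k + 3)) := by
            rw [hW]
            apply mul_le_mul_of_nonneg_right _ (by positivity)
            exact pow_le_pow_left₀ (by positivity) g1 _
        _ = (2 / cz) ^ (k + 1) * (N / L) := by
            rw [mul_pow, ← pow_mul]
            have : L ^ (2 * k + 3) = L ^ (2 * (k + 1)) * L := by rw [← pow_succ]; congr 1
            rw [this]
            field_simp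
    have g3 : W * (N * (P1 * Vz y ^ (k + 1))) = 2 ^ (k + 1) * (P1 * (N * L ^ (k + 1))) := by
      rw [hW, div_pow, mul_pow]
      field_simp
    have g4 : W * R1 ≤ W * ((1 + x) * (N * (P1 * Vz y ^ (k + 1))) + N / L ^ (2 * k + 3)) := mul_le_mul_of_nonneg_left h5 hW0
    have g5 : W * ((1 + x) * (N * (P1 * Vz y ^ (k + 1))) + N / L ^ (2 * k + 3)) =
      (1 + x) * (W * (N * (P1 * Vz y ^ (k + 1)))) + W * (N / L ^ (2 * k + 3)) := by ring
    rw [g5, g3] at g4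
    have g6 : (1 + x) * (2 ^ (k + 1) * (P1 * (N * L ^ (k + 1)))) ≤ (1 + x) * (2 ^ (k + 1) * ((1 + x) * CT H * (N * L ^ (k + 1)))) := by
      gcongr
    have g7 : (1 + x) * (2 ^ (k + 1) * ((1 + x) * CT H * (N * L ^ (k + 1)))) = (1 + x) ^ 2 * (2 ^ (k + 1) * (CT H * (N * L ^ (k + 1)))) := by
      ring
    linarith
  -- the sum
  have h7 : |SE F (zN ξ N) N H| ≤ 2 * x * (W * R1) + N := by
    have g1 : |W * RE F y N H| ≤ x * (W * R1) := by
      rw [abs_mul, abs_of_nonneg hW0]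
      calc W * |RE F y N H| ≤ W * (x * R1) := mul_le_mul_of_nonneg_left h1 hW0
        _ = _ := by ring
    have g2 := abs_add_le (SE F (zN ξ N) N H - W * RE F y N H) (W * RE F y N H)
    rw [sub_add_cancel] at g2
    linarith
  refine h7.trans ?_
  obtain ⟨Y, hY⟩ : ∃ Y : ℝ, Y = CT H * (N * L ^ (k + 1)) := ⟨_, rfl⟩
  have hY0 : 0 < Y := by rw [hY]; positivity
  rw [← hY] at h6
  have e2 : ε * CT H * (N * L ^ (k + 1)) = ε * Y := by rw [hY]; ring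
  rw [e2]
  have h8 : 2 * x * (W * R1) ≤ 2 * x * ((1 + x) ^ 2 * (2 ^ (k + 1) * Y)) + 2 * x * (2 / cz) ^ (k + 1) * N := by
    have g1 := mul_le_mul_of_nonneg_left h6 (show 0 ≤ 2 * x by linarith)
    have g2 : (N : ℝ) / L ≤ N := div_le_self hN0.le hL1
    have g3 : 2 * x * ((2 / cz) ^ (k + 1) * (N / L)) ≤ 2 * x * ((2 / cz) ^ (k + 1) * N) := by gcongr
    have g4 : 2 * x * ((1 + x) ^ 2 * (2 ^ (k + 1) * Y) + (2 / cz) ^ (k + 1) * (N / L)) =
      2 * x * ((1 + x) ^ 2 * (2 ^ (k + 1) * Y)) + 2 * x * ((2 / cz) ^ (k + 1) * (N / L)) := by ring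
    rw [g4] at g1
    have g5 : 2 * x * (2 / cz) ^ (k + 1) * N = 2 * x * ((2 / cz) ^ (k + 1) * N) := by ring
    rw [g5]
    linarith
  have h9 : 2 * x * ((1 + x) ^ 2 * (2 ^ (k + 1) * Y)) ≤ ε / 2 * Y := by
    have g1 : (1 + x) ^ 2 ≤ 2 := by nlinarith
    have g2 : 2 * x * ((1 + x) ^ 2 * (2 ^ (k + 1) * Y)) ≤ 2 * x * (2 * (2 ^ (k + 1) * Y)) := by gcongr
    have g3 : 2 * x * (2 * (2 ^ (k + 1) * Y)) = x * 2 ^ (k + 4) / 2 * Y := by
      have : (2 : ℝ) ^ (k + 4) = 2 ^ (k + 1) * 8 := by rw [pow_add, pow_add]; norm_num; ring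
      rw [this]
      ring
    have g4 : x * 2 ^ (k + 4) / 2 * Y ≤ ε / 2 * Y := by gcongr
    linarith
  have h10 : 2 * x * (2 / cz) ^ (k + 1) * N + N ≤ ε / 2 * Y := by
    have g1 : c0 * (N * L) ≤ Y := by
      rw [hY]
      have : L ≤ L ^ (k + 1) := le_self_pow₀ hL1 (by omega)
      gcongr
    have g2 : (2 * x * (2 / cz) ^ (k + 1) + 1) * N ≤ L * (ε / 2 * c0) * N := mul_le_mul_of_nonneg_right hLc hN0.le
    have g3 : L * (ε / 2 * c0) * N = ε / 2 * (c0 * (N * L)) := by ring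
    have g4 : ε / 2 * (c0 * (N * L)) ≤ ε / 2 * Y := mul_le_mul_of_nonneg_left g1 (by linarith)
    linarith
  linarith

end Pool.Agent.H528.Lio
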